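import Pool.Agent.NSD.Abstract

/-!
# MP_fd8964_an, weak density of good initial data: abstract part (definitions and interface statements)

See /team-store/MP_fd8964_WEAKDENSE_PROOF.md, section 3.  `D : Data V K` is the abstract Navier-Stokes data of
`Pool.Agent.NSD.Abstract`.
-/

open MeasureTheory Set Filter Topology
open scoped RealInnerProductSpace

noncomputable section

namespace Pool.Agent.NSK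

open Pool.Agent.NSD

section
variable {V K : Type*} [NormedAddCommGroup V] [InnerProductSpace ℝ V]
    [NormedAddCommGroup K] [InnerProductSpace ℝ K]

/-- `p` is bounded by `m` (abstract form of a sup norm bound). -/
def StarBd (D : Data V K) (p : V) (m : ℝ) : Prop :=
  ∀ x y : V, |D.b x y p| ≤ m * ‖D.ι x‖ * D.sig y ∧ |D.b p y x| ≤ m * ‖D.ι x‖ * D.sig y

/-- The weight `exp (-c N² t)`. -/
def ex (c N t : ℝ) : ℝ := Real.exp (-(c * N ^ 2 * t))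

/-- An initial layer `P` of frequency `N` around the initial value `s₀`, with residual `ρ`. -/
structure Layer (D : Data V K) (η M c N : ℝ) (s₀ : V) (P P' : ℝ → V) (ρ : ℝ → K) : Prop where
  deriv : ∀ t, 0 ≤ t → HasDerivWithinAt P (P' t) (Ici 0) t
  contP' : ContinuousOn P' (Ici 0)
  contρ : ContinuousOn ρ (Ici 0)
  eq : ∀ t, 0 ≤ t → ∀ v, ⟪D.ι (P' t), D.ι v⟫ + η * D.a (P t) v + D.b (P t) (P t) v
    + D.b s₀ (P t) v + D.b (P t) s₀ v = ⟪ρ t, D.ι v⟫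
  star : ∀ t, 0 ≤ t → StarBd D (P t) (M * N * ex c N t)
  starD : ∀ t h, 0 ≤ t → 0 ≤ h → h ≤ 1 → StarBd D (P (t + h) - P t) (M * N ^ 3 * h * ex c N t)
  rho : ∀ t, 0 ≤ t → ‖ρ t‖ ≤ M * N * ex c N t
  rhoD : ∀ t h, 0 ≤ t → 0 ≤ h → h ≤ 1 → ‖ρ (t + h) - ρ t‖ ≤ M * N ^ 3 * h * ex c N t
  iP : ∀ t, 0 ≤ t → ‖D.ι (P t)‖ ≤ M * N * ex c N t
  iPD : ∀ t h, 0 ≤ t → 0 ≤ h → h ≤ 1 → ‖D.ι (P (t + h) - P t)‖ ≤ M * N ^ 3 * h * ex c N t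
  sigP : ∀ t, 0 ≤ t → D.sig (P t) ≤ M * N ^ 2 * ex c N t

/-- `u` (with derivative `w`) solves the Navier-Stokes problem with force `f` for a.e. `t ∈ (0,T)`. -/
structure SolOn (D : Data V K) (η : ℝ) (f : ℝ → (V →L[ℝ] ℝ)) (T : ℝ) (u w : ℝ → V) : Prop where
  h1 : IsH1loc u w
  eq : ∀ᵐ t ∂(volume.restrict (Ioc 0 T)), ∀ v,
    ⟪D.ι (w t), D.ι v⟫ + η * D.a (u t) v + D.b (u t) (u t) v = f t v

/-- Quantitative bounds for the background solution `S` (derivative `W`) on `(0,T)`. -/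
structure BdOn (D : Data V K) (C T : ℝ) (S W : ℝ → V) : Prop where
  iW : ∀ᵐ t ∂(volume.restrict (Ioc 0 T)), ‖D.ι (W t)‖ ≤ C
  sig : ∀ t ∈ Icc 0 T, D.sig (S t) ≤ C
  int4 : ∫ t in (0 : ℝ)..T, D.sig (S t) ^ 4 ≤ C
  intW : ∫ t in (0 : ℝ)..T, D.sig (W t) ^ 2 ≤ C

/-- `u` (derivative `w`) solves, for all times, the problem with the nonlocal viscosity `η + phi 1 κ (σ(u))`. -/
structure ModSol (D : Data V K) (η κ : ℝ) (f : ℝ → (V →L[ℝ] ℝ)) (u w : ℝ → V) : Prop where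
  h1 : IsH1loc u w
  iw : ∀ T : ℝ, ∃ C : ℝ, ∀ᵐ t ∂(volume.restrict (Ioc 0 T)), ‖D.ι (w t)‖ ≤ C
  eq : ∀ᵐ t ∂(volume.restrict (Ioi (0 : ℝ))), ∀ v, ⟪D.ι (w t), D.ι v⟫
    + (η + phi 1 κ (D.sig (u t))) * D.a (u t) v + D.b (u t) (u t) v = f t v

/-- A global regular solution of the unforced problem which decays. -/
structure GoodSol (D : Data V K) (η : ℝ) (u w : ℝ → V) : Prop where
  h1 : IsH1loc u w
  eq : ∀ᵐ t ∂(volume.restrict (Ioi (0 : ℝ))), ∀ v,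
    ⟪D.ι (w t), D.ι v⟫ + η * D.a (u t) v + D.b (u t) (u t) v = 0
  bd : ∃ C : ℝ, ∀ T : ℝ, 0 ≤ T → BdOn D C T u w
  decay : Tendsto (fun t => ‖D.ι (u t)‖) atTop (𝓝 0)
  decay' : ∀ δ : ℝ, 0 < δ → ∃ T₀ : ℝ, 0 ≤ T₀ ∧ ∀ᵐ t ∂(volume.restrict (Ioi T₀)), ‖D.ι (w t)‖ ≤ δ

end

/-! ## Interface statements (abstract part).  `z t := u t - S t - P t`. -/

/-- E0. Energy identity for `H¹_loc` functions: `‖ι x(t)‖² = ‖ι x(s)‖² + 2 ∫ₛᵗ ⟪ι x', ι x⟫`. -/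
def Stmt_EnergyId : Prop := ∀ (V K : Type) [NormedAddCommGroup V] [InnerProductSpace ℝ V] [CompleteSpace V]
    [NormedAddCommGroup K] [InnerProductSpace ℝ K] (ι : V →L[ℝ] K) (x x₁ : ℝ → V), IsH1loc x x₁ →
    ∀ s t : ℝ, 0 ≤ s → s ≤ t →
      IntervalIntegrable (fun r => ⟪ι (x₁ r), ι (x r)⟫) volume s t ∧
      ‖ι (x t)‖ ^ 2 = ‖ι (x s)‖ ^ 2 + 2 * ∫ r in s..t, ⟪ι (x₁ r), ι (x r)⟫

/-- Gr. Gronwall inequality in integral form: `y` continuous, `y t - y s ≤ ∫ₛᵗ (Λ y + r - g)`. -/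
def Stmt_GronwallInt : Prop := ∀ (T : ℝ) (y Λ r g : ℝ → ℝ),
    ContinuousOn y (Icc 0 T) → ContinuousOn Λ (Icc 0 T) → ContinuousOn r (Icc 0 T) → ContinuousOn g (Icc 0 T) →
    (∀ t ∈ Icc 0 T, 0 ≤ Λ t) → (∀ t ∈ Icc 0 T, 0 ≤ r t) → (∀ t ∈ Icc 0 T, 0 ≤ g t) → 0 ≤ y 0 →
    (∀ t ∈ Icc 0 T, y t ≤ y 0 + ∫ s in (0 : ℝ)..t, (Λ s * y s + r s - g s)) →
    ∀ t ∈ Icc 0 T, y t + ∫ s in (0 : ℝ)..t, g s ≤
      (y 0 + ∫ s in (0 : ℝ)..t, r s) * Real.exp (∫ s in (0 : ℝ)..t, Λ s)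

/-- E1. First estimate for `z = u - S - P`. -/
def Stmt_E1 : Prop := ∀ (V K : Type) [NormedAddCommGroup V] [InnerProductSpace ℝ V] [CompleteSpace V]
    [NormedAddCommGroup K] [InnerProductSpace ℝ K] (D : Data V K) (η M c CS : ℝ),
    0 < η → 0 ≤ M → 0 < c → 0 ≤ CS → ∃ C₁ : ℝ, 0 ≤ C₁ ∧
    ∀ (N τ : ℝ) (f : ℝ → (V →L[ℝ] ℝ)) (S W u w P P' : ℝ → V) (ρ : ℝ → K), 1 ≤ N → 0 ≤ τ →
      SolOn D η f τ S W → BdOn D CS τ S W → SolOn D η f τ u w →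
      Layer D η M c N (S 0) P P' ρ → u 0 = S 0 + P 0 →
      (∀ t ∈ Icc 0 τ, ‖D.ι (u t - S t - P t)‖ ^ 2
        + η * ∫ s in (0 : ℝ)..t, D.sig (u s - S s - P s) ^ 2 ≤ C₁ / N ^ 2) ∧
      (∀ h ∈ Icc 0 τ, h ≤ 1 → ‖D.ι (u h - S h - P h)‖ ^ 2 ≤ C₁ * N ^ 2 * h ^ 2)

/-- E2. Estimate for the time differences of `z`, if `σ(z)² ≤ X ≤ N` on `[0,τ]`. -/
def Stmt_E2 : Prop := ∀ (V K : Type) [NormedAddCommGroup V] [InnerProductSpace ℝ V] [CompleteSpace V]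
    [NormedAddCommGroup K] [InnerProductSpace ℝ K] (D : Data V K) (η M c CS : ℝ),
    0 < η → 0 ≤ M → 0 < c → 0 ≤ CS → ∃ C₂ : ℝ, 0 ≤ C₂ ∧
    ∀ (N τ X : ℝ) (f : ℝ → (V →L[ℝ] ℝ)) (S W u w P P' : ℝ → V) (ρ : ℝ → K), 1 ≤ N → 0 ≤ τ →
      SolOn D η f τ S W → BdOn D CS τ S W → SolOn D η f τ u w →
      Layer D η M c N (S 0) P P' ρ → u 0 = S 0 + P 0 →
      0 ≤ X → X ≤ N → (∀ t ∈ Icc 0 τ, D.sig (u t - S t - P t) ^ 2 ≤ X) →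
      ∀ t h : ℝ, 0 ≤ t → 0 ≤ h → h ≤ 1 → t + h ≤ τ →
        ‖D.ι ((u (t + h) - S (t + h) - P (t + h)) - (u t - S t - P t))‖ ^ 2 ≤ C₂ * (N ^ 2 + X) * h ^ 2

/-- E3. Pointwise bound for `σ(z)`. -/
def Stmt_E3 : Prop := ∀ (V K : Type) [NormedAddCommGroup V] [InnerProductSpace ℝ V] [CompleteSpace V]
    [NormedAddCommGroup K] [InnerProductSpace ℝ K] (D : Data V K) (η M c CS : ℝ),
    0 < η → 0 ≤ M → 0 < c → 0 ≤ CS → ∃ C₃ : ℝ, 0 ≤ C₃ ∧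
    ∀ (N τ X : ℝ) (f : ℝ → (V →L[ℝ] ℝ)) (S W u w P P' : ℝ → V) (ρ : ℝ → K), 1 ≤ N → 0 ≤ τ →
      SolOn D η f τ S W → BdOn D CS τ S W → SolOn D η f τ u w →
      Layer D η M c N (S 0) P P' ρ → u 0 = S 0 + P 0 →
      0 ≤ X → X ≤ N → (∀ t ∈ Icc 0 τ, D.sig (u t - S t - P t) ^ 2 ≤ X) →
      ∀ t ∈ Icc 0 τ, D.sig (u t - S t - P t) ^ 2 ≤ C₃ * (1 + √X / N)

/-- FT. Theorem A (finite time): existence of a regular solution from `S 0 + P 0` on `[0,T]`, close to `S + P`.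
It is obtained as a solution of the nonlocal-viscosity problem (for all times). -/
def Stmt_FiniteT : Prop := ∀ (V K : Type) [NormedAddCommGroup V] [InnerProductSpace ℝ V] [CompleteSpace V]
    [NormedAddCommGroup K] [InnerProductSpace ℝ K] (D : Data V K) (η M c CS : ℝ),
    0 < η → 0 ≤ M → 0 < c → 0 ≤ CS → ∃ N₀ C : ℝ, 1 ≤ N₀ ∧ 0 ≤ C ∧
    ∀ (N T : ℝ) (f f₁ : ℝ → (V →L[ℝ] ℝ)) (S W P P' : ℝ → V) (ρ : ℝ → K) (h₀ : K), N₀ ≤ N → 0 ≤ T →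
      IsH1loc f f₁ → SolOn D η f T S W → BdOn D CS T S W →
      Layer D η M c N (S 0) P P' ρ →
      (∀ v, f 0 v - η * D.a (S 0 + P 0) v - D.b (S 0 + P 0) (S 0 + P 0) v = ⟪h₀, D.ι v⟫) →
      ∀ κ₀ : ℝ, ∃ (κ : ℝ) (u w : ℝ → V), κ₀ ≤ κ ∧ 0 < κ ∧ ModSol D η κ f u w ∧ u 0 = S 0 + P 0 ∧
        SolOn D η f T u w ∧ (∀ t ∈ Icc 0 T, D.sig (u t) ≤ κ) ∧
        (∀ t ∈ Icc 0 T, ‖D.ι (u t - S t - P t)‖ ≤ C / N ∧ D.sig (u t - S t - P t) ^ 2 ≤ C) ∧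
        (∫ s in (0 : ℝ)..T, D.sig (u s - S s - P s) ^ 2 ≤ C / N ^ 2)

/-- SD. Small data for the unforced (modified) problem. -/
def Stmt_Small : Prop := ∀ (V K : Type) [NormedAddCommGroup V] [InnerProductSpace ℝ V] [CompleteSpace V]
    [NormedAddCommGroup K] [InnerProductSpace ℝ K] (D : Data V K) (η : ℝ), 0 < η →
    ∃ c₀ κ₀ lam C : ℝ, 0 < c₀ ∧ 0 < κ₀ ∧ 0 < lam ∧ 0 ≤ C ∧
    ∀ (κ t₁ B : ℝ) (u w : ℝ → V), κ₀ ≤ κ → 0 ≤ t₁ → 0 ≤ B → ModSol D η κ 0 u w →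
      (∀ h : ℝ, 0 ≤ h → h ≤ 1 → ‖D.ι (u (t₁ + h) - u t₁)‖ ≤ B * h) → ‖D.ι (u t₁)‖ * B ≤ c₀ →
      (∀ t, t₁ ≤ t → D.sig (u t) ≤ κ₀ ∧ ‖D.ι (u t)‖ ≤ ‖D.ι (u t₁)‖ * Real.exp (-(lam * (t - t₁)))) ∧
      (∀ t h, t₁ ≤ t → 0 ≤ h → h ≤ 1 →
        ‖D.ι (u (t + h) - u t)‖ ≤ B * h * Real.exp (-(lam * (t - t₁)))) ∧
      (∀ T, t₁ ≤ T → ∫ s in t₁..T, D.sig (w s) ^ 2 ≤ C * B ^ 2)

/-- SM. Smoothing of the time differences of `z` on `[T₀, T₀+1]`. -/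
def Stmt_Smooth : Prop := ∀ (V K : Type) [NormedAddCommGroup V] [InnerProductSpace ℝ V] [CompleteSpace V]
    [NormedAddCommGroup K] [InnerProductSpace ℝ K] (D : Data V K) (η M c CS : ℝ),
    0 < η → 0 ≤ M → 0 < c → 0 ≤ CS → ∃ C₅ : ℝ, 0 ≤ C₅ ∧
    ∀ (N T₀ : ℝ) (f : ℝ → (V →L[ℝ] ℝ)) (S W u w P P' : ℝ → V) (ρ : ℝ → K), 1 ≤ N → 1 ≤ T₀ →
      SolOn D η f (T₀ + 2) S W → BdOn D CS (T₀ + 2) S W → SolOn D η f (T₀ + 2) u w →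
      Layer D η M c N (S 0) P P' ρ → u 0 = S 0 + P 0 →
      (∀ t ∈ Icc 0 (T₀ + 2), ‖D.ι (u t - S t - P t)‖ ≤ CS / N ∧ D.sig (u t - S t - P t) ^ 2 ≤ CS) →
      (∫ s in (0 : ℝ)..(T₀ + 2), D.sig (u s - S s - P s) ^ 2 ≤ CS / N ^ 2) →
      ∀ h : ℝ, 0 ≤ h → h ≤ 1 →
        ‖D.ι ((u (T₀ + 1 + h) - S (T₀ + 1 + h) - P (T₀ + 1 + h)) - (u (T₀ + 1) - S (T₀ + 1) - P (T₀ + 1)))‖ ^ 2
          ≤ C₅ * h ^ 2 * (1 / N ^ 2 + ∫ s in T₀..(T₀ + 2), D.sig (W s) ^ 2)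

/-- GL. Theorem A* (global, unforced). -/
def Stmt_Global : Prop := ∀ (V K : Type) [NormedAddCommGroup V] [InnerProductSpace ℝ V] [CompleteSpace V]
    [NormedAddCommGroup K] [InnerProductSpace ℝ K] (D : Data V K) (η M c : ℝ) (S W : ℝ → V),
    0 < η → 0 ≤ M → 0 < c → GoodSol D η S W → ∀ δ : ℝ, 0 < δ → ∃ N₀ : ℝ, 1 ≤ N₀ ∧
    ∀ (N : ℝ) (P P' : ℝ → V) (ρ : ℝ → K) (h₀ : K), N₀ ≤ N →
      Layer D η M c N (S 0) P P' ρ →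
      (∀ v, - η * D.a (S 0 + P 0) v - D.b (S 0 + P 0) (S 0 + P 0) v = ⟪h₀, D.ι v⟫) →
      ∃ u w : ℝ → V, GoodSol D η u w ∧ u 0 = S 0 + P 0 ∧ ∀ t, 0 ≤ t → ‖D.ι (u t - S t - P t)‖ ≤ δ

end Pool.Agent.NSK
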