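import Pool.Agent.NSK.Abs

/-!
# MP_fd8964_an, weak density: strengthened abstract interface (all constants independent of the time horizon)
-/

open MeasureTheory Set Filter Topology
open scoped RealInnerProductSpace

noncomputable section

namespace Pool.Agent.NSK

open Pool.Agent.NSD

/-- E2s. E2 together with the dissipation term. -/
def Stmt_E2s : Prop := ∀ (V K : Type) [NormedAddCommGroup V] [InnerProductSpace ℝ V] [CompleteSpace V]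
    [NormedAddCommGroup K] [InnerProductSpace ℝ K] (D : Data V K) (η M c CS : ℝ),
    0 < η → 0 ≤ M → 0 < c → 0 ≤ CS → ∃ C₂ : ℝ, 0 ≤ C₂ ∧
    ∀ (N τ X : ℝ) (f : ℝ → (V →L[ℝ] ℝ)) (S W u w P P' : ℝ → V) (ρ : ℝ → K), 1 ≤ N → 0 ≤ τ →
      SolOn D η f τ S W → BdOn D CS τ S W → SolOn D η f τ u w →
      Layer D η M c N (S 0) P P' ρ → u 0 = S 0 + P 0 →
      0 ≤ X → X ≤ N → (∀ t ∈ Icc 0 τ, D.sig (u t - S t - P t) ^ 2 ≤ X) →
      ∀ t h : ℝ, 0 ≤ t → 0 ≤ h → h ≤ 1 → t + h ≤ τ →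
        ‖D.ι ((u (t + h) - S (t + h) - P (t + h)) - (u t - S t - P t))‖ ^ 2
          + η * ∫ s in (0 : ℝ)..t, D.sig ((u (s + h) - S (s + h) - P (s + h)) - (u s - S s - P s)) ^ 2
          ≤ C₂ * (N ^ 2 + X) * h ^ 2

/-- FULL. Theorem A, for a family `TT` of time horizons (possibly unbounded): one solution `u` for all of them, with
bounds independent of the horizon. -/
def Stmt_Full : Prop := ∀ (V K : Type) [NormedAddCommGroup V] [InnerProductSpace ℝ V] [CompleteSpace V]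
    [NormedAddCommGroup K] [InnerProductSpace ℝ K] (D : Data V K) (η M c CS : ℝ),
    0 < η → 0 ≤ M → 0 < c → 0 ≤ CS → ∃ N₀ C : ℝ, 1 ≤ N₀ ∧ 0 ≤ C ∧
    ∀ (N : ℝ) (TT : Set ℝ) (f f₁ : ℝ → (V →L[ℝ] ℝ)) (S W P P' : ℝ → V) (ρ : ℝ → K) (h₀ : K), N₀ ≤ N →
      (∀ T ∈ TT, 0 ≤ T) → IsH1loc f f₁ → (∀ T ∈ TT, SolOn D η f T S W ∧ BdOn D CS T S W) →
      IsH1loc S W → D.sig (S 0) ≤ CS →
      Layer D η M c N (S 0) P P' ρ →
      (∀ v, f 0 v - η * D.a (S 0 + P 0) v - D.b (S 0 + P 0) (S 0 + P 0) v = ⟪h₀, D.ι v⟫) →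
      ∃ u w : ℝ → V, IsH1loc u w ∧ u 0 = S 0 + P 0 ∧
        (∃ C' : ℝ, ∀ T ∈ TT, SolOn D η f T u w ∧ BdOn D C' T u w) ∧
        (∀ T ∈ TT, (∀ t ∈ Icc 0 T, ‖D.ι (u t - S t - P t)‖ ≤ C / N ∧ D.sig (u t - S t - P t) ^ 2 ≤ C) ∧
          ∫ s in (0 : ℝ)..T, D.sig (u s - S s - P s) ^ 2 ≤ C / N ^ 2)

end Pool.Agent.NSK
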