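import Pool.Agent.NSK.Abs

/-!
# MP_fd8964_an, weak density: interface for the closeness in `V` after the initial layer
-/

open MeasureTheory Set Filter Topology
open scoped RealInnerProductSpace

noncomputable section

namespace Pool.Agent.NSK

open Pool.Agent.NSD

/-- SME. Smoothing of the time differences of `z` on `[e,τ]` (weight `(s - (t - e/2))²` on `[t - e/2, t]`). -/
def Stmt_SmoothE : Prop := ∀ (V K : Type) [NormedAddCommGroup V] [InnerProductSpace ℝ V] [CompleteSpace V]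
    [NormedAddCommGroup K] [InnerProductSpace ℝ K] (D : Data V K) (η M c CS e : ℝ),
    0 < η → 0 ≤ M → 0 < c → 0 ≤ CS → 0 < e → ∃ C₅ : ℝ, 0 ≤ C₅ ∧
    ∀ (N τ : ℝ) (f : ℝ → (V →L[ℝ] ℝ)) (S W u w P P' : ℝ → V) (ρ : ℝ → K), 1 ≤ N → 0 ≤ τ →
      SolOn D η f τ S W → BdOn D CS τ S W → SolOn D η f τ u w →
      Layer D η M c N (S 0) P P' ρ → u 0 = S 0 + P 0 →
      (∀ t ∈ Icc 0 τ, ‖D.ι (u t - S t - P t)‖ ≤ CS / N ∧ D.sig (u t - S t - P t) ^ 2 ≤ CS) →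
      (∫ s in (0 : ℝ)..τ, D.sig (u s - S s - P s) ^ 2 ≤ CS / N ^ 2) →
      ∀ t h : ℝ, e ≤ t → 0 ≤ h → h ≤ 1 → t + h ≤ τ →
        ‖D.ι ((u (t + h) - S (t + h) - P (t + h)) - (u t - S t - P t))‖ ^ 2 ≤ C₅ * h ^ 2

/-- E4. Closeness in `V` after the time `e`. -/
def Stmt_E4 : Prop := ∀ (V K : Type) [NormedAddCommGroup V] [InnerProductSpace ℝ V] [CompleteSpace V]
    [NormedAddCommGroup K] [InnerProductSpace ℝ K] (D : Data V K) (η M c CS e : ℝ),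
    0 < η → 0 ≤ M → 0 < c → 0 ≤ CS → 0 < e → ∃ C₆ : ℝ, 0 ≤ C₆ ∧
    ∀ (N τ : ℝ) (f : ℝ → (V →L[ℝ] ℝ)) (S W u w P P' : ℝ → V) (ρ : ℝ → K), 1 ≤ N → 0 ≤ τ →
      SolOn D η f τ S W → BdOn D CS τ S W → SolOn D η f τ u w →
      Layer D η M c N (S 0) P P' ρ → u 0 = S 0 + P 0 →
      (∀ t ∈ Icc 0 τ, ‖D.ι (u t - S t - P t)‖ ≤ CS / N ∧ D.sig (u t - S t - P t) ^ 2 ≤ CS) →
      (∫ s in (0 : ℝ)..τ, D.sig (u s - S s - P s) ^ 2 ≤ CS / N ^ 2) →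
      ∀ t ∈ Icc e τ, D.sig (u t - S t - P t) ^ 2 ≤ C₆ / N

end Pool.Agent.NSK
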