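import Pool.Agent.NSK.Conc

/-!
# MP_fd8964_an (squad NSK), module TB3: `trilin p q v = ∫ (p·∇)q · v` for test fields
-/

open MeasureTheory Set Filter Topology
open scoped RealInnerProductSpace ContDiff

noncomputable section

namespace Pool.Agent.NSK

open Pool.Agent.NSD

namespace Adv

theorem sum_e (y : E) : y = ∑ i : Fin 3, y i • e i := by
  ext j
  simp only [PiLp.smul_apply, smul_eq_mul, e, WithLp.ofLp_sum, Finset.sum_apply]
  fin_cases j <;> simp

theorem adv_eq (p q : E → E) (x : E) : adv p q x = ∑ i : Fin 3, p x i • fderiv ℝ q x (e i) := by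
  unfold adv
  conv_lhs => rw [sum_e (p x)]
  rw [map_sum]
  simp only [map_smul]

end Adv

/-- **TB3.** -/
theorem adv_proof : Stmt_Adv := by
  intro Ω _ _ p q pV qV _ _ hp hq v
  unfold trilin
  refine integral_congr_ae ?_
  filter_upwards [hp.1, hq.2] with x h1 h2
  have h1' : (fld pV : E → E) x = p x := h1
  have h2' : (grd qV : E → G) x = gradField q x := h2
  rw [h1', h2', Adv.adv_eq, sum_inner]
  refine Finset.sum_congr rfl (fun i _ => ?_)
  rw [real_inner_smul_left]
  rfl

end Pool.Agent.NSK
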