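import Pool.Agent.NSK.BaseCalc

/-!
# NSK, module Base: moments
-/

open MeasureTheory Set Filter Topology
open scoped RealInnerProductSpace ContDiff

noncomputable section

namespace Pool.Agent.NSK.Base

open Pool.Agent.NSD Pool.Agent.NSK

theorem bump_mul_left {Ω : Set E} {f u : E → ℝ} (hf : ContDiff ℝ ∞ f) (hu : IsBump Ω u) :
    IsBump Ω (fun x => f x * u x) := by
  have hs : tsupport (fun x => f x * u x) ⊆ tsupport u := by
    refine closure_mono ?_
    intro x hx
    simp only [Function.mem_support, ne_eq] at hx ⊢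
    intro h0
    apply hx
    rw [h0, mul_zero]
  exact ⟨hf.mul hu.1, hu.2.1.of_isClosed_subset (isClosed_tsupport _) hs, hs.trans hu.2.2⟩

theorem bump_integrable {Ω : Set E} {u : E → ℝ} (hu : IsBump Ω u) : Integrable u :=
  hu.1.continuous.integrable_of_hasCompactSupport hu.2.1

/-- Integration by parts with a smooth function and a bump. -/
theorem mom_parts {Ω : Set E} {f u : E → ℝ} (hf : ContDiff ℝ ∞ f) (hu : IsBump Ω u) (v : E) :
    ∫ x, f x * dd v u x = - ∫ x, dd v f x * u x := by
  have i1 : Integrable (fun x => fderiv ℝ f x v * u x) := bump_integrable (bump_mul_left (dd_contDiff hf v) hu)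
  have i2 : Integrable (fun x => f x * fderiv ℝ u x v) := bump_integrable (bump_mul_left hf (IsBump.dd hu v))
  have i3 : Integrable (fun x => f x * u x) := bump_integrable (bump_mul_left hf hu)
  exact integral_mul_fderiv_eq_neg_fderiv_mul_of_integrable i1 i2 i3
    (fun x _ => diff_of hf x) (fun x _ => diff_of hu.1 x)

theorem mom0 {Ω : Set E} {u : E → ℝ} (hu : IsBump Ω u) (v : E) : ∫ x, dd v u x = 0 := by
  have h := mom_parts (f := fun _ => (1 : ℝ)) contDiff_const hu v
  have h2 : ∀ x, dd v (fun _ : E => (1 : ℝ)) x = 0 := by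
    intro x
    unfold dd
    simp
  simpa [h2] using h

theorem mom1 {Ω : Set E} {u : E → ℝ} (hu : IsBump Ω u) (v : E) (i : Fin 3) :
    ∫ x : E, x i * dd v u x = - (v i * ∫ x, u x) := by
  have h := mom_parts (inner_contDiff (e i)) hu v
  have h2 : ∀ x, dd v (fun y : E => ⟪y, e i⟫) x = v i := by
    intro x
    have h1 : HasFDerivAt (fun y : E => ⟪y, e i⟫) ((innerSL ℝ).flip (e i)) x :=
      ((innerSL ℝ).flip (e i)).hasFDerivAt
    unfold dd
    rw [h1.fderiv]
    simp only [ContinuousLinearMap.flip_apply, innerSL_apply_apply]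
    exact inner_e v i
  simp only [h2] at h
  simp only [inner_e] at h
  rw [h, integral_const_mul]

theorem mom2 {Ω : Set E} {u : E → ℝ} (hu : IsBump Ω u) : ∫ x : E, lap u x = 0 := by
  unfold lap
  rw [integral_finsetSum]
  · exact Finset.sum_eq_zero fun l _ => mom0 (IsBump.dd hu (e l)) (e l)
  · intro l _
    exact bump_integrable (IsBump.dd (IsBump.dd hu (e l)) (e l))

theorem mom3 {Ω : Set E} {u : E → ℝ} (hu : IsBump Ω u) (i : Fin 3) : ∫ x : E, x i * lap u x = 0 := by
  unfold lap
  simp only [Finset.mul_sum]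
  have hx : ContDiff ℝ ∞ (fun x : E => x i) := by
    have := inner_contDiff (e i)
    simpa only [inner_e] using this
  rw [integral_finsetSum]
  · refine Finset.sum_eq_zero fun l _ => ?_
    rw [mom1 (IsBump.dd hu (e l)) (e l) i, mom0 hu (e l), mul_zero, neg_zero]
  · intro l _
    exact bump_integrable (bump_mul_left hx (IsBump.dd (IsBump.dd hu (e l)) (e l)))

/-- Radial bumps. -/
theorem rad_bump {P : ℝ → ℝ} (hP : ContDiff ℝ ∞ P) {s₁ : ℝ} (h1 : s₁ < 1) (hz : ∀ s, s₁ ≤ s → P s = 0) :
    IsBump (Metric.ball 0 1) (rad P) := by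
  have hs : tsupport (rad P) ⊆ {y : E | ‖y‖ ^ 2 ≤ s₁} := by
    refine closure_minimal ?_ (isClosed_le (by fun_prop) continuous_const)
    intro y hy
    by_contra h
    apply hy
    simp only [mem_ofPred_eq, not_le] at h
    exact hz _ h.le
  have hb : {y : E | ‖y‖ ^ 2 ≤ s₁} ⊆ Metric.ball 0 1 := by
    intro y hy
    simp only [mem_ofPred_eq] at hy
    rw [mem_ball_zero_iff]
    have h0 := norm_nonneg y
    nlinarith
  refine ⟨rad_contDiff hP, ?_, hs.trans hb⟩
  refine (isCompact_closedBall (0 : E) 1).of_isClosed_subset (isClosed_tsupport _) ?_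
  exact (hs.trans hb).trans Metric.ball_subset_closedBall

theorem sq_bump {Ω : Set E} {a : E → ℝ} (ha : IsBump Ω a) : IsBump Ω (fun x => a x ^ 2) := by
  have h := bump_mul_left ha.1 ha
  simpa only [← sq] using h

end Pool.Agent.NSK.Base
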