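import Mathlib

/-!
# NSK, module Base: one-dimensional potentials
-/

open MeasureTheory Set Filter Topology
open scoped ContDiff

noncomputable section

namespace Pool.Agent.NSK.Base

theorem prim_hasDerivAt {f : ℝ → ℝ} (hf : Continuous f) (a s : ℝ) :
    HasDerivAt (fun s => ∫ x in a..s, f x) (f s) s :=
  intervalIntegral.integral_hasDerivAt_right (hf.intervalIntegrable _ _)
    (hf.stronglyMeasurableAtFilter _ _) hf.continuousAt

theorem prim_contDiff {f : ℝ → ℝ} (hf : ContDiff ℝ ∞ f) (a : ℝ) : ContDiff ℝ ∞ (fun s => ∫ x in a..s, f x) := by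
  rw [contDiff_infty_iff_deriv]
  refine ⟨fun s => (prim_hasDerivAt hf.continuous a s).differentiableAt, ?_⟩
  have : deriv (fun s => ∫ x in a..s, f x) = f := by
    funext s
    exact (prim_hasDerivAt hf.continuous a s).deriv
  rw [this]
  exact hf

/-- A smooth function vanishing for `s ≤ δ` may be multiplied by a power of `s`. -/
theorem rpow_mul_contDiff {u : ℝ → ℝ} (hu : ContDiff ℝ ∞ u) {δ : ℝ} (hδ : 0 < δ) (hz : ∀ s ≤ δ, u s = 0) (r : ℝ) :
    ContDiff ℝ ∞ (fun s => s ^ r * u s) := by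
  rw [contDiff_iff_contDiffAt]
  intro s
  by_cases h : 0 < s
  · exact (Real.contDiffAt_rpow_const_of_ne h.ne').mul hu.contDiffAt
  · have : (fun s : ℝ => s ^ r * u s) =ᶠ[𝓝 s] fun _ => 0 := by
      filter_upwards [Iio_mem_nhds (show s < δ by linarith)] with x hx
      rw [hz x (le_of_lt hx), mul_zero]
    exact contDiffAt_const.congr_of_eventuallyEq this

theorem supp_bounds {h : ℝ → ℝ} (hc : HasCompactSupport h) (hs : tsupport h ⊆ Ioo 0 1) :
    ∃ δ : ℝ, 0 < δ ∧ δ < 1 / 2 ∧ (∀ s ≤ δ, h s = 0) ∧ ∀ s, 1 - δ ≤ s → h s = 0 := by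
  have hK : IsCompact (tsupport h) := hc
  rcases (tsupport h).eq_empty_or_nonempty with h0 | hne
  · refine ⟨1 / 4, by norm_num, by norm_num, fun s _ => ?_, fun s _ => ?_⟩ <;>
    exact image_eq_zero_of_notMem_tsupport (by rw [h0]; exact notMem_empty _)
  · obtain ⟨a, ha, hmin⟩ := hK.exists_isMinOn hne continuousOn_id
    obtain ⟨b, hb, hmax⟩ := hK.exists_isMaxOn hne continuousOn_id
    have ha' := hs ha
    have hb' := hs hb
    refine ⟨min (min (a / 2) ((1 - b) / 2)) (1 / 4), ?_, ?_, fun s hs' => ?_, fun s hs' => ?_⟩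
    · have h1 := ha'.1
      have h2 := hb'.2
      refine lt_min (lt_min (by linarith) (by linarith)) (by norm_num)
    · exact lt_of_le_of_lt (min_le_right _ _) (by norm_num)
    · refine image_eq_zero_of_notMem_tsupport fun hmem => ?_
      have h1 : a ≤ s := hmin hmem
      have h2 : s ≤ a / 2 := hs'.trans ((min_le_left _ _).trans (min_le_left _ _))
      have h3 := ha'.1
      linarith
    · refine image_eq_zero_of_notMem_tsupport fun hmem => ?_
      have h1 : s ≤ b := hmax hmem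
      have h2 : min (min (a / 2) ((1 - b) / 2)) (1 / 4) ≤ (1 - b) / 2 := (min_le_left _ _).trans (min_le_right _ _)
      have h3 := hb'.2
      linarith

/-- Radial potentials. -/
theorem radPot (c : ℝ) {h : ℝ → ℝ} (hh : ContDiff ℝ ∞ h) (hc : HasCompactSupport h) (hs : tsupport h ⊆ Ioo 0 1)
    (hz : ∫ s in (0 : ℝ)..1, s ^ c * h s = 0) :
    ∃ Ψ : ℝ → ℝ, ContDiff ℝ ∞ Ψ ∧ (∃ s₁ < 1, ∀ s, s₁ ≤ s → Ψ s = 0) ∧
      ∀ s, 4 * s * deriv (deriv Ψ) s + (4 * (c + 1)) * deriv Ψ s = h s := by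
  obtain ⟨δ, hδ, hδ', hlo, hhi⟩ := supp_bounds hc hs
  have hk : ContDiff ℝ ∞ (fun s => s ^ c * h s) := rpow_mul_contDiff hh hδ hlo c
  have hki : ∀ a b : ℝ, IntervalIntegrable (fun s => s ^ c * h s) volume a b := fun a b =>
    hk.continuous.intervalIntegrable a b
  set H : ℝ → ℝ := fun s => ∫ x in (0 : ℝ)..s, x ^ c * h x with hH
  have hHc : ContDiff ℝ ∞ H := prim_contDiff hk 0
  have hHlo : ∀ s ≤ δ, H s = 0 := by
    intro s hs'
    rw [hH]
    refine intervalIntegral.integral_zero_ae (Eventually.of_forall fun x hx => ?_)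
    have : x ≤ δ := by
      rcases le_total 0 s with h0 | h0
      · rw [uIoc_of_le h0] at hx
        exact hx.2.trans hs'
      · rw [uIoc_of_ge h0] at hx
        linarith [hx.2]
    rw [hlo x this, mul_zero]
  have hHhi : ∀ s, 1 - δ ≤ s → H s = 0 := by
    intro s hs'
    have h1 : H s = (∫ x in (0 : ℝ)..1, x ^ c * h x) + ∫ x in (1 : ℝ)..s, x ^ c * h x :=
      (intervalIntegral.integral_add_adjacent_intervals (hki 0 1) (hki 1 s)).symm
    rw [h1, hz, zero_add]
    refine intervalIntegral.integral_zero_ae (Eventually.of_forall fun x hx => ?_)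
    have : 1 - δ ≤ x := by
      rcases le_total 1 s with h0 | h0
      · rw [uIoc_of_le h0] at hx
        linarith [hx.1]
      · rw [uIoc_of_ge h0] at hx
        linarith [hx.1]
    rw [hhi x this, mul_zero]
  set Fn : ℝ → ℝ := fun s => (1 / 4) * (s ^ (-(c + 1)) * H s) with hF
  have hFc : ContDiff ℝ ∞ Fn := contDiff_const.mul (rpow_mul_contDiff hHc hδ hHlo _)
  have hFlo : ∀ s ≤ δ, Fn s = 0 := by
    intro s hs'
    rw [hF]
    simp only [hHlo s hs', mul_zero]
  have hFhi : ∀ s, 1 - δ ≤ s → Fn s = 0 := by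
    intro s hs'
    rw [hF]
    simp only [hHhi s hs', mul_zero]
  refine ⟨fun s => ∫ x in (1 : ℝ)..s, Fn x, prim_contDiff hFc 1, ⟨1 - δ, by linarith, fun s hs' => ?_⟩, fun s => ?_⟩
  · refine intervalIntegral.integral_zero_ae (Eventually.of_forall fun x hx => ?_)
    have : 1 - δ ≤ x := by
      rcases le_total 1 s with h0 | h0
      · rw [uIoc_of_le h0] at hx
        linarith [hx.1]
      · rw [uIoc_of_ge h0] at hx
        linarith [hx.1]
    exact hFhi x this
  · have hd : deriv (fun s => ∫ x in (1 : ℝ)..s, Fn x) = Fn := by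
      funext s
      exact (prim_hasDerivAt hFc.continuous 1 s).deriv
    rw [hd]
    rcases le_or_gt s 0 with h0 | h0
    · have hev : Fn =ᶠ[𝓝 s] fun _ => 0 := by
        filter_upwards [Iio_mem_nhds (show s < δ by linarith)] with x hx
        exact hFlo x (le_of_lt hx)
      rw [hev.deriv_eq, hFlo s (by linarith), hlo s (by linarith)]
      simp
    · have hH' : HasDerivAt H (s ^ c * h s) s := prim_hasDerivAt hk.continuous 0 s
      have hp : HasDerivAt (fun s : ℝ => s ^ (-(c + 1))) (-(c + 1) * s ^ (-(c + 1) - 1)) s :=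
        Real.hasDerivAt_rpow_const (Or.inl h0.ne')
      have hF' : HasDerivAt Fn ((1 / 4) * (-(c + 1) * s ^ (-(c + 1) - 1) * H s
          + s ^ (-(c + 1)) * (s ^ c * h s))) s := (hp.mul hH').const_mul (1 / 4)
      rw [hF'.deriv]
      have e1 : s * s ^ (-(c + 1) - 1) = s ^ (-(c + 1)) := by
        rw [Real.rpow_sub_one h0.ne']
        field_simp
      have e2 : s * (s ^ (-(c + 1)) * s ^ c) = 1 := by
        rw [← Real.rpow_add h0]
        have : -(c + 1) + c = (-1 : ℝ) := by ring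
        rw [this, Real.rpow_neg_one, mul_inv_cancel₀ h0.ne']
      simp only [hF]
      calc 4 * s * (1 / 4 * (-(c + 1) * s ^ (-(c + 1) - 1) * H s + s ^ (-(c + 1)) * (s ^ c * h s)))
          + 4 * (c + 1) * (1 / 4 * (s ^ (-(c + 1)) * H s))
          = -(c + 1) * H s * (s * s ^ (-(c + 1) - 1)) + (s * (s ^ (-(c + 1)) * s ^ c)) * h s
            + (c + 1) * (s ^ (-(c + 1)) * H s) := by ring
        _ = h s := by rw [e1, e2]; ring

end Pool.Agent.NSK.Base
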