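import Pool.Agent.NSK.BaseVec
import Pool.Agent.NSK.BaseMom
import Pool.Agent.NSK.BasePot

/-!
# NSK, module Base: base kicks exist
-/

open MeasureTheory Set Filter Topology
open scoped RealInnerProductSpace ContDiff

noncomputable section

namespace Pool.Agent.NSK

open Pool.Agent.NSD

namespace Base

/-- Amplitudes. -/
def amp (g : ℝ → ℝ) (w : E) (y : E) : ℝ := g (‖y‖ ^ 2) * Real.sqrt (1 + (1 / 4) * ⟪y, w⟫)

theorem one_add_pos {w y : E} (hw : ‖w‖ ≤ 2) (hy : ‖y‖ < 1) : 0 < 1 + (1 / 4) * ⟪y, w⟫ := by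
  have h1 : |⟪y, w⟫| ≤ ‖y‖ * ‖w‖ := abs_real_inner_le_norm y w
  have h2 : ‖y‖ * ‖w‖ ≤ 2 := by nlinarith [norm_nonneg y, norm_nonneg w]
  have h3 := (abs_le.1 (h1.trans h2)).1
  linarith

theorem sq_lt_of_mem {y : E} {s : Set ℝ} (hs : s ⊆ Ioo 0 1) (h : ‖y‖ ^ 2 ∈ s) : ‖y‖ < 1 := by
  have h1 := (hs h).2
  have h0 := norm_nonneg y
  nlinarith

theorem amp_sq {g : ℝ → ℝ} (hs : tsupport g ⊆ Ioo 0 1) {w : E} (hw : ‖w‖ ≤ 2) (y : E) :
    amp g w y ^ 2 = g (‖y‖ ^ 2) ^ 2 * (1 + (1 / 4) * ⟪y, w⟫) := by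
  unfold amp
  by_cases h : ‖y‖ ^ 2 ∈ tsupport g
  · rw [mul_pow, Real.sq_sqrt (one_add_pos hw (sq_lt_of_mem hs h)).le]
  · rw [image_eq_zero_of_notMem_tsupport h]
    ring

theorem amp_tsupport (g : ℝ → ℝ) (w : E) : tsupport (amp g w) ⊆ (fun y : E => ‖y‖ ^ 2) ⁻¹' tsupport g := by
  refine closure_minimal ?_ ((isClosed_tsupport g).preimage (by fun_prop))
  intro y hy
  by_contra h
  apply hy
  show g (‖y‖ ^ 2) * _ = 0
  rw [image_eq_zero_of_notMem_tsupport h, zero_mul]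

theorem amp_bump {g : ℝ → ℝ} (hg : ContDiff ℝ ∞ g) (hs : tsupport g ⊆ Ioo 0 1) {w : E} (hw : ‖w‖ ≤ 2) :
    IsBump (Metric.ball 0 1) (amp g w) := by
  have hsub : tsupport (amp g w) ⊆ Metric.ball 0 1 := by
    intro y hy
    rw [mem_ball_zero_iff]
    exact sq_lt_of_mem hs (amp_tsupport g w hy)
  refine ⟨?_, ?_, hsub⟩
  · rw [contDiff_iff_contDiffAt]
    intro y
    by_cases h : ‖y‖ ^ 2 ∈ tsupport g
    · have hp := one_add_pos hw (sq_lt_of_mem hs h)
      have h1 : ContDiffAt ℝ ∞ (fun y : E => 1 + (1 / 4) * ⟪y, w⟫) y :=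
        (contDiff_const.add (contDiff_const.mul (inner_contDiff w))).contDiffAt
      exact ((rad_contDiff hg).contDiffAt).mul (h1.sqrt hp.ne')
    · have h1 : amp g w =ᶠ[𝓝 y] fun _ => 0 := by
        have h2 : ((fun y : E => ‖y‖ ^ 2) ⁻¹' tsupport g)ᶜ ∈ 𝓝 y :=
          ((isClosed_tsupport g).preimage (by fun_prop)).isOpen_compl.mem_nhds h
        filter_upwards [h2] with z hz
        show g (‖z‖ ^ 2) * _ = 0
        rw [image_eq_zero_of_notMem_tsupport hz, zero_mul]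
      exact contDiffAt_const.congr_of_eventuallyEq h1
  · refine (isCompact_closedBall (0 : E) 1).of_isClosed_subset (isClosed_tsupport _) ?_
    exact hsub.trans Metric.ball_subset_closedBall

/-- Vector fields with bump components. -/
def vec (b : Fin 3 → E → ℝ) (x : E) : E := ∑ i : Fin 3, b i x • e i

theorem vec_apply (b : Fin 3 → E → ℝ) (x : E) (l : Fin 3) : vec b x l = b l x := by
  unfold vec
  simp only [Fin.sum_univ_three, PiLp.add_apply, PiLp.smul_apply, e_apply, smul_eq_mul]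
  fin_cases l <;> simp

theorem vec_smooth {b : Fin 3 → E → ℝ} (hb : ∀ i, ContDiff ℝ ∞ (b i)) : ContDiff ℝ ∞ (vec b) := by
  unfold vec
  exact ContDiff.sum fun i _ => (hb i).smul contDiff_const

theorem vec_div {b : Fin 3 → E → ℝ} (hb : ∀ i, ContDiff ℝ ∞ (b i)) (x : E) :
    divField (vec b) x = ∑ i : Fin 3, dd (e i) (b i) x := by
  unfold divField
  refine Finset.sum_congr rfl fun i _ => ?_
  have h1 : HasFDerivAt (fun x => vec b x i)
      ((EuclideanSpace.proj i : E →L[ℝ] ℝ).comp (fderiv ℝ (vec b) x)) x :=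
    (EuclideanSpace.proj i : E →L[ℝ] ℝ).hasFDerivAt.comp x (diff_of (vec_smooth hb) x).hasFDerivAt
  have h2 : (fun x => vec b x i) = b i := by
    funext x
    exact vec_apply b x i
  rw [h2] at h1
  unfold dd
  rw [h1.fderiv]
  rfl

theorem vec_test {Ω : Set E} {b : Fin 3 → E → ℝ} (hb : ∀ i, IsBump Ω (b i))
    (hd : ∀ x, ∑ i : Fin 3, dd (e i) (b i) x = 0) : IsTest Ω (vec b) := by
  have hs : tsupport (vec b) ⊆ ⋃ i, tsupport (b i) := by
    refine closure_minimal ?_ (isClosed_iUnion_of_finite fun m => isClosed_tsupport _)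
    intro x hx
    by_contra h
    simp only [mem_iUnion, not_exists] at h
    apply hx
    show ∑ i : Fin 3, b i x • e i = 0
    exact Finset.sum_eq_zero fun m _ => by rw [image_eq_zero_of_notMem_tsupport (h m), zero_smul]
  refine IsTest.mk (vec_smooth fun i => (hb i).1) ?_ (hs.trans (iUnion_subset fun m => (hb m).2.2))
    (fun x => by rw [vec_div (fun i => (hb i).1), hd])
  exact (isCompact_iUnion fun m => (hb m).2.1).of_isClosed_subset (isClosed_tsupport _) hs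

/-- All the data which depend on the profiles. -/
structure Prof (g : Fin 6 → ℝ → ℝ) (Ψ Θ : Fin 6 → ℝ → ℝ) (P : ℝ → ℝ) (s₁ : ℝ) : Prop where
  gs : ∀ m, ContDiff ℝ ∞ (g m)
  gt : ∀ m, tsupport (g m) ⊆ Ioo 0 1
  gd : ∀ m m', m ≠ m' → Disjoint (tsupport (g m)) (tsupport (g m'))
  s1 : s₁ < 1
  Ps : ContDiff ℝ ∞ P
  Pz : ∀ s, s₁ ≤ s → P s = 0
  Pd : ∀ s, deriv P s = (1 / 2) * g 0 s ^ 2
  Pn : ∀ s, P s ≤ 0
  Pp : P 0 < 0
  Ψs : ∀ m, ContDiff ℝ ∞ (Ψ m)
  Ψz : ∀ m s, s₁ ≤ s → Ψ m s = 0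
  Ψe : ∀ m s, 4 * s * deriv (deriv (Ψ m)) s + 6 * deriv (Ψ m) s = g m s ^ 2 - g 0 s ^ 2
  Θs : ∀ m, ContDiff ℝ ∞ (Θ m)
  Θz : ∀ m s, s₁ ≤ s → Θ m s = 0
  Θe : ∀ m s, 4 * s * deriv (deriv (Θ m)) s + 10 * deriv (Θ m) s = g m s ^ 2 - g 0 s ^ 2
  gz : ∀ m s, s₁ ≤ s → g m s = 0

theorem int_le {f : ℝ → ℝ} (hf : Continuous f) (h0 : ∀ s, 0 ≤ f s) (c : ℝ) (hc : 0 ≤ c)
    (hi : 0 < ∫ s in (0 : ℝ)..1, s ^ c * f s) : 0 < ∫ s in (0 : ℝ)..1, f s := by
  refine lt_of_lt_of_le hi ?_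
  refine intervalIntegral.integral_mono_on (by norm_num) ?_ (hf.intervalIntegrable _ _) ?_
  · refine Continuous.intervalIntegrable ?_ _ _
    exact (Real.continuous_rpow_const hc).mul hf
  · intro x hx
    have h1 : x ^ c ≤ 1 := Real.rpow_le_one hx.1 hx.2 hc
    nlinarith [h0 x]

theorem exists_prof (h : Stmt_Profile) : ∃ (g Ψ Θ : Fin 6 → ℝ → ℝ) (P : ℝ → ℝ) (s₁ : ℝ), Prof g Ψ Θ P s₁ := by
  obtain ⟨g, I₀, I₁, hI₀, hI₁, hg, hd, hm0, hm1⟩ := h
  have hsq : ∀ m, ContDiff ℝ ∞ (fun s => g m s ^ 2) := fun m => (hg m).1.pow 2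
  have hsqt : ∀ m, tsupport (fun s => g m s ^ 2) ⊆ tsupport (g m) := by
    intro m
    refine closure_mono ?_
    intro s hs
    simp only [Function.mem_support, ne_eq] at hs ⊢
    intro h0
    apply hs
    rw [h0]
    norm_num
  have hdif : ∀ m, ContDiff ℝ ∞ (fun s => g m s ^ 2 - g 0 s ^ 2) := fun m => (hsq m).sub (hsq 0)
  have hdt : ∀ m, tsupport (fun s => g m s ^ 2 - g 0 s ^ 2) ⊆ tsupport (g m) ∪ tsupport (g 0) := by
    intro m
    refine closure_minimal ?_ ((isClosed_tsupport _).union (isClosed_tsupport _))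
    intro s hs
    by_contra h
    simp only [mem_union, not_or] at h
    apply hs
    show g m s ^ 2 - g 0 s ^ 2 = 0
    rw [image_eq_zero_of_notMem_tsupport h.1, image_eq_zero_of_notMem_tsupport h.2]
    ring
  have hdt' : ∀ m, tsupport (fun s => g m s ^ 2 - g 0 s ^ 2) ⊆ Ioo 0 1 := fun m =>
    (hdt m).trans (union_subset (hg m).2.2 (hg 0).2.2)
  have hdc : ∀ m, HasCompactSupport (fun s => g m s ^ 2 - g 0 s ^ 2) := fun m =>
    ((hg m).2.1.union (hg 0).2.1).of_isClosed_subset (isClosed_tsupport _) (hdt m)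
  have hii : ∀ (c : ℝ) (hc : 0 ≤ c) (m : Fin 6), IntervalIntegrable (fun s => s ^ c * g m s ^ 2) volume 0 1 := by
    intro c hc m
    refine Continuous.intervalIntegrable ?_ _ _
    exact (Real.continuous_rpow_const hc).mul (hsq m).continuous
  have hz : ∀ (c : ℝ) (I : ℝ) (hc : 0 ≤ c), (∀ m, ∫ s in (0 : ℝ)..1, s ^ c * g m s ^ 2 = I) →
      ∀ m, ∫ s in (0 : ℝ)..1, s ^ c * (g m s ^ 2 - g 0 s ^ 2) = 0 := by
    intro c I hc hI m
    simp only [mul_sub]
    rw [intervalIntegral.integral_sub (hii c hc m) (hii c hc 0), hI, hI, sub_self]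
  choose Ψ hΨ hΨ1 hΨ2 using fun m => radPot (1 / 2) (hdif m) (hdc m) (hdt' m) (hz _ I₀ (by norm_num) hm0 m)
  choose Θ hΘ hΘ1 hΘ2 using fun m => radPot (3 / 2) (hdif m) (hdc m) (hdt' m) (hz _ I₁ (by norm_num) hm1 m)
  choose a ha1 ha2 using hΨ1
  choose b hb1 hb2 using hΘ1
  choose δ hδ hδ' hlo hhi using fun m => supp_bounds (hg m).2.1 (hg m).2.2
  -- a common s₁
  obtain ⟨s₁, hs1, hsa, hsb, hsd⟩ : ∃ s₁ : ℝ, s₁ < 1 ∧ (∀ m, a m ≤ s₁) ∧ (∀ m, b m ≤ s₁) ∧ ∀ m, 1 - δ m ≤ s₁ := by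
    have hne : (Finset.univ : Finset (Fin 6)).Nonempty := Finset.univ_nonempty
    refine ⟨Finset.univ.sup' hne fun m => max (max (a m) (b m)) (1 - δ m), ?_, fun m => ?_, fun m => ?_, fun m => ?_⟩
    · rw [Finset.sup'_lt_iff]
      intro m _
      exact max_lt (max_lt (ha1 m) (hb1 m)) (by linarith [hδ m])
    · exact ((le_max_left _ _).trans (le_max_left _ _)).trans
        (Finset.le_sup' (fun m => max (max (a m) (b m)) (1 - δ m)) (Finset.mem_univ m))
    · exact ((le_max_right _ _).trans (le_max_left _ _)).trans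
        (Finset.le_sup' (fun m => max (max (a m) (b m)) (1 - δ m)) (Finset.mem_univ m))
    · exact (le_max_right _ _).trans
        (Finset.le_sup' (fun m => max (max (a m) (b m)) (1 - δ m)) (Finset.mem_univ m))
  have hgz : ∀ m s, s₁ ≤ s → g m s = 0 := fun m s hs => hhi m s ((hsd m).trans hs)
  refine ⟨g, Ψ, Θ, fun s => ∫ x in (1 : ℝ)..s, (1 / 2) * g 0 x ^ 2, s₁, ?_⟩
  have hPs : ContDiff ℝ ∞ (fun s : ℝ => (1 / 2 : ℝ) * g 0 s ^ 2) := contDiff_const.mul (hsq 0)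
  refine
    { gs := fun m => (hg m).1, gt := fun m => (hg m).2.2, gd := hd, s1 := hs1, Ps := prim_contDiff hPs 1,
      Pz := ?_, Pd := ?_, Pn := ?_, Pp := ?_, Ψs := hΨ, Ψz := fun m s hs => ha2 m s ((hsa m).trans hs),
      Ψe := ?_, Θs := hΘ, Θz := fun m s hs => hb2 m s ((hsb m).trans hs), Θe := ?_, gz := hgz }
  · intro s hs
    refine intervalIntegral.integral_zero_ae (Eventually.of_forall fun x hx => ?_)
    have : s₁ ≤ x := by
      rcases le_total 1 s with h0 | h0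
      · rw [uIoc_of_le h0] at hx
        linarith [hx.1]
      · rw [uIoc_of_ge h0] at hx
        linarith [hx.1]
    rw [hgz 0 x this]
    norm_num
  · intro s
    exact (prim_hasDerivAt hPs.continuous 1 s).deriv
  · intro s
    show ∫ x in (1 : ℝ)..s, (1 / 2) * g 0 x ^ 2 ≤ 0
    rcases le_total 1 s with h0 | h0
    · refine le_of_eq (intervalIntegral.integral_zero_ae (Eventually.of_forall fun x hx => ?_))
      rw [uIoc_of_le h0] at hx
      rw [hgz 0 x (by linarith [hx.1])]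
      norm_num
    · rw [intervalIntegral.integral_symm, neg_nonpos]
      exact intervalIntegral.integral_nonneg h0 fun x _ => by positivity
  · show ∫ x in (1 : ℝ)..0, (1 / 2) * g 0 x ^ 2 < 0
    rw [intervalIntegral.integral_symm, neg_lt_zero, intervalIntegral.integral_const_mul]
    have h1 := int_le (hsq 0).continuous (fun s => sq_nonneg _) (1 / 2) (by norm_num) (by rw [hm0 0]; exact hI₀)
    linarith
  · intro m s
    have := hΨ2 m s
    norm_num at this ⊢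
    exact this
  · intro m s
    have := hΘ2 m s
    norm_num at this ⊢
    exact this

section Main

variable {g Ψ Θ : Fin 6 → ℝ → ℝ} {P : ℝ → ℝ} {s₁ : ℝ} (hp : Prof g Ψ Θ P s₁) (sg : ℝ)
  (hsg : sg = 1 ∨ sg = -1) (j : Fin 3)

/-- The potentials `φ_m`. -/
def phi (Ψ Θ : Fin 6 → ℝ → ℝ) (sg : ℝ) (j : Fin 3) (m : Fin 6) (y : E) : ℝ :=
  rad (Ψ m) y + (1 / 4) * (⟪y, wV sg j m⟫ * rad (Θ m) y)

include hp in
theorem phi_bump (m : Fin 6) : IsBump (Metric.ball 0 1) (phi Ψ Θ sg j m) :=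
  IsBump.add (rad_bump (hp.Ψs m) hp.s1 (hp.Ψz m))
    (IsBump.smul (bump_mul_left (inner_contDiff _) (rad_bump (hp.Θs m) hp.s1 (hp.Θz m))) _)

include hp in
theorem gam_bump : IsBump (Metric.ball 0 1) (rad (fun s => g 0 s ^ 2)) :=
  rad_bump ((hp.gs 0).pow 2) hp.s1 fun s hs => by rw [hp.gz 0 s hs]; norm_num

include hp in
theorem p_bump : IsBump (Metric.ball 0 1) (rad P) := rad_bump hp.Ps hp.s1 hp.Pz

include hp in
theorem dd_p (v y : E) : dd v (rad P) y = ⟪y, v⟫ * rad (fun s => g 0 s ^ 2) y := by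
  rw [dd_rad hp.Ps]
  simp only [rad, hp.Pd]
  ring

include hp in
theorem lap_phi (m : Fin 6) (y : E) : lap (phi Ψ Θ sg j m) y
    = (g m (‖y‖ ^ 2) ^ 2 - g 0 (‖y‖ ^ 2) ^ 2) * (1 + (1 / 4) * ⟪y, wV sg j m⟫) := by
  have h1 := rad_contDiff (hp.Ψs m)
  have h2 : ContDiff ℝ ∞ (fun y : E => ⟪y, wV sg j m⟫ * rad (Θ m) y) :=
    (inner_contDiff _).mul (rad_contDiff (hp.Θs m))
  have h3 := lap_smul h2 (1 / 4)
  simp only [smul_eq_mul] at h3
  have h4 : phi Ψ Θ sg j m = fun y => rad (Ψ m) y + (1 / 4) * (⟪y, wV sg j m⟫ * rad (Θ m) y) := rfl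
  rw [h4, lap_add h1 (contDiff_const.mul h2), h3]
  simp only
  rw [lap_rad (hp.Ψs m), lap_inner_rad (hp.Θs m), hp.Ψe, hp.Θe]
  ring

include hp hsg in
/-- The decomposition of `a_m²`. -/
theorem amp_decomp (m : Fin 6) (y : E) : amp (g m) (wV sg j m) y ^ 2
    = rad (fun s => g 0 s ^ 2) y + (1 / 4) * dd (wV sg j m) (rad P) y + lap (phi Ψ Θ sg j m) y := by
  rw [amp_sq (hp.gt m) (wV_norm sg hsg j m), dd_p hp, lap_phi hp]
  simp only [rad]
  ring

/-- The pressure. -/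
def pr (g Ψ Θ : Fin 6 → ℝ → ℝ) (P : ℝ → ℝ) (sg : ℝ) (j : Fin 3) (y : E) : ℝ :=
  2 * rad (fun s => g 0 s ^ 2) y + (1 / 2 * sg) * dd (e j) (rad P) y
    + ∑ m, dd (xiV j m) (dd (xiV j m) (phi Ψ Θ sg j m)) y

include hp in
theorem pr_bump : IsBump (Metric.ball 0 1) (pr g Ψ Θ P sg j) :=
  IsBump.add (IsBump.add (IsBump.smul (gam_bump hp) _) (IsBump.smul (IsBump.dd (p_bump hp) _) _))
    (IsBump.sum fun m => IsBump.dd (IsBump.dd (phi_bump hp sg j m) _) _)

include hp hsg in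
theorem main_id (x : E) :
    ∑ m, dd (xiV j m) (dd (xiV j m) (fun y => amp (g m) (wV sg j m) y ^ 2)) x = lap (pr g Ψ Θ P sg j) x := by
  have hG := (gam_bump hp).1
  have hP := (p_bump hp).1
  have hφ : ∀ m, ContDiff ℝ ∞ (phi Ψ Θ sg j m) := fun m => (phi_bump hp sg j m).1
  -- left side
  have hL : ∀ m, dd (xiV j m) (dd (xiV j m) (fun y => amp (g m) (wV sg j m) y ^ 2)) x
      = dd (xiV j m) (dd (xiV j m) (rad fun s => g 0 s ^ 2)) x
        + (1 / 4) * dd (xiV j m) (dd (xiV j m) (dd (wV sg j m) (rad P))) x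
        + lap (dd (xiV j m) (dd (xiV j m) (phi Ψ Θ sg j m))) x := by
    intro m
    have h0 : (fun y => amp (g m) (wV sg j m) y ^ 2) = fun y => (rad (fun s => g 0 s ^ 2) y
        + (1 / 4 : ℝ) • dd (wV sg j m) (rad P) y) + lap (phi Ψ Θ sg j m) y := by
      funext y
      rw [amp_decomp hp sg hsg j m y]
      rfl
    have c1 := dd_contDiff hP (wV sg j m)
    have c2 : ContDiff ℝ ∞ (fun y => (1 / 4 : ℝ) • dd (wV sg j m) (rad P) y) := c1.const_smul _
    have c3 := lap_contDiff (hφ m)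
    rw [h0, dd_add (hG.add c2) c3, dd_add hG c2, dd_smul c1]
    have d1 := dd_contDiff c1 (xiV j m)
    have d2 : ContDiff ℝ ∞ (fun y => (1 / 4 : ℝ) • dd (xiV j m) (dd (wV sg j m) (rad P)) y) := d1.const_smul _
    rw [dd_add ((dd_contDiff hG _).add d2) (dd_contDiff c3 _), dd_add (dd_contDiff hG _) d2, dd_smul d1,
      lap_dd (dd_contDiff (hφ m) _), lap_dd (hφ m)]
    rfl
  simp only [hL, Finset.sum_add_distrib]
  rw [← Finset.mul_sum, id1 j hG, id2 sg j hP]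
  -- right side
  have hR : pr g Ψ Θ P sg j = fun y => ((2 : ℝ) • rad (fun s => g 0 s ^ 2) y
      + (1 / 2 * sg) • dd (e j) (rad P) y) + ∑ m, dd (xiV j m) (dd (xiV j m) (phi Ψ Θ sg j m)) y := rfl
  have c1 : ContDiff ℝ ∞ (fun y => (2 : ℝ) • rad (fun s => g 0 s ^ 2) y) := hG.const_smul _
  have c2 : ContDiff ℝ ∞ (fun y => (1 / 2 * sg) • dd (e j) (rad P) y) := (dd_contDiff hP _).const_smul _
  have c3 : ∀ m, ContDiff ℝ ∞ (dd (xiV j m) (dd (xiV j m) (phi Ψ Θ sg j m))) := fun m =>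
    dd_contDiff (dd_contDiff (hφ m) _) _
  rw [hR, lap_add (c1.add c2) (ContDiff.sum fun m _ => c3 m), lap_add c1 c2, lap_smul hG,
    lap_smul (dd_contDiff hP _), lap_sum Finset.univ c3]
  simp only [smul_eq_mul]
  ring

/-- The components of the kick. -/
def gcomp (g Ψ Θ : Fin 6 → ℝ → ℝ) (P : ℝ → ℝ) (η sg : ℝ) (j : Fin 3) (i : Fin 3) (x : E) : ℝ :=
  (4 * η)⁻¹ * ((∑ m, xiV j m i * dd (xiV j m) (fun y => amp (g m) (wV sg j m) y ^ 2) x)
    + (-1) * dd (e i) (pr g Ψ Θ P sg j) x)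

include hp hsg in
theorem asq_bump (m : Fin 6) : IsBump (Metric.ball 0 1) (fun y => amp (g m) (wV sg j m) y ^ 2) :=
  sq_bump (amp_bump (hp.gs m) (hp.gt m) (wV_norm sg hsg j m))

include hp hsg in
theorem gcomp_bump (η : ℝ) (i : Fin 3) : IsBump (Metric.ball 0 1) (gcomp g Ψ Θ P η sg j i) :=
  IsBump.smul (IsBump.add (IsBump.sum fun m => IsBump.smul (IsBump.dd (asq_bump hp sg hsg j m) _) _)
    (IsBump.smul (IsBump.dd (pr_bump hp sg j) _) _)) _

include hp hsg in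
theorem gcomp_div (η : ℝ) (x : E) : ∑ i : Fin 3, dd (e i) (gcomp g Ψ Θ P η sg j i) x = 0 := by
  have hA : ∀ m, ContDiff ℝ ∞ (fun y => amp (g m) (wV sg j m) y ^ 2) := fun m => (asq_bump hp sg hsg j m).1
  have hpr := (pr_bump hp sg j).1
  have h1 : ∀ i : Fin 3, dd (e i) (gcomp g Ψ Θ P η sg j i) x = (4 * η)⁻¹ *
      ((∑ m, xiV j m i * dd (e i) (dd (xiV j m) (fun y => amp (g m) (wV sg j m) y ^ 2)) x)
        - dd (e i) (dd (e i) (pr g Ψ Θ P sg j)) x) := by
    intro i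
    have h2 : gcomp g Ψ Θ P η sg j i = fun x => (4 * η)⁻¹ • ((∑ m, xiV j m i •
        dd (xiV j m) (fun y => amp (g m) (wV sg j m) y ^ 2) x) + (-1 : ℝ) • dd (e i) (pr g Ψ Θ P sg j) x) := rfl
    have c1 : ∀ m, ContDiff ℝ ∞ (fun x => xiV j m i • dd (xiV j m) (fun y => amp (g m) (wV sg j m) y ^ 2) x) :=
      fun m => (dd_contDiff (hA m) _).const_smul _
    have c2 : ContDiff ℝ ∞ (fun x => (-1 : ℝ) • dd (e i) (pr g Ψ Θ P sg j) x) :=
      (dd_contDiff hpr _).const_smul _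
    rw [h2, dd_smul ((ContDiff.sum fun m _ => c1 m).add c2), dd_add (ContDiff.sum fun m _ => c1 m) c2,
      dd_sum Finset.univ c1, dd_smul (dd_contDiff hpr _)]
    simp only [smul_eq_mul]
    have h3 : ∀ m, dd (e i) (fun x => xiV j m i * dd (xiV j m) (fun y => amp (g m) (wV sg j m) y ^ 2) x) x
        = xiV j m i * dd (e i) (dd (xiV j m) (fun y => amp (g m) (wV sg j m) y ^ 2)) x := by
      intro m
      have := congrFun (dd_smul (dd_contDiff (hA m) (xiV j m)) (xiV j m i) (e i)) x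
      simpa only [smul_eq_mul] using this
    simp only [h3]
    ring
  simp only [h1]
  rw [← Finset.mul_sum, Finset.sum_sub_distrib, Finset.sum_comm]
  have h4 : ∀ m, ∑ i : Fin 3, xiV j m i * dd (e i) (dd (xiV j m) (fun y => amp (g m) (wV sg j m) y ^ 2)) x
      = dd (xiV j m) (dd (xiV j m) (fun y => amp (g m) (wV sg j m) y ^ 2)) x := by
    intro m
    rw [dd_coord (dd (xiV j m) (fun y => amp (g m) (wV sg j m) y ^ 2)) (xiV j m) x]
    rfl
  rw [Finset.sum_congr rfl fun m _ => h4 m, main_id hp sg hsg j x]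
  unfold lap
  rw [sub_self, mul_zero]

include hp hsg in
theorem kick (η : ℝ) (hη : 0 < η) : Kick (Metric.ball 0 1) η 6 (fun m => amp (g m) (wV sg j m)) (kV j) (xiV j)
    (pr g Ψ Θ P sg j) (vec (gcomp g Ψ Θ P η sg j)) := by
  refine
    { bump := fun m => amp_bump (hp.gs m) (hp.gt m) (wV_norm sg hsg j m)
      disj := fun m m' hmm => ?_
      k_unit := kV_norm j
      ξ_unit := xiV_norm j
      orth := kxi_orth j
      pres := pr_bump hp sg j
      test := vec_test (gcomp_bump hp sg hsg j η) (gcomp_div hp sg hsg j η)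
      eq := fun x => ?_ }
  · exact ((hp.gd m m' hmm).preimage _).mono (amp_tsupport _ _) (amp_tsupport _ _)
  · ext l
    have h1 : (∑ m, dd (xiV j m) (fun y => amp (g m) (wV sg j m) y ^ 2) x • xiV j m) l
        = ∑ m, xiV j m l * dd (xiV j m) (fun y => amp (g m) (wV sg j m) y ^ 2) x := by
      rw [WithLp.ofLp_sum, Finset.sum_apply]
      refine Finset.sum_congr rfl fun m _ => ?_
      rw [PiLp.smul_apply, smul_eq_mul, mul_comm]
    rw [h1, PiLp.add_apply, PiLp.smul_apply, vec_apply, gradS_coord]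
    unfold gcomp
    have h4 : (4 * η) ≠ 0 := by positivity
    rw [smul_eq_mul, ← mul_assoc, mul_inv_cancel₀ h4]
    ring

include hp hsg in
theorem m0 (m : Fin 6) : ∫ y : E, amp (g m) (wV sg j m) y ^ 2 = ∫ y : E, rad (fun s => g 0 s ^ 2) y := by
  have hφ := phi_bump hp sg j m
  have hl : Integrable (lap (phi Ψ Θ sg j m)) := by
    unfold lap
    exact integrable_finsetSum _ fun i _ => bump_integrable (IsBump.dd (IsBump.dd hφ _) _)
  have h1 := bump_integrable (gam_bump hp)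
  have h2 : Integrable (fun y => (1 / 4) * dd (wV sg j m) (rad P) y) :=
    bump_integrable (IsBump.smul (IsBump.dd (p_bump hp) _) _)
  simp only [amp_decomp hp sg hsg j m]
  have e1 : ∫ y : E, (rad (fun s => g 0 s ^ 2) y + (1 / 4) * dd (wV sg j m) (rad P) y)
      + lap (phi Ψ Θ sg j m) y = (∫ y : E, (rad (fun s => g 0 s ^ 2) y
        + (1 / 4) * dd (wV sg j m) (rad P) y)) + ∫ y : E, lap (phi Ψ Θ sg j m) y := integral_add (h1.add h2) hl
  have e2 : ∫ y : E, (rad (fun s => g 0 s ^ 2) y + (1 / 4) * dd (wV sg j m) (rad P) y)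
      = (∫ y : E, rad (fun s => g 0 s ^ 2) y) + ∫ y : E, (1 / 4) * dd (wV sg j m) (rad P) y :=
    integral_add h1 h2
  rw [e1, e2, integral_const_mul, Base.mom0 (p_bump hp), mom2 hφ]
  ring

include hp hsg in
theorem m1 (m : Fin 6) : ∫ y : E, (amp (g m) (wV sg j m) y ^ 2) • y
    = (-(1 / 4) * ∫ y : E, rad P y) • wV sg j m := by
  have hφ := phi_bump hp sg j m
  have hc : ∀ i : Fin 3, ContDiff ℝ ∞ (fun x : E => x i) := fun i => by
    have := inner_contDiff (e i)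
    simpa only [inner_e] using this
  have hint : Integrable (fun y : E => (amp (g m) (wV sg j m) y ^ 2) • y) := by
    have hb := asq_bump hp sg hsg j m
    have hcont : Continuous (fun y : E => (amp (g m) (wV sg j m) y ^ 2) • y) :=
      hb.1.continuous.smul continuous_id
    exact hcont.integrable_of_hasCompactSupport (hb.2.1.smul_right)
  ext i
  have h0 : (∫ y : E, (amp (g m) (wV sg j m) y ^ 2) • y) i
      = ∫ y : E, y i * amp (g m) (wV sg j m) y ^ 2 := by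
    have := (EuclideanSpace.proj i : E →L[ℝ] ℝ).integral_comp_comm hint
    have h2 : (EuclideanSpace.proj i : E →L[ℝ] ℝ) (∫ y : E, (amp (g m) (wV sg j m) y ^ 2) • y)
        = (∫ y : E, (amp (g m) (wV sg j m) y ^ 2) • y) i := rfl
    rw [← h2, ← this]
    refine integral_congr_ae (Eventually.of_forall fun y => ?_)
    show (amp (g m) (wV sg j m) y ^ 2 • y) i = _
    rw [PiLp.smul_apply, smul_eq_mul, mul_comm]
  rw [h0, PiLp.smul_apply, smul_eq_mul]
  have hl : IsBump (Metric.ball 0 1) (lap (phi Ψ Θ sg j m)) := by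
    have := IsBump.sum (n := 3) fun i => IsBump.dd (IsBump.dd hφ (e i)) (e i)
    exact this
  have h3 : ∀ y : E, y i * amp (g m) (wV sg j m) y ^ 2
      = (dd (e i) (rad P) y + (1 / 4) * (y i * dd (wV sg j m) (rad P) y)) + y i * lap (phi Ψ Θ sg j m) y := by
    intro y
    rw [amp_decomp hp sg hsg j m, dd_p hp (e i), inner_e]
    ring
  simp only [h3]
  have i1 := bump_integrable (IsBump.dd (p_bump hp) (e i))
  have i2 : Integrable (fun y : E => (1 / 4) * (y i * dd (wV sg j m) (rad P) y)) :=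
    bump_integrable (IsBump.smul (bump_mul_left (hc i) (IsBump.dd (p_bump hp) _)) _)
  have i3 := bump_integrable (bump_mul_left (hc i) hl)
  have e1 : ∫ y : E, (dd (e i) (rad P) y + (1 / 4) * (y i * dd (wV sg j m) (rad P) y))
      + y i * lap (phi Ψ Θ sg j m) y = (∫ y : E, (dd (e i) (rad P) y
        + (1 / 4) * (y i * dd (wV sg j m) (rad P) y))) + ∫ y : E, y i * lap (phi Ψ Θ sg j m) y :=
    integral_add (i1.add i2) i3
  have e2 : ∫ y : E, (dd (e i) (rad P) y + (1 / 4) * (y i * dd (wV sg j m) (rad P) y))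
      = (∫ y : E, dd (e i) (rad P) y) + ∫ y : E, (1 / 4) * (y i * dd (wV sg j m) (rad P) y) :=
    integral_add i1 i2
  rw [e1, e2, integral_const_mul, Base.mom0 (p_bump hp), Base.mom1 (p_bump hp), mom3 hφ]
  ring

include hp in
theorem gam1_pos : 0 < -(1 / 4) * ∫ y : E, rad P y := by
  have hb := p_bump hp
  have h1 : 0 < ∫ y : E, - rad P y := by
    refine Continuous.integral_pos_of_hasCompactSupport_nonneg_nonzero (x := 0) ?_ ?_ ?_ ?_
    · exact hb.1.continuous.neg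
    · exact hb.2.1.neg
    · intro y
      have := hp.Pn (‖y‖ ^ 2)
      simp only [Pi.zero_apply, rad]
      linarith
    · have := hp.Pp
      simp only [rad, norm_zero]
      norm_num
      exact this.ne
  rw [integral_neg] at h1
  linarith

end Main

end Base

theorem base_proof (h : Stmt_Profile) : Stmt_Base := by
  intro η j sg hη hsg
  obtain ⟨g, Ψ, Θ, P, s₁, hp⟩ := Base.exists_prof h
  refine ⟨∫ y : E, Base.rad (fun s => g 0 s ^ 2) y, -(1 / 4) * ∫ y : E, Base.rad P y,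
    fun m => Base.amp (g m) (Base.wV sg j m), Base.kV j, Base.xiV j, Base.wV sg j,
    Base.pr g Ψ Θ P sg j, Base.vec (Base.gcomp g Ψ Θ P η sg j), Base.gam1_pos hp, ?_⟩
  exact
    { kick := Base.kick hp sg hsg j η hη
      mom0 := fun m => Base.m0 hp sg hsg j m
      mom1 := fun m => Base.m1 hp sg hsg j m
      iso := Base.iso j
      iso1 := Base.iso1 sg j }

end Pool.Agent.NSK
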