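import Pool.Agent.NSK.Conc

/-!
# NSK, module Base: directional derivatives of smooth functions, radial functions
-/

open MeasureTheory Set Filter Topology
open scoped RealInnerProductSpace ContDiff

noncomputable section

namespace Pool.Agent.NSK.Base

open Pool.Agent.NSD Pool.Agent.NSK

variable {F : Type*} [NormedAddCommGroup F] [NormedSpace ℝ F]

theorem dd_contDiff {f : E → F} (hf : ContDiff ℝ ∞ f) (v : E) : ContDiff ℝ ∞ (dd v f) := by
  have h : ContDiff ℝ ∞ (fderiv ℝ f) := hf.fderiv_right (m := ∞) (by simp)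
  exact h.clm_apply contDiff_const

theorem diff_of {f : E → F} (hf : ContDiff ℝ ∞ f) : Differentiable ℝ f := hf.differentiable (by simp)

theorem dd_add {f g : E → F} (hf : ContDiff ℝ ∞ f) (hg : ContDiff ℝ ∞ g) (v : E) :
    dd v (fun x => f x + g x) = fun x => dd v f x + dd v g x := by
  funext x
  unfold dd
  rw [fderiv_fun_add (diff_of hf x) (diff_of hg x)]
  rfl

theorem dd_sub {f g : E → F} (hf : ContDiff ℝ ∞ f) (hg : ContDiff ℝ ∞ g) (v : E) :
    dd v (fun x => f x - g x) = fun x => dd v f x - dd v g x := by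
  funext x
  unfold dd
  rw [fderiv_fun_sub (diff_of hf x) (diff_of hg x)]
  rfl

theorem dd_smul {f : E → F} (hf : ContDiff ℝ ∞ f) (c : ℝ) (v : E) :
    dd v (fun x => c • f x) = fun x => c • dd v f x := by
  funext x
  unfold dd
  rw [fderiv_fun_const_smul (diff_of hf x) c]
  rfl

theorem dd_sum {ι : Type*} (s : Finset ι) {f : ι → E → F} (hf : ∀ i, ContDiff ℝ ∞ (f i)) (v : E) :
    dd v (fun x => ∑ i ∈ s, f i x) = fun x => ∑ i ∈ s, dd v (f i) x := by
  funext x
  unfold dd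
  rw [fderiv_fun_sum (fun i _ => diff_of (hf i) x)]
  simp

theorem dd_comm {f : E → F} (hf : ContDiff ℝ ∞ f) (v w : E) : dd v (dd w f) = dd w (dd v f) := by
  funext x
  have h : ContDiff ℝ ∞ (fderiv ℝ f) := hf.fderiv_right (m := ∞) (by simp)
  have h1 : ∀ v w : E, dd v (dd w f) x = fderiv ℝ (fderiv ℝ f) x v w := by
    intro v w
    have h2 : HasFDerivAt (fun y => fderiv ℝ f y w) ((fderiv ℝ (fderiv ℝ f) x).flip w) x := by
      have h3 := (h.differentiable (by simp) x).hasFDerivAt.clm_apply (hasFDerivAt_const w x)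
      refine h3.congr_fderiv ?_
      ext z
      simp
    show fderiv ℝ (fun y => fderiv ℝ f y w) x v = _
    rw [h2.fderiv]
    rfl
  rw [h1, h1]
  have hs : IsSymmSndFDerivAt ℝ f x := by
    refine (hf.contDiffAt (x := x)).isSymmSndFDerivAt ?_
    simp only [minSmoothness_of_isRCLikeNormedField]
    exact WithTop.coe_le_coe.2 (le_top : (2 : ℕ∞) ≤ ⊤)
  exact hs v w

/-- Coordinates. -/
theorem sum_coord (v : E) : ∑ i : Fin 3, v i • e i = v := by
  ext j
  simp [e, Fin.sum_univ_three]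
  fin_cases j <;> simp

theorem dd_coord (f : E → F) (v : E) (x : E) : dd v f x = ∑ i : Fin 3, v i • dd (e i) f x := by
  unfold dd
  conv_lhs => rw [← sum_coord v]
  rw [map_sum]
  simp

theorem dd_dd_coord {f : E → F} (hf : ContDiff ℝ ∞ f) (v w : E) (x : E) :
    dd v (dd w f) x = ∑ i : Fin 3, ∑ l : Fin 3, (v i * w l) • dd (e i) (dd (e l) f) x := by
  rw [dd_coord]
  refine Finset.sum_congr rfl fun i _ => ?_
  have h1 : dd w f = fun y => ∑ l : Fin 3, w l • dd (e l) f y := by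
    funext y
    exact dd_coord f w y
  rw [h1, dd_sum Finset.univ (f := fun l y => w l • dd (e l) f y)
    (fun l => (dd_contDiff hf (e l)).const_smul (w l))]
  simp only [Finset.smul_sum]
  refine Finset.sum_congr rfl fun l _ => ?_
  rw [dd_smul (dd_contDiff hf (e l))]
  simp only [smul_smul]

theorem lap_contDiff {f : E → F} (hf : ContDiff ℝ ∞ f) : ContDiff ℝ ∞ (lap f) := by
  unfold lap
  exact ContDiff.sum fun i _ => dd_contDiff (dd_contDiff hf _) _

theorem lap_add {f g : E → F} (hf : ContDiff ℝ ∞ f) (hg : ContDiff ℝ ∞ g) :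
    lap (fun x => f x + g x) = fun x => lap f x + lap g x := by
  funext x
  unfold lap
  rw [← Finset.sum_add_distrib]
  refine Finset.sum_congr rfl fun i _ => ?_
  rw [dd_add hf hg, dd_add (dd_contDiff hf _) (dd_contDiff hg _)]

theorem lap_smul {f : E → F} (hf : ContDiff ℝ ∞ f) (c : ℝ) :
    lap (fun x => c • f x) = fun x => c • lap f x := by
  funext x
  unfold lap
  rw [Finset.smul_sum]
  refine Finset.sum_congr rfl fun i _ => ?_
  rw [dd_smul hf, dd_smul (dd_contDiff hf _)]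

theorem lap_sum {ι : Type*} (s : Finset ι) {f : ι → E → F} (hf : ∀ i, ContDiff ℝ ∞ (f i)) :
    lap (fun x => ∑ i ∈ s, f i x) = fun x => ∑ i ∈ s, lap (f i) x := by
  funext x
  unfold lap
  rw [Finset.sum_comm]
  refine Finset.sum_congr rfl fun i _ => ?_
  rw [dd_sum s hf, dd_sum s (fun j => dd_contDiff (hf j) _)]

theorem lap_dd {f : E → F} (hf : ContDiff ℝ ∞ f) (v : E) : lap (dd v f) = dd v (lap f) := by
  unfold lap
  rw [dd_sum Finset.univ (f := fun i x => dd (e i) (dd (e i) f) x)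
    (fun i => dd_contDiff (dd_contDiff hf _) _)]
  funext x
  refine Finset.sum_congr rfl fun i _ => ?_
  rw [dd_comm hf (e i) v, dd_comm (dd_contDiff hf (e i)) (e i) v]

theorem inner_gradS (p : E → ℝ) (w x : E) : ⟪w, gradS p x⟫ = dd w p x := by
  rw [dd_coord]
  unfold gradS
  rw [inner_sum]
  refine Finset.sum_congr rfl fun i _ => ?_
  rw [inner_smul_right]
  have : ⟪w, e i⟫ = w i := by
    simp [e, EuclideanSpace.inner_single_right]
  rw [this, smul_eq_mul]
  ring

theorem gradS_coord (p : E → ℝ) (x : E) (l : Fin 3) : gradS p x l = dd (e l) p x := by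
  have h := inner_gradS p (e l) x
  rw [← h]
  simp [e, EuclideanSpace.inner_single_left]

/-! ### Radial functions -/

/-- The radial function with profile `Ψ`. -/
def rad (Ψ : ℝ → ℝ) (y : E) : ℝ := Ψ (‖y‖ ^ 2)

theorem rad_contDiff {Ψ : ℝ → ℝ} (h : ContDiff ℝ ∞ Ψ) : ContDiff ℝ ∞ (rad Ψ) :=
  h.comp (contDiff_norm_sq ℝ)

theorem deriv_contDiff {Ψ : ℝ → ℝ} (h : ContDiff ℝ ∞ Ψ) : ContDiff ℝ ∞ (deriv Ψ) :=
  (contDiff_infty_iff_deriv.1 h).2

theorem dd_rad {Ψ : ℝ → ℝ} (h : ContDiff ℝ ∞ Ψ) (v : E) :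
    dd v (rad Ψ) = fun y => 2 * (⟪y, v⟫ * rad (deriv Ψ) y) := by
  funext y
  have h1 : HasFDerivAt (fun y : E => ‖y‖ ^ 2) (2 • innerSL ℝ y) y :=
    (hasStrictFDerivAt_norm_sq y).hasFDerivAt
  have h2 : HasDerivAt Ψ (deriv Ψ (‖y‖ ^ 2)) (‖y‖ ^ 2) := (h.differentiable (by simp) _).hasDerivAt
  have h3 : HasFDerivAt (rad Ψ) (deriv Ψ (‖y‖ ^ 2) • (2 • innerSL ℝ y)) y := h2.comp_hasFDerivAt y h1
  unfold dd
  rw [h3.fderiv]
  simp only [ContinuousLinearMap.smul_apply, innerSL_apply_apply, smul_eq_mul, nsmul_eq_mul, rad]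
  push_cast
  ring

theorem inner_contDiff (w : E) : ContDiff ℝ ∞ (fun y : E => ⟪y, w⟫) := contDiff_id.inner ℝ contDiff_const

theorem dd_inner_mul {f : E → ℝ} (hf : ContDiff ℝ ∞ f) (w v : E) :
    dd v (fun y => ⟪y, w⟫ * f y) = fun y => ⟪v, w⟫ * f y + ⟪y, w⟫ * dd v f y := by
  funext y
  have h1 : HasFDerivAt (fun y : E => ⟪y, w⟫) ((innerSL ℝ).flip w) y := ((innerSL ℝ).flip w).hasFDerivAt
  have h2 := h1.mul ((diff_of hf y).hasFDerivAt)
  show (fderiv ℝ ((fun y : E => ⟪y, w⟫) * f) y) v = _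
  unfold dd
  rw [h2.fderiv]
  simp only [ContinuousLinearMap.add_apply, ContinuousLinearMap.smul_apply, smul_eq_mul,
    ContinuousLinearMap.flip_apply, innerSL_apply_apply]
  ring

theorem dd_mul {f g : E → ℝ} (hf : ContDiff ℝ ∞ f) (hg : ContDiff ℝ ∞ g) (v : E) :
    dd v (fun y => f y * g y) = fun y => f y * dd v g y + g y * dd v f y := by
  funext y
  have h2 := ((diff_of hf y).hasFDerivAt).mul ((diff_of hg y).hasFDerivAt)
  show (fderiv ℝ (f * g) y) v = _
  unfold dd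
  rw [h2.fderiv]
  simp only [ContinuousLinearMap.add_apply, ContinuousLinearMap.smul_apply, smul_eq_mul]

theorem inner_e_e (i l : Fin 3) : ⟪e i, e l⟫ = if i = l then (1 : ℝ) else 0 := by
  simp [e, EuclideanSpace.inner_single_left]

theorem e_self (i : Fin 3) : e i i = 1 := by simp [e]

theorem inner_e (y : E) (i : Fin 3) : ⟪y, e i⟫ = y i := by
  simp [e, EuclideanSpace.inner_single_right]

theorem inner_e' (y : E) (i : Fin 3) : ⟪e i, y⟫ = y i := by
  simp [e, EuclideanSpace.inner_single_left]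

theorem norm_sq_coord (y : E) : ‖y‖ ^ 2 = ∑ i : Fin 3, y i ^ 2 := by
  rw [EuclideanSpace.norm_sq_eq]
  simp

theorem inner_coord (y w : E) : ⟪y, w⟫ = ∑ i : Fin 3, y i * w i := by
  rw [PiLp.inner_apply]
  refine Finset.sum_congr rfl fun i _ => ?_
  simp [mul_comm]

theorem lap_rad {Ψ : ℝ → ℝ} (h : ContDiff ℝ ∞ Ψ) (y : E) :
    lap (rad Ψ) y = 4 * ‖y‖ ^ 2 * deriv (deriv Ψ) (‖y‖ ^ 2) + 6 * deriv Ψ (‖y‖ ^ 2) := by
  unfold lap
  have h1 : ∀ i : Fin 3, dd (e i) (dd (e i) (rad Ψ)) y =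
      2 * deriv Ψ (‖y‖ ^ 2) + 4 * (y i) ^ 2 * deriv (deriv Ψ) (‖y‖ ^ 2) := by
    intro i
    rw [dd_rad h]
    have h2 := dd_smul (f := fun y => ⟪y, e i⟫ * rad (deriv Ψ) y)
      ((inner_contDiff (e i)).mul (rad_contDiff (deriv_contDiff h))) 2 (e i)
    simp only [smul_eq_mul] at h2
    rw [h2, dd_inner_mul (rad_contDiff (deriv_contDiff h)), dd_rad (deriv_contDiff h)]
    simp only [inner_e, e_self, rad]
    ring
  simp only [h1]
  rw [norm_sq_coord y, Fin.sum_univ_three, Fin.sum_univ_three]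
  ring

theorem lap_inner_rad {Θ : ℝ → ℝ} (h : ContDiff ℝ ∞ Θ) (w y : E) :
    lap (fun y => ⟪y, w⟫ * rad Θ y) y
      = ⟪y, w⟫ * (4 * ‖y‖ ^ 2 * deriv (deriv Θ) (‖y‖ ^ 2) + 10 * deriv Θ (‖y‖ ^ 2)) := by
  have hr := rad_contDiff h
  have hr' := rad_contDiff (deriv_contDiff h)
  unfold lap
  have h1 : ∀ i : Fin 3, dd (e i) (dd (e i) (fun y => ⟪y, w⟫ * rad Θ y)) y =
      w i * (2 * (y i * deriv Θ (‖y‖ ^ 2))) +
        2 * (y i * (w i * deriv Θ (‖y‖ ^ 2)) + ⟪y, w⟫ * (deriv Θ (‖y‖ ^ 2) + y i * (2 * (y i *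
          deriv (deriv Θ) (‖y‖ ^ 2))))) := by
    intro i
    rw [dd_inner_mul hr, dd_rad h]
    have e1 : (fun y : E => ⟪e i, w⟫ * rad Θ y + ⟪y, w⟫ * (2 * (⟪y, e i⟫ * rad (deriv Θ) y)))
        = fun y : E => (⟪e i, w⟫ • rad Θ y) + ((2 : ℝ) • (⟪y, w⟫ * (⟪y, e i⟫ * rad (deriv Θ) y))) := by
      funext y
      simp only [smul_eq_mul]
      ring
    have hc : ContDiff ℝ ∞ (fun y : E => ⟪y, e i⟫ * rad (deriv Θ) y) := (inner_contDiff (e i)).mul hr'
    have hc2 : ContDiff ℝ ∞ (fun y : E => ⟪y, w⟫ * (⟪y, e i⟫ * rad (deriv Θ) y)) :=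
      (inner_contDiff w).mul hc
    rw [e1, dd_add (hr.const_smul _) (hc2.const_smul _), dd_smul hr, dd_smul hc2, dd_inner_mul hc,
      dd_inner_mul hr', dd_rad h, dd_rad (deriv_contDiff h)]
    simp only [inner_e, inner_e', e_self, rad, smul_eq_mul]
    ring
  simp only [h1]
  rw [norm_sq_coord y, inner_coord y w, Fin.sum_univ_three, Fin.sum_univ_three, Fin.sum_univ_three]
  ring

/-! ### Bumps -/

theorem IsBump.dd {Ω : Set E} {a : E → ℝ} (h : IsBump Ω a) (v : E) : IsBump Ω (Pool.Agent.NSK.dd v a) := by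
  have hs : tsupport (Pool.Agent.NSK.dd v a) ⊆ tsupport a := by
    refine (closure_mono ?_).trans (tsupport_fderiv_subset ℝ (f := a))
    intro x hx
    simp only [Function.mem_support, ne_eq] at hx ⊢
    intro h0
    apply hx
    unfold Pool.Agent.NSK.dd
    rw [h0]
    rfl
  exact ⟨dd_contDiff h.1 v, h.2.1.of_isClosed_subset (isClosed_tsupport _) hs, hs.trans h.2.2⟩

theorem IsBump.smul {Ω : Set E} {a : E → ℝ} (h : IsBump Ω a) (c : ℝ) : IsBump Ω (fun x => c * a x) := by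
  have hs : tsupport (fun x => c * a x) ⊆ tsupport a := by
    refine closure_mono ?_
    intro x hx
    simp only [Function.mem_support, ne_eq] at hx ⊢
    intro h0
    apply hx
    rw [h0, mul_zero]
  exact ⟨contDiff_const.mul h.1, h.2.1.of_isClosed_subset (isClosed_tsupport _) hs, hs.trans h.2.2⟩

theorem IsBump.add {Ω : Set E} {a b : E → ℝ} (ha : IsBump Ω a) (hb : IsBump Ω b) :
    IsBump Ω (fun x => a x + b x) := by
  have hs : tsupport (fun x => a x + b x) ⊆ tsupport a ∪ tsupport b := by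
    refine closure_minimal ?_ ((isClosed_tsupport _).union (isClosed_tsupport _))
    intro x hx
    by_contra h
    simp only [mem_union, not_or] at h
    apply hx
    show a x + b x = 0
    rw [image_eq_zero_of_notMem_tsupport h.1, image_eq_zero_of_notMem_tsupport h.2, add_zero]
  exact ⟨ha.1.add hb.1, (ha.2.1.union hb.2.1).of_isClosed_subset (isClosed_tsupport _) hs,
    hs.trans (union_subset ha.2.2 hb.2.2)⟩

theorem IsBump.sum {Ω : Set E} {n : ℕ} {a : Fin n → E → ℝ} (ha : ∀ m, IsBump Ω (a m)) :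
    IsBump Ω (fun x => ∑ m, a m x) := by
  have hs : tsupport (fun x => ∑ m, a m x) ⊆ ⋃ m, tsupport (a m) := by
    refine closure_minimal ?_ (isClosed_iUnion_of_finite fun m => isClosed_tsupport _)
    intro x hx
    by_contra h
    simp only [mem_iUnion, not_exists] at h
    apply hx
    show ∑ m, a m x = 0
    exact Finset.sum_eq_zero fun m _ => image_eq_zero_of_notMem_tsupport (h m)
  exact ⟨ContDiff.sum fun m _ => (ha m).1,
    (isCompact_iUnion fun m => (ha m).2.1).of_isClosed_subset (isClosed_tsupport _) hs,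
    hs.trans (iUnion_subset fun m => (ha m).2.2)⟩

end Pool.Agent.NSK.Base
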