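import Pool.Agent.NSK.BaseCalc

/-!
# NSK, module Base: the six wave directions
-/

open MeasureTheory Set Filter Topology
open scoped RealInnerProductSpace ContDiff

noncomputable section

namespace Pool.Agent.NSK.Base

open Pool.Agent.NSD Pool.Agent.NSK

/-- `1/√2`. -/
def rt : ℝ := (Real.sqrt 2)⁻¹

theorem rt_mul : rt * rt = 1 / 2 := by
  unfold rt
  rw [← mul_inv, Real.mul_self_sqrt (by norm_num)]
  norm_num

def xiV (j : Fin 3) : Fin 6 → E :=
  ![rt • (e j + e (j + 1)), rt • (e j - e (j + 1)), rt • (e j + e (j + 2)), rt • (e j - e (j + 2)),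
    e (j + 1), e (j + 2)]

def kV (j : Fin 3) : Fin 6 → E := ![e (j + 2), e (j + 2), e (j + 1), e (j + 1), e j, e j]

def wV (sg : ℝ) (j : Fin 3) : Fin 6 → E :=
  ![sg • (e j + (1 / 2 : ℝ) • e (j + 1)), sg • (e j - (1 / 2 : ℝ) • e (j + 1)),
    sg • (e j + (1 / 2 : ℝ) • e (j + 2)), sg • (e j - (1 / 2 : ℝ) • e (j + 2)), 0, 0]

theorem e_apply (i l : Fin 3) : e i l = if l = i then (1 : ℝ) else 0 := by
  simp [e]

theorem e_norm (i : Fin 3) : ‖e i‖ = 1 := by
  simp [e]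

theorem kV_norm (j : Fin 3) (m : Fin 6) : ‖kV j m‖ = 1 := by
  fin_cases m <;> exact e_norm _

theorem xx0 (j i l : Fin 3) : xiV j 0 i * xiV j 0 l = 1 / 2 * ((e j i + e (j + 1) i) * (e j l + e (j + 1) l)) := by
  rw [← rt_mul]
  simp only [xiV, Matrix.cons_val_zero, PiLp.smul_apply, PiLp.add_apply, smul_eq_mul]
  ring

theorem xx1 (j i l : Fin 3) : xiV j 1 i * xiV j 1 l = 1 / 2 * ((e j i - e (j + 1) i) * (e j l - e (j + 1) l)) := by
  rw [← rt_mul]
  simp only [xiV, Matrix.cons_val_one, Matrix.cons_val_zero, PiLp.smul_apply, PiLp.sub_apply, smul_eq_mul]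
  ring

theorem xx2 (j i l : Fin 3) : xiV j 2 i * xiV j 2 l = 1 / 2 * ((e j i + e (j + 2) i) * (e j l + e (j + 2) l)) := by
  rw [← rt_mul]
  have h : xiV j 2 = rt • (e j + e (j + 2)) := rfl
  rw [h]
  simp only [PiLp.smul_apply, PiLp.add_apply, smul_eq_mul]
  ring

theorem xx3 (j i l : Fin 3) : xiV j 3 i * xiV j 3 l = 1 / 2 * ((e j i - e (j + 2) i) * (e j l - e (j + 2) l)) := by
  rw [← rt_mul]
  have h : xiV j 3 = rt • (e j - e (j + 2)) := rfl
  rw [h]
  simp only [PiLp.smul_apply, PiLp.sub_apply, smul_eq_mul]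
  ring

theorem xx4 (j i l : Fin 3) : xiV j 4 i * xiV j 4 l = e (j + 1) i * e (j + 1) l := rfl

theorem xx5 (j i l : Fin 3) : xiV j 5 i * xiV j 5 l = e (j + 2) i * e (j + 2) l := rfl

theorem iso (j : Fin 3) (i l : Fin 3) : ∑ m, xiV j m i * xiV j m l = if i = l then 2 else 0 := by
  rw [Fin.sum_univ_six, xx0, xx1, xx2, xx3, xx4, xx5]
  simp only [e_apply]
  fin_cases j <;> fin_cases i <;> fin_cases l <;> simp <;> norm_num

theorem iso1 (sg : ℝ) (j : Fin 3) (i l : Fin 3) (v : E) : ∑ m, ⟪wV sg j m, v⟫ * (xiV j m i * xiV j m l)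
    = sg * (((if j = l then v i else 0) + (if i = j then v l else 0)) / 2 + (if i = l then v j else 0)) := by
  rw [Fin.sum_univ_six, xx0, xx1, xx2, xx3, xx4, xx5]
  have h0 : ⟪wV sg j 0, v⟫ = sg * (v j + 1 / 2 * v (j + 1)) := by
    have h : wV sg j 0 = sg • (e j + (1 / 2 : ℝ) • e (j + 1)) := rfl
    rw [h, real_inner_smul_left, inner_add_left, real_inner_smul_left, inner_e', inner_e']
  have h1 : ⟪wV sg j 1, v⟫ = sg * (v j - 1 / 2 * v (j + 1)) := by
    have h : wV sg j 1 = sg • (e j - (1 / 2 : ℝ) • e (j + 1)) := rfl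
    rw [h, real_inner_smul_left, inner_sub_left, real_inner_smul_left, inner_e', inner_e']
  have h2 : ⟪wV sg j 2, v⟫ = sg * (v j + 1 / 2 * v (j + 2)) := by
    have h : wV sg j 2 = sg • (e j + (1 / 2 : ℝ) • e (j + 2)) := rfl
    rw [h, real_inner_smul_left, inner_add_left, real_inner_smul_left, inner_e', inner_e']
  have h3 : ⟪wV sg j 3, v⟫ = sg * (v j - 1 / 2 * v (j + 2)) := by
    have h : wV sg j 3 = sg • (e j - (1 / 2 : ℝ) • e (j + 2)) := rfl
    rw [h, real_inner_smul_left, inner_sub_left, real_inner_smul_left, inner_e', inner_e']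
  have h4 : ⟪wV sg j 4, v⟫ = 0 := inner_zero_left _
  have h5 : ⟪wV sg j 5, v⟫ = 0 := inner_zero_left _
  rw [h0, h1, h2, h3, h4, h5]
  simp only [e_apply]
  fin_cases j <;> fin_cases i <;> fin_cases l <;> simp <;> ring

theorem xiV_norm (j : Fin 3) (m : Fin 6) : ‖xiV j m‖ = 1 := by
  have h : ‖xiV j m‖ ^ 2 = 1 := by
    rw [norm_sq_coord, Fin.sum_univ_three]
    simp only [sq]
    fin_cases m
    · show xiV j 0 0 * xiV j 0 0 + xiV j 0 1 * xiV j 0 1 + xiV j 0 2 * xiV j 0 2 = 1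
      rw [xx0, xx0, xx0]
      simp only [e_apply]
      fin_cases j <;> simp <;> norm_num
    · show xiV j 1 0 * xiV j 1 0 + xiV j 1 1 * xiV j 1 1 + xiV j 1 2 * xiV j 1 2 = 1
      rw [xx1, xx1, xx1]
      simp only [e_apply]
      fin_cases j <;> simp <;> norm_num
    · show xiV j 2 0 * xiV j 2 0 + xiV j 2 1 * xiV j 2 1 + xiV j 2 2 * xiV j 2 2 = 1
      rw [xx2, xx2, xx2]
      simp only [e_apply]
      fin_cases j <;> simp <;> norm_num
    · show xiV j 3 0 * xiV j 3 0 + xiV j 3 1 * xiV j 3 1 + xiV j 3 2 * xiV j 3 2 = 1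
      rw [xx3, xx3, xx3]
      simp only [e_apply]
      fin_cases j <;> simp <;> norm_num
    · show xiV j 4 0 * xiV j 4 0 + xiV j 4 1 * xiV j 4 1 + xiV j 4 2 * xiV j 4 2 = 1
      rw [xx4, xx4, xx4]
      simp only [e_apply]
      fin_cases j <;> simp
    · show xiV j 5 0 * xiV j 5 0 + xiV j 5 1 * xiV j 5 1 + xiV j 5 2 * xiV j 5 2 = 1
      rw [xx5, xx5, xx5]
      simp only [e_apply]
      fin_cases j <;> simp
  have h0 := norm_nonneg (xiV j m)
  nlinarith

theorem kxi_orth (j : Fin 3) (m : Fin 6) : ⟪kV j m, xiV j m⟫ = 0 := by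
  have h0 : xiV j 0 = rt • (e j + e (j + 1)) := rfl
  have h1 : xiV j 1 = rt • (e j - e (j + 1)) := rfl
  have h2 : xiV j 2 = rt • (e j + e (j + 2)) := rfl
  have h3 : xiV j 3 = rt • (e j - e (j + 2)) := rfl
  have n1 : j + 2 ≠ j := by fin_cases j <;> decide
  have n2 : j + 2 ≠ j + 1 := by fin_cases j <;> decide
  have n3 : j + 1 ≠ j := by fin_cases j <;> decide
  fin_cases m
  · show ⟪e (j + 2), rt • (e j + e (j + 1))⟫ = 0
    rw [real_inner_smul_right, inner_add_right, inner_e_e, inner_e_e, if_neg n1, if_neg n2]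
    simp
  · show ⟪e (j + 2), rt • (e j - e (j + 1))⟫ = 0
    rw [real_inner_smul_right, inner_sub_right, inner_e_e, inner_e_e, if_neg n1, if_neg n2]
    simp
  · show ⟪e (j + 1), rt • (e j + e (j + 2))⟫ = 0
    rw [real_inner_smul_right, inner_add_right, inner_e_e, inner_e_e, if_neg n3, if_neg n2.symm]
    simp
  · show ⟪e (j + 1), rt • (e j - e (j + 2))⟫ = 0
    rw [real_inner_smul_right, inner_sub_right, inner_e_e, inner_e_e, if_neg n3, if_neg n2.symm]
    simp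
  · show ⟪e j, e (j + 1)⟫ = 0
    rw [inner_e_e, if_neg n3.symm]
  · show ⟪e j, e (j + 2)⟫ = 0
    rw [inner_e_e, if_neg n1.symm]

theorem wV_norm (sg : ℝ) (hsg : sg = 1 ∨ sg = -1) (j : Fin 3) (m : Fin 6) : ‖wV sg j m‖ ≤ 2 := by
  have hs : ‖sg‖ = 1 := by
    rcases hsg with h | h <;> rw [h] <;> simp
  have ha : ∀ i l : Fin 3, ‖sg • (e i + (1 / 2 : ℝ) • e l)‖ ≤ 2 := by
    intro i l
    rw [norm_smul, hs, one_mul]
    refine (norm_add_le _ _).trans ?_
    rw [norm_smul, e_norm, e_norm]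
    norm_num
  have hb : ∀ i l : Fin 3, ‖sg • (e i - (1 / 2 : ℝ) • e l)‖ ≤ 2 := by
    intro i l
    rw [norm_smul, hs, one_mul]
    refine (norm_sub_le _ _).trans ?_
    rw [norm_smul, e_norm, e_norm]
    norm_num
  fin_cases m
  · exact ha _ _
  · exact hb _ _
  · exact ha _ _
  · exact hb _ _
  · show ‖(0 : E)‖ ≤ 2
    simp
  · show ‖(0 : E)‖ ≤ 2
    simp

/-! ### The differential identities -/

theorem sym_sum (sg : ℝ) (j : Fin 3) (T : Fin 3 → Fin 3 → Fin 3 → ℝ) (h1 : ∀ a b c, T a b c = T b a c)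
    (h2 : ∀ a b c, T a b c = T a c b) :
    ∑ i : Fin 3, ∑ l : Fin 3, sg * (((if j = l then T i i l else 0) + (if i = j then T l i l else 0)) / 2
      + (if i = l then T j i l else 0)) = 2 * sg * ∑ i : Fin 3, T i i j := by
  have a1 : ∀ a b, T a b a = T a a b := fun a b => h2 a b a
  have a2 : ∀ a b, T a b b = T b b a := fun a b => by rw [h1, h2]
  simp only [Fin.sum_univ_three]
  fin_cases j <;>
    simp [a1 0 1, a1 0 2, a1 1 0, a1 1 2, a1 2 0, a1 2 1, a2 0 1, a2 0 2, a2 1 0, a2 1 2, a2 2 0, a2 2 1] <;>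
    ring

theorem id1 (j : Fin 3) {f : E → ℝ} (hf : ContDiff ℝ ∞ f) (x : E) :
    ∑ m, dd (xiV j m) (dd (xiV j m) f) x = 2 * lap f x := by
  have h0 : ∀ m, dd (xiV j m) (dd (xiV j m) f) x
      = ∑ i : Fin 3, ∑ l : Fin 3, xiV j m i * xiV j m l * dd (e i) (dd (e l) f) x := fun m => by
    rw [dd_dd_coord hf]
    rfl
  rw [Finset.sum_congr rfl fun m _ => h0 m, Finset.sum_comm]
  have h1 : ∀ i : Fin 3, ∑ m : Fin 6, ∑ l : Fin 3, xiV j m i * xiV j m l * dd (e i) (dd (e l) f) x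
      = 2 * dd (e i) (dd (e i) f) x := by
    intro i
    rw [Finset.sum_comm]
    simp only [← Finset.sum_mul, iso]
    simp
  simp only [h1]
  rw [← Finset.mul_sum]
  rfl

theorem id2 (sg : ℝ) (j : Fin 3) {p : E → ℝ} (hp : ContDiff ℝ ∞ p) (x : E) :
    ∑ m, dd (xiV j m) (dd (xiV j m) (dd (wV sg j m) p)) x = 2 * sg * lap (dd (e j) p) x := by
  have hc : ∀ (w : E) (i l : Fin 3), dd (e i) (dd (e l) (dd w p)) x
      = ⟪w, gradS (dd (e i) (dd (e l) p)) x⟫ := by
    intro w i l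
    rw [inner_gradS, dd_comm hp (e l) w, dd_comm (dd_contDiff hp _) (e i) w]
  have h0 : ∀ m, dd (xiV j m) (dd (xiV j m) (dd (wV sg j m) p)) x
      = ∑ i : Fin 3, ∑ l : Fin 3, ⟪wV sg j m, gradS (dd (e i) (dd (e l) p)) x⟫ * (xiV j m i * xiV j m l) := by
    intro m
    rw [dd_dd_coord (dd_contDiff hp _)]
    refine Finset.sum_congr rfl fun i _ => Finset.sum_congr rfl fun l _ => ?_
    rw [hc, smul_eq_mul, mul_comm]
  simp only [h0]
  rw [Finset.sum_comm]
  have h1 : ∀ i : Fin 3, ∑ m : Fin 6, ∑ l : Fin 3,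
      ⟪wV sg j m, gradS (dd (e i) (dd (e l) p)) x⟫ * (xiV j m i * xiV j m l)
      = ∑ l : Fin 3, sg * (((if j = l then gradS (dd (e i) (dd (e l) p)) x i else 0)
        + (if i = j then gradS (dd (e i) (dd (e l) p)) x l else 0)) / 2
        + (if i = l then gradS (dd (e i) (dd (e l) p)) x j else 0)) := by
    intro i
    rw [Finset.sum_comm]
    refine Finset.sum_congr rfl fun l _ => ?_
    rw [iso1]
  simp only [h1, gradS_coord]
  have hl : lap (dd (e j) p) x = ∑ i : Fin 3, dd (e i) (dd (e i) (dd (e j) p)) x := rfl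
  rw [hl]
  exact sym_sum sg j (fun a b c => dd (e a) (dd (e b) (dd (e c) p)) x)
    (fun a b c => by
      show dd (e a) (dd (e b) (dd (e c) p)) x = dd (e b) (dd (e a) (dd (e c) p)) x
      rw [dd_comm (dd_contDiff hp _) (e a) (e b)])
    (fun a b c => by
      show dd (e a) (dd (e b) (dd (e c) p)) x = dd (e a) (dd (e c) (dd (e b) p)) x
      rw [dd_comm hp (e b) (e c)])

end Pool.Agent.NSK.Base
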