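import Pool.Agent.NSK.Abs
import Pool.Agent.NSD.Basic

/-!
# MP_fd8964_an, weak density: a continuity argument and basic facts about `Layer`, `SolOn`
-/

open MeasureTheory Set Filter Topology
open scoped RealInnerProductSpace

noncomputable section

namespace Pool.Agent.NSK

open Pool.Agent.NSD

/-- Continuity argument: if `g 0 ≤ a < b` and `g ≤ b` on `[0,τ]` implies `g ≤ a` on `[0,τ]`, then `g ≤ a` on `[0,T]`. -/
theorem bootstrap {T a b : ℝ} {g : ℝ → ℝ} (hg : ContinuousOn g (Icc 0 T)) (h0 : g 0 ≤ a) (hab : a < b)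
    (h : ∀ τ, 0 ≤ τ → τ ≤ T → (∀ t ∈ Icc 0 τ, g t ≤ b) → ∀ t ∈ Icc 0 τ, g t ≤ a) :
    ∀ t ∈ Icc 0 T, g t ≤ a := by
  have key : ∀ t ∈ Icc 0 T, g t < b := by
    by_contra hcon
    push Not at hcon
    obtain ⟨t₁, ht₁, hbt₁⟩ := hcon
    have hcl : IsClosed ({t | b ≤ g t} ∩ Icc 0 T) := by
      have : IsClosed (Icc 0 T ∩ g ⁻¹' (Ici b)) := hg.preimage_isClosed_of_isClosed isClosed_Icc isClosed_Ici
      rwa [inter_comm] at this
    have hcp : IsCompact ({t | b ≤ g t} ∩ Icc 0 T) := isCompact_Icc.of_isClosed_subset hcl inter_subset_right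
    obtain ⟨m, ⟨hm1, hm2⟩, hmin⟩ := hcp.exists_isLeast ⟨t₁, hbt₁, ht₁⟩
    have hm1' : b ≤ g m := hm1
    have hlt : ∀ t ∈ Ico 0 m, g t ≤ a := by
      intro t ht
      refine h t ht.1 (ht.2.le.trans hm2.2) (fun s hs => ?_) t ⟨ht.1, le_rfl⟩
      by_contra hc
      push Not at hc
      have : m ≤ s := hmin ⟨hc.le, hs.1, hs.2.trans (ht.2.le.trans hm2.2)⟩
      linarith [hs.2, ht.2]
    rcases eq_or_lt_of_le hm2.1 with h0m | h0m
    · rw [← h0m] at hm1'; linarith
    · have hcw : ContinuousWithinAt g (Ico 0 m) m :=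
        (hg m hm2).mono (fun x hx => ⟨hx.1, hx.2.le.trans hm2.2⟩)
      have hmc : m ∈ closure (Ico 0 m) := by
        rw [closure_Ico h0m.ne]; exact ⟨h0m.le, le_rfl⟩
      have hne : (𝓝[Ico 0 m] m).NeBot := mem_closure_iff_nhdsWithin_neBot.1 hmc
      have : g m ≤ a := le_of_tendsto hcw (eventually_nhdsWithin_of_forall hlt)
      linarith
  intro t ht
  exact h t ht.1 ht.2 (fun s hs => (key s ⟨hs.1, hs.2.trans ht.2⟩).le) t ⟨ht.1, le_rfl⟩

theorem ex_pos (c N t : ℝ) : 0 < ex c N t := Real.exp_pos _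

theorem ex_zero (c N : ℝ) : ex c N 0 = 1 := by simp [ex]

theorem ex_le_one {c N t : ℝ} (hc : 0 ≤ c) (ht : 0 ≤ t) : ex c N t ≤ 1 := by
  unfold ex
  rw [Real.exp_le_one_iff]
  have : 0 ≤ c * N ^ 2 * t := by positivity
  linarith

section
variable {V K : Type*} [NormedAddCommGroup V] [InnerProductSpace ℝ V]
    [NormedAddCommGroup K] [InnerProductSpace ℝ K] {D : Data V K}
    {η M c N : ℝ} {s₀ : V} {P P' : ℝ → V} {ρ : ℝ → K}

theorem Layer.cont (h : Layer D η M c N s₀ P P' ρ) : ContinuousOn P (Ici 0) :=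
  fun t ht => (h.deriv t ht).continuousWithinAt

theorem SolOn.mono {f : ℝ → (V →L[ℝ] ℝ)} {T T' : ℝ} {u w : ℝ → V} (h : SolOn D η f T u w) (hT : T' ≤ T) :
    SolOn D η f T' u w :=
  ⟨h.h1, ae_mono (Measure.restrict_mono (Ioc_subset_Ioc_right hT) le_rfl) h.eq⟩

theorem intervalIntegrable_sig_sq {x x₁ : ℝ → V} (h : IsH1loc x x₁) (D : Data V K) {a b : ℝ} (ha : 0 ≤ a) (hab : a ≤ b) :
    IntervalIntegrable (fun t => D.sig (x₁ t) ^ 2) volume a b := by
  rw [intervalIntegrable_iff_integrableOn_Ioc_of_le hab]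
  have hW := h.memLp b
  have hσW : MemLp (fun t => D.sig (x₁ t)) 2 (volume.restrict (Ioc 0 b)) := by
    refine hW.of_le (D.continuous_sig.comp_aestronglyMeasurable hW.1) ?_
    exact Filter.Eventually.of_forall fun t => by
      rw [Real.norm_of_nonneg (D.sig_nonneg _)]
      exact D.sig_le_norm _
  have h2 : IntegrableOn (fun t => D.sig (x₁ t) ^ 2) (Ioc 0 b) := hσW.integrable_sq
  exact h2.mono_set (Ioc_subset_Ioc_left ha)

theorem continuousOn_sig {x x₁ : ℝ → V} (h : IsH1loc x x₁) (D : Data V K) :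
    ContinuousOn (fun t => D.sig (x t)) (Ici 0) := D.continuous_sig.comp_continuousOn h.continuousOn

theorem BdOn.mono {C T T' : ℝ} {S W : ℝ → V} (hS : IsH1loc S W) (h : BdOn D C T S W) (h0 : 0 ≤ T') (hT : T' ≤ T) :
    BdOn D C T' S W := by
  refine ⟨ae_mono (Measure.restrict_mono (Ioc_subset_Ioc_right hT) le_rfl) h.iW,
    fun t ht => h.sig t ⟨ht.1, ht.2.trans hT⟩, ?_, ?_⟩
  · refine le_trans ?_ h.int4
    refine intervalIntegral.integral_mono_interval le_rfl h0 hT ?_ ?_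
    · exact Filter.Eventually.of_forall fun t => by positivity
    · exact ContinuousOn.intervalIntegrable_of_Icc (h0.trans hT)
        (((continuousOn_sig hS D).mono Icc_subset_Ici_self).pow 4)
  · refine le_trans ?_ h.intW
    refine intervalIntegral.integral_mono_interval le_rfl h0 hT ?_ ?_
    · exact Filter.Eventually.of_forall fun t => by positivity
    · exact intervalIntegrable_sig_sq hS D le_rfl (h0.trans hT)

theorem BdOn.mono_const {C C' T : ℝ} {S W : ℝ → V} (h : BdOn D C T S W) (hC : C ≤ C') : BdOn D C' T S W :=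
  ⟨h.iW.mono fun _ ht => ht.trans hC, fun t ht => (h.sig t ht).trans hC, h.int4.trans hC, h.intW.trans hC⟩

end

end Pool.Agent.NSK
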