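import Pool.Agent.NSK.Conc
import Pool.Agent.NSD.Compat
import Pool.Agent.NSD.Rep

/-!
# MP_fd8964_an (squad NSK), module CPT: compatibility at `t = 0` for test fields
-/

open MeasureTheory Set Filter Topology
open scoped RealInnerProductSpace ContDiff

noncomputable section

namespace Pool.Agent.NSK

open Pool.Agent.NSD

namespace CompatTest

theorem continuous_dd {p : E → E} (hp : ContDiff ℝ ∞ p) (v : E) : ContDiff ℝ ∞ (dd v p) := by
  unfold dd
  exact (hp.fderiv_right (m := ∞) (by simp)).clm_apply contDiff_const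

theorem contDiff_lap {p : E → E} (hp : ContDiff ℝ ∞ p) : ContDiff ℝ ∞ (lap p) := by
  unfold lap
  exact ContDiff.sum fun i _ => continuous_dd (continuous_dd hp _) _

theorem contDiff_adv {p q : E → E} (hp : ContDiff ℝ ∞ p) (hq : ContDiff ℝ ∞ q) : ContDiff ℝ ∞ (adv p q) := by
  unfold adv
  exact (hq.fderiv_right (m := ∞) (by simp)).clm_apply hp

theorem compact_dd {p : E → E} (hp : HasCompactSupport p) (v : E) : HasCompactSupport (dd v p) := by
  unfold dd
  exact hp.fderiv_apply ℝ v

theorem compact_lap {p : E → E} (hp : HasCompactSupport p) : HasCompactSupport (lap p) := by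
  unfold lap
  simp only [Fin.sum_univ_three]
  exact ((compact_dd (compact_dd hp _) _).add (compact_dd (compact_dd hp _) _)).add
    (compact_dd (compact_dd hp _) _)

theorem compact_adv {p q : E → E} (hq : HasCompactSupport q) : HasCompactSupport (adv p q) := by
  have h1 : HasCompactSupport (fderiv ℝ q) := hq.fderiv ℝ
  refine h1.mono' ?_
  refine fun x hx => ?_
  refine subset_tsupport _ ?_
  rw [Function.mem_support] at hx ⊢
  intro h0
  exact hx (by simp [adv, h0])

end CompatTest

/-- **CPT.** -/
theorem compatTest_proof (hL : Stmt_Lap) (hA : Stmt_Adv) : Stmt_CompatTest := by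
  intro Ω hΩ hb D hD p pV hp hrep η
  obtain ⟨_, hDa, hDb⟩ := hD
  have hfin := cpt_finite hb
  have m1 : MemLp (lap p) 2 (volume.restrict Ω) :=
    (CompatTest.contDiff_lap hp.smooth).continuous.memLp_of_hasCompactSupport (CompatTest.compact_lap hp.compact)
  have m2 : MemLp (adv p p) 2 (volume.restrict Ω) :=
    (CompatTest.contDiff_adv hp.smooth hp.smooth).continuous.memLp_of_hasCompactSupport
      (CompatTest.compact_adv hp.compact)
  have key1 : ∀ v : V Ω, ⟪grd pV, grd v⟫ = - ⟪m1.toLp _, fld v⟫ := by
    intro v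
    rw [hL Ω hΩ hb p pV hp hrep v, L2.inner_def]
    congr 1
    refine integral_congr_ae ?_
    filter_upwards [m1.coeFn_toLp] with x hx
    rw [hx]
  have key2 : ∀ v : V Ω, trilin pV pV v = ⟪m2.toLp _, fld v⟫ := by
    intro v
    rw [hA Ω hΩ hb p p pV pV hp hp hrep hrep v, L2.inner_def]
    refine integral_congr_ae ?_
    filter_upwards [m2.coeFn_toLp] with x hx
    rw [hx]
  have : CompleteSpace (Hspace Ω) := Submodule.topologicalClosure.completeSpace _
  refine ⟨(Hspace Ω).starProjection (η • m1.toLp _ - m2.toLp _),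
    Submodule.starProjection_apply_mem _ _, fun v => ?_⟩
  rw [Submodule.inner_starProjection_left_eq_right,
    Submodule.starProjection_eq_self_iff.2 (cpt_fld_mem Approx_proof Ω v), inner_sub_left,
    real_inner_smul_left, hDa, hDb, key1 v, key2 v]
  ring

end Pool.Agent.NSK
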