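import Pool.Agent.NSD.Defs
import Pool.Agent.NSD.Abstract
import Pool.Agent.NSK.Abs

/-!
# MP_fd8964_an, weak density of good initial data: concrete part (definitions and interface statements)

See /team-store/MP_fd8964_WEAKDENSE_PROOF.md, sections 1, 2, 4.
-/

open MeasureTheory Set Filter Topology
open scoped RealInnerProductSpace ContDiff

noncomputable section

namespace Pool.Agent.NSK

open Pool.Agent.NSD

/-- Directional derivative. -/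
def dd {F : Type*} [NormedAddCommGroup F] [NormedSpace ℝ F] (v : E) (f : E → F) (x : E) : F := fderiv ℝ f x v

/-- The gradient of a scalar function. -/
def gradS (p : E → ℝ) (x : E) : E := ∑ i : Fin 3, (dd (e i) p x) • e i

/-- The Laplacian. -/
def lap {F : Type*} [NormedAddCommGroup F] [NormedSpace ℝ F] (f : E → F) (x : E) : F :=
  ∑ i : Fin 3, dd (e i) (dd (e i) f) x

/-- `(p·∇)q`. -/
def adv (p q : E → E) (x : E) : E := fderiv ℝ q x (p x)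

/-- The divergence free field with (two-dimensional) stream function `g` in the plane of `k, ξ`. -/
def stream (k ξ : E) (g : E → ℝ) (x : E) : E := (dd k g x) • ξ - (dd ξ g x) • k

/-- Smooth scalar functions with compact support in `Ω`. -/
def IsBump (Ω : Set E) (a : E → ℝ) : Prop :=
  ContDiff ℝ ∞ a ∧ HasCompactSupport a ∧ tsupport a ⊆ Ω

/-- Kick systems: waves `a m` with pairwise disjoint supports, wave vectors `k m`, polarisations `ξ m`, pressure `q`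
and the kick `G` (see (K) in the proof file). -/
structure Kick (Ω : Set E) (η : ℝ) (n : ℕ) (a : Fin n → E → ℝ) (k ξ : Fin n → E) (q : E → ℝ) (G : E → E) :
    Prop where
  bump : ∀ m, IsBump Ω (a m)
  disj : ∀ m m', m ≠ m' → Disjoint (tsupport (a m)) (tsupport (a m'))
  k_unit : ∀ m, ‖k m‖ = 1
  ξ_unit : ∀ m, ‖ξ m‖ = 1
  orth : ∀ m, ⟪k m, ξ m⟫ = 0
  pres : IsBump Ω q
  test : IsTest Ω G
  eq : ∀ x, ∑ m, (dd (ξ m) (fun y => a m y ^ 2) x) • ξ m = (4 * η) • G x + gradS q x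

/-- `G` is a kick in `Ω`. -/
def IsKick (Ω : Set E) (η : ℝ) (G : E → E) : Prop :=
  ∃ (n : ℕ) (a : Fin n → E → ℝ) (k ξ : Fin n → E) (q : E → ℝ), Kick Ω η n a k ξ q G

/-- Stream functions of the waves. -/
def gS (N : ℝ) (k : E) (a : E → ℝ) (y : E) : ℝ := Real.sin (N * ⟪k, y⟫) * a y
/-- Stream functions of the correctors. -/
def gC (N : ℝ) (k : E) (c : E → ℝ) (y : E) : ℝ := - (1 / N) * Real.cos (N * ⟪k, y⟫) * c y

/-- The coefficient `c₁`. -/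
def c1 (η : ℝ) (k : E) (a : E → ℝ) (s : E → E) (x : E) : ℝ := a x * ⟪s x, k⟫ - 2 * η * dd k a x
/-- The coefficient `c₂`. -/
def c2 (η : ℝ) (k : E) (a : E → ℝ) (G : E → E) (x : E) : ℝ := a x * ⟪G x, k⟫ / (2 * η)

/-- The high-frequency perturbation `A_N`. -/
def waveA (N : ℝ) {n : ℕ} (a : Fin n → E → ℝ) (k ξ : Fin n → E) (x : E) : E :=
  ∑ m, stream (k m) (ξ m) (gS N (k m) (a m)) x

/-- The data of `Ω`: `ι = fld`, `a` the Dirichlet form and `b = trilin`. -/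
def IsNSData (Ω : Set E) (D : Data (V Ω) (L2 Ω)) : Prop :=
  (∀ v, D.ι v = fld v) ∧ (∀ u v, D.a u v = ⟪grd u, grd v⟫) ∧ (∀ u v w, D.b u v w = trilin u v w)

/-! ## Interface statements -/

/-- DAT. -/
def Stmt_Data : Prop := ∀ Ω : Set E, IsOpen Ω → Bornology.IsBounded Ω → ∃ D : Data (V Ω) (L2 Ω), IsNSData Ω D

/-- TB1. Sup norm bounds give `StarBd`, for represented test fields. -/
def Stmt_Star : Prop := ∀ (Ω : Set E), IsOpen Ω → Bornology.IsBounded Ω → ∀ D : Data (V Ω) (L2 Ω), IsNSData Ω D →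
    ∀ (p : E → E) (pV : V Ω) (m : ℝ), IsTest Ω p → Represents Ω p pV → (∀ x, ‖p x‖ ≤ m) → StarBd D pV m

/-- TB2. Integration by parts: `∫ ∇p : ∇v = - ∫ Δp · v`. -/
def Stmt_Lap : Prop := ∀ (Ω : Set E), IsOpen Ω → Bornology.IsBounded Ω →
    ∀ (p : E → E) (pV : V Ω), IsTest Ω p → Represents Ω p pV → ∀ v : V Ω,
      ⟪grd pV, grd v⟫ = - ∫ x in Ω, ⟪lap p x, (fld v : E → E) x⟫

/-- TB3. `trilin p q v = ∫ (p·∇)q · v` for test fields `p, q`. -/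
def Stmt_Adv : Prop := ∀ (Ω : Set E), IsOpen Ω → Bornology.IsBounded Ω →
    ∀ (p q : E → E) (pV qV : V Ω), IsTest Ω p → IsTest Ω q → Represents Ω p pV → Represents Ω q qV → ∀ v : V Ω,
      trilin pV qV v = ∫ x in Ω, ⟪adv p q x, (fld v : E → E) x⟫

/-- TB4. Gradients are orthogonal to `V`. -/
def Stmt_Grad : Prop := ∀ (Ω : Set E), IsOpen Ω → Bornology.IsBounded Ω → ∀ q : E → ℝ, IsBump Ω q → ∀ v : V Ω,
      ∫ x in Ω, ⟪gradS q x, (fld v : E → E) x⟫ = 0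

/-- TB5. Pairing of a wave field / kick with `φ ∈ V`: `∫ (∂_ξ h) ξ·φ = - ∫ h ξ·(∇φ)ξ`. -/
def Stmt_PairXi : Prop := ∀ (Ω : Set E), IsOpen Ω → Bornology.IsBounded Ω → ∀ (h : E → ℝ) (ξ ζ : E), IsBump Ω h →
    ∀ v : V Ω, ∫ x in Ω, dd ξ h x * ⟪ζ, (fld v : E → E) x⟫
      = - ∫ x in Ω, h x * ∑ i : Fin 3, ξ i * ⟪ζ, (grd v : E → G) x i⟫

/-! ### The waves -/

/-- W0. Crude bounds for the wave fields, uniformly in `N ≥ 1`. -/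
def Stmt_WBd : Prop := ∀ (k ξ : E) (a c : E → ℝ), ‖k‖ = 1 → ‖ξ‖ = 1 → ⟪k, ξ⟫ = 0 → IsBump univ a → IsBump univ c →
    ∃ C : ℝ, 0 ≤ C ∧ ∀ N : ℝ, 1 ≤ N → ∀ x,
      ‖stream k ξ (gS N k a) x‖ ≤ C * N ∧ ‖fderiv ℝ (stream k ξ (gS N k a)) x‖ ≤ C * N ^ 2 ∧
      ‖stream k ξ (gC N k c) x‖ ≤ C ∧ ‖fderiv ℝ (stream k ξ (gC N k c)) x‖ ≤ C * N

/-- W1. The term `R1`. -/
def Stmt_R1 : Prop := ∀ (η : ℝ) (k ξ : E) (a : E → ℝ) (s : E → E), 0 < η → ‖k‖ = 1 → ‖ξ‖ = 1 → ⟪k, ξ⟫ = 0 →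
    IsBump univ a → ContDiff ℝ ∞ s → ∃ C : ℝ, 0 ≤ C ∧ ∀ N : ℝ, 1 ≤ N → ∀ x,
      ‖(-(η * N ^ 2)) • stream k ξ (gS N k a) x - η • lap (stream k ξ (gS N k a)) x
        + N ^ 2 • stream k ξ (gC N k (c1 η k a s)) x
        + adv s (stream k ξ (gS N k a)) x + adv (stream k ξ (gS N k a)) s x‖ ≤ C * N

/-- W2. The terms `R2`, `R3` (linear part). -/
def Stmt_R2 : Prop := ∀ (η : ℝ) (k ξ : E) (c : E → ℝ), 0 < η → ‖k‖ = 1 → ‖ξ‖ = 1 → ⟪k, ξ⟫ = 0 →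
    IsBump univ c → ∃ C : ℝ, 0 ≤ C ∧ ∀ N : ℝ, 1 ≤ N → ∀ x,
      ‖(-(η * N ^ 2)) • stream k ξ (gC N k c) x - η • lap (stream k ξ (gC N k c)) x‖ ≤ C * N

/-- W3. The term `R14`. -/
def Stmt_R14 : Prop := ∀ (η : ℝ) (k ξ : E) (a : E → ℝ) (G : E → E), 0 < η → ‖k‖ = 1 → ‖ξ‖ = 1 → ⟪k, ξ⟫ = 0 →
    IsBump univ a → ContDiff ℝ ∞ G → ∃ C : ℝ, 0 ≤ C ∧ ∀ N : ℝ, 1 ≤ N → ∀ x,
      ‖(2 * η * N ^ 2) • stream k ξ (gC N k (c2 η k a G)) x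
        + adv G (stream k ξ (gS N k a)) x + adv (stream k ξ (gS N k a)) G x‖ ≤ C * N

/-- W4. The self-interaction `(A·∇)A` is non-oscillating up to `O(N)`. -/
def Stmt_R4 : Prop := ∀ (k ξ : E) (a : E → ℝ), ‖k‖ = 1 → ‖ξ‖ = 1 → ⟪k, ξ⟫ = 0 →
    IsBump univ a → ∃ C : ℝ, 0 ≤ C ∧ ∀ N : ℝ, 1 ≤ N → ∀ x,
      ‖adv (stream k ξ (gS N k a)) (stream k ξ (gS N k a)) x
        - (N ^ 2 / 2 * dd ξ (fun y => a y ^ 2) x) • ξ‖ ≤ C * N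

/-- W5. `(A·∇)B + (B·∇)A = O(N)`. -/
def Stmt_RAB : Prop := ∀ (k ξ : E) (a c : E → ℝ), ‖k‖ = 1 → ‖ξ‖ = 1 → ⟪k, ξ⟫ = 0 →
    IsBump univ a → IsBump univ c → ∃ C : ℝ, 0 ≤ C ∧ ∀ N : ℝ, 1 ≤ N → ∀ x,
      ‖adv (stream k ξ (gS N k a)) (stream k ξ (gC N k c)) x
        + adv (stream k ξ (gC N k c)) (stream k ξ (gS N k a)) x‖ ≤ C * N

/-- LAY. Layers exist, with constants independent of `N`. -/
def Stmt_Layer : Prop := ∀ (Ω : Set E), IsOpen Ω → Bornology.IsBounded Ω → ∀ D : Data (V Ω) (L2 Ω), IsNSData Ω D →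
    ∀ (η : ℝ) (n : ℕ) (a : Fin n → E → ℝ) (k ξ : Fin n → E) (q : E → ℝ) (G s : E → E) (sV : V Ω), 0 < η →
      Kick Ω η n a k ξ q G → IsTest Ω s → Represents Ω s sV →
      ∃ M c : ℝ, 0 ≤ M ∧ 0 < c ∧ ∀ N : ℝ, 1 ≤ N → ∃ (P P' : ℝ → V Ω) (ρ : ℝ → L2 Ω),
        Layer D η M c N sV P P' ρ ∧ Represents Ω (fun x => G x + waveA N a k ξ x) (P 0)

/-- CPT. Compatibility at `t = 0` for test fields. -/
def Stmt_CompatTest : Prop := ∀ (Ω : Set E), IsOpen Ω → Bornology.IsBounded Ω → ∀ D : Data (V Ω) (L2 Ω),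
    IsNSData Ω D → ∀ (p : E → E) (pV : V Ω), IsTest Ω p → Represents Ω p pV → ∀ η : ℝ,
      ∃ h ∈ Hspace Ω, ∀ v : V Ω, - η * D.a pV v - D.b pV pV v = ⟪h, fld v⟫

/-- WT. The waves are test fields, tend to `0` uniformly on compact subsets of `V`. -/
def Stmt_Weak : Prop := ∀ (Ω : Set E), IsOpen Ω → Bornology.IsBounded Ω →
    ∀ (η : ℝ) (n : ℕ) (a : Fin n → E → ℝ) (k ξ : Fin n → E) (q : E → ℝ) (G : E → E),
      Kick Ω η n a k ξ q G → (∀ N, IsTest Ω (waveA N a k ξ)) ∧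
      ∀ (K : Set (V Ω)) (ε : ℝ), IsCompact K → 0 < ε → ∃ N₀ : ℝ, ∀ N : ℝ, N₀ ≤ N → ∀ p : V Ω,
        Represents Ω (waveA N a k ξ) p → ∀ φ ∈ K, |⟪fld p, fld φ⟫| ≤ ε

/-! ### Kicks -/

/-- KP. Radial profiles. -/
def Stmt_Profile : Prop := ∃ (g : Fin 6 → ℝ → ℝ) (I₀ I₁ : ℝ), 0 < I₀ ∧ 0 < I₁ ∧
    (∀ m, ContDiff ℝ ∞ (g m) ∧ HasCompactSupport (g m) ∧ tsupport (g m) ⊆ Ioo 0 1) ∧
    (∀ m m', m ≠ m' → Disjoint (tsupport (g m)) (tsupport (g m'))) ∧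
    (∀ m, ∫ s in (0 : ℝ)..1, s ^ (1 / 2 : ℝ) * g m s ^ 2 = I₀) ∧
    (∀ m, ∫ s in (0 : ℝ)..1, s ^ (3 / 2 : ℝ) * g m s ^ 2 = I₁)

/-- Base kick systems in the unit ball, with the moment and isotropy relations. -/
structure BaseKick (η : ℝ) (j : Fin 3) (sg Γ₀ Γ₁ : ℝ) (a : Fin 6 → E → ℝ) (k ξ w : Fin 6 → E) (q : E → ℝ)
    (G : E → E) : Prop where
  kick : Kick (Metric.ball 0 1) η 6 a k ξ q G
  mom0 : ∀ m, ∫ y : E, a m y ^ 2 = Γ₀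
  mom1 : ∀ m, ∫ y : E, (a m y ^ 2) • y = Γ₁ • w m
  iso : ∀ i l : Fin 3, ∑ m, ξ m i * ξ m l = if i = l then 2 else 0
  iso1 : ∀ (i l : Fin 3) (v : E), ∑ m, ⟪w m, v⟫ * (ξ m i * ξ m l)
    = sg * (((if j = l then v i else 0) + (if i = j then v l else 0)) / 2 + (if i = l then v j else 0))

/-- KB. Base kicks exist. -/
def Stmt_Base : Prop := ∀ (η : ℝ) (j : Fin 3) (sg : ℝ), 0 < η → sg = 1 ∨ sg = -1 →
    ∃ (Γ₀ Γ₁ : ℝ) (a : Fin 6 → E → ℝ) (k ξ w : Fin 6 → E) (q : E → ℝ) (G : E → E),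
      0 < Γ₁ ∧ BaseKick η j sg Γ₀ Γ₁ a k ξ w q G

/-- KS. Scaling and translation of kicks. -/
def Stmt_Scale : Prop := ∀ (Ω : Set E) (η : ℝ) (n : ℕ) (a : Fin n → E → ℝ) (k ξ : Fin n → E) (q : E → ℝ)
    (G : E → E) (x₀ : E) (ε : ℝ), 0 < ε → Kick (Metric.ball 0 1) η n a k ξ q G → Metric.ball x₀ ε ⊆ Ω →
      Kick Ω η n (fun m x => a m (ε⁻¹ • (x - x₀))) k ξ (fun x => q (ε⁻¹ • (x - x₀)))
        (fun x => ε⁻¹ • G (ε⁻¹ • (x - x₀)))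

/-- KC. Kicks form a cone. -/
def Stmt_Cone : Prop := ∀ (Ω : Set E) (η : ℝ) (G : E → E) (c : ℝ), 0 ≤ c → IsKick Ω η G →
    IsKick Ω η (fun x => c • G x)

/-- KL. A `φ ∈ V` which pairs nonnegatively with all kicks vanishes. -/
def Stmt_KLimit : Prop := ∀ (Ω : Set E), IsOpen Ω → Bornology.IsBounded Ω → ∀ η : ℝ, 0 < η → ∀ φ : V Ω,
    (∀ (G : E → E) (p : V Ω), IsKick Ω η G → Represents Ω G p → 0 ≤ ⟪fld p, fld φ⟫) → φ = 0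

/-- KD. Sums of kicks are dense in `V'`. -/
def Stmt_KDense : Prop := ∀ (Ω : Set E), IsOpen Ω → Bornology.IsBounded Ω → ∀ η : ℝ, 0 < η →
    ∀ (l : V Ω →L[ℝ] ℝ) (ε : ℝ), 0 < ε → ∃ (n : ℕ) (G : Fin n → E → E) (p : Fin n → V Ω),
      (∀ i, IsKick Ω η (G i)) ∧ (∀ i, Represents Ω (G i) (p i)) ∧
      ∀ φ : V Ω, |∑ i, ⟪fld (p i), fld φ⟫ - l φ| ≤ ε * ‖φ‖

end Pool.Agent.NSK
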