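import Pool.Agent.NSD.Rep
import Pool.Agent.NSK.Conc

/-!
# MP_fd8964_an, weak density: module Cone (kicks form a cone)
-/

open MeasureTheory Set Filter Topology
open scoped RealInnerProductSpace ContDiff

noncomputable section

namespace Pool.Agent.NSK

open Pool.Agent.NSD

namespace Cone

lemma IsBump.const_mul {Ω : Set E} {a : E → ℝ} (h : IsBump Ω a) (c : ℝ) :
    IsBump Ω (fun x => c * a x) :=
  ⟨contDiff_const.mul h.1, h.2.1.mul_left (f := fun _ => c),
    (tsupport_mul_subset_right (f := fun _ => c) (g := a)).trans h.2.2⟩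

lemma IsBump.diff {Ω : Set E} {a : E → ℝ} (h : IsBump Ω a) : Differentiable ℝ a :=
  h.1.differentiable (by simp)

lemma dd_const_mul {f : E → ℝ} (hf : Differentiable ℝ f) (c : ℝ) (v x : E) :
    dd v (fun y => c * f y) x = c * dd v f x := by
  unfold dd
  rw [fderiv_const_mul (hf x)]
  simp

lemma gradS_const_mul {q : E → ℝ} (hq : Differentiable ℝ q) (c : ℝ) (x : E) :
    gradS (fun y => c * q y) x = c • gradS q x := by
  unfold gradS
  rw [Finset.smul_sum]
  refine Finset.sum_congr rfl fun i _ => ?_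
  rw [dd_const_mul hq, smul_smul]

end Cone

open Cone in
theorem cone_proof : Stmt_Cone := by
  rintro Ω η G c hc ⟨n, a, k, ξ, q, hK⟩
  refine ⟨n, fun m x => √c * a m x, k, ξ, fun x => c * q x, ?_⟩
  refine ⟨fun m => IsBump.const_mul (hK.bump m) _, fun m m' hm => ?_, hK.k_unit, hK.ξ_unit, hK.orth,
    IsBump.const_mul hK.pres _, ?_, fun x => ?_⟩
  · refine (hK.disj m m' hm).mono ?_ ?_
    · exact tsupport_mul_subset_right (f := fun _ => √c) (g := a m)
    · exact tsupport_mul_subset_right (f := fun _ => √c) (g := a m')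
  · exact hK.test.smul c
  · have h1 : ∀ m, dd (ξ m) (fun y => (√c * a m y) ^ 2) x = c * dd (ξ m) (fun y => a m y ^ 2) x := by
      intro m
      have h2 : (fun y => (√c * a m y) ^ 2) = fun y => c * (a m y ^ 2) := by
        funext y
        rw [mul_pow, Real.sq_sqrt hc]
      rw [h2]
      exact dd_const_mul ((IsBump.diff (hK.bump m)).pow 2) c _ _
    have h3 := hK.eq x
    rw [gradS_const_mul (IsBump.diff hK.pres)]
    calc ∑ m, (dd (ξ m) (fun y => (√c * a m y) ^ 2) x) • ξ m
        = ∑ m, c • ((dd (ξ m) (fun y => a m y ^ 2) x) • ξ m) := by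
          refine Finset.sum_congr rfl fun m _ => ?_
          rw [h1 m, smul_smul]
      _ = c • ((4 * η) • G x + gradS q x) := by rw [← Finset.smul_sum, h3]
      _ = (4 * η) • (c • G x) + c • gradS q x := by
          rw [smul_add, smul_smul, smul_smul, mul_comm c (4 * η)]

end Pool.Agent.NSK
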