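import Pool.Agent.NSK.Conc
import Pool.Agent.NSD.MainProof

/-!
# MP_fd8964_an (squad NSK), module DAT: the concrete data
-/

open MeasureTheory Set Filter Topology
open scoped RealInnerProductSpace ContDiff

noncomputable section

namespace Pool.Agent.NSK

open Pool.Agent.NSD

theorem data_proof_of (hP : Stmt_Poincare) (hT : Stmt_Trilin) (hS : Stmt_Skew) (hY : Stmt_Young) : Stmt_Data := by
  intro Ω _ hb
  obtain ⟨c, hc, hpoin⟩ := hP Ω hb
  obtain ⟨b, hbb⟩ := hT Ω hb
  obtain ⟨CY, hCY, hyoung⟩ := hY Ω hb
  let D : Data (V Ω) (L2 Ω) :=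
    { ι := fldLM Ω
      a := aFormM Ω
      b := b
      a_symm := fun u v => by simp [real_inner_comm]
      c₀ := c
      c₀_pos := hc
      a_coer := fun v => by simpa using hpoin v
      a_le := fun v => by
        rw [aFormM_apply, real_inner_self_eq_norm_sq, norm_sq_V]
        have := sq_nonneg ‖fld v‖
        linarith
      b_skew := fun u v => by rw [hbb]; exact hS Ω hb u v
      CY := CY
      CY_nonneg := hCY
      b_young := fun m hm u w => by
        rw [hbb, aFormM_apply, aFormM_apply, real_inner_self_eq_norm_sq, real_inner_self_eq_norm_sq]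
        exact hyoung m hm u w }
  exact ⟨D, fun v => rfl, fun u v => rfl, hbb⟩

/-- **DAT.** -/
theorem data_proof : Stmt_Data :=
  data_proof_of Poincare_proof (trilin_proof L6_proof) (skew_proof (trilin_proof L6_proof)) (young_proof L6_proof)

end Pool.Agent.NSK
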