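import Pool.Agent.NSK.Boot

/-!
# MP_fd8964_an, weak density: a.e. derivatives of `H¹_loc` functions, bounds from difference quotients
-/

open MeasureTheory Set Filter Topology
open scoped RealInnerProductSpace

noncomputable section

namespace Pool.Agent.NSK

open Pool.Agent.NSD

theorem ae_hasDerivAt {X : Type*} [NormedAddCommGroup X] [NormedSpace ℝ X] [CompleteSpace X] {x x₁ : ℝ → X}
    (h : IsH1loc x x₁) : ∀ᵐ t ∂(volume.restrict (Ioi (0 : ℝ))), HasDerivAt x (x₁ t) t := by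
  have h1 : ∀ n : ℕ, ∀ᵐ t : ℝ, t ∈ uIcc (0 : ℝ) n → ∀ c ∈ uIcc (0 : ℝ) n,
      HasDerivAt (fun y => ∫ s in c..y, x₁ s) (x₁ t) t := fun n =>
    (h.intervalIntegrable le_rfl (Nat.cast_nonneg n)).ae_hasDerivAt_integral
  have h2 := ae_all_iff.2 h1
  have h3 : ∀ᵐ t ∂(volume.restrict (Ioi (0 : ℝ))), t ∈ Ioi (0 : ℝ) := ae_restrict_mem measurableSet_Ioi
  filter_upwards [ae_restrict_of_ae h2, h3] with t ht ht0
  have ht0' : (0 : ℝ) < t := ht0
  obtain ⟨n, hn⟩ := exists_nat_ge t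
  have hmem : t ∈ uIcc (0 : ℝ) n := by
    rw [uIcc_of_le (Nat.cast_nonneg n)]; exact ⟨ht0'.le, hn⟩
  have h4 := (ht n hmem 0 left_mem_uIcc).const_add (x 0)
  refine h4.congr_of_eventuallyEq ?_
  filter_upwards [Ioi_mem_nhds ht0'] with s hs
  exact h.eq s (le_of_lt hs)

section
variable {V K : Type*} [NormedAddCommGroup V] [InnerProductSpace ℝ V] [CompleteSpace V]
    [NormedAddCommGroup K] [InnerProductSpace ℝ K]

omit [CompleteSpace V] in
/-- Bound for the derivative from a bound for small increments. -/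
theorem norm_le_of_hasDerivAt {ι : V →L[ℝ] K} {x : ℝ → V} {w : V} {t B : ℝ} (h : HasDerivAt x w t)
    (hB : ∀ h : ℝ, 0 ≤ h → h ≤ 1 → ‖ι (x (t + h) - x t)‖ ≤ B * h) : ‖ι w‖ ≤ B := by
  have h1 : HasDerivAt (fun s => ι (x s)) (ι w) t := ι.hasFDerivAt.comp_hasDerivAt t h
  have h2 := h1.hasDerivWithinAt (s := Ioi t)
  rw [hasDerivWithinAt_iff_tendsto_slope' (by simp)] at h2
  refine le_of_tendsto h2.norm ?_
  have : Ioc t (t + 1) ∈ 𝓝[>] t := Ioc_mem_nhdsGT (by linarith)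
  filter_upwards [this] with s hs
  have hs0 : 0 < s - t := by linarith [hs.1]
  rw [slope_def_module, norm_smul, norm_inv, Real.norm_of_nonneg hs0.le]
  have h3 := hB (s - t) hs0.le (by linarith [hs.2])
  rw [add_sub_cancel, map_sub] at h3
  rw [inv_mul_le_iff₀ hs0]
  linarith

/-- Increments of `H¹_loc` functions with bounded derivative. -/
theorem norm_sub_le_of_bound {ι : V →L[ℝ] K} {x x₁ : ℝ → V} (h : IsH1loc x x₁) {T₀ C : ℝ} (hT₀ : 0 ≤ T₀)
    (hC : ∀ᵐ t ∂(volume.restrict (Ioi T₀)), ‖ι (x₁ t)‖ ≤ C) {s t : ℝ} (hs : T₀ ≤ s) (hst : s ≤ t) :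
    ‖ι (x t - x s)‖ ≤ C * (t - s) := by
  have hs0 := hT₀.trans hs
  have ht0 := hT₀.trans (hs.trans hst)
  set v := x t - x s with hv
  let L : V →L[ℝ] ℝ := (innerSL ℝ (ι v)).comp ι
  have hL : ∀ y, L y = ⟪ι v, ι y⟫ := fun y => rfl
  have h1 : L v = ∫ r in s..t, L (x₁ r) := by
    rw [ContinuousLinearMap.intervalIntegral_comp_comm L (h.intervalIntegrable hs0 ht0), ← h.sub_eq hs0 ht0]
  have : ∀ᵐ r ∂volume, r ∈ uIoc s t → ‖L (x₁ r)‖ ≤ ‖ι v‖ * C := by
    rw [ae_restrict_iff' measurableSet_Ioi] at hC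
    filter_upwards [hC] with r hr hr'
    rw [uIoc_of_le hst] at hr'
    rw [hL]
    refine (norm_inner_le_norm _ _).trans ?_
    exact mul_le_mul_of_nonneg_left (hr (lt_of_le_of_lt hs hr'.1)) (norm_nonneg _)
  have h2 := intervalIntegral.norm_integral_le_of_norm_le_const_ae this
  rw [← h1, abs_of_nonneg (by linarith : 0 ≤ t - s), hL, real_inner_self_eq_norm_sq, norm_pow, norm_norm] at h2
  rcases eq_or_lt_of_le (norm_nonneg (ι v)) with h0 | h0
  · rw [← h0]
    rcases eq_or_lt_of_le hst with hst' | hst'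
    · rw [hst', sub_self, mul_zero]
    · have hpos : 0 < volume (Ioc s t) := by simp [hst']
      have hex : ∃ r, ‖ι (x₁ r)‖ ≤ C := by
        have h3 : ∀ᵐ r ∂(volume.restrict (Ioc s t)), ‖ι (x₁ r)‖ ≤ C :=
          ae_mono (Measure.restrict_mono (fun r hr => lt_of_le_of_lt hs hr.1) le_rfl) hC
        have hne : (ae (volume.restrict (Ioc s t))).NeBot := by
          rw [ae_neBot]
          intro h4
          have h5 : volume.restrict (Ioc s t) (Ioc s t) = 0 := by rw [h4]; simp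
          rw [Measure.restrict_apply_self] at h5
          exact hpos.ne' h5
        exact h3.exists
      obtain ⟨r, hr⟩ := hex
      have := (norm_nonneg (ι (x₁ r))).trans hr
      have : 0 ≤ t - s := by linarith
      positivity
  · have : ‖ι v‖ * ‖ι v‖ ≤ ‖ι v‖ * (C * (t - s)) := by nlinarith
    exact le_of_mul_le_mul_left this h0

end

end Pool.Agent.NSK
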