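import Pool.Agent.NSK.Abs
import Pool.Agent.NSD.Basic
import Pool.Agent.NSD.H1Criterion

/-!
# MP_fd8964_an: the difference inequality (common part of the modules E2 and Smooth)

`z t = u t - S t - P t`, `Z t = z (t+h) - z t`.
-/

open MeasureTheory Set Filter Topology
open scoped RealInnerProductSpace

noncomputable section

namespace Pool.Agent.NSK

open Pool.Agent.NSD

namespace DI

section
variable {V K : Type} [NormedAddCommGroup V] [InnerProductSpace ℝ V]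
    [NormedAddCommGroup K] [InnerProductSpace ℝ K] (D : Data V K)

lemma skew (x y z : V) : D.b x y z = - D.b x z y := by
  have h := D.b_skew x (y + z)
  simp only [map_add, add_apply, D.b_skew] at h
  linarith

lemma b_sig : ∃ C : ℝ, 0 ≤ C ∧ ∀ x y z : V, |D.b x y z| ≤ C * D.sig x * D.sig y * D.sig z := by
  have hc : 0 < √D.c₀ := Real.sqrt_pos.2 D.c₀_pos
  obtain ⟨B0, hB0⟩ : ∃ C : ℝ, ∀ x y, ‖D.b x y‖ ≤ C * ‖x‖ * ‖y‖ := ⟨_, D.b.le_opNorm₂⟩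
  set B := max B0 0 with hBd
  have hB : 0 ≤ B := le_max_right _ _
  refine ⟨B / (√D.c₀) ^ 3, by positivity, fun x y z => ?_⟩
  have h1 : |D.b x y z| ≤ B * ‖x‖ * ‖y‖ * ‖z‖ := by
    rw [← Real.norm_eq_abs]
    refine (ContinuousLinearMap.le_opNorm _ _).trans ?_
    have := hB0 x y
    gcongr
    refine this.trans ?_
    gcongr
    exact le_max_left _ _
  refine h1.trans ?_
  have hx : ‖x‖ ≤ D.sig x / √D.c₀ := by
    rw [le_div_iff₀ hc, mul_comm]; exact D.norm_le_sig x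
  have hy : ‖y‖ ≤ D.sig y / √D.c₀ := by
    rw [le_div_iff₀ hc, mul_comm]; exact D.norm_le_sig y
  have hz : ‖z‖ ≤ D.sig z / √D.c₀ := by
    rw [le_div_iff₀ hc, mul_comm]; exact D.norm_le_sig z
  calc B * ‖x‖ * ‖y‖ * ‖z‖ ≤ B * (D.sig x / √D.c₀) * (D.sig y / √D.c₀) * (D.sig z / √D.c₀) := by
        have := D.sig_nonneg x
        have := D.sig_nonneg y
        gcongr
    _ = B / (√D.c₀) ^ 3 * D.sig x * D.sig y * D.sig z := by field_simp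

/-- Equation (E0) at one time. -/
def E0 (η : ℝ) (s0 S P z d : V) (ρ : K) : Prop := ∀ v, ⟪D.ι d, D.ι v⟫ + η * D.a z v
  + D.b z (S + P + z) v + D.b (S + P) z v + D.b (S - s0) P v + D.b P (S - s0) v = - ⟪ρ, D.ι v⟫

lemma e0_of {η : ℝ} {s0 S P u w W P' : V} {ρ : K} {f : V →L[ℝ] ℝ}
    (hu : ∀ v, ⟪D.ι w, D.ι v⟫ + η * D.a u v + D.b u u v = f v)
    (hS : ∀ v, ⟪D.ι W, D.ι v⟫ + η * D.a S v + D.b S S v = f v)
    (hP : ∀ v, ⟪D.ι P', D.ι v⟫ + η * D.a P v + D.b P P v + D.b s0 P v + D.b P s0 v = ⟪ρ, D.ι v⟫) :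
    E0 D η s0 S P (u - S - P) (w - W - P') ρ := by
  intro v
  have h1 := hu v
  have h2 := hS v
  have h3 := hP v
  simp only [map_sub, map_add, sub_apply, add_apply,
    inner_sub_left]
  linear_combination h1 - h2 - h3

lemma young_mul {μ a s : ℝ} (hμ : 0 < μ) : a * s ≤ μ * s ^ 2 + a ^ 2 / (4 * μ) := by
  have h : 0 ≤ (2 * μ * s - a) ^ 2 / (4 * μ) := by positivity
  have e : (2 * μ * s - a) ^ 2 / (4 * μ) = μ * s ^ 2 + a ^ 2 / (4 * μ) - a * s := by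
    field_simp; ring
  linarith

/-- The pointwise difference inequality. -/
lemma pt {η : ℝ} (hη : 0 < η) : ∃ C : ℝ, 0 ≤ C ∧ ∀ (s0 S Sp P Pp z zp d dp : V) (ρ ρp : K)
    (m mh : ℝ), StarBd D Pp m → StarBd D (Pp - P) mh →
    E0 D η s0 S P z d ρ → E0 D η s0 Sp Pp zp dp ρp →
    2 * ⟪D.ι (dp - d), D.ι (zp - z)⟫ + η * D.sig (zp - z) ^ 2 ≤
      C * ((D.sig Sp ^ 4 + D.sig zp ^ 4 + m ^ 2) * ‖D.ι (zp - z)‖ ^ 2
        + (D.sig z ^ 2 + D.sig zp ^ 2) * D.sig (Sp - S) ^ 2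
        + mh ^ 2 * (‖D.ι z‖ ^ 2 + ‖D.ι zp‖ ^ 2 + ‖D.ι (S - s0)‖ ^ 2)
        + m ^ 2 * ‖D.ι (Sp - S)‖ ^ 2) + 2 * ‖ρp - ρ‖ * ‖D.ι (zp - z)‖ := by
  obtain ⟨Cb, hCb, hb⟩ := b_sig D
  have hμ : 0 < η / 22 := by positivity
  set μ := η / 22 with hμd
  set A := D.CY / μ ^ 3 with hA
  have hA0 : 0 ≤ A := by have := D.CY_nonneg; positivity
  set C := 2 * A + (2 * Cb ^ 2 + 4) / (4 * μ) with hC
  refine ⟨C, by positivity, ?_⟩
  intro s0 S Sp P Pp z zp d dp ρ ρp m mh hm hmh hE hEp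
  set Z := zp - z with hZ
  set σ := D.sig Z with hσ
  set y := ‖D.ι Z‖ with hy
  have hy0 : 0 ≤ y := norm_nonneg _
  have hσ0 : 0 ≤ σ := D.sig_nonneg _
  have e1 := hE Z
  have e2 := hEp Z
  -- the algebraic identity
  have haZ : D.a zp Z - D.a z Z = σ ^ 2 := by
    rw [hσ, D.sig_sq, ← sub_apply, ← map_sub]
  have hin : ⟪D.ι (dp - d), D.ι Z⟫ = ⟪D.ι dp, D.ι Z⟫ - ⟪D.ι d, D.ι Z⟫ := by
    rw [map_sub, inner_sub_left]
  have hρ : ⟪ρp - ρ, D.ι Z⟫ = ⟪ρp, D.ι Z⟫ - ⟪ρ, D.ι Z⟫ := inner_sub_left _ _ _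
  have hzp : zp = z + Z := by rw [hZ]; abel
  have k1 : D.b z Z Z = 0 := D.b_skew _ _
  have k2 : D.b (S + P) Z Z = 0 := D.b_skew _ _
  have key : ⟪D.ι (dp - d), D.ι Z⟫ + η * σ ^ 2 = -(D.b Z Sp Z + D.b Z zp Z - D.b Z Z Pp
      + D.b z (Sp - S) Z + D.b (Sp - S) zp Z - D.b z Z (Pp - P) - D.b (Pp - P) Z zp
      - D.b (Sp - S) Z Pp - D.b Pp Z (Sp - S) - D.b (S - s0) Z (Pp - P) - D.b (Pp - P) Z (S - s0)
      + ⟪ρp - ρ, D.ι Z⟫) := by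
    have s1 := skew D Z Z Pp
    have s2 := skew D z Z (Pp - P)
    have s3 := skew D (Pp - P) Z zp
    have s4 := skew D (Sp - S) Z Pp
    have s5 := skew D Pp Z (Sp - S)
    have s6 := skew D (S - s0) Z (Pp - P)
    have s7 := skew D (Pp - P) Z (S - s0)
    rw [hin, hρ, ← haZ]
    have e3 : D.b zp (Sp + Pp + zp) Z + D.b (Sp + Pp) zp Z + D.b (Sp - s0) Pp Z + D.b Pp (Sp - s0) Z
        - (D.b z (S + P + z) Z + D.b (S + P) z Z + D.b (S - s0) P Z + D.b P (S - s0) Z)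
        = D.b Z Sp Z + D.b Z zp Z + D.b Z Pp Z + D.b z (Sp - S) Z + D.b (Sp - S) zp Z
          + D.b z (Pp - P) Z + D.b (Pp - P) zp Z + D.b (Sp - S) Pp Z + D.b Pp (Sp - S) Z
          + D.b (S - s0) (Pp - P) Z + D.b (Pp - P) (S - s0) Z + D.b z Z Z + D.b (S + P) Z Z := by
      have hz : z = zp - Z := by rw [hZ]; abel
      generalize Z = Q at *
      subst hz
      simp only [map_sub, map_add, sub_apply, add_apply]
      ring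
    linear_combination e2 - e1 - e3 - s1 - s2 - s3 - s4 - s5 - s6 - s7 - k1 - k2
  -- the bounds
  have f0 : ∀ {t a : ℝ}, |t| ≤ a * σ → |t| ≤ μ * σ ^ 2 + a ^ 2 / (4 * μ) := fun h =>
    h.trans (young_mul hμ)
  have b1 : |D.b Z Sp Z| ≤ μ * σ ^ 2 + A * (D.sig Sp ^ 4 * y ^ 2) := by
    have h := D.b_young μ hμ Sp Z
    rw [← D.sig_sq, ← D.sig_sq] at h
    refine h.trans (le_of_eq ?_)
    rw [hA]; ring
  have b2 : |D.b Z zp Z| ≤ μ * σ ^ 2 + A * (D.sig zp ^ 4 * y ^ 2) := by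
    have h := D.b_young μ hμ zp Z
    rw [← D.sig_sq, ← D.sig_sq] at h
    refine h.trans (le_of_eq ?_)
    rw [hA]; ring
  have b3 : |D.b Z Z Pp| ≤ μ * σ ^ 2 + (m * y) ^ 2 / (4 * μ) := f0 (hm Z Z).1
  have b4 : |D.b z (Sp - S) Z| ≤ μ * σ ^ 2 + (Cb * D.sig z * D.sig (Sp - S)) ^ 2 / (4 * μ) :=
    f0 (hb _ _ _)
  have b5 : |D.b (Sp - S) zp Z| ≤ μ * σ ^ 2 + (Cb * D.sig (Sp - S) * D.sig zp) ^ 2 / (4 * μ) :=
    f0 (hb _ _ _)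
  have b6 : |D.b z Z (Pp - P)| ≤ μ * σ ^ 2 + (mh * ‖D.ι z‖) ^ 2 / (4 * μ) := f0 (hmh z Z).1
  have b7 : |D.b (Pp - P) Z zp| ≤ μ * σ ^ 2 + (mh * ‖D.ι zp‖) ^ 2 / (4 * μ) := f0 (hmh zp Z).2
  have b8 : |D.b (Sp - S) Z Pp| ≤ μ * σ ^ 2 + (m * ‖D.ι (Sp - S)‖) ^ 2 / (4 * μ) :=
    f0 (hm (Sp - S) Z).1
  have b9 : |D.b Pp Z (Sp - S)| ≤ μ * σ ^ 2 + (m * ‖D.ι (Sp - S)‖) ^ 2 / (4 * μ) :=
    f0 (hm (Sp - S) Z).2
  have b10 : |D.b (S - s0) Z (Pp - P)| ≤ μ * σ ^ 2 + (mh * ‖D.ι (S - s0)‖) ^ 2 / (4 * μ) :=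
    f0 (hmh (S - s0) Z).1
  have b11 : |D.b (Pp - P) Z (S - s0)| ≤ μ * σ ^ 2 + (mh * ‖D.ι (S - s0)‖) ^ 2 / (4 * μ) :=
    f0 (hmh (S - s0) Z).2
  have b12 : |⟪ρp - ρ, D.ι Z⟫| ≤ ‖ρp - ρ‖ * y := abs_real_inner_le_norm _ _
  have hsum : 2 * ⟪D.ι (dp - d), D.ι Z⟫ + η * σ ^ 2 ≤
      2 * A * ((D.sig Sp ^ 4 + D.sig zp ^ 4) * y ^ 2) + 2 * ((m * y) ^ 2 / (4 * μ)
        + (Cb * D.sig z * D.sig (Sp - S)) ^ 2 / (4 * μ) + (Cb * D.sig (Sp - S) * D.sig zp) ^ 2 / (4 * μ)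
        + (mh * ‖D.ι z‖) ^ 2 / (4 * μ) + (mh * ‖D.ι zp‖) ^ 2 / (4 * μ)
        + 2 * ((m * ‖D.ι (Sp - S)‖) ^ 2 / (4 * μ)) + 2 * ((mh * ‖D.ι (S - s0)‖) ^ 2 / (4 * μ)))
        + 2 * ‖ρp - ρ‖ * y := by
    have hη22 : η = 22 * μ := by rw [hμd]; ring
    have c1 := (abs_le.1 b1).1
    have c2 := (abs_le.1 b2).1
    have c3 := (abs_le.1 b3).2
    have c4 := (abs_le.1 b4).1
    have c5 := (abs_le.1 b5).1
    have c6 := (abs_le.1 b6).2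
    have c7 := (abs_le.1 b7).2
    have c8 := (abs_le.1 b8).2
    have c9 := (abs_le.1 b9).2
    have c10 := (abs_le.1 b10).2
    have c11 := (abs_le.1 b11).2
    have c12 := (abs_le.1 b12).1
    have hησ : η * σ ^ 2 = 22 * (μ * σ ^ 2) := by rw [hη22]; ring
    linarith
  refine hsum.trans ?_
  have hq : ∀ x : ℝ, 0 ≤ x → 0 ≤ x / (4 * μ) := fun x hx => by positivity
  set q := 1 / (4 * μ) with hqd
  have hq0 : 0 ≤ q := by positivity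
  have hdiv : ∀ x : ℝ, x / (4 * μ) = x * q := fun x => by rw [hqd]; ring
  have hCq : C = 2 * A + (2 * Cb ^ 2 + 4) * q := by rw [hC, hqd]; ring
  simp only [hdiv]
  have p1 : 0 ≤ (D.sig Sp ^ 4 + D.sig zp ^ 4) * y ^ 2 := by
    have := D.sig_nonneg Sp; have := D.sig_nonneg zp; positivity
  have p2 : 0 ≤ m ^ 2 * y ^ 2 := by positivity
  have p3 : 0 ≤ (D.sig z ^ 2 + D.sig zp ^ 2) * D.sig (Sp - S) ^ 2 := by positivity
  have p4 : 0 ≤ mh ^ 2 * (‖D.ι z‖ ^ 2 + ‖D.ι zp‖ ^ 2 + ‖D.ι (S - s0)‖ ^ 2) := by positivity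
  have p5 : 0 ≤ m ^ 2 * ‖D.ι (Sp - S)‖ ^ 2 := by positivity
  have p6 : 0 ≤ mh ^ 2 * (‖D.ι z‖ ^ 2 + ‖D.ι zp‖ ^ 2) := by positivity
  rw [hCq]
  have g1 : 0 ≤ Cb ^ 2 * q := by positivity
  linarith [mul_nonneg hA0 p1, mul_nonneg hA0 p2, mul_nonneg hA0 p3, mul_nonneg hA0 p4,
    mul_nonneg hA0 p5, mul_nonneg g1 p1, mul_nonneg g1 p2, mul_nonneg g1 p3, mul_nonneg g1 p4,
    mul_nonneg g1 p5, mul_nonneg hq0 p1, mul_nonneg hq0 p2, mul_nonneg hq0 p3, mul_nonneg hq0 p4,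
    mul_nonneg hq0 p5, mul_nonneg hq0 p6]

end

end DI

end Pool.Agent.NSK
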