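import Pool.Agent.NSK.Lib

/-!
# MP_fd8964_an, weak density: module E1 (first estimate for `z = u - S - P`)
-/

open MeasureTheory Set Filter Topology
open scoped RealInnerProductSpace

noncomputable section

namespace Pool.Agent.NSK

open Pool.Agent.NSD

namespace E1

section
variable {V K : Type*} [NormedAddCommGroup V] [InnerProductSpace ℝ V]
    [NormedAddCommGroup K] [InnerProductSpace ℝ K]

/-- The differential inequality at one time. -/
theorem pw (D : Data V K) {η : ℝ} (hη : 0 < η) {z z' S P dS : V} {ρ : K} {m R q d : ℝ}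
    (hq : 0 < q) (hst : StarBd D P m) (hR : ‖ρ‖ ≤ R) (hd : ‖D.ι dS‖ ≤ d)
    (heq : ⟪D.ι z', D.ι z⟫ + η * D.a z z + D.b z (z + S + P) z + D.b (S + P) z z
      + D.b dS P z + D.b P dS z = - ⟪ρ, D.ι z⟫) :
    2 * ⟪D.ι z', D.ι z⟫ ≤
      (16 * D.CY / (η / 4) ^ 3 * D.sig S ^ 4 + 1 / (η / 4) * m ^ 2 + R / q) * ‖D.ι z‖ ^ 2
      + (2 * (1 / (η / 4)) * m ^ 2 * d ^ 2 + R * q) - η * D.sig z ^ 2 := by
  have h4 : 0 < η / 4 := by positivity
  have e1 := young_b D h4 z S
  have e2 := two_mul_le h4 m ‖D.ι z‖ (D.sig z)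
  have e3 := two_mul_le h4 m ‖D.ι dS‖ (D.sig z)
  have f1 : |D.b z P z| ≤ m * ‖D.ι z‖ * D.sig z := hst.b3 z z
  have f2 : |D.b dS P z| ≤ m * ‖D.ι dS‖ * D.sig z := hst.b3 dS z
  have f3 : |D.b P dS z| ≤ m * ‖D.ι dS‖ * D.sig z := hst.b4 dS z
  have hR0 : 0 ≤ R := (norm_nonneg ρ).trans hR
  have f4 : |⟪ρ, D.ι z⟫| ≤ R * ‖D.ι z‖ :=
    (abs_real_inner_le_norm _ _).trans (mul_le_mul_of_nonneg_right hR (norm_nonneg _))
  have f5 : 2 * (R * ‖D.ι z‖) ≤ R * q + R / q * ‖D.ι z‖ ^ 2 := by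
    have h5 : 0 ≤ R / q * (q - ‖D.ι z‖) ^ 2 := by positivity
    have e : R / q * (q - ‖D.ι z‖) ^ 2 =
        R * q + R / q * ‖D.ι z‖ ^ 2 - 2 * (R * ‖D.ι z‖) := by
      field_simp
      ring
    linarith
  have f6 : ‖D.ι dS‖ ^ 2 ≤ d ^ 2 := by
    have := norm_nonneg (D.ι dS)
    gcongr
  have f7 : 1 / (η / 4) * m ^ 2 * ‖D.ι dS‖ ^ 2 ≤ 1 / (η / 4) * m ^ 2 * d ^ 2 :=
    mul_le_mul_of_nonneg_left f6 (by positivity)
  have hb : D.b z (z + S + P) z = D.b z S z + D.b z P z := by
    simp only [map_add, add_apply, D.b_skew]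
    ring
  have hb2 : D.b (S + P) z z = 0 := D.b_skew _ _
  have ha : D.a z z = D.sig z ^ 2 := (D.sig_sq z).symm
  rw [hb, hb2, ha] at heq
  have g1 := (abs_le.1 (le_refl |D.b z S z|)).1
  have g2 := (abs_le.1 f1).1
  have g3 := (abs_le.1 f2).1
  have g4 := (abs_le.1 f3).1
  have g5 := (abs_le.1 f4).1
  have e4 : (16 * D.CY / (η / 4) ^ 3 * D.sig S ^ 4 + 1 / (η / 4) * m ^ 2 + R / q) * ‖D.ι z‖ ^ 2
      = 16 * D.CY / (η / 4) ^ 3 * D.sig S ^ 4 * ‖D.ι z‖ ^ 2
        + 1 / (η / 4) * m ^ 2 * ‖D.ι z‖ ^ 2 + R / q * ‖D.ι z‖ ^ 2 := by ring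
  rw [e4]
  linarith

/-- Integrated inequality with a parameter `q`. -/
theorem main (hE : Stmt_EnergyId) (hG : Stmt_GronwallInt) (V K : Type) [NormedAddCommGroup V]
    [InnerProductSpace ℝ V] [CompleteSpace V] [NormedAddCommGroup K] [InnerProductSpace ℝ K]
    (D : Data V K) {η M c CS : ℝ} (hη : 0 < η) (hM : 0 ≤ M) (hCS : 0 ≤ CS)
    {N τ q : ℝ} {f : ℝ → (V →L[ℝ] ℝ)} {S W u w P P' : ℝ → V} {ρ : ℝ → K} (hN : 1 ≤ N)
    (hτ : 0 ≤ τ) (hq : 0 < q) (hS : SolOn D η f τ S W) (hb : BdOn D CS τ S W)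
    (hu : SolOn D η f τ u w) (hL : Layer D η M c N (S 0) P P' ρ) (h0 : u 0 = S 0 + P 0) :
    ∀ t ∈ Icc 0 τ, ‖D.ι (u t - S t - P t)‖ ^ 2
        + ∫ s in (0 : ℝ)..t, η * D.sig (u s - S s - P s) ^ 2 ≤
      (∫ s in (0 : ℝ)..t, (2 * (1 / (η / 4)) * (M * N * ex c N s) ^ 2 * (CS * s) ^ 2
          + M * N * ex c N s * q)) *
        Real.exp (∫ s in (0 : ℝ)..t, (16 * D.CY / (η / 4) ^ 3 * D.sig (S s) ^ 4
          + 1 / (η / 4) * (M * N * ex c N s) ^ 2 + M * N * ex c N s / q)) := by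
  have hz := z_isH1loc hS hu hL
  have hE0 := eqE0 hS hu hL
  have hzc := hz.continuousOn
  have hex := continuous_ex c N
  have hMN : 0 ≤ M * N := mul_nonneg hM (by linarith)
  have hsc : ContinuousOn (fun t => D.sig (u t - S t - P t)) (Ici 0) :=
    D.continuous_sig.comp_continuousOn hzc
  have hsS : ContinuousOn (fun t => D.sig (S t)) (Ici 0) := continuousOn_sig hS.h1 D
  have hyc : ContinuousOn (fun t => ‖D.ι (u t - S t - P t)‖ ^ 2) (Ici 0) :=
    (D.ι.continuous.comp_continuousOn hzc).norm.pow 2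
  have hz0 : u 0 - S 0 - P 0 = 0 := by rw [h0]; abel
  have hΛc : ContinuousOn (fun s => 16 * D.CY / (η / 4) ^ 3 * D.sig (S s) ^ 4
      + 1 / (η / 4) * (M * N * ex c N s) ^ 2 + M * N * ex c N s / q) (Icc 0 τ) := by
    refine ContinuousOn.add (ContinuousOn.add ?_ ?_) ?_
    · exact continuousOn_const.mul ((hsS.mono Icc_subset_Ici_self).pow 4)
    · exact (continuous_const.mul ((continuous_const.mul hex).pow 2)).continuousOn
    · exact ((continuous_const.mul hex).div_const q).continuousOn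
  have hrc : ContinuousOn (fun s => 2 * (1 / (η / 4)) * (M * N * ex c N s) ^ 2 * (CS * s) ^ 2
          + M * N * ex c N s * q) (Icc 0 τ) := by
    refine Continuous.continuousOn ?_
    fun_prop
  have hgc : ContinuousOn (fun s => η * D.sig (u s - S s - P s) ^ 2) (Icc 0 τ) :=
    continuousOn_const.mul ((hsc.mono Icc_subset_Ici_self).pow 2)
  have key := hG τ (fun t => ‖D.ι (u t - S t - P t)‖ ^ 2)
    (fun s => 16 * D.CY / (η / 4) ^ 3 * D.sig (S s) ^ 4
      + 1 / (η / 4) * (M * N * ex c N s) ^ 2 + M * N * ex c N s / q)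
    (fun s => 2 * (1 / (η / 4)) * (M * N * ex c N s) ^ 2 * (CS * s) ^ 2
          + M * N * ex c N s * q)
    (fun s => η * D.sig (u s - S s - P s) ^ 2)
    (hyc.mono Icc_subset_Ici_self) hΛc hrc hgc ?_ ?_ ?_ ?_ ?_
  · intro t ht
    have := key t ht
    simp only [hz0, map_zero, norm_zero] at this
    simpa using this
  · intro t _
    have h1 := D.CY_nonneg
    have h2 := ex_nonneg c N t
    positivity
  · intro t _
    have h2 := ex_nonneg c N t
    positivity
  · intro t _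
    positivity
  · simp only [hz0, map_zero, norm_zero]
    positivity
  · intro t ht
    obtain ⟨hI, hid⟩ := hE V K D.ι _ _ hz 0 t le_rfl ht.1
    show ‖D.ι (u t - S t - P t)‖ ^ 2 ≤ ‖D.ι (u 0 - S 0 - P 0)‖ ^ 2 + _
    rw [hid]
    refine add_le_add le_rfl ?_
    rw [← intervalIntegral.integral_const_mul]
    refine intervalIntegral.integral_mono_ae_restrict ht.1 (hI.const_mul 2) ?_ ?_
    · refine ContinuousOn.intervalIntegrable_of_Icc ht.1 ?_
      refine ContinuousOn.mono ?_ (Icc_subset_Icc_right ht.2)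
      exact ((hΛc.mul (hyc.mono Icc_subset_Ici_self)).add hrc).sub hgc
    · have h1 : ∀ᵐ s ∂(volume.restrict (Icc 0 t)), s ∈ Ioc 0 τ → ∀ v,
          ⟪D.ι (w s - W s - P' s), D.ι v⟫ + η * D.a (u s - S s - P s) v
            + D.b (u s - S s - P s) (u s) v + D.b (S s + P s) (u s - S s - P s) v
            + D.b (S s - S 0) (P s) v + D.b (P s) (S s - S 0) v = - ⟪ρ s, D.ι v⟫ := by
        rw [ae_restrict_iff' measurableSet_Ioc] at hE0
        exact ae_restrict_of_ae hE0
      have h3 : ∀ᵐ s ∂(volume.restrict (Icc 0 t)), s ≠ 0 := by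
        refine ae_restrict_of_ae ?_
        exact Measure.ae_ne volume 0
      filter_upwards [h1, h3, ae_restrict_mem measurableSet_Icc] with s hs hs0 hsm
      have hspos : 0 < s := lt_of_le_of_ne hsm.1 (Ne.symm hs0)
      have hsτ : s ≤ τ := hsm.2.trans ht.2
      have heq := hs ⟨hspos, hsτ⟩ (u s - S s - P s)
      have hus : u s = (u s - S s - P s) + S s + P s := by abel
      have hbs : D.b (u s - S s - P s) (u s) (u s - S s - P s) =
          D.b (u s - S s - P s) ((u s - S s - P s) + S s + P s) (u s - S s - P s) := by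
        rw [← hus]
      rw [hbs] at heq
      exact pw D hη hq (hL.star s hspos.le) (hL.rho s hspos.le)
        (BdOn.dS_le hS.h1 hb hCS hspos.le hsτ) heq

end

end E1

theorem e1_proof (hE : Stmt_EnergyId) (hG : Stmt_GronwallInt) : Stmt_E1 := by
  intro V K _ _ _ _ _ D η M c CS hη hM hc hCS
  set A : ℝ := 16 * D.CY / (η / 4) ^ 3 with hA
  have hA0 : 0 ≤ A := by have := D.CY_nonneg; positivity
  set Lc : ℝ := A * CS + 1 / (η / 4) * M ^ 2 * (1 / (2 * c)) + M / c + M with hLc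
  set B₁ : ℝ := 2 * (1 / (η / 4)) * M ^ 2 * CS ^ 2 * (4 / c ^ 3) + M / c with hB₁
  set B₂ : ℝ := 2 * (1 / (η / 4)) * M ^ 2 * CS ^ 2 + M with hB₂
  have hB₁0 : 0 ≤ B₁ := by positivity
  have hB₂0 : 0 ≤ B₂ := by positivity
  refine ⟨(B₁ + B₂) * Real.exp Lc, by positivity, ?_⟩
  intro N τ f S W u w P P' ρ hN hτ hS hb hu hL h0
  have hN0 : 0 < N := by linarith
  have hex := continuous_ex c N
  have hMN : 0 ≤ M * N := mul_nonneg hM hN0.le
  have hsS : ContinuousOn (fun t => D.sig (S t)) (Ici 0) := continuousOn_sig hS.h1 D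
  have hσ4 : ∀ t ∈ Icc 0 τ, ∫ s in (0 : ℝ)..t, D.sig (S s) ^ 4 ≤ CS := by
    intro t ht
    refine le_trans ?_ hb.int4
    refine intervalIntegral.integral_mono_interval le_rfl ht.1 ht.2 ?_ ?_
    · exact Filter.Eventually.of_forall fun t => by positivity
    · exact ContinuousOn.intervalIntegrable_of_Icc hτ ((hsS.mono Icc_subset_Ici_self).pow 4)
  -- integral of the exponent
  have hexpo : ∀ t ∈ Icc 0 τ, ∀ q : ℝ, 0 < q →
      ∫ s in (0 : ℝ)..t, (A * D.sig (S s) ^ 4
          + 1 / (η / 4) * (M * N * ex c N s) ^ 2 + M * N * ex c N s / q) ≤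
        A * CS + 1 / (η / 4) * M ^ 2 * (1 / (2 * c)) + M * N / q * ∫ s in (0 : ℝ)..t, ex c N s := by
    intro t ht q hq
    have i1 : IntervalIntegrable (fun s => A * D.sig (S s) ^ 4) volume 0 t :=
      ContinuousOn.intervalIntegrable_of_Icc ht.1
        (continuousOn_const.mul ((hsS.mono Icc_subset_Ici_self).pow 4))
    have i2 : IntervalIntegrable (fun s => 1 / (η / 4) * (M * N * ex c N s) ^ 2) volume 0 t :=
      (continuous_const.mul ((continuous_const.mul hex).pow 2)).intervalIntegrable _ _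
    have i3 : IntervalIntegrable (fun s => M * N * ex c N s / q) volume 0 t :=
      ((continuous_const.mul hex).div_const q).intervalIntegrable _ _
    rw [intervalIntegral.integral_add (i1.add i2) i3, intervalIntegral.integral_add i1 i2,
      intervalIntegral.integral_const_mul]
    have e1 : A * ∫ s in (0 : ℝ)..t, D.sig (S s) ^ 4 ≤ A * CS :=
      mul_le_mul_of_nonneg_left (hσ4 t ht) hA0
    have e2 : ∫ s in (0 : ℝ)..t, 1 / (η / 4) * (M * N * ex c N s) ^ 2 ≤
        1 / (η / 4) * M ^ 2 * (1 / (2 * c)) := by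
      have e3 : ∀ s, 1 / (η / 4) * (M * N * ex c N s) ^ 2 =
          (1 / (η / 4) * (M * N) ^ 2) * ex c N s ^ 2 := fun s => by ring
      simp only [e3]
      rw [intervalIntegral.integral_const_mul]
      have e4 := int_ex_sq_le hc hN0 t
      have e5 : (1 / (η / 4) * (M * N) ^ 2) * ∫ s in (0 : ℝ)..t, ex c N s ^ 2 ≤
          (1 / (η / 4) * (M * N) ^ 2) * (1 / (2 * c * N ^ 2)) :=
        mul_le_mul_of_nonneg_left e4 (by positivity)
      refine e5.trans (le_of_eq ?_)
      field_simp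
    have e6 : ∫ s in (0 : ℝ)..t, M * N * ex c N s / q = M * N / q * ∫ s in (0 : ℝ)..t, ex c N s := by
      rw [← intervalIntegral.integral_const_mul]
      refine intervalIntegral.integral_congr fun s _ => ?_
      ring
    rw [e6]
    linarith
  refine ⟨?_, ?_⟩
  · -- first part, `q = 1 / N`
    intro t ht
    have hm := E1.main hE hG V K D hη hM hCS hN hτ (by positivity : 0 < 1 / N) hS hb hu hL h0 t ht
    rw [intervalIntegral.integral_const_mul] at hm
    refine hm.trans ?_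
    have hex1 := hexpo t ht (1 / N) (by positivity)
    have hI := int_ex_le hc hN0 t
    have e1 : M * N / (1 / N) * ∫ s in (0 : ℝ)..t, ex c N s ≤ M / c := by
      have : M * N / (1 / N) = M * N ^ 2 := by field_simp
      rw [this]
      have h2 : M * N ^ 2 * ∫ s in (0 : ℝ)..t, ex c N s ≤ M * N ^ 2 * (1 / (c * N ^ 2)) :=
        mul_le_mul_of_nonneg_left hI (by positivity)
      refine h2.trans (le_of_eq ?_)
      field_simp
    have hexL : ∫ s in (0 : ℝ)..t, (A * D.sig (S s) ^ 4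
          + 1 / (η / 4) * (M * N * ex c N s) ^ 2 + M * N * ex c N s / (1 / N)) ≤ Lc := by
      rw [hLc]; linarith
    have hr : ∫ s in (0 : ℝ)..t, (2 * (1 / (η / 4)) * (M * N * ex c N s) ^ 2 * (CS * s) ^ 2
          + M * N * ex c N s * (1 / N)) ≤ B₁ / N ^ 2 := by
      have e3 : ∀ s, 2 * (1 / (η / 4)) * (M * N * ex c N s) ^ 2 * (CS * s) ^ 2
          + M * N * ex c N s * (1 / N) =
          (2 * (1 / (η / 4)) * (M * N) ^ 2 * CS ^ 2) * (s ^ 2 * ex c N s ^ 2)
            + M * ex c N s := fun s => by field_simp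
      simp only [e3]
      have j1 : IntervalIntegrable (fun s : ℝ => (2 * (1 / (η / 4)) * (M * N) ^ 2 * CS ^ 2) *
          (s ^ 2 * ex c N s ^ 2)) volume 0 t := Continuous.intervalIntegrable (by fun_prop) _ _
      have j2 : IntervalIntegrable (fun s : ℝ => M * ex c N s) volume 0 t :=
        Continuous.intervalIntegrable (by fun_prop) _ _
      rw [intervalIntegral.integral_add j1 j2,
        intervalIntegral.integral_const_mul, intervalIntegral.integral_const_mul]
      have e4 := int_sq_ex_sq_le hc hN0 ht.1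
      have e5 : (2 * (1 / (η / 4)) * (M * N) ^ 2 * CS ^ 2) *
          ∫ s in (0 : ℝ)..t, s ^ 2 * ex c N s ^ 2 ≤
          (2 * (1 / (η / 4)) * (M * N) ^ 2 * CS ^ 2) * (4 / (c ^ 3 * N ^ 6)) :=
        mul_le_mul_of_nonneg_left e4 (by positivity)
      have e6 : M * ∫ s in (0 : ℝ)..t, ex c N s ≤ M * (1 / (c * N ^ 2)) :=
        mul_le_mul_of_nonneg_left hI hM
      have e7 : (2 * (1 / (η / 4)) * (M * N) ^ 2 * CS ^ 2) * (4 / (c ^ 3 * N ^ 6)) ≤
          2 * (1 / (η / 4)) * M ^ 2 * CS ^ 2 * (4 / c ^ 3) / N ^ 2 := by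
        have e8 : (2 * (1 / (η / 4)) * (M * N) ^ 2 * CS ^ 2) * (4 / (c ^ 3 * N ^ 6)) =
            (2 * (1 / (η / 4)) * M ^ 2 * CS ^ 2 * (4 / c ^ 3)) * (1 / N ^ 4) := by
          field_simp
        have e9 : 2 * (1 / (η / 4)) * M ^ 2 * CS ^ 2 * (4 / c ^ 3) / N ^ 2 =
            (2 * (1 / (η / 4)) * M ^ 2 * CS ^ 2 * (4 / c ^ 3)) * (1 / N ^ 2) := by ring
        rw [e8, e9]
        refine mul_le_mul_of_nonneg_left ?_ (by positivity)
        refine one_div_le_one_div_of_le (by positivity) ?_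
        exact pow_le_pow_right₀ hN (by norm_num)
      have e10 : M * (1 / (c * N ^ 2)) = M / c / N ^ 2 := by field_simp
      have e11 : B₁ / N ^ 2 = 2 * (1 / (η / 4)) * M ^ 2 * CS ^ 2 * (4 / c ^ 3) / N ^ 2
          + M / c / N ^ 2 := by rw [hB₁]; ring
      rw [e11]
      linarith
    calc (∫ s in (0 : ℝ)..t, (2 * (1 / (η / 4)) * (M * N * ex c N s) ^ 2 * (CS * s) ^ 2
          + M * N * ex c N s * (1 / N))) * Real.exp (∫ s in (0 : ℝ)..t, (A * D.sig (S s) ^ 4
          + 1 / (η / 4) * (M * N * ex c N s) ^ 2 + M * N * ex c N s / (1 / N)))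
        ≤ (B₁ / N ^ 2) * Real.exp Lc := by
          refine mul_le_mul hr (Real.exp_le_exp.2 hexL) (Real.exp_pos _).le (by positivity)
      _ ≤ (B₁ + B₂) * Real.exp Lc / N ^ 2 := by
          have : B₁ / N ^ 2 * Real.exp Lc = B₁ * Real.exp Lc / N ^ 2 := by ring
          rw [this]
          refine div_le_div_of_nonneg_right ?_ (by positivity)
          refine mul_le_mul_of_nonneg_right (by linarith) (Real.exp_pos _).le
  · -- second part, `q = N h`
    intro h hh hh1
    rcases eq_or_lt_of_le hh.1 with h00 | h00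
    · rw [← h00, h0]
      have : S 0 + P 0 - S 0 - P 0 = 0 := by abel
      rw [this]
      simp
    have hq : 0 < N * h := by positivity
    have hm := E1.main hE hG V K D hη hM hCS hN hτ hq hS hb hu hL h0 h hh
    have hpos : 0 ≤ ∫ s in (0 : ℝ)..h, η * D.sig (u s - S s - P s) ^ 2 :=
      intervalIntegral.integral_nonneg h00.le fun s _ => by positivity
    have hm' : ‖D.ι (u h - S h - P h)‖ ^ 2 ≤ _ := (le_add_of_nonneg_right hpos).trans hm
    refine hm'.trans ?_
    have hex1 := hexpo h hh (N * h) hq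
    have hI : ∫ s in (0 : ℝ)..h, ex c N s ≤ h := by
      have e1 : ∫ s in (0 : ℝ)..h, ex c N s ≤ ∫ _s in (0 : ℝ)..h, (1 : ℝ) := by
        refine intervalIntegral.integral_mono_on h00.le (hex.intervalIntegrable _ _)
          intervalIntegrable_const (fun s hs => ex_le_one hc.le hs.1)
      simpa using e1
    have e1 : M * N / (N * h) * ∫ s in (0 : ℝ)..h, ex c N s ≤ M := by
      have h2 : M * N / (N * h) * ∫ s in (0 : ℝ)..h, ex c N s ≤ M * N / (N * h) * h :=
        mul_le_mul_of_nonneg_left hI (by positivity)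
      refine h2.trans (le_of_eq ?_)
      field_simp
    have hMc : 0 ≤ M / c := by positivity
    have hexL : ∫ s in (0 : ℝ)..h, (A * D.sig (S s) ^ 4
          + 1 / (η / 4) * (M * N * ex c N s) ^ 2 + M * N * ex c N s / (N * h)) ≤ Lc := by
      rw [hLc]; linarith
    have hr : ∫ s in (0 : ℝ)..h, (2 * (1 / (η / 4)) * (M * N * ex c N s) ^ 2 * (CS * s) ^ 2
          + M * N * ex c N s * (N * h)) ≤ B₂ * N ^ 2 * h ^ 2 := by
      have e2 : ∫ s in (0 : ℝ)..h, (2 * (1 / (η / 4)) * (M * N * ex c N s) ^ 2 * (CS * s) ^ 2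
          + M * N * ex c N s * (N * h)) ≤ ∫ _s in (0 : ℝ)..h, B₂ * N ^ 2 * h := by
        refine intervalIntegral.integral_mono_on h00.le ?_ intervalIntegrable_const
          (fun s hs => ?_)
        · refine Continuous.intervalIntegrable ?_ _ _
          fun_prop
        · have h3 := ex_le_one (c := c) (N := N) hc.le hs.1
          have h4 := ex_nonneg c N s
          have h5 : M * N * ex c N s ≤ M * N := mul_le_of_le_one_right hMN h3
          have h6 : (M * N * ex c N s) ^ 2 ≤ (M * N) ^ 2 := by gcongr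
          have h7 : (CS * s) ^ 2 ≤ CS ^ 2 * h := by
            have : s ^ 2 ≤ h := by nlinarith [hs.1, hs.2]
            rw [mul_pow]
            exact mul_le_mul_of_nonneg_left this (by positivity)
          have h8 : 2 * (1 / (η / 4)) * (M * N * ex c N s) ^ 2 * (CS * s) ^ 2 ≤
              2 * (1 / (η / 4)) * (M * N) ^ 2 * (CS ^ 2 * h) := by
            refine mul_le_mul (mul_le_mul_of_nonneg_left h6 (by positivity)) h7
              (by positivity) (by positivity)
          have h9 : M * N * ex c N s * (N * h) ≤ M * N * (N * h) :=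
            mul_le_mul_of_nonneg_right h5 hq.le
          have e3 : B₂ * N ^ 2 * h = 2 * (1 / (η / 4)) * (M * N) ^ 2 * (CS ^ 2 * h)
              + M * N * (N * h) := by rw [hB₂]; ring
          rw [e3]
          linarith
      rw [intervalIntegral.integral_const, smul_eq_mul] at e2
      refine e2.trans (le_of_eq ?_)
      ring
    calc (∫ s in (0 : ℝ)..h, (2 * (1 / (η / 4)) * (M * N * ex c N s) ^ 2 * (CS * s) ^ 2
          + M * N * ex c N s * (N * h))) * Real.exp (∫ s in (0 : ℝ)..h, (A * D.sig (S s) ^ 4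
          + 1 / (η / 4) * (M * N * ex c N s) ^ 2 + M * N * ex c N s / (N * h)))
        ≤ (B₂ * N ^ 2 * h ^ 2) * Real.exp Lc := by
          refine mul_le_mul hr (Real.exp_le_exp.2 hexL) (Real.exp_pos _).le (by positivity)
      _ ≤ (B₁ + B₂) * Real.exp Lc * N ^ 2 * h ^ 2 := by
          have : B₂ * N ^ 2 * h ^ 2 * Real.exp Lc = B₂ * (Real.exp Lc * N ^ 2 * h ^ 2) := by ring
          have h2 : (B₁ + B₂) * Real.exp Lc * N ^ 2 * h ^ 2 =
              (B₁ + B₂) * (Real.exp Lc * N ^ 2 * h ^ 2) := by ring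
          rw [this, h2]
          refine mul_le_mul_of_nonneg_right (by linarith) (by positivity)

end Pool.Agent.NSK
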