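import Pool.Agent.NSK.Abs
import Pool.Agent.NSD.Basic
import Pool.Agent.NSD.H1Criterion

/-!
# MP_fd8964_an, weak density of good initial data: module E2 (time differences of `z = u - S - P`)
-/

open MeasureTheory Set Filter Topology
open scoped RealInnerProductSpace

noncomputable section

namespace Pool.Agent.NSK

open Pool.Agent.NSD

namespace E2

section
variable {V K : Type} [NormedAddCommGroup V] [InnerProductSpace ℝ V]
    [NormedAddCommGroup K] [InnerProductSpace ℝ K]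

theorem b_swap (D : Data V K) (x y z : V) : D.b x y z = - D.b x z y := by
  have h := D.b_skew x (y + z)
  have h1 := D.b_skew x y
  have h2 := D.b_skew x z
  simp only [map_add, add_apply] at h
  linarith

theorem b_bound (D : Data V K) :
    ∃ C : ℝ, 0 ≤ C ∧ ∀ x y z, |D.b x y z| ≤ C * D.sig x * D.sig y * D.sig z := by
  have hc : 0 < √D.c₀ := Real.sqrt_pos.2 D.c₀_pos
  obtain ⟨C, hC⟩ : ∃ C : ℝ, ∀ x y, ‖D.b x y‖ ≤ C * ‖x‖ * ‖y‖ := ⟨_, D.b.le_opNorm₂⟩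
  refine ⟨|C| / √D.c₀ ^ 3, by positivity, fun x y z => ?_⟩
  have h1 : |D.b x y z| ≤ |C| * ‖x‖ * ‖y‖ * ‖z‖ := by
    calc |D.b x y z| = ‖D.b x y z‖ := rfl
      _ ≤ ‖D.b x y‖ * ‖z‖ := (D.b x y).le_opNorm z
      _ ≤ |C| * ‖x‖ * ‖y‖ * ‖z‖ := by
          gcongr
          refine (hC x y).trans ?_
          gcongr
          exact le_abs_self C
  have h2 : ∀ v, ‖v‖ ≤ D.sig v / √D.c₀ := fun v => by
    rw [le_div_iff₀ hc]; linarith [D.norm_le_sig v]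
  calc |D.b x y z| ≤ |C| * ‖x‖ * ‖y‖ * ‖z‖ := h1
    _ ≤ |C| * (D.sig x / √D.c₀) * (D.sig y / √D.c₀) * (D.sig z / √D.c₀) := by
        have := D.sig_nonneg x
        have := D.sig_nonneg y
        gcongr <;> apply h2
    _ = |C| / √D.c₀ ^ 3 * D.sig x * D.sig y * D.sig z := by field_simp

theorem amgm {μ : ℝ} (hμ : 0 < μ) (A B : ℝ) : 2 * (A * B) ≤ μ * B ^ 2 + A ^ 2 / μ := by
  have h : μ * B ^ 2 + A ^ 2 / μ - 2 * (A * B) = (μ * B - A) ^ 2 / μ := by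
    field_simp
    ring
  have h2 : 0 ≤ (μ * B - A) ^ 2 / μ := by positivity
  linarith

theorem StarBd.mono {D : Data V K} {p : V} {m m' : ℝ} (h : StarBd D p m) (hm : m ≤ m') : StarBd D p m' := by
  intro x y
  have h1 := h x y
  have h2 : m * ‖D.ι x‖ * D.sig y ≤ m' * ‖D.ι x‖ * D.sig y := by
    have := D.sig_nonneg y
    gcongr
  exact ⟨h1.1.trans h2, h1.2.trans h2⟩

/-- The difference identity. -/
theorem ident (D : Data V K) {η : ℝ} {s₀ Sa Sb Pa Pb za zb ζa ζb : V} {ρa ρb : K}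
    (ea : ∀ v, ⟪D.ι ζa, D.ι v⟫ + η * D.a za v + D.b za (Sa + Pa + za) v + D.b (Sa + Pa) za v
      + D.b (Sa - s₀) Pa v + D.b Pa (Sa - s₀) v = -⟪ρa, D.ι v⟫)
    (eb : ∀ v, ⟪D.ι ζb, D.ι v⟫ + η * D.a zb v + D.b zb (Sb + Pb + zb) v + D.b (Sb + Pb) zb v
      + D.b (Sb - s₀) Pb v + D.b Pb (Sb - s₀) v = -⟪ρb, D.ι v⟫) {Z : V} (hZ : Z = zb - za) :
    ⟪D.ι (ζb - ζa), D.ι Z⟫ + η * D.a Z Z + (D.b Z Sb Z + D.b Z Pb Z + D.b Z zb Z
      + D.b za (Sb - Sa) Z + D.b za (Pb - Pa) Z + D.b (Sb - Sa) zb Z + D.b (Pb - Pa) zb Z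
      + D.b (Sb - Sa) Pb Z + D.b (Sa - s₀) (Pb - Pa) Z + D.b Pb (Sb - Sa) Z
      + D.b (Pb - Pa) (Sa - s₀) Z) = -⟪ρb - ρa, D.ι Z⟫ := by
  have h1 := ea Z
  have h2 := eb Z
  have k1 : D.b za Z Z = 0 := D.b_skew za Z
  have k2 : D.b (Sa + Pa) Z Z = 0 := D.b_skew (Sa + Pa) Z
  have e1 : D.b Z = D.b zb - D.b za := by rw [hZ, map_sub]
  have e2 : ∀ x : V, D.b x Z Z = D.b x zb Z - D.b x za Z := fun x => by
    conv_lhs => rw [show (D.b x Z) = D.b x zb - D.b x za by rw [hZ, map_sub]]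
    rfl
  have e3 : D.a Z Z = D.a zb Z - D.a za Z := by
    conv_lhs => rw [show (D.a Z) = D.a zb - D.a za by rw [hZ, map_sub]]
    rfl
  rw [e2] at k1 k2
  rw [e3, e1, inner_sub_left]
  simp only [map_add, map_sub, add_apply, sub_apply, inner_sub_left] at h1 h2 k1 k2 ⊢
  linarith

/-- Pointwise differential inequality. -/
theorem pointwise (D : Data V K) {η μ Cb m mh q ρh : ℝ} (hη : 0 < η) (hμ : μ = η / 16)
    (hCb : ∀ x y z, |D.b x y z| ≤ Cb * D.sig x * D.sig y * D.sig z)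
    (hq : 0 < q)
    {s₀ Sa Sb Pa Pb za zb ζa ζb : V} {ρa ρb : K}
    (ea : ∀ v, ⟪D.ι ζa, D.ι v⟫ + η * D.a za v + D.b za (Sa + Pa + za) v + D.b (Sa + Pa) za v
      + D.b (Sa - s₀) Pa v + D.b Pa (Sa - s₀) v = -⟪ρa, D.ι v⟫)
    (eb : ∀ v, ⟪D.ι ζb, D.ι v⟫ + η * D.a zb v + D.b zb (Sb + Pb + zb) v + D.b (Sb + Pb) zb v
      + D.b (Sb - s₀) Pb v + D.b Pb (Sb - s₀) v = -⟪ρb, D.ι v⟫)
    (hP : StarBd D Pb m) (hD : StarBd D (Pb - Pa) mh) (hρ : ‖ρb - ρa‖ ≤ ρh) :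
    2 * ⟪D.ι (ζb - ζa), D.ι (zb - za)⟫ ≤
      (2 * D.CY / μ ^ 3 * (D.sig Sb ^ 4 + D.sig zb ^ 4) + m ^ 2 / μ + ρh / q) * ‖D.ι (zb - za)‖ ^ 2
      + (Cb ^ 2 / μ * (D.sig za ^ 2 + D.sig zb ^ 2) * D.sig (Sb - Sa) ^ 2
        + mh ^ 2 / μ * (‖D.ι za‖ ^ 2 + ‖D.ι zb‖ ^ 2)
        + 2 * (m ^ 2 / μ) * ‖D.ι (Sb - Sa)‖ ^ 2
        + 2 * (mh ^ 2 / μ) * ‖D.ι (Sa - s₀)‖ ^ 2 + ρh * q) := by
  obtain ⟨Z, hZ⟩ : ∃ Z, Z = zb - za := ⟨_, rfl⟩
  have id := ident D ea eb hZ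
  rw [← hZ]
  have hμ0 : 0 < μ := by rw [hμ]; positivity
  set σ := D.sig Z with hσ
  have hσ0 : 0 ≤ σ := D.sig_nonneg Z
  have hσ2 : D.a Z Z = σ ^ 2 := (D.sig_sq Z).symm
  set Y := ‖D.ι Z‖ with hY
  have hY0 : 0 ≤ Y := norm_nonneg _
  have t1 : 2 * |D.b Z Sb Z| ≤ 2 * (μ * σ ^ 2) + 2 * D.CY / μ ^ 3 * D.sig Sb ^ 4 * Y ^ 2 := by
    have h := D.b_young μ hμ0 Sb Z
    rw [hσ2, ← D.sig_sq Sb] at h
    calc 2 * |D.b Z Sb Z| ≤ 2 * (μ * σ ^ 2 + D.CY / μ ^ 3 * (D.sig Sb ^ 2) ^ 2 * ‖D.ι Z‖ ^ 2) := by linarith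
      _ = _ := by ring
  have t2 : 2 * |D.b Z zb Z| ≤ 2 * (μ * σ ^ 2) + 2 * D.CY / μ ^ 3 * D.sig zb ^ 4 * Y ^ 2 := by
    have h := D.b_young μ hμ0 zb Z
    rw [hσ2, ← D.sig_sq zb] at h
    calc 2 * |D.b Z zb Z| ≤ 2 * (μ * σ ^ 2 + D.CY / μ ^ 3 * (D.sig zb ^ 2) ^ 2 * ‖D.ι Z‖ ^ 2) := by linarith
      _ = _ := by ring
  have t3 : 2 * |D.b Z Pb Z| ≤ μ * σ ^ 2 + m ^ 2 / μ * Y ^ 2 := by
    have h := (hP Z Z).1
    rw [b_swap, abs_neg]
    calc 2 * |D.b Z Z Pb| ≤ 2 * ((m * Y) * σ) := by linarith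
      _ ≤ μ * σ ^ 2 + (m * Y) ^ 2 / μ := amgm hμ0 _ _
      _ = _ := by ring
  have t4 : 2 * |D.b za (Sb - Sa) Z| ≤ μ * σ ^ 2 + Cb ^ 2 / μ * D.sig za ^ 2 * D.sig (Sb - Sa) ^ 2 := by
    have h := hCb za (Sb - Sa) Z
    calc 2 * |D.b za (Sb - Sa) Z| ≤ 2 * ((Cb * D.sig za * D.sig (Sb - Sa)) * σ) := by linarith
      _ ≤ μ * σ ^ 2 + (Cb * D.sig za * D.sig (Sb - Sa)) ^ 2 / μ := amgm hμ0 _ _
      _ = _ := by ring
  have t5 : 2 * |D.b (Sb - Sa) zb Z| ≤ μ * σ ^ 2 + Cb ^ 2 / μ * D.sig zb ^ 2 * D.sig (Sb - Sa) ^ 2 := by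
    have h := hCb (Sb - Sa) zb Z
    calc 2 * |D.b (Sb - Sa) zb Z| ≤ 2 * ((Cb * D.sig (Sb - Sa) * D.sig zb) * σ) := by linarith
      _ ≤ μ * σ ^ 2 + (Cb * D.sig (Sb - Sa) * D.sig zb) ^ 2 / μ := amgm hμ0 _ _
      _ = _ := by ring
  have t6 : 2 * |D.b za (Pb - Pa) Z| ≤ μ * σ ^ 2 + mh ^ 2 / μ * ‖D.ι za‖ ^ 2 := by
    have h := (hD za Z).1
    rw [b_swap, abs_neg]
    calc 2 * |D.b za Z (Pb - Pa)| ≤ 2 * ((mh * ‖D.ι za‖) * σ) := by linarith
      _ ≤ μ * σ ^ 2 + (mh * ‖D.ι za‖) ^ 2 / μ := amgm hμ0 _ _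
      _ = _ := by ring
  have t7 : 2 * |D.b (Pb - Pa) zb Z| ≤ μ * σ ^ 2 + mh ^ 2 / μ * ‖D.ι zb‖ ^ 2 := by
    have h := (hD zb Z).2
    rw [b_swap, abs_neg]
    calc 2 * |D.b (Pb - Pa) Z zb| ≤ 2 * ((mh * ‖D.ι zb‖) * σ) := by linarith
      _ ≤ μ * σ ^ 2 + (mh * ‖D.ι zb‖) ^ 2 / μ := amgm hμ0 _ _
      _ = _ := by ring
  have t8 : 2 * |D.b (Sb - Sa) Pb Z| ≤ μ * σ ^ 2 + m ^ 2 / μ * ‖D.ι (Sb - Sa)‖ ^ 2 := by
    have h := (hP (Sb - Sa) Z).1
    rw [b_swap, abs_neg]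
    calc 2 * |D.b (Sb - Sa) Z Pb| ≤ 2 * ((m * ‖D.ι (Sb - Sa)‖) * σ) := by linarith
      _ ≤ μ * σ ^ 2 + (m * ‖D.ι (Sb - Sa)‖) ^ 2 / μ := amgm hμ0 _ _
      _ = _ := by ring
  have t9 : 2 * |D.b Pb (Sb - Sa) Z| ≤ μ * σ ^ 2 + m ^ 2 / μ * ‖D.ι (Sb - Sa)‖ ^ 2 := by
    have h := (hP (Sb - Sa) Z).2
    rw [b_swap, abs_neg]
    calc 2 * |D.b Pb Z (Sb - Sa)| ≤ 2 * ((m * ‖D.ι (Sb - Sa)‖) * σ) := by linarith
      _ ≤ μ * σ ^ 2 + (m * ‖D.ι (Sb - Sa)‖) ^ 2 / μ := amgm hμ0 _ _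
      _ = _ := by ring
  have t10 : 2 * |D.b (Sa - s₀) (Pb - Pa) Z| ≤ μ * σ ^ 2 + mh ^ 2 / μ * ‖D.ι (Sa - s₀)‖ ^ 2 := by
    have h := (hD (Sa - s₀) Z).1
    rw [b_swap, abs_neg]
    calc 2 * |D.b (Sa - s₀) Z (Pb - Pa)| ≤ 2 * ((mh * ‖D.ι (Sa - s₀)‖) * σ) := by linarith
      _ ≤ μ * σ ^ 2 + (mh * ‖D.ι (Sa - s₀)‖) ^ 2 / μ := amgm hμ0 _ _
      _ = _ := by ring
  have t11 : 2 * |D.b (Pb - Pa) (Sa - s₀) Z| ≤ μ * σ ^ 2 + mh ^ 2 / μ * ‖D.ι (Sa - s₀)‖ ^ 2 := by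
    have h := (hD (Sa - s₀) Z).2
    rw [b_swap, abs_neg]
    calc 2 * |D.b (Pb - Pa) Z (Sa - s₀)| ≤ 2 * ((mh * ‖D.ι (Sa - s₀)‖) * σ) := by linarith
      _ ≤ μ * σ ^ 2 + (mh * ‖D.ι (Sa - s₀)‖) ^ 2 / μ := amgm hμ0 _ _
      _ = _ := by ring
  have t12 : 2 * |⟪ρb - ρa, D.ι Z⟫| ≤ ρh * q + ρh / q * Y ^ 2 := by
    have h := abs_real_inner_le_norm (ρb - ρa) (D.ι Z)
    have hρ0 : 0 ≤ ρh := (norm_nonneg _).trans hρ
    have h3 : 2 * (q * Y) ≤ Y ^ 2 + q ^ 2 := by nlinarith [sq_nonneg (Y - q)]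
    have h4 : 2 * Y ≤ q + Y ^ 2 / q := by
      have : q + Y ^ 2 / q = (Y ^ 2 + q ^ 2) / q := by field_simp; ring
      rw [this, le_div_iff₀ hq]
      linarith
    calc 2 * |⟪ρb - ρa, D.ι Z⟫| ≤ 2 * (‖ρb - ρa‖ * Y) := by linarith
      _ ≤ 2 * (ρh * Y) := by gcongr
      _ = ρh * (2 * Y) := by ring
      _ ≤ ρh * (q + Y ^ 2 / q) := by gcongr
      _ = _ := by ring
  have a1 := abs_le.1 (le_refl |D.b Z Sb Z|)
  have a2 := abs_le.1 (le_refl |D.b Z zb Z|)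
  have a3 := abs_le.1 (le_refl |D.b Z Pb Z|)
  have a4 := abs_le.1 (le_refl |D.b za (Sb - Sa) Z|)
  have a5 := abs_le.1 (le_refl |D.b (Sb - Sa) zb Z|)
  have a6 := abs_le.1 (le_refl |D.b za (Pb - Pa) Z|)
  have a7 := abs_le.1 (le_refl |D.b (Pb - Pa) zb Z|)
  have a8 := abs_le.1 (le_refl |D.b (Sb - Sa) Pb Z|)
  have a9 := abs_le.1 (le_refl |D.b Pb (Sb - Sa) Z|)
  have a10 := abs_le.1 (le_refl |D.b (Sa - s₀) (Pb - Pa) Z|)
  have a11 := abs_le.1 (le_refl |D.b (Pb - Pa) (Sa - s₀) Z|)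
  have a12 := abs_le.1 (le_refl |⟪ρb - ρa, D.ι Z⟫|)
  rw [hσ2] at id
  have hc : 13 * (μ * σ ^ 2) ≤ 2 * (η * σ ^ 2) := by
    rw [hμ]
    nlinarith [mul_nonneg hη.le (sq_nonneg σ)]
  linarith [a1.1, a2.1, a3.1, a4.1, a5.1, a6.1, a7.1, a8.1, a9.1, a10.1, a11.1, a12.1, t1, t2, t3, t4, t5,
    t6, t7, t8, t9, t10, t11, t12]

/-! ### `H¹_loc` calculus -/

theorem H1.sub {X : Type*} [NormedAddCommGroup X] [NormedSpace ℝ X] {f f₁ g g₁ : ℝ → X}
    (h : IsH1loc f f₁) (h' : IsH1loc g g₁) : IsH1loc (fun t => f t - g t) (fun t => f₁ t - g₁ t) := by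
  refine ⟨fun T => (h.memLp T).sub (h'.memLp T), fun t ht => ?_⟩
  rw [intervalIntegral.integral_sub (h.intervalIntegrable le_rfl ht) (h'.intervalIntegrable le_rfl ht)]
  rw [h.eq t ht, h'.eq t ht]
  abel

theorem H1.shift {X : Type*} [NormedAddCommGroup X] [NormedSpace ℝ X] {f f₁ : ℝ → X}
    (h : IsH1loc f f₁) {a : ℝ} (ha : 0 ≤ a) : IsH1loc (fun t => f (t + a)) (fun t => f₁ (t + a)) := by
  refine ⟨fun T => ?_, fun t ht => ?_⟩
  · have h1 : MemLp f₁ 2 (volume.restrict (Ioc a (T + a))) :=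
      (h.memLp (T + a)).mono_measure (Measure.restrict_mono (Ioc_subset_Ioc_left ha) le_rfl)
    have h2 := (measurePreserving_add_right (volume : Measure ℝ) a).restrict_preimage
      (measurableSet_Ioc (a := a) (b := T + a))
    have h3 : (fun x : ℝ => x + a) ⁻¹' Ioc a (T + a) = Ioc 0 T := by
      ext x; simp
    rw [h3] at h2
    exact h1.comp_measurePreserving h2
  · have h1 := h.sub_eq ha (by linarith : 0 ≤ t + a)
    rw [intervalIntegral.integral_comp_add_right (fun s => f₁ s) a, zero_add, ← h1]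
    abel

theorem H1.ofC1 {X : Type*} [NormedAddCommGroup X] [NormedSpace ℝ X] [CompleteSpace X] {P P' : ℝ → X}
    (hd : ∀ t, 0 ≤ t → HasDerivWithinAt P (P' t) (Ici 0) t) (hc : ContinuousOn P' (Ici 0)) :
    IsH1loc P P' := by
  refine ⟨fun T => ?_, fun t ht => ?_⟩
  · have hcc : ContinuousOn P' (Icc 0 T) := hc.mono Icc_subset_Ici_self
    obtain ⟨M, hM⟩ := isCompact_Icc.exists_bound_of_continuousOn hcc
    refine MemLp.of_bound ((hcc.mono Ioc_subset_Icc_self).aestronglyMeasurable measurableSet_Ioc) M ?_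
    exact (ae_restrict_iff' measurableSet_Ioc).2 (Eventually.of_forall fun t ht => hM t ⟨ht.1.le, ht.2⟩)
  · have hPc : ContinuousOn P (Icc 0 t) := fun s hs =>
      ((hd s hs.1).continuousWithinAt).mono Icc_subset_Ici_self
    have : ∫ s in (0 : ℝ)..t, P' s = P t - P 0 := by
      refine intervalIntegral.integral_eq_sub_of_hasDeriv_right_of_le ht hPc (fun x hx => ?_) ?_
      · exact (hd x hx.1.le).mono (Ioi_subset_Ici hx.1.le)
      · exact ContinuousOn.intervalIntegrable_of_Icc ht (hc.mono Icc_subset_Ici_self)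
    rw [this]
    abel

/-- Increments of `H¹` functions in `L²`. -/
theorem incr_le {X : Type*} [NormedAddCommGroup X] [NormedSpace ℝ X] {f f₁ : ℝ → X}
    (hf : IsH1loc f f₁) {T h : ℝ} (hT : 0 ≤ T) (h0 : 0 < h) :
    ∫ s in (0 : ℝ)..T, ‖f (s + h) - f s‖ ^ 2 ≤ h ^ 2 * ∫ s in (0 : ℝ)..(T + h), ‖f₁ s‖ ^ 2 := by
  have hk2i : ∀ a b : ℝ, 0 ≤ a → a ≤ b →
      IntervalIntegrable (fun s => ‖f₁ s‖ ^ 2) volume a b := by
    intro a b ha hab
    rw [intervalIntegrable_iff_integrableOn_Ioc_of_le hab]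
    have h1 : IntegrableOn (fun s => ‖f₁ s‖ ^ 2) (Ioc 0 b) := (hf.memLp b).norm.integrable_sq
    exact h1.mono_set (Ioc_subset_Ioc_left ha)
  let G : ℝ → ℝ := fun t => ∫ r in (0 : ℝ)..t, ‖f₁ r‖ ^ 2
  have hGsub : ∀ a b : ℝ, 0 ≤ a → a ≤ b → ∫ r in a..b, ‖f₁ r‖ ^ 2 = G b - G a := by
    intro a b ha hab
    exact (intervalIntegral.integral_interval_sub_left (hk2i 0 b le_rfl (ha.trans hab))
      (hk2i 0 a le_rfl ha)).symm
  have hGmono : ∀ a b : ℝ, 0 ≤ a → a ≤ b → G a ≤ G b := by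
    intro a b ha hab
    have h1 := hGsub a b ha hab
    have h2 : 0 ≤ ∫ r in a..b, ‖f₁ r‖ ^ 2 :=
      intervalIntegral.integral_nonneg hab fun s _ => sq_nonneg _
    linarith
  have hGi : ∀ a b : ℝ, 0 ≤ a → a ≤ b → IntervalIntegrable G volume a b := by
    intro a b ha hab
    apply MonotoneOn.intervalIntegrable
    rw [uIcc_of_le hab]
    intro s hs t ht hst
    exact hGmono s t (ha.trans hs.1) hst
  have hG0 : ∀ t, 0 ≤ t → 0 ≤ G t := fun t ht => by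
    have := hGmono 0 t le_rfl ht
    simpa [G] using this
  have hpt : ∀ s ∈ Icc 0 T, ‖f (s + h) - f s‖ ^ 2 ≤ h * (G (s + h) - G s) := by
    intro s hs
    have e1 := hf.sub_eq hs.1 (by linarith [hs.1] : (0 : ℝ) ≤ s + h)
    rw [e1]
    have e2 : ‖∫ r in s..(s + h), f₁ r‖ ≤ ∫ r in s..(s + h), ‖f₁ r‖ :=
      intervalIntegral.norm_integral_le_integral_norm (by linarith)
    have e3 := sq_intervalIntegral_le (k := fun r => ‖f₁ r‖) (by linarith : s < s + h)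
      (hf.intervalIntegrable hs.1 (by linarith [hs.1])).norm
      (hk2i s (s + h) hs.1 (by linarith))
    rw [hGsub s (s + h) hs.1 (by linarith), add_sub_cancel_left] at e3
    exact (pow_le_pow_left₀ (norm_nonneg _) e2 2).trans e3
  have hfc := hf.continuousOn
  have hGs : IntervalIntegrable (fun s => G (s + h)) volume 0 T := by
    apply MonotoneOn.intervalIntegrable
    rw [uIcc_of_le hT]
    intro s hs t ht hst
    exact hGmono _ _ (by linarith [hs.1]) (by linarith)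
  have hint : IntervalIntegrable (fun s => ‖f (s + h) - f s‖ ^ 2) volume 0 T := by
    refine ContinuousOn.intervalIntegrable_of_Icc hT ?_
    refine (ContinuousOn.norm ?_).pow 2
    refine ContinuousOn.sub ?_ (hfc.mono Icc_subset_Ici_self)
    refine hfc.comp (by fun_prop) ?_
    intro s hs
    have := hs.1
    show (0 : ℝ) ≤ s + h
    linarith
  have key := intervalIntegral.integral_mono_on hT hint
    ((hGs.sub (hGi 0 T le_rfl hT)).const_mul h) hpt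
  refine key.trans ?_
  rw [intervalIntegral.integral_const_mul, intervalIntegral.integral_sub hGs (hGi 0 T le_rfl hT)]
  have e4 : ∫ s in (0 : ℝ)..T, G (s + h) = ∫ s in h..(T + h), G s := by
    rw [intervalIntegral.integral_comp_add_right (fun s => G s) h, zero_add]
  have e5 : (∫ s in (0 : ℝ)..T, G s) + ∫ s in T..(T + h), G s = ∫ s in (0 : ℝ)..(T + h), G s :=
    intervalIntegral.integral_add_adjacent_intervals (hGi 0 T le_rfl hT)
      (hGi T (T + h) hT (by linarith))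
  have e6 : (∫ s in (0 : ℝ)..h, G s) + ∫ s in h..(T + h), G s = ∫ s in (0 : ℝ)..(T + h), G s :=
    intervalIntegral.integral_add_adjacent_intervals (hGi 0 h le_rfl h0.le)
      (hGi h (T + h) h0.le (by linarith))
  have e7 : 0 ≤ ∫ s in (0 : ℝ)..h, G s :=
    intervalIntegral.integral_nonneg h0.le fun s hs => hG0 s hs.1
  have e8 : ∫ s in T..(T + h), G s ≤ ∫ _s in T..(T + h), G (T + h) := by
    refine intervalIntegral.integral_mono_on (by linarith) (hGi T (T + h) hT (by linarith))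
      (by simp) fun s hs => hGmono _ _ (hT.trans hs.1) (by linarith [hs.2])
  rw [intervalIntegral.integral_const, smul_eq_mul, add_sub_cancel_left] at e8
  rw [e4]
  have e9 : (∫ s in h..(T + h), G s) - ∫ s in (0 : ℝ)..T, G s ≤ h * G (T + h) := by linarith
  calc h * ((∫ s in h..(T + h), G s) - ∫ s in (0 : ℝ)..T, G s) ≤ h * (h * G (T + h)) :=
        mul_le_mul_of_nonneg_left e9 h0.le
    _ = h ^ 2 * G (T + h) := by ring

/-! ### The exponential weight -/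

theorem ex_pos (c N t : ℝ) : 0 < ex c N t := Real.exp_pos _

theorem ex_le_one {c N t : ℝ} (hc : 0 < c) (ht : 0 ≤ t) : ex c N t ≤ 1 := by
  unfold ex
  rw [Real.exp_le_one_iff]
  have : 0 ≤ c * N ^ 2 * t := by positivity
  linarith

theorem ex_anti {c N s t : ℝ} (hc : 0 < c) (hst : s ≤ t) : ex c N t ≤ ex c N s := by
  unfold ex
  apply Real.exp_le_exp.2
  have : c * N ^ 2 * s ≤ c * N ^ 2 * t := by gcongr
  linarith

theorem ex_cont (c N : ℝ) : Continuous (ex c N) := by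
  unfold ex
  fun_prop

theorem int_ex {c N t : ℝ} (hc : 0 < c) (hN : 1 ≤ N) :
    ∫ s in (0 : ℝ)..t, ex c N s ≤ 1 / (c * N ^ 2) := by
  have hk : 0 < c * N ^ 2 := by positivity
  have hd : ∀ s : ℝ, HasDerivAt (fun s => -(ex c N s / (c * N ^ 2))) (ex c N s) s := by
    intro s
    unfold ex
    have h1 : HasDerivAt (fun s : ℝ => -(c * N ^ 2 * s)) (-(c * N ^ 2)) s :=
      (((hasDerivAt_id s).const_mul (c * N ^ 2)).neg).congr_deriv (by simp)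
    have h2 := (h1.exp.div_const (c * N ^ 2)).neg
    refine h2.congr_deriv ?_
    field_simp
  rw [intervalIntegral.integral_eq_sub_of_hasDerivAt (fun s _ => hd s)
    ((ex_cont c N).intervalIntegrable _ _)]
  have h0 : ex c N 0 = 1 := by simp [ex]
  rw [h0]
  have := ex_pos c N t
  have : 0 ≤ ex c N t / (c * N ^ 2) := by positivity
  linarith

theorem t_ex {c N t : ℝ} (hc : 0 < c) (hN : 1 ≤ N) (ht : 0 ≤ t) :
    t ^ 2 * ex c N t ^ 2 ≤ 4 / (c ^ 2 * N ^ 4) * ex c N t := by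
  have hk : 0 < c * N ^ 2 := by positivity
  obtain ⟨y, hy⟩ : ∃ y, y = c * N ^ 2 * t / 2 := ⟨_, rfl⟩
  have hy0 : 0 ≤ y := by rw [hy]; positivity
  have h1 : y ≤ Real.exp y := by linarith [Real.add_one_le_exp y]
  have h2 : ex c N t = Real.exp (-y) ^ 2 := by
    unfold ex
    rw [← Real.exp_nat_mul, hy]
    congr 1
    push_cast
    ring
  have h3 : y * Real.exp (-y) ≤ 1 := by
    rw [Real.exp_neg, ← div_eq_mul_inv, div_le_one (Real.exp_pos y)]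
    exact h1
  have h4 : (y * Real.exp (-y)) ^ 2 ≤ 1 := by
    have : 0 ≤ y * Real.exp (-y) := by positivity
    nlinarith
  have h5 : t = 2 / (c * N ^ 2) * y := by rw [hy]; field_simp
  have h6 : t ^ 2 * ex c N t ≤ 4 / (c ^ 2 * N ^ 4) := by
    rw [h2, h5]
    calc (2 / (c * N ^ 2) * y) ^ 2 * Real.exp (-y) ^ 2 = 4 / (c ^ 2 * N ^ 4) * (y * Real.exp (-y)) ^ 2 := by
          field_simp
          ring
      _ ≤ 4 / (c ^ 2 * N ^ 4) * 1 := by gcongr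
      _ = _ := by ring
  have := ex_pos c N t
  calc t ^ 2 * ex c N t ^ 2 = t ^ 2 * ex c N t * ex c N t := by ring
    _ ≤ _ := by gcongr

/-! ### The equation for `z` -/

theorem eqE0 {D : Data V K} {η : ℝ} {s₀ S W u w P P' : V} {ρ : K} {f : V →L[ℝ] ℝ}
    (hS : ∀ v, ⟪D.ι W, D.ι v⟫ + η * D.a S v + D.b S S v = f v)
    (hu : ∀ v, ⟪D.ι w, D.ι v⟫ + η * D.a u v + D.b u u v = f v)
    (hP : ∀ v, ⟪D.ι P', D.ι v⟫ + η * D.a P v + D.b P P v + D.b s₀ P v + D.b P s₀ v = ⟪ρ, D.ι v⟫) :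
    ∀ v, ⟪D.ι (w - W - P'), D.ι v⟫ + η * D.a (u - S - P) v + D.b (u - S - P) (S + P + (u - S - P)) v
      + D.b (S + P) (u - S - P) v + D.b (S - s₀) P v + D.b P (S - s₀) v = -⟪ρ, D.ι v⟫ := by
  intro v
  have h1 := hS v
  have h2 := hu v
  have h3 := hP v
  simp only [map_add, map_sub, add_apply, sub_apply, inner_sub_left] at h1 h2 h3 ⊢
  linarith

end

/-- Norm of increments under `ι`, from an a.e. bound of the derivative. -/
theorem iota_incr {V K : Type} [NormedAddCommGroup V] [InnerProductSpace ℝ V] [CompleteSpace V]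
    [NormedAddCommGroup K] [InnerProductSpace ℝ K] {D : Data V K} {S W : ℝ → V} {CS τ : ℝ}
    (hS : IsH1loc S W) (hW : ∀ᵐ t ∂(volume.restrict (Ioc 0 τ)), ‖D.ι (W t)‖ ≤ CS) {s t : ℝ}
    (hs : 0 ≤ s) (hst : s ≤ t) (ht : t ≤ τ) : ‖D.ι (S t - S s)‖ ≤ CS * (t - s) := by
  rw [hS.sub_eq hs (hs.trans hst)]
  have hi := hS.intervalIntegrable hs (hs.trans hst)
  -- integrate against a unit vector
  have key : ∀ k : K, ⟪k, D.ι (∫ r in s..t, W r)⟫ ≤ ‖k‖ * (CS * (t - s)) := by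
    intro k
    have e1 : ⟪k, D.ι (∫ r in s..t, W r)⟫ = ∫ r in s..t, ⟪k, D.ι (W r)⟫ := by
      have := ((innerSL ℝ k).comp D.ι).intervalIntegral_comp_comm hi
      simpa using this.symm
    rw [e1]
    have hae : ∀ᵐ r, r ∈ Ioc 0 τ → ‖D.ι (W r)‖ ≤ CS := (ae_restrict_iff' measurableSet_Ioc).1 hW
    have h2 : ‖∫ r in s..t, ⟪k, D.ι (W r)⟫‖ ≤ (‖k‖ * CS) * |t - s| := by
      refine intervalIntegral.norm_integral_le_of_norm_le_const_ae ?_
      filter_upwards [hae] with r hr hr2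
      rw [uIoc_of_le hst] at hr2
      have h3 := hr ⟨hs.trans_lt hr2.1, hr2.2.trans ht⟩
      calc ‖⟪k, D.ι (W r)⟫‖ ≤ ‖k‖ * ‖D.ι (W r)‖ := norm_inner_le_norm _ _
        _ ≤ ‖k‖ * CS := by gcongr
    rw [abs_of_nonneg (by linarith)] at h2
    calc _ ≤ ‖∫ r in s..t, ⟪k, D.ι (W r)⟫‖ := le_abs_self _
      _ ≤ _ := h2
      _ = _ := by ring
  have h := key (D.ι (∫ r in s..t, W r))
  rw [real_inner_self_eq_norm_sq] at h
  set n := ‖D.ι (∫ r in s..t, W r)‖ with hn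
  rcases (norm_nonneg (D.ι (∫ r in s..t, W r))).eq_or_lt with h0 | h0
  · rw [← hn] at h0
    rw [← h0]
    by_cases hlt : s = t
    · rw [hlt]; simp
    · have hlt' : s < t := lt_of_le_of_ne hst hlt
      -- `CS ≥ 0` since the a.e. bound holds on a set of positive measure
      have : 0 ≤ CS := by
        by_contra hneg
        push Not at hneg
        have h1 : ∀ᵐ t ∂(volume.restrict (Ioc 0 τ)), False := by
          filter_upwards [hW] with r hr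
          exact absurd (norm_nonneg (D.ι (W r))) (by linarith)
        have h2 := ae_iff.1 h1
        simp at h2
        linarith
      have : 0 ≤ t - s := by linarith
      positivity
  · rw [← hn] at h0
    have : n * n ≤ n * (CS * (t - s)) := by nlinarith
    exact le_of_mul_le_mul_left this h0

theorem int_shift_le {τ t h : ℝ} {g : ℝ → ℝ} (hg : ContinuousOn g (Icc 0 τ)) (hg0 : ∀ s, 0 ≤ g s)
    (ht : 0 ≤ t) (hh : 0 ≤ h) (hth : t + h ≤ τ) : ∫ s in (0 : ℝ)..t, g (s + h) ≤ ∫ s in (0 : ℝ)..τ, g s := by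
  rw [intervalIntegral.integral_comp_add_right (fun s => g s) h, zero_add]
  refine intervalIntegral.integral_mono_interval hh (by linarith) hth (Eventually.of_forall hg0) ?_
  exact hg.intervalIntegrable_of_Icc (by linarith)

end E2

set_option maxHeartbeats 4000000 in
/-- **E2.** -/
theorem e2_proof (hE : Stmt_EnergyId) (hG : Stmt_GronwallInt) (hE1 : Stmt_E1) : Stmt_E2 := by
  intro V K _ _ _ _ _ D η M c CS hη hM hc hCS
  obtain ⟨Cb, hCb0, hCb⟩ := E2.b_bound D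
  obtain ⟨C₁, hC₁0, hC₁⟩ := hE1 V K D η M c CS hη hM hc hCS
  obtain ⟨μ, hμ⟩ : ∃ μ, μ = η / 16 := ⟨_, rfl⟩
  have hμ0 : 0 < μ := by rw [hμ]; positivity
  have hCY := D.CY_nonneg
  have hc0 := D.c₀_pos
  obtain ⟨LL, hLL⟩ : ∃ LL : ℝ, LL = 2 * D.CY / μ ^ 3 * (CS + C₁ / η) + (M ^ 2 / μ + M) / c := ⟨_, rfl⟩
  obtain ⟨R1, hR1⟩ : ∃ R1 : ℝ, R1 = (2 * C₁ * M ^ 2 / μ + 2 * M ^ 2 * CS ^ 2 / μ
      + 8 * M ^ 2 * CS ^ 2 / (c ^ 2 * μ) + M) / c := ⟨_, rfl⟩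
  obtain ⟨R2, hR2⟩ : ∃ R2 : ℝ, R2 = 2 * Cb ^ 2 / μ * (CS / D.c₀) := ⟨_, rfl⟩
  have hR1' : 0 ≤ R1 := by rw [hR1]; positivity
  have hR2' : 0 ≤ R2 := by rw [hR2]; positivity
  refine ⟨(C₁ + R1 + R2) * Real.exp LL, by positivity, ?_⟩
  intro N τ X f S W u w P P' ρ hN hτ hSol hBd hu hL h0 hX0 hXN hXs t h ht hh0 hh1 hthτ
  rcases hh0.eq_or_lt with hh | hh
  · rw [← hh]; simp
  have hN0 : 0 < N := by linarith
  -- the function `z`
  obtain ⟨z, hzdef⟩ : ∃ z : ℝ → V, z = fun s => u s - S s - P s := ⟨_, rfl⟩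
  obtain ⟨z1, hz1def⟩ : ∃ z1 : ℝ → V, z1 = fun s => w s - W s - P' s := ⟨_, rfl⟩
  have hz : IsH1loc z z1 := by
    rw [hzdef, hz1def]
    exact E2.H1.sub (E2.H1.sub hu.h1 hSol.h1) (E2.H1.ofC1 hL.deriv hL.contP')
  have hzs : ∀ s, u s - S s - P s = z s := fun s => by rw [hzdef]
  have hz1s : ∀ s, w s - W s - P' s = z1 s := fun s => by rw [hz1def]
  obtain ⟨hzb, hz0⟩ := hC₁ N τ f S W u w P P' ρ hN hτ hSol hBd hu hL h0
  simp only [hzs] at hzb hz0 hXs ⊢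
  obtain ⟨Z, hZdef⟩ : ∃ Z : ℝ → V, Z = fun s => z (s + h) - z s := ⟨_, rfl⟩
  obtain ⟨Z1, hZ1def⟩ : ∃ Z1 : ℝ → V, Z1 = fun s => z1 (s + h) - z1 s := ⟨_, rfl⟩
  have hZ : IsH1loc Z Z1 := by
    rw [hZdef, hZ1def]
    exact E2.H1.sub (E2.H1.shift hz hh.le) hz
  have hT0 : 0 ≤ τ - h := by linarith
  obtain ⟨T, hT⟩ : ∃ T, T = τ - h := ⟨_, rfl⟩
  rw [← hT] at hT0
  have htT : t ≤ T := by linarith
  have hzc : ContinuousOn z (Ici 0) := hz.continuousOn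
  have hSc : ContinuousOn S (Ici 0) := hSol.h1.continuousOn
  have hZc : ContinuousOn Z (Ici 0) := hZ.continuousOn
  have hshift : ∀ g : ℝ → V, ContinuousOn g (Ici 0) → ContinuousOn (fun s => g (s + h)) (Icc 0 T) := by
    intro g hg
    refine hg.comp (by fun_prop) ?_
    intro s hs
    have := hs.1
    show (0 : ℝ) ≤ s + h
    linarith
  -- the equation
  have hae : ∀ᵐ s, s ∈ Ioc 0 τ → ∀ v, ⟪D.ι (z1 s), D.ι v⟫ + η * D.a (z s) v
      + D.b (z s) (S s + P s + z s) v + D.b (S s + P s) (z s) v + D.b (S s - S 0) (P s) v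
      + D.b (P s) (S s - S 0) v = -⟪ρ s, D.ι v⟫ := by
    have h1 := (ae_restrict_iff' measurableSet_Ioc).1 hSol.eq
    have h2 := (ae_restrict_iff' measurableSet_Ioc).1 hu.eq
    filter_upwards [h1, h2] with s hs1 hs2 hs v
    have h3 := E2.eqE0 (hs1 hs) (hs2 hs) (hL.eq s hs.1.le) v
    rw [hzs, hz1s] at h3
    exact h3
  have haeh : ∀ᵐ s, s + h ∈ Ioc 0 τ → ∀ v, ⟪D.ι (z1 (s + h)), D.ι v⟫ + η * D.a (z (s + h)) v
      + D.b (z (s + h)) (S (s + h) + P (s + h) + z (s + h)) v + D.b (S (s + h) + P (s + h)) (z (s + h)) v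
      + D.b (S (s + h) - S 0) (P (s + h)) v
      + D.b (P (s + h)) (S (s + h) - S 0) v = -⟪ρ (s + h), D.ι v⟫ :=
    (measurePreserving_add_right (volume : Measure ℝ) h).quasiMeasurePreserving.ae hae
  -- Gronwall data
  obtain ⟨y, hy⟩ : ∃ y : ℝ → ℝ, y = fun s => ‖D.ι (Z s)‖ ^ 2 := ⟨_, rfl⟩
  obtain ⟨L, hLdef⟩ : ∃ L : ℝ → ℝ, L = fun s => 2 * D.CY / μ ^ 3 * (D.sig (S (s + h)) ^ 4
      + D.sig (z (s + h)) ^ 4) + (M ^ 2 / μ + M) * N ^ 2 * ex c N s := ⟨_, rfl⟩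
  obtain ⟨B, hB⟩ : ∃ B : ℝ, B = (2 * C₁ * M ^ 2 / μ * N ^ 4 + 2 * M ^ 2 * CS ^ 2 / μ * N ^ 2
      + 8 * M ^ 2 * CS ^ 2 / (c ^ 2 * μ) * N ^ 2 + M * N ^ 4) * h ^ 2 := ⟨_, rfl⟩
  have hB0 : 0 ≤ B := by rw [hB]; positivity
  obtain ⟨r, hr⟩ : ∃ r : ℝ → ℝ, r = fun s => 2 * X * Cb ^ 2 / μ * ‖S (s + h) - S s‖ ^ 2
      + B * ex c N s := ⟨_, rfl⟩
  have hyc : ContinuousOn y (Icc 0 T) := by
    rw [hy]
    exact ((D.ι.continuous.comp_continuousOn (hZc.mono Icc_subset_Ici_self)).norm).pow 2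
  have hsS : ContinuousOn (fun s => D.sig (S (s + h)) ^ 4) (Icc 0 T) :=
    (D.continuous_sig.comp_continuousOn (hshift S hSc)).pow 4
  have hsz : ContinuousOn (fun s => D.sig (z (s + h)) ^ 4) (Icc 0 T) :=
    (D.continuous_sig.comp_continuousOn (hshift z hzc)).pow 4
  have hsz2 : ContinuousOn (fun s => D.sig (z (s + h)) ^ 2) (Icc 0 T) :=
    (D.continuous_sig.comp_continuousOn (hshift z hzc)).pow 2
  have hLc : ContinuousOn L (Icc 0 T) := by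
    rw [hLdef]
    exact (continuousOn_const.mul (hsS.add hsz)).add
      (continuousOn_const.mul (E2.ex_cont c N).continuousOn)
  have hSd : ContinuousOn (fun s => ‖S (s + h) - S s‖ ^ 2) (Icc 0 T) :=
    (((hshift S hSc).sub (hSc.mono Icc_subset_Ici_self)).norm).pow 2
  have hrc : ContinuousOn r (Icc 0 T) := by
    rw [hr]
    exact (continuousOn_const.mul hSd).add (continuousOn_const.mul (E2.ex_cont c N).continuousOn)
  have hex0 : ∀ s, 0 < ex c N s := fun s => E2.ex_pos c N s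
  have hL0 : ∀ s ∈ Icc 0 T, 0 ≤ L s := fun s _ => by
    have := hex0 s
    have := D.sig_nonneg (S (s + h))
    have := D.sig_nonneg (z (s + h))
    rw [hLdef]
    positivity
  have hr0 : ∀ s ∈ Icc 0 T, 0 ≤ r s := fun s _ => by
    have := hex0 s
    rw [hr]
    positivity
  -- the pointwise inequality
  have hpt : ∀ᵐ s, s ∈ Ioc 0 T → 2 * ⟪D.ι (Z1 s), D.ι (Z s)⟫ ≤ L s * y s + r s := by
    filter_upwards [hae, haeh] with s hs1 hs2 hs
    have hs0 : 0 < s := hs.1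
    have hsT : s ≤ T := hs.2
    have hsτ : s ≤ τ := by linarith
    have hshτ : s + h ≤ τ := by linarith
    have e1 := hs1 ⟨hs0, hsτ⟩
    have e2 := hs2 ⟨by linarith, hshτ⟩
    have he := hex0 s
    have he1 : ex c N s ≤ 1 := E2.ex_le_one hc hs0.le
    have hst1 : StarBd D (P (s + h)) (M * N * ex c N s) := by
      refine E2.StarBd.mono (hL.star (s + h) (by linarith)) ?_
      have := E2.ex_anti (N := N) hc (by linarith : s ≤ s + h)
      gcongr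
    have hst2 := hL.starD s h hs0.le hh.le hh1
    have hρ := hL.rhoD s h hs0.le hh.le hh1
    have key := E2.pointwise D hη hμ hCb (q := h * N) (by positivity) e1 e2 hst1 hst2 hρ
    have hZs : Z s = z (s + h) - z s := by rw [hZdef]
    have hZ1s : Z1 s = z1 (s + h) - z1 s := by rw [hZ1def]
    rw [hZs, hZ1s]
    refine key.trans ?_
    have hys : y s = ‖D.ι (z (s + h) - z s)‖ ^ 2 := by rw [hy]; simp only [hZs]
    rw [hys, hLdef, hr]
    simp only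
    have he2 : ex c N s ^ 2 ≤ ex c N s := by nlinarith
    have b1 : (M * N * ex c N s) ^ 2 / μ + M * N ^ 3 * h * ex c N s / (h * N)
        ≤ (M ^ 2 / μ + M) * N ^ 2 * ex c N s := by
      have i1 : (M * N * ex c N s) ^ 2 / μ = M ^ 2 / μ * N ^ 2 * ex c N s ^ 2 := by ring
      have i2 : M * N ^ 3 * h * ex c N s / (h * N) = M * N ^ 2 * ex c N s := by field_simp
      rw [i1, i2]
      have : M ^ 2 / μ * N ^ 2 * ex c N s ^ 2 ≤ M ^ 2 / μ * N ^ 2 * ex c N s := by gcongr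
      nlinarith
    have hza : ‖D.ι (z s)‖ ^ 2 ≤ C₁ / N ^ 2 := by
      have h1 := hzb s ⟨hs0.le, hsτ⟩
      have h2 : 0 ≤ ∫ r in (0 : ℝ)..s, D.sig (z r) ^ 2 :=
        intervalIntegral.integral_nonneg hs0.le fun r _ => sq_nonneg _
      nlinarith
    have hzb' : ‖D.ι (z (s + h))‖ ^ 2 ≤ C₁ / N ^ 2 := by
      have h1 := hzb (s + h) ⟨by linarith, hshτ⟩
      have h2 : 0 ≤ ∫ r in (0 : ℝ)..(s + h), D.sig (z r) ^ 2 :=
        intervalIntegral.integral_nonneg (by linarith) fun r _ => sq_nonneg _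
      nlinarith
    have hXa : D.sig (z s) ^ 2 ≤ X := hXs s ⟨hs0.le, hsτ⟩
    have hXb : D.sig (z (s + h)) ^ 2 ≤ X := hXs (s + h) ⟨by linarith, hshτ⟩
    have hSn : D.sig (S (s + h) - S s) ≤ ‖S (s + h) - S s‖ := D.sig_le_norm _
    have hSn0 := D.sig_nonneg (S (s + h) - S s)
    have hi1 : ‖D.ι (S (s + h) - S s)‖ ≤ CS * h := by
      have := E2.iota_incr hSol.h1 hBd.iW hs0.le (by linarith : s ≤ s + h) hshτ
      rwa [add_sub_cancel_left] at this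
    have hi2 : ‖D.ι (S s - S 0)‖ ≤ CS * s := by
      have := E2.iota_incr hSol.h1 hBd.iW le_rfl hs0.le hsτ
      rwa [sub_zero] at this
    have b2 : Cb ^ 2 / μ * (D.sig (z s) ^ 2 + D.sig (z (s + h)) ^ 2) * D.sig (S (s + h) - S s) ^ 2
        ≤ 2 * X * Cb ^ 2 / μ * ‖S (s + h) - S s‖ ^ 2 := by
      calc _ ≤ Cb ^ 2 / μ * (X + X) * ‖S (s + h) - S s‖ ^ 2 := by gcongr
        _ = _ := by ring
    have b3 : (M * N ^ 3 * h * ex c N s) ^ 2 / μ * (‖D.ι (z s)‖ ^ 2 + ‖D.ι (z (s + h))‖ ^ 2)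
        ≤ 2 * C₁ * M ^ 2 / μ * N ^ 4 * h ^ 2 * ex c N s := by
      calc _ ≤ (M * N ^ 3 * h * ex c N s) ^ 2 / μ * (C₁ / N ^ 2 + C₁ / N ^ 2) := by gcongr
        _ = 2 * C₁ * M ^ 2 / μ * N ^ 4 * h ^ 2 * ex c N s ^ 2 := by
            field_simp
            ring
        _ ≤ _ := by gcongr
    have b4 : 2 * ((M * N * ex c N s) ^ 2 / μ) * ‖D.ι (S (s + h) - S s)‖ ^ 2
        ≤ 2 * M ^ 2 * CS ^ 2 / μ * N ^ 2 * h ^ 2 * ex c N s := by
      calc _ ≤ 2 * ((M * N * ex c N s) ^ 2 / μ) * (CS * h) ^ 2 := by gcongr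
        _ = 2 * M ^ 2 * CS ^ 2 / μ * N ^ 2 * h ^ 2 * ex c N s ^ 2 := by ring
        _ ≤ _ := by gcongr
    have b5 : 2 * ((M * N ^ 3 * h * ex c N s) ^ 2 / μ) * ‖D.ι (S s - S 0)‖ ^ 2
        ≤ 8 * M ^ 2 * CS ^ 2 / (c ^ 2 * μ) * N ^ 2 * h ^ 2 * ex c N s := by
      have ht2 := E2.t_ex hc hN hs0.le
      calc _ ≤ 2 * ((M * N ^ 3 * h * ex c N s) ^ 2 / μ) * (CS * s) ^ 2 := by gcongr
        _ = 2 * M ^ 2 * CS ^ 2 / μ * N ^ 6 * h ^ 2 * (s ^ 2 * ex c N s ^ 2) := by ring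
        _ ≤ 2 * M ^ 2 * CS ^ 2 / μ * N ^ 6 * h ^ 2 * (4 / (c ^ 2 * N ^ 4) * ex c N s) := by gcongr
        _ = _ := by
            field_simp
            ring
    have b6 : M * N ^ 3 * h * ex c N s * (h * N) = M * N ^ 4 * h ^ 2 * ex c N s := by ring
    have hY0 : 0 ≤ ‖D.ι (z (s + h) - z s)‖ ^ 2 := sq_nonneg _
    have g1 : (2 * D.CY / μ ^ 3 * (D.sig (S (s + h)) ^ 4 + D.sig (z (s + h)) ^ 4)
        + (M * N * ex c N s) ^ 2 / μ + M * N ^ 3 * h * ex c N s / (h * N)) * ‖D.ι (z (s + h) - z s)‖ ^ 2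
        ≤ (2 * D.CY / μ ^ 3 * (D.sig (S (s + h)) ^ 4 + D.sig (z (s + h)) ^ 4)
          + (M ^ 2 / μ + M) * N ^ 2 * ex c N s) * ‖D.ι (z (s + h) - z s)‖ ^ 2 :=
      mul_le_mul_of_nonneg_right (by linarith) hY0
    have g2 : B * ex c N s = 2 * C₁ * M ^ 2 / μ * N ^ 4 * h ^ 2 * ex c N s
        + 2 * M ^ 2 * CS ^ 2 / μ * N ^ 2 * h ^ 2 * ex c N s
        + 8 * M ^ 2 * CS ^ 2 / (c ^ 2 * μ) * N ^ 2 * h ^ 2 * ex c N s
        + M * N ^ 4 * h ^ 2 * ex c N s := by rw [hB]; ring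
    rw [g2]
    linarith
  have hineq : ∀ t' ∈ Icc 0 T, y t' ≤ y 0 + ∫ s in (0 : ℝ)..t', (L s * y s + r s - 0) := by
    intro t' ht'
    obtain ⟨hi, he⟩ := hE V K D.ι Z Z1 hZ 0 t' le_rfl ht'.1
    have hy' : ∀ s, ‖D.ι (Z s)‖ ^ 2 = y s := fun s => by rw [hy]
    rw [hy', hy'] at he
    rw [he]
    have hsub : Icc 0 t' ⊆ Icc 0 T := Icc_subset_Icc_right ht'.2
    have hgi : IntervalIntegrable (fun s => L s * y s + r s - 0) volume 0 t' := by
      refine ContinuousOn.intervalIntegrable_of_Icc ht'.1 ?_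
      exact (((hLc.mul hyc).add hrc).sub continuousOn_const).mono hsub
    have : ∫ s in (0 : ℝ)..t', 2 * ⟪D.ι (Z1 s), D.ι (Z s)⟫ ≤ ∫ s in (0 : ℝ)..t', (L s * y s + r s - 0) := by
      rw [intervalIntegral.integral_of_le ht'.1, intervalIntegral.integral_of_le ht'.1]
      refine integral_mono_ae (hi.const_mul 2).1 hgi.1 ?_
      refine (ae_restrict_iff' measurableSet_Ioc).2 ?_
      filter_upwards [hpt] with s hs hs'
      rw [sub_zero]
      exact hs ⟨hs'.1, hs'.2.trans ht'.2⟩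
    rw [intervalIntegral.integral_const_mul] at this
    linarith
  have hy00 : 0 ≤ y 0 := by rw [hy]; positivity
  have fin := hG T y L r (fun _ => 0) hyc hLc hrc continuousOn_const hL0 hr0 (fun _ _ => le_rfl) hy00
    hineq t ⟨ht, htT⟩
  simp only [intervalIntegral.integral_zero, add_zero] at fin
  -- bounds
  have hy0 : y 0 ≤ C₁ * N ^ 2 * h ^ 2 := by
    have hz00 : z 0 = 0 := by
      rw [← hzs, h0]; abel
    have : y 0 = ‖D.ι (z h)‖ ^ 2 := by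
      rw [hy, hZdef]
      simp only [zero_add, hz00, sub_zero]
    rw [this]
    exact hz0 h ⟨hh.le, by linarith⟩ hh1
  have hsubt : Icc 0 t ⊆ Icc 0 T := Icc_subset_Icc_right htT
  have ii : ∀ g : ℝ → ℝ, ContinuousOn g (Icc 0 T) → IntervalIntegrable g volume 0 t := fun g hg =>
    ContinuousOn.intervalIntegrable_of_Icc ht (hg.mono hsubt)
  have hexi : IntervalIntegrable (ex c N) volume 0 t := (E2.ex_cont c N).intervalIntegrable _ _
  have hIex := E2.int_ex (t := t) hc hN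
  have hIL : ∫ s in (0 : ℝ)..t, L s ≤ LL := by
    have hS4 : ∫ s in (0 : ℝ)..t, D.sig (S (s + h)) ^ 4 ≤ CS := by
      refine (E2.int_shift_le (g := fun s => D.sig (S s) ^ 4) ?_ (fun s => by positivity) ht hh.le hthτ).trans
        hBd.int4
      exact ((D.continuous_sig.comp_continuousOn (hSc.mono Icc_subset_Ici_self)).pow 4)
    have hz4 : ∫ s in (0 : ℝ)..t, D.sig (z (s + h)) ^ 4 ≤ C₁ / η := by
      have h1 : ∫ s in (0 : ℝ)..t, D.sig (z (s + h)) ^ 4 ≤ ∫ s in (0 : ℝ)..t, X * D.sig (z (s + h)) ^ 2 := by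
        refine intervalIntegral.integral_mono_on ht (ii _ hsz) ((ii _ hsz2).const_mul X) fun s hs => ?_
        have := hXs (s + h) ⟨by linarith [hs.1], by linarith [hs.2]⟩
        calc D.sig (z (s + h)) ^ 4 = D.sig (z (s + h)) ^ 2 * D.sig (z (s + h)) ^ 2 := by ring
          _ ≤ X * D.sig (z (s + h)) ^ 2 := by gcongr
      rw [intervalIntegral.integral_const_mul] at h1
      have h2 : ∫ s in (0 : ℝ)..t, D.sig (z (s + h)) ^ 2 ≤ ∫ s in (0 : ℝ)..τ, D.sig (z s) ^ 2 := by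
        refine E2.int_shift_le (g := fun s => D.sig (z s) ^ 2) ?_ (fun s => by positivity) ht hh.le hthτ
        exact ((D.continuous_sig.comp_continuousOn (hzc.mono Icc_subset_Ici_self)).pow 2)
      have h3 : η * ∫ s in (0 : ℝ)..τ, D.sig (z s) ^ 2 ≤ C₁ / N ^ 2 := by
        have := hzb τ ⟨hτ, le_rfl⟩
        nlinarith [sq_nonneg ‖D.ι (z τ)‖]
      have h4 : ∫ s in (0 : ℝ)..τ, D.sig (z s) ^ 2 ≤ C₁ / N ^ 2 / η := by
        rw [le_div_iff₀ hη]; linarith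
      calc _ ≤ X * ∫ s in (0 : ℝ)..t, D.sig (z (s + h)) ^ 2 := h1
        _ ≤ N * (C₁ / N ^ 2 / η) := by
            have : 0 ≤ ∫ s in (0 : ℝ)..t, D.sig (z (s + h)) ^ 2 :=
              intervalIntegral.integral_nonneg ht fun r _ => sq_nonneg _
            exact mul_le_mul hXN (h2.trans h4) this hN0.le
        _ = C₁ / η * (1 / N) := by field_simp
        _ ≤ C₁ / η * 1 := by
            gcongr
            rw [div_le_one hN0]
            exact hN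
        _ = _ := by ring
    have hsum : ∫ s in (0 : ℝ)..t, L s = 2 * D.CY / μ ^ 3 * ((∫ s in (0 : ℝ)..t, D.sig (S (s + h)) ^ 4)
        + ∫ s in (0 : ℝ)..t, D.sig (z (s + h)) ^ 4) + (M ^ 2 / μ + M) * N ^ 2 * ∫ s in (0 : ℝ)..t, ex c N s := by
      rw [hLdef]
      rw [intervalIntegral.integral_add (((ii _ hsS).add (ii _ hsz)).const_mul _) (hexi.const_mul _),
        intervalIntegral.integral_const_mul, intervalIntegral.integral_const_mul,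
        intervalIntegral.integral_add (ii _ hsS) (ii _ hsz)]
    rw [hsum, hLL]
    have g1 : 2 * D.CY / μ ^ 3 * ((∫ s in (0 : ℝ)..t, D.sig (S (s + h)) ^ 4)
        + ∫ s in (0 : ℝ)..t, D.sig (z (s + h)) ^ 4) ≤ 2 * D.CY / μ ^ 3 * (CS + C₁ / η) := by gcongr
    have g2 : (M ^ 2 / μ + M) * N ^ 2 * ∫ s in (0 : ℝ)..t, ex c N s ≤ (M ^ 2 / μ + M) / c := by
      calc _ ≤ (M ^ 2 / μ + M) * N ^ 2 * (1 / (c * N ^ 2)) := by gcongr
        _ = _ := by field_simp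
    linarith
  have hIr : ∫ s in (0 : ℝ)..t, r s ≤ R2 * X * h ^ 2 + R1 * N ^ 2 * h ^ 2 := by
    have hsum : ∫ s in (0 : ℝ)..t, r s = 2 * X * Cb ^ 2 / μ * (∫ s in (0 : ℝ)..t, ‖S (s + h) - S s‖ ^ 2)
        + B * ∫ s in (0 : ℝ)..t, ex c N s := by
      rw [hr]
      rw [intervalIntegral.integral_add ((ii _ hSd).const_mul _) (hexi.const_mul _),
        intervalIntegral.integral_const_mul, intervalIntegral.integral_const_mul]
    have hW2 : ∫ s in (0 : ℝ)..(t + h), ‖W s‖ ^ 2 ≤ CS / D.c₀ := by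
      have i1 : IntegrableOn (fun s => ‖W s‖ ^ 2) (Ioc 0 τ) := (hSol.h1.memLp τ).norm.integrable_sq
      have i2 : IntegrableOn (fun s => D.sig (W s) ^ 2) (Ioc 0 τ) := by
        refine Integrable.mono' i1 ?_ ?_
        · exact (D.continuous_sig.comp_aestronglyMeasurable (hSol.h1.memLp τ).1).pow 2
        · refine Eventually.of_forall fun s => ?_
          rw [Real.norm_eq_abs, abs_of_nonneg (by positivity)]
          have := D.sig_le_norm (W s)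
          have := D.sig_nonneg (W s)
          gcongr
      have i3 : ∫ s in (0 : ℝ)..(t + h), ‖W s‖ ^ 2 ≤ ∫ s in (0 : ℝ)..τ, ‖W s‖ ^ 2 := by
        refine intervalIntegral.integral_mono_interval le_rfl (by linarith) hthτ
          (Eventually.of_forall fun s => by positivity) ?_
        rw [intervalIntegrable_iff_integrableOn_Ioc_of_le hτ]
        exact i1
      have i4 : D.c₀ * ∫ s in (0 : ℝ)..τ, ‖W s‖ ^ 2 ≤ ∫ s in (0 : ℝ)..τ, D.sig (W s) ^ 2 := by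
        rw [← intervalIntegral.integral_const_mul, intervalIntegral.integral_of_le hτ,
          intervalIntegral.integral_of_le hτ]
        refine integral_mono (i1.const_mul _) i2 fun s => ?_
        have := D.a_coer (W s)
        rw [← D.sig_sq] at this
        exact this
      rw [le_div_iff₀ hc0]
      have := hBd.intW
      nlinarith
    have hInc := E2.incr_le hSol.h1 ht hh
    have g1 : 2 * X * Cb ^ 2 / μ * (∫ s in (0 : ℝ)..t, ‖S (s + h) - S s‖ ^ 2) ≤ R2 * X * h ^ 2 := by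
      calc _ ≤ 2 * X * Cb ^ 2 / μ * (h ^ 2 * (CS / D.c₀)) := by
            gcongr
            exact hInc.trans (by gcongr)
        _ = _ := by rw [hR2]; ring
    have g2 : B * ∫ s in (0 : ℝ)..t, ex c N s ≤ R1 * N ^ 2 * h ^ 2 := by
      have hN2 : N ^ 2 ≤ N ^ 4 := pow_le_pow_right₀ hN (by norm_num)
      have hB' : B ≤ (R1 * c) * N ^ 4 * h ^ 2 := by
        have : R1 * c = 2 * C₁ * M ^ 2 / μ + 2 * M ^ 2 * CS ^ 2 / μ
            + 8 * M ^ 2 * CS ^ 2 / (c ^ 2 * μ) + M := by rw [hR1]; field_simp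
        rw [this, hB]
        have j1 : 2 * M ^ 2 * CS ^ 2 / μ * N ^ 2 ≤ 2 * M ^ 2 * CS ^ 2 / μ * N ^ 4 := by gcongr
        have j2 : 8 * M ^ 2 * CS ^ 2 / (c ^ 2 * μ) * N ^ 2 ≤ 8 * M ^ 2 * CS ^ 2 / (c ^ 2 * μ) * N ^ 4 := by gcongr
        have j3 : 0 ≤ h ^ 2 := sq_nonneg h
        refine mul_le_mul_of_nonneg_right ?_ j3
        linarith
      calc _ ≤ (R1 * c) * N ^ 4 * h ^ 2 * (1 / (c * N ^ 2)) := by
            have : 0 ≤ ∫ s in (0 : ℝ)..t, ex c N s :=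
              intervalIntegral.integral_nonneg ht fun r _ => (hex0 r).le
            exact mul_le_mul hB' hIex this (by positivity)
        _ = _ := by field_simp
    rw [hsum]
    linarith
  have hyt : ‖D.ι (z (t + h) - z t)‖ ^ 2 = y t := by rw [hy, hZdef]
  rw [hyt]
  have hexp : Real.exp (∫ s in (0 : ℝ)..t, L s) ≤ Real.exp LL := Real.exp_le_exp.2 hIL
  have hs1 : y 0 + ∫ s in (0 : ℝ)..t, r s ≤ (C₁ + R1 + R2) * (N ^ 2 + X) * h ^ 2 := by
    have j1 : C₁ * N ^ 2 * h ^ 2 ≤ C₁ * (N ^ 2 + X) * h ^ 2 := by gcongr; linarith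
    have j2 : R1 * N ^ 2 * h ^ 2 ≤ R1 * (N ^ 2 + X) * h ^ 2 := by gcongr; linarith
    have j3 : R2 * X * h ^ 2 ≤ R2 * (N ^ 2 + X) * h ^ 2 := by
      gcongr
      have : 0 ≤ N ^ 2 := sq_nonneg N
      linarith
    linarith
  calc y t ≤ (y 0 + ∫ s in (0 : ℝ)..t, r s) * Real.exp (∫ s in (0 : ℝ)..t, L s) := fin
    _ ≤ ((C₁ + R1 + R2) * (N ^ 2 + X) * h ^ 2) * Real.exp LL := by gcongr
    _ = _ := by ring

end Pool.Agent.NSK
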