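import Pool.Agent.NSK.Abs
import Pool.Agent.NSD.Basic

/-! E3: pointwise bound for `σ(z)`. -/

open MeasureTheory Set Filter Topology
open scoped RealInnerProductSpace

noncomputable section

namespace Pool.Agent.NSK.E3

open Pool.Agent.NSD

section
variable {V K : Type*} [NormedAddCommGroup V] [InnerProductSpace ℝ V]
    [NormedAddCommGroup K] [InnerProductSpace ℝ K]

theorem skew (D : Data V K) (x y z : V) : D.b x y z = - D.b x z y := by
  have h := D.b_skew x (y + z)
  simp only [map_add, add_apply, D.b_skew] at h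
  linarith

/-- Right-hand side of the equation for `z`, tested with `v`. -/
def G (D : Data V K) (η : ℝ) (s₀ : V) (S u P : ℝ → V) (ρ : ℝ → K) (v : V) (t : ℝ) : ℝ :=
  η * D.a (u t - S t - P t) v + D.b (u t) (u t) v - D.b (S t) (S t) v - D.b (P t) (P t) v
    - D.b s₀ (P t) v - D.b (P t) s₀ v + ⟪ρ t, D.ι v⟫

theorem G_cont (D : Data V K) (η : ℝ) (s₀ : V) (S u P : ℝ → V) (ρ : ℝ → K) (v : V)
    (hS : ContinuousOn S (Ici 0)) (hu : ContinuousOn u (Ici 0)) (hP : ContinuousOn P (Ici 0))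
    (hρ : ContinuousOn ρ (Ici 0)) : ContinuousOn (G D η s₀ S u P ρ v) (Ici 0) := by
  have hb : ∀ x y : ℝ → V, ContinuousOn x (Ici 0) → ContinuousOn y (Ici 0) →
      ContinuousOn (fun t => D.b (x t) (y t) v) (Ici 0) := by
    intro x y hx hy
    exact ((D.b.continuous.comp_continuousOn hx).clm_apply hy).clm_apply continuousOn_const
  have ha : ContinuousOn (fun t => D.a (u t - S t - P t) v) (Ici 0) :=
    (D.a.continuous.comp_continuousOn ((hu.sub hS).sub hP)).clm_apply continuousOn_const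
  have hr : ContinuousOn (fun t => ⟪ρ t, D.ι v⟫) (Ici 0) := hρ.inner continuousOn_const
  exact ((((((continuousOn_const.mul ha).add (hb u u hu hu)).sub (hb S S hS hS)).sub
    (hb P P hP hP)).sub (hb (fun _ => s₀) P continuousOn_const hP)).sub
    (hb P (fun _ => s₀) hP continuousOn_const)).add hr

theorem integrated [CompleteSpace V] (D : Data V K) {η M c N τ : ℝ} {f : ℝ → (V →L[ℝ] ℝ)}
    {S W u w P P' : ℝ → V} {ρ : ℝ → K} (hS : SolOn D η f τ S W) (hu : SolOn D η f τ u w)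
    (hL : Layer D η M c N (S 0) P P' ρ) (v : V) {s t : ℝ} (hs : 0 ≤ s) (hst : s ≤ t) (ht : t ≤ τ) :
    ⟪D.ι ((u t - S t - P t) - (u s - S s - P s)), D.ι v⟫
      = - ∫ r in s..t, G D η (S 0) S u P ρ v r := by
  have ht0 : 0 ≤ t := hs.trans hst
  set L : V →L[ℝ] ℝ := (innerSL ℝ (D.ι v)).comp D.ι with hLdef
  have hLa : ∀ x, L x = ⟪D.ι x, D.ι v⟫ := by
    intro x
    simp only [hLdef, ContinuousLinearMap.comp_apply, innerSL_apply_apply]
    exact real_inner_comm _ _
  have hcP : ContinuousOn P (Ici 0) := fun x hx => (hL.deriv x hx).continuousWithinAt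
  have iu := hu.h1.intervalIntegrable hs ht0
  have iS := hS.h1.intervalIntegrable hs ht0
  have iP : IntervalIntegrable P' volume s t := by
    refine (hL.contP'.mono ?_).intervalIntegrable
    rw [uIcc_of_le hst]
    exact fun x hx => hs.trans hx.1
  have eu : u t - u s = ∫ r in s..t, w r := hu.h1.sub_eq hs ht0
  have eS : S t - S s = ∫ r in s..t, W r := hS.h1.sub_eq hs ht0
  have eP : P t - P s = ∫ r in s..t, P' r := by
    symm
    refine intervalIntegral.integral_eq_sub_of_hasDeriv_right (hcP.mono ?_) ?_ iP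
    · rw [uIcc_of_le hst]
      exact fun x hx => hs.trans hx.1
    · intro x hx
      rw [min_eq_left hst] at hx
      exact (hL.deriv x (hs.trans hx.1.le)).mono (fun y hy => (hs.trans hx.1.le).trans (le_of_lt hy))
  have e1 : (u t - S t - P t) - (u s - S s - P s) = ∫ r in s..t, (w r - W r - P' r) := by
    rw [intervalIntegral.integral_sub (iu.sub iS) iP, intervalIntegral.integral_sub iu iS, ← eu, ← eS, ← eP]
    abel
  have iz : IntervalIntegrable (fun r => w r - W r - P' r) volume s t := (iu.sub iS).sub iP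
  rw [← hLa, e1, ← L.intervalIntegral_comp_comm iz, ← intervalIntegral.integral_neg]
  have hae : ∀ᵐ r ∂(volume.restrict (Ioc s t)), L (w r - W r - P' r) = - G D η (S 0) S u P ρ v r := by
    have h1 := ae_restrict_of_ae_restrict_of_subset (Ioc_subset_Ioc hs ht) hu.eq
    have h2 := ae_restrict_of_ae_restrict_of_subset (Ioc_subset_Ioc hs ht) hS.eq
    filter_upwards [h1, h2, ae_restrict_mem measurableSet_Ioc] with r hr1 hr2 hr3
    have h3 := hL.eq r (hs.trans hr3.1.le) v
    have h1' := hr1 v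
    have h2' := hr2 v
    rw [map_sub, map_sub, hLa, hLa, hLa]
    unfold G
    simp only [map_sub, sub_apply]
    linarith
  rw [intervalIntegral.integral_of_le hst, intervalIntegral.integral_of_le hst]
  exact integral_congr_ae hae

theorem norm_dS [CompleteSpace V] (D : Data V K) {S W : ℝ → V} {t C : ℝ} (hS : IsH1loc S W) (ht : 0 ≤ t)
    (h : ∀ᵐ r ∂(volume.restrict (Ioc 0 t)), ‖D.ι (W r)‖ ≤ C) : ‖D.ι (S t - S 0)‖ ≤ C * t := by
  set x := S t - S 0 with hx
  set L : V →L[ℝ] ℝ := (innerSL ℝ (D.ι x)).comp D.ι with hLdef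
  have hLa : ∀ y, L y = ⟪D.ι x, D.ι y⟫ := by
    intro y
    simp only [hLdef, ContinuousLinearMap.comp_apply, innerSL_apply_apply]
  have hi := hS.intervalIntegrable le_rfl ht
  have e1 : ‖D.ι x‖ ^ 2 = ∫ r in (0 : ℝ)..t, L (W r) := by
    rw [L.intervalIntegral_comp_comm hi, ← hS.sub_eq le_rfl ht, hLa, ← hx, real_inner_self_eq_norm_sq]
  have e2 : ∫ r in (0 : ℝ)..t, L (W r) ≤ ∫ r in (0 : ℝ)..t, ‖D.ι x‖ * C := by
    rw [intervalIntegral.integral_of_le ht, intervalIntegral.integral_of_le ht]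
    have hi' : Integrable W (volume.restrict (Ioc 0 t)) := by
      have := (intervalIntegrable_iff_integrableOn_Ioc_of_le ht).1 hi
      exact this
    refine integral_mono_ae (L.integrable_comp hi') (integrable_const _) ?_
    filter_upwards [h] with r hr
    simp only [hLa]
    exact (real_inner_le_norm _ _).trans (mul_le_mul_of_nonneg_left hr (norm_nonneg _))
  rw [intervalIntegral.integral_const, smul_eq_mul, sub_zero] at e2
  rw [← e1] at e2
  rcases eq_or_lt_of_le (norm_nonneg (D.ι x)) with h0 | h0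
  · rw [← h0]
    rcases eq_or_lt_of_le ht with h1 | h1
    · rw [← h1]; simp
    · have hC : 0 ≤ C := by
        by_contra hC
        push Not at hC
        have : ∀ᵐ r ∂(volume.restrict (Ioc 0 t)), False := by
          filter_upwards [h] with r hr
          linarith [norm_nonneg (D.ι (W r))]
        rw [ae_restrict_iff' measurableSet_Ioc] at this
        have h2 : volume (Ioc (0 : ℝ) t) = 0 := by
          refine measure_mono_null ?_ this
          intro y hy
          simpa using hy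
        rw [Real.volume_Ioc, ENNReal.ofReal_eq_zero] at h2
        linarith
      positivity
  · nlinarith

/-- The algebraic identity at the diagonal. -/
theorem G_diag (D : Data V K) (η : ℝ) (s₀ : V) (S u P : ℝ → V) (ρ : ℝ → K) (t : ℝ) :
    G D η s₀ S u P ρ (u t - S t - P t) t
      = η * D.sig (u t - S t - P t) ^ 2
        + D.b (u t - S t - P t) (S t) (u t - S t - P t)
        + D.b (u t - S t - P t) (P t) (u t - S t - P t)
        + D.b (S t - s₀) (P t) (u t - S t - P t)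
        + D.b (P t) (S t - s₀) (u t - S t - P t) + ⟪ρ t, D.ι (u t - S t - P t)⟫ := by
  unfold G
  set z := u t - S t - P t with hz
  have hu : u t = z + S t + P t := by rw [hz]; abel
  rw [hu, D.sig_sq]
  simp only [map_add, map_sub, add_apply, sub_apply, D.b_skew]
  ring

theorem le_of_integral_le {g : ℝ → ℝ} {t B : ℝ} (hg : ContinuousOn g (Ici 0)) (ht : 0 < t)
    (h : ∀ h : ℝ, 0 < h → h ≤ 1 → h ≤ t → ∫ r in (t - h)..t, g r ≤ B * h) : g t ≤ B := by
  by_contra hlt
  push Not at hlt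
  obtain ⟨B', hB1, hB2⟩ := exists_between hlt
  have hc : ContinuousWithinAt g (Ici 0) t := hg t ht.le
  have hev : ∀ᶠ x in 𝓝[Ici 0] t, B' < g x := hc.eventually (lt_mem_nhds hB2)
  rw [Metric.nhdsWithin_basis_ball.eventually_iff] at hev
  obtain ⟨δ, hδ, hball⟩ := hev
  set h' := min (min (δ / 2) 1) t with hh'
  have hpos : 0 < h' := lt_min (lt_min (by linarith) one_pos) ht
  have h1 : h' ≤ 1 := (min_le_left _ _).trans (min_le_right _ _)
  have h2 : h' ≤ t := min_le_right _ _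
  have h3 : h' ≤ δ / 2 := (min_le_left _ _).trans (min_le_left _ _)
  have hi := h h' hpos h1 h2
  have hlow : ∫ r in (t - h')..t, B' ≤ ∫ r in (t - h')..t, g r := by
    refine intervalIntegral.integral_mono_on (by linarith) intervalIntegrable_const ?_ ?_
    · refine (hg.mono ?_).intervalIntegrable
      rw [uIcc_of_le (by linarith)]
      intro x hx
      exact (sub_nonneg.2 h2).trans hx.1
    · intro x hx
      refine (hball ⟨?_, ?_⟩).le
      · rw [Metric.mem_ball, Real.dist_eq, abs_lt]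
        constructor <;> linarith [hx.1, hx.2]
      · exact (sub_nonneg.2 h2).trans hx.1
  rw [intervalIntegral.integral_const, smul_eq_mul] at hlow
  have : (t - (t - h')) * B' = h' * B' := by ring
  rw [this] at hlow
  nlinarith

end

/-- The elementary final inequality. -/
theorem final_ineq {η s N X C₁ C₂ M Q K2 : ℝ} (hη : 0 < η) (hN : 1 ≤ N)
    (hM : 0 ≤ M) (hK2 : 0 ≤ K2)
    (h : η * s ^ 2 ≤ √C₂ * √C₁ * (1 + √X / N) + η / 8 * s ^ 2 + K2 + Q * s + M * √C₁) :
    s ^ 2 ≤ (K2 + M * √C₁ + 2 * Q ^ 2 / η + √C₂ * √C₁) * (2 / η) * (1 + √X / N) := by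
  have hY : 0 ≤ √X / N := div_nonneg (Real.sqrt_nonneg _) (by linarith)
  set Y := √X / N
  have hQ : Q * s ≤ η / 8 * s ^ 2 + 2 * Q ^ 2 / η := by
    have : 0 ≤ (η * s - 4 * Q) ^ 2 / (8 * η) := by positivity
    have e : (η * s - 4 * Q) ^ 2 / (8 * η) = η / 8 * s ^ 2 + 2 * Q ^ 2 / η - Q * s := by
      field_simp
      ring
    linarith
  have h1 : 0 ≤ M * √C₁ := mul_nonneg hM (Real.sqrt_nonneg _)
  have h2 : 0 ≤ √C₂ * √C₁ := mul_nonneg (Real.sqrt_nonneg _) (Real.sqrt_nonneg _)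
  have h3 : 0 ≤ 2 * Q ^ 2 / η := by positivity
  have h4 : (η / 2) * s ^ 2 ≤ (K2 + M * √C₁ + 2 * Q ^ 2 / η + √C₂ * √C₁) * (1 + Y) := by
    have : 0 ≤ η * s ^ 2 := by positivity
    nlinarith [mul_nonneg hK2 hY, mul_nonneg h1 hY, mul_nonneg h2 hY, mul_nonneg h3 hY]
  calc s ^ 2 = (2 / η) * ((η / 2) * s ^ 2) := by field_simp
    _ ≤ (2 / η) * ((K2 + M * √C₁ + 2 * Q ^ 2 / η + √C₂ * √C₁) * (1 + Y)) :=
        mul_le_mul_of_nonneg_left h4 (by positivity)
    _ = _ := by ring

end Pool.Agent.NSK.E3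

namespace Pool.Agent.NSK

open Pool.Agent.NSD E3

theorem e3_proof (hE1 : Stmt_E1) (hE2 : Stmt_E2) : Stmt_E3 := by
  intro V K _ _ _ _ _ D η M c CS hη hM hc hCS
  obtain ⟨C₁, hC₁, H1⟩ := hE1 V K D η M c CS hη hM hc hCS
  obtain ⟨C₂, hC₂, H2⟩ := hE2 V K D η M c CS hη hM hc hCS
  set K2 : ℝ := D.CY / (η / 8) ^ 3 * CS ^ 4 * C₁ with hK2
  have hK2n : 0 ≤ K2 := by
    have := D.CY_nonneg
    positivity
  set Q : ℝ := M * √C₁ + 2 * (M * CS / c) with hQ
  refine ⟨(K2 + M * √C₁ + 2 * Q ^ 2 / η + √C₂ * √C₁) * (2 / η), by positivity, ?_⟩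
  intro N τ X f S W u w P P' ρ hN hτ hS hBd hu hL h0 hX hXN hXb t ht
  obtain ⟨hz1, hz2⟩ := H1 N τ f S W u w P P' ρ hN hτ hS hBd hu hL h0
  have hN0 : 0 < N := by linarith
  rcases eq_or_lt_of_le ht.1 with h00 | htpos
  · -- `t = 0`
    have hz0 : u t - S t - P t = 0 := by rw [← h00, h0]; abel
    have : D.sig (u t - S t - P t) = 0 := by
      rw [hz0]; unfold Data.sig; simp
    rw [this]
    have hY : 0 ≤ √X / N := div_nonneg (Real.sqrt_nonneg _) (by linarith)
    rw [zero_pow two_ne_zero]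
    positivity
  set z := u t - S t - P t with hz
  -- bounds for `ι z`
  have hA2 : ‖D.ι z‖ ^ 2 ≤ C₁ / N ^ 2 := by
    have h1 := hz1 t ht
    have h2 : 0 ≤ η * ∫ s in (0 : ℝ)..t, D.sig (u s - S s - P s) ^ 2 :=
      mul_nonneg hη.le (intervalIntegral.integral_nonneg ht.1 fun _ _ => sq_nonneg _)
    linarith
  have hA : N * ‖D.ι z‖ ≤ √C₁ := by
    refine Real.le_sqrt_of_sq_le ?_
    rw [mul_pow]
    calc N ^ 2 * ‖D.ι z‖ ^ 2 ≤ N ^ 2 * (C₁ / N ^ 2) := mul_le_mul_of_nonneg_left hA2 (sq_nonneg _)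
      _ = C₁ := by field_simp
  have hA1 : ‖D.ι z‖ ^ 2 ≤ C₁ := hA2.trans (div_le_self hC₁ (by nlinarith))
  have hs0 : 0 ≤ D.sig z := D.sig_nonneg z
  -- the exponential weight
  have hE0 : 0 ≤ ex c N t := (Real.exp_pos _).le
  have hEl : ex c N t ≤ 1 := by
    unfold ex
    rw [Real.exp_le_one_iff]
    have : 0 ≤ c * N ^ 2 * t := by positivity
    linarith
  have hNtE : N * t * ex c N t ≤ 1 / c := by
    have h1 : c * N ^ 2 * t ≤ Real.exp (c * N ^ 2 * t) := by
      have := Real.add_one_le_exp (c * N ^ 2 * t)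
      linarith
    have h2 : c * N ^ 2 * t * ex c N t ≤ 1 := by
      unfold ex
      rw [Real.exp_neg]
      rw [← div_eq_mul_inv, div_le_one (Real.exp_pos _)]
      exact h1
    have h3 : N * t * ex c N t ≤ N ^ 2 * t * ex c N t := by
      have : N * (t * ex c N t) ≤ N ^ 2 * (t * ex c N t) :=
        mul_le_mul_of_nonneg_right (by nlinarith) (mul_nonneg ht.1 hE0)
      nlinarith [this]
    rw [le_div_iff₀ hc]
    nlinarith
  -- `dS`
  have hdS : ‖D.ι (S t - S 0)‖ ≤ CS * t := by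
    exact norm_dS D hS.h1 ht.1 (ae_restrict_of_ae_restrict_of_subset (Ioc_subset_Ioc le_rfl ht.2) hBd.iW)
  have hcu := hu.h1.continuousOn
  have hcS := hS.h1.continuousOn
  have hcP : ContinuousOn P (Ici 0) := fun x hx => (hL.deriv x hx).continuousWithinAt
  have hG : G D η (S 0) S u P ρ z t ≤ √(C₂ * (N ^ 2 + X)) * ‖D.ι z‖ := by
    refine le_of_integral_le (G_cont D η (S 0) S u P ρ z hcS hcu hcP hL.contρ) htpos ?_
    intro h hh h1 h2
    have e := integrated D hS hu hL z (s := t - h) (t := t) (by linarith) (by linarith) ht.2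
    have d := H2 N τ X f S W u w P P' ρ hN hτ hS hBd hu hL h0 hX hXN hXb (t - h) h
      (by linarith) hh.le h1 (by linarith [ht.2])
    rw [sub_add_cancel] at d
    have d' : ‖D.ι ((u t - S t - P t) - (u (t - h) - S (t - h) - P (t - h)))‖ ≤ √(C₂ * (N ^ 2 + X)) * h := by
      have e3 : √(C₂ * (N ^ 2 + X)) * h = √(C₂ * (N ^ 2 + X) * h ^ 2) := by
        rw [Real.sqrt_mul (x := C₂ * (N ^ 2 + X)) (by positivity), Real.sqrt_sq hh.le]
      rw [e3]
      exact Real.le_sqrt_of_sq_le d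
    have e2 := abs_real_inner_le_norm (D.ι ((u t - S t - P t) - (u (t - h) - S (t - h) - P (t - h)))) (D.ι z)
    rw [e, abs_neg] at e2
    calc ∫ r in (t - h)..t, G D η (S 0) S u P ρ z r ≤ |∫ r in (t - h)..t, G D η (S 0) S u P ρ z r| := le_abs_self _
      _ ≤ _ := e2
      _ ≤ √(C₂ * (N ^ 2 + X)) * h * ‖D.ι z‖ := mul_le_mul_of_nonneg_right d' (norm_nonneg _)
      _ = _ := by ring
  have hG2 : √(C₂ * (N ^ 2 + X)) * ‖D.ι z‖ ≤ √C₂ * √C₁ * (1 + √X / N) := by
    have h1 : √(N ^ 2 + X) ≤ N + √X := by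
      rw [Real.sqrt_le_left (by positivity)]
      have := Real.sq_sqrt hX
      have := Real.sqrt_nonneg X
      nlinarith
    rw [Real.sqrt_mul hC₂]
    have h2 : √(N ^ 2 + X) * ‖D.ι z‖ ≤ √C₁ * (1 + √X / N) := by
      calc √(N ^ 2 + X) * ‖D.ι z‖ ≤ (N + √X) * ‖D.ι z‖ := mul_le_mul_of_nonneg_right h1 (norm_nonneg _)
        _ = (N * ‖D.ι z‖) * (1 + √X / N) := by field_simp
        _ ≤ √C₁ * (1 + √X / N) := mul_le_mul_of_nonneg_right hA (by positivity)
    calc √C₂ * √(N ^ 2 + X) * ‖D.ι z‖ = √C₂ * (√(N ^ 2 + X) * ‖D.ι z‖) := by ring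
      _ ≤ √C₂ * (√C₁ * (1 + √X / N)) := mul_le_mul_of_nonneg_left h2 (Real.sqrt_nonneg _)
      _ = _ := by ring
  rw [hz, G_diag, ← hz] at hG
  -- the five terms
  have t1 : |D.b z (S t) z| ≤ η / 8 * D.sig z ^ 2 + K2 := by
    have h1 := D.b_young (η / 8) (by positivity) (S t) z
    have h2 : D.a (S t) (S t) ^ 2 ≤ CS ^ 4 := by
      rw [← D.sig_sq]
      have := hBd.sig t ht
      have h3 := D.sig_nonneg (S t)
      calc (D.sig (S t) ^ 2) ^ 2 = D.sig (S t) ^ 4 := by ring
        _ ≤ CS ^ 4 := pow_le_pow_left₀ h3 this 4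
    rw [D.sig_sq]
    refine h1.trans ?_
    have h4 : D.CY / (η / 8) ^ 3 * D.a (S t) (S t) ^ 2 * ‖D.ι z‖ ^ 2 ≤ K2 := by
      rw [hK2]
      have := D.CY_nonneg
      gcongr
    linarith
  have hstar := hL.star t ht.1
  have hm : M * N * ex c N t * ‖D.ι z‖ ≤ M * √C₁ := by
    calc M * N * ex c N t * ‖D.ι z‖ = M * (N * ‖D.ι z‖) * ex c N t := by ring
      _ ≤ M * √C₁ * 1 := by gcongr
      _ = _ := by ring
  have hmS : M * N * ex c N t * ‖D.ι (S t - S 0)‖ ≤ M * CS / c := by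
    calc M * N * ex c N t * ‖D.ι (S t - S 0)‖ ≤ M * N * ex c N t * (CS * t) := by gcongr
      _ = M * CS * (N * t * ex c N t) := by ring
      _ ≤ M * CS * (1 / c) := by gcongr
      _ = _ := by ring
  have t2 : |D.b z (P t) z| ≤ M * √C₁ * D.sig z := by
    rw [skew, abs_neg]
    exact ((hstar z z).1).trans (mul_le_mul_of_nonneg_right hm hs0)
  have t3 : |D.b (S t - S 0) (P t) z| ≤ M * CS / c * D.sig z := by
    rw [skew, abs_neg]
    exact ((hstar (S t - S 0) z).1).trans (mul_le_mul_of_nonneg_right hmS hs0)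
  have t4 : |D.b (P t) (S t - S 0) z| ≤ M * CS / c * D.sig z := by
    rw [skew, abs_neg]
    exact ((hstar (S t - S 0) z).2).trans (mul_le_mul_of_nonneg_right hmS hs0)
  have t5 : |⟪ρ t, D.ι z⟫| ≤ M * √C₁ := by
    refine (abs_real_inner_le_norm _ _).trans ?_
    exact (mul_le_mul_of_nonneg_right (hL.rho t ht.1) (norm_nonneg _)).trans hm
  refine final_ineq hη hN hM hK2n ?_
  have a1 := (abs_le.1 t1).1
  have a2 := (abs_le.1 t2).1
  have a3 := (abs_le.1 t3).1
  have a4 := (abs_le.1 t4).1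
  have a5 := (abs_le.1 t5).1
  have hQs : Q * D.sig z = M * √C₁ * D.sig z + 2 * (M * CS / c * D.sig z) := by rw [hQ]; ring
  linarith

end Pool.Agent.NSK
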