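import Pool.Agent.NSK.Boot

/-!
# MP_fd8964_an, weak density: common lemmas for the modules E1, E2, E3, Smooth, Small

* `b_swap`, `StarBd.b1 .. b4`: the four ways to use `StarBd`;
* `young_b`, `two_mul_le`: Young inequalities;
* `isH1loc_sub`, `isH1loc_shift`, `Layer.isH1loc`, `z_isH1loc`;
* `norm_sub_le_on`, `sig_incr_sq_le`, `int_incr_le`: increments;
* `eqE0`: the equation for `z = u - S - P`;
* `int_ex_le`, `int_ex_sq_le`, `int_sq_ex_sq_le`: integrals of exponentials.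
-/

open MeasureTheory Set Filter Topology
open scoped RealInnerProductSpace

noncomputable section

namespace Pool.Agent.NSK

open Pool.Agent.NSD

/-! ### The trilinear form -/

section
variable {V K : Type*} [NormedAddCommGroup V] [InnerProductSpace ℝ V]
    [NormedAddCommGroup K] [InnerProductSpace ℝ K]

theorem b_swap (D : Data V K) (x y z : V) : D.b x y z = - D.b x z y := by
  have h := D.b_skew x (y + z)
  simp only [map_add, add_apply, D.b_skew] at h
  linarith

theorem StarBd.b1 {D : Data V K} {p : V} {m : ℝ} (h : StarBd D p m) (x y : V) :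
    |D.b x y p| ≤ m * ‖D.ι x‖ * D.sig y := (h x y).1

theorem StarBd.b2 {D : Data V K} {p : V} {m : ℝ} (h : StarBd D p m) (x y : V) :
    |D.b p y x| ≤ m * ‖D.ι x‖ * D.sig y := (h x y).2

theorem StarBd.b3 {D : Data V K} {p : V} {m : ℝ} (h : StarBd D p m) (x y : V) :
    |D.b x p y| ≤ m * ‖D.ι x‖ * D.sig y := by
  rw [b_swap, abs_neg]; exact (h x y).1

theorem StarBd.b4 {D : Data V K} {p : V} {m : ℝ} (h : StarBd D p m) (x y : V) :
    |D.b p x y| ≤ m * ‖D.ι x‖ * D.sig y := by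
  rw [b_swap, abs_neg]; exact (h x y).2

/-- `2 m a s ≤ η s² + m² a² / η`. -/
theorem two_mul_le {η : ℝ} (hη : 0 < η) (m a s : ℝ) :
    2 * (m * a * s) ≤ η * s ^ 2 + 1 / η * m ^ 2 * a ^ 2 := by
  have h : 0 ≤ (η * s - m * a) ^ 2 / η := by positivity
  have e : (η * s - m * a) ^ 2 / η = η * s ^ 2 + 1 / η * m ^ 2 * a ^ 2 - 2 * (m * a * s) := by
    field_simp
    ring
  linarith

/-- Young inequality for `b`. -/
theorem young_b (D : Data V K) {η : ℝ} (hη : 0 < η) (w u : V) :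
    2 * |D.b w u w| ≤ η * D.sig w ^ 2 + 16 * D.CY / η ^ 3 * D.sig u ^ 4 * ‖D.ι w‖ ^ 2 := by
  have h := D.b_young (η / 2) (by positivity) u w
  have e1 := D.sig_sq w
  have e2 := D.sig_sq u
  have e3 : D.sig u ^ 4 = (D.a u u) ^ 2 := by rw [← e2]; ring
  rw [e1, e3]
  have e4 : D.CY / (η / 2) ^ 3 = 8 * D.CY / η ^ 3 := by field_simp; ring
  rw [e4] at h
  have e5 : 16 * D.CY / η ^ 3 = 2 * (8 * D.CY / η ^ 3) := by ring
  rw [e5]
  nlinarith

end

/-! ### `H¹_loc` functions -/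

section
variable {X : Type*} [NormedAddCommGroup X] [NormedSpace ℝ X]

theorem isH1loc_sub {f f₁ g g₁ : ℝ → X} (hf : IsH1loc f f₁) (hg : IsH1loc g g₁) :
    IsH1loc (fun t => f t - g t) (fun t => f₁ t - g₁ t) := by
  refine ⟨fun T => (hf.memLp T).sub (hg.memLp T), fun t ht => ?_⟩
  rw [intervalIntegral.integral_sub (hf.intervalIntegrable le_rfl ht)
    (hg.intervalIntegrable le_rfl ht)]
  have e1 := hf.eq t ht
  have e2 := hg.eq t ht
  rw [e1, e2]
  abel

theorem isH1loc_shift {f f₁ : ℝ → X} (hf : IsH1loc f f₁) {h : ℝ} (hh : 0 ≤ h) :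
    IsH1loc (fun t => f (t + h)) (fun t => f₁ (t + h)) := by
  refine ⟨fun T => ?_, fun t ht => ?_⟩
  · have h1 : MemLp f₁ 2 (volume.restrict (Ioc h (T + h))) :=
      (hf.memLp (T + h)).mono_measure (Measure.restrict_mono (Ioc_subset_Ioc_left hh) le_rfl)
    have h2 : MeasurePreserving (fun t : ℝ => t + h) (volume.restrict (Ioc 0 T))
        (volume.restrict (Ioc h (T + h))) := by
      have h3 := (measurePreserving_add_right (volume : Measure ℝ) h).restrict_preimage
        (measurableSet_Ioc (a := h) (b := T + h))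
      have h4 : (fun t : ℝ => t + h) ⁻¹' Ioc h (T + h) = Ioc 0 T := by
        ext t
        simp only [mem_preimage, mem_Ioc]
        constructor
        · rintro ⟨a, b⟩; exact ⟨by linarith, by linarith⟩
        · rintro ⟨a, b⟩; exact ⟨by linarith, by linarith⟩
      rwa [h4] at h3
    exact h1.comp_measurePreserving h2
  · have h1 := hf.sub_eq hh (by linarith : 0 ≤ t + h)
    rw [intervalIntegral.integral_comp_add_right (fun s => f₁ s) h, zero_add, ← h1]
    abel

theorem isH1loc_of_deriv [CompleteSpace X] {f f₁ : ℝ → X}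
    (hd : ∀ t, 0 ≤ t → HasDerivWithinAt f (f₁ t) (Ici 0) t) (hc : ContinuousOn f₁ (Ici 0)) :
    IsH1loc f f₁ := by
  refine ⟨fun T => ?_, fun t ht => ?_⟩
  · obtain ⟨M, hM⟩ := (isCompact_Icc (a := (0 : ℝ)) (b := T)).exists_bound_of_continuousOn
      (hc.mono Icc_subset_Ici_self)
    refine MemLp.of_bound (((hc.mono Icc_subset_Ici_self).mono
      Ioc_subset_Icc_self).aestronglyMeasurable measurableSet_Ioc) M ?_
    exact (ae_restrict_iff' measurableSet_Ioc).2
      (Eventually.of_forall fun x hx => hM x (Ioc_subset_Icc_self hx))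
  · have h1 : ∫ s in (0 : ℝ)..t, f₁ s = f t - f 0 := by
      refine intervalIntegral.integral_eq_sub_of_hasDeriv_right_of_le ht ?_ (fun x hx => ?_) ?_
      · exact fun s hs => ((hd s hs.1).continuousWithinAt).mono Icc_subset_Ici_self
      · exact (hd x hx.1.le).mono (fun s hs => hx.1.le.trans (le_of_lt hs))
      · exact ContinuousOn.intervalIntegrable_of_Icc ht (hc.mono Icc_subset_Ici_self)
    rw [h1]; abel

end

section
variable {V K : Type*} [NormedAddCommGroup V] [InnerProductSpace ℝ V]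
    [NormedAddCommGroup K] [InnerProductSpace ℝ K]

theorem Layer.isH1loc [CompleteSpace V] {D : Data V K} {η M c N : ℝ} {s₀ : V} {P P' : ℝ → V}
    {ρ : ℝ → K} (h : Layer D η M c N s₀ P P' ρ) : IsH1loc P P' :=
  isH1loc_of_deriv h.deriv h.contP'

/-- `z = u - S - P` is in `H¹_loc`. -/
theorem z_isH1loc [CompleteSpace V] {D : Data V K} {η M c N T : ℝ} {f : ℝ → (V →L[ℝ] ℝ)}
    {S W u w P P' : ℝ → V} {ρ : ℝ → K} {s₀ : V} (hS : SolOn D η f T S W) (hu : SolOn D η f T u w)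
    (hL : Layer D η M c N s₀ P P' ρ) :
    IsH1loc (fun t => u t - S t - P t) (fun t => w t - W t - P' t) :=
  isH1loc_sub (isH1loc_sub hu.h1 hS.h1) hL.isH1loc

/-- The equation (E0) of `z = u - S - P`. -/
theorem eqE0 {D : Data V K} {η M c N T : ℝ} {f : ℝ → (V →L[ℝ] ℝ)}
    {S W u w P P' : ℝ → V} {ρ : ℝ → K} (hS : SolOn D η f T S W) (hu : SolOn D η f T u w)
    (hL : Layer D η M c N (S 0) P P' ρ) :
    ∀ᵐ t ∂(volume.restrict (Ioc 0 T)), ∀ v,
      ⟪D.ι (w t - W t - P' t), D.ι v⟫ + η * D.a (u t - S t - P t) v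
        + D.b (u t - S t - P t) (u t) v + D.b (S t + P t) (u t - S t - P t) v
        + D.b (S t - S 0) (P t) v + D.b (P t) (S t - S 0) v = - ⟪ρ t, D.ι v⟫ := by
  filter_upwards [hS.eq, hu.eq, ae_restrict_mem measurableSet_Ioc] with t h1 h2 ht v
  have e1 := h1 v
  have e2 := h2 v
  have e3 := hL.eq t ht.1.le v
  simp only [map_sub, map_add, sub_apply, add_apply,
    inner_sub_left] at e1 e2 e3 ⊢
  linarith

/-- Increments on a bounded interval. -/
theorem norm_sub_le_on [CompleteSpace V] {ι : V →L[ℝ] K} {x x₁ : ℝ → V} (h : IsH1loc x x₁)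
    {T C : ℝ} (hC0 : 0 ≤ C) (hC : ∀ᵐ t ∂(volume.restrict (Ioc 0 T)), ‖ι (x₁ t)‖ ≤ C)
    {s t : ℝ} (hs : 0 ≤ s) (hst : s ≤ t) (htT : t ≤ T) : ‖ι (x t - x s)‖ ≤ C * (t - s) := by
  have ht0 := hs.trans hst
  set v := x t - x s with hv
  let L : V →L[ℝ] ℝ := (innerSL ℝ (ι v)).comp ι
  have hL : ∀ y, L y = ⟪ι v, ι y⟫ := fun y => rfl
  have h1 : L v = ∫ r in s..t, L (x₁ r) := by
    rw [ContinuousLinearMap.intervalIntegral_comp_comm L (h.intervalIntegrable hs ht0),
      ← h.sub_eq hs ht0]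
  have h3 : ∀ᵐ r ∂volume, r ∈ uIoc s t → ‖L (x₁ r)‖ ≤ ‖ι v‖ * C := by
    rw [ae_restrict_iff' measurableSet_Ioc] at hC
    filter_upwards [hC] with r hr hr'
    rw [uIoc_of_le hst] at hr'
    rw [hL]
    refine (norm_inner_le_norm _ _).trans ?_
    exact mul_le_mul_of_nonneg_left (hr ⟨lt_of_le_of_lt hs hr'.1, hr'.2.trans htT⟩)
      (norm_nonneg _)
  have h2 := intervalIntegral.norm_integral_le_of_norm_le_const_ae h3
  rw [← h1, abs_of_nonneg (by linarith : 0 ≤ t - s), hL, real_inner_self_eq_norm_sq, norm_pow,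
    norm_norm] at h2
  rcases eq_or_lt_of_le (norm_nonneg (ι v)) with h0 | h0
  · rw [← h0]
    exact mul_nonneg hC0 (by linarith)
  · have : ‖ι v‖ * ‖ι v‖ ≤ ‖ι v‖ * (C * (t - s)) := by nlinarith
    exact le_of_mul_le_mul_left this h0

/-- `|S(t) - S(0)| ≤ C t`. -/
theorem BdOn.dS_le [CompleteSpace V] {D : Data V K} {C T : ℝ} {S W : ℝ → V} (h : IsH1loc S W)
    (hb : BdOn D C T S W) (hC : 0 ≤ C) {t : ℝ} (ht : 0 ≤ t) (htT : t ≤ T) :
    ‖D.ι (S t - S 0)‖ ≤ C * t := by
  have := norm_sub_le_on h hC hb.iW le_rfl ht htT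
  rwa [sub_zero] at this

/-- `σ(x(t) - x(s))² ≤ (t - s) ∫ₛᵗ σ(x')²`. -/
theorem sig_incr_sq_le [CompleteSpace V] (D : Data V K) {x x₁ : ℝ → V} (h : IsH1loc x x₁)
    {s t : ℝ} (hs : 0 ≤ s) (hst : s ≤ t) :
    D.sig (x t - x s) ^ 2 ≤ (t - s) * ∫ r in s..t, D.sig (x₁ r) ^ 2 := by
  rcases eq_or_lt_of_le hst with h0 | h0
  · subst h0
    simp [Data.sig]
  set v := x t - x s with hv
  have ht0 := hs.trans hst
  have hδ : 0 < t - s := by linarith
  have hint := intervalIntegrable_sig_sq h D hs hst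
  let L : V →L[ℝ] ℝ := D.a v
  have h1 : L v = ∫ r in s..t, L (x₁ r) := by
    rw [ContinuousLinearMap.intervalIntegral_comp_comm L (h.intervalIntegrable hs ht0),
      ← h.sub_eq hs ht0]
  have hLi : IntervalIntegrable (fun r => L (x₁ r)) volume s t := by
    have := h.intervalIntegrable hs ht0
    rw [intervalIntegrable_iff] at this ⊢
    exact L.integrable_comp this
  have h2 : ∫ r in s..t, L (x₁ r) ≤
      ∫ r in s..t, ((t - s) / 2 * D.sig (x₁ r) ^ 2 + 1 / (2 * (t - s)) * D.sig v ^ 2) := by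
    refine intervalIntegral.integral_mono_on hst hLi
      ((hint.const_mul _).add intervalIntegrable_const) (fun r _ => ?_)
    have h3 := (abs_le.1 (D.a_cs v (x₁ r))).2
    have h4 : 0 ≤ ((t - s) * D.sig (x₁ r) - D.sig v) ^ 2 / (2 * (t - s)) := by positivity
    have e : ((t - s) * D.sig (x₁ r) - D.sig v) ^ 2 / (2 * (t - s)) =
        (t - s) / 2 * D.sig (x₁ r) ^ 2 + 1 / (2 * (t - s)) * D.sig v ^ 2
          - D.sig v * D.sig (x₁ r) := by
      field_simp
      ring
    show D.a v (x₁ r) ≤ _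
    linarith
  rw [intervalIntegral.integral_add (hint.const_mul _) intervalIntegrable_const,
    intervalIntegral.integral_const_mul, intervalIntegral.integral_const, smul_eq_mul, ← h1] at h2
  have h5 : L v = D.sig v ^ 2 := by rw [D.sig_sq]
  have h6 : (t - s) * (1 / (2 * (t - s)) * D.sig v ^ 2) = D.sig v ^ 2 / 2 := by
    field_simp
  rw [h5, h6] at h2
  linarith

end

/-- `∫₀ᵀ (∫ₜ^{t+h} g) dt ≤ h ∫₀^{T+h} g` for `g ≥ 0`. -/
theorem int_incr_le {g : ℝ → ℝ} {T h : ℝ} (hT : 0 ≤ T) (hh : 0 ≤ h)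
    (hg : IntervalIntegrable g volume 0 (T + h)) (hg0 : ∀ t, 0 ≤ g t) :
    ∫ t in (0 : ℝ)..T, ∫ r in t..(t + h), g r ≤ h * ∫ r in (0 : ℝ)..(T + h), g r := by
  have hTh : 0 ≤ T + h := by linarith
  set G : ℝ → ℝ := fun t => ∫ r in (0 : ℝ)..t, g r with hG
  have hGc : ContinuousOn G (Icc 0 (T + h)) := by
    have := intervalIntegral.continuousOn_primitive_interval' (a := (0 : ℝ)) (b₁ := 0)
      (b₂ := T + h) hg (by simp)
    rwa [uIcc_of_le hTh] at this
  have hgI : ∀ a b, 0 ≤ a → a ≤ T + h → 0 ≤ b → b ≤ T + h → IntervalIntegrable g volume a b := by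
    intro a b ha ha' hb hb'
    refine hg.mono_set ?_
    rw [uIcc_of_le hTh]
    exact uIcc_subset_Icc ⟨ha, ha'⟩ ⟨hb, hb'⟩
  have hGm : ∀ a b, 0 ≤ a → a ≤ b → b ≤ T + h → G a ≤ G b := by
    intro a b ha hab hb
    have h1 : G b - G a = ∫ r in a..b, g r :=
      intervalIntegral.integral_interval_sub_left (hgI 0 b le_rfl hTh (ha.trans hab) hb)
        (hgI 0 a le_rfl hTh ha (hab.trans hb))
    have h2 : 0 ≤ ∫ r in a..b, g r := intervalIntegral.integral_nonneg hab fun r _ => hg0 r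
    linarith
  have hG0 : ∀ a, 0 ≤ a → a ≤ T + h → 0 ≤ G a := by
    intro a ha ha'
    have := hGm 0 a le_rfl ha ha'
    simpa [hG] using this
  have hGi : ∀ a b, 0 ≤ a → a ≤ b → b ≤ T + h → IntervalIntegrable G volume a b := by
    intro a b ha hab hb
    exact ContinuousOn.intervalIntegrable_of_Icc hab
      (hGc.mono (fun x hx => ⟨ha.trans hx.1, hx.2.trans hb⟩))
  have e1 : ∫ t in (0 : ℝ)..T, ∫ r in t..(t + h), g r = ∫ t in (0 : ℝ)..T, (G (t + h) - G t) := by
    refine intervalIntegral.integral_congr (fun t ht => ?_)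
    rw [uIcc_of_le hT] at ht
    have h0 := ht.1
    have h1 := ht.2
    simp only [hG]
    exact (intervalIntegral.integral_interval_sub_left
      (hgI 0 (t + h) le_rfl hTh (by linarith) (by linarith))
      (hgI 0 t le_rfl hTh h0 (by linarith))).symm
  have hshift : IntervalIntegrable (fun t => G (t + h)) volume 0 T := by
    have h1 := (hGi h (T + h) hh (by linarith) le_rfl).comp_add_right h
    simpa using h1
  rw [e1, intervalIntegral.integral_sub hshift (hGi 0 T le_rfl hT (by linarith)),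
    intervalIntegral.integral_comp_add_right (fun s => G s) h, zero_add]
  have e2 : (∫ t in h..(T + h), G t) - ∫ t in (0 : ℝ)..T, G t =
      (∫ t in T..(T + h), G t) - ∫ t in (0 : ℝ)..h, G t := by
    have i1 := intervalIntegral.integral_add_adjacent_intervals
      (hGi 0 h le_rfl hh (by linarith)) (hGi h (T + h) hh (by linarith) le_rfl)
    have i2 := intervalIntegral.integral_add_adjacent_intervals
      (hGi 0 T le_rfl hT (by linarith)) (hGi T (T + h) hT (by linarith) le_rfl)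
    linarith
  rw [e2]
  have h3 : 0 ≤ ∫ t in (0 : ℝ)..h, G t :=
    intervalIntegral.integral_nonneg hh fun t ht => hG0 t ht.1 (by linarith [ht.2])
  have h4 : ∫ t in T..(T + h), G t ≤ ∫ _t in T..(T + h), G (T + h) := by
    refine intervalIntegral.integral_mono_on (by linarith) (hGi T (T + h) hT (by linarith) le_rfl)
      intervalIntegrable_const (fun t ht => ?_)
    exact hGm t (T + h) (hT.trans ht.1) ht.2 le_rfl
  rw [intervalIntegral.integral_const, smul_eq_mul, add_sub_cancel_left] at h4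
  linarith

/-- `∫₀ᵀ σ(x(t+h) - x(t))² dt ≤ h² ∫₀^{T+h} σ(x')²`. -/
theorem int_sig_incr_le {V K : Type*} [NormedAddCommGroup V] [InnerProductSpace ℝ V]
    [NormedAddCommGroup K] [InnerProductSpace ℝ K] [CompleteSpace V] (D : Data V K)
    {x x₁ : ℝ → V} (hx : IsH1loc x x₁) {T h : ℝ} (hT : 0 ≤ T) (hh : 0 ≤ h) :
    ∫ t in (0 : ℝ)..T, D.sig (x (t + h) - x t) ^ 2 ≤
      h ^ 2 * ∫ r in (0 : ℝ)..(T + h), D.sig (x₁ r) ^ 2 := by
  have hint := intervalIntegrable_sig_sq hx D le_rfl (by linarith : (0 : ℝ) ≤ T + h)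
  have h1 := int_incr_le hT hh hint (fun t => by positivity)
  have hxc := hx.continuousOn
  have hc1 : ContinuousOn (fun t => D.sig (x (t + h) - x t) ^ 2) (Icc 0 T) := by
    refine ContinuousOn.pow (D.continuous_sig.comp_continuousOn (ContinuousOn.sub ?_ ?_)) 2
    · exact (isH1loc_shift hx hh).continuousOn.mono Icc_subset_Ici_self
    · exact hxc.mono Icc_subset_Ici_self
  have hprim : ContinuousOn (fun t => ∫ r in (0 : ℝ)..t, D.sig (x₁ r) ^ 2) (Icc 0 (T + h)) := by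
    have := intervalIntegral.continuousOn_primitive_interval' (a := (0 : ℝ)) (b₁ := 0)
      (b₂ := T + h) hint (by simp)
    rwa [uIcc_of_le (by linarith)] at this
  have hc2 : ContinuousOn (fun t => ∫ r in t..(t + h), D.sig (x₁ r) ^ 2) (Icc 0 T) := by
    have h2 : ContinuousOn (fun t => (∫ r in (0 : ℝ)..(t + h), D.sig (x₁ r) ^ 2)
        - ∫ r in (0 : ℝ)..t, D.sig (x₁ r) ^ 2) (Icc 0 T) := by
      refine ContinuousOn.sub ?_ (hprim.mono (Icc_subset_Icc_right (by linarith)))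
      refine hprim.comp (f := fun t : ℝ => t + h) (by fun_prop) (fun t ht => ?_)
      exact ⟨by linarith [ht.1], by linarith [ht.2]⟩
    refine h2.congr (fun t ht => ?_)
    exact (intervalIntegral.integral_interval_sub_left
      (intervalIntegrable_sig_sq hx D le_rfl (by linarith [ht.1]))
      (intervalIntegrable_sig_sq hx D le_rfl ht.1)).symm
  have h3 : ∫ t in (0 : ℝ)..T, D.sig (x (t + h) - x t) ^ 2 ≤
      ∫ t in (0 : ℝ)..T, h * ∫ r in t..(t + h), D.sig (x₁ r) ^ 2 := by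
    refine intervalIntegral.integral_mono_on hT (hc1.intervalIntegrable_of_Icc hT)
      ((hc2.intervalIntegrable_of_Icc hT).const_mul h) (fun t ht => ?_)
    have := sig_incr_sq_le D hx ht.1 (by linarith : t ≤ t + h)
    rwa [add_sub_cancel_left] at this
  rw [intervalIntegral.integral_const_mul] at h3
  nlinarith

/-! ### Exponentials -/

theorem ex_nonneg (c N t : ℝ) : 0 ≤ ex c N t := (Real.exp_pos _).le

theorem continuous_ex (c N : ℝ) : Continuous (ex c N) := by
  unfold ex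
  fun_prop

theorem ex_sq (c N t : ℝ) : ex c N t ^ 2 = ex (2 * c) N t := by
  unfold ex
  rw [← Real.exp_nat_mul]
  congr 1
  push_cast
  ring

theorem ex_mono {c N s t : ℝ} (hc : 0 ≤ c) (hst : s ≤ t) : ex c N t ≤ ex c N s := by
  unfold ex
  apply Real.exp_le_exp.2
  have : c * N ^ 2 * s ≤ c * N ^ 2 * t := mul_le_mul_of_nonneg_left hst (by positivity)
  linarith

/-- `∫ₐᵗ exp(-cN²s) ds ≤ exp(-cN²a)/(cN²)` -/
theorem int_ex_le' {c N : ℝ} (hc : 0 < c) (hN : 0 < N) (a t : ℝ) :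
    ∫ s in a..t, ex c N s ≤ ex c N a / (c * N ^ 2) := by
  have hk : 0 < c * N ^ 2 := by positivity
  have hd : ∀ s : ℝ, HasDerivAt (fun s => - ex c N s / (c * N ^ 2)) (ex c N s) s := by
    intro s
    have h1 : HasDerivAt (fun s : ℝ => -(c * N ^ 2 * s)) (-(c * N ^ 2)) s := by
      have h0 : HasDerivAt (fun s : ℝ => -(c * N ^ 2) * s) (-(c * N ^ 2)) s := by
        simpa using (hasDerivAt_id s).const_mul (-(c * N ^ 2))
      refine h0.congr_of_eventuallyEq (Eventually.of_forall fun r => ?_)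
      ring
    have h3 : HasDerivAt (fun s : ℝ => ex c N s) (ex c N s * (-(c * N ^ 2))) s := h1.exp
    have h2 := h3.const_mul (-(1 / (c * N ^ 2)))
    have e : -(1 / (c * N ^ 2)) * (ex c N s * (-(c * N ^ 2))) = ex c N s := by
      field_simp
    rw [e] at h2
    refine h2.congr_of_eventuallyEq (Eventually.of_forall fun r => ?_)
    ring
  rw [intervalIntegral.integral_eq_sub_of_hasDerivAt (fun s _ => hd s)
    ((continuous_ex c N).intervalIntegrable _ _)]
  have := ex_nonneg c N t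
  have h3 : 0 ≤ ex c N t / (c * N ^ 2) := by positivity
  have e : -ex c N t / (c * N ^ 2) - -ex c N a / (c * N ^ 2) =
      ex c N a / (c * N ^ 2) - ex c N t / (c * N ^ 2) := by ring
  rw [e]
  linarith

theorem int_ex_le {c N : ℝ} (hc : 0 < c) (hN : 0 < N) (t : ℝ) :
    ∫ s in (0 : ℝ)..t, ex c N s ≤ 1 / (c * N ^ 2) := by
  have := int_ex_le' hc hN 0 t
  rwa [ex_zero] at this

theorem int_ex_sq_le {c N : ℝ} (hc : 0 < c) (hN : 0 < N) (t : ℝ) :
    ∫ s in (0 : ℝ)..t, ex c N s ^ 2 ≤ 1 / (2 * c * N ^ 2) := by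
  simp only [ex_sq]
  exact int_ex_le (by positivity) hN t

/-- `x e^{-x} ≤ 1`, in the form `t ex c N t ≤ 1/(cN²)`. -/
theorem mul_ex_le {c N : ℝ} (hc : 0 < c) (hN : 0 < N) (t : ℝ) :
    t * ex c N t ≤ 1 / (c * N ^ 2) := by
  have hk : 0 < c * N ^ 2 := by positivity
  rw [le_div_iff₀ hk]
  unfold ex
  rw [Real.exp_neg]
  have h1 := Real.add_one_le_exp (c * N ^ 2 * t)
  have h2 := Real.exp_pos (c * N ^ 2 * t)
  have : t * (Real.exp (c * N ^ 2 * t))⁻¹ * (c * N ^ 2) =
      (c * N ^ 2 * t) / Real.exp (c * N ^ 2 * t) := by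
    field_simp
  rw [this, div_le_one h2]
  linarith

/-- `∫₀ᵗ s² ex² ds ≤ 4/(c³N⁶)` (not sharp). -/
theorem int_sq_ex_sq_le {c N : ℝ} (hc : 0 < c) (hN : 0 < N) {t : ℝ} (ht : 0 ≤ t) :
    ∫ s in (0 : ℝ)..t, s ^ 2 * ex c N s ^ 2 ≤ 4 / (c ^ 3 * N ^ 6) := by
  have hk : 0 < c / 2 * N ^ 2 := by positivity
  have hc2 : 0 < c / 2 := by positivity
  have h1 : ∀ s ∈ Icc 0 t, s ^ 2 * ex c N s ^ 2 ≤
      (1 / (c / 2 * N ^ 2)) ^ 2 * ex c N s := by
    intro s hs
    have e : ex c N s = ex (c / 2) N s ^ 2 := by rw [ex_sq]; congr 1; ring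
    have h2 := mul_ex_le hc2 hN s
    have h3 : 0 ≤ s * ex (c / 2) N s := mul_nonneg hs.1 (ex_nonneg _ _ _)
    have h4 : (s * ex (c / 2) N s) ^ 2 ≤ (1 / (c / 2 * N ^ 2)) ^ 2 := by gcongr
    calc s ^ 2 * ex c N s ^ 2 = (s * ex (c / 2) N s) ^ 2 * ex c N s := by rw [e]; ring
      _ ≤ _ := mul_le_mul_of_nonneg_right h4 (ex_nonneg _ _ _)
  have h5 : ∫ s in (0 : ℝ)..t, s ^ 2 * ex c N s ^ 2 ≤
      ∫ s in (0 : ℝ)..t, (1 / (c / 2 * N ^ 2)) ^ 2 * ex c N s := by
    have hce := continuous_ex c N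
    refine intervalIntegral.integral_mono_on ht ?_ ?_ h1
    · exact ((continuous_pow 2).mul (hce.pow 2)).intervalIntegrable _ _
    · exact (continuous_const.mul hce).intervalIntegrable _ _
  rw [intervalIntegral.integral_const_mul] at h5
  have h6 := int_ex_le hc hN t
  have h7 : (1 / (c / 2 * N ^ 2)) ^ 2 * ∫ s in (0 : ℝ)..t, ex c N s ≤
      (1 / (c / 2 * N ^ 2)) ^ 2 * (1 / (c * N ^ 2)) :=
    mul_le_mul_of_nonneg_left h6 (by positivity)
  have e2 : (1 / (c / 2 * N ^ 2)) ^ 2 * (1 / (c * N ^ 2)) = 4 / (c ^ 3 * N ^ 6) := by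
    field_simp
    ring
  linarith

end Pool.Agent.NSK
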