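import Pool.Agent.NSK.Abs3
import Pool.Agent.NSK.Lib
import Pool.Agent.NSK.E3

/-!
# MP_fd8964_an, weak density: closeness in `V` after the initial layer
-/

open MeasureTheory Set Filter Topology
open scoped RealInnerProductSpace

noncomputable section

namespace Pool.Agent.NSK

open Pool.Agent.NSD

namespace E4

theorem le_of_integral_le' {g : ℝ → ℝ} {t B δ₀ : ℝ} (hg : ContinuousOn g (Ici 0)) (ht : 0 < t) (hδ₀ : 0 < δ₀)
    (h : ∀ h : ℝ, 0 < h → h ≤ δ₀ → h ≤ t → ∫ r in (t - h)..t, g r ≤ B * h) : g t ≤ B := by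
  by_contra hlt
  push Not at hlt
  obtain ⟨B', hB1, hB2⟩ := exists_between hlt
  have hc : ContinuousWithinAt g (Ici 0) t := hg t ht.le
  have hev : ∀ᶠ x in 𝓝[Ici 0] t, B' < g x := hc.eventually (lt_mem_nhds hB2)
  rw [Metric.nhdsWithin_basis_ball.eventually_iff] at hev
  obtain ⟨δ, hδ, hball⟩ := hev
  set h' := min (min (δ / 2) δ₀) t with hh'
  have hpos : 0 < h' := lt_min (lt_min (by linarith) hδ₀) ht
  have h1 : h' ≤ δ₀ := (min_le_left _ _).trans (min_le_right _ _)
  have h2 : h' ≤ t := min_le_right _ _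
  have h3 : h' ≤ δ / 2 := (min_le_left _ _).trans (min_le_left _ _)
  have hi := h h' hpos h1 h2
  have hlow : ∫ r in (t - h')..t, B' ≤ ∫ r in (t - h')..t, g r := by
    refine intervalIntegral.integral_mono_on (by linarith) intervalIntegrable_const ?_ ?_
    · refine (hg.mono ?_).intervalIntegrable
      rw [uIcc_of_le (by linarith)]
      intro x hx
      exact (sub_nonneg.2 h2).trans hx.1
    · intro x hx
      refine (hball ⟨?_, ?_⟩).le
      · rw [Metric.mem_ball, Real.dist_eq, abs_lt]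
        constructor <;> linarith [hx.1, hx.2]
      · exact (sub_nonneg.2 h2).trans hx.1
  rw [intervalIntegral.integral_const, smul_eq_mul] at hlow
  have : (t - (t - h')) * B' = h' * B' := by ring
  rw [this] at hlow
  nlinarith

end E4

open E4 in
theorem e4_proof (hSm : Stmt_SmoothE) : Stmt_E4 := by
  intro V K _ _ _ _ _ D η M c CS e hη hM hc hCS he
  obtain ⟨C₅, hC₅, H5⟩ := hSm V K D η M c CS (e / 2) hη hM hc hCS (by positivity)
  set K2 : ℝ := D.CY / (η / 8) ^ 3 * CS ^ 4 * CS ^ 2 with hK2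
  have hK2n : 0 ≤ K2 := by
    have := D.CY_nonneg
    positivity
  set R : ℝ := √C₅ * CS + K2 + M * CS / (c * e) * (1 + CS) + 2 * (M * CS / c * (1 + CS)) + M * CS / (c * e) with hR
  have hR0 : 0 ≤ R := by positivity
  refine ⟨R * (2 / η), by positivity, ?_⟩
  intro N τ f S W u w P P' ρ hN hτ hS hBd hu hL h0 hz hzI t ht
  have hN0 : 0 < N := by linarith
  have ht0 : 0 < t := by linarith [ht.1]
  have htm : t ∈ Icc 0 τ := ⟨ht0.le, ht.2⟩
  obtain ⟨hz1, hz2⟩ := hz t htm
  set z := u t - S t - P t with hzdef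
  have hs0 : 0 ≤ D.sig z := D.sig_nonneg z
  have hs1 : D.sig z ≤ 1 + CS := by nlinarith [sq_nonneg (D.sig z - 1)]
  have hE0 : 0 ≤ ex c N t := (Real.exp_pos _).le
  have htE : t * ex c N t ≤ 1 / (c * N ^ 2) := mul_ex_le hc hN0 t
  have hEe : ex c N t ≤ 1 / (c * e * N) := by
    rw [le_div_iff₀ (by positivity)] at htE ⊢
    have h1 : e * ex c N t ≤ t * ex c N t := mul_le_mul_of_nonneg_right ht.1 hE0
    have h2 : e * ex c N t * (c * N ^ 2) ≤ t * ex c N t * (c * N ^ 2) :=
      mul_le_mul_of_nonneg_right h1 (by positivity)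
    have h3 : ex c N t * (c * e * N) ≤ e * ex c N t * (c * N ^ 2) := by
      have : 0 ≤ ex c N t * (c * e) := by positivity
      nlinarith [mul_le_mul_of_nonneg_left (by nlinarith : N ≤ N ^ 2) this]
    linarith
  have hdS : ‖D.ι (S t - S 0)‖ ≤ CS * t := BdOn.dS_le hS.h1 hBd hCS ht0.le ht.2
  have hcu := hu.h1.continuousOn
  have hcS := hS.h1.continuousOn
  have hG : E3.G D η (S 0) S u P ρ z t ≤ √C₅ * ‖D.ι z‖ := by
    refine le_of_integral_le' (δ₀ := min 1 (e / 2)) (E3.G_cont D η (S 0) S u P ρ z hcS hcu hL.cont hL.contρ) ht0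
      (lt_min one_pos (by positivity)) ?_
    intro h hh h1 h2
    have h1a : h ≤ 1 := h1.trans (min_le_left _ _)
    have h1b : h ≤ e / 2 := h1.trans (min_le_right _ _)
    have e1 := E3.integrated D hS hu hL z (s := t - h) (t := t) (by linarith) (by linarith) ht.2
    have d := H5 N τ f S W u w P P' ρ hN hτ hS hBd hu hL h0 hz hzI (t - h) h
      (by linarith [ht.1]) hh.le h1a (by linarith [ht.2])
    rw [sub_add_cancel] at d
    have d' : ‖D.ι ((u t - S t - P t) - (u (t - h) - S (t - h) - P (t - h)))‖ ≤ √C₅ * h := by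
      refine le_of_sq_le_sq ?_ (by positivity)
      rw [mul_pow, Real.sq_sqrt hC₅]
      exact d
    have e2 := abs_real_inner_le_norm (D.ι ((u t - S t - P t) - (u (t - h) - S (t - h) - P (t - h)))) (D.ι z)
    rw [e1, abs_neg] at e2
    calc ∫ r in (t - h)..t, E3.G D η (S 0) S u P ρ z r ≤ |∫ r in (t - h)..t, E3.G D η (S 0) S u P ρ z r| :=
          le_abs_self _
      _ ≤ _ := e2
      _ ≤ √C₅ * h * ‖D.ι z‖ := mul_le_mul_of_nonneg_right d' (norm_nonneg _)
      _ = _ := by ring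
  rw [hzdef, E3.G_diag, ← hzdef] at hG
  have hN2 : N ≤ N ^ 2 := by nlinarith
  have hiz2 : ‖D.ι z‖ ^ 2 ≤ CS ^ 2 / N := by
    have h1 := pow_le_pow_left₀ (norm_nonneg _) hz1 2
    refine h1.trans ?_
    rw [div_pow]
    exact div_le_div_of_nonneg_left (by positivity) hN0 hN2
  have t1 : |D.b z (S t) z| ≤ η / 8 * D.sig z ^ 2 + K2 / N := by
    have h1 := D.b_young (η / 8) (by positivity) (S t) z
    have h2 : D.a (S t) (S t) ^ 2 ≤ CS ^ 4 := by
      rw [← D.sig_sq]
      have := hBd.sig t htm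
      have h3 := D.sig_nonneg (S t)
      calc (D.sig (S t) ^ 2) ^ 2 = D.sig (S t) ^ 4 := by ring
        _ ≤ CS ^ 4 := pow_le_pow_left₀ h3 this 4
    rw [D.sig_sq]
    refine h1.trans ?_
    have h4 : D.CY / (η / 8) ^ 3 * D.a (S t) (S t) ^ 2 * ‖D.ι z‖ ^ 2 ≤ K2 / N := by
      have h5 : K2 / N = D.CY / (η / 8) ^ 3 * CS ^ 4 * (CS ^ 2 / N) := by rw [hK2]; ring
      rw [h5]
      have := D.CY_nonneg
      gcongr
    linarith
  have hstar := hL.star t ht0.le
  have hm : M * N * ex c N t * ‖D.ι z‖ ≤ M * CS / (c * e) / N := by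
    calc M * N * ex c N t * ‖D.ι z‖ ≤ M * N * ex c N t * (CS / N) := by gcongr
      _ = M * CS * ex c N t := by field_simp
      _ ≤ M * CS * (1 / (c * e * N)) := by gcongr
      _ = _ := by field_simp
  have hmS : M * N * ex c N t * ‖D.ι (S t - S 0)‖ ≤ M * CS / c / N := by
    calc M * N * ex c N t * ‖D.ι (S t - S 0)‖ ≤ M * N * ex c N t * (CS * t) := by gcongr
      _ = M * CS * N * (t * ex c N t) := by ring
      _ ≤ M * CS * N * (1 / (c * N ^ 2)) := by gcongr
      _ = _ := by field_simp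
  have t2 : |D.b z (P t) z| ≤ M * CS / (c * e) / N * (1 + CS) := by
    refine (hstar.b3 z z).trans ?_
    exact mul_le_mul hm hs1 hs0 (by positivity)
  have t3 : |D.b (S t - S 0) (P t) z| ≤ M * CS / c / N * (1 + CS) := by
    refine (hstar.b3 (S t - S 0) z).trans ?_
    exact mul_le_mul hmS hs1 hs0 (by positivity)
  have t4 : |D.b (P t) (S t - S 0) z| ≤ M * CS / c / N * (1 + CS) := by
    refine (hstar.b4 (S t - S 0) z).trans ?_
    exact mul_le_mul hmS hs1 hs0 (by positivity)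
  have t5 : |⟪ρ t, D.ι z⟫| ≤ M * CS / (c * e) / N := by
    refine (abs_real_inner_le_norm _ _).trans (le_trans ?_ hm)
    exact mul_le_mul_of_nonneg_right (hL.rho t ht0.le) (norm_nonneg _)
  have t6 : √C₅ * ‖D.ι z‖ ≤ √C₅ * CS / N := by
    rw [mul_div_assoc]
    exact mul_le_mul_of_nonneg_left hz1 (Real.sqrt_nonneg _)
  have a1 := neg_abs_le (D.b z (S t) z)
  have a2 := neg_abs_le (D.b z (P t) z)
  have a3 := neg_abs_le (D.b (S t - S 0) (P t) z)
  have a4 := neg_abs_le (D.b (P t) (S t - S 0) z)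
  have a5 := neg_abs_le ⟪ρ t, D.ι z⟫
  have hRN : R / N = √C₅ * CS / N + K2 / N + M * CS / (c * e) / N * (1 + CS) + 2 * (M * CS / c / N * (1 + CS))
      + M * CS / (c * e) / N := by rw [hR]; ring
  have hfin : η / 2 * D.sig z ^ 2 ≤ R / N := by
    have : 0 ≤ η * D.sig z ^ 2 := by positivity
    rw [hRN]
    nlinarith
  have e9 : R * (2 / η) / N = (R / N) * (2 / η) := by ring
  rw [e9, ← div_le_iff₀ (by positivity)]
  have e10 : D.sig z ^ 2 / (2 / η) = η / 2 * D.sig z ^ 2 := by field_simp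
  rw [e10]
  exact hfin

end Pool.Agent.NSK
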