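import Pool.Agent.NSK.Abs
import Pool.Agent.NSD.Basic

/-!
# MP_fd8964_an, module `EnergyId`
-/

open MeasureTheory Set Filter Topology
open scoped RealInnerProductSpace

noncomputable section

namespace Pool.Agent.NSK

open Pool.Agent.NSD

namespace EnergyId

/-- local to global -/
lemma chain {h G : ℝ → ℝ} {s t δ c : ℝ} (hδ : 0 < δ) (hst : s ≤ t)
    (hloc : ∀ a b, s ≤ a → a ≤ b → b ≤ t → b - a ≤ δ → |h b - h a| ≤ c * (G b - G a)) :
    |h t - h s| ≤ c * (G t - G s) := by
  have key : ∀ n : ℕ, ∀ b, s ≤ b → b ≤ t → b - s ≤ n * δ → |h b - h s| ≤ c * (G b - G s) := by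
    intro n
    induction n with
    | zero =>
      intro b hb _ hbn
      have : b = s := by simp at hbn; linarith
      subst this
      simp
    | succ n ih =>
      intro b hb hbt hbn
      rcases le_total (b - s) δ with h1 | h1
      · exact hloc s b le_rfl hb hbt h1
      · have h2 := ih (b - δ) (by linarith) (by linarith) (by push_cast at hbn; linarith)
        have h3 := hloc (b - δ) b (by linarith) (by linarith) hbt (by linarith)
        calc |h b - h s| = |(h b - h (b - δ)) + (h (b - δ) - h s)| := by ring_nf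
          _ ≤ |h b - h (b - δ)| + |h (b - δ) - h s| := abs_add_le _ _
          _ ≤ c * (G b - G (b - δ)) + c * (G (b - δ) - G s) := by gcongr
          _ = c * (G b - G s) := by ring
  obtain ⟨n, hn⟩ := exists_nat_ge ((t - s) / δ)
  exact key n t hst le_rfl (by rwa [div_le_iff₀ hδ] at hn)

end EnergyId

theorem energyId_proof : Stmt_EnergyId := by
  intro V K _ _ _ _ _ ι x x₁ hx s t hs hst
  have ht : 0 ≤ t := hs.trans hst
  have hxc : ContinuousOn x (Ici 0) := hx.continuousOn
  set X : ℝ → K := fun r => ι (x r) with hX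
  have hXc : ContinuousOn X (Icc s t) :=
    ι.continuous.comp_continuousOn (hxc.mono (fun r hr => hs.trans hr.1))
  have hint : ∀ a b, 0 ≤ a → 0 ≤ b → IntervalIntegrable x₁ volume a b := fun a b ha hb =>
    hx.intervalIntegrable ha hb
  -- integrability of the pairing
  obtain ⟨R, hR⟩ := isCompact_Icc.exists_bound_of_continuousOn hXc
  have hI : ∀ a b, s ≤ a → a ≤ b → b ≤ t →
      IntervalIntegrable (fun r => ⟪ι (x₁ r), X r⟫) volume a b := by
    intro a b ha hab hb
    have h1 : IntegrableOn x₁ (Ioc a b) := by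
      have := hint a b (hs.trans ha) ((hs.trans ha).trans hab)
      rwa [intervalIntegrable_iff_integrableOn_Ioc_of_le hab] at this
    rw [intervalIntegrable_iff_integrableOn_Ioc_of_le hab]
    have h2 : Integrable (fun r => ι (x₁ r)) (volume.restrict (Ioc a b)) := ι.integrable_comp h1
    have h3 : AEStronglyMeasurable X (volume.restrict (Ioc a b)) :=
      (hXc.mono (fun r hr => ⟨ha.trans hr.1.le, hr.2.trans hb⟩)).aestronglyMeasurable
        measurableSet_Ioc
    refine Integrable.mono' (h2.norm.mul_const R) (h2.aestronglyMeasurable.inner h3) ?_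
    rw [ae_restrict_iff' measurableSet_Ioc]
    refine Eventually.of_forall (fun r hr => ?_)
    refine (norm_inner_le_norm _ _).trans ?_
    have := hR r ⟨ha.trans hr.1.le, hr.2.trans hb⟩
    gcongr
  refine ⟨hI s t le_rfl hst le_rfl, ?_⟩
  have hNint : ∀ a b, s ≤ a → a ≤ b → b ≤ t →
      IntervalIntegrable (fun r => ‖ι (x₁ r)‖) volume a b := by
    intro a b ha hab hb
    have h1 := hint a b (hs.trans ha) ((hs.trans ha).trans hab)
    rw [intervalIntegrable_iff_integrableOn_Ioc_of_le hab] at h1 ⊢
    exact (ι.integrable_comp h1).norm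
  set h : ℝ → ℝ := fun r => ‖X r‖ ^ 2 - 2 * ∫ q in s..r, ⟪ι (x₁ q), X q⟫ with hh
  set G : ℝ → ℝ := fun r => ∫ q in s..r, ‖ι (x₁ q)‖ with hG
  have hG0 : 0 ≤ G t := intervalIntegral.integral_nonneg hst (fun _ _ => norm_nonneg _)
  have hsmall : ∀ ε : ℝ, 0 < ε → |h t - h s| ≤ (2 * ε) * (G t - G s) := by
    intro ε hε
    have hunif := isCompact_Icc.uniformContinuousOn_of_continuous hXc
    rw [Metric.uniformContinuousOn_iff] at hunif
    obtain ⟨δ, hδ0, hδ⟩ := hunif ε hε
    refine EnergyId.chain (δ := δ / 2) (by linarith) hst ?_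
    intro a b ha hab hb hbδ
    have haI : a ∈ Icc s t := ⟨ha, hab.trans hb⟩
    have hbI : b ∈ Icc s t := ⟨ha.trans hab, hb⟩
    have hX1 : ∀ y : K, ⟪X b - X a, y⟫ = ∫ q in a..b, ⟪ι (x₁ q), y⟫ := by
      intro y
      have h1 : X b - X a = ι (∫ q in a..b, x₁ q) := by
        simp only [hX]
        rw [← map_sub, hx.sub_eq (hs.trans ha) ((hs.trans ha).trans hab)]
      have h2 := ((innerSL ℝ y).comp ι).intervalIntegral_comp_comm
        (hint a b (hs.trans ha) ((hs.trans ha).trans hab))
      rw [h1]
      simp only [ContinuousLinearMap.comp_apply, innerSL_apply_apply] at h2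
      rw [real_inner_comm, ← h2]
      refine intervalIntegral.integral_congr (fun q _ => ?_)
      exact real_inner_comm _ _
    have hX2 : ‖X b‖ ^ 2 - ‖X a‖ ^ 2 = ⟪X b - X a, X b + X a⟫ := by
      rw [inner_sub_left, inner_add_right, inner_add_right, real_inner_self_eq_norm_sq,
        real_inner_self_eq_norm_sq, real_inner_comm (X a) (X b)]
      ring
    have hXi : IntervalIntegrable (fun r => ⟪ι (x₁ r), X b + X a⟫) volume a b := by
      have h1 := hint a b (hs.trans ha) ((hs.trans ha).trans hab)
      rw [intervalIntegrable_iff_integrableOn_Ioc_of_le hab] at h1 ⊢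
      exact (ι.integrable_comp h1).inner_const _
    have hdiff : h b - h a = ∫ q in a..b, (⟪ι (x₁ q), X b + X a⟫ - 2 * ⟪ι (x₁ q), X q⟫) := by
      rw [intervalIntegral.integral_sub hXi ((hI a b ha hab hb).const_mul 2),
        intervalIntegral.integral_const_mul, ← hX1, ← hX2]
      have h3 : (∫ q in s..b, ⟪ι (x₁ q), X q⟫) - ∫ q in s..a, ⟪ι (x₁ q), X q⟫ =
          ∫ q in a..b, ⟪ι (x₁ q), X q⟫ :=
        intervalIntegral.integral_interval_sub_left (hI s b le_rfl (ha.trans hab) hb)
          (hI s a le_rfl ha (hab.trans hb))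
      simp only [hh]
      rw [← h3]
      ring
    have hGdiff : G b - G a = ∫ q in a..b, ‖ι (x₁ q)‖ :=
      intervalIntegral.integral_interval_sub_left (hNint s b le_rfl (ha.trans hab) hb)
        (hNint s a le_rfl ha (hab.trans hb))
    rw [hdiff, hGdiff, ← intervalIntegral.integral_const_mul, ← Real.norm_eq_abs]
    refine intervalIntegral.norm_integral_le_of_norm_le hab ?_
      ((hNint a b ha hab hb).const_mul (2 * ε))
    refine Eventually.of_forall (fun q hq => ?_)
    have hqI : q ∈ Icc s t := ⟨ha.trans hq.1.le, hq.2.trans hb⟩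
    have h4 : ⟪ι (x₁ q), X b + X a⟫ - 2 * ⟪ι (x₁ q), X q⟫ =
        ⟪ι (x₁ q), (X b - X q) + (X a - X q)⟫ := by
      simp only [inner_add_right, inner_sub_right]; ring
    rw [h4]
    refine (norm_inner_le_norm _ _).trans ?_
    have h5 : ‖X b - X q‖ ≤ ε := by
      have := hδ b hbI q hqI (by
        rw [Real.dist_eq, abs_of_nonneg (by linarith [hq.2])]
        linarith [hq.1])
      rw [dist_eq_norm] at this
      exact this.le
    have h6 : ‖X a - X q‖ ≤ ε := by
      have := hδ a haI q hqI (by
        rw [Real.dist_eq, abs_sub_comm, abs_of_nonneg (by linarith [hq.1])]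
        linarith [hq.2])
      rw [dist_eq_norm] at this
      exact this.le
    have h7 : ‖(X b - X q) + (X a - X q)‖ ≤ 2 * ε := (norm_add_le _ _).trans (by linarith)
    calc ‖ι (x₁ q)‖ * ‖(X b - X q) + (X a - X q)‖ ≤ ‖ι (x₁ q)‖ * (2 * ε) := by gcongr
      _ = 2 * ε * ‖ι (x₁ q)‖ := by ring
  have hzero : |h t - h s| ≤ 0 := by
    refine le_of_forall_pos_le_add (fun ε hε => ?_)
    have hGs : G s = 0 := intervalIntegral.integral_same
    have h8 := hsmall (ε / (2 * (G t + 1))) (by positivity)
    rw [hGs, sub_zero] at h8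
    refine h8.trans ?_
    rw [zero_add]
    have : 2 * (ε / (2 * (G t + 1))) * G t = ε * (G t / (G t + 1)) := by
      field_simp
    rw [this]
    have h9 : G t / (G t + 1) ≤ 1 := by
      rw [div_le_one (by linarith)]; linarith
    nlinarith
  have h10 : h t = h s := by
    have := abs_nonpos_iff.mp hzero
    linarith
  simp only [hh, intervalIntegral.integral_same] at h10
  linarith

end Pool.Agent.NSK
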