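import Pool.Agent.NSK.Lib
import Pool.Agent.NSK.Deriv

/-!
# MP_fd8964_an, weak density: bounds for derivatives from bounds for difference quotients
-/

open MeasureTheory Set Filter Topology
open scoped RealInnerProductSpace

set_option maxSynthPendingDepth 3

noncomputable section

namespace Pool.Agent.NSK

open Pool.Agent.NSD

section
variable {V K : Type*} [NormedAddCommGroup V] [InnerProductSpace ℝ V]
    [NormedAddCommGroup K] [InnerProductSpace ℝ K]

/-- Boundedness of `b` in terms of `sig`. -/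
theorem b_bound (D : Data V K) : ∃ Cb : ℝ, 0 ≤ Cb ∧
    ∀ x y z, |D.b x y z| ≤ Cb * D.sig x * D.sig y * D.sig z := by
  have hc : 0 < √D.c₀ := Real.sqrt_pos.2 D.c₀_pos
  refine ⟨‖D.b‖ / √D.c₀ ^ 3, by positivity, fun x y z => ?_⟩
  have h1 : |D.b x y z| ≤ ‖D.b‖ * ‖x‖ * ‖y‖ * ‖z‖ := by
    rw [← Real.norm_eq_abs]
    refine ((D.b x y).le_opNorm z).trans ?_
    refine mul_le_mul_of_nonneg_right ?_ (norm_nonneg _)
    refine ((D.b x).le_opNorm y).trans ?_
    exact mul_le_mul_of_nonneg_right (D.b.le_opNorm x) (norm_nonneg _)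
  refine h1.trans ?_
  have hx := D.norm_le_sig x
  have hy := D.norm_le_sig y
  have hz := D.norm_le_sig z
  have e : ‖D.b‖ / √D.c₀ ^ 3 * D.sig x * D.sig y * D.sig z
      = ‖D.b‖ / √D.c₀ ^ 3 * (D.sig x * D.sig y * D.sig z) := by ring
  rw [e]
  have h2 : (√D.c₀ * ‖x‖) * (√D.c₀ * ‖y‖) * (√D.c₀ * ‖z‖) ≤ D.sig x * D.sig y * D.sig z := by
    have := D.sig_nonneg x
    have := D.sig_nonneg y
    have := D.sig_nonneg z
    gcongr
  calc ‖D.b‖ * ‖x‖ * ‖y‖ * ‖z‖ = ‖D.b‖ / √D.c₀ ^ 3 * ((√D.c₀ * ‖x‖) * (√D.c₀ * ‖y‖) * (√D.c₀ * ‖z‖)) := by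
        field_simp
    _ ≤ _ := mul_le_mul_of_nonneg_left h2 (by positivity)

/-- Bound for the derivative from a bound for small increments. -/
theorem norm_le_of_hasDerivAt' {ι : V →L[ℝ] K} {x : ℝ → V} {w : V} {t B δ : ℝ} (hδ : 0 < δ) (h : HasDerivAt x w t)
    (hB : ∀ h : ℝ, 0 < h → h ≤ δ → ‖ι (x (t + h) - x t)‖ ≤ B * h) : ‖ι w‖ ≤ B := by
  have h1 : HasDerivAt (fun s => ι (x s)) (ι w) t := ι.hasFDerivAt.comp_hasDerivAt t h
  have h2 := h1.hasDerivWithinAt (s := Ioi t)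
  rw [hasDerivWithinAt_iff_tendsto_slope' (by simp)] at h2
  refine le_of_tendsto h2.norm ?_
  have : Ioc t (t + δ) ∈ 𝓝[>] t := Ioc_mem_nhdsGT (by linarith)
  filter_upwards [this] with s hs
  have hs0 : 0 < s - t := by linarith [hs.1]
  rw [slope_def_module, norm_smul, norm_inv, Real.norm_of_nonneg hs0.le]
  have h3 := hB (s - t) hs0 (by linarith [hs.2])
  rw [add_sub_cancel, map_sub] at h3
  rw [inv_mul_le_iff₀ hs0]
  linarith

/-- Fatou: `∫ σ(x')² ≤ Q` if `∫ σ(x(t+h) - x(t))² ≤ Q h²`. -/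
theorem fatou_sig [CompleteSpace V] (D : Data V K) {x x₁ : ℝ → V} (hx : IsH1loc x x₁) {T Q : ℝ} (hT : 0 < T)
    (hQ : 0 ≤ Q)
    (hb : ∀ h, 0 < h → h ≤ 1 → h ≤ T → ∫ t in (0 : ℝ)..(T - h), D.sig (x (t + h) - x t) ^ 2 ≤ Q * h ^ 2) :
    ∫ t in (0 : ℝ)..T, D.sig (x₁ t) ^ 2 ≤ Q := by
  set m : ℝ := min 1 T with hm
  have hm0 : 0 < m := lt_min one_pos hT
  set δ : ℕ → ℝ := fun n => m / ((n : ℝ) + 1) with hδ
  have hδ0 : ∀ n, 0 < δ n := fun n => by positivity
  have hδm : ∀ n, δ n ≤ m := fun n => div_le_self hm0.le (by have : (0 : ℝ) ≤ n := Nat.cast_nonneg n; linarith)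
  have hδt : Tendsto δ atTop (𝓝 0) := by
    have : Tendsto (fun n : ℕ => m * (1 / ((n : ℝ) + 1))) atTop (𝓝 (m * 0)) :=
      tendsto_one_div_add_atTop_nhds_zero_nat.const_mul m
    rw [mul_zero] at this
    refine this.congr fun n => ?_
    simp only [hδ]; ring
  set F : ℕ → ℝ → ENNReal := fun n => (Ioc 0 (T - δ n)).indicator
    (fun t => ENNReal.ofReal (D.sig (x (t + δ n) - x t) ^ 2 / δ n ^ 2)) with hF
  have hcx := hx.continuousOn
  have hcont : ∀ n, ContinuousOn (fun t => D.sig (x (t + δ n) - x t) ^ 2 / δ n ^ 2) (Ici 0) := fun n => by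
    refine ContinuousOn.div_const (ContinuousOn.pow (D.continuous_sig.comp_continuousOn (ContinuousOn.sub ?_ hcx)) 2) _
    exact (isH1loc_shift hx (hδ0 n).le).continuousOn
  have hFm : ∀ n, AEMeasurable (F n) (volume.restrict (Ioc 0 T)) := by
    intro n
    refine (AEMeasurable.indicator₀ ?_ measurableSet_Ioc.nullMeasurableSet)
    refine ENNReal.measurable_ofReal.comp_aemeasurable ?_
    exact ((hcont n).mono (fun t ht => ht.1.le)).aemeasurable measurableSet_Ioc
  have hFI : ∀ n, ∫⁻ t in Ioc 0 T, F n t ≤ ENNReal.ofReal Q := by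
    intro n
    have hTδ : 0 ≤ T - δ n := by have := (hδm n).trans (min_le_right _ _); linarith
    have h1 : ∫⁻ t in Ioc 0 T, F n t ≤ ∫⁻ t, F n t := lintegral_mono' Measure.restrict_le_self le_rfl
    refine h1.trans ?_
    simp only [hF]
    rw [lintegral_indicator measurableSet_Ioc]
    have hi : IntegrableOn (fun t => D.sig (x (t + δ n) - x t) ^ 2 / δ n ^ 2) (Ioc 0 (T - δ n)) := by
      rw [← intervalIntegrable_iff_integrableOn_Ioc_of_le hTδ]
      exact ((hcont n).mono (fun t ht => ht.1)).intervalIntegrable_of_Icc hTδ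
    rw [← ofReal_integral_eq_lintegral_ofReal hi (Eventually.of_forall fun t => by positivity)]
    refine ENNReal.ofReal_le_ofReal ?_
    rw [← intervalIntegral.integral_of_le hTδ, intervalIntegral.integral_div]
    rw [div_le_iff₀ (by have := hδ0 n; positivity)]
    exact hb (δ n) (hδ0 n) ((hδm n).trans (min_le_left _ _)) ((hδm n).trans (min_le_right _ _))
  have hpt : ∀ᵐ t ∂(volume.restrict (Ioc 0 T)),
      ENNReal.ofReal (D.sig (x₁ t) ^ 2) ≤ liminf (fun n => F n t) atTop := by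
    have h1 : ∀ᵐ t ∂(volume.restrict (Ioc 0 T)), HasDerivAt x (x₁ t) t :=
      ae_mono (Measure.restrict_mono (s' := Ioi 0) (fun t ht => ht.1) le_rfl) (ae_hasDerivAt hx)
    have h2 : ∀ᵐ t ∂(volume.restrict (Ioc 0 T)), t ∈ Ioc 0 T := ae_restrict_mem measurableSet_Ioc
    have h3 : ∀ᵐ t ∂(volume.restrict (Ioc 0 T)), t ≠ T := by
      refine ae_restrict_of_ae ?_
      simp [ae_iff, measure_singleton]
    filter_upwards [h1, h2, h3] with t ht1 ht2 ht3
    have htT : t < T := lt_of_le_of_ne ht2.2 ht3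
    refine le_of_eq (Tendsto.liminf_eq ?_).symm
    have h4 : Tendsto (fun n => (δ n)⁻¹ • (x (t + δ n) - x t)) atTop (𝓝 (x₁ t)) := by
      have h5 : Tendsto δ atTop (𝓝[≠] 0) := by
        rw [tendsto_nhdsWithin_iff]
        exact ⟨hδt, Eventually.of_forall fun n => (hδ0 n).ne'⟩
      exact (hasDerivAt_iff_tendsto_slope_zero.1 ht1).comp h5
    have h6 : Tendsto (fun n => ENNReal.ofReal (D.sig ((δ n)⁻¹ • (x (t + δ n) - x t)) ^ 2)) atTop
        (𝓝 (ENNReal.ofReal (D.sig (x₁ t) ^ 2))) :=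
      ENNReal.tendsto_ofReal (((D.continuous_sig.tendsto _).comp h4).pow 2)
    refine h6.congr' ?_
    filter_upwards [hδt.eventually (gt_mem_nhds (sub_pos.2 htT))] with n hn
    have hmem : t ∈ Ioc 0 (T - δ n) := ⟨ht2.1, by linarith⟩
    simp only [hF]
    rw [indicator_of_mem hmem, D.sig_smul, mul_pow, sq_abs]
    congr 1
    rw [inv_pow]; field_simp
  have hfat : ∫⁻ t in Ioc 0 T, ENNReal.ofReal (D.sig (x₁ t) ^ 2) ≤ ENNReal.ofReal Q := by
    refine (lintegral_mono_ae hpt).trans ((lintegral_liminf_le' hFm).trans ?_)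
    exact liminf_le_of_le (by isBoundedDefault) fun b hb => by
      obtain ⟨n, hn⟩ := hb.exists
      exact hn.trans (hFI n)
  have hi := intervalIntegrable_sig_sq hx D le_rfl hT.le
  rw [intervalIntegrable_iff_integrableOn_Ioc_of_le hT.le] at hi
  rw [← ofReal_integral_eq_lintegral_ofReal hi (Eventually.of_forall fun t => by positivity)] at hfat
  rw [intervalIntegral.integral_of_le hT.le]
  exact (ENNReal.ofReal_le_ofReal_iff hQ).1 hfat

end

end Pool.Agent.NSK
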