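import Pool.Agent.NSK.Deriv

/-!
# MP_fd8964_an, weak density: Theorem A* (global, unforced)
-/

open MeasureTheory Set Filter Topology
open scoped RealInnerProductSpace

noncomputable section

namespace Pool.Agent.NSK

open Pool.Agent.NSD

namespace Global

theorem ex_small {M c β : ℝ} (hc : 0 < c) (hβ : 0 < β) (hM : 0 ≤ M) :
    ∀ᶠ N : ℝ in atTop, M * N ^ 3 * Real.exp (-(c * N ^ 2)) ≤ β := by
  have h1 : Tendsto (fun N : ℝ => c * N ^ 2) atTop atTop :=
    (tendsto_pow_atTop (by norm_num : (2 : ℕ) ≠ 0)).const_mul_atTop hc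
  have h2 := (Real.tendsto_pow_mul_exp_neg_atTop_nhds_zero 2).comp h1
  have h3 : Tendsto (fun N : ℝ => M / c ^ 2 * ((c * N ^ 2) ^ 2 * Real.exp (-(c * N ^ 2)))) atTop (𝓝 (M / c ^ 2 * 0)) :=
    h2.const_mul _
  rw [mul_zero] at h3
  filter_upwards [h3.eventually (gt_mem_nhds hβ), eventually_ge_atTop 1] with N hN hN1
  refine le_trans ?_ hN.le
  have e1 : M / c ^ 2 * ((c * N ^ 2) ^ 2 * Real.exp (-(c * N ^ 2))) = M * N ^ 4 * Real.exp (-(c * N ^ 2)) := by
    field_simp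
  rw [e1]
  refine mul_le_mul_of_nonneg_right ?_ (Real.exp_pos _).le
  refine mul_le_mul_of_nonneg_left ?_ hM
  exact pow_le_pow_right₀ hN1 (by norm_num)

theorem tail_small {g : ℝ → ℝ} {C ε : ℝ} (hg : ∀ t, 0 ≤ g t)
    (hi : ∀ T, 0 ≤ T → IntervalIntegrable g volume 0 T) (hb : ∀ T, 0 ≤ T → ∫ s in (0 : ℝ)..T, g s ≤ C)
    (hε : 0 < ε) : ∀ᶠ T : ℝ in atTop, ∫ s in T..(T + 2), g s ≤ ε := by
  have hint : IntegrableOn g (Ioi 0) := by
    refine integrableOn_Ioi_of_intervalIntegral_norm_bounded (l := atTop) (b := fun n : ℕ => (n : ℝ)) C 0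
      (fun n => ?_) tendsto_natCast_atTop_atTop ?_
    · exact (intervalIntegrable_iff_integrableOn_Ioc_of_le (Nat.cast_nonneg n)).1 (hi n (Nat.cast_nonneg n))
    · refine Filter.Eventually.of_forall fun n => ?_
      have e : ∀ x, ‖g x‖ = g x := fun x => Real.norm_of_nonneg (hg x)
      simp only [e]
      exact hb n (Nat.cast_nonneg n)
  have h1 := intervalIntegral_tendsto_integral_Ioi 0 hint (tendsto_id (x := atTop))
  have h2 := intervalIntegral_tendsto_integral_Ioi 0 hint (tendsto_atTop_add_const_right atTop (2 : ℝ) tendsto_id)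
  have h3 := h2.sub h1
  rw [sub_self] at h3
  filter_upwards [h3.eventually (gt_mem_nhds hε), eventually_ge_atTop 0] with T hT hT0
  simp only [id] at hT
  rw [intervalIntegral.integral_interval_sub_left (hi _ (by linarith)) (hi _ hT0)] at hT
  exact hT.le

theorem zero_h1 {X : Type*} [NormedAddCommGroup X] [NormedSpace ℝ X] : IsH1loc (0 : ℝ → X) (0 : ℝ → X) :=
  ⟨fun _ => MemLp.zero, fun t _ => by simp⟩

end Global

open Global in
theorem global_proof (hE : Stmt_EnergyId) (hFT : Stmt_FiniteT) (hSm : Stmt_Small) (hSmo : Stmt_Smooth) :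
    Stmt_Global := by
  intro V K _ _ _ _ _ D η M c S W hη hM hc hG δ hδ
  obtain ⟨CG₀, hCG₀⟩ := hG.bd
  set CG : ℝ := max CG₀ 0 with hCGdef
  have hCG0 : 0 ≤ CG := le_max_right _ _
  have hbdG : ∀ T, 0 ≤ T → BdOn D CG T S W := fun T hT => (hCG₀ T hT).mono_const (le_max_left _ _)
  obtain ⟨N₁, C₁, hN₁, hC₁, HF⟩ := hFT V K D η M c CG hη hM hc hCG0
  obtain ⟨c₀, κ₀, lam, CSm, hc₀, hκ₀, hlam, hCSm, HS⟩ := hSm V K D η hη
  set CS2 : ℝ := max CG C₁ with hCS2
  obtain ⟨C₅, hC₅, HM⟩ := hSmo V K D η M c CS2 hη hM hc (hCG0.trans (le_max_left _ _))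
  set β : ℝ := min (δ / 5) (min 1 (c₀ / 9)) with hβdef
  have hβ : 0 < β := lt_min (by positivity) (lt_min one_pos (by positivity))
  have hβδ : 5 * β ≤ δ := by have : β ≤ δ / 5 := min_le_left _ _; linarith
  have hβ1 : β ≤ 1 := (min_le_right _ _).trans (min_le_left _ _)
  have hβc : 9 * β ≤ c₀ := by
    have : β ≤ c₀ / 9 := (min_le_right _ _).trans (min_le_right _ _); linarith
  have hex : ∃ T₀ : ℝ, 1 ≤ T₀ ∧ C₅ * ∫ s in T₀..(T₀ + 2), D.sig (W s) ^ 2 ≤ β ^ 2 / 2 ∧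
      (∀ᵐ t ∂(volume.restrict (Ioi T₀)), ‖D.ι (W t)‖ ≤ β) ∧ (∀ t, T₀ ≤ t → ‖D.ι (S t)‖ ≤ β) := by
    obtain ⟨Ta, hTa, hTaW⟩ := hG.decay' β hβ
    have hd := hG.decay.eventually (gt_mem_nhds hβ)
    obtain ⟨Tb, hTb⟩ := eventually_atTop.1 hd
    have ht := tail_small (g := fun s => D.sig (W s) ^ 2) (C := CG) (ε := β ^ 2 / (2 * (C₅ + 1)))
      (fun t => by positivity) (fun T hT => intervalIntegrable_sig_sq hG.h1 D le_rfl hT)
      (fun T hT => (hbdG T hT).intW) (by positivity)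
    obtain ⟨Tc, hTc⟩ := eventually_atTop.1 ht
    refine ⟨max 1 (max Ta (max Tb Tc)), le_max_left _ _, ?_, ?_, ?_⟩
    · have h1 := hTc (max 1 (max Ta (max Tb Tc)))
        ((le_max_right _ _).trans ((le_max_right _ _).trans (le_max_right _ _)))
      have h2 := mul_le_mul_of_nonneg_left h1 hC₅
      refine h2.trans ?_
      rw [mul_div_assoc', div_le_div_iff₀ (by positivity) (by positivity)]
      nlinarith [sq_nonneg β]
    · exact ae_mono (Measure.restrict_mono (Ioi_subset_Ioi ((le_max_left _ _).trans (le_max_right _ _))) le_rfl) hTaW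
    · intro t ht'
      exact (hTb t (((le_max_left _ _).trans ((le_max_right _ _).trans (le_max_right _ _))).trans ht')).le
  obtain ⟨T₀, hT₀1, hT₀I, hT₀W, hT₀S⟩ := hex
  have hev : ∀ᶠ N : ℝ in atTop, 1 ≤ N ∧ N₁ ≤ N ∧ C₅ / N ^ 2 ≤ β ^ 2 / 2 ∧
      M * N ^ 3 * Real.exp (-(c * N ^ 2)) ≤ β ∧ C₁ / N ≤ β := by
    have h1 : Tendsto (fun N : ℝ => C₅ / N ^ 2) atTop (𝓝 0) :=
      (tendsto_pow_atTop (by norm_num : (2 : ℕ) ≠ 0)).const_div_atTop C₅
    have h2 : Tendsto (fun N : ℝ => C₁ / N) atTop (𝓝 0) := tendsto_id.const_div_atTop C₁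
    filter_upwards [eventually_ge_atTop 1, eventually_ge_atTop N₁,
      h1.eventually (gt_mem_nhds (by positivity : 0 < β ^ 2 / 2)), ex_small hc hβ hM,
      h2.eventually (gt_mem_nhds hβ)] with N a b c d e
    exact ⟨a, b, c.le, d, e.le⟩
  obtain ⟨N₂, hN₂⟩ := eventually_atTop.1 hev
  refine ⟨max 1 N₂, le_max_left _ _, ?_⟩
  intro N P P' ρ h₀ hN hL hcomp
  obtain ⟨h1N, hN₁N, hC5N, hexN, hC1N⟩ := hN₂ N ((le_max_right _ _).trans hN)
  have hN0 : 0 < N := by linarith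
  -- `S` solves on every `[0,T]`
  have hSsol : ∀ T, SolOn D η 0 T S W := fun T => ⟨hG.h1, by
    filter_upwards [ae_mono (Measure.restrict_mono (s := Ioc 0 T) (s' := Ioi 0) (fun x hx => hx.1) le_rfl) hG.eq]
      with t ht v
    simpa using ht v⟩
  have hT02 : (0 : ℝ) ≤ T₀ + 2 := by linarith
  obtain ⟨κ, u, w, hκ₀κ, hκ, hmod, hu0, hsol, hle, hz, hzI⟩ :=
    HF N (T₀ + 2) 0 0 S W P P' ρ h₀ hN₁N hT02 zero_h1 (hSsol _) (hbdG _ hT02) hL
      (by intro v; rw [← hcomp v]; simp) κ₀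
  have hsm := HM N T₀ 0 S W u w P P' ρ h1N hT₀1 (hSsol _) ((hbdG _ hT02).mono_const (le_max_left _ _)) hsol hL hu0
    (fun t ht => ⟨(hz t ht).1.trans (div_le_div_of_nonneg_right (le_max_right _ _) hN0.le),
      (hz t ht).2.trans (le_max_right _ _)⟩)
    (hzI.trans (div_le_div_of_nonneg_right (le_max_right _ _) (by positivity)))
  -- exponential factors
  have hexle : ∀ t, 1 ≤ t → ex c N t ≤ Real.exp (-(c * N ^ 2)) := fun t ht => by
    unfold ex
    rw [Real.exp_le_exp]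
    have : 0 ≤ c * N ^ 2 := by positivity
    nlinarith
  have hP3 : ∀ t, 1 ≤ t → M * N ^ 3 * ex c N t ≤ β := fun t ht =>
    (mul_le_mul_of_nonneg_left (hexle t ht) (by positivity)).trans hexN
  have hP1 : ∀ t, 1 ≤ t → ‖D.ι (P t)‖ ≤ β := fun t ht => by
    refine (hL.iP t (by linarith)).trans (le_trans ?_ (hP3 t ht))
    refine mul_le_mul_of_nonneg_right ?_ (ex_pos _ _ _).le
    refine mul_le_mul_of_nonneg_left ?_ hM
    calc N = N ^ 1 := (pow_one N).symm
      _ ≤ N ^ 3 := pow_le_pow_right₀ h1N (by norm_num)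
  -- increments at `t₁ = T₀ + 1`
  have hinc : ∀ h : ℝ, 0 ≤ h → h ≤ 1 → ‖D.ι (u (T₀ + 1 + h) - u (T₀ + 1))‖ ≤ 3 * β * h := by
    intro h h0 h1
    have hzinc := hsm h h0 h1
    have e1 : ‖D.ι ((u (T₀ + 1 + h) - S (T₀ + 1 + h) - P (T₀ + 1 + h))
        - (u (T₀ + 1) - S (T₀ + 1) - P (T₀ + 1)))‖ ≤ β * h := by
      refine le_of_sq_le_sq (hzinc.trans ?_) (by positivity)
      have : C₅ * h ^ 2 * (1 / N ^ 2 + ∫ s in T₀..(T₀ + 2), D.sig (W s) ^ 2)
        = h ^ 2 * (C₅ / N ^ 2 + C₅ * ∫ s in T₀..(T₀ + 2), D.sig (W s) ^ 2) := by ring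
      rw [this]
      have h2 : C₅ / N ^ 2 + C₅ * ∫ s in T₀..(T₀ + 2), D.sig (W s) ^ 2 ≤ β ^ 2 := by linarith
      nlinarith [mul_le_mul_of_nonneg_left h2 (sq_nonneg h)]
    have e2 : ‖D.ι (S (T₀ + 1 + h) - S (T₀ + 1))‖ ≤ β * h := by
      have := norm_sub_le_of_bound hG.h1 (by linarith : (0 : ℝ) ≤ T₀) hT₀W (s := T₀ + 1) (t := T₀ + 1 + h)
        (by linarith) (by linarith)
      rwa [add_sub_cancel_left] at this
    have e3 : ‖D.ι (P (T₀ + 1 + h) - P (T₀ + 1))‖ ≤ β * h := by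
      refine (hL.iPD (T₀ + 1) h (by linarith) h0 h1).trans ?_
      have := mul_le_mul_of_nonneg_left (hP3 (T₀ + 1) (by linarith)) h0
      linarith
    have e4 : u (T₀ + 1 + h) - u (T₀ + 1) = ((u (T₀ + 1 + h) - S (T₀ + 1 + h) - P (T₀ + 1 + h))
        - (u (T₀ + 1) - S (T₀ + 1) - P (T₀ + 1))) + (S (T₀ + 1 + h) - S (T₀ + 1))
        + (P (T₀ + 1 + h) - P (T₀ + 1)) := by abel
    rw [e4, map_add, map_add]
    refine (norm_add_le _ _).trans ?_
    have := norm_add_le (D.ι ((u (T₀ + 1 + h) - S (T₀ + 1 + h) - P (T₀ + 1 + h))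
        - (u (T₀ + 1) - S (T₀ + 1) - P (T₀ + 1)))) (D.ι (S (T₀ + 1 + h) - S (T₀ + 1)))
    linarith
  have hut₁ : ‖D.ι (u (T₀ + 1))‖ ≤ 3 * β := by
    have e1 := (hz (T₀ + 1) ⟨by linarith, by linarith⟩).1
    have e2 := hT₀S (T₀ + 1) (by linarith)
    have e3 := hP1 (T₀ + 1) (by linarith)
    have e4 : u (T₀ + 1) = (u (T₀ + 1) - S (T₀ + 1) - P (T₀ + 1)) + S (T₀ + 1) + P (T₀ + 1) := by abel
    rw [e4, map_add, map_add]
    refine (norm_add_le _ _).trans ?_
    have := norm_add_le (D.ι (u (T₀ + 1) - S (T₀ + 1) - P (T₀ + 1))) (D.ι (S (T₀ + 1)))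
    linarith
  obtain ⟨Ha, Hb, Hc⟩ := HS κ (T₀ + 1) (3 * β) u w hκ₀κ (by linarith) (by positivity) hmod hinc (by
    have := mul_le_mul_of_nonneg_right hut₁ (by positivity : 0 ≤ 3 * β)
    nlinarith)
  -- `σ(u) ≤ κ` for all times
  have hσ : ∀ t, 0 ≤ t → D.sig (u t) ≤ κ := by
    intro t ht
    rcases le_total t (T₀ + 1) with h | h
    · exact hle t ⟨ht, by linarith⟩
    · exact (Ha t h).1.trans hκ₀κ
  have hequ : ∀ᵐ t ∂(volume.restrict (Ioi (0 : ℝ))), ∀ v,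
      ⟪D.ι (w t), D.ι v⟫ + η * D.a (u t) v + D.b (u t) (u t) v = 0 := by
    have h3 : ∀ᵐ t ∂(volume.restrict (Ioi (0 : ℝ))), t ∈ Ioi (0 : ℝ) := ae_restrict_mem measurableSet_Ioi
    filter_upwards [hmod.eq, h3] with t ht ht0 v
    have := ht v
    rw [phi_eq_zero (hσ t (le_of_lt ht0)), add_zero] at this
    simpa using this
  -- decay of `ι w`
  have hwB : ∀ᵐ t ∂(volume.restrict (Ioi (T₀ + 1))), ‖D.ι (w t)‖ ≤ 3 * β * Real.exp (-(lam * (t - (T₀ + 1)))) := by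
    have h3 : ∀ᵐ t ∂(volume.restrict (Ioi (T₀ + 1))), t ∈ Ioi (T₀ + 1) := ae_restrict_mem measurableSet_Ioi
    have h4 := ae_mono (Measure.restrict_mono (Ioi_subset_Ioi (by linarith : (0 : ℝ) ≤ T₀ + 1)) le_rfl)
      (ae_hasDerivAt hmod.h1)
    filter_upwards [h3, h4] with t ht htd
    refine norm_le_of_hasDerivAt htd fun h h0 h1 => ?_
    have := Hb t h (le_of_lt ht) h0 h1
    linarith
  have hwB' : ∀ᵐ t ∂(volume.restrict (Ioi (T₀ + 1))), ‖D.ι (w t)‖ ≤ 3 * β := by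
    have h3 : ∀ᵐ t ∂(volume.restrict (Ioi (T₀ + 1))), t ∈ Ioi (T₀ + 1) := ae_restrict_mem measurableSet_Ioi
    filter_upwards [h3, hwB] with t ht htB
    refine htB.trans (mul_le_of_le_one_right (by positivity) ?_)
    rw [Real.exp_le_one_iff]
    have ht' : T₀ + 1 < t := ht
    have : 0 ≤ lam * (t - (T₀ + 1)) := mul_nonneg hlam.le (by linarith)
    linarith
  -- energy
  have hen : ∀ T, 0 ≤ T → ∫ s in (0 : ℝ)..T, D.sig (u s) ^ 2 ≤ ‖D.ι (u 0)‖ ^ 2 / (2 * η) := by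
    intro T hT
    obtain ⟨-, h2⟩ := hE V K D.ι u w hmod.h1 0 T le_rfl hT
    have h3 : ∫ r in (0 : ℝ)..T, ⟪D.ι (w r), D.ι (u r)⟫ = ∫ r in (0 : ℝ)..T, -η * D.sig (u r) ^ 2 := by
      refine intervalIntegral.integral_congr_ae ?_
      rw [uIoc_of_le hT]
      have := (ae_restrict_iff' measurableSet_Ioi).1 hequ
      filter_upwards [this] with r hr hr'
      have h4 := hr hr'.1 (u r)
      rw [D.b_skew, ← D.sig_sq] at h4
      linarith
    rw [h3, intervalIntegral.integral_const_mul] at h2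
    rw [le_div_iff₀ (by positivity)]
    have := sq_nonneg ‖D.ι (u T)‖
    linarith
  obtain ⟨Ca, hCa⟩ := hmod.iw (T₀ + 1)
  have hiw0 : 0 ≤ ∫ s in (0 : ℝ)..(T₀ + 1), D.sig (w s) ^ 2 :=
    intervalIntegral.integral_nonneg (by linarith) (fun s _ => by positivity)
  have hbdu : ∀ T, 0 ≤ T → BdOn D (|Ca| + 3 * β + κ + κ ^ 2 * (‖D.ι (u 0)‖ ^ 2 / (2 * η))
      + ((∫ s in (0 : ℝ)..(T₀ + 1), D.sig (w s) ^ 2) + CSm * (3 * β) ^ 2)) T u w := by
    intro T hT
    have p1 : 0 ≤ κ ^ 2 * (‖D.ι (u 0)‖ ^ 2 / (2 * η)) := by positivity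
    have p2 : 0 ≤ CSm * (3 * β) ^ 2 := by positivity
    have p3 := abs_nonneg Ca
    have p4 := le_abs_self Ca
    refine ⟨?_, ?_, ?_, ?_⟩
    · rw [ae_restrict_iff' measurableSet_Ioc] at hCa ⊢
      rw [ae_restrict_iff' measurableSet_Ioi] at hwB'
      filter_upwards [hCa, hwB'] with t h1 h2 ht
      rcases le_or_gt t (T₀ + 1) with h | h
      · have := h1 ⟨ht.1, h⟩
        linarith
      · have := h2 h
        linarith
    · intro t ht
      have := hσ t ht.1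
      linarith
    · have hcu := continuousOn_sig hmod.h1 D
      have h1 : ∫ t in (0 : ℝ)..T, D.sig (u t) ^ 4 ≤ ∫ t in (0 : ℝ)..T, κ ^ 2 * D.sig (u t) ^ 2 := by
        refine intervalIntegral.integral_mono_on hT ?_ ?_ ?_
        · exact ContinuousOn.intervalIntegrable_of_Icc hT ((hcu.mono Icc_subset_Ici_self).pow 4)
        · exact ContinuousOn.intervalIntegrable_of_Icc hT
            (continuousOn_const.mul ((hcu.mono Icc_subset_Ici_self).pow 2))
        · intro t ht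
          have h2 := hσ t ht.1
          have h3 := D.sig_nonneg (u t)
          have h4 : D.sig (u t) ^ 2 ≤ κ ^ 2 := pow_le_pow_left₀ h3 h2 2
          nlinarith [sq_nonneg (D.sig (u t))]
      rw [intervalIntegral.integral_const_mul] at h1
      have h2 := mul_le_mul_of_nonneg_left (hen T hT) (sq_nonneg κ)
      linarith
    · have h1 : ∫ s in (0 : ℝ)..T, D.sig (w s) ^ 2 ≤ ∫ s in (0 : ℝ)..(max T (T₀ + 1)), D.sig (w s) ^ 2 := by
        refine intervalIntegral.integral_mono_interval le_rfl hT (le_max_left _ _) ?_ ?_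
        · exact Filter.Eventually.of_forall fun t => by positivity
        · exact intervalIntegrable_sig_sq hmod.h1 D le_rfl (hT.trans (le_max_left _ _))
      have h2 := intervalIntegral.integral_add_adjacent_intervals
        (intervalIntegrable_sig_sq hmod.h1 D le_rfl (by linarith : (0 : ℝ) ≤ T₀ + 1))
        (intervalIntegrable_sig_sq hmod.h1 D (by linarith : (0 : ℝ) ≤ T₀ + 1) (le_max_right T (T₀ + 1)))
      have h3 := Hc (max T (T₀ + 1)) (le_max_right _ _)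
      linarith
  refine ⟨u, w, ⟨hmod.h1, hequ, ⟨_, hbdu⟩, ?_, ?_⟩, hu0, ?_⟩
  · -- decay of `ι u`
    have h1 : Tendsto (fun t : ℝ => ‖D.ι (u (T₀ + 1))‖ * Real.exp (-(lam * (t - (T₀ + 1))))) atTop
        (𝓝 (‖D.ι (u (T₀ + 1))‖ * 0)) := by
      refine Tendsto.const_mul _ (Real.tendsto_exp_neg_atTop_nhds_zero.comp ?_)
      exact (tendsto_atTop_add_const_right atTop (-(T₀ + 1)) tendsto_id).const_mul_atTop hlam
    rw [mul_zero] at h1
    refine squeeze_zero' (Filter.Eventually.of_forall fun t => norm_nonneg _) ?_ h1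
    filter_upwards [eventually_ge_atTop (T₀ + 1)] with t ht
    exact (Ha t ht).2
  · intro δ' hδ'
    have h1 : Tendsto (fun t : ℝ => 3 * β * Real.exp (-(lam * (t - (T₀ + 1))))) atTop (𝓝 (3 * β * 0)) := by
      refine Tendsto.const_mul _ (Real.tendsto_exp_neg_atTop_nhds_zero.comp ?_)
      exact (tendsto_atTop_add_const_right atTop (-(T₀ + 1)) tendsto_id).const_mul_atTop hlam
    rw [mul_zero] at h1
    obtain ⟨T', hT'⟩ := eventually_atTop.1 (h1.eventually (gt_mem_nhds hδ'))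
    refine ⟨max (T₀ + 1) T', le_max_of_le_left (by linarith), ?_⟩
    have h3 : ∀ᵐ t ∂(volume.restrict (Ioi (max (T₀ + 1) T'))), t ∈ Ioi (max (T₀ + 1) T') :=
      ae_restrict_mem measurableSet_Ioi
    have h4 := ae_mono (Measure.restrict_mono (Ioi_subset_Ioi (le_max_left (T₀ + 1) T')) le_rfl) hwB
    filter_upwards [h3, h4] with t ht ht'
    exact ht'.trans (hT' t ((le_max_right _ _).trans (le_of_lt ht))).le
  · intro t ht
    rcases le_total t (T₀ + 1) with h | h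
    · exact ((hz t ⟨ht, by linarith⟩).1.trans hC1N).trans (by linarith)
    · have e1 : ‖D.ι (u t)‖ ≤ 3 * β := by
        refine ((Ha t h).2.trans (mul_le_of_le_one_right (norm_nonneg _) ?_)).trans hut₁
        rw [Real.exp_le_one_iff]
        have : 0 ≤ lam * (t - (T₀ + 1)) := mul_nonneg hlam.le (by linarith)
        linarith
      have e2 := hT₀S t (by linarith)
      have e3 := hP1 t (by linarith)
      rw [map_sub, map_sub]
      refine (norm_sub_le _ _).trans ?_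
      have := norm_sub_le (D.ι (u t)) (D.ι (S t))
      linarith

end Pool.Agent.NSK
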