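import Pool.Agent.NSK.Conc
import Pool.Agent.NSK.Global
import Pool.Agent.NSD.Rep
import Pool.Agent.NSD.MainAsm

/-!
# MP_fd8964_an, weak density: assembly of the theorem from the interface statements
-/

open MeasureTheory Set Filter Topology
open scoped RealInnerProductSpace ContDiff

noncomputable section

namespace Pool.Agent.NSK

open Pool.Agent.NSD

/-- `u₀ ∈ V` is (represented by) a smooth compactly supported divergence free field. -/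
def InTest {Ω : Set E} (u₀ : V Ω) : Prop := ∃ v : E → E, IsTest Ω v ∧ Represents Ω v u₀

/-- `u` is, on `[0,T]`, a regular solution with force `f` and initial value `u₀`. -/
def IsRegularOn (Ω : Set E) (η T : ℝ) (u₀ : V Ω) (f : ℝ → V' Ω) (u : ℝ → V Ω) : Prop :=
  ∃ w : ℝ → V Ω,
    MemLp w 2 (volume.restrict (Ioc 0 T)) ∧
    (∃ C : ℝ, ∀ᵐ t ∂(volume.restrict (Ioc 0 T)), ‖fld (w t)‖ ≤ C) ∧
    (∀ t ∈ Icc 0 T, u t = u₀ + ∫ s in (0 : ℝ)..t, w s) ∧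
    ∀ᵐ t ∂(volume.restrict (Ioc 0 T)), ∀ v : V Ω,
      ⟪fld (w t), fld v⟫ + trilin (u t) (u t) v + η * ⟪grd (u t), grd v⟫ = f t v

/-- The final statement. -/
def Stmt_Final : Prop := ∀ (Ω : Set E), IsOpen Ω → Bornology.IsBounded Ω → ∀ (η : ℝ), 0 < η →
    (∀ (l : V Ω →L[ℝ] ℝ) (K : Set (V Ω)) (ε : ℝ), IsCompact K → 0 < ε →
      ∃ (u₀ : V Ω) (u : ℝ → V Ω), InTest u₀ ∧ (∀ φ ∈ K, |⟪fld u₀, fld φ⟫ - l φ| < ε) ∧
        IsRegularSolution Ω η u₀ 0 u ∧ ∀ t, ε ≤ t → ‖fld (u t)‖ ≤ ε) ∧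
    (∀ (f : ℝ → V' Ω), AdmissibleForce Ω f → ∀ (T : ℝ), 0 < T → ∀ (v₀ : V Ω) (v : ℝ → V Ω), InTest v₀ →
      IsRegularOn Ω η T v₀ f v →
      ∀ (l : V Ω →L[ℝ] ℝ) (K : Set (V Ω)) (ε : ℝ), IsCompact K → 0 < ε →
        ∃ (u₀ : V Ω) (u : ℝ → V Ω), InTest u₀ ∧ (∀ φ ∈ K, |⟪fld u₀, fld φ⟫ - l φ| < ε) ∧
          IsRegularOn Ω η T u₀ f u ∧ ∀ t ∈ Icc ε T, ‖fld (u t - v t)‖ ≤ ε)

/-! ### Representation -/

theorem rep_add {Ω : Set E} {v w : E → E} {p q : V Ω} (hv : Differentiable ℝ v) (hw : Differentiable ℝ w)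
    (hp : Represents Ω v p) (hq : Represents Ω w q) : Represents Ω (v + w) (p + q : V Ω) := by
  refine ⟨?_, ?_⟩
  · exact (Lp.coeFn_add (p : H1 Ω).fst (q : H1 Ω).fst).trans (hp.1.add hq.1)
  · rw [gradField_add hv hw]
    exact (Lp.coeFn_add (p : H1 Ω).snd (q : H1 Ω).snd).trans (hp.2.add hq.2)

theorem rep_smul {Ω : Set E} {v : E → E} {p : V Ω} (c : ℝ) (hv : Differentiable ℝ v)
    (hp : Represents Ω v p) : Represents Ω (c • v) (c • p : V Ω) := by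
  refine ⟨?_, ?_⟩
  · exact (Lp.coeFn_smul c (p : H1 Ω).fst).trans (hp.1.const_smul c)
  · rw [gradField_smul c hv]
    exact (Lp.coeFn_smul c (p : H1 Ω).snd).trans (hp.2.const_smul c)

theorem fld_add {Ω : Set E} (u v : V Ω) : fld (u + v) = fld u + fld v := rfl
theorem fld_sub {Ω : Set E} (u v : V Ω) : fld (u - v) = fld u - fld v := rfl

theorem small_layer {M c ε : ℝ} (hM : 0 ≤ M) (hc : 0 < c) (hε : 0 < ε) :
    ∃ N₂ : ℝ, ∀ N, N₂ ≤ N → 1 ≤ N → ∀ t, ε ≤ t → M * N * ex c N t ≤ ε / 2 := by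
  obtain ⟨N₂, h⟩ := eventually_atTop.1 (Global.ex_small (M := M) (c := c * ε) (β := ε / 2) (by positivity)
    (by positivity) hM)
  refine ⟨N₂, fun N hN h1 t ht => le_trans ?_ (h N hN)⟩
  have h2 : ex c N t ≤ Real.exp (-(c * ε * N ^ 2)) := by
    unfold ex
    rw [Real.exp_le_exp]
    have h3 : 0 ≤ c * N ^ 2 := by positivity
    have := mul_le_mul_of_nonneg_left ht h3
    linarith
  have h3 : M * N ≤ M * N ^ 3 := by
    refine mul_le_mul_of_nonneg_left ?_ hM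
    calc N = N ^ 1 := (pow_one N).symm
      _ ≤ N ^ 3 := pow_le_pow_right₀ h1 (by norm_num)
  exact mul_le_mul h3 h2 (ex_pos _ _ _).le (by positivity)

/-- The new initial value and its compatibility. -/
theorem layer_data (hCT : Stmt_CompatTest) (hWk : Stmt_Weak) {Ω : Set E} (hΩ : IsOpen Ω)
    (hb : Bornology.IsBounded Ω) {D : Data (V Ω) (L2 Ω)} (hD : IsNSData Ω D) {η : ℝ}
    {s₀ : V Ω} {s : E → E} (hs : IsTest Ω s) (hsV : Represents Ω s s₀)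
    {G : E → E} {n : ℕ} {a : Fin n → E → ℝ} {k ξ : Fin n → E} {q : E → ℝ} (hk : Kick Ω η n a k ξ q G)
    {p : V Ω} (hp : Represents Ω G p) {K : Set (V Ω)} (hK : IsCompact K) {ε : ℝ} (hε : 0 < ε) :
    ∃ N₁ : ℝ, ∀ N, N₁ ≤ N → ∀ P₀ : V Ω, Represents Ω (fun x => G x + waveA N a k ξ x) P₀ →
      InTest (s₀ + P₀) ∧
      (∃ h ∈ Hspace Ω, ∀ v : V Ω, - η * D.a (s₀ + P₀) v - D.b (s₀ + P₀) (s₀ + P₀) v = ⟪h, D.ι v⟫) ∧
      ∀ φ ∈ K, |⟪fld (s₀ + P₀), fld φ⟫ - (⟪fld s₀, fld φ⟫ + ⟪fld p, fld φ⟫)| ≤ ε := by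
  obtain ⟨hwt, hwk⟩ := hWk Ω hΩ hb η n a k ξ q G hk
  obtain ⟨N₁, hN₁⟩ := hwk K ε hK hε
  refine ⟨N₁, fun N hN P₀ hP₀ => ?_⟩
  have hG := hk.test
  have hGW : IsTest Ω (G + waveA N a k ξ) := hG.add (hwt N)
  have hsum : IsTest Ω (s + (G + waveA N a k ξ)) := hs.add hGW
  have hrep : Represents Ω (s + (G + waveA N a k ξ)) (s₀ + P₀ : V Ω) :=
    rep_add hs.differentiable hGW.differentiable hsV hP₀
  refine ⟨⟨_, hsum, hrep⟩, ?_, ?_⟩
  · obtain ⟨h, hh, hcomp⟩ := hCT Ω hΩ hb D hD _ _ hsum hrep η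
    refine ⟨h, hh, fun v => ?_⟩
    rw [hcomp v, hD.1 v]
  · intro φ hφ
    have hrepW : Represents Ω (waveA N a k ξ) (P₀ - p : V Ω) := by
      have h1 := rep_smul (-1) hG.differentiable hp
      have h2 := rep_add hGW.differentiable (hG.smul (-1)).differentiable hP₀ h1
      have e1 : G + waveA N a k ξ + (-1 : ℝ) • G = waveA N a k ξ := by
        funext x; simp
      have e2 : P₀ + (-1 : ℝ) • p = P₀ - p := by rw [neg_one_smul]; abel
      rw [e1] at h2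
      rwa [e2] at h2
    have h3 := hN₁ N hN _ hrepW φ hφ
    have e3 : ⟪fld (s₀ + P₀), fld φ⟫ - (⟪fld s₀, fld φ⟫ + ⟪fld p, fld φ⟫) = ⟪fld (P₀ - p), fld φ⟫ := by
      rw [fld_add, fld_sub, inner_add_left, inner_sub_left]; ring
    rwa [e3]

/-! ### Theorem 1 -/

theorem step_global (hGl : Stmt_Global) (hLay : Stmt_Layer) (hCT : Stmt_CompatTest) (hWk : Stmt_Weak)
    {Ω : Set E} (hΩ : IsOpen Ω) (hb : Bornology.IsBounded Ω) {D : Data (V Ω) (L2 Ω)} (hD : IsNSData Ω D)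
    {η : ℝ} (hη : 0 < η) {S W : ℝ → V Ω} (hS : GoodSol D η S W) (hs : InTest (S 0))
    {G : E → E} (hG : IsKick Ω η G) {p : V Ω} (hp : Represents Ω G p) {K : Set (V Ω)} (hK : IsCompact K)
    {ε : ℝ} (hε : 0 < ε) :
    ∃ S' W' : ℝ → V Ω, GoodSol D η S' W' ∧ InTest (S' 0) ∧
      (∀ φ ∈ K, |⟪fld (S' 0), fld φ⟫ - (⟪fld (S 0), fld φ⟫ + ⟪fld p, fld φ⟫)| ≤ ε) ∧
      ∀ t, ε ≤ t → ‖fld (S' t)‖ ≤ ‖fld (S t)‖ + ε := by
  obtain ⟨s, hst, hsV⟩ := hs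
  obtain ⟨n, a, k, ξ, q, hk⟩ := hG
  obtain ⟨M, c, hM, hc, hlay⟩ := hLay Ω hΩ hb D hD η n a k ξ q G s (S 0) hη hk hst hsV
  obtain ⟨N₀, hN₀, hgl⟩ := hGl (V Ω) (L2 Ω) D η M c S W hη hM hc hS (ε / 2) (by positivity)
  obtain ⟨N₁, hN₁⟩ := layer_data hCT hWk hΩ hb hD hst hsV hk hp hK hε
  obtain ⟨N₂, hN₂⟩ := small_layer hM hc hε
  set N : ℝ := max (max N₀ N₁) N₂ with hN
  have hN0 : N₀ ≤ N := (le_max_left _ _).trans (le_max_left _ _)
  have h1N : 1 ≤ N := hN₀.trans hN0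
  obtain ⟨P, P', ρ, hL, hrep⟩ := hlay N h1N
  obtain ⟨h1, ⟨h, hh, hcomp⟩, h3⟩ := hN₁ N ((le_max_right _ _).trans (le_max_left _ _)) (P 0) hrep
  obtain ⟨u, w, hu, hu0, hub⟩ := hgl N P P' ρ h hN0 hL hcomp
  refine ⟨u, w, hu, by rwa [hu0], by rwa [hu0], fun t ht => ?_⟩
  have ht0 : 0 ≤ t := by linarith
  have e1 := hub t ht0
  rw [hD.1] at e1
  have e2 := (hL.iP t ht0).trans (hN₂ N (le_max_right _ _) h1N t ht)
  rw [hD.1] at e2
  have e3 : fld (u t) = fld (u t - S t - P t) + fld (S t) + fld (P t) := by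
    rw [fld_sub, fld_sub]; abel
  rw [e3]
  refine (norm_add_le _ _).trans ?_
  have := norm_add_le (fld (u t - S t - P t)) (fld (S t))
  linarith

theorem zero_good {V K : Type*} [NormedAddCommGroup V] [InnerProductSpace ℝ V]
    [NormedAddCommGroup K] [InnerProductSpace ℝ K] (D : Data V K) (η : ℝ) :
    GoodSol D η (fun _ => 0) (fun _ => 0) := by
  have hs : D.sig 0 = 0 := by simp [Data.sig]
  refine ⟨Global.zero_h1, Filter.Eventually.of_forall fun t v => by simp, ⟨0, fun T hT => ?_⟩, ?_, ?_⟩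
  · refine ⟨Filter.Eventually.of_forall fun t => by simp, fun t _ => by simp [hs], ?_, ?_⟩
    · simp [hs]
    · simp [hs]
  · simp
  · intro δ hδ
    exact ⟨0, le_rfl, Filter.Eventually.of_forall fun t => by simpa using hδ.le⟩

theorem inTest_zero (Ω : Set E) : InTest (0 : V Ω) := by
  refine ⟨0, isTest_zero Ω, ?_, ?_⟩
  · exact Lp.coeFn_zero E 2 _
  · rw [gradField_zero]; exact Lp.coeFn_zero G 2 _

theorem induct_global (hGl : Stmt_Global) (hLay : Stmt_Layer) (hCT : Stmt_CompatTest) (hWk : Stmt_Weak)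
    {Ω : Set E} (hΩ : IsOpen Ω) (hb : Bornology.IsBounded Ω) {D : Data (V Ω) (L2 Ω)} (hD : IsNSData Ω D)
    {η : ℝ} (hη : 0 < η) (n : ℕ) : ∀ (G : Fin n → E → E) (p : Fin n → V Ω), (∀ i, IsKick Ω η (G i)) →
      (∀ i, Represents Ω (G i) (p i)) → ∀ (K : Set (V Ω)) (ε : ℝ), IsCompact K → 0 < ε →
      ∃ S W : ℝ → V Ω, GoodSol D η S W ∧ InTest (S 0) ∧
        (∀ φ ∈ K, |⟪fld (S 0), fld φ⟫ - ∑ i, ⟪fld (p i), fld φ⟫| ≤ ε) ∧ ∀ t, ε ≤ t → ‖fld (S t)‖ ≤ ε := by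
  induction n with
  | zero =>
    intro G p hG hp K ε hK hε
    have hf0 : fld (0 : V Ω) = 0 := rfl
    refine ⟨fun _ => 0, fun _ => 0, zero_good D η, inTest_zero Ω, fun φ _ => ?_, fun t _ => ?_⟩
    · simp [hf0, hε.le]
    · simp [hf0, hε.le]
  | succ n ih =>
    intro G p hG hp K ε hK hε
    obtain ⟨S, W, hS, hs, h1, h2⟩ := ih (fun i => G i.castSucc) (fun i => p i.castSucc)
      (fun i => hG _) (fun i => hp _) K (ε / 2) hK (by positivity)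
    obtain ⟨S', W', hS', hs', h1', h2'⟩ := step_global hGl hLay hCT hWk hΩ hb hD hη hS hs
      (hG (Fin.last n)) (hp (Fin.last n)) hK (by positivity : 0 < ε / 2)
    refine ⟨S', W', hS', hs', fun φ hφ => ?_, fun t ht => ?_⟩
    · rw [Fin.sum_univ_castSucc]
      have a1 := abs_le.1 (h1 φ hφ)
      have a2 := abs_le.1 (h1' φ hφ)
      rw [abs_le]
      constructor <;> linarith [a1.1, a1.2, a2.1, a2.2]
    · have := h2 t (by linarith)
      have := h2' t (by linarith)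
      linarith

theorem good_regular {Ω : Set E} {D : Data (V Ω) (L2 Ω)} (hD : IsNSData Ω D) {η : ℝ} {S W : ℝ → V Ω}
    (hS : GoodSol D η S W) : IsRegularSolution Ω η (S 0) 0 S := by
  obtain ⟨C, hC⟩ := hS.bd
  refine ⟨W, hS.h1.memLp, fun T => ⟨C, ?_⟩, hS.h1.eq, ?_⟩
  · have := (hC (max T 0) (le_max_right _ _)).iW
    refine ae_mono (Measure.restrict_mono (Ioc_subset_Ioc_right (le_max_left T 0)) le_rfl) ?_
    filter_upwards [this] with t ht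
    rwa [← hD.1]
  · filter_upwards [hS.eq] with t ht v
    have := ht v
    rw [hD.1, hD.1, hD.2.1, hD.2.2] at this
    simp only [Pi.zero_apply, ContinuousLinearMap.zero_apply]
    linarith

/-! ### Theorem 2 -/

theorem step_finite (hFT : Stmt_FiniteT) (hLay : Stmt_Layer) (hCT : Stmt_CompatTest) (hWk : Stmt_Weak)
    {Ω : Set E} (hΩ : IsOpen Ω) (hb : Bornology.IsBounded Ω) {D : Data (V Ω) (L2 Ω)} (hD : IsNSData Ω D)
    {η : ℝ} (hη : 0 < η) {f f₁ : ℝ → V' Ω} (hf : IsH1loc f f₁) {h₁ : L2 Ω} (hf0 : ∀ v : V Ω, f 0 v = ⟪h₁, fld v⟫)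
    {T : ℝ} (hT : 0 < T) {S W : ℝ → V Ω} (hS : SolOn D η f T S W) (hbd : ∃ C, BdOn D C T S W) (hs : InTest (S 0))
    {G : E → E} (hG : IsKick Ω η G) {p : V Ω} (hp : Represents Ω G p) {K : Set (V Ω)} (hK : IsCompact K)
    {ε : ℝ} (hε : 0 < ε) :
    ∃ S' W' : ℝ → V Ω, SolOn D η f T S' W' ∧ (∃ C, BdOn D C T S' W') ∧ InTest (S' 0) ∧
      (∀ φ ∈ K, |⟪fld (S' 0), fld φ⟫ - (⟪fld (S 0), fld φ⟫ + ⟪fld p, fld φ⟫)| ≤ ε) ∧
      ∀ t ∈ Icc ε T, ‖fld (S' t - S t)‖ ≤ ε := by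
  obtain ⟨s, hst, hsV⟩ := hs
  obtain ⟨n, a, k, ξ, q, hk⟩ := hG
  obtain ⟨C₀, hC₀⟩ := hbd
  have hC₀' := hC₀.mono_const (le_max_left C₀ 0)
  obtain ⟨M, c, hM, hc, hlay⟩ := hLay Ω hΩ hb D hD η n a k ξ q G s (S 0) hη hk hst hsV
  obtain ⟨N₀, C, hN₀, hC, hft⟩ := hFT (V Ω) (L2 Ω) D η M c (max C₀ 0) hη hM hc (le_max_right _ _)
  obtain ⟨N₁, hN₁⟩ := layer_data hCT hWk hΩ hb hD hst hsV hk hp hK hε
  obtain ⟨N₂, hN₂⟩ := small_layer hM hc hε
  set N : ℝ := max (max N₀ N₁) (max N₂ (2 * C / ε)) with hN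
  have hN0 : N₀ ≤ N := (le_max_left _ _).trans (le_max_left _ _)
  have h1N : 1 ≤ N := hN₀.trans hN0
  have hNpos : 0 < N := by linarith
  obtain ⟨P, P', ρ, hL, hrep⟩ := hlay N h1N
  obtain ⟨h1, ⟨h, hh, hcomp⟩, h3⟩ := hN₁ N ((le_max_right _ _).trans (le_max_left _ _)) (P 0) hrep
  obtain ⟨κ, u, w, -, hκ, hmod, hu0, hsol, hσ, hz, -⟩ := hft N T f f₁ S W P P' ρ (h₁ + h) hN0 hT.le hf hS hC₀' hL
    (by
      intro v
      rw [inner_add_left, ← hcomp v, hf0 v, hD.1 v]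
      ring) 0
  have hCN : C / N ≤ ε / 2 := by
    have : 2 * C / ε ≤ N := (le_max_right _ _).trans (le_max_right _ _)
    rw [div_le_iff₀ hε] at this
    rw [div_le_div_iff₀ hNpos (by norm_num)]
    linarith
  obtain ⟨Ca, hCa⟩ := hmod.iw T
  refine ⟨u, w, hsol, ⟨|Ca| + κ + |∫ t in (0 : ℝ)..T, D.sig (u t) ^ 4| + |∫ t in (0 : ℝ)..T, D.sig (w t) ^ 2|,
    ?_, ?_, ?_, ?_⟩, by rwa [hu0], by rwa [hu0], fun t ht => ?_⟩
  · filter_upwards [hCa] with t ht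
    have := le_abs_self Ca
    have := abs_nonneg (∫ t in (0 : ℝ)..T, D.sig (u t) ^ 4)
    have := abs_nonneg (∫ t in (0 : ℝ)..T, D.sig (w t) ^ 2)
    linarith
  · intro t ht
    have := hσ t ht
    have := abs_nonneg Ca
    have := abs_nonneg (∫ t in (0 : ℝ)..T, D.sig (u t) ^ 4)
    have := abs_nonneg (∫ t in (0 : ℝ)..T, D.sig (w t) ^ 2)
    linarith
  · have := abs_nonneg Ca
    have := le_abs_self (∫ t in (0 : ℝ)..T, D.sig (u t) ^ 4)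
    have := abs_nonneg (∫ t in (0 : ℝ)..T, D.sig (w t) ^ 2)
    linarith
  · have := abs_nonneg Ca
    have := abs_nonneg (∫ t in (0 : ℝ)..T, D.sig (u t) ^ 4)
    have := le_abs_self (∫ t in (0 : ℝ)..T, D.sig (w t) ^ 2)
    linarith
  · have ht0 : 0 ≤ t := by linarith [ht.1]
    have e1 := (hz t ⟨ht0, ht.2⟩).1.trans hCN
    rw [hD.1] at e1
    have e2 := (hL.iP t ht0).trans (hN₂ N ((le_max_left _ _).trans (le_max_right _ _)) h1N t ht.1)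
    rw [hD.1] at e2
    have e3 : fld (u t - S t) = fld (u t - S t - P t) + fld (P t) := by
      rw [fld_sub (u t - S t)]; abel
    rw [e3]
    refine (norm_add_le _ _).trans ?_
    linarith

theorem induct_finite (hFT : Stmt_FiniteT) (hLay : Stmt_Layer) (hCT : Stmt_CompatTest) (hWk : Stmt_Weak)
    {Ω : Set E} (hΩ : IsOpen Ω) (hb : Bornology.IsBounded Ω) {D : Data (V Ω) (L2 Ω)} (hD : IsNSData Ω D)
    {η : ℝ} (hη : 0 < η) {f f₁ : ℝ → V' Ω} (hf : IsH1loc f f₁) {h₁ : L2 Ω} (hf0 : ∀ v : V Ω, f 0 v = ⟪h₁, fld v⟫)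
    {T : ℝ} (hT : 0 < T) {S₀ W₀ : ℝ → V Ω} (hS₀ : SolOn D η f T S₀ W₀) (hbd₀ : ∃ C, BdOn D C T S₀ W₀)
    (hs₀ : InTest (S₀ 0)) (n : ℕ) :
    ∀ (G : Fin n → E → E) (p : Fin n → V Ω), (∀ i, IsKick Ω η (G i)) →
      (∀ i, Represents Ω (G i) (p i)) → ∀ (K : Set (V Ω)) (ε : ℝ), IsCompact K → 0 < ε →
      ∃ S W : ℝ → V Ω, SolOn D η f T S W ∧ (∃ C, BdOn D C T S W) ∧ InTest (S 0) ∧
        (∀ φ ∈ K, |⟪fld (S 0), fld φ⟫ - (⟪fld (S₀ 0), fld φ⟫ + ∑ i, ⟪fld (p i), fld φ⟫)| ≤ ε) ∧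
        ∀ t ∈ Icc ε T, ‖fld (S t - S₀ t)‖ ≤ ε := by
  induction n with
  | zero =>
    intro G p hG hp K ε hK hε
    refine ⟨S₀, W₀, hS₀, hbd₀, hs₀, fun φ _ => ?_, fun t _ => ?_⟩
    · simp [hε.le]
    · have : fld (S₀ t - S₀ t) = 0 := by rw [fld_sub, sub_self]
      rw [this, norm_zero]; exact hε.le
  | succ n ih =>
    intro G p hG hp K ε hK hε
    obtain ⟨S, W, hS, hbd, hs, h1, h2⟩ := ih (fun i => G i.castSucc) (fun i => p i.castSucc)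
      (fun i => hG _) (fun i => hp _) K (ε / 2) hK (by positivity)
    obtain ⟨S', W', hS', hbd', hs', h1', h2'⟩ := step_finite hFT hLay hCT hWk hΩ hb hD hη hf hf0 hT hS hbd hs
      (hG (Fin.last n)) (hp (Fin.last n)) hK (by positivity : 0 < ε / 2)
    refine ⟨S', W', hS', hbd', hs', fun φ hφ => ?_, fun t ht => ?_⟩
    · rw [Fin.sum_univ_castSucc]
      have a1 := abs_le.1 (h1 φ hφ)
      have a2 := abs_le.1 (h1' φ hφ)
      rw [abs_le]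
      constructor <;> linarith [a1.1, a1.2, a2.1, a2.2]
    · have b1 := h2 t ⟨by linarith [ht.1], ht.2⟩
      have b2 := h2' t ⟨by linarith [ht.1], ht.2⟩
      have e1 : fld (S' t - S₀ t) = fld (S' t - S t) + fld (S t - S₀ t) := by
        rw [fld_sub, fld_sub, fld_sub]; abel
      rw [e1]
      refine (norm_add_le _ _).trans ?_
      linarith

/-- A regular solution on `[0,T]` gives a `SolOn` with `BdOn`. -/
theorem regOn_sol {Ω : Set E} {D : Data (V Ω) (L2 Ω)} (hD : IsNSData Ω D) {η T : ℝ} (hT : 0 < T) {f : ℝ → V' Ω}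
    {v₀ : V Ω} {v : ℝ → V Ω} (h : IsRegularOn Ω η T v₀ f v) :
    ∃ S W : ℝ → V Ω, SolOn D η f T S W ∧ (∃ C, BdOn D C T S W) ∧ S 0 = v₀ ∧ ∀ t ∈ Icc 0 T, S t = v t := by
  obtain ⟨w, hw, ⟨C, hC⟩, hv, heq⟩ := h
  have hmem : ∀ᵐ t ∂(volume.restrict (Ioc 0 T)), t ∈ Ioc 0 T := ae_restrict_mem measurableSet_Ioc
  set W : ℝ → V Ω := (Ioc 0 T).indicator w with hW
  have hWL : MemLp W 2 volume := (memLp_indicator_iff_restrict measurableSet_Ioc).2 hw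
  set S : ℝ → V Ω := fun t => v₀ + ∫ s in (0 : ℝ)..t, W s with hSdef
  have hS0 : S 0 = v₀ := by simp [hSdef]
  have hSv : ∀ t ∈ Icc 0 T, S t = v t := by
    intro t ht
    rw [hv t ht, hSdef]
    simp only
    congr 1
    refine intervalIntegral.integral_congr_ae (Filter.Eventually.of_forall fun s hs => ?_)
    rw [uIoc_of_le ht.1] at hs
    rw [hW, indicator_of_mem (show s ∈ Ioc 0 T from ⟨hs.1, hs.2.trans ht.2⟩)]
  have hH1 : IsH1loc S W := ⟨fun T' => hWL.restrict _, fun t _ => by rw [hS0]⟩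
  have hcont := continuousOn_sig hH1 D
  obtain ⟨C₁, hC₁⟩ := isCompact_Icc.exists_bound_of_continuousOn
    (hcont.mono (fun x (hx : x ∈ Icc (0 : ℝ) T) => hx.1))
  refine ⟨S, W, ⟨hH1, ?_⟩, ⟨|C| + |C₁| + |∫ t in (0 : ℝ)..T, D.sig (S t) ^ 4|
    + |∫ t in (0 : ℝ)..T, D.sig (W t) ^ 2|, ?_, ?_, ?_, ?_⟩, hS0, hSv⟩
  · filter_upwards [heq, hmem] with t ht htm v'
    have := ht v'
    rw [hD.1, hD.1, hD.2.1, hD.2.2, hSv t ⟨htm.1.le, htm.2⟩, hW, indicator_of_mem htm]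
    linarith
  · filter_upwards [hC, hmem] with t ht htm
    rw [hD.1, hW, indicator_of_mem htm]
    have := le_abs_self C
    have := abs_nonneg C₁
    have := abs_nonneg (∫ t in (0 : ℝ)..T, D.sig (S t) ^ 4)
    have := abs_nonneg (∫ t in (0 : ℝ)..T, D.sig (W t) ^ 2)
    linarith
  · intro t ht
    have h1 := hC₁ t ht
    rw [Real.norm_of_nonneg (D.sig_nonneg _)] at h1
    have := le_abs_self C₁
    have := abs_nonneg C
    have := abs_nonneg (∫ t in (0 : ℝ)..T, D.sig (S t) ^ 4)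
    have := abs_nonneg (∫ t in (0 : ℝ)..T, D.sig (W t) ^ 2)
    linarith
  · have := abs_nonneg C
    have := abs_nonneg C₁
    have := le_abs_self (∫ t in (0 : ℝ)..T, D.sig (S t) ^ 4)
    have := abs_nonneg (∫ t in (0 : ℝ)..T, D.sig (W t) ^ 2)
    linarith
  · have := abs_nonneg C
    have := abs_nonneg C₁
    have := abs_nonneg (∫ t in (0 : ℝ)..T, D.sig (S t) ^ 4)
    have := le_abs_self (∫ t in (0 : ℝ)..T, D.sig (W t) ^ 2)
    linarith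

theorem sol_regOn {Ω : Set E} {D : Data (V Ω) (L2 Ω)} (hD : IsNSData Ω D) {η T : ℝ} {f : ℝ → V' Ω}
    {S W : ℝ → V Ω} (hS : SolOn D η f T S W) (hbd : ∃ C, BdOn D C T S W) : IsRegularOn Ω η T (S 0) f S := by
  obtain ⟨C, hC⟩ := hbd
  refine ⟨W, hS.h1.memLp T, ⟨C, ?_⟩, fun t ht => hS.h1.eq t ht.1, ?_⟩
  · filter_upwards [hC.iW] with t ht
    rwa [← hD.1]
  · filter_upwards [hS.eq] with t ht v
    have := ht v
    rw [hD.1, hD.1, hD.2.1, hD.2.2] at this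
    linarith

theorem final_of (hDat : Stmt_Data) (hFT : Stmt_FiniteT) (hGl : Stmt_Global) (hLay : Stmt_Layer)
    (hCT : Stmt_CompatTest) (hWk : Stmt_Weak) (hKD : Stmt_KDense) : Stmt_Final := by
  intro Ω hΩ hb η hη
  obtain ⟨D, hD⟩ := hDat Ω hΩ hb
  refine ⟨?_, ?_⟩
  · intro l K ε hK hε
    obtain ⟨R, hR⟩ := hK.isBounded.exists_norm_le
    obtain ⟨n, G, p, hG, hp, hl⟩ := hKD Ω hΩ hb η hη l (ε / (4 * (|R| + 1))) (by positivity)
    obtain ⟨S, W, hS, hs, h1, h2⟩ := induct_global hGl hLay hCT hWk hΩ hb hD hη n G p hG hp K (ε / 2) hK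
      (by positivity)
    refine ⟨S 0, S, hs, fun φ hφ => ?_, good_regular hD hS, fun t ht => (h2 t (by linarith)).trans (by linarith)⟩
    have a1 := abs_le.1 (h1 φ hφ)
    have a2 : ε / (4 * (|R| + 1)) * ‖φ‖ ≤ ε / 4 := by
      have h3 := (hR φ hφ).trans (le_abs_self R)
      rw [div_mul_eq_mul_div, div_le_div_iff₀ (by positivity) (by norm_num)]
      have := abs_nonneg R
      nlinarith
    have a3 := abs_le.1 ((hl φ).trans a2)
    rw [abs_lt]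
    constructor <;> linarith [a1.1, a1.2, a3.1, a3.2]
  · intro f hf T hT v₀ v hv₀ hv l K ε hK hε
    obtain ⟨⟨f₁, hf₁, hf₂⟩, h₁, hh₁, hfh⟩ := hf
    obtain ⟨S₀, W₀, hS₀, hbd₀, hS00, hSv⟩ := regOn_sol hD hT hv
    obtain ⟨R, hR⟩ := hK.isBounded.exists_norm_le
    let l' : V Ω →L[ℝ] ℝ := l - (innerSL ℝ (fld (S₀ 0))).comp (fldLM Ω)
    have hl' : ∀ φ, l' φ = l φ - ⟪fld (S₀ 0), fld φ⟫ := fun φ => rfl
    obtain ⟨n, G, p, hG, hp, hl⟩ := hKD Ω hΩ hb η hη l' (ε / (4 * (|R| + 1))) (by positivity)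
    obtain ⟨S, W, hS, hbd, hs, h1, h2⟩ := induct_finite hFT hLay hCT hWk hΩ hb hD hη ⟨hf₁, hf₂⟩ hfh hT hS₀ hbd₀
      (by rwa [hS00]) n G p hG hp K (ε / 2) hK (by positivity)
    refine ⟨S 0, S, hs, fun φ hφ => ?_, sol_regOn hD hS hbd, fun t ht => ?_⟩
    · have a1 := abs_le.1 (h1 φ hφ)
      have a2 : ε / (4 * (|R| + 1)) * ‖φ‖ ≤ ε / 4 := by
        have h3 := (hR φ hφ).trans (le_abs_self R)
        rw [div_mul_eq_mul_div, div_le_div_iff₀ (by positivity) (by norm_num)]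
        have := abs_nonneg R
        nlinarith
      have a3 := abs_le.1 ((hl φ).trans a2)
      rw [hl'] at a3
      rw [abs_lt]
      constructor <;> linarith [a1.1, a1.2, a3.1, a3.2]
    · rw [← hSv t ⟨by linarith [ht.1], ht.2⟩]
      exact (h2 t ⟨by linarith [ht.1], ht.2⟩).trans (by linarith)

end Pool.Agent.NSK
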