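import Pool.Agent.NSK.Unif

/-!
# MP_fd8964_an, weak density: Theorem A for a family of time horizons
-/

open MeasureTheory Set Filter Topology
open scoped RealInnerProductSpace

noncomputable section

namespace Pool.Agent.NSK

open Pool.Agent.NSD

namespace Full

theorem pow4_le {a b c : ℝ} (ha : 0 ≤ a) (hb : 0 ≤ b) (hc : 0 ≤ c) :
    (a + b + c) ^ 4 ≤ 27 * (a ^ 4 + b ^ 4 + c ^ 4) := by
  have h1 : (a + b + c) ^ 2 ≤ 3 * (a ^ 2 + b ^ 2 + c ^ 2) := by
    nlinarith [sq_nonneg (a - b), sq_nonneg (b - c), sq_nonneg (a - c)]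
  have h2 : (a ^ 2 + b ^ 2 + c ^ 2) ^ 2 ≤ 3 * (a ^ 4 + b ^ 4 + c ^ 4) := by
    nlinarith [sq_nonneg (a ^ 2 - b ^ 2), sq_nonneg (b ^ 2 - c ^ 2), sq_nonneg (a ^ 2 - c ^ 2)]
  have h3 : ((a + b + c) ^ 2) ^ 2 ≤ (3 * (a ^ 2 + b ^ 2 + c ^ 2)) ^ 2 := pow_le_pow_left₀ (by positivity) h1 2
  nlinarith

end Full

open Full in
theorem full_proof (hA : Stmt_Abstract) (h1 : Stmt_E1) (h3 : Stmt_E3) (hU : Stmt_Unif) : Stmt_Full := by
  intro V K _ _ _ _ _ D η M c CS hη hM hc hCS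
  obtain ⟨C₁, hC₁, H1⟩ := h1 V K D η M c CS hη hM hc hCS
  obtain ⟨C₃, hC₃, H3⟩ := h3 V K D η M c CS hη hM hc hCS
  refine ⟨2 * C₃ + 1, 1 + C₁ + 2 * C₃ + C₁ / η, by linarith, by positivity, ?_⟩
  intro N TT f f₁ S W P P' ρ h₀ hN hTT hf hST hSW hS0 hL hcomp
  have hN1 : 1 ≤ N := by linarith
  have hN0 : 0 < N := by linarith
  set κ : ℝ := CS + M * N ^ 2 + √N + 1 with hκdef
  have hsq : 0 ≤ √N := Real.sqrt_nonneg _
  have hMN : 0 ≤ M * N ^ 2 := by positivity
  have hκ : 0 < κ := by linarith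
  have hκ' : CS + M * N ^ 2 + √N ≤ κ := by linarith
  have hP : ∀ t, 0 ≤ t → D.sig (P t) ≤ M * N ^ 2 * ex c N t := fun t ht => hL.sigP t ht
  have hP' : ∀ t, 0 ≤ t → D.sig (P t) ≤ M * N ^ 2 := fun t ht =>
    (hP t ht).trans (mul_le_of_le_one_right hMN (ex_le_one hc.le ht))
  have hu₀ : D.sig (S 0 + P 0) ≤ κ := by
    have := D.sig_add_le (S 0) (P 0)
    have := hP' 0 le_rfl
    linarith
  obtain ⟨u, w, huw, hu0, hiw, heq, -, -⟩ := hA V K D η 1 κ f f₁ (S 0 + P 0) h₀ hη one_pos hκ hf hu₀ hcomp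
  have hcu := huw.continuousOn
  have hcS := hSW.continuousOn
  have hcz : ContinuousOn (fun t => u t - S t - P t) (Ici 0) := (hcu.sub hcS).sub hL.cont
  have hcσ : ContinuousOn (fun t => D.sig (u t - S t - P t)) (Ici 0) := D.continuous_sig.comp_continuousOn hcz
  -- on an interval where `σ(z)² ≤ N`, `u` solves the Navier-Stokes problem
  have hsol : ∀ T ∈ TT, ∀ τ, 0 ≤ τ → τ ≤ T → (∀ t ∈ Icc 0 τ, D.sig (u t - S t - P t) ^ 2 ≤ N) →
      (∀ t ∈ Icc 0 τ, D.sig (u t) ≤ κ) ∧ SolOn D η f τ u w := by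
    intro T hT τ hτ0 hτT hz
    have hle : ∀ t ∈ Icc 0 τ, D.sig (u t) ≤ κ := by
      intro t ht
      have e1 : u t = (u t - S t - P t) + (S t + P t) := by abel
      have e2 := D.sig_add_le (u t - S t - P t) (S t + P t)
      have e3 := D.sig_add_le (S t) (P t)
      have e4 := (hST T hT).2.sig t ⟨ht.1, ht.2.trans hτT⟩
      have e5 := hP' t ht.1
      have e6 : D.sig (u t - S t - P t) ≤ √N := Real.le_sqrt_of_sq_le (hz t ht)
      rw [← e1] at e2
      linarith
    refine ⟨hle, huw, ?_⟩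
    have heq' := ae_mono (Measure.restrict_mono (s := Ioc 0 τ) (s' := Ioi 0) (fun x hx => hx.1) le_rfl) heq
    have hmem : ∀ᵐ t ∂(volume.restrict (Ioc 0 τ)), t ∈ Ioc 0 τ := ae_restrict_mem measurableSet_Ioc
    filter_upwards [heq', hmem] with t ht htm v
    have := ht v
    rwa [phi_eq_zero (hle t ⟨htm.1.le, htm.2⟩), add_zero] at this
  have hboot : ∀ T ∈ TT, ∀ t ∈ Icc 0 T, D.sig (u t - S t - P t) ^ 2 ≤ 2 * C₃ := by
    intro T hT
    obtain ⟨hS, hbd⟩ := hST T hT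
    refine bootstrap (b := N) ((hcσ.mono Icc_subset_Ici_self).pow 2) ?_ (by linarith) ?_
    · have : u 0 - S 0 - P 0 = 0 := by rw [hu0]; abel
      rw [this]
      have : D.sig 0 = 0 := by simp [Data.sig]
      rw [this]; simpa using hC₃
    · intro τ hτ0 hτT hz t ht
      obtain ⟨-, hsolτ⟩ := hsol T hT τ hτ0 hτT hz
      have hbd' : BdOn D CS τ S W := hbd.mono hS.h1 hτ0 hτT
      have := H3 N τ N f S W u w P P' ρ hN1 hτ0 (hS.mono hτT) hbd' hsolτ hL hu0 hN0.le le_rfl hz t ht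
      refine this.trans ?_
      have hsqN : √N ≤ N := by
        rw [Real.sqrt_le_left hN0.le]
        nlinarith
      have : √N / N ≤ 1 := (div_le_one hN0).2 hsqN
      nlinarith
  have hall : ∀ T ∈ TT, (∀ t ∈ Icc 0 T, D.sig (u t) ≤ κ) ∧ SolOn D η f T u w := fun T hT =>
    hsol T hT T (hTT T hT) le_rfl (fun t ht => (hboot T hT t ht).trans (by linarith))
  have hE1 : ∀ T ∈ TT, (∀ t ∈ Icc 0 T, ‖D.ι (u t - S t - P t)‖ ^ 2
        + η * ∫ s in (0 : ℝ)..t, D.sig (u s - S s - P s) ^ 2 ≤ C₁ / N ^ 2) ∧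
      (∀ h ∈ Icc 0 T, h ≤ 1 → ‖D.ι (u h - S h - P h)‖ ^ 2 ≤ C₁ * N ^ 2 * h ^ 2) := fun T hT =>
    H1 N T f S W u w P P' ρ hN1 (hTT T hT) (hST T hT).1 (hST T hT).2 (hall T hT).2 hL hu0
  -- the constant for `Stmt_Unif`
  set A : ℝ := CS + κ + 27 * (CS + (M * N ^ 2) ^ 4 * (1 / (c * N ^ 2)) + 2 * C₃ * (C₁ / η / N ^ 2))
    + (√C₁ * N + M * N ^ 3) with hAdef
  have p1 : 0 ≤ 27 * (CS + (M * N ^ 2) ^ 4 * (1 / (c * N ^ 2)) + 2 * C₃ * (C₁ / η / N ^ 2)) := by positivity
  have p2 : 0 ≤ √C₁ * N + M * N ^ 3 := by positivity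
  obtain ⟨C', hC', HU⟩ := hU V K D η A hη (by positivity)
  have hI : ∀ T ∈ TT, ∫ s in (0 : ℝ)..T, D.sig (u s - S s - P s) ^ 2 ≤ C₁ / η / N ^ 2 := by
    intro T hT
    have b1 := (hE1 T hT).1 T ⟨hTT T hT, le_rfl⟩
    have b2 := sq_nonneg ‖D.ι (u T - S T - P T)‖
    have b3 : C₁ / η / N ^ 2 = (C₁ / N ^ 2) / η := by ring
    rw [b3, le_div_iff₀ hη]
    linarith
  have p3 : 0 ≤ C₁ / η := by positivity
  refine ⟨u, w, huw, hu0, ⟨C', fun T hT => ⟨(hall T hT).2, ?_⟩⟩, fun T hT => ⟨fun t ht => ⟨?_, ?_⟩, ?_⟩⟩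
  · have hT0 := hTT T hT
    obtain ⟨hS, hbd⟩ := hST T hT
    refine HU T f S W u w hT0 hS (hbd.mono_const (by linarith)) (hall T hT).2
      (fun t ht => ((hall T hT).1 t ht).trans (by linarith)) ?_ ?_
    · -- `∫ σ(u)⁴`
      have hmono : ∀ {g : ℝ → ℝ}, ContinuousOn g (Ici 0) → IntervalIntegrable g volume 0 T := fun hg =>
        ContinuousOn.intervalIntegrable_of_Icc hT0 (hg.mono (fun x hx => hx.1))
      have c1 : ContinuousOn (fun t => D.sig (u t) ^ 4) (Ici 0) := (D.continuous_sig.comp_continuousOn hcu).pow 4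
      have c2 : ContinuousOn (fun t => D.sig (S t) ^ 4) (Ici 0) := (D.continuous_sig.comp_continuousOn hcS).pow 4
      have c3 : ContinuousOn (fun t => (M * N ^ 2) ^ 4 * ex c N t) (Ici 0) :=
        (continuous_const.mul (continuous_ex c N)).continuousOn
      have c4 : ContinuousOn (fun t => 2 * C₃ * D.sig (u t - S t - P t) ^ 2) (Ici 0) :=
        continuousOn_const.mul (hcσ.pow 2)
      have hle : ∫ t in (0 : ℝ)..T, D.sig (u t) ^ 4 ≤ ∫ t in (0 : ℝ)..T,
          27 * (D.sig (S t) ^ 4 + (M * N ^ 2) ^ 4 * ex c N t + 2 * C₃ * D.sig (u t - S t - P t) ^ 2) := by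
        refine intervalIntegral.integral_mono_on hT0 (hmono c1)
          (hmono (continuousOn_const.mul ((c2.add c3).add c4))) (fun t ht => ?_)
        have n1 := D.sig_nonneg (S t)
        have n2 := D.sig_nonneg (P t)
        have n3 := D.sig_nonneg (u t - S t - P t)
        have e1 : u t = S t + P t + (u t - S t - P t) := by abel
        have e2 : D.sig (u t) ≤ D.sig (S t) + D.sig (P t) + D.sig (u t - S t - P t) := by
          have a1 := D.sig_add_le (S t + P t) (u t - S t - P t)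
          have a2 := D.sig_add_le (S t) (P t)
          rw [← e1] at a1
          linarith
        have e3 := pow_le_pow_left₀ (D.sig_nonneg (u t)) e2 4
        have e4 := pow4_le n1 n2 n3
        have e5 : D.sig (P t) ^ 4 ≤ (M * N ^ 2) ^ 4 * ex c N t := by
          have b1 := pow_le_pow_left₀ n2 (hP t ht.1) 4
          rw [mul_pow] at b1
          refine b1.trans (mul_le_mul_of_nonneg_left ?_ (by positivity))
          have b2 := ex_le_one (N := N) hc.le ht.1
          have b3 := (ex_pos c N t).le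
          calc ex c N t ^ 4 ≤ ex c N t ^ 1 := pow_le_pow_of_le_one b3 b2 (by norm_num)
            _ = ex c N t := pow_one _
        have e6 : D.sig (u t - S t - P t) ^ 4 ≤ 2 * C₃ * D.sig (u t - S t - P t) ^ 2 := by
          have b1 := hboot T hT t ht
          nlinarith [sq_nonneg (D.sig (u t - S t - P t))]
        linarith
      rw [intervalIntegral.integral_const_mul, intervalIntegral.integral_add ((hmono c2).add (hmono c3)) (hmono c4),
        intervalIntegral.integral_add (hmono c2) (hmono c3), intervalIntegral.integral_const_mul,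
        intervalIntegral.integral_const_mul] at hle
      have i1 := hbd.int4
      have i2 := mul_le_mul_of_nonneg_left (int_ex_le hc hN0 T) (by positivity : 0 ≤ (M * N ^ 2) ^ 4)
      have i3 := hI T hT
      have i4 := mul_le_mul_of_nonneg_left i3 (by positivity : 0 ≤ 2 * C₃)
      linarith
    · intro h hh hh1
      have b1 := (hE1 T hT).2 h hh hh1
      have b2 : ‖D.ι (u h - S h - P h)‖ ≤ √C₁ * N * h := by
        refine le_of_sq_le_sq ?_ (by have := hh.1; positivity)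
        rw [mul_pow, mul_pow, Real.sq_sqrt hC₁]
        exact b1
      have b3 := hL.iPD 0 h le_rfl hh.1 hh1
      rw [ex_zero, mul_one, zero_add] at b3
      have e1 : (u h - S h) - (u 0 - S 0) = (u h - S h - P h) + (P h - P 0) := by rw [hu0]; abel
      rw [e1, map_add]
      refine (norm_add_le _ _).trans ?_
      have b4 : (√C₁ * N + M * N ^ 3) * h ≤ A * h := mul_le_mul_of_nonneg_right (by linarith) hh.1
      linarith
  · have b1 := (hE1 T hT).1 t ht
    have b2 : 0 ≤ ∫ s in (0 : ℝ)..t, D.sig (u s - S s - P s) ^ 2 :=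
      intervalIntegral.integral_nonneg ht.1 (fun s _ => by positivity)
    have b3 : ‖D.ι (u t - S t - P t)‖ ^ 2 ≤ ((1 + C₁ + 2 * C₃ + C₁ / η) / N) ^ 2 := by
      have h2 : ‖D.ι (u t - S t - P t)‖ ^ 2 ≤ C₁ / N ^ 2 := by nlinarith
      refine h2.trans ?_
      rw [div_pow]
      refine div_le_div_of_nonneg_right ?_ (by positivity)
      nlinarith [mul_nonneg hC₁ hC₃, mul_nonneg hC₁ p3, mul_nonneg hC₃ p3]
    exact le_of_sq_le_sq b3 (by positivity)
  · exact (hboot T hT t ht).trans (by linarith)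
  · exact (hI T hT).trans (div_le_div_of_nonneg_right (by linarith) (by positivity))

end Pool.Agent.NSK
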