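import Pool.Agent.NSK.Final
import Pool.Agent.NSK.Full
import Pool.Agent.NSK.E4

/-!
# MP_fd8964_an, weak density: the unified theorem (any admissible force, `J = [0,∞)` or `J = [0,T]`)
-/

open MeasureTheory Set Filter Topology
open scoped RealInnerProductSpace ContDiff

noncomputable section

namespace Pool.Agent.NSK

open Pool.Agent.NSD

/-- `u` is, on the time interval `J`, a bounded regular solution with force `f`. -/
def IsBoundedSolution (Ω : Set E) (η : ℝ) (J : Set ℝ) (f : ℝ → V' Ω) (u : ℝ → V Ω) : Prop :=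
  ∃ w : ℝ → V Ω,
    MemLp w 2 (volume.restrict J) ∧
    (∃ C : ℝ, ∀ᵐ t ∂(volume.restrict J), ‖fld (w t)‖ ≤ C) ∧
    (∀ t ∈ J, u t = u 0 + ∫ s in (0 : ℝ)..t, w s) ∧
    (∃ C : ℝ, ∀ t ∈ J, ‖grd (u t)‖ ≤ C) ∧
    IntegrableOn (fun t => ‖grd (u t)‖ ^ 4) J ∧
    ∀ᵐ t ∂(volume.restrict J), ∀ v : V Ω,
      ⟪fld (w t), fld v⟫ + trilin (u t) (u t) v + η * ⟪grd (u t), grd v⟫ = f t v

/-- The final statement, unified form. -/
def Stmt_FinalJ : Prop := ∀ (Ω : Set E), IsOpen Ω → Bornology.IsBounded Ω → ∀ (η : ℝ), 0 < η →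
    ∀ (f : ℝ → V' Ω), AdmissibleForce Ω f → ∀ (J : Set ℝ), (J = Ici 0 ∨ ∃ T : ℝ, 0 < T ∧ J = Icc 0 T) →
    ∀ (v : ℝ → V Ω), ((f = 0 ∧ v = 0) ∨ (InTest (v 0) ∧ IsBoundedSolution Ω η J f v)) →
    ∀ (l : V Ω →L[ℝ] ℝ) (K : Set (V Ω)) (ε : ℝ), IsCompact K → 0 < ε →
      ∃ u : ℝ → V Ω, InTest (u 0) ∧ IsBoundedSolution Ω η J f u ∧ (∀ φ ∈ K, |⟪fld (u 0), fld φ⟫ - l φ| < ε) ∧
        ∀ t ∈ J, ε ≤ t → ‖u t - v t‖ ≤ ε

/-- The intervals. -/
def IsInt (J : Set ℝ) : Prop := J = Ici 0 ∨ ∃ T : ℝ, 0 < T ∧ J = Icc 0 T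

theorem IsInt.nonneg {J : Set ℝ} (h : IsInt J) {t : ℝ} (ht : t ∈ J) : 0 ≤ t := by
  rcases h with h | ⟨T, hT, h⟩
  · rw [h] at ht; exact ht
  · rw [h] at ht; exact ht.1

theorem IsInt.zero_mem {J : Set ℝ} (h : IsInt J) : (0 : ℝ) ∈ J := by
  rcases h with h | ⟨T, hT, h⟩
  · rw [h]; exact self_mem_Ici
  · rw [h]; exact ⟨le_rfl, hT.le⟩

theorem IsInt.meas {J : Set ℝ} (h : IsInt J) : MeasurableSet J := by
  rcases h with h | ⟨T, hT, h⟩
  · rw [h]; exact measurableSet_Ici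
  · rw [h]; exact measurableSet_Icc

theorem IsInt.sub {J : Set ℝ} (h : IsInt J) {t : ℝ} (ht : t ∈ J) : Icc 0 t ⊆ J := by
  rcases h with h | ⟨T, hT, h⟩
  · rw [h]; exact fun x hx => hx.1
  · rw [h] at ht ⊢; exact fun x hx => ⟨hx.1, hx.2.trans ht.2⟩

theorem IsInt.ae {J : Set ℝ} (h : IsInt J) {p : ℝ → Prop}
    (hp : ∀ T ∈ J, ∀ᵐ t ∂(volume.restrict (Ioc 0 T)), p t) : ∀ᵐ t ∂(volume.restrict J), p t := by
  rcases h with h | ⟨T, hT, h⟩
  · subst h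
    have h1 : ∀ n : ℕ, ∀ᵐ t ∂volume, t ∈ Ioc (0 : ℝ) n → p t := fun n =>
      (ae_restrict_iff' measurableSet_Ioc).1 (hp n (show (0 : ℝ) ≤ n from Nat.cast_nonneg n))
    rw [Measure.restrict_congr_set Ioi_ae_eq_Ici.symm, ae_restrict_iff' measurableSet_Ioi]
    filter_upwards [ae_all_iff.2 h1] with t ht ht0
    obtain ⟨n, hn⟩ := exists_nat_ge t
    exact ht n ⟨ht0, hn⟩
  · subst h
    have h1 := hp T ⟨hT.le, le_rfl⟩
    rwa [Measure.restrict_congr_set Ioc_ae_eq_Icc] at h1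

theorem IsInt.integrable {J : Set ℝ} (h : IsInt J) {g : ℝ → ℝ} (hg0 : ∀ t, 0 ≤ g t) {C : ℝ}
    (hg : ∀ T ∈ J, IntegrableOn g (Ioc 0 T)) (hC : ∀ T ∈ J, ∫ t in (0 : ℝ)..T, g t ≤ C) : IntegrableOn g J := by
  rcases h with h | ⟨T, hT, h⟩
  · subst h
    rw [integrableOn_Ici_iff_integrableOn_Ioi]
    refine integrableOn_Ioi_of_intervalIntegral_norm_bounded (l := atTop) (b := fun n : ℕ => (n : ℝ)) C 0
      (fun n => hg n (show (0 : ℝ) ≤ n from Nat.cast_nonneg n)) tendsto_natCast_atTop_atTop ?_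
    refine Filter.Eventually.of_forall fun n => ?_
    have e : ∀ x, ‖g x‖ = g x := fun x => Real.norm_of_nonneg (hg0 x)
    simp only [e]
    exact hC n (show (0 : ℝ) ≤ n from Nat.cast_nonneg n)
  · subst h
    rw [integrableOn_Icc_iff_integrableOn_Ioc]
    exact hg T ⟨hT.le, le_rfl⟩

theorem sig_eq {Ω : Set E} {D : Data (V Ω) (L2 Ω)} (hD : IsNSData Ω D) (x : V Ω) : D.sig x = ‖grd x‖ := by
  unfold Data.sig
  rw [hD.2.1, real_inner_self_eq_norm_sq, Real.sqrt_sq (norm_nonneg _)]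

/-- From `IsBoundedSolution` to the abstract framework. -/
theorem bdd_to {Ω : Set E} {D : Data (V Ω) (L2 Ω)} (hD : IsNSData Ω D) {η : ℝ} {J : Set ℝ} (hJ : IsInt J)
    {f : ℝ → V' Ω} {v : ℝ → V Ω} (h : IsBoundedSolution Ω η J f v) :
    ∃ (S W : ℝ → V Ω) (C : ℝ), IsH1loc S W ∧ (∀ T ∈ J, SolOn D η f T S W ∧ BdOn D C T S W) ∧
      S 0 = v 0 ∧ ∀ t ∈ J, S t = v t := by
  obtain ⟨w, hw, ⟨C, hC⟩, hv, ⟨C₁, hC₁⟩, h4, heq⟩ := h
  set W : ℝ → V Ω := J.indicator w with hW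
  have hWL : MemLp W 2 volume := (memLp_indicator_iff_restrict hJ.meas).2 hw
  set S : ℝ → V Ω := fun t => v 0 + ∫ s in (0 : ℝ)..t, W s with hSdef
  have hS0 : S 0 = v 0 := by simp [hSdef]
  have hSv : ∀ t ∈ J, S t = v t := by
    intro t ht
    have ht0 := hJ.nonneg ht
    rw [hv t ht, hSdef]
    simp only
    congr 1
    refine intervalIntegral.integral_congr_ae (Filter.Eventually.of_forall fun s hs => ?_)
    rw [uIoc_of_le ht0] at hs
    rw [hW, indicator_of_mem (hJ.sub ht ⟨hs.1.le, hs.2⟩)]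
  have hH1 : IsH1loc S W := ⟨fun T' => hWL.restrict _, fun t _ => by rw [hS0]⟩
  have hsub : ∀ T ∈ J, Ioc 0 T ⊆ J := fun T hT x hx => hJ.sub hT ⟨hx.1.le, hx.2⟩
  have hσW : Integrable (fun t => D.sig (W t) ^ 2) volume := by
    have h1 : MemLp (fun t => D.sig (W t)) 2 volume := by
      refine hWL.of_le (D.continuous_sig.comp_aestronglyMeasurable hWL.1) ?_
      exact Filter.Eventually.of_forall fun t => by
        rw [Real.norm_of_nonneg (D.sig_nonneg _)]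
        exact D.sig_le_norm _
    exact h1.integrable_sq
  set A : ℝ := |C| + |C₁| + |∫ t in J, ‖grd (v t)‖ ^ 4| + |∫ t, D.sig (W t) ^ 2| with hA
  refine ⟨S, W, A, hH1, fun T hT => ⟨⟨hH1, ?_⟩, ?_, ?_, ?_, ?_⟩, hS0, hSv⟩
  · have hmem : ∀ᵐ t ∂(volume.restrict (Ioc 0 T)), t ∈ Ioc 0 T := ae_restrict_mem measurableSet_Ioc
    filter_upwards [ae_mono (Measure.restrict_mono (hsub T hT) le_rfl) heq, hmem] with t ht htm v'
    have := ht v'
    rw [hD.1, hD.1, hD.2.1, hD.2.2, hSv t (hsub T hT htm), hW, indicator_of_mem (hsub T hT htm)]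
    linarith
  · have hmem : ∀ᵐ t ∂(volume.restrict (Ioc 0 T)), t ∈ Ioc 0 T := ae_restrict_mem measurableSet_Ioc
    filter_upwards [ae_mono (Measure.restrict_mono (hsub T hT) le_rfl) hC, hmem] with t ht htm
    rw [hD.1, hW, indicator_of_mem (hsub T hT htm)]
    have := le_abs_self C
    have := abs_nonneg C₁
    have := abs_nonneg (∫ t in J, ‖grd (v t)‖ ^ 4)
    have := abs_nonneg (∫ t, D.sig (W t) ^ 2)
    linarith
  · intro t ht
    have h1 := hC₁ t (hJ.sub hT ht)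
    rw [hSv t (hJ.sub hT ht), sig_eq hD]
    have := le_abs_self C₁
    have := abs_nonneg C
    have := abs_nonneg (∫ t in J, ‖grd (v t)‖ ^ 4)
    have := abs_nonneg (∫ t, D.sig (W t) ^ 2)
    linarith
  · have e1 : ∫ t in (0 : ℝ)..T, D.sig (S t) ^ 4 = ∫ t in Ioc 0 T, ‖grd (v t)‖ ^ 4 := by
      rw [intervalIntegral.integral_of_le (hJ.nonneg hT)]
      refine setIntegral_congr_fun measurableSet_Ioc (fun t ht => ?_)
      show D.sig (S t) ^ 4 = ‖grd (v t)‖ ^ 4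
      rw [hSv t (hsub T hT ht), sig_eq hD]
    have e2 : ∫ t in Ioc 0 T, ‖grd (v t)‖ ^ 4 ≤ ∫ t in J, ‖grd (v t)‖ ^ 4 :=
      setIntegral_mono_set h4 (Filter.Eventually.of_forall fun t => by positivity) (hsub T hT).eventuallyLE
    rw [e1]
    have := le_abs_self (∫ t in J, ‖grd (v t)‖ ^ 4)
    have := abs_nonneg C
    have := abs_nonneg C₁
    have := abs_nonneg (∫ t, D.sig (W t) ^ 2)
    linarith
  · have e2 : ∫ t in (0 : ℝ)..T, D.sig (W t) ^ 2 ≤ ∫ t, D.sig (W t) ^ 2 := by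
      rw [intervalIntegral.integral_of_le (hJ.nonneg hT)]
      exact setIntegral_le_integral hσW (Filter.Eventually.of_forall fun t => by positivity)
    have := le_abs_self (∫ t, D.sig (W t) ^ 2)
    have := abs_nonneg C
    have := abs_nonneg C₁
    have := abs_nonneg (∫ t in J, ‖grd (v t)‖ ^ 4)
    linarith

/-- From the abstract framework to `IsBoundedSolution`. -/
theorem bdd_of {Ω : Set E} {D : Data (V Ω) (L2 Ω)} (hD : IsNSData Ω D) {η : ℝ} {J : Set ℝ} (hJ : IsInt J)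
    {f : ℝ → V' Ω} {S W : ℝ → V Ω} (hH1 : IsH1loc S W) {C : ℝ}
    (hS : ∀ T ∈ J, SolOn D η f T S W ∧ BdOn D C T S W) : IsBoundedSolution Ω η J f S := by
  have hc := D.c₀_pos
  refine ⟨W, ?_, ⟨C, ?_⟩, fun t ht => hH1.eq t (hJ.nonneg ht), ⟨C, fun t ht => ?_⟩, ?_, ?_⟩
  · have hmeas : AEStronglyMeasurable W (volume.restrict J) := by
      rcases hJ with h | ⟨T, hT, h⟩
      · rw [h, Measure.restrict_congr_set Ioi_ae_eq_Ici.symm]
        have e : (Ioi (0 : ℝ)) = ⋃ n : ℕ, Ioc (0 : ℝ) n := by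
          ext t
          simp only [mem_Ioi, mem_iUnion, mem_Ioc]
          constructor
          · intro ht
            obtain ⟨n, hn⟩ := exists_nat_ge t
            exact ⟨n, ht, hn⟩
          · rintro ⟨n, h1, h2⟩
            exact h1
        rw [e, aestronglyMeasurable_iUnion_iff]
        exact fun n => (hH1.memLp n).1
      · rw [h, Measure.restrict_congr_set Ioc_ae_eq_Icc.symm]
        exact (hH1.memLp T).1
    rw [memLp_two_iff_integrable_sq_norm hmeas]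
    refine hJ.integrable (C := C / D.c₀) (fun t => by positivity) (fun T hT => ?_) (fun T hT => ?_)
    · exact (hH1.memLp T).integrable_norm_pow (by norm_num)
    · have h1 := (hS T hT).2.intW
      have hT0 := hJ.nonneg hT
      rw [le_div_iff₀ hc, ← intervalIntegral.integral_mul_const]
      refine le_trans ?_ h1
      refine intervalIntegral.integral_mono_on hT0 ?_ (intervalIntegrable_sig_sq hH1 D le_rfl hT0) (fun t _ => ?_)
      · rw [intervalIntegrable_iff_integrableOn_Ioc_of_le hT0]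
        exact ((hH1.memLp T).integrable_norm_pow (by norm_num)).mul_const _
      · rw [D.sig_sq]
        have := D.a_coer (W t)
        linarith
  · refine hJ.ae fun T hT => ?_
    filter_upwards [(hS T hT).2.iW] with t ht
    rwa [← hD.1]
  · rw [← sig_eq hD]
    exact (hS t ht).2.sig t ⟨hJ.nonneg ht, le_rfl⟩
  · refine hJ.integrable (C := C) (fun t => by positivity) (fun T hT => ?_) (fun T hT => ?_)
    · have hT0 := hJ.nonneg hT
      rw [← intervalIntegrable_iff_integrableOn_Ioc_of_le hT0]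
      refine ContinuousOn.intervalIntegrable_of_Icc hT0 ?_
      simp only [← sig_eq hD]
      exact ((continuousOn_sig hH1 D).pow 4).mono (fun x hx => hx.1)
    · simp only [← sig_eq hD]
      exact (hS T hT).2.int4
  · refine hJ.ae fun T hT => ?_
    filter_upwards [(hS T hT).1.eq] with t ht v
    have := ht v
    rw [hD.1, hD.1, hD.2.1, hD.2.2] at this
    linarith

theorem small_layer2 {M c ε δ : ℝ} (hM : 0 ≤ M) (hc : 0 < c) (hε : 0 < ε) (hδ : 0 < δ) :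
    ∃ N₂ : ℝ, ∀ N, N₂ ≤ N → 1 ≤ N → ∀ t, ε ≤ t → M * N ^ 2 * ex c N t ≤ δ := by
  obtain ⟨N₂, h⟩ := eventually_atTop.1 (Global.ex_small (M := M) (c := c * ε) (β := δ) (by positivity) hδ hM)
  refine ⟨N₂, fun N hN h1 t ht => le_trans ?_ (h N hN)⟩
  have h2 : ex c N t ≤ Real.exp (-(c * ε * N ^ 2)) := by
    unfold ex
    rw [Real.exp_le_exp]
    have h3 : 0 ≤ c * N ^ 2 := by positivity
    have := mul_le_mul_of_nonneg_left ht h3
    linarith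
  have h3 : M * N ^ 2 ≤ M * N ^ 3 :=
    mul_le_mul_of_nonneg_left (pow_le_pow_right₀ h1 (by norm_num)) hM
  exact mul_le_mul h3 h2 (ex_pos _ _ _).le (by positivity)

theorem step_full (hFu : Stmt_Full) (hE4 : Stmt_E4) (hLay : Stmt_Layer) (hCT : Stmt_CompatTest) (hWk : Stmt_Weak)
    {Ω : Set E} (hΩ : IsOpen Ω) (hb : Bornology.IsBounded Ω) {D : Data (V Ω) (L2 Ω)} (hD : IsNSData Ω D)
    {η : ℝ} (hη : 0 < η) {f f₁ : ℝ → V' Ω} (hf : IsH1loc f f₁) {h₁ : L2 Ω} (hf0 : ∀ v : V Ω, f 0 v = ⟪h₁, fld v⟫)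
    {J : Set ℝ} (hJ : IsInt J) {S W : ℝ → V Ω} (hSW : IsH1loc S W)
    (hS : ∃ C, ∀ T ∈ J, SolOn D η f T S W ∧ BdOn D C T S W) (hs : InTest (S 0))
    {G : E → E} (hG : IsKick Ω η G) {p : V Ω} (hp : Represents Ω G p) {K : Set (V Ω)} (hK : IsCompact K)
    {ε : ℝ} (hε : 0 < ε) :
    ∃ S' W' : ℝ → V Ω, IsH1loc S' W' ∧ (∃ C, ∀ T ∈ J, SolOn D η f T S' W' ∧ BdOn D C T S' W') ∧ InTest (S' 0) ∧
      (∀ φ ∈ K, |⟪fld (S' 0), fld φ⟫ - (⟪fld (S 0), fld φ⟫ + ⟪fld p, fld φ⟫)| ≤ ε) ∧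
      ∀ t ∈ J, ε ≤ t → ‖S' t - S t‖ ≤ ε := by
  obtain ⟨s, hst, hsV⟩ := hs
  obtain ⟨n, a, k, ξ, q, hk⟩ := hG
  obtain ⟨C₀, hC₀⟩ := hS
  have hc₀ := D.c₀_pos
  obtain ⟨M, c, hM, hc, hlay⟩ := hLay Ω hΩ hb D hD η n a k ξ q G s (S 0) hη hk hst hsV
  obtain ⟨N₀, C, hN₀, hC, hft⟩ := hFu (V Ω) (L2 Ω) D η M c (max C₀ 0) hη hM hc (le_max_right _ _)
  set CS' : ℝ := max (max C₀ 0) C with hCS'
  have hCS'0 : 0 ≤ CS' := hC.trans (le_max_right _ _)
  obtain ⟨C₆, hC₆, H4⟩ := hE4 (V Ω) (L2 Ω) D η M c CS' ε hη hM hc hCS'0 hε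
  obtain ⟨N₁, hN₁⟩ := layer_data hCT hWk hΩ hb hD hst hsV hk hp hK hε
  set κ : ℝ := √D.c₀ * ε / 2 with hκ
  have hκ0 : 0 < κ := by have := Real.sqrt_pos.2 hc₀; positivity
  obtain ⟨N₂, hN₂⟩ := small_layer2 hM hc hε hκ0
  set N : ℝ := max (max N₀ N₁) (max N₂ (C₆ / κ ^ 2)) with hN
  have hN0 : N₀ ≤ N := (le_max_left _ _).trans (le_max_left _ _)
  have h1N : 1 ≤ N := hN₀.trans hN0
  have hNpos : 0 < N := by linarith
  obtain ⟨P, P', ρ, hL, hrep⟩ := hlay N h1N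
  obtain ⟨h1, ⟨h, hh, hcomp⟩, h3⟩ := hN₁ N ((le_max_right _ _).trans (le_max_left _ _)) (P 0) hrep
  obtain ⟨u, w, huw, hu0, ⟨C', hub⟩, hz⟩ := hft N J f f₁ S W P P' ρ (h₁ + h) hN0 (fun T hT => hJ.nonneg hT) hf
    (fun T hT => ⟨(hC₀ T hT).1, (hC₀ T hT).2.mono_const (le_max_left _ _)⟩) hSW
    (((hC₀ 0 hJ.zero_mem).2.sig 0 ⟨le_rfl, le_rfl⟩).trans (le_max_left _ _)) hL
    (by
      intro v
      rw [inner_add_left, ← hcomp v, hf0 v, hD.1 v]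
      ring)
  have hCN : C₆ / N ≤ κ ^ 2 := by
    have : C₆ / κ ^ 2 ≤ N := (le_max_right _ _).trans (le_max_right _ _)
    rw [div_le_iff₀ (by positivity)] at this
    rw [div_le_iff₀ hNpos]
    linarith
  refine ⟨u, w, huw, ⟨C', hub⟩, by rwa [hu0], by rwa [hu0], fun t ht hεt => ?_⟩
  have ht0 : 0 ≤ t := hJ.nonneg ht
  have e1 := H4 N t f S W u w P P' ρ h1N ht0 (hC₀ t ht).1
    ((hC₀ t ht).2.mono_const ((le_max_left _ _).trans (le_max_left _ _))) (hub t ht).1 hL hu0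
    (fun r hr => ⟨((hz t ht).1 r hr).1.trans (div_le_div_of_nonneg_right (le_max_right _ _) hNpos.le),
      ((hz t ht).1 r hr).2.trans (le_max_right _ _)⟩)
    ((hz t ht).2.trans (div_le_div_of_nonneg_right (le_max_right _ _) (by positivity))) t ⟨hεt, le_rfl⟩
  have e2 : D.sig (u t - S t - P t) ≤ κ := le_of_sq_le_sq (e1.trans hCN) hκ0.le
  have e3 := (hL.sigP t ht0).trans (hN₂ N ((le_max_left _ _).trans (le_max_right _ _)) h1N t hεt)
  have e4 : D.sig (u t - S t) ≤ 2 * κ := by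
    have e5 := D.sig_add_le (u t - S t - P t) (P t)
    rw [sub_add_cancel] at e5
    linarith
  have e6 := D.norm_le_sig (u t - S t)
  have e7 : √D.c₀ * ‖u t - S t‖ ≤ √D.c₀ * ε := by
    refine (e6.trans e4).trans (le_of_eq ?_)
    rw [hκ]; ring
  exact le_of_mul_le_mul_left e7 (Real.sqrt_pos.2 hc₀)

theorem induct_full (hFu : Stmt_Full) (hE4 : Stmt_E4) (hLay : Stmt_Layer) (hCT : Stmt_CompatTest) (hWk : Stmt_Weak)
    {Ω : Set E} (hΩ : IsOpen Ω) (hb : Bornology.IsBounded Ω) {D : Data (V Ω) (L2 Ω)} (hD : IsNSData Ω D)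
    {η : ℝ} (hη : 0 < η) {f f₁ : ℝ → V' Ω} (hf : IsH1loc f f₁) {h₁ : L2 Ω} (hf0 : ∀ v : V Ω, f 0 v = ⟪h₁, fld v⟫)
    {J : Set ℝ} (hJ : IsInt J) {S₀ W₀ : ℝ → V Ω} (hSW₀ : IsH1loc S₀ W₀)
    (hS₀ : ∃ C, ∀ T ∈ J, SolOn D η f T S₀ W₀ ∧ BdOn D C T S₀ W₀) (hs₀ : InTest (S₀ 0)) (n : ℕ) :
    ∀ (G : Fin n → E → E) (p : Fin n → V Ω), (∀ i, IsKick Ω η (G i)) →
      (∀ i, Represents Ω (G i) (p i)) → ∀ (K : Set (V Ω)) (ε : ℝ), IsCompact K → 0 < ε →
      ∃ S W : ℝ → V Ω, IsH1loc S W ∧ (∃ C, ∀ T ∈ J, SolOn D η f T S W ∧ BdOn D C T S W) ∧ InTest (S 0) ∧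
        (∀ φ ∈ K, |⟪fld (S 0), fld φ⟫ - (⟪fld (S₀ 0), fld φ⟫ + ∑ i, ⟪fld (p i), fld φ⟫)| ≤ ε) ∧
        ∀ t ∈ J, ε ≤ t → ‖S t - S₀ t‖ ≤ ε := by
  induction n with
  | zero =>
    intro G p hG hp K ε hK hε
    refine ⟨S₀, W₀, hSW₀, hS₀, hs₀, fun φ _ => ?_, fun t _ _ => ?_⟩
    · simp [hε.le]
    · rw [sub_self, norm_zero]; exact hε.le
  | succ n ih =>
    intro G p hG hp K ε hK hε
    obtain ⟨S, W, hSW, hS, hs, h1, h2⟩ := ih (fun i => G i.castSucc) (fun i => p i.castSucc)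
      (fun i => hG _) (fun i => hp _) K (ε / 2) hK (by positivity)
    obtain ⟨S', W', hSW', hS', hs', h1', h2'⟩ := step_full hFu hE4 hLay hCT hWk hΩ hb hD hη hf hf0 hJ hSW hS hs
      (hG (Fin.last n)) (hp (Fin.last n)) hK (by positivity : 0 < ε / 2)
    refine ⟨S', W', hSW', hS', hs', fun φ hφ => ?_, fun t ht hεt => ?_⟩
    · rw [Fin.sum_univ_castSucc]
      have a1 := abs_le.1 (h1 φ hφ)
      have a2 := abs_le.1 (h1' φ hφ)
      rw [abs_le]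
      constructor <;> linarith [a1.1, a1.2, a2.1, a2.2]
    · have b1 := h2 t ht (by linarith)
      have b2 := h2' t ht (by linarith)
      have e1 : S' t - S₀ t = (S' t - S t) + (S t - S₀ t) := by abel
      rw [e1]
      refine (norm_add_le _ _).trans ?_
      linarith

theorem finalJ_of (hDat : Stmt_Data) (hFu : Stmt_Full) (hE4 : Stmt_E4) (hLay : Stmt_Layer)
    (hCT : Stmt_CompatTest) (hWk : Stmt_Weak) (hKD : Stmt_KDense) : Stmt_FinalJ := by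
  intro Ω hΩ hb η hη f hf J hJ v hv l K ε hK hε
  obtain ⟨D, hD⟩ := hDat Ω hΩ hb
  obtain ⟨⟨f₁, hf₁, hf₂⟩, h₁, hh₁, hfh⟩ := hf
  have hJ' : IsInt J := hJ
  -- the background solution
  have hback : ∃ (S W : ℝ → V Ω) (C : ℝ), IsH1loc S W ∧ (∀ T ∈ J, SolOn D η f T S W ∧ BdOn D C T S W) ∧
      InTest (S 0) ∧ ∀ t ∈ J, S t = v t := by
    rcases hv with ⟨hf0, hv0⟩ | ⟨hv0, hv⟩
    · subst hf0 hv0
      have hs : D.sig 0 = 0 := by simp [Data.sig]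
      refine ⟨0, 0, 0, Global.zero_h1, fun T hT => ⟨⟨Global.zero_h1, ?_⟩, ?_, ?_, ?_, ?_⟩, inTest_zero Ω, fun t _ => rfl⟩
      · exact Filter.Eventually.of_forall fun t v => by simp
      · exact Filter.Eventually.of_forall fun t => by simp
      · intro t _; simp [hs]
      · simp [hs]
      · simp [hs]
    · obtain ⟨S, W, C, h1, h2, h3, h4⟩ := bdd_to hD hJ' hv
      exact ⟨S, W, C, h1, h2, by rwa [h3], h4⟩
  obtain ⟨S₀, W₀, C₀, hSW₀, hS₀, hs₀, hSv⟩ := hback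
  obtain ⟨R, hR⟩ := hK.isBounded.exists_norm_le
  let l' : V Ω →L[ℝ] ℝ := l - (innerSL ℝ (fld (S₀ 0))).comp (fldLM Ω)
  have hl' : ∀ φ, l' φ = l φ - ⟪fld (S₀ 0), fld φ⟫ := fun φ => rfl
  obtain ⟨n, G, p, hG, hp, hl⟩ := hKD Ω hΩ hb η hη l' (ε / (4 * (|R| + 1))) (by positivity)
  obtain ⟨S, W, hSW, ⟨C, hS⟩, hs, h1, h2⟩ := induct_full hFu hE4 hLay hCT hWk hΩ hb hD hη ⟨hf₁, hf₂⟩ hfh hJ' hSW₀
    ⟨C₀, hS₀⟩ hs₀ n G p hG hp K (ε / 2) hK (by positivity)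
  refine ⟨S, hs, bdd_of hD hJ' hSW hS, fun φ hφ => ?_, fun t ht hεt => ?_⟩
  · have a1 := abs_le.1 (h1 φ hφ)
    have a2 : ε / (4 * (|R| + 1)) * ‖φ‖ ≤ ε / 4 := by
      have h3 := (hR φ hφ).trans (le_abs_self R)
      rw [div_mul_eq_mul_div, div_le_div_iff₀ (by positivity) (by norm_num)]
      have := abs_nonneg R
      nlinarith
    have a3 := abs_le.1 ((hl φ).trans a2)
    rw [hl'] at a3
    rw [abs_lt]
    constructor <;> linarith [a1.1, a1.2, a3.1, a3.2]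
  · rw [← hSv t ht]
    exact (h2 t ht (by linarith)).trans (by linarith)

end Pool.Agent.NSK
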