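import Pool.Agent.NSK.Boot

/-!
# MP_fd8964_an, weak density: Theorem A (finite time)
-/

open MeasureTheory Set Filter Topology
open scoped RealInnerProductSpace

noncomputable section

namespace Pool.Agent.NSK

open Pool.Agent.NSD

theorem finiteT_proof (hA : Stmt_Abstract) (h1 : Stmt_E1) (h3 : Stmt_E3) : Stmt_FiniteT := by
  intro V K _ _ _ _ _ D η M c CS hη hM hc hCS
  obtain ⟨C₁, hC₁, H1⟩ := h1 V K D η M c CS hη hM hc hCS
  obtain ⟨C₃, hC₃, H3⟩ := h3 V K D η M c CS hη hM hc hCS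
  refine ⟨2 * C₃ + 1, 1 + C₁ + 2 * C₃ + C₁ / η, by linarith, by positivity, ?_⟩
  intro N T f f₁ S W P P' ρ h₀ hN hT hf hS hbd hL hcomp κ₀
  have hN1 : 1 ≤ N := by linarith
  have hN0 : 0 < N := by linarith
  set κ : ℝ := |κ₀| + CS + M * N ^ 2 + √N + 1 with hκdef
  have hsq : 0 ≤ √N := Real.sqrt_nonneg _
  have hMN : 0 ≤ M * N ^ 2 := by positivity
  have hκ₀ : κ₀ ≤ κ := by have := le_abs_self κ₀; linarith
  have hκ : 0 < κ := by have := abs_nonneg κ₀; linarith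
  have hκ' : CS + M * N ^ 2 + √N ≤ κ := by have := abs_nonneg κ₀; linarith
  have hP : ∀ t, 0 ≤ t → D.sig (P t) ≤ M * N ^ 2 := fun t ht =>
    (hL.sigP t ht).trans (mul_le_of_le_one_right hMN (ex_le_one hc.le ht))
  have hu₀ : D.sig (S 0 + P 0) ≤ κ := by
    have := D.sig_add_le (S 0) (P 0)
    have := hbd.sig 0 ⟨le_rfl, hT⟩
    have := hP 0 le_rfl
    linarith
  obtain ⟨u, w, huw, hu0, hiw, heq, -, -⟩ := hA V K D η 1 κ f f₁ (S 0 + P 0) h₀ hη one_pos hκ hf hu₀ hcomp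
  have hcu := huw.continuousOn
  have hcS := hS.h1.continuousOn
  have hcz : ContinuousOn (fun t => u t - S t - P t) (Ici 0) := (hcu.sub hcS).sub hL.cont
  have hcσ : ContinuousOn (fun t => D.sig (u t - S t - P t)) (Ici 0) := D.continuous_sig.comp_continuousOn hcz
  -- on an interval where `σ(z)² ≤ N`, `u` solves the Navier-Stokes problem
  have hsol : ∀ τ, 0 ≤ τ → τ ≤ T → (∀ t ∈ Icc 0 τ, D.sig (u t - S t - P t) ^ 2 ≤ N) →
      (∀ t ∈ Icc 0 τ, D.sig (u t) ≤ κ) ∧ SolOn D η f τ u w := by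
    intro τ hτ0 hτT hz
    have hle : ∀ t ∈ Icc 0 τ, D.sig (u t) ≤ κ := by
      intro t ht
      have e1 : u t = (u t - S t - P t) + (S t + P t) := by abel
      have e2 := D.sig_add_le (u t - S t - P t) (S t + P t)
      have e3 := D.sig_add_le (S t) (P t)
      have e4 := hbd.sig t ⟨ht.1, ht.2.trans hτT⟩
      have e5 := hP t ht.1
      have e6 : D.sig (u t - S t - P t) ≤ √N := Real.le_sqrt_of_sq_le (hz t ht)
      rw [← e1] at e2
      linarith
    refine ⟨hle, huw, ?_⟩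
    have heq' := ae_mono (Measure.restrict_mono (s := Ioc 0 τ) (s' := Ioi 0) (fun x hx => hx.1) le_rfl) heq
    have hmem : ∀ᵐ t ∂(volume.restrict (Ioc 0 τ)), t ∈ Ioc 0 τ := ae_restrict_mem measurableSet_Ioc
    filter_upwards [heq', hmem] with t ht htm v
    have := ht v
    rwa [phi_eq_zero (hle t ⟨htm.1.le, htm.2⟩), add_zero] at this
  have hboot : ∀ t ∈ Icc 0 T, D.sig (u t - S t - P t) ^ 2 ≤ 2 * C₃ := by
    refine bootstrap (b := N) ((hcσ.mono Icc_subset_Ici_self).pow 2) ?_ (by linarith) ?_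
    · have : u 0 - S 0 - P 0 = 0 := by rw [hu0]; abel
      rw [this]
      have : D.sig 0 = 0 := by simp [Data.sig]
      rw [this]; simpa using hC₃
    · intro τ hτ0 hτT hz t ht
      obtain ⟨-, hsolτ⟩ := hsol τ hτ0 hτT hz
      have hbd' : BdOn D CS τ S W := hbd.mono hS.h1 hτ0 hτT
      have := H3 N τ N f S W u w P P' ρ hN1 hτ0 (hS.mono hτT) hbd' hsolτ hL hu0 hN0.le le_rfl hz t ht
      refine this.trans ?_
      have hsqN : √N ≤ N := by
        rw [Real.sqrt_le_left hN0.le]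
        nlinarith
      have : √N / N ≤ 1 := (div_le_one hN0).2 hsqN
      nlinarith
  have hzN : ∀ t ∈ Icc 0 T, D.sig (u t - S t - P t) ^ 2 ≤ N := fun t ht => (hboot t ht).trans (by linarith)
  obtain ⟨hle, hsolT⟩ := hsol T hT le_rfl hzN
  obtain ⟨E1, -⟩ := H1 N T f S W u w P P' ρ hN1 hT hS hbd hsolT hL hu0
  have hint0 : ∀ t ∈ Icc 0 T, 0 ≤ ∫ s in (0 : ℝ)..t, D.sig (u s - S s - P s) ^ 2 := fun t ht =>
    intervalIntegral.integral_nonneg ht.1 (fun s _ => by positivity)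
  refine ⟨κ, u, w, hκ₀, hκ, ⟨huw, hiw, heq⟩, hu0, hsolT, hle, fun t ht => ⟨?_, ?_⟩, ?_⟩
  · have h := E1 t ht
    have h' := hint0 t ht
    have : ‖D.ι (u t - S t - P t)‖ ^ 2 ≤ ((1 + C₁ + 2 * C₃ + C₁ / η) / N) ^ 2 := by
      have h2 : ‖D.ι (u t - S t - P t)‖ ^ 2 ≤ C₁ / N ^ 2 := by nlinarith
      refine h2.trans ?_
      rw [div_pow]
      refine div_le_div_of_nonneg_right ?_ (by positivity)
      have h3 : 0 ≤ C₁ / η := by positivity
      nlinarith [mul_nonneg hC₁ hC₃, mul_nonneg hC₁ h3, mul_nonneg hC₃ h3]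
    exact le_of_sq_le_sq this (by positivity)
  · refine (hboot t ht).trans ?_
    have h3 : 0 ≤ C₁ / η := by positivity
    linarith
  · have h := E1 T ⟨hT, le_rfl⟩
    have h5 : η * ∫ s in (0 : ℝ)..T, D.sig (u s - S s - P s) ^ 2 ≤ C₁ / N ^ 2 := by
      have := sq_nonneg ‖D.ι (u T - S T - P T)‖
      linarith
    have h6 : ∫ s in (0 : ℝ)..T, D.sig (u s - S s - P s) ^ 2 ≤ (C₁ / η) / N ^ 2 := by
      rw [div_div, mul_comm η, ← div_div, le_div_iff₀ hη, mul_comm]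
      exact h5
    refine h6.trans (div_le_div_of_nonneg_right ?_ (by positivity))
    linarith

end Pool.Agent.NSK
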