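import Pool.Agent.NSK.PairXi

/-!
# Module Grad: gradients are orthogonal to `V`
-/

set_option autoImplicit false

open MeasureTheory Set Filter Topology
open scoped RealInnerProductSpace ContDiff

noncomputable section

namespace Pool.Agent.NSK

open Pool.Agent.NSD

open TestLib in
lemma memLp_gradS {Ω : Set E} {q : E → ℝ} (hq : IsBump Ω q) :
    MemLp (gradS q) 2 (volume.restrict Ω) := by
  have : gradS q = fun x => ∑ i : Fin 3, (dd (e i) q x) • e i := rfl
  rw [this]
  exact memLp_finsetSum _ fun i _ => memLp_ddζ hq (e i) (e i)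

open TestLib in
theorem grad_proof : Stmt_Grad := by
  intro Ω hΩ hb q hq v
  refine eq_of_test (Ω := Ω) (F := fun v : V Ω => ∫ x in Ω, ⟪gradS q x, (fld v : E → E) x⟫)
    (F' := fun _ => 0) (continuous_int_fld (memLp_gradS hq)) continuous_const ?_ v
  intro φ p hφ hp
  have h1 : ∀ i : Fin 3, Integrable (fun x => ⟪(dd (e i) q x) • e i, (fld p : E → E) x⟫)
      (volume.restrict Ω) := by
    intro i
    have hm := memLp_ddζ hq (e i) (e i)
    have := L2.integrable_inner (𝕜 := ℝ) (hm.toLp _) (fld p)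
    refine this.congr ?_
    filter_upwards [hm.coeFn_toLp] with x hx
    rw [hx]
  have h2 : ∀ i : Fin 3, Integrable (fun x => ⟪hG q (e i) (e i) x, (grd p : E → G) x⟫)
      (volume.restrict Ω) := by
    intro i
    have hm := memLp_hG hq (e i) (e i)
    have := L2.integrable_inner (𝕜 := ℝ) (hm.toLp _) (grd p)
    refine this.congr ?_
    filter_upwards [hm.coeFn_toLp] with x hx
    rw [hx]
  have e1 : ∫ x in Ω, ⟪gradS q x, (fld p : E → E) x⟫ =
      ∑ i : Fin 3, ∫ x in Ω, ⟪(dd (e i) q x) • e i, (fld p : E → E) x⟫ := by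
    rw [← integral_finsetSum _ fun i _ => h1 i]
    refine integral_congr_ae (Filter.Eventually.of_forall fun x => ?_)
    simp only [gradS, sum_inner]
  change ∫ x in Ω, ⟪gradS q x, (fld p : E → E) x⟫ = 0
  rw [e1]
  have e2 : ∀ i : Fin 3, ∫ x in Ω, ⟪(dd (e i) q x) • e i, (fld p : E → E) x⟫ =
      - ∫ x in Ω, ⟪hG q (e i) (e i) x, (grd p : E → G) x⟫ :=
    fun i => pairXi_test hq (e i) (e i) hφ hp
  rw [Finset.sum_congr rfl fun i _ => e2 i, Finset.sum_neg_distrib,
    ← integral_finsetSum _ fun i _ => h2 i]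
  rw [neg_eq_zero]
  refine integral_eq_zero_of_ae ?_
  filter_upwards [hp.2] with x hx
  have hx' : (grd p : E → G) x = gradField φ x := hx
  simp only [inner_hG, hx', ← Finset.mul_sum]
  have h3 : ∑ i : Fin 3, ∑ j : Fin 3, (e i) j * ⟪e i, gradField φ x j⟫ = divField φ x := by
    simp [e, divField, gradField, Fin.sum_univ_three, EuclideanSpace.inner_single_left]
  rw [h3, hφ.div x, mul_zero]
  rfl

end Pool.Agent.NSK
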