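import Pool.Agent.NSK.Abs
import Pool.Agent.NSD.Gronwall

/-!
# MP_fd8964_an, module `GronwallInt`
-/

open MeasureTheory Set Filter Topology

noncomputable section

namespace Pool.Agent.NSK

open Pool.Agent.NSD

theorem gronwallInt_proof : Stmt_GronwallInt := by
  intro T y Λ r g hy hΛ hr hg hΛ0 hr0 hg0 hy0 hle t ht
  have hT : 0 ≤ T := ht.1.trans ht.2
  set k : ℝ → ℝ := fun s => Λ s * y s + r s - g s with hk
  have hkc : ContinuousOn k (Icc 0 T) := ((hΛ.mul hy).add hr).sub hg
  obtain ⟨ke, hkec, hke⟩ := H4.exists_cont_ext hT hkc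
  set Y : ℝ → ℝ := fun s => y 0 + ∫ q in (0 : ℝ)..s, ke q with hY
  have hYder : ∀ s, HasDerivAt Y (ke s) s := fun s =>
    (intervalIntegral.integral_hasDerivAt_right (hkec.intervalIntegrable _ _)
      (hkec.stronglyMeasurableAtFilter _ _) hkec.continuousAt).const_add _
  have hYle : ∀ s ∈ Icc 0 T, y s ≤ Y s := by
    intro s hs
    refine (hle s hs).trans (le_of_eq ?_)
    simp only [hY]
    congr 1
    refine intervalIntegral.integral_congr (fun q hq => ?_)
    rw [uIcc_of_le hs.1] at hq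
    exact (hke q ⟨hq.1, hq.2.trans hs.2⟩).symm
  have hY0 : Y 0 = y 0 := by simp [hY]
  have key := gronwall_proof T Y ke Λ r g (fun s _ => (hYder s).hasDerivWithinAt) hΛ hr hg hΛ0 hr0
    hg0 (fun s hs => by
      rw [hke s hs]
      simp only [hk]
      have := mul_le_mul_of_nonneg_left (hYle s hs) (hΛ0 s hs)
      linarith) (by rw [hY0]; exact hy0) t ht
  rw [hY0] at key
  have := hYle t ht
  linarith

end Pool.Agent.NSK
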