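import Pool.Agent.NSD.MainAsm
import Pool.Agent.NSK.Conc

/-!
# MP_fd8964_an, weak density: module KDense (sums of kicks are dense in the dual of `V`)
-/

open MeasureTheory Set Filter Topology
open scoped RealInnerProductSpace ContDiff

noncomputable section

namespace Pool.Agent.NSK

open Pool.Agent.NSD

namespace KDense

/-- Riesz representatives of sums of kicks. -/
def CSet (Ω : Set E) (η : ℝ) : Set (V Ω) :=
  {x | ∃ (n : ℕ) (G : Fin n → E → E) (p : Fin n → V Ω), (∀ i, IsKick Ω η (G i)) ∧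
    (∀ i, Represents Ω (G i) (p i)) ∧ ∀ φ : V Ω, ⟪x, φ⟫ = ∑ i, ⟪fld (p i), fld φ⟫}

/-- The Riesz representative of `φ ↦ ⟪fld p, fld φ⟫`. -/
def riesz {Ω : Set E} (p : V Ω) : V Ω :=
  (InnerProductSpace.toDual ℝ (V Ω)).symm ((innerSL ℝ (fld p)).comp (fldLM Ω))

lemma riesz_inner {Ω : Set E} (p φ : V Ω) : ⟪riesz p, φ⟫ = ⟪fld p, fld φ⟫ := by
  unfold riesz
  rw [InnerProductSpace.toDual_symm_apply]
  rfl

lemma zero_mem (Ω : Set E) (η : ℝ) : (0 : V Ω) ∈ CSet Ω η :=
  ⟨0, Fin.elim0, Fin.elim0, fun i => i.elim0, fun i => i.elim0, fun φ => by simp⟩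

lemma add_mem {Ω : Set E} {η : ℝ} {x y : V Ω} (hx : x ∈ CSet Ω η) (hy : y ∈ CSet Ω η) :
    x + y ∈ CSet Ω η := by
  obtain ⟨n, G, p, h1, h2, h3⟩ := hx
  obtain ⟨n', G', p', h1', h2', h3'⟩ := hy
  refine ⟨n + n', Fin.append G G', Fin.append p p', fun i => ?_, fun i => ?_, fun φ => ?_⟩
  · refine Fin.addCases (fun i => ?_) (fun i => ?_) i
    · rw [Fin.append_left]; exact h1 i
    · rw [Fin.append_right]; exact h1' i
  · refine Fin.addCases (fun i => ?_) (fun i => ?_) i
    · rw [Fin.append_left, Fin.append_left]; exact h2 i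
    · rw [Fin.append_right, Fin.append_right]; exact h2' i
  · rw [inner_add_left, h3, h3', Fin.sum_univ_add]
    simp only [Fin.append_left, Fin.append_right]

lemma rep_smul {Ω : Set E} {η : ℝ} {G : E → E} {p : V Ω} (hG : IsKick Ω η G)
    (h : Represents Ω G p) (c : ℝ) : Represents Ω (fun x => c • G x) (c • p : V Ω) := by
  obtain ⟨n, a, k, ξ, q, hK⟩ := hG
  obtain ⟨h1, h2⟩ := h
  have hd : Differentiable ℝ G := hK.test.1.differentiable (by simp)
  have e1 : gradField (fun x => c • G x) = c • gradField G := by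
    funext x; ext i j
    have := fderiv_const_smul (hd x) c
    simp only [gradField]
    change (fderiv ℝ (c • G) x) (e i) j = _
    rw [this]
    rfl
  refine ⟨?_, ?_⟩
  · exact (Lp.coeFn_smul c (p : H1 Ω).fst).trans (h1.const_smul c)
  · rw [e1]
    exact (Lp.coeFn_smul c (p : H1 Ω).snd).trans (h2.const_smul c)

lemma smul_mem {Ω : Set E} {η : ℝ} (hC : Stmt_Cone) {x : V Ω} (hx : x ∈ CSet Ω η) {c : ℝ}
    (hc : 0 ≤ c) : c • x ∈ CSet Ω η := by
  obtain ⟨n, G, p, h1, h2, h3⟩ := hx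
  refine ⟨n, fun i x => c • G i x, fun i => c • p i, fun i => hC Ω η (G i) c hc (h1 i),
    fun i => rep_smul (h1 i) (h2 i) c, fun φ => ?_⟩
  refine (real_inner_smul_left x φ c).trans ?_
  rw [h3, Finset.mul_sum]
  refine Finset.sum_congr rfl fun i _ => ?_
  have : fld (c • p i) = c • fld (p i) := rfl
  rw [this, real_inner_smul_left]

lemma kick_mem {Ω : Set E} {η : ℝ} {G : E → E} {p : V Ω} (hG : IsKick Ω η G)
    (h : Represents Ω G p) : riesz p ∈ CSet Ω η :=
  ⟨1, fun _ => G, fun _ => p, fun _ => hG, fun _ => h, fun φ => (riesz_inner p φ).trans (by simp)⟩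

lemma convex {Ω : Set E} {η : ℝ} (hC : Stmt_Cone) : Convex ℝ (CSet Ω η) := by
  intro x hx y hy a b ha hb _
  exact add_mem (smul_mem hC hx ha) (smul_mem hC hy hb)

end KDense

open KDense in
theorem kDense_proof (hKL : Stmt_KLimit) (hC : Stmt_Cone) : Stmt_KDense := by
  intro Ω hΩ hb η hη l ε hε
  obtain ⟨x, hx⟩ : ∃ x : V Ω, ∀ φ, ⟪x, φ⟫ = l φ :=
    ⟨(InnerProductSpace.toDual ℝ (V Ω)).symm l, fun φ => by
      rw [InnerProductSpace.toDual_symm_apply]⟩
  have hmem : x ∈ closure (CSet Ω η) := by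
    by_contra hne
    obtain ⟨f, u, h1, h2⟩ := geometric_hahn_banach_closed_point (convex hC (Ω := Ω) (η := η)).closure
      isClosed_closure hne
    have hu : 0 < u := by
      have := h1 0 (subset_closure (zero_mem Ω η))
      simpa using this
    have hle : ∀ a ∈ CSet Ω η, f a ≤ 0 := by
      intro a ha
      by_contra hpos
      push Not at hpos
      have h3 := h1 ((u / f a) • a) (subset_closure (smul_mem hC ha (by positivity)))
      rw [map_smul, smul_eq_mul, div_mul_cancel₀ _ hpos.ne'] at h3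
      exact lt_irrefl _ h3
    obtain ⟨φ, hφ⟩ : ∃ φ : V Ω, ∀ v, ⟪φ, v⟫ = - f v :=
      ⟨(InnerProductSpace.toDual ℝ (V Ω)).symm (-f), fun v => by
        rw [InnerProductSpace.toDual_symm_apply]; rfl⟩
    have h0 : φ = 0 := by
      refine hKL Ω hΩ hb η hη φ fun G p hG hp => ?_
      have h4 := hle _ (kick_mem hG hp)
      have h5 := hφ (riesz p)
      rw [real_inner_comm, riesz_inner] at h5
      linarith
    have h6 := hφ x
    rw [h0, inner_zero_left] at h6
    linarith
  obtain ⟨y, ⟨n, G, p, h1, h2, h3⟩, hy⟩ := Metric.mem_closure_iff.1 hmem ε hε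
  refine ⟨n, G, p, h1, h2, fun φ => ?_⟩
  rw [← h3 φ, ← hx φ, ← inner_sub_left]
  refine (abs_real_inner_le_norm _ _).trans ?_
  refine mul_le_mul_of_nonneg_right ?_ (norm_nonneg _)
  rw [← dist_eq_norm, dist_comm]
  exact hy.le

end Pool.Agent.NSK
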