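import Pool.Agent.NSK.Conc
import Pool.Agent.NSD.Rep
import Pool.Agent.NSD.Sobolev
import Pool.Agent.NSD.Compat

/-!
# MP_fd8964_an, module KLimit (C4): a field of `V` pairing nonnegatively with all kicks vanishes
-/

open MeasureTheory Set Filter Topology
open scoped RealInnerProductSpace ContDiff

noncomputable section

namespace Pool.Agent.NSK.KLimit

open Pool.Agent.NSD Pool.Agent.NSK

variable {Ω : Set E}

/-! ### Bumps -/

lemma bump_sq {a : E → ℝ} (h : IsBump Ω a) : IsBump Ω (fun x => a x ^ 2) := by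
  refine ⟨h.1.pow 2, ?_, ?_⟩
  · exact h.2.1.comp_left (g := fun t : ℝ => t ^ 2) (by norm_num)
  · refine (closure_mono fun x hx => ?_).trans h.2.2
    rw [Function.mem_support] at hx ⊢
    intro h0
    exact hx (by simp [h0])

lemma dd_support (v : E) (a : E → ℝ) : tsupport (dd v a) ⊆ tsupport a := by
  have h2 : Function.support (dd v a) ⊆ Function.support (fderiv ℝ a) := by
    intro x hx
    rw [Function.mem_support] at hx ⊢
    intro h0
    exact hx (by simp [dd, h0])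
  exact (closure_mono h2).trans (tsupport_fderiv_subset ℝ)

lemma bump_dd {a : E → ℝ} (h : IsBump Ω a) (v : E) : IsBump Ω (dd v a) := by
  refine ⟨?_, ?_, (dd_support v a).trans h.2.2⟩
  · exact (h.1.fderiv_right (m := ∞) (by simp)).clm_apply contDiff_const
  · exact h.2.1.of_isClosed_subset (isClosed_tsupport _) (dd_support v a)

lemma bump_add {a b : E → ℝ} (ha : IsBump Ω a) (hb : IsBump Ω b) : IsBump Ω (fun x => a x + b x) :=
  ⟨ha.1.add hb.1, ha.2.1.add hb.2.1, (tsupport_add a b).trans (union_subset ha.2.2 hb.2.2)⟩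

lemma bump_cmul {a : E → ℝ} (ha : IsBump Ω a) (c : ℝ) : IsBump Ω (fun x => c * a x) := by
  refine ⟨contDiff_const.mul ha.1, ha.2.1.mul_left, ?_⟩
  refine (closure_mono fun x hx => ?_).trans ha.2.2
  rw [Function.mem_support] at hx ⊢
  intro h0
  exact hx (by simp [h0])

lemma bump_bdd {a : E → ℝ} (h : IsBump Ω a) : ∃ C : ℝ, 0 ≤ C ∧ ∀ x, |a x| ≤ C := by
  obtain ⟨C, hC⟩ := h.1.continuous.bounded_above_of_compact_support h.2.1
  exact ⟨max C 0, le_max_right _ _, fun x => (hC x).trans (le_max_left _ _)⟩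

lemma bump_int {a : E → ℝ} (h : IsBump Ω a) : Integrable a :=
  h.1.continuous.integrable_of_hasCompactSupport h.2.1

lemma bump_mul_int {a : E → ℝ} (h : IsBump Ω a) {F : E → ℝ} {μ : Measure E} (hF : Integrable F μ) :
    Integrable (fun x => a x * F x) μ := by
  obtain ⟨C, -, hC⟩ := bump_bdd h
  exact hF.bdd_mul (c := C) h.1.continuous.aestronglyMeasurable (Eventually.of_forall hC)

/-! ### Integrability of `φ` and `∇φ` -/

lemma intg_fld (hb : Bornology.IsBounded Ω) (φ : V Ω) : Integrable (fld φ : E → E) (volume.restrict Ω) := by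
  have := cpt_finite hb
  exact (Lp.memLp (fld φ)).integrable (by norm_num)

lemma intg_grd (hb : Bornology.IsBounded Ω) (φ : V Ω) : Integrable (grd φ : E → G) (volume.restrict Ω) := by
  have := cpt_finite hb
  exact (Lp.memLp (grd φ)).integrable (by norm_num)

/-- `(∂ᵢφ)ₗ`. -/
def gc (φ : V Ω) (i l : Fin 3) (x : E) : ℝ := ((grd φ : E → G) x i) l

/-- `φₗ`. -/
def fc (φ : V Ω) (l : Fin 3) (x : E) : ℝ := ((fld φ : E → E) x) l

lemma intg_gi (hb : Bornology.IsBounded Ω) (φ : V Ω) (i : Fin 3) :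
    Integrable (fun x => (grd φ : E → G) x i) (volume.restrict Ω) :=
  (PiLp.proj 2 (fun _ : Fin 3 => E) i : G →L[ℝ] E).integrable_comp (intg_grd hb φ)

lemma intg_gc (hb : Bornology.IsBounded Ω) (φ : V Ω) (i l : Fin 3) :
    Integrable (gc φ i l) (volume.restrict Ω) :=
  (EuclideanSpace.proj l : E →L[ℝ] ℝ).integrable_comp (intg_gi hb φ i)

lemma intg_fc (hb : Bornology.IsBounded Ω) (φ : V Ω) (l : Fin 3) :
    Integrable (fc φ l) (volume.restrict Ω) :=
  (EuclideanSpace.proj l : E →L[ℝ] ℝ).integrable_comp (intg_fld hb φ)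

/-- The quadratic form `ξ·(∇φ)ξ`. -/
def qf (φ : V Ω) (ξ : E) (x : E) : ℝ := ∑ i : Fin 3, ξ i * ⟪ξ, (grd φ : E → G) x i⟫

lemma inner_eq_sum (u v : E) : ⟪u, v⟫ = ∑ l : Fin 3, u l * v l := by
  rw [PiLp.inner_apply]
  exact Finset.sum_congr rfl fun l _ => by simp [mul_comm]

lemma qf_eq (φ : V Ω) (ξ : E) (x : E) : qf φ ξ x = ∑ i : Fin 3, ∑ l : Fin 3, ξ i * ξ l * gc φ i l x := by
  simp only [qf, inner_eq_sum, gc, Finset.mul_sum, mul_assoc]

lemma intg_qf (hb : Bornology.IsBounded Ω) (φ : V Ω) (ξ : E) : Integrable (qf φ ξ) (volume.restrict Ω) := by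
  have h : qf φ ξ = fun x => ∑ i : Fin 3, ∑ l : Fin 3, ξ i * ξ l * gc φ i l x := funext (qf_eq φ ξ)
  rw [h]
  exact integrable_finsetSum _ fun i _ => integrable_finsetSum _ fun l _ => (intg_gc hb φ i l).const_mul _

/-! ### Pairing of a kick with `φ` -/

lemma intg_inner (hb : Bornology.IsBounded Ω) (φ : V Ω) (ζ : E) :
    Integrable (fun x => ⟪ζ, (fld φ : E → E) x⟫) (volume.restrict Ω) :=
  (intg_fld hb φ).const_inner ζ

lemma pair_kick (hX : Stmt_PairXi) (hG : Stmt_Grad) (hΩ : IsOpen Ω) (hb : Bornology.IsBounded Ω) {η : ℝ} {n : ℕ}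
    {a : Fin n → E → ℝ} {k ξ : Fin n → E} {q : E → ℝ} {G : E → E} (hK : Kick Ω η n a k ξ q G) (p φ : V Ω)
    (hp : Represents Ω G p) :
    4 * η * ⟪fld p, fld φ⟫ = - ∑ m, ∫ x in Ω, a m x ^ 2 * qf φ (ξ m) x := by
  have h1 : ⟪fld p, fld φ⟫ = ∫ x in Ω, ⟪G x, (fld φ : E → E) x⟫ := by
    rw [L2.inner_def]
    refine integral_congr_ae ?_
    filter_upwards [hp.1] with x hx
    have hx' : (fld p : E → E) x = G x := hx
    rw [hx']
  have hq := hG Ω hΩ hb q hK.pres φ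
  have h2 : ∀ x, 4 * η * ⟪G x, (fld φ : E → E) x⟫
      = (∑ m, dd (ξ m) (fun y => a m y ^ 2) x * ⟪ξ m, (fld φ : E → E) x⟫)
        - ⟪gradS q x, (fld φ : E → E) x⟫ := by
    intro x
    have h3 := congrArg (fun z => ⟪z, (fld φ : E → E) x⟫) (hK.eq x)
    simp only [inner_add_left, inner_smul_left, sum_inner, conj_trivial] at h3
    linarith
  have hI1 : ∀ m, Integrable (fun x => dd (ξ m) (fun y => a m y ^ 2) x * ⟪ξ m, (fld φ : E → E) x⟫)
      (volume.restrict Ω) := fun m =>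
    bump_mul_int (bump_dd (bump_sq (hK.bump m)) (ξ m)) (intg_inner hb φ (ξ m))
  have hI2 : Integrable (fun x => ⟪gradS q x, (fld φ : E → E) x⟫) (volume.restrict Ω) := by
    have h4 : (fun x => ⟪gradS q x, (fld φ : E → E) x⟫)
        = fun x => ∑ i : Fin 3, dd (e i) q x * ⟪e i, (fld φ : E → E) x⟫ := by
      funext x
      simp only [gradS, sum_inner, inner_smul_left, conj_trivial]
    rw [h4]
    exact integrable_finsetSum _ fun i _ => bump_mul_int (bump_dd hK.pres (e i)) (intg_inner hb φ (e i))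
  rw [h1, ← integral_const_mul]
  simp_rw [h2]
  rw [integral_sub (integrable_finsetSum _ fun m _ => hI1 m) hI2, hq, sub_zero,
    integral_finsetSum _ fun m _ => hI1 m, ← Finset.sum_neg_distrib]
  refine Finset.sum_congr rfl fun m _ => ?_
  exact hX Ω hΩ hb (fun y => a m y ^ 2) (ξ m) (ξ m) (bump_sq (hK.bump m)) φ

/-! ### Averaging over translations -/

lemma subst_int (χ α : E → ℝ) (x : E) {ε : ℝ} (hε : 0 < ε) :
    ∫ z, χ z * α (ε⁻¹ • (x - z)) = ε ^ 3 * ∫ y, χ (x - ε • y) * α y := by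
  have h1 : ∫ z, χ z * α (ε⁻¹ • (x - z)) = ∫ z, χ (x - z) * α (ε⁻¹ • z) := by
    rw [← integral_sub_left_eq_self (fun z => χ z * α (ε⁻¹ • (x - z))) volume x]
    simp
  have h2 : ∀ z : E, χ (x - z) * α (ε⁻¹ • z) = (fun y => χ (x - ε • y) * α y) (ε⁻¹ • z) := by
    intro z
    simp only [smul_smul, mul_inv_cancel₀ hε.ne', one_smul]
  rw [h1, integral_congr_ae (Eventually.of_forall h2),
    Measure.integral_comp_smul volume (fun y => χ (x - ε • y) * α y) ε⁻¹]
  simp only [finrank_E, smul_eq_mul, inv_pow, inv_inv]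
  rw [abs_of_pos (by positivity)]

lemma fubini_int {χ α F : E → ℝ} {μ : Measure E} [SFinite μ] (hχ : Continuous χ) (hχ2 : HasCompactSupport χ)
    (hα : Continuous α) {C : ℝ} (hαC : ∀ y, |α y| ≤ C) (hF : Integrable F μ) (ε : ℝ) :
    Integrable (Function.uncurry fun (z x : E) => χ z * (α (ε⁻¹ • (x - z)) * F x))
      ((volume : Measure E).prod μ) := by
  have h1 : Integrable (fun p : E × E => χ p.1 * F p.2) ((volume : Measure E).prod μ) :=
    (hχ.integrable_of_hasCompactSupport hχ2).mul_prod hF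
  have h2 := h1.bdd_mul (f := fun p : E × E => α (ε⁻¹ • (p.2 - p.1))) (c := C)
    (by
      refine Continuous.aestronglyMeasurable ?_
      exact hα.comp (by fun_prop)) (Eventually.of_forall fun p => hαC _)
  refine h2.congr (Eventually.of_forall fun p => ?_)
  simp only [Function.uncurry]
  ring

lemma fubini_z {χ α F : E → ℝ} {μ : Measure E} [SFinite μ] (hχ : Continuous χ) (hχ2 : HasCompactSupport χ)
    (hα : Continuous α) {C : ℝ} (hαC : ∀ y, |α y| ≤ C) (hF : Integrable F μ) (ε : ℝ) :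
    Integrable (fun z => χ z * ∫ x, α (ε⁻¹ • (x - z)) * F x ∂μ) := by
  have h := (fubini_int hχ hχ2 hα hαC hF ε).integral_prod_left
  refine h.congr (Eventually.of_forall fun z => ?_)
  simp only [Function.uncurry, integral_const_mul]

lemma fubini_x {χ α F : E → ℝ} {μ : Measure E} [SFinite μ] (hχ : Continuous χ) (hχ2 : HasCompactSupport χ)
    (hα : Continuous α) {C : ℝ} (hαC : ∀ y, |α y| ≤ C) (hF : Integrable F μ) {ε : ℝ} (hε : 0 < ε) :
    Integrable (fun x => (∫ y, χ (x - ε • y) * α y) * F x) μ := by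
  have h := (fubini_int hχ hχ2 hα hαC hF ε).integral_prod_right
  refine (h.const_mul (ε ^ 3)⁻¹).congr (Eventually.of_forall fun x => ?_)
  simp only [Function.uncurry]
  simp_rw [← mul_assoc]
  rw [integral_mul_const, subst_int χ α x hε, ← mul_assoc, ← mul_assoc, inv_mul_cancel₀ (by positivity), one_mul]

lemma fubini {χ α F : E → ℝ} {μ : Measure E} [SFinite μ] (hχ : Continuous χ) (hχ2 : HasCompactSupport χ)
    (hα : Continuous α) {C : ℝ} (hαC : ∀ y, |α y| ≤ C) (hF : Integrable F μ) {ε : ℝ} (hε : 0 < ε) :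
    ∫ z, χ z * ∫ x, α (ε⁻¹ • (x - z)) * F x ∂μ
      = ε ^ 3 * ∫ x, (∫ y, χ (x - ε • y) * α y) * F x ∂μ := by
  calc ∫ z, χ z * ∫ x, α (ε⁻¹ • (x - z)) * F x ∂μ
      = ∫ z, ∫ x, χ z * (α (ε⁻¹ • (x - z)) * F x) ∂μ := by
        simp_rw [integral_const_mul]
    _ = ∫ x, (∫ z, χ z * (α (ε⁻¹ • (x - z)) * F x)) ∂μ :=
        integral_integral_swap (fubini_int hχ hχ2 hα hαC hF ε)
    _ = ∫ x, (ε ^ 3 * ((∫ y, χ (x - ε • y) * α y) * F x)) ∂μ := by
        refine integral_congr_ae (Eventually.of_forall fun x => ?_)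
        simp only
        simp_rw [← mul_assoc]
        rw [integral_mul_const, subst_int χ α x hε]
    _ = _ := integral_const_mul _ _

/-! ### Second order expansion -/

lemma taylor {χ : E → ℝ} (hχ : IsBump Ω χ) : ∃ L : ℝ, 0 ≤ L ∧ ∀ x z : E,
    |χ (x - z) - χ x + fderiv ℝ χ x z| ≤ L * ‖z‖ ^ 2 := by
  obtain ⟨L, hL⟩ := (hχ.1.fderiv_right (m := ∞) (by simp)).lipschitzWith_of_hasCompactSupport
    (hχ.2.1.fderiv ℝ) (by simp)
  refine ⟨L, L.2, fun x z => ?_⟩
  have h1 := (convex_closedBall x ‖z‖).norm_image_sub_le_of_norm_fderiv_le' (f := χ) (φ := fderiv ℝ χ x)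
    (C := L * ‖z‖) (x := x) (y := x - z) (𝕜 := ℝ) (fun u _ => hχ.1.differentiable (by simp) u)
    (fun u hu => by
      have h2 := hL.dist_le_mul u x
      rw [dist_eq_norm] at h2
      rw [Metric.mem_closedBall] at hu
      exact h2.trans (mul_le_mul_of_nonneg_left hu L.2))
    (Metric.mem_closedBall_self (norm_nonneg z)) (by simp [Metric.mem_closedBall])
  have h3 : (x - z) - x = - z := by abel
  rw [h3, map_neg, norm_neg, sub_neg_eq_add, Real.norm_eq_abs] at h1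
  calc _ ≤ _ := h1
    _ = _ := by ring

lemma expand {χ α : E → ℝ} (hχ : IsBump Ω χ) {Ω' : Set E} (hα : IsBump Ω' α) {Γ₀ Γ₁ : ℝ} {w : E}
    (h0 : ∫ y, α y = Γ₀) (h1 : ∫ y : E, α y • y = Γ₁ • w) :
    ∃ C : ℝ, 0 ≤ C ∧ ∀ ε : ℝ, ∀ x : E,
      |(∫ y, χ (x - ε • y) * α y) - (Γ₀ * χ x - ε * Γ₁ * dd w χ x)| ≤ C * ε ^ 2 := by
  obtain ⟨L, hL0, hL⟩ := taylor hχ
  have hαy : Integrable (fun y : E => α y • y) := by
    refine Continuous.integrable_of_hasCompactSupport (hα.1.continuous.smul continuous_id) ?_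
    exact hα.2.1.smul_right
  have hαy2 : Integrable (fun y : E => L * (‖y‖ ^ 2 * |α y|)) := by
    refine (Continuous.integrable_of_hasCompactSupport (by
      have := hα.1.continuous
      fun_prop) ?_).const_mul L
    exact (hα.2.1.comp_left (g := fun t : ℝ => |t|) (by simp)).mul_left
  refine ⟨∫ y : E, L * (‖y‖ ^ 2 * |α y|), integral_nonneg fun y => by positivity, fun ε x => ?_⟩
  have hI1 : Integrable (fun y : E => χ (x - ε • y) * α y) := by
    obtain ⟨C, -, hC⟩ := bump_bdd hχ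
    refine (bump_int hα).bdd_mul (c := C) ?_ (Eventually.of_forall fun y => hC _)
    refine Continuous.aestronglyMeasurable ?_
    have := hχ.1.continuous
    fun_prop
  have hI2 : Integrable (fun y : E => χ x * α y) := (bump_int hα).const_mul _
  have hI3 : Integrable (fun y : E => ε * (fderiv ℝ χ x) (α y • y)) :=
    ((fderiv ℝ χ x).integrable_comp hαy).const_mul ε
  have h2 : (∫ y, χ (x - ε • y) * α y) - (Γ₀ * χ x - ε * Γ₁ * dd w χ x)
      = ∫ y, (χ (x - ε • y) - χ x + fderiv ℝ χ x (ε • y)) * α y := by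
    have h3 : ∀ y, (χ (x - ε • y) - χ x + fderiv ℝ χ x (ε • y)) * α y
        = (χ (x - ε • y) * α y - χ x * α y) + ε * (fderiv ℝ χ x) (α y • y) := by
      intro y
      simp only [map_smul, smul_eq_mul]
      ring
    have hI12 : Integrable (fun y : E => χ (x - ε • y) * α y - χ x * α y) := hI1.sub hI2
    simp_rw [h3]
    rw [integral_add hI12 hI3, integral_sub hI1 hI2, integral_const_mul, integral_const_mul,
      ContinuousLinearMap.integral_comp_comm _ hαy, h0, h1]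
    simp only [map_smul, smul_eq_mul, dd]
    ring
  rw [h2, ← Real.norm_eq_abs]
  calc ‖∫ y, (χ (x - ε • y) - χ x + fderiv ℝ χ x (ε • y)) * α y‖
      ≤ ∫ y, ε ^ 2 * (L * (‖y‖ ^ 2 * |α y|)) := by
        refine norm_integral_le_of_norm_le (hαy2.const_mul _) (Eventually.of_forall fun y => ?_)
        rw [norm_mul, Real.norm_eq_abs, Real.norm_eq_abs]
        have h4 := hL x (ε • y)
        rw [norm_smul, mul_pow, Real.norm_eq_abs, sq_abs] at h4
        calc _ ≤ L * (ε ^ 2 * ‖y‖ ^ 2) * |α y| := mul_le_mul_of_nonneg_right h4 (abs_nonneg _)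
          _ = _ := by ring
    _ = _ := by rw [integral_const_mul]; ring

/-! ### The inequality for one base system -/

lemma sum_scaled_nonpos (hX : Stmt_PairXi) (hG : Stmt_Grad) (hS : Stmt_Scale) (hΩ : IsOpen Ω)
    (hb : Bornology.IsBounded Ω) {η : ℝ} (hη : 0 < η) (φ : V Ω)
    (hφ : ∀ (G : E → E) (p : V Ω), IsKick Ω η G → Represents Ω G p → 0 ≤ ⟪fld p, fld φ⟫)
    {n : ℕ} {a : Fin n → E → ℝ} {k ξ : Fin n → E} {q : E → ℝ} {G : E → E}
    (hK : Kick (Metric.ball 0 1) η n a k ξ q G) {z : E} {ε : ℝ} (hε : 0 < ε) (hz : Metric.ball z ε ⊆ Ω) :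
    ∑ m, ∫ x in Ω, a m (ε⁻¹ • (x - z)) ^ 2 * qf φ (ξ m) x ≤ 0 := by
  have hK' := hS Ω η n a k ξ q G z ε hε hK hz
  obtain ⟨p, hp⟩ := Rep_proof Ω _ hK'.test
  have h1 := pair_kick hX hG hΩ hb hK' p φ hp
  have h2 := hφ _ p ⟨n, _, _, _, _, hK'⟩ hp
  have h3 : 0 ≤ 4 * η * ⟪fld p, fld φ⟫ := by positivity
  linarith

lemma limit_ineq (hX : Stmt_PairXi) (hG : Stmt_Grad) (hS : Stmt_Scale) (hΩ : IsOpen Ω)
    (hb : Bornology.IsBounded Ω) {η : ℝ} (hη : 0 < η) (φ : V Ω)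
    (hφ : ∀ (G : E → E) (p : V Ω), IsKick Ω η G → Represents Ω G p → 0 ≤ ⟪fld p, fld φ⟫)
    {n : ℕ} {a : Fin n → E → ℝ} {k ξ w : Fin n → E} {q : E → ℝ} {G : E → E}
    (hK : Kick (Metric.ball 0 1) η n a k ξ q G) {Γ₀ Γ₁ : ℝ} (hΓ : 0 < Γ₁)
    (hm0 : ∀ m, ∫ y : E, a m y ^ 2 = Γ₀) (hm1 : ∀ m, ∫ y : E, (a m y ^ 2) • y = Γ₁ • w m)
    {χ : E → ℝ} (hχ : IsBump Ω χ) (hχ0 : ∀ x, 0 ≤ χ x)
    (h0 : ∑ m, ∫ x in Ω, χ x * qf φ (ξ m) x = 0) :
    0 ≤ ∑ m, ∫ x in Ω, dd (w m) χ x * qf φ (ξ m) x := by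
  have hsq : ∀ m, IsBump (Metric.ball 0 1) (fun y => a m y ^ 2) := fun m => bump_sq (hK.bump m)
  have hbd : ∀ m, ∃ C : ℝ, 0 ≤ C ∧ ∀ y, |a m y ^ 2| ≤ C := fun m => bump_bdd (hsq m)
  choose B hB0 hB using hbd
  have hex := fun m => expand hχ (hsq m) (hm0 m) (hm1 m)
  choose C hC0 hC using hex
  have hFi : ∀ m, Integrable (qf φ (ξ m)) (volume.restrict Ω) := fun m => intg_qf hb φ (ξ m)
  obtain ⟨δ, hδ, hthick⟩ := hχ.2.1.isCompact.exists_thickening_subset_open hΩ hχ.2.2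
  have hT : ∀ ε : ℝ, 0 < ε → ε < δ →
      ∑ m, ∫ x in Ω, (∫ y, χ (x - ε • y) * a m y ^ 2) * qf φ (ξ m) x ≤ 0 := by
    intro ε hε hεδ
    have h1 : ε ^ 3 * ∑ m, ∫ x in Ω, (∫ y, χ (x - ε • y) * a m y ^ 2) * qf φ (ξ m) x
        = ∫ z, ∑ m, χ z * ∫ x in Ω, a m (ε⁻¹ • (x - z)) ^ 2 * qf φ (ξ m) x := by
      rw [Finset.mul_sum, integral_finsetSum _ fun m _ =>
        fubini_z hχ.1.continuous hχ.2.1 (hsq m).1.continuous (hB m) (hFi m) ε]
      refine Finset.sum_congr rfl fun m _ => ?_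
      exact (fubini hχ.1.continuous hχ.2.1 (hsq m).1.continuous (hB m) (hFi m) hε).symm
    have h2 : ∫ z, ∑ m, χ z * ∫ x in Ω, a m (ε⁻¹ • (x - z)) ^ 2 * qf φ (ξ m) x ≤ 0 := by
      refine integral_nonpos fun z => ?_
      simp only [Pi.zero_apply]
      rw [← Finset.mul_sum]
      by_cases hz : z ∈ tsupport χ
      · refine mul_nonpos_of_nonneg_of_nonpos (hχ0 z) ?_
        refine sum_scaled_nonpos hX hG hS hΩ hb hη φ hφ hK hε ?_
        refine (Metric.ball_subset_ball hεδ.le).trans ?_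
        exact (Metric.ball_subset_thickening hz δ).trans hthick
      · rw [image_eq_zero_of_notMem_tsupport hz, zero_mul]
    rw [← h1] at h2
    have h3 : 0 < ε ^ 3 := by positivity
    by_contra hcon
    push Not at hcon
    have := mul_pos h3 hcon
    linarith
  -- the expansion
  have hmain : ∀ ε : ℝ, 0 < ε → |(∑ m, ∫ x in Ω, (∫ y, χ (x - ε • y) * a m y ^ 2) * qf φ (ξ m) x)
      + ε * Γ₁ * ∑ m, ∫ x in Ω, dd (w m) χ x * qf φ (ξ m) x|
      ≤ (∑ m, C m * ∫ x in Ω, |qf φ (ξ m) x|) * ε ^ 2 := by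
    intro ε hε
    have h1 : ∀ m, ∫ x in Ω, (∫ y, χ (x - ε • y) * a m y ^ 2) * qf φ (ξ m) x
        = (∫ x in Ω, ((∫ y, χ (x - ε • y) * a m y ^ 2) - (Γ₀ * χ x - ε * Γ₁ * dd (w m) χ x)) * qf φ (ξ m) x)
          + (Γ₀ * ∫ x in Ω, χ x * qf φ (ξ m) x) - ε * Γ₁ * ∫ x in Ω, dd (w m) χ x * qf φ (ξ m) x := by
      intro m
      have i1 : Integrable (fun x => (∫ y, χ (x - ε • y) * a m y ^ 2) * qf φ (ξ m) x) (volume.restrict Ω) :=
        fubini_x hχ.1.continuous hχ.2.1 (hsq m).1.continuous (hB m) (hFi m) hε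
      have i2 : Integrable (fun x => Γ₀ * (χ x * qf φ (ξ m) x)) (volume.restrict Ω) :=
        (bump_mul_int hχ (hFi m)).const_mul _
      have i3 : Integrable (fun x => ε * Γ₁ * (dd (w m) χ x * qf φ (ξ m) x)) (volume.restrict Ω) :=
        (bump_mul_int (bump_dd hχ (w m)) (hFi m)).const_mul _
      have i23 : Integrable (fun x => Γ₀ * (χ x * qf φ (ξ m) x) - ε * Γ₁ * (dd (w m) χ x * qf φ (ξ m) x))
        (volume.restrict Ω) := i2.sub i3
      have h2 : ∀ x, ((∫ y, χ (x - ε • y) * a m y ^ 2) - (Γ₀ * χ x - ε * Γ₁ * dd (w m) χ x)) * qf φ (ξ m) x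
          = (∫ y, χ (x - ε • y) * a m y ^ 2) * qf φ (ξ m) x
            - (Γ₀ * (χ x * qf φ (ξ m) x) - ε * Γ₁ * (dd (w m) χ x * qf φ (ξ m) x)) := by
        intro x; ring
      simp_rw [h2]
      rw [integral_sub i1 i23, integral_sub i2 i3, integral_const_mul, integral_const_mul]
      ring
    have h3 : (∑ m, ∫ x in Ω, (∫ y, χ (x - ε • y) * a m y ^ 2) * qf φ (ξ m) x)
        + ε * Γ₁ * ∑ m, ∫ x in Ω, dd (w m) χ x * qf φ (ξ m) x
        = ∑ m, ∫ x in Ω, ((∫ y, χ (x - ε • y) * a m y ^ 2)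
            - (Γ₀ * χ x - ε * Γ₁ * dd (w m) χ x)) * qf φ (ξ m) x := by
      rw [Finset.sum_congr rfl fun m _ => h1 m]
      rw [Finset.sum_sub_distrib, Finset.sum_add_distrib, ← Finset.mul_sum, ← Finset.mul_sum, h0]
      ring
    rw [h3, Finset.sum_mul]
    refine (Finset.abs_sum_le_sum_abs _ _).trans (Finset.sum_le_sum fun m _ => ?_)
    rw [← Real.norm_eq_abs]
    calc ‖∫ x in Ω, ((∫ y, χ (x - ε • y) * a m y ^ 2) - (Γ₀ * χ x - ε * Γ₁ * dd (w m) χ x)) * qf φ (ξ m) x‖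
        ≤ ∫ x in Ω, C m * ε ^ 2 * |qf φ (ξ m) x| := by
          refine norm_integral_le_of_norm_le ((hFi m).abs.const_mul _) (Eventually.of_forall fun x => ?_)
          rw [norm_mul, Real.norm_eq_abs, Real.norm_eq_abs]
          exact mul_le_mul_of_nonneg_right (hC m ε x) (abs_nonneg _)
      _ = _ := by rw [integral_const_mul]; ring
  set J := ∑ m, ∫ x in Ω, dd (w m) χ x * qf φ (ξ m) x with hJ
  set K := ∑ m, C m * ∫ x in Ω, |qf φ (ξ m) x| with hKd
  have hK0 : 0 ≤ K := Finset.sum_nonneg fun m _ => mul_nonneg (hC0 m) (integral_nonneg fun x => abs_nonneg _)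
  by_contra hcon
  push Not at hcon
  have hJ' : 0 < - (Γ₁ * J) := by nlinarith
  set ε := min (δ / 2) (- (Γ₁ * J) / (2 * (K + 1))) with hεd
  have hε : 0 < ε := lt_min (by linarith) (by positivity)
  have hε1 : ε < δ := lt_of_le_of_lt (min_le_left _ _) (by linarith)
  have hε2 : ε * (2 * (K + 1)) ≤ - (Γ₁ * J) := by
    have h5 := min_le_right (δ / 2) (- (Γ₁ * J) / (2 * (K + 1)))
    rw [← hεd, le_div_iff₀ (by positivity)] at h5
    exact h5
  have h6 := (abs_le.1 (hmain ε hε)).1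
  have h7 := hT ε hε hε1
  have h8 : ε * (- (Γ₁ * J)) ≤ K * ε ^ 2 := by nlinarith
  have h9 : - (Γ₁ * J) ≤ K * ε := by
    have : ε * (- (Γ₁ * J)) ≤ ε * (K * ε) := by rw [pow_two] at h8; linarith
    exact le_of_mul_le_mul_left this hε
  nlinarith

/-! ### The algebra -/

/-- `∫ h (∂ᵢφ)ₗ`. -/
def IG (φ : V Ω) (i l : Fin 3) (h : E → ℝ) : ℝ := ∫ x in Ω, h x * gc φ i l x
/-- `∫ h φₗ`. -/
def JF (φ : V Ω) (l : Fin 3) (h : E → ℝ) : ℝ := ∫ x in Ω, h x * fc φ l x

lemma inner_e (l : Fin 3) (u : E) : ⟪e l, u⟫ = u l := by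
  rw [inner_eq_sum]
  simp [e, PiLp.single_apply]

lemma e_apply (i l : Fin 3) : e i l = if l = i then 1 else 0 := by
  simp [e, PiLp.single_apply]

lemma IG_eq (hX : Stmt_PairXi) (hΩ : IsOpen Ω) (hb : Bornology.IsBounded Ω) (φ : V Ω) (i l : Fin 3)
    {h : E → ℝ} (hh : IsBump Ω h) : IG φ i l h = - JF φ l (dd (e i) h) := by
  have h1 := hX Ω hΩ hb h (e i) (e l) hh φ
  simp only [inner_e, e_apply, ite_mul, one_mul, zero_mul, Finset.sum_ite_eq', Finset.mem_univ,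
    if_true] at h1
  unfold IG JF gc fc
  rw [h1, neg_neg]

lemma grad_zero (hG : Stmt_Grad) (hΩ : IsOpen Ω) (hb : Bornology.IsBounded Ω) (φ : V Ω)
    {q : E → ℝ} (hq : IsBump Ω q) : ∑ i, JF φ i (dd (e i) q) = 0 := by
  have h1 := hG Ω hΩ hb q hq φ
  simp only [gradS, sum_inner, inner_smul_left, conj_trivial, inner_e] at h1
  unfold JF
  rw [← integral_finsetSum _ fun i _ => bump_mul_int (bump_dd hq (e i)) (intg_fc hb φ i)]
  exact h1

lemma div_zero (hX : Stmt_PairXi) (hG : Stmt_Grad) (hΩ : IsOpen Ω) (hb : Bornology.IsBounded Ω) (φ : V Ω)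
    {h : E → ℝ} (hh : IsBump Ω h) : ∑ i, IG φ i i h = 0 := by
  rw [Finset.sum_congr rfl fun i _ => IG_eq hX hΩ hb φ i i hh, Finset.sum_neg_distrib,
    grad_zero hG hΩ hb φ hh, neg_zero]

lemma dd_comm {χ : E → ℝ} (hχ : IsBump Ω χ) (v w : E) : dd v (dd w χ) = dd w (dd v χ) := by
  funext x
  have hd : ∀ y, HasFDerivAt χ (fderiv ℝ χ y) y := fun y =>
    (hχ.1.differentiable (by simp) y).hasFDerivAt
  have hd2 : DifferentiableAt ℝ (fderiv ℝ χ) x :=
    (hχ.1.fderiv_right (m := ∞) (by simp)).differentiable (by simp) x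
  have hs := second_derivative_symmetric hd hd2.hasFDerivAt v w
  have h1 : ∀ v w : E, dd v (dd w χ) x = fderiv ℝ (fderiv ℝ χ) x v w := by
    intro v w
    have h2 : HasFDerivAt (dd w χ)
        ((ContinuousLinearMap.apply ℝ ℝ w).comp (fderiv ℝ (fderiv ℝ χ) x)) x :=
      (ContinuousLinearMap.apply ℝ ℝ w).hasFDerivAt.comp x hd2.hasFDerivAt
    simp only [dd] at h2 ⊢
    rw [h2.fderiv]
    rfl
  rw [h1, h1, hs]

lemma trans_zero (hX : Stmt_PairXi) (hG : Stmt_Grad) (hΩ : IsOpen Ω) (hb : Bornology.IsBounded Ω) (φ : V Ω)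
    {χ : E → ℝ} (hχ : IsBump Ω χ) (j : Fin 3) : ∑ l, IG φ j l (dd (e l) χ) = 0 := by
  rw [Finset.sum_congr rfl fun l _ => IG_eq hX hΩ hb φ j l (bump_dd hχ (e l)), Finset.sum_neg_distrib]
  simp_rw [dd_comm hχ (e j)]
  rw [grad_zero hG hΩ hb φ (bump_dd hχ (e j)), neg_zero]

lemma dd_eq_inner (χ : E → ℝ) (w x : E) : dd w χ x = ⟪w, gradS χ x⟫ := by
  have hw : w = ∑ i : Fin 3, w i • e i := by
    ext l
    simp [e_apply]
  have h1 : ⟪w, gradS χ x⟫ = ∑ i : Fin 3, dd (e i) χ x * w i := by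
    simp only [gradS, inner_sum, inner_smul_right]
    exact Finset.sum_congr rfl fun i _ => by rw [real_inner_comm, inner_e]
  rw [h1]
  conv_lhs => rw [hw]
  simp only [dd, map_sum, map_smul, smul_eq_mul]
  exact Finset.sum_congr rfl fun i _ => mul_comm _ _

lemma gradS_apply (χ : E → ℝ) (x : E) (i : Fin 3) : gradS χ x i = dd (e i) χ x := by
  rw [← inner_e, ← dd_eq_inner]

lemma first_order (hX : Stmt_PairXi) (hG : Stmt_Grad) (hΩ : IsOpen Ω) (hb : Bornology.IsBounded Ω) (φ : V Ω)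
    {n : ℕ} {ξ : Fin n → E} (hiso : ∀ i l : Fin 3, ∑ m, ξ m i * ξ m l = if i = l then 2 else 0)
    {χ : E → ℝ} (hχ : IsBump Ω χ) : ∑ m, ∫ x in Ω, χ x * qf φ (ξ m) x = 0 := by
  have h1 : ∀ x, ∑ m, χ x * qf φ (ξ m) x = 2 * ∑ i, χ x * gc φ i i x := by
    intro x
    simp only [qf_eq]
    rw [← Finset.mul_sum, Finset.sum_comm]
    simp_rw [Finset.sum_comm (s := (Finset.univ : Finset (Fin n))), ← Finset.sum_mul, hiso, ite_mul, zero_mul,
      Finset.sum_ite_eq, Finset.mem_univ, if_true, Finset.mul_sum]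
    exact Finset.sum_congr rfl fun i _ => by ring
  rw [← integral_finsetSum _ fun m _ => bump_mul_int hχ (intg_qf hb φ (ξ m))]
  simp_rw [h1]
  rw [integral_const_mul, integral_finsetSum _ fun i _ => bump_mul_int hχ (intg_gc hb φ i i)]
  have h2 := div_zero hX hG hΩ hb φ hχ
  unfold IG at h2
  rw [h2, mul_zero]

lemma second_order (hX : Stmt_PairXi) (hG : Stmt_Grad) (hΩ : IsOpen Ω) (hb : Bornology.IsBounded Ω) (φ : V Ω)
    {n : ℕ} {ξ w : Fin n → E} {j : Fin 3} {sg : ℝ}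
    (hiso1 : ∀ (i l : Fin 3) (v : E), ∑ m, ⟪w m, v⟫ * (ξ m i * ξ m l)
      = sg * (((if j = l then v i else 0) + (if i = j then v l else 0)) / 2 + (if i = l then v j else 0)))
    {χ : E → ℝ} (hχ : IsBump Ω χ) :
    ∑ m, ∫ x in Ω, dd (w m) χ x * qf φ (ξ m) x = sg / 2 * ∑ i, IG φ i j (dd (e i) χ) := by
  have h1 : ∀ x, ∑ m, dd (w m) χ x * qf φ (ξ m) x
      = sg / 2 * ∑ i, dd (e i) χ x * gc φ i j x + sg / 2 * ∑ l, dd (e l) χ x * gc φ j l x
        + sg * ∑ i, dd (e j) χ x * gc φ i i x := by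
    intro x
    have h2 : ∑ m, dd (w m) χ x * qf φ (ξ m) x
        = ∑ i : Fin 3, ∑ l : Fin 3, (∑ m, ⟪w m, gradS χ x⟫ * (ξ m i * ξ m l)) * gc φ i l x := by
      simp only [qf_eq, Finset.mul_sum, Finset.sum_mul, dd_eq_inner]
      rw [Finset.sum_comm]
      refine Finset.sum_congr rfl fun i _ => ?_
      rw [Finset.sum_comm]
      exact Finset.sum_congr rfl fun l _ => Finset.sum_congr rfl fun m _ => by ring
    rw [h2]
    simp_rw [hiso1, gradS_apply]
    fin_cases j <;> simp [Fin.sum_univ_three] <;> ring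
  have hI : ∀ i l r : Fin 3, Integrable (fun x => dd (e r) χ x * gc φ i l x) (volume.restrict Ω) :=
    fun i l r => bump_mul_int (bump_dd hχ (e r)) (intg_gc hb φ i l)
  rw [← integral_finsetSum _ fun m _ => bump_mul_int (bump_dd hχ (w m)) (intg_qf hb φ (ξ m))]
  simp_rw [h1]
  have j1 : Integrable (fun x => sg / 2 * ∑ i, dd (e i) χ x * gc φ i j x) (volume.restrict Ω) :=
    (integrable_finsetSum _ fun i _ => hI i j i).const_mul _
  have j2 : Integrable (fun x => sg / 2 * ∑ l, dd (e l) χ x * gc φ j l x) (volume.restrict Ω) :=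
    (integrable_finsetSum _ fun l _ => hI j l l).const_mul _
  have j3 : Integrable (fun x => sg * ∑ i, dd (e j) χ x * gc φ i i x) (volume.restrict Ω) :=
    (integrable_finsetSum _ fun i _ => hI i i j).const_mul _
  have j12 : Integrable (fun x => sg / 2 * ∑ i, dd (e i) χ x * gc φ i j x
    + sg / 2 * ∑ l, dd (e l) χ x * gc φ j l x) (volume.restrict Ω) := j1.add j2
  rw [integral_add j12 j3, integral_add j1 j2, integral_const_mul, integral_const_mul, integral_const_mul,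
    integral_finsetSum _ fun i _ => hI i j i, integral_finsetSum _ fun l _ => hI j l l,
    integral_finsetSum _ fun i _ => hI i i j]
  have h3 := trans_zero hX hG hΩ hb φ hχ j
  have h4 := div_zero hX hG hΩ hb φ (bump_dd hχ (e j))
  unfold IG at h3 h4 ⊢
  rw [h3, h4]
  ring

/-! ### Conclusion -/

lemma cutoff (hΩ : IsOpen Ω) {χ : E → ℝ} (hχ : IsBump Ω χ) : ∃ ψ : E → ℝ, IsBump Ω ψ ∧ (∀ x, 0 ≤ ψ x) ∧
    ∀ x ∈ tsupport χ, ψ x = 1 := by
  obtain ⟨L, hL, hKL, hLU⟩ := exists_compact_between hχ.2.1.isCompact hΩ hχ.2.2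
  obtain ⟨f, hf1, hf2, hf3, hf4⟩ := exists_contMDiff_support_eq_eq_one_iff (n := ⊤) (modelWithCornersSelf ℝ E)
    (isOpen_interior (s := L)) (isClosed_tsupport χ) hKL
  have hsub : tsupport f ⊆ L := by
    unfold tsupport
    rw [hf3]
    exact closure_minimal interior_subset hL.isClosed
  refine ⟨f, ⟨hf1.contDiff, hL.of_isClosed_subset (isClosed_tsupport _) hsub, hsub.trans hLU⟩,
    fun x => (hf2 (mem_range_self x)).1, fun x hx => (hf4 x).1 hx⟩

lemma IG_add (hb : Bornology.IsBounded Ω) (φ : V Ω) (i j : Fin 3) {χ ψ : E → ℝ} (hχ : IsBump Ω χ)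
    (hψ : IsBump Ω ψ) (c : ℝ) (v : E) :
    IG φ i j (dd v (fun x => χ x + c * ψ x)) = IG φ i j (dd v χ) + c * IG φ i j (dd v ψ) := by
  have h1 : ∀ x, dd v (fun x => χ x + c * ψ x) x = dd v χ x + c * dd v ψ x := by
    intro x
    have h2 := (hχ.1.differentiable (by simp) x).hasFDerivAt
    have h3 := (hψ.1.differentiable (by simp) x).hasFDerivAt
    have h4 : HasFDerivAt (fun x => χ x + c * ψ x) (fderiv ℝ χ x + c • fderiv ℝ ψ x) x :=
      h2.add (h3.const_mul c)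
    simp only [dd]
    rw [h4.fderiv]
    simp
  unfold IG
  simp_rw [h1, add_mul]
  have i1 := bump_mul_int (bump_dd hχ v) (intg_gc hb φ i j)
  have i2 : Integrable (fun x => c * dd v ψ x * gc φ i j x) (volume.restrict Ω) := by
    have := (bump_mul_int (bump_dd hψ v) (intg_gc hb φ i j)).const_mul c
    simpa only [mul_assoc] using this
  rw [integral_add i1 i2]
  simp_rw [mul_assoc]
  rw [integral_const_mul]

theorem kLimit_proof (hX : Stmt_PairXi) (hG : Stmt_Grad) (hS : Stmt_Scale) (hB : Stmt_Base) : Stmt_KLimit := by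
  intro Ω hΩ hb η hη φ hφ
  -- nonnegative bumps
  have hM0 : ∀ (j : Fin 3) (χ : E → ℝ), IsBump Ω χ → (∀ x, 0 ≤ χ x) → ∑ i, IG φ i j (dd (e i) χ) = 0 := by
    intro j χ hχ hχ0
    have key : ∀ sg : ℝ, sg = 1 ∨ sg = -1 → 0 ≤ sg / 2 * ∑ i, IG φ i j (dd (e i) χ) := by
      intro sg hsg
      obtain ⟨Γ₀, Γ₁, a, k, ξ, w, q, G, hΓ, hBK⟩ := hB η j sg hη hsg
      rw [← second_order hX hG hΩ hb φ hBK.iso1 hχ]
      exact limit_ineq hX hG hS hΩ hb hη φ hφ hBK.kick hΓ hBK.mom0 hBK.mom1 hχ hχ0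
        (first_order hX hG hΩ hb φ hBK.iso hχ)
    have h1 := key 1 (Or.inl rfl)
    have h2 := key (-1) (Or.inr rfl)
    linarith
  -- all bumps
  have hM : ∀ (j : Fin 3) (χ : E → ℝ), IsBump Ω χ → ∑ i, IG φ i j (dd (e i) χ) = 0 := by
    intro j χ hχ
    obtain ⟨ψ, hψ, hψ0, hψ1⟩ := cutoff hΩ hχ
    obtain ⟨C, hC0, hC⟩ := bump_bdd hχ
    have h1 : IsBump Ω (fun x => χ x + C * ψ x) := bump_add hχ (bump_cmul hψ C)
    have h2 : ∀ x, 0 ≤ χ x + C * ψ x := by
      intro x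
      by_cases hx : x ∈ tsupport χ
      · rw [hψ1 x hx, mul_one]
        linarith [(abs_le.1 (hC x)).1]
      · rw [image_eq_zero_of_notMem_tsupport hx, zero_add]
        exact mul_nonneg hC0 (hψ0 x)
    have h3 := hM0 j _ h1 h2
    have h4 := hM0 j _ hψ hψ0
    simp_rw [IG_add hb φ _ _ hχ hψ C] at h3
    rw [Finset.sum_add_distrib, ← Finset.mul_sum, h4, mul_zero, add_zero] at h3
    exact h3
  -- test fields
  have htest : ∀ (v : E → E) (p : V Ω), IsTest Ω v → Represents Ω v p → ⟪grd p, grd φ⟫ = 0 := by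
    intro v p hv hp
    have hcomp : ∀ j, IsBump Ω (fun x => v x j) := fun j =>
      ⟨(cpt_comp hv j).1, (cpt_comp hv j).2.1, (cpt_comp hv j).2.2.1⟩
    have h1 : ⟪grd p, grd φ⟫ = ∫ x in Ω, ∑ i : Fin 3, ∑ j : Fin 3, dd (e i) (fun x => v x j) x * gc φ i j x := by
      rw [L2.inner_def]
      refine integral_congr_ae ?_
      filter_upwards [hp.2] with x hx
      have hx' : (grd p : E → G) x = gradField v x := hx
      rw [hx', PiLp.inner_apply]
      refine Finset.sum_congr rfl fun i _ => ?_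
      rw [inner_eq_sum]
      refine Finset.sum_congr rfl fun j _ => ?_
      have h2 := (cpt_comp hv j).2.2.2 x (e i)
      simp only [dd, gc, gradField]
      rw [h2]
    have hI : ∀ i j : Fin 3, Integrable (fun x => dd (e i) (fun x => v x j) x * gc φ i j x)
      (volume.restrict Ω) := fun i j => bump_mul_int (bump_dd (hcomp j) (e i)) (intg_gc hb φ i j)
    rw [h1, integral_finsetSum _ fun i _ => integrable_finsetSum _ fun j _ => hI i j]
    simp_rw [integral_finsetSum (Finset.univ : Finset (Fin 3)) fun j _ => hI _ j]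
    rw [Finset.sum_comm]
    refine Finset.sum_eq_zero fun j _ => ?_
    exact hM j _ (hcomp j)
  -- density
  obtain ⟨f, p, hp, hlim⟩ := Approx_proof Ω φ
  have h1 : Tendsto (fun n => ⟪grd (p n), grd φ⟫) atTop (𝓝 ⟪grd φ, grd φ⟫) :=
    (((cpt_grd_cont Ω).tendsto φ).comp hlim).inner tendsto_const_nhds
  have h2 : ∀ n, ⟪grd (p n), grd φ⟫ = 0 := fun n => htest _ _ (hp n).1 (hp n).2
  simp_rw [h2] at h1
  have h3 : ⟪grd φ, grd φ⟫ = 0 := (tendsto_nhds_unique h1 tendsto_const_nhds)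
  rw [real_inner_self_eq_norm_sq] at h3
  obtain ⟨c, hc, hc2⟩ := Poincare_proof Ω hb
  have h4 := hc2 φ
  rw [h3] at h4
  have h5 : ‖φ‖ ^ 2 ≤ 0 := by
    by_contra hcon
    push Not at hcon
    nlinarith [mul_pos hc hcon]
  have h6 : ‖φ‖ = 0 := by
    have := sq_nonneg ‖φ‖
    exact pow_eq_zero_iff (two_ne_zero) |>.1 (le_antisymm h5 this)
  exact norm_eq_zero.1 h6

end Pool.Agent.NSK.KLimit

namespace Pool.Agent.NSK

/-- Module KLimit (C4). -/
theorem kLimit_proof (hX : Stmt_PairXi) (hG : Stmt_Grad) (hS : Stmt_Scale) (hB : Stmt_Base) : Stmt_KLimit :=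
  KLimit.kLimit_proof hX hG hS hB

end Pool.Agent.NSK
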