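import Pool.Agent.NSK.PairXi

/-!
# Module Lap: integration by parts for the Laplacian
-/

set_option autoImplicit false

open MeasureTheory Set Filter Topology
open scoped RealInnerProductSpace ContDiff

noncomputable section

namespace Pool.Agent.NSK

open Pool.Agent.NSD

namespace LapLib

/-- The `j`-th component of the `i`-th derivative of a test field is a bump. -/
lemma bump_comp {Ω : Set E} {p : E → E} (hp : IsTest Ω p) (i j : Fin 3) :
    IsBump Ω (fun x => (fderiv ℝ p x (e i)) j) := by
  have hs : ContDiff ℝ ∞ (fun x => fderiv ℝ p x (e i)) :=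
    (hp.smooth.fderiv_right (m := ∞) (by simp)).clm_apply contDiff_const
  refine ⟨by fun_prop, ?_, ?_⟩
  · exact (hp.compact.fderiv ℝ).comp_left (g := fun L : E →L[ℝ] E => (L (e i)) j) rfl
  · refine subset_trans ?_ ((tsupport_fderiv_subset ℝ (f := p)).trans hp.supp)
    refine closure_mono ?_
    intro x hx hx'
    apply hx
    change (fderiv ℝ p x (e i)) j = 0
    rw [show fderiv ℝ p x = 0 from hx']
    rfl

lemma dd_comp {Ω : Set E} {p : E → E} (hp : IsTest Ω p) (i j : Fin 3) (x : E) :
    dd (e i) (fun x => (fderiv ℝ p x (e i)) j) x = dd (e i) (dd (e i) p) x j := by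
  have hs : ContDiff ℝ ∞ (fun x => fderiv ℝ p x (e i)) :=
    (hp.smooth.fderiv_right (m := ∞) (by simp)).clm_apply contDiff_const
  have h1 : HasFDerivAt (fun x => (fderiv ℝ p x (e i)) j)
      ((EuclideanSpace.proj j : E →L[ℝ] ℝ).comp (fderiv ℝ (fun x => fderiv ℝ p x (e i)) x)) x :=
    (EuclideanSpace.proj j : E →L[ℝ] ℝ).hasFDerivAt.comp x
      ((hs.differentiable (by simp)) x).hasFDerivAt
  unfold dd
  rw [h1.fderiv]
  rfl

end LapLib

open TestLib LapLib in
theorem lap_proof : Stmt_Lap := by
  intro Ω hΩ hb p pV hp hpV v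
  have hb' := fun i j => bump_comp hp i j
  have key := fun i j : Fin 3 => pairXi_proof Ω hΩ hb _ (e i) (e j) (hb' i j) v
  have i1 : ∀ i j : Fin 3, Integrable (fun x => dd (e i) (fun x => (fderiv ℝ p x (e i)) j) x *
      ⟪e j, (fld v : E → E) x⟫) (volume.restrict Ω) := by
    intro i j
    have hm := memLp_ddζ (hb' i j) (e i) (e j)
    have := L2.integrable_inner (𝕜 := ℝ) (hm.toLp _) (fld v)
    refine this.congr ?_
    filter_upwards [hm.coeFn_toLp] with x hx
    rw [hx, inner_smul_left]
    rfl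
  have i2 : ∀ i j : Fin 3, Integrable (fun x => (fderiv ℝ p x (e i)) j *
      ∑ l : Fin 3, (e i) l * ⟪e j, (grd v : E → G) x l⟫) (volume.restrict Ω) := by
    intro i j
    have hm := memLp_hG (hb' i j) (e i) (e j)
    have := L2.integrable_inner (𝕜 := ℝ) (hm.toLp _) (grd v)
    refine this.congr ?_
    filter_upwards [hm.coeFn_toLp] with x hx
    rw [hx, inner_hG]
  have hL : ⟪grd pV, grd v⟫ = ∑ i : Fin 3, ∑ j : Fin 3, ∫ x in Ω, (fderiv ℝ p x (e i)) j *
      ∑ l : Fin 3, (e i) l * ⟪e j, (grd v : E → G) x l⟫ := by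
    rw [L2.inner_def]
    simp_rw [← integral_finsetSum _ fun j (_ : j ∈ Finset.univ) => i2 _ j]
    rw [← integral_finsetSum _ fun i _ => integrable_finsetSum _ fun j _ => i2 i j]
    refine integral_congr_ae ?_
    filter_upwards [hpV.2] with x hx
    have hx' : (grd pV : E → G) x = gradField p x := hx
    rw [hx', PiLp.inner_apply]
    refine Finset.sum_congr rfl fun i _ => ?_
    fin_cases i <;>
    simp [e, gradField, Fin.sum_univ_three, 
      EuclideanSpace.inner_eq_star_dotProduct, dotProduct, mul_comm]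
  have hR : ∫ x in Ω, ⟪lap p x, (fld v : E → E) x⟫ = ∑ i : Fin 3, ∑ j : Fin 3,
      ∫ x in Ω, dd (e i) (fun x => (fderiv ℝ p x (e i)) j) x * ⟪e j, (fld v : E → E) x⟫ := by
    simp_rw [← integral_finsetSum _ fun j (_ : j ∈ Finset.univ) => i1 _ j]
    rw [← integral_finsetSum _ fun i _ => integrable_finsetSum _ fun j _ => i1 i j]
    refine integral_congr_ae (Filter.Eventually.of_forall fun x => ?_)
    simp only [lap, sum_inner]
    refine Finset.sum_congr rfl fun i _ => ?_
    simp only [dd_comp hp]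
    simp [e, Fin.sum_univ_three, 
      EuclideanSpace.inner_eq_star_dotProduct, dotProduct, mul_comm]
  rw [hL, hR, ← Finset.sum_neg_distrib]
  refine Finset.sum_congr rfl fun i _ => ?_
  rw [← Finset.sum_neg_distrib]
  refine Finset.sum_congr rfl fun j _ => ?_
  rw [key i j, neg_neg]

end Pool.Agent.NSK
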