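import Pool.Agent.NSK.LayerE

/-!
# MP_fd8964_an, weak density: module Layer (assembly)
-/

open MeasureTheory Set Filter Topology
open scoped RealInnerProductSpace ContDiff

noncomputable section

namespace Pool.Agent.NSK

open Pool.Agent.NSD Pool.Agent.NSK.Layer66

theorem layer_proof (hStar : Stmt_Star) (hLap : Stmt_Lap) (hAdv : Stmt_Adv) (hGrad : Stmt_Grad) (hW : Stmt_WBd)
    (hR1 : Stmt_R1) (hR2 : Stmt_R2) (hR14 : Stmt_R14) (hR4 : Stmt_R4) (hAB : Stmt_RAB) : Stmt_Layer := by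
  intro Ω hΩo hΩb D hD η n a k ξ q G s sV hη hK hs hsV
  obtain ⟨hDι, hDa, hDb⟩ := hD
  -- test fields
  have tA := isTest_fA (a := a) (k := k) (ξ := ξ) hK
  have tB := isTest_fB (a := a) (k := k) (ξ := ξ) hK hs.smooth
  have tC := isTest_fC (a := a) (k := k) (ξ := ξ) hK
  have tG := hK.test
  choose AV hAV using fun N => Rep_proof Ω _ (tA N)
  choose BV hBV using fun N => Rep_proof Ω _ (tB N)
  choose CV hCV using fun N => Rep_proof Ω _ (tC N)
  obtain ⟨GV, hGV⟩ := Rep_proof Ω G tG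
  set A : ℝ → E → E := fA a k ξ with hAdef
  set B : ℝ → E → E := fB a k ξ η s with hBdef
  set C : ℝ → E → E := fC a k ξ η G with hCdef
  -- classes
  have cA : ∀ N, Cls Ω (A N) (fld (AV N)) := fun N => (hAV N).1
  have cB : ∀ N, Cls Ω (B N) (fld (BV N)) := fun N => (hBV N).1
  have cC : ∀ N, Cls Ω (C N) (fld (CV N)) := fun N => (hCV N).1
  have cG : Cls Ω G (fld GV) := hGV.1
  have cadv : ∀ {p r : E → E}, IsTest Ω p → IsTest Ω r → Cls Ω (adv p r) (cls Ω (adv p r)) := fun hp hr =>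
    cls_spec Ω (contDiff_adv hp.smooth hr.smooth).continuous (hasCompactSupport_adv hr.compact)
  have clap : ∀ {p : E → E}, IsTest Ω p → Cls Ω (lap p) (cls Ω (lap p)) := fun hp =>
    cls_spec Ω (contDiff_lap hp.smooth).continuous (hasCompactSupport_lap hp.compact)
  have cgrad : Cls Ω (gradS q) (cls Ω (gradS q)) :=
    cls_spec Ω (contDiff_gradS hK.pres.1).continuous (hasCompactSupport_gradS hK.pres.2.1)
  -- bounds of the fields
  have bA := bdA hW hK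
  have bDA := bdDA hW hK
  have bB := bdB (η := η) hW hK hs.smooth
  have bDB := bdDB (η := η) hW hK hs.smooth
  have bC := bdC (η := η) hW hK
  have bDC := bdDC (η := η) hW hK
  have bG := BN_test tG
  have bDG := BN_dtest tG
  have hcB : ∀ m, IsBump Ω (c1 η (k m) (a m) s) := fun m => isBump_c1 η (k m) (hK.bump m) hs.smooth
  have hcC : ∀ m, IsBump Ω (c2 η (k m) (a m) G) := fun m => isBump_c2 η (k m) (hK.bump m) tG.smooth
  -- residual terms
  let r1 : ℝ → L2 Ω := fun N => (-(η * N ^ 2)) • fld (AV N) - η • cls Ω (lap (A N)) + N ^ 2 • fld (BV N)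
    + cls Ω (adv s (A N)) + cls Ω (adv (A N) s)
  have q1 := bd_of_BN (Ω := Ω) hΩb (p := r1) (bdR1 hR1 hη hK hs.smooth) (fun N =>
    (((((cA N).smul _).sub ((clap (tA N)).smul _)).add ((cB N).smul _)).add (cadv hs (tA N))).add (cadv (tA N) hs))
  let r2 : ℝ → L2 Ω := fun N => (-(η * N ^ 2)) • fld (BV N) - η • cls Ω (lap (B N))
    + cls Ω (adv s (B N)) + cls Ω (adv (B N) s)
  have q2 := bd_of_BN (Ω := Ω) hΩb (p := r2) (bdR2 hR2 hW hη hK hs hcB (F := B) (fun N => rfl)) (fun N =>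
    ((((cB N).smul _).sub ((clap (tB N)).smul _)).add (cadv hs (tB N))).add (cadv (tB N) hs))
  let r3 : ℝ → L2 Ω := fun N => (-(η * N ^ 2)) • fld (CV N) - η • cls Ω (lap (C N))
    + cls Ω (adv s (C N)) + cls Ω (adv (C N) s)
  have q3 := bd_of_BN (Ω := Ω) hΩb (p := r3) (bdR2 hR2 hW hη hK hs hcC (F := C) (fun N => rfl)) (fun N =>
    ((((cC N).smul _).sub ((clap (tC N)).smul _)).add (cadv hs (tC N))).add (cadv (tC N) hs))
  let r14 : ℝ → L2 Ω := fun N => (2 * η * N ^ 2) • fld (CV N) + cls Ω (adv G (A N)) + cls Ω (adv (A N) G)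
  have q14 := bd_of_BN (Ω := Ω) hΩb (p := r14) (bdR14 hR14 hη hK) (fun N =>
    (((cC N).smul _).add (cadv tG (tA N))).add (cadv (tA N) tG))
  let r4 : ℝ → L2 Ω := fun N => (-(2 * η * N ^ 2)) • fld GV + cls Ω (adv (A N) (A N))
    - (N ^ 2 / 2) • cls Ω (gradS q) - η • cls Ω (lap G) + cls Ω (adv s G) + cls Ω (adv G s)
  have q4 := bd_of_BN (Ω := Ω) hΩb (p := r4) (bdR4 hR4 hK hs) (fun N =>
    ((((((cG.smul _).add (cadv (tA N) (tA N))).sub (cgrad.smul _)).sub ((clap tG).smul _)).add (cadv hs tG)).add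
      (cadv tG hs)))
  let r12 : ℝ → L2 Ω := fun N => cls Ω (adv (A N) (B N)) + cls Ω (adv (B N) (A N))
  have q12 := bd_of_BN (Ω := Ω) hΩb (p := r12) (bdRAB hAB hK hcB (fun m => tsupport_c1_subset _ _ _ _) (F := B)
    (fun N => rfl)) (fun N => (cadv (tA N) (tB N)).add (cadv (tB N) (tA N)))
  let r13 : ℝ → L2 Ω := fun N => cls Ω (adv (A N) (C N)) + cls Ω (adv (C N) (A N))
  have q13 := bd_of_BN (Ω := Ω) hΩb (p := r13) (bdRAB hAB hK hcC (fun m => tsupport_c2_subset _ _ _ _) (F := C)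
    (fun N => rfl)) (fun N => (cadv (tA N) (tC N)).add (cadv (tC N) (tA N)))
  let r22 : ℝ → L2 Ω := fun N => cls Ω (adv (B N) (B N))
  have q22 := bd_of_BN (Ω := Ω) hΩb (p := r22) (BN.adv (l := 1) bB bDB (by norm_num))
    (fun N => cadv (tB N) (tB N))
  let r33 : ℝ → L2 Ω := fun N => cls Ω (adv (C N) (C N))
  have q33 := bd_of_BN (Ω := Ω) hΩb (p := r33) (BN.adv (l := 1) bC bDC (by norm_num))
    (fun N => cadv (tC N) (tC N))
  let r44 : ℝ → L2 Ω := fun N => cls Ω (adv G G)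
  have q44 := bd_of_BN (Ω := Ω) hΩb (p := r44) (BN.adv (l := 1) bG bDG (by norm_num))
    (fun N => cadv tG tG)
  let r23 : ℝ → L2 Ω := fun N => cls Ω (adv (B N) (C N)) + cls Ω (adv (C N) (B N))
  have q23 := bd_of_BN (Ω := Ω) hΩb (p := r23) ((BN.adv (l := 1) bB bDC (by norm_num)).add
    (BN.adv (l := 1) bC bDB (by norm_num))) (fun N => (cadv (tB N) (tC N)).add (cadv (tC N) (tB N)))
  let r24 : ℝ → L2 Ω := fun N => cls Ω (adv (B N) G) + cls Ω (adv G (B N))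
  have q24 := bd_of_BN (Ω := Ω) hΩb (p := r24) ((BN.adv (l := 1) bB bDG (by norm_num)).add
    (BN.adv (l := 1) bG bDB (by norm_num))) (fun N => (cadv (tB N) tG).add (cadv tG (tB N)))
  let r34 : ℝ → L2 Ω := fun N => cls Ω (adv (C N) G) + cls Ω (adv G (C N))
  have q34 := bd_of_BN (Ω := Ω) hΩb (p := r34) ((BN.adv (l := 1) bC bDG (by norm_num)).add
    (BN.adv (l := 1) bG bDC (by norm_num))) (fun N => (cadv (tC N) tG).add (cadv tG (tC N)))
  -- time factors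
  have t1 := tf1 hη
  have t2 := tf2 hη
  have t3 := tf3 hη
  have t4 := tf4 hη
  have hc0 : (0 : ℝ) ≤ η / 2 := by positivity
  -- the residual
  obtain ⟨Kρ, hKρ, gρ⟩ :=
    ((((((((((((GF.of_TF t1 q1).add (GF.of_TF t2 q2)).add (GF.of_TF t3 q3)).add (GF.of_TF (t1.mul hc0 t4) q14)).add
      (GF.of_TF t4 q4)).add (GF.of_TF (t1.mul hc0 t2) q12)).add (GF.of_TF (t1.mul hc0 t3) q13)).add
      (GF.of_TF (t2.mul hc0 t2) q22)).add (GF.of_TF (t3.mul hc0 t3) q33)).add (GF.of_TF (t4.mul hc0 t4) q44)).add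
      (GF.of_TF (t2.mul hc0 t3) q23)).add (GF.of_TF (t2.mul hc0 t4) q24)).add (GF.of_TF (t3.mul hc0 t4) q34)
  -- `L²` norm
  obtain ⟨Kι, hKι, gι⟩ :=
    (((GF.of_TF t1 (bd_of_BN hΩb bA cA)).add (GF.of_TF t2 (bd_of_BN hΩb (bB.mono (zero_le_one (α := ℕ))) cB))).add
      (GF.of_TF t3 (bd_of_BN hΩb (bC.mono (zero_le_one (α := ℕ))) cC))).add
      (GF.of_TF t4 (bd_of_BN (p := fun _ : ℝ => fld GV) hΩb (bG.mono (zero_le_one (α := ℕ))) fun _ => cG))
  -- gradient norm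
  obtain ⟨Kg, hKg, gg⟩ :=
    (((GF.of_TF t1 (bd_of_BN hΩb (p := fun N => grd (AV N)) (BN_gradField bDA) fun N => (hAV N).2)).add
      (GF.of_TF t2 (bd_of_BN hΩb (p := fun N => grd (BV N)) ((BN_gradField bDB).mono one_le_two)
        fun N => (hBV N).2))).add
      (GF.of_TF t3 (bd_of_BN hΩb (p := fun N => grd (CV N)) ((BN_gradField bDC).mono one_le_two)
        fun N => (hCV N).2))).add
      (GF.of_TF t4 (bd_of_BN (p := fun _ : ℝ => grd GV) hΩb ((BN_gradField (F := fun _ => G) bDG).mono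
        (zero_le_two (α := ℕ))) fun _ => hGV.2))
  -- sup norm
  have sw : ∀ {F : ℝ → E → E}, BN 1 F → ∃ K : ℝ, 0 ≤ K ∧ ∀ (x : E) (N : ℝ), 1 ≤ N → ‖F N x‖ ≤ K * N ^ 1 :=
    fun ⟨K, hK, h⟩ => ⟨K, hK, fun x N hN => h N hN x⟩
  obtain ⟨Ks, hKs, gs⟩ :=
    (((GF.of_TF (x := fun (x : E) N => A N x) t1 (sw bA)).add
      (GF.of_TF (x := fun (x : E) N => B N x) t2 (sw (bB.mono (zero_le_one (α := ℕ)))))).add
      (GF.of_TF (x := fun (x : E) N => C N x) t3 (sw (bC.mono (zero_le_one (α := ℕ)))))).add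
      (GF.of_TF (x := fun (x : E) _ => G x) t4 (sw (F := fun _ => G) (bG.mono (zero_le_one (α := ℕ)))))
  refine ⟨Kρ + Kι + Kg + Ks, η / 2, by positivity, by positivity, fun N hN => ?_⟩
  have hN0 : 0 ≤ N := by linarith
  have hex : ∀ t, 0 ≤ ex (η / 2) N t := fun t => (Real.exp_pos _).le
  let P : ℝ → V Ω := fun t => b1 η (N ^ 2 * t) • AV N + b2 η (N ^ 2 * t) • BV N + b3 η (N ^ 2 * t) • CV N
    + b4 η (N ^ 2 * t) • GV
  let P' : ℝ → V Ω := fun t => (N ^ 2 * (-(η * b1 η (N ^ 2 * t)))) • AV N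
    + (N ^ 2 * (b1 η (N ^ 2 * t) - η * b2 η (N ^ 2 * t))) • BV N
    + (N ^ 2 * (-(η * b3 η (N ^ 2 * t)) + 2 * η * (b1 η (N ^ 2 * t) * b4 η (N ^ 2 * t)))) • CV N
    + (N ^ 2 * (-(2 * η * b4 η (N ^ 2 * t)))) • GV
  let ρ : ℝ → L2 Ω := fun t => b1 η (N ^ 2 * t) • r1 N + b2 η (N ^ 2 * t) • r2 N + b3 η (N ^ 2 * t) • r3 N
    + (b1 η (N ^ 2 * t) * b4 η (N ^ 2 * t)) • r14 N + b4 η (N ^ 2 * t) • r4 N
    + (b1 η (N ^ 2 * t) * b2 η (N ^ 2 * t)) • r12 N + (b1 η (N ^ 2 * t) * b3 η (N ^ 2 * t)) • r13 N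
    + (b2 η (N ^ 2 * t) * b2 η (N ^ 2 * t)) • r22 N + (b3 η (N ^ 2 * t) * b3 η (N ^ 2 * t)) • r33 N
    + (b4 η (N ^ 2 * t) * b4 η (N ^ 2 * t)) • r44 N + (b2 η (N ^ 2 * t) * b3 η (N ^ 2 * t)) • r23 N
    + (b2 η (N ^ 2 * t) * b4 η (N ^ 2 * t)) • r24 N + (b3 η (N ^ 2 * t) * b4 η (N ^ 2 * t)) • r34 N
  let p : ℝ → E → E := fun t => b1 η (N ^ 2 * t) • A N + b2 η (N ^ 2 * t) • B N + b3 η (N ^ 2 * t) • C N
    + b4 η (N ^ 2 * t) • G
  have tp : ∀ t, IsTest Ω (p t) := fun t =>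
    ((((tA N).smul _).add ((tB N).smul _)).add ((tC N).smul _)).add (tG.smul _)
  have rp : ∀ t, Represents Ω (p t) (P t : H1 Ω) := fun t =>
    rep_add ((((tA N).smul _).add ((tB N).smul _)).add ((tC N).smul _)) (tG.smul _)
      (rep_add (((tA N).smul _).add ((tB N).smul _)) ((tC N).smul _)
        (rep_add ((tA N).smul _) ((tB N).smul _) (rep_smul _ (tA N) (hAV N)) (rep_smul _ (tB N) (hBV N)))
        (rep_smul _ (tC N) (hCV N))) (rep_smul _ tG hGV)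
  have le1 : ∀ {K u : ℝ}, 0 ≤ u → K ≤ Kρ + Kι + Kg + Ks → K * u ≤ (Kρ + Kι + Kg + Ks) * u := fun hu h =>
    mul_le_mul_of_nonneg_right h hu
  have fι : ∀ t, D.ι (P t) = b1 η (N ^ 2 * t) • fld (AV N) + b2 η (N ^ 2 * t) • fld (BV N)
      + b3 η (N ^ 2 * t) • fld (CV N) + b4 η (N ^ 2 * t) • fld GV := fun t => hDι (P t)
  have fg : ∀ t, grd (P t) = b1 η (N ^ 2 * t) • grd (AV N) + b2 η (N ^ 2 * t) • grd (BV N)
      + b3 η (N ^ 2 * t) • grd (CV N) + b4 η (N ^ 2 * t) • grd GV := fun t => rfl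
  have fsig : ∀ v, D.sig v = ‖grd v‖ := by
    intro v
    unfold Data.sig
    rw [hDa, real_inner_self_eq_norm_sq, Real.sqrt_sq (norm_nonneg _)]
  have star0 : ∀ t, 0 ≤ t → StarBd D (P t) ((Kρ + Kι + Kg + Ks) * N * ex (η / 2) N t) := by
    intro t ht
    refine hStar Ω hΩo hΩb D ⟨hDι, hDa, hDb⟩ (p t) (P t) _ (tp t) (rp t) fun x => ?_
    have h := (gs x N hN).1 t ht
    rw [pow_one, mul_assoc] at h
    rw [mul_assoc]
    exact h.trans (le1 (mul_nonneg hN0 (hex t)) (by linarith))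
  have starD : ∀ t h, 0 ≤ t → 0 ≤ h → h ≤ 1 →
      StarBd D (P (t + h) - P t) ((Kρ + Kι + Kg + Ks) * N ^ 3 * h * ex (η / 2) N t) := by
    intro t h ht hh _
    have e1 : P (t + h) - P t = P (t + h) + (-1 : ℝ) • P t := by module
    rw [e1]
    refine hStar Ω hΩo hΩb D ⟨hDι, hDa, hDb⟩ (p (t + h) + (-1 : ℝ) • p t) _ _ ((tp _).add ((tp t).smul _))
      (rep_add (tp _) ((tp t).smul _) (rp _) (rep_smul _ (tp t) (rp t))) fun x => ?_
    have h1 := (gs x N hN).2 t h ht hh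
    have e2 : (p (t + h) + (-1 : ℝ) • p t) x = p (t + h) x - p t x := by
      simp only [Pi.add_apply, Pi.smul_apply]; module
    rw [e2]
    have h2 : ‖p (t + h) x - p t x‖ ≤ Ks * (N ^ 3 * h * ex (η / 2) N t) := by
      refine le_trans (le_of_eq ?_) (h1.trans (le_of_eq ?_))
      · rfl
      · ring
    refine h2.trans ((le1 (by have := hex t; positivity) (by linarith)).trans (le_of_eq (by ring)))
  have derivP : ∀ t, HasDerivAt P (P' t) t := fun t =>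
    ((((d_b1 η N t).smul_const (AV N)).add ((d_b2 η N t).smul_const (BV N))).add
      ((d_b3 η N t).smul_const (CV N))).add ((d_b4 η N t).smul_const GV)
  have k1 := cont_b1 η
  have k2 := cont_b2 η
  have k3 := cont_b3 η
  have k4 := cont_b4 η
  have contP' : Continuous P' := by fun_prop
  have contρ : Continuous ρ := by fun_prop
  have rep0 : Represents Ω (fun x => G x + waveA N a k ξ x) (P 0 : H1 Ω) := by
    have h := rp 0
    have e1 : p 0 = fun x => G x + waveA N a k ξ x := by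
      funext x
      rw [waveA_eq]
      show b1 η (N ^ 2 * 0) • A N x + b2 η (N ^ 2 * 0) • B N x + b3 η (N ^ 2 * 0) • C N x + b4 η (N ^ 2 * 0) • G x
        = G x + A N x
      simp only [b1, b2, b3, b4, mul_zero, neg_zero, Real.exp_zero, mul_one, sub_self, zero_smul, one_smul,
        add_zero]
      exact add_comm _ _
    rw [← e1]; exact h
  have eqP : ∀ t, 0 ≤ t → ∀ v, ⟪D.ι (P' t), D.ι v⟫ + η * D.a (P t) v + D.b (P t) (P t) v
      + D.b sV (P t) v + D.b (P t) sV v = ⟪ρ t, D.ι v⟫ := by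
    intro t _ v
    have la : ∀ {p : E → E} {pV : V Ω}, IsTest Ω p → Represents Ω p (pV : H1 Ω) →
        D.a pV v = -⟪cls Ω (lap p), D.ι v⟫ := by
      intro p pV hp hpV
      rw [hDa, hLap Ω hΩo hΩb p pV hp hpV v, hDι v, inner_cls (clap hp)]
    have ad : ∀ {p r : E → E} {pV rV : V Ω}, IsTest Ω p → IsTest Ω r → Represents Ω p (pV : H1 Ω) →
        Represents Ω r (rV : H1 Ω) → D.b pV rV v = ⟪cls Ω (adv p r), D.ι v⟫ := by
      intro p r pV rV hp hr hpV hrV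
      rw [hDb, hAdv Ω hΩo hΩb p r pV rV hp hr hpV hrV v, hDι v, inner_cls (cadv hp hr)]
    have gr : ⟪cls Ω (gradS q), D.ι v⟫ = 0 := by
      rw [hDι v, inner_cls cgrad]; exact hGrad Ω hΩo hΩb q hK.pres v
    have key := eq_abs D η N (N ^ 2 * t) (AV N) (BV N) (CV N) GV sV v
      (cls Ω (lap (A N))) (cls Ω (lap (B N))) (cls Ω (lap (C N))) (cls Ω (lap G)) (cls Ω (gradS q))
      (cls Ω (adv (A N) (A N))) (cls Ω (adv (A N) (B N))) (cls Ω (adv (A N) (C N))) (cls Ω (adv (A N) G))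
      (cls Ω (adv (B N) (A N))) (cls Ω (adv (B N) (B N))) (cls Ω (adv (B N) (C N))) (cls Ω (adv (B N) G))
      (cls Ω (adv (C N) (A N))) (cls Ω (adv (C N) (B N))) (cls Ω (adv (C N) (C N))) (cls Ω (adv (C N) G))
      (cls Ω (adv G (A N))) (cls Ω (adv G (B N))) (cls Ω (adv G (C N))) (cls Ω (adv G G))
      (cls Ω (adv s (A N))) (cls Ω (adv s (B N))) (cls Ω (adv s (C N))) (cls Ω (adv s G))
      (cls Ω (adv (A N) s)) (cls Ω (adv (B N) s)) (cls Ω (adv (C N) s)) (cls Ω (adv G s))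
      (la (tA N) (hAV N)) (la (tB N) (hBV N)) (la (tC N) (hCV N)) (la tG hGV) gr
      (ad (tA N) (tA N) (hAV N) (hAV N)) (ad (tA N) (tB N) (hAV N) (hBV N)) (ad (tA N) (tC N) (hAV N) (hCV N))
      (ad (tA N) tG (hAV N) hGV)
      (ad (tB N) (tA N) (hBV N) (hAV N)) (ad (tB N) (tB N) (hBV N) (hBV N)) (ad (tB N) (tC N) (hBV N) (hCV N))
      (ad (tB N) tG (hBV N) hGV)
      (ad (tC N) (tA N) (hCV N) (hAV N)) (ad (tC N) (tB N) (hCV N) (hBV N)) (ad (tC N) (tC N) (hCV N) (hCV N))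
      (ad (tC N) tG (hCV N) hGV)
      (ad tG (tA N) hGV (hAV N)) (ad tG (tB N) hGV (hBV N)) (ad tG (tC N) hGV (hCV N)) (ad tG tG hGV hGV)
      (ad hs (tA N) hsV (hAV N)) (ad hs (tB N) hsV (hBV N)) (ad hs (tC N) hsV (hCV N)) (ad hs tG hsV hGV)
      (ad (tA N) hs (hAV N) hsV) (ad (tB N) hs (hBV N) hsV) (ad (tC N) hs (hCV N) hsV) (ad tG hs hGV hsV)
    simp only [hDι (AV N), hDι (BV N), hDι (CV N), hDι GV] at key
    exact key
  refine ⟨P, P', ρ, ⟨fun t _ => (derivP t).hasDerivWithinAt, contP'.continuousOn, contρ.continuousOn, eqP, star0,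
    starD, ?_, ?_, ?_, ?_, ?_⟩, rep0⟩
  · intro t ht
    have h : ‖ρ t‖ ≤ Kρ * N ^ 1 * ex (η / 2) N t := (gρ () N hN).1 t ht
    refine h.trans ((le_of_eq (by ring)).trans ((le1 (K := Kρ) (mul_nonneg hN0 (hex t)) (by linarith)).trans
      (le_of_eq (by ring))))
  · intro t h ht hh _
    have h1 : ‖ρ (t + h) - ρ t‖ ≤ Kρ * N ^ (1 + 2) * h * ex (η / 2) N t := (gρ () N hN).2 t h ht hh
    refine h1.trans ((le_of_eq (by ring)).trans ((le1 (K := Kρ) (u := N ^ 3 * h * ex (η / 2) N t)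
      (by have := hex t; positivity) (by linarith)).trans (le_of_eq (by ring))))
  · intro t ht
    have h := (gι () N hN).1 t ht
    rw [fι]
    refine h.trans ((le_of_eq (by ring)).trans ((le1 (K := Kι) (mul_nonneg hN0 (hex t)) (by linarith)).trans
      (le_of_eq (by ring))))
  · intro t h ht hh _
    have h1 := (gι () N hN).2 t h ht hh
    rw [map_sub, fι, fι]
    refine h1.trans ((le_of_eq (by ring)).trans ((le1 (K := Kι) (u := N ^ 3 * h * ex (η / 2) N t)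
      (by have := hex t; positivity) (by linarith)).trans (le_of_eq (by ring))))
  · intro t ht
    have h := (gg () N hN).1 t ht
    rw [fsig, fg]
    refine h.trans ((le_of_eq (by ring)).trans ((le1 (K := Kg) (u := N ^ 2 * ex (η / 2) N t)
      (by have := hex t; positivity) (by linarith)).trans (le_of_eq (by ring))))

end Pool.Agent.NSK
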