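import Pool.Agent.NSK.LayerR

/-!
# MP_fd8964_an, weak density: module Layer (assembly)
-/

open MeasureTheory Set Filter Topology
open scoped RealInnerProductSpace ContDiff

noncomputable section

namespace Pool.Agent.NSK.Layer66

open Pool.Agent.NSD Pool.Agent.NSK

/-- `p` is the class of `f` in `L²(Ω)`. -/
def Cls {X : Type*} [NormedAddCommGroup X] (Ω : Set E) (f : E → X) (p : Lp X 2 (volume.restrict Ω)) : Prop :=
  (p : E → X) =ᵐ[volume.restrict Ω] f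

section cls
variable {X : Type*} [NormedAddCommGroup X] {Ω : Set E}

theorem Cls.add {f g : E → X} {p p' : Lp X 2 (volume.restrict Ω)} (hf : Cls Ω f p) (hg : Cls Ω g p') :
    Cls Ω (fun x => f x + g x) (p + p') :=
  (Lp.coeFn_add p p').trans (Filter.EventuallyEq.add hf hg)

theorem Cls.sub {f g : E → X} {p p' : Lp X 2 (volume.restrict Ω)} (hf : Cls Ω f p) (hg : Cls Ω g p') :
    Cls Ω (fun x => f x - g x) (p - p') :=
  (Lp.coeFn_sub p p').trans (Filter.EventuallyEq.sub hf hg)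

theorem Cls.smul [NormedSpace ℝ X] {f : E → X} {p : Lp X 2 (volume.restrict Ω)} (c : ℝ) (hf : Cls Ω f p) :
    Cls Ω (fun x => c • f x) (c • p) :=
  (Lp.coeFn_smul c p).trans (Filter.EventuallyEq.const_smul hf c)

theorem norm_cls (X : Type*) [NormedAddCommGroup X] (hΩ : Bornology.IsBounded Ω) : ∃ K : ℝ, 0 ≤ K ∧
    ∀ (f : E → X) (p : Lp X 2 (volume.restrict Ω)) (C : ℝ), Cls Ω f p → 0 ≤ C → (∀ x, ‖f x‖ ≤ C) →
      ‖p‖ ≤ K * C := by
  have : IsFiniteMeasure (volume.restrict Ω) := ⟨by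
    rw [Measure.restrict_apply_univ]; exact hΩ.measure_lt_top⟩
  refine ⟨(measureUnivNNReal (volume.restrict Ω) : ℝ) ^ ((2 : ENNReal).toReal)⁻¹, by positivity, ?_⟩
  intro f p C hf hC hb
  exact Lp.norm_le_of_ae_bound hC (by
    filter_upwards [hf] with x hx
    rw [hx]; exact hb x)

/-- From sup bounds to `L²` bounds. -/
theorem bd_of_BN (hΩ : Bornology.IsBounded Ω) {j : ℕ} {F : ℝ → E → X} {p : ℝ → Lp X 2 (volume.restrict Ω)}
    (hF : BN j F) (hp : ∀ N, Cls Ω (F N) (p N)) :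
    ∃ C : ℝ, 0 ≤ C ∧ ∀ (_ : Unit) (N : ℝ), 1 ≤ N → ‖p N‖ ≤ C * N ^ j := by
  obtain ⟨K, hK, h1⟩ := norm_cls (Ω := Ω) X hΩ
  obtain ⟨C, hC, h2⟩ := hF
  refine ⟨K * C, by positivity, fun _ N hN => ?_⟩
  rw [mul_assoc]
  exact h1 (F N) (p N) _ (hp N) (by positivity) (h2 N hN)

end cls

/-- The class of a continuous compactly supported field. -/
def cls (Ω : Set E) (f : E → E) : L2 Ω :=
  open Classical in if h : MemLp f 2 (volume.restrict Ω) then h.toLp f else 0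

theorem cls_spec (Ω : Set E) {f : E → E} (hf : Continuous f) (hc : HasCompactSupport f) : Cls Ω f (cls Ω f) := by
  have h : MemLp f 2 (volume.restrict Ω) := hf.memLp_of_hasCompactSupport hc
  unfold cls Cls
  rw [dif_pos h]
  exact h.coeFn_toLp

theorem inner_cls {Ω : Set E} {f : E → E} {p : L2 Ω} (h : Cls Ω f p) (w : L2 Ω) :
    ⟪p, w⟫ = ∫ x in Ω, ⟪f x, (w : E → E) x⟫ := by
  rw [L2.inner_def]
  refine integral_congr_ae ?_
  filter_upwards [h] with x hx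
  rw [hx]

theorem norm_gradField_le (v : E → E) (x : E) : ‖gradField v x‖ ≤ 2 * ‖fderiv ℝ v x‖ := by
  have h1 : ∀ i : Fin 3, ‖fderiv ℝ v x (e i)‖ ≤ ‖fderiv ℝ v x‖ := by
    intro i
    have := (fderiv ℝ v x).le_opNorm (e i)
    simpa [e] using this
  have h2 : ‖gradField v x‖ ^ 2 ≤ (2 * ‖fderiv ℝ v x‖) ^ 2 := by
    rw [PiLp.norm_sq_eq_of_L2]
    calc ∑ i : Fin 3, ‖gradField v x i‖ ^ 2 ≤ ∑ _i : Fin 3, ‖fderiv ℝ v x‖ ^ 2 :=
          Finset.sum_le_sum fun i _ => pow_le_pow_left₀ (norm_nonneg _) (h1 i) 2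
      _ = 3 * ‖fderiv ℝ v x‖ ^ 2 := by simp
      _ ≤ (2 * ‖fderiv ℝ v x‖) ^ 2 := by nlinarith [sq_nonneg ‖fderiv ℝ v x‖]
  exact (sq_le_sq₀ (norm_nonneg _) (by positivity)).1 h2

theorem BN_gradField {j : ℕ} {F : ℝ → E → E} (h : BN j (fun N => fderiv ℝ (F N))) :
    BN j (fun N => gradField (F N)) := by
  obtain ⟨C, hC, h1⟩ := h
  refine ⟨2 * C, by positivity, fun N hN x => (norm_gradField_le _ _).trans ?_⟩
  have := h1 N hN x
  rw [mul_assoc]; linarith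

theorem rep_add {Ω : Set E} {f g : E → E} {p r : V Ω} (hf : IsTest Ω f) (hg : IsTest Ω g)
    (hp : Represents Ω f p) (hr : Represents Ω g r) : Represents Ω (f + g) ((p + r : V Ω) : H1 Ω) := by
  refine ⟨?_, ?_⟩
  · exact (Lp.coeFn_add (p : H1 Ω).fst (r : H1 Ω).fst).trans (hp.1.add hr.1)
  · rw [gradField_add hf.differentiable hg.differentiable]
    exact (Lp.coeFn_add (p : H1 Ω).snd (r : H1 Ω).snd).trans (hp.2.add hr.2)

theorem rep_smul {Ω : Set E} {f : E → E} {p : V Ω} (c : ℝ) (hf : IsTest Ω f)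
    (hp : Represents Ω f p) : Represents Ω (c • f) ((c • p : V Ω) : H1 Ω) := by
  refine ⟨?_, ?_⟩
  · exact (Lp.coeFn_smul c (p : H1 Ω).fst).trans (hp.1.const_smul c)
  · rw [gradField_smul c hf.differentiable]
    exact (Lp.coeFn_smul c (p : H1 Ω).snd).trans (hp.2.const_smul c)

/-! ### Time factors -/

/-- `e^{-ητ}`. -/
def b1 (η τ : ℝ) : ℝ := Real.exp (-(η * τ))
/-- `τ e^{-ητ}`. -/
def b2 (η τ : ℝ) : ℝ := τ * Real.exp (-(η * τ))
/-- `e^{-2ητ}`. -/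
def b4 (η τ : ℝ) : ℝ := Real.exp (-(η * τ)) * Real.exp (-(η * τ))
/-- `e^{-ητ} (1 - e^{-2ητ})`. -/
def b3 (η τ : ℝ) : ℝ := Real.exp (-(η * τ)) - Real.exp (-(η * τ)) * (Real.exp (-(η * τ)) * Real.exp (-(η * τ)))

section tf
variable {η : ℝ} (hη : 0 < η)
include hη

theorem tf1 : TF (η / 2) (b1 η) := TF_exp hη
theorem tf2 : TF (η / 2) (b2 η) := TF_texp hη
theorem tf4 : TF (η / 2) (b4 η) := TF.mul (by positivity) (TF_exp hη) (TF_exp hη)
theorem tf3 : TF (η / 2) (b3 η) :=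
  TF.sub (TF_exp hη) (TF.mul (by positivity) (TF_exp hη) (TF.mul (by positivity) (TF_exp hη) (TF_exp hη)))

end tf

theorem d_b1 (η N t : ℝ) : HasDerivAt (fun t => b1 η (N ^ 2 * t)) (N ^ 2 * (-(η * b1 η (N ^ 2 * t)))) t := by
  have h0 : HasDerivAt (fun t : ℝ => -(η * (N ^ 2 * t))) (-(η * (N ^ 2 * 1))) t :=
    (((hasDerivAt_id t).const_mul (N ^ 2)).const_mul η).neg
  exact h0.exp.congr_deriv (by unfold b1; ring)

theorem d_b2 (η N t : ℝ) : HasDerivAt (fun t => b2 η (N ^ 2 * t))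
    (N ^ 2 * (b1 η (N ^ 2 * t) - η * b2 η (N ^ 2 * t))) t := by
  have h0 : HasDerivAt (fun t : ℝ => N ^ 2 * t) (N ^ 2 * 1) t := (hasDerivAt_id t).const_mul (N ^ 2)
  have h := h0.mul (d_b1 η N t)
  exact h.congr_deriv (by unfold b1 b2; ring)

theorem d_b4 (η N t : ℝ) : HasDerivAt (fun t => b4 η (N ^ 2 * t))
    (N ^ 2 * (-(2 * η * b4 η (N ^ 2 * t)))) t := by
  have h := (d_b1 η N t).mul (d_b1 η N t)
  exact h.congr_deriv (by unfold b1 b4; ring)

theorem d_b3 (η N t : ℝ) : HasDerivAt (fun t => b3 η (N ^ 2 * t))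
    (N ^ 2 * (-(η * b3 η (N ^ 2 * t)) + 2 * η * (b1 η (N ^ 2 * t) * b4 η (N ^ 2 * t)))) t := by
  have h := (d_b1 η N t).sub ((d_b1 η N t).mul (d_b4 η N t))
  exact h.congr_deriv (by unfold b1 b3 b4; ring)

theorem cont_b1 (η : ℝ) : Continuous (b1 η) := by unfold b1; fun_prop
theorem cont_b2 (η : ℝ) : Continuous (b2 η) := by unfold b2; fun_prop
theorem cont_b3 (η : ℝ) : Continuous (b3 η) := by unfold b3; fun_prop
theorem cont_b4 (η : ℝ) : Continuous (b4 η) := by unfold b4; fun_prop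

end Pool.Agent.NSK.Layer66
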