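import Pool.Agent.NSK.LayerA

/-!
# MP_fd8964_an, weak density: module Layer (the algebraic identity)
-/

open MeasureTheory Set Filter Topology
open scoped RealInnerProductSpace ContDiff

noncomputable section

namespace Pool.Agent.NSK.Layer66

open Pool.Agent.NSD Pool.Agent.NSK

theorem eq_abs {V K : Type} [NormedAddCommGroup V] [InnerProductSpace ℝ V]
    [NormedAddCommGroup K] [InnerProductSpace ℝ K] (D : Data V K) (η N τ : ℝ) (A B C G s v : V)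
    (lA lB lC lG gr AA AB AC AG BA BB BC BG CA CB CC CG GA GB GC GG sA sB sC sG As Bs Cs Gs : K)
    (hlA : D.a A v = -⟪lA, D.ι v⟫) (hlB : D.a B v = -⟪lB, D.ι v⟫) (hlC : D.a C v = -⟪lC, D.ι v⟫)
    (hlG : D.a G v = -⟪lG, D.ι v⟫) (hgr : ⟪gr, D.ι v⟫ = 0)
    (hAA : D.b A A v = ⟪AA, D.ι v⟫) (hAB : D.b A B v = ⟪AB, D.ι v⟫) (hAC : D.b A C v = ⟪AC, D.ι v⟫)
    (hAG : D.b A G v = ⟪AG, D.ι v⟫) (hBA : D.b B A v = ⟪BA, D.ι v⟫) (hBB : D.b B B v = ⟪BB, D.ι v⟫)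
    (hBC : D.b B C v = ⟪BC, D.ι v⟫) (hBG : D.b B G v = ⟪BG, D.ι v⟫) (hCA : D.b C A v = ⟪CA, D.ι v⟫)
    (hCB : D.b C B v = ⟪CB, D.ι v⟫) (hCC : D.b C C v = ⟪CC, D.ι v⟫) (hCG : D.b C G v = ⟪CG, D.ι v⟫)
    (hGA : D.b G A v = ⟪GA, D.ι v⟫) (hGB : D.b G B v = ⟪GB, D.ι v⟫) (hGC : D.b G C v = ⟪GC, D.ι v⟫)
    (hGG : D.b G G v = ⟪GG, D.ι v⟫) (hsA : D.b s A v = ⟪sA, D.ι v⟫) (hsB : D.b s B v = ⟪sB, D.ι v⟫)
    (hsC : D.b s C v = ⟪sC, D.ι v⟫) (hsG : D.b s G v = ⟪sG, D.ι v⟫) (hAs : D.b A s v = ⟪As, D.ι v⟫)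
    (hBs : D.b B s v = ⟪Bs, D.ι v⟫) (hCs : D.b C s v = ⟪Cs, D.ι v⟫) (hGs : D.b G s v = ⟪Gs, D.ι v⟫) :
    ⟪D.ι ((N ^ 2 * (-(η * b1 η τ))) • A + (N ^ 2 * (b1 η τ - η * b2 η τ)) • B
      + (N ^ 2 * (-(η * b3 η τ) + 2 * η * (b1 η τ * b4 η τ))) • C + (N ^ 2 * (-(2 * η * b4 η τ))) • G), D.ι v⟫
    + η * D.a (b1 η τ • A + b2 η τ • B + b3 η τ • C + b4 η τ • G) v
    + D.b (b1 η τ • A + b2 η τ • B + b3 η τ • C + b4 η τ • G) (b1 η τ • A + b2 η τ • B + b3 η τ • C + b4 η τ • G) v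
    + D.b s (b1 η τ • A + b2 η τ • B + b3 η τ • C + b4 η τ • G) v
    + D.b (b1 η τ • A + b2 η τ • B + b3 η τ • C + b4 η τ • G) s v
    = ⟪b1 η τ • ((-(η * N ^ 2)) • D.ι A - η • lA + N ^ 2 • D.ι B + sA + As)
      + b2 η τ • ((-(η * N ^ 2)) • D.ι B - η • lB + sB + Bs)
      + b3 η τ • ((-(η * N ^ 2)) • D.ι C - η • lC + sC + Cs)
      + (b1 η τ * b4 η τ) • ((2 * η * N ^ 2) • D.ι C + GA + AG)
      + b4 η τ • ((-(2 * η * N ^ 2)) • D.ι G + AA - (N ^ 2 / 2) • gr - η • lG + sG + Gs)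
      + (b1 η τ * b2 η τ) • (AB + BA) + (b1 η τ * b3 η τ) • (AC + CA)
      + (b2 η τ * b2 η τ) • BB + (b3 η τ * b3 η τ) • CC + (b4 η τ * b4 η τ) • GG
      + (b2 η τ * b3 η τ) • (BC + CB) + (b2 η τ * b4 η τ) • (BG + GB) + (b3 η τ * b4 η τ) • (CG + GC), D.ι v⟫ := by
  simp only [map_add, map_smul, _root_.add_apply, _root_.smul_apply, smul_eq_mul, inner_add_left, inner_sub_left,
    real_inner_smul_left, hlA, hlB, hlC, hlG, hAA, hAB, hAC, hAG, hBA, hBB, hBC, hBG, hCA, hCB, hCC, hCG, hGA,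
    hGB, hGC, hGG, hsA, hsB, hsC, hsG, hAs, hBs, hCs, hGs]
  simp only [b1, b2, b3, b4]
  generalize Real.exp (-(η * τ)) = ee
  linear_combination (ee * ee * (N ^ 2 / 2)) * hgr

end Pool.Agent.NSK.Layer66
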