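import Pool.Agent.NSK.LayerT
import Pool.Agent.NSD.Rep
import Pool.Agent.NSD.Trilin

/-!
# MP_fd8964_an, weak density: module Layer, part 2 (fields)
-/

open MeasureTheory Set Filter Topology
open scoped RealInnerProductSpace ContDiff

noncomputable section

namespace Pool.Agent.NSK.Layer66

open Pool.Agent.NSD Pool.Agent.NSK

section smooth
variable {F : Type*} [NormedAddCommGroup F] [NormedSpace ℝ F]

theorem contDiff_dd {f : E → F} (hf : ContDiff ℝ ∞ f) (v : E) : ContDiff ℝ ∞ (dd v f) := by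
  have h1 : ContDiff ℝ ∞ (fderiv ℝ f) := hf.fderiv_right (by simp)
  exact h1.clm_apply contDiff_const

theorem tsupport_dd_subset (f : E → F) (v : E) : tsupport (dd v f) ⊆ tsupport f := by
  refine closure_minimal ?_ (isClosed_tsupport f)
  intro x hx
  by_contra h
  apply hx
  have : fderiv ℝ f x = 0 := by
    have h2 := mt (fun h => support_fderiv_subset ℝ h) h
    simpa [Function.mem_support] using h2
  show fderiv ℝ f x v = 0
  rw [this]; rfl

theorem dd_eq_zero {f : E → F} {x : E} (h : x ∉ tsupport f) (v : E) : dd v f x = 0 := by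
  by_contra h2
  exact h (tsupport_dd_subset f v (subset_tsupport _ h2))

theorem fderiv_eq_zero_of_notMem {f : E → F} {x : E} (h : x ∉ tsupport f) : fderiv ℝ f x = 0 := by
  have h2 := mt (fun h => support_fderiv_subset ℝ h) h
  simpa [Function.mem_support] using h2

theorem eq_zero_of_notMem {f : E → F} {x : E} (h : x ∉ tsupport f) : f x = 0 := by
  by_contra h2
  exact h (subset_tsupport _ h2)

theorem lap_eq_zero {f : E → F} {x : E} (h : x ∉ tsupport f) : lap f x = 0 := by
  unfold lap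
  refine Finset.sum_eq_zero fun i _ => ?_
  exact dd_eq_zero (fun h2 => h (tsupport_dd_subset f _ h2)) _

theorem dd_add {f g : E → F} (hf : ContDiff ℝ ∞ f) (hg : ContDiff ℝ ∞ g) (v : E) :
    dd v (f + g) = dd v f + dd v g := by
  funext x
  show fderiv ℝ (f + g) x v = fderiv ℝ f x v + fderiv ℝ g x v
  rw [fderiv_add (hf.differentiable (by simp) x) (hg.differentiable (by simp) x)]; rfl

theorem dd_smul {f : E → F} (hf : ContDiff ℝ ∞ f) (c : ℝ) (v : E) : dd v (c • f) = c • dd v f := by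
  funext x
  show fderiv ℝ (c • f) x v = c • fderiv ℝ f x v
  rw [fderiv_const_smul (hf.differentiable (by simp) x)]; rfl

theorem lap_add {f g : E → F} (hf : ContDiff ℝ ∞ f) (hg : ContDiff ℝ ∞ g) (x : E) :
    lap (f + g) x = lap f x + lap g x := by
  unfold lap
  rw [← Finset.sum_add_distrib]
  refine Finset.sum_congr rfl fun i _ => ?_
  rw [dd_add hf hg, dd_add (contDiff_dd hf _) (contDiff_dd hg _)]; rfl

theorem lap_smul {f : E → F} (hf : ContDiff ℝ ∞ f) (c : ℝ) (x : E) :
    lap (c • f) x = c • lap f x := by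
  unfold lap
  rw [Finset.smul_sum]
  refine Finset.sum_congr rfl fun i _ => ?_
  rw [dd_smul hf, dd_smul (contDiff_dd hf _)]; rfl

theorem contDiff_lap {f : E → F} (hf : ContDiff ℝ ∞ f) : ContDiff ℝ ∞ (lap f) := by
  unfold lap
  exact ContDiff.sum fun i _ => contDiff_dd (contDiff_dd hf _) _

theorem contDiff_sum' {n : ℕ} {f : Fin n → E → F} (hf : ∀ m, ContDiff ℝ ∞ (f m)) :
    ContDiff ℝ ∞ (∑ m, f m) := by
  have : (∑ m, f m) = fun x => ∑ m, f m x := by funext x; simp
  rw [this]
  exact ContDiff.sum fun i _ => hf i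

theorem lap_zero (x : E) : lap (0 : E → F) x = 0 :=
  lap_eq_zero (by simp [tsupport])

theorem lap_sum {n : ℕ} {f : Fin n → E → F} (hf : ∀ m, ContDiff ℝ ∞ (f m)) (x : E) :
    lap (∑ m, f m) x = ∑ m, lap (f m) x := by
  classical
  have key : ∀ S : Finset (Fin n), ContDiff ℝ ∞ (∑ m ∈ S, f m) ∧ lap (∑ m ∈ S, f m) x = ∑ m ∈ S, lap (f m) x := by
    intro S
    induction S using Finset.induction_on with
    | empty => simpa using ⟨contDiff_const (c := (0 : F)), lap_zero x⟩
    | insert m S hm ih =>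
      rw [Finset.sum_insert hm, Finset.sum_insert hm]
      exact ⟨(hf m).add ih.1, by rw [lap_add (hf m) ih.1, ih.2]⟩
  exact (key _).2

end smooth

theorem adv_add_left (p p' q : E → E) (x : E) : adv (p + p') q x = adv p q x + adv p' q x := by
  unfold adv; simp

theorem adv_sum_left {n : ℕ} (p : Fin n → E → E) (q : E → E) (x : E) :
    adv (∑ m, p m) q x = ∑ m, adv (p m) q x := by
  unfold adv; simp [Finset.sum_apply, map_sum]

theorem fderiv_sum' {n : ℕ} {f : Fin n → E → E} (hf : ∀ m, ContDiff ℝ ∞ (f m)) (x : E) :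
    fderiv ℝ (∑ m, f m) x = ∑ m, fderiv ℝ (f m) x := by
  rw [fderiv_sum fun m _ => (hf m).differentiable (by simp) x]

theorem adv_sum_right {n : ℕ} (p : E → E) {q : Fin n → E → E} (hq : ∀ m, ContDiff ℝ ∞ (q m)) (x : E) :
    adv p (∑ m, q m) x = ∑ m, adv p (q m) x := by
  unfold adv; rw [fderiv_sum' hq]; simp

/-- For families with disjoint supports, `adv` is diagonal. -/
theorem adv_sum_sum {n : ℕ} {p q : Fin n → E → E} {U : Fin n → Set E} (hq : ∀ m, ContDiff ℝ ∞ (q m))
    (hU : ∀ m m', m ≠ m' → Disjoint (U m) (U m'))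
    (hpU : ∀ m, tsupport (p m) ⊆ U m) (hqU : ∀ m, tsupport (q m) ⊆ U m) (x : E) :
    adv (∑ m, p m) (∑ m, q m) x = ∑ m, adv (p m) (q m) x := by
  rw [adv_sum_left]
  refine Finset.sum_congr rfl fun m _ => ?_
  rw [adv_sum_right _ hq]
  refine Finset.sum_eq_single m (fun m' _ hne => ?_) (by simp)
  unfold adv
  by_cases h1 : x ∈ U m
  · have h2 : x ∉ tsupport (q m') := fun h =>
      (Set.disjoint_left.1 (hU m m' hne.symm)) h1 (hqU m' h)
    rw [fderiv_eq_zero_of_notMem h2]; rfl
  · rw [eq_zero_of_notMem (fun h => h1 (hpU m h))]; simp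

theorem norm_adv_le (p q : E → E) (x : E) : ‖adv p q x‖ ≤ ‖fderiv ℝ q x‖ * ‖p x‖ :=
  ContinuousLinearMap.le_opNorm _ _

theorem contDiff_adv {p q : E → E} (hp : ContDiff ℝ ∞ p) (hq : ContDiff ℝ ∞ q) : ContDiff ℝ ∞ (adv p q) := by
  have h1 : ContDiff ℝ ∞ (fderiv ℝ q) := hq.fderiv_right (by simp)
  exact h1.clm_apply hp

theorem hasCompactSupport_adv {p q : E → E} (hq : HasCompactSupport q) : HasCompactSupport (adv p q) :=
  HasCompactSupport.intro hq fun x hx => by
    unfold adv
    rw [fderiv_eq_zero_of_notMem hx]; rfl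

theorem hasCompactSupport_lap {p : E → E} (hp : HasCompactSupport p) : HasCompactSupport (lap p) :=
  HasCompactSupport.intro hp fun _ hx => lap_eq_zero hx

theorem contDiff_gradS {q : E → ℝ} (hq : ContDiff ℝ ∞ q) : ContDiff ℝ ∞ (gradS q) := by
  unfold gradS
  exact ContDiff.sum fun i _ => (contDiff_dd hq _).smul contDiff_const

theorem hasCompactSupport_gradS {q : E → ℝ} (hq : HasCompactSupport q) : HasCompactSupport (gradS q) :=
  HasCompactSupport.intro hq fun x hx => by
    unfold gradS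
    exact Finset.sum_eq_zero fun i _ => by rw [dd_eq_zero hx]; simp

/-! ### Stream functions -/

theorem bump_mono {Ω Ω' : Set E} (h : Ω ⊆ Ω') {a : E → ℝ} (ha : IsBump Ω a) : IsBump Ω' a :=
  ⟨ha.1, ha.2.1, ha.2.2.trans h⟩

theorem tsupport_stream_subset (k ξ : E) (g : E → ℝ) : tsupport (stream k ξ g) ⊆ tsupport g := by
  refine closure_minimal ?_ (isClosed_tsupport g)
  intro x hx
  by_contra h
  apply hx
  show (dd k g x) • ξ - (dd ξ g x) • k = 0
  rw [dd_eq_zero h, dd_eq_zero h]; simp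

theorem contDiff_stream (k ξ : E) {g : E → ℝ} (hg : ContDiff ℝ ∞ g) : ContDiff ℝ ∞ (stream k ξ g) := by
  unfold stream
  exact ((contDiff_dd hg k).smul contDiff_const).sub ((contDiff_dd hg ξ).smul contDiff_const)

theorem E_sum_eq (v : E) : ∑ i : Fin 3, v i • e i = v := by
  ext j
  simp only [e, PiLp.smul_apply, smul_eq_mul, PiLp.toLp_apply, EuclideanSpace.single, WithLp.ofLp_sum,
    WithLp.ofLp_smul, Finset.sum_apply, Pi.smul_apply]
  rw [Finset.sum_eq_single j]
  · simp
  · intro i _ hi; simp [Pi.single_apply, Ne.symm hi]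
  · simp

theorem dd_eq_sum {F : Type*} [NormedAddCommGroup F] [NormedSpace ℝ F] (v : E) (f : E → F) (x : E) :
    dd v f x = ∑ i : Fin 3, v i • dd (e i) f x := by
  unfold dd
  conv_lhs => rw [← E_sum_eq v]
  rw [map_sum]
  simp

theorem dd_comm {g : E → ℝ} (hg : ContDiff ℝ ∞ g) (u v : E) (x : E) : dd u (dd v g) x = dd v (dd u g) x := by
  have h1 : ContDiff ℝ ∞ (fderiv ℝ g) := hg.fderiv_right (by simp)
  have hd : Differentiable ℝ (fderiv ℝ g) := h1.differentiable (by simp)
  have hs : IsSymmSndFDerivAt ℝ g x :=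
    (hg.contDiffAt).isSymmSndFDerivAt (by
      rw [minSmoothness_of_isRCLikeNormedField]
      exact WithTop.coe_le_coe.2 le_top)
  have e1 : ∀ u v : E, dd u (dd v g) x = fderiv ℝ (fderiv ℝ g) x u v := by
    intro u v
    show fderiv ℝ (fun y => fderiv ℝ g y v) x u = _
    rw [fderiv_clm_apply (hd x) (differentiableAt_const v)]
    simp
  rw [e1, e1]
  exact hs u v

theorem isTest_stream {Ω : Set E} (k ξ : E) {g : E → ℝ} (hg : IsBump Ω g) : IsTest Ω (stream k ξ g) := by
  refine IsTest.mk (contDiff_stream k ξ hg.1) ?_ ((tsupport_stream_subset k ξ g).trans hg.2.2) ?_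
  · exact HasCompactSupport.intro hg.2.1 fun x hx => by
      unfold stream
      rw [dd_eq_zero hx, dd_eq_zero hx]; simp
  · intro x
    have hk : ContDiff ℝ ∞ (dd k g) := contDiff_dd hg.1 k
    have hξ : ContDiff ℝ ∞ (dd ξ g) := contDiff_dd hg.1 ξ
    have e1 : ∀ i : Fin 3, fderiv ℝ (stream k ξ g) x (e i) i
        = dd (e i) (dd k g) x * ξ i - dd (e i) (dd ξ g) x * k i := by
      intro i
      have h1 : fderiv ℝ (stream k ξ g) x
          = (fderiv ℝ (dd k g) x).smulRight ξ - (fderiv ℝ (dd ξ g) x).smulRight k := by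
        have a1 : HasFDerivAt (fun y => dd k g y • ξ) ((fderiv ℝ (dd k g) x).smulRight ξ) x :=
          (hk.differentiable (by simp) x).hasFDerivAt.smul_const ξ
        have a2 : HasFDerivAt (fun y => dd ξ g y • k) ((fderiv ℝ (dd ξ g) x).smulRight k) x :=
          (hξ.differentiable (by simp) x).hasFDerivAt.smul_const k
        exact (a1.sub a2).fderiv
      rw [h1]
      simp [dd]
    unfold divField
    simp only [e1, Finset.sum_sub_distrib]
    have e2 : ∑ i : Fin 3, dd (e i) (dd k g) x * ξ i = dd ξ (dd k g) x := by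
      rw [dd_eq_sum ξ]; simp [mul_comm]
    have e3 : ∑ i : Fin 3, dd (e i) (dd ξ g) x * k i = dd k (dd ξ g) x := by
      rw [dd_eq_sum k]; simp [mul_comm]
    rw [e2, e3, dd_comm hg.1, sub_self]

theorem isTest_sum {Ω : Set E} {n : ℕ} {f : Fin n → E → E} (hf : ∀ m, IsTest Ω (f m)) :
    IsTest Ω (∑ m, f m) := by
  classical
  have key : ∀ S : Finset (Fin n), IsTest Ω (∑ m ∈ S, f m) := by
    intro S
    induction S using Finset.induction_on with
    | empty => simpa using isTest_zero Ω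
    | insert m S hm ih => rw [Finset.sum_insert hm]; exact (hf m).add ih
  exact key _

theorem tsupport_gS_subset (N : ℝ) (k : E) (a : E → ℝ) : tsupport (gS N k a) ⊆ tsupport a :=
  closure_mono fun x hx h => hx (by simp [gS, h])

theorem tsupport_gC_subset (N : ℝ) (k : E) (a : E → ℝ) : tsupport (gC N k a) ⊆ tsupport a :=
  closure_mono fun x hx h => hx (by simp [gC, h])

theorem isBump_gS {Ω : Set E} (N : ℝ) (k : E) {a : E → ℝ} (ha : IsBump Ω a) : IsBump Ω (gS N k a) := by
  refine ⟨?_, ?_, (tsupport_gS_subset N k a).trans ha.2.2⟩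
  · unfold gS
    have h1 : ContDiff ℝ ∞ fun y : E => N * ⟪k, y⟫ := contDiff_const.mul (contDiff_const.inner ℝ contDiff_id)
    exact h1.sin.mul ha.1
  · exact HasCompactSupport.intro ha.2.1 fun x hx => by simp [gS, eq_zero_of_notMem hx]

theorem isBump_gC {Ω : Set E} (N : ℝ) (k : E) {a : E → ℝ} (ha : IsBump Ω a) : IsBump Ω (gC N k a) := by
  refine ⟨?_, ?_, (tsupport_gC_subset N k a).trans ha.2.2⟩
  · unfold gC
    have h1 : ContDiff ℝ ∞ fun y : E => N * ⟪k, y⟫ := contDiff_const.mul (contDiff_const.inner ℝ contDiff_id)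
    exact (contDiff_const.mul h1.cos).mul ha.1
  · exact HasCompactSupport.intro ha.2.1 fun x hx => by simp [gC, eq_zero_of_notMem hx]

theorem tsupport_c1_subset (η : ℝ) (k : E) (a : E → ℝ) (s : E → E) : tsupport (c1 η k a s) ⊆ tsupport a := by
  refine closure_minimal ?_ (isClosed_tsupport a)
  intro x hx
  by_contra h
  apply hx
  simp [c1, eq_zero_of_notMem h, dd_eq_zero h]

theorem tsupport_c2_subset (η : ℝ) (k : E) (a : E → ℝ) (s : E → E) : tsupport (c2 η k a s) ⊆ tsupport a := by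
  refine closure_minimal ?_ (isClosed_tsupport a)
  intro x hx
  by_contra h
  apply hx
  simp [c2, eq_zero_of_notMem h]

theorem isBump_c1 {Ω : Set E} (η : ℝ) (k : E) {a : E → ℝ} {s : E → E} (ha : IsBump Ω a)
    (hs : ContDiff ℝ ∞ s) : IsBump Ω (c1 η k a s) := by
  refine ⟨?_, ?_, (tsupport_c1_subset η k a s).trans ha.2.2⟩
  · unfold c1
    exact (ha.1.mul (hs.inner ℝ contDiff_const)).sub (contDiff_const.mul (contDiff_dd ha.1 k))
  · exact HasCompactSupport.intro ha.2.1 fun x hx => by simp [c1, eq_zero_of_notMem hx, dd_eq_zero hx]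

theorem isBump_c2 {Ω : Set E} (η : ℝ) (k : E) {a : E → ℝ} {s : E → E} (ha : IsBump Ω a)
    (hs : ContDiff ℝ ∞ s) : IsBump Ω (c2 η k a s) := by
  refine ⟨?_, ?_, (tsupport_c2_subset η k a s).trans ha.2.2⟩
  · unfold c2
    exact (ha.1.mul (hs.inner ℝ contDiff_const)).div_const _
  · exact HasCompactSupport.intro ha.2.1 fun x hx => by simp [c2, eq_zero_of_notMem hx]

end Pool.Agent.NSK.Layer66
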