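import Pool.Agent.NSK.LayerF

/-!
# MP_fd8964_an, weak density: module Layer, part 3 (sup bounds of the residual terms)
-/

open MeasureTheory Set Filter Topology
open scoped RealInnerProductSpace ContDiff

noncomputable section

namespace Pool.Agent.NSK.Layer66

open Pool.Agent.NSD Pool.Agent.NSK

/-- Families of fields of size `N^j`. -/
def BN {X : Type*} [NormedAddCommGroup X] (j : ℕ) (F : ℝ → E → X) : Prop :=
  ∃ C : ℝ, 0 ≤ C ∧ ∀ N : ℝ, 1 ≤ N → ∀ x, ‖F N x‖ ≤ C * N ^ j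

section
variable {X : Type*} [NormedAddCommGroup X]

theorem BN.mono {i j : ℕ} (hij : i ≤ j) {F : ℝ → E → X} (hF : BN i F) : BN j F := by
  obtain ⟨C, hC, h⟩ := hF
  exact ⟨C, hC, fun N hN x => (h N hN x).trans
    (mul_le_mul_of_nonneg_left (pow_le_pow_right₀ hN hij) hC)⟩

theorem BN.congr {j : ℕ} {F F' : ℝ → E → X} (hF : BN j F) (h : ∀ N x, F' N x = F N x) : BN j F' := by
  obtain ⟨C, hC, h1⟩ := hF
  exact ⟨C, hC, fun N hN x => by rw [h]; exact h1 N hN x⟩

theorem BN.add {j : ℕ} {F F' : ℝ → E → X} (hF : BN j F) (hF' : BN j F') : BN j (fun N x => F N x + F' N x) := by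
  obtain ⟨C, hC, h1⟩ := hF
  obtain ⟨C', hC', h2⟩ := hF'
  refine ⟨C + C', by positivity, fun N hN x => ?_⟩
  have a1 := h1 N hN x
  have a2 := h2 N hN x
  calc ‖F N x + F' N x‖ ≤ ‖F N x‖ + ‖F' N x‖ := norm_add_le _ _
    _ ≤ (C + C') * N ^ j := by linarith

theorem BN.sum {j n : ℕ} {F : Fin n → ℝ → E → X} (hF : ∀ m, BN j (F m)) :
    BN j (fun N x => ∑ m, F m N x) := by
  choose C hC h using hF
  refine ⟨∑ m, C m, Finset.sum_nonneg fun m _ => hC m, fun N hN x => ?_⟩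
  rw [Finset.sum_mul]
  exact (norm_sum_le _ _).trans (Finset.sum_le_sum fun m _ => h m N hN x)

theorem BN.smul [NormedSpace ℝ X] {j : ℕ} {F : ℝ → E → X} (r : ℝ) (hF : BN j F) :
    BN j (fun N x => r • F N x) := by
  obtain ⟨C, hC, h⟩ := hF
  refine ⟨|r| * C, by positivity, fun N hN x => ?_⟩
  rw [norm_smul, Real.norm_eq_abs, mul_assoc]
  exact mul_le_mul_of_nonneg_left (h N hN x) (abs_nonneg r)

end

theorem BN.adv {i j l : ℕ} {p q : ℝ → E → E} (hp : BN i p) (hq : BN j (fun N => fderiv ℝ (q N)))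
    (hl : i + j ≤ l) : BN l (fun N => adv (p N) (q N)) := by
  obtain ⟨C, hC, h1⟩ := hp
  obtain ⟨C', hC', h2⟩ := hq
  refine BN.mono hl ⟨C * C', by positivity, fun N hN x => ?_⟩
  refine (norm_adv_le _ _ x).trans ?_
  calc ‖fderiv ℝ (q N) x‖ * ‖p N x‖ ≤ (C' * N ^ j) * (C * N ^ i) :=
        mul_le_mul (h2 N hN x) (h1 N hN x) (norm_nonneg _) (by positivity)
    _ = C * C' * N ^ (i + j) := by rw [pow_add]; ring

theorem BN_const {X : Type*} [NormedAddCommGroup X] {f : E → X} (hf : Continuous f) (hc : HasCompactSupport f) :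
    BN 0 (fun _ => f) := by
  obtain ⟨C, hC⟩ := hf.bounded_above_of_compact_support hc
  exact ⟨|C|, abs_nonneg C, fun N _ x => by
    rw [pow_zero, mul_one]; exact (hC x).trans (le_abs_self C)⟩

theorem BN_test {Ω : Set E} {G : E → E} (hG : IsTest Ω G) : BN 0 (fun _ => G) :=
  BN_const hG.smooth.continuous hG.compact

theorem BN_dtest {Ω : Set E} {G : E → E} (hG : IsTest Ω G) : BN 0 (fun _ => fderiv ℝ G) :=
  BN_const (hG.smooth.continuous_fderiv (by simp)) (hG.compact.fderiv ℝ)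

section fields
variable {n : ℕ} (a : Fin n → E → ℝ) (k ξ : Fin n → E) (η : ℝ) (G s : E → E)

/-- The wave `A`. -/
def fA (N : ℝ) : E → E := ∑ m, stream (k m) (ξ m) (gS N (k m) (a m))

/-- The corrector `B`. -/
def fB (N : ℝ) : E → E := ∑ m, stream (k m) (ξ m) (gC N (k m) (c1 η (k m) (a m) s))

/-- The corrector `C`. -/
def fC (N : ℝ) : E → E := ∑ m, stream (k m) (ξ m) (gC N (k m) (c2 η (k m) (a m) G))

theorem waveA_eq (N : ℝ) : waveA N a k ξ = fA a k ξ N := by
  funext x; simp [waveA, fA, Finset.sum_apply]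

variable {a k ξ η G s} {Ω : Set E} {q : E → ℝ}

theorem isTest_fA (hK : Kick Ω η n a k ξ q G) (N : ℝ) : IsTest Ω (fA a k ξ N) :=
  isTest_sum fun m => isTest_stream _ _ (isBump_gS N _ (hK.bump m))

theorem isTest_fB (hK : Kick Ω η n a k ξ q G) (hs : ContDiff ℝ ∞ s) (N : ℝ) : IsTest Ω (fB a k ξ η s N) :=
  isTest_sum fun m => isTest_stream _ _ (isBump_gC N _ (isBump_c1 η (k m) (hK.bump m) hs))

theorem isTest_fC (hK : Kick Ω η n a k ξ q G) (N : ℝ) : IsTest Ω (fC a k ξ η G N) :=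
  isTest_sum fun m => isTest_stream _ _ (isBump_gC N _ (isBump_c2 η (k m) (hK.bump m) hK.test.smooth))

theorem bdA (hW : Stmt_WBd) (hK : Kick Ω η n a k ξ q G) : BN 1 (fA a k ξ) := by
  have h : ∀ m, BN 1 (fun N => stream (k m) (ξ m) (gS N (k m) (a m))) := by
    intro m
    obtain ⟨C, hC, h⟩ := hW (k m) (ξ m) (a m) (a m) (hK.k_unit m) (hK.ξ_unit m) (hK.orth m)
      (bump_mono (subset_univ _) (hK.bump m)) (bump_mono (subset_univ _) (hK.bump m))
    exact ⟨C, hC, fun N hN x => by rw [pow_one]; exact (h N hN x).1⟩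
  exact (BN.sum h).congr fun N x => by simp [fA, Finset.sum_apply]

theorem bdDA (hW : Stmt_WBd) (hK : Kick Ω η n a k ξ q G) : BN 2 (fun N => fderiv ℝ (fA a k ξ N)) := by
  have h : ∀ m, BN 2 (fun N => fderiv ℝ (stream (k m) (ξ m) (gS N (k m) (a m)))) := by
    intro m
    obtain ⟨C, hC, h⟩ := hW (k m) (ξ m) (a m) (a m) (hK.k_unit m) (hK.ξ_unit m) (hK.orth m)
      (bump_mono (subset_univ _) (hK.bump m)) (bump_mono (subset_univ _) (hK.bump m))
    exact ⟨C, hC, fun N hN x => (h N hN x).2.1⟩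
  refine (BN.sum h).congr fun N x => ?_
  unfold fA
  rw [fderiv_sum' fun m => contDiff_stream _ _ (isBump_gS N _ (hK.bump m)).1]

theorem bdGC (hW : Stmt_WBd) {c : Fin n → E → ℝ} (hK : Kick Ω η n a k ξ q G) (hc : ∀ m, IsBump Ω (c m)) :
    BN 0 (fun N => ∑ m, stream (k m) (ξ m) (gC N (k m) (c m))) := by
  have h : ∀ m, BN 0 (fun N => stream (k m) (ξ m) (gC N (k m) (c m))) := by
    intro m
    obtain ⟨C, hC, h⟩ := hW (k m) (ξ m) (c m) (c m) (hK.k_unit m) (hK.ξ_unit m) (hK.orth m)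
      (bump_mono (subset_univ _) (hc m)) (bump_mono (subset_univ _) (hc m))
    exact ⟨C, hC, fun N hN x => by rw [pow_zero, mul_one]; exact (h N hN x).2.2.1⟩
  exact (BN.sum h).congr fun N x => by simp [Finset.sum_apply]

theorem bdDGC (hW : Stmt_WBd) {c : Fin n → E → ℝ} (hK : Kick Ω η n a k ξ q G) (hc : ∀ m, IsBump Ω (c m)) :
    BN 1 (fun N => fderiv ℝ (∑ m, stream (k m) (ξ m) (gC N (k m) (c m)))) := by
  have h : ∀ m, BN 1 (fun N => fderiv ℝ (stream (k m) (ξ m) (gC N (k m) (c m)))) := by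
    intro m
    obtain ⟨C, hC, h⟩ := hW (k m) (ξ m) (c m) (c m) (hK.k_unit m) (hK.ξ_unit m) (hK.orth m)
      (bump_mono (subset_univ _) (hc m)) (bump_mono (subset_univ _) (hc m))
    exact ⟨C, hC, fun N hN x => by rw [pow_one]; exact (h N hN x).2.2.2⟩
  refine (BN.sum h).congr fun N x => ?_
  rw [fderiv_sum' fun m => contDiff_stream _ _ (isBump_gC N _ (hc m)).1]

theorem bdB (hW : Stmt_WBd) (hK : Kick Ω η n a k ξ q G) (hs : ContDiff ℝ ∞ s) : BN 0 (fB a k ξ η s) :=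
  bdGC hW hK fun m => isBump_c1 η (k m) (hK.bump m) hs

theorem bdDB (hW : Stmt_WBd) (hK : Kick Ω η n a k ξ q G) (hs : ContDiff ℝ ∞ s) :
    BN 1 (fun N => fderiv ℝ (fB a k ξ η s N)) :=
  bdDGC hW hK fun m => isBump_c1 η (k m) (hK.bump m) hs

theorem bdC (hW : Stmt_WBd) (hK : Kick Ω η n a k ξ q G) : BN 0 (fC a k ξ η G) :=
  bdGC hW hK fun m => isBump_c2 η (k m) (hK.bump m) hK.test.smooth

theorem bdDC (hW : Stmt_WBd) (hK : Kick Ω η n a k ξ q G) :
    BN 1 (fun N => fderiv ℝ (fC a k ξ η G N)) :=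
  bdDGC hW hK fun m => isBump_c2 η (k m) (hK.bump m) hK.test.smooth

/-- The term `R1`. -/
theorem bdR1 (h1 : Stmt_R1) (hη : 0 < η) (hK : Kick Ω η n a k ξ q G) (hs : ContDiff ℝ ∞ s) :
    BN 1 (fun N x => (-(η * N ^ 2)) • fA a k ξ N x - η • lap (fA a k ξ N) x + N ^ 2 • fB a k ξ η s N x
      + adv s (fA a k ξ N) x + adv (fA a k ξ N) s x) := by
  have h : ∀ m, BN 1 (fun N x => (-(η * N ^ 2)) • stream (k m) (ξ m) (gS N (k m) (a m)) x
        - η • lap (stream (k m) (ξ m) (gS N (k m) (a m))) x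
        + N ^ 2 • stream (k m) (ξ m) (gC N (k m) (c1 η (k m) (a m) s)) x
        + adv s (stream (k m) (ξ m) (gS N (k m) (a m))) x
        + adv (stream (k m) (ξ m) (gS N (k m) (a m))) s x) := by
    intro m
    obtain ⟨C, hC, h⟩ := h1 η (k m) (ξ m) (a m) s hη (hK.k_unit m) (hK.ξ_unit m) (hK.orth m)
      (bump_mono (subset_univ _) (hK.bump m)) hs
    exact ⟨C, hC, fun N hN x => by rw [pow_one]; exact h N hN x⟩
  refine (BN.sum h).congr fun N x => ?_
  have hA : ∀ m, ContDiff ℝ ∞ (stream (k m) (ξ m) (gS N (k m) (a m))) :=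
    fun m => contDiff_stream _ _ (isBump_gS N _ (hK.bump m)).1
  simp only [Finset.sum_add_distrib, Finset.sum_sub_distrib, ← Finset.smul_sum]
  unfold fA fB
  rw [lap_sum hA, adv_sum_right _ hA, adv_sum_left]
  simp only [Finset.sum_apply]

/-- The terms `R2`, `R3`. -/
theorem bdR2 (h2 : Stmt_R2) (hW : Stmt_WBd) (hη : 0 < η) (hK : Kick Ω η n a k ξ q G) (hs : IsTest Ω s)
    {c : Fin n → E → ℝ} (hc : ∀ m, IsBump Ω (c m)) {F : ℝ → E → E}
    (hF : ∀ N, F N = ∑ m, stream (k m) (ξ m) (gC N (k m) (c m))) :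
    BN 1 (fun N x => (-(η * N ^ 2)) • F N x - η • lap (F N) x + adv s (F N) x + adv (F N) s x) := by
  have h : ∀ m, BN 1 (fun N x => (-(η * N ^ 2)) • stream (k m) (ξ m) (gC N (k m) (c m)) x
        - η • lap (stream (k m) (ξ m) (gC N (k m) (c m))) x) := by
    intro m
    obtain ⟨C, hC, h⟩ := h2 η (k m) (ξ m) (c m) hη (hK.k_unit m) (hK.ξ_unit m) (hK.orth m)
      (bump_mono (subset_univ _) (hc m))
    exact ⟨C, hC, fun N hN x => by rw [pow_one]; exact h N hN x⟩
  have e : F = fun N => ∑ m, stream (k m) (ξ m) (gC N (k m) (c m)) := funext hF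
  have b1 : BN 0 F := by rw [e]; exact bdGC hW hK hc
  have b2 : BN 1 (fun N => fderiv ℝ (F N)) := by rw [e]; exact bdDGC hW hK hc
  have b3 : BN 1 (fun N => adv s (F N)) := BN.adv (BN_test hs) b2 (by norm_num)
  have b4 : BN 1 (fun N => adv (F N) s) := BN.adv b1 (BN_dtest hs) (by norm_num)
  refine (((BN.sum h).add b3).add b4).congr fun N x => ?_
  have hA : ∀ m, ContDiff ℝ ∞ (stream (k m) (ξ m) (gC N (k m) (c m))) :=
    fun m => contDiff_stream _ _ (isBump_gC N _ (hc m)).1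
  simp only [Finset.sum_sub_distrib, ← Finset.smul_sum, hF N]
  rw [lap_sum hA]
  simp only [Finset.sum_apply]

/-- The term `R14`. -/
theorem bdR14 (h14 : Stmt_R14) (hη : 0 < η) (hK : Kick Ω η n a k ξ q G) :
    BN 1 (fun N x => (2 * η * N ^ 2) • fC a k ξ η G N x + adv G (fA a k ξ N) x + adv (fA a k ξ N) G x) := by
  have h : ∀ m, BN 1 (fun N x => (2 * η * N ^ 2) • stream (k m) (ξ m) (gC N (k m) (c2 η (k m) (a m) G)) x
        + adv G (stream (k m) (ξ m) (gS N (k m) (a m))) x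
        + adv (stream (k m) (ξ m) (gS N (k m) (a m))) G x) := by
    intro m
    obtain ⟨C, hC, h⟩ := h14 η (k m) (ξ m) (a m) G hη (hK.k_unit m) (hK.ξ_unit m) (hK.orth m)
      (bump_mono (subset_univ _) (hK.bump m)) hK.test.smooth
    exact ⟨C, hC, fun N hN x => by rw [pow_one]; exact h N hN x⟩
  refine (BN.sum h).congr fun N x => ?_
  have hA : ∀ m, ContDiff ℝ ∞ (stream (k m) (ξ m) (gS N (k m) (a m))) :=
    fun m => contDiff_stream _ _ (isBump_gS N _ (hK.bump m)).1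
  simp only [Finset.sum_add_distrib, ← Finset.smul_sum]
  unfold fA fC
  rw [adv_sum_right _ hA, adv_sum_left]
  simp only [Finset.sum_apply]

/-- The term `R4`. -/
theorem bdR4 (h4 : Stmt_R4) (hK : Kick Ω η n a k ξ q G) (hs : IsTest Ω s) :
    BN 1 (fun N x => (-(2 * η * N ^ 2)) • G x + adv (fA a k ξ N) (fA a k ξ N) x - (N ^ 2 / 2) • gradS q x
      - η • lap G x + adv s G x + adv G s x) := by
  have h : ∀ m, BN 1 (fun N x => adv (stream (k m) (ξ m) (gS N (k m) (a m)))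
        (stream (k m) (ξ m) (gS N (k m) (a m))) x
        - (N ^ 2 / 2 * dd (ξ m) (fun y => a m y ^ 2) x) • ξ m) := by
    intro m
    obtain ⟨C, hC, h⟩ := h4 (k m) (ξ m) (a m) (hK.k_unit m) (hK.ξ_unit m) (hK.orth m)
      (bump_mono (subset_univ _) (hK.bump m))
    exact ⟨C, hC, fun N hN x => by rw [pow_one]; exact h N hN x⟩
  have b1 : BN 1 (fun _ : ℝ => lap G) :=
    (BN_const (contDiff_lap hK.test.smooth).continuous (hasCompactSupport_lap hK.test.compact)).mono (by norm_num)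
  have b2 : BN 1 (fun _ : ℝ => adv s G) := BN.adv (BN_test hs) (BN_dtest hK.test) (by norm_num)
  have b3 : BN 1 (fun _ : ℝ => adv G s) := BN.adv (BN_test hK.test) (BN_dtest hs) (by norm_num)
  refine ((((BN.sum h).add (b1.smul (-η))).add b2).add b3).congr fun N x => ?_
  have hA : ∀ m, ContDiff ℝ ∞ (stream (k m) (ξ m) (gS N (k m) (a m))) :=
    fun m => contDiff_stream _ _ (isBump_gS N _ (hK.bump m)).1
  have hd : adv (fA a k ξ N) (fA a k ξ N) x = ∑ m, adv (stream (k m) (ξ m) (gS N (k m) (a m)))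
        (stream (k m) (ξ m) (gS N (k m) (a m))) x :=
    adv_sum_sum (U := fun m => tsupport (a m)) hA hK.disj
      (fun m => (tsupport_stream_subset _ _ _).trans (tsupport_gS_subset _ _ _))
      (fun m => (tsupport_stream_subset _ _ _).trans (tsupport_gS_subset _ _ _)) x
  have hk : ∑ m, (N ^ 2 / 2 * dd (ξ m) (fun y => a m y ^ 2) x) • ξ m
      = (N ^ 2 / 2) • ((4 * η) • G x + gradS q x) := by
    rw [← hK.eq x, Finset.smul_sum]
    exact Finset.sum_congr rfl fun m _ => by rw [mul_smul]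
  rw [hd]
  simp only [Finset.sum_sub_distrib, hk]
  module

/-- The term `RAB`. -/
theorem bdRAB (hAB : Stmt_RAB) (hK : Kick Ω η n a k ξ q G)
    {c : Fin n → E → ℝ} (hc : ∀ m, IsBump Ω (c m)) (hca : ∀ m, tsupport (c m) ⊆ tsupport (a m)) {F : ℝ → E → E}
    (hF : ∀ N, F N = ∑ m, stream (k m) (ξ m) (gC N (k m) (c m))) :
    BN 1 (fun N x => adv (fA a k ξ N) (F N) x + adv (F N) (fA a k ξ N) x) := by
  have h : ∀ m, BN 1 (fun N x => adv (stream (k m) (ξ m) (gS N (k m) (a m)))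
        (stream (k m) (ξ m) (gC N (k m) (c m))) x
        + adv (stream (k m) (ξ m) (gC N (k m) (c m))) (stream (k m) (ξ m) (gS N (k m) (a m))) x) := by
    intro m
    obtain ⟨C, hC, h⟩ := hAB (k m) (ξ m) (a m) (c m) (hK.k_unit m) (hK.ξ_unit m) (hK.orth m)
      (bump_mono (subset_univ _) (hK.bump m)) (bump_mono (subset_univ _) (hc m))
    exact ⟨C, hC, fun N hN x => by rw [pow_one]; exact h N hN x⟩
  refine (BN.sum h).congr fun N x => ?_
  have hA : ∀ m, ContDiff ℝ ∞ (stream (k m) (ξ m) (gS N (k m) (a m))) :=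
    fun m => contDiff_stream _ _ (isBump_gS N _ (hK.bump m)).1
  have hB : ∀ m, ContDiff ℝ ∞ (stream (k m) (ξ m) (gC N (k m) (c m))) :=
    fun m => contDiff_stream _ _ (isBump_gC N _ (hc m)).1
  have sA : ∀ m, tsupport (stream (k m) (ξ m) (gS N (k m) (a m))) ⊆ tsupport (a m) :=
    fun m => (tsupport_stream_subset _ _ _).trans (tsupport_gS_subset _ _ _)
  have sB : ∀ m, tsupport (stream (k m) (ξ m) (gC N (k m) (c m))) ⊆ tsupport (a m) :=
    fun m => ((tsupport_stream_subset _ _ _).trans (tsupport_gC_subset _ _ _)).trans (hca m)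
  rw [Finset.sum_add_distrib, hF N]
  unfold fA
  rw [adv_sum_sum (U := fun m => tsupport (a m)) hB hK.disj sA sB x,
    adv_sum_sum (U := fun m => tsupport (a m)) hA hK.disj sB sA x]

end fields

end Pool.Agent.NSK.Layer66
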