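import Pool.Agent.NSK.Conc

/-!
# MP_fd8964_an, weak density: module Layer, part 1 (time factors)
-/

open MeasureTheory Set Filter Topology
open scoped RealInnerProductSpace ContDiff

noncomputable section

namespace Pool.Agent.NSK.Layer66

open Pool.Agent.NSD Pool.Agent.NSK

/-- Time factors: exponentially decaying, with Lipschitz increments. -/
def TF (c : ℝ) (β : ℝ → ℝ) : Prop :=
  Continuous β ∧ ∃ K : ℝ, 0 ≤ K ∧ (∀ τ, 0 ≤ τ → |β τ| ≤ K * Real.exp (-(c * τ))) ∧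
    ∀ τ r, 0 ≤ τ → 0 ≤ r → |β (τ + r) - β τ| ≤ K * r * Real.exp (-(c * τ))

theorem TF.add {c : ℝ} {β γ : ℝ → ℝ} (hβ : TF c β) (hγ : TF c γ) : TF c (fun τ => β τ + γ τ) := by
  obtain ⟨cb, K, hK, h1, h2⟩ := hβ
  obtain ⟨cg, L, hL, h3, h4⟩ := hγ
  refine ⟨cb.add cg, K + L, by positivity, ?_, ?_⟩
  · intro τ hτ
    have := h1 τ hτ
    have := h3 τ hτ
    calc |β τ + γ τ| ≤ |β τ| + |γ τ| := abs_add_le _ _
      _ ≤ (K + L) * Real.exp (-(c * τ)) := by linarith
  · intro τ r hτ hr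
    have := h2 τ r hτ hr
    have := h4 τ r hτ hr
    calc |β (τ + r) + γ (τ + r) - (β τ + γ τ)| = |(β (τ + r) - β τ) + (γ (τ + r) - γ τ)| := by ring_nf
      _ ≤ |β (τ + r) - β τ| + |γ (τ + r) - γ τ| := abs_add_le _ _
      _ ≤ (K + L) * r * Real.exp (-(c * τ)) := by linarith

theorem TF.const_mul {c : ℝ} {β : ℝ → ℝ} (a : ℝ) (hβ : TF c β) : TF c (fun τ => a * β τ) := by
  obtain ⟨cb, K, hK, h1, h2⟩ := hβ
  refine ⟨continuous_const.mul cb, |a| * K, by positivity, ?_, ?_⟩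
  · intro τ hτ
    rw [abs_mul, mul_assoc]
    exact mul_le_mul_of_nonneg_left (h1 τ hτ) (abs_nonneg a)
  · intro τ r hτ hr
    rw [← mul_sub, abs_mul]
    have := mul_le_mul_of_nonneg_left (h2 τ r hτ hr) (abs_nonneg a)
    linarith

theorem TF.sub {c : ℝ} {β γ : ℝ → ℝ} (hβ : TF c β) (hγ : TF c γ) : TF c (fun τ => β τ - γ τ) := by
  have := hβ.add (hγ.const_mul (-1))
  refine (funext fun τ => ?_ : (fun τ => β τ + -1 * γ τ) = fun τ => β τ - γ τ) ▸ this
  ring

theorem TF.mul {c : ℝ} (hc : 0 ≤ c) {β γ : ℝ → ℝ} (hβ : TF c β) (hγ : TF c γ) :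
    TF c (fun τ => β τ * γ τ) := by
  obtain ⟨cb, K, hK, h1, h2⟩ := hβ
  obtain ⟨cg, L, hL, h3, h4⟩ := hγ
  have he : ∀ τ, 0 ≤ τ → Real.exp (-(c * τ)) ≤ 1 := fun τ hτ =>
    Real.exp_le_one_iff.2 (by have := mul_nonneg hc hτ; linarith)
  refine ⟨cb.mul cg, 2 * (K * L), by positivity, ?_, ?_⟩
  · intro τ hτ
    have e0 := Real.exp_pos (-(c * τ))
    have e1 := he τ hτ
    rw [abs_mul]
    calc |β τ| * |γ τ| ≤ (K * Real.exp (-(c * τ))) * (L * Real.exp (-(c * τ))) :=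
          mul_le_mul (h1 τ hτ) (h3 τ hτ) (abs_nonneg _) (by positivity)
      _ = (K * L * Real.exp (-(c * τ))) * Real.exp (-(c * τ)) := by ring
      _ ≤ (K * L * Real.exp (-(c * τ))) * 1 := mul_le_mul_of_nonneg_left e1 (by positivity)
      _ ≤ 2 * (K * L) * Real.exp (-(c * τ)) := by
          have : 0 ≤ K * L * Real.exp (-(c * τ)) := by positivity
          linarith
  · intro τ r hτ hr
    have e0 := Real.exp_pos (-(c * τ))
    have e1 := he τ hτ
    have hγ' : |γ (τ + r)| ≤ L := by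
      refine (h3 (τ + r) (by positivity)).trans ?_
      have := he (τ + r) (by positivity)
      calc L * Real.exp (-(c * (τ + r))) ≤ L * 1 := mul_le_mul_of_nonneg_left this hL
        _ = L := mul_one L
    have hβ' : |β τ| ≤ K := by
      refine (h1 τ hτ).trans ?_
      calc K * Real.exp (-(c * τ)) ≤ K * 1 := mul_le_mul_of_nonneg_left e1 hK
        _ = K := mul_one K
    calc |β (τ + r) * γ (τ + r) - β τ * γ τ|
        = |(β (τ + r) - β τ) * γ (τ + r) + β τ * (γ (τ + r) - γ τ)| := by ring_nf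
      _ ≤ |β (τ + r) - β τ| * |γ (τ + r)| + |β τ| * |γ (τ + r) - γ τ| := by
          rw [← abs_mul, ← abs_mul]; exact abs_add_le _ _
      _ ≤ (K * r * Real.exp (-(c * τ))) * L + K * (L * r * Real.exp (-(c * τ))) :=
          add_le_add (mul_le_mul (h2 τ r hτ hr) hγ' (abs_nonneg _) (by positivity))
            (mul_le_mul hβ' (h4 τ r hτ hr) (abs_nonneg _) hK)
      _ = 2 * (K * L) * r * Real.exp (-(c * τ)) := by ring

theorem TF_exp {η : ℝ} (hη : 0 < η) : TF (η / 2) (fun τ => Real.exp (-(η * τ))) := by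
  refine ⟨by fun_prop, 1 + η, by positivity, ?_, ?_⟩
  · intro τ hτ
    have h0 : Real.exp (-(η * τ)) ≤ Real.exp (-(η / 2 * τ)) :=
      Real.exp_le_exp.2 (by have := mul_nonneg hη.le hτ; linarith)
    rw [abs_of_pos (Real.exp_pos _)]
    have := Real.exp_pos (-(η / 2 * τ))
    nlinarith
  · intro τ r hτ hr
    have h0 : Real.exp (-(η * τ)) ≤ Real.exp (-(η / 2 * τ)) :=
      Real.exp_le_exp.2 (by have := mul_nonneg hη.le hτ; linarith)
    have h1 : Real.exp (-(η * (τ + r))) = Real.exp (-(η * τ)) * Real.exp (-(η * r)) := by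
      rw [← Real.exp_add]; congr 1; ring
    have h2 : 1 - η * r ≤ Real.exp (-(η * r)) := by
      have := Real.add_one_le_exp (-(η * r)); linarith
    have h3 : Real.exp (-(η * r)) ≤ 1 := Real.exp_le_one_iff.2 (by have := mul_nonneg hη.le hr; linarith)
    have hp := Real.exp_pos (-(η * τ))
    have hq := Real.exp_pos (-(η / 2 * τ))
    show |Real.exp (-(η * (τ + r))) - Real.exp (-(η * τ))| ≤ _
    rw [h1, abs_sub_comm, abs_of_nonneg (by nlinarith)]
    calc Real.exp (-(η * τ)) - Real.exp (-(η * τ)) * Real.exp (-(η * r))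
        = Real.exp (-(η * τ)) * (1 - Real.exp (-(η * r))) := by ring
      _ ≤ Real.exp (-(η / 2 * τ)) * (η * r) :=
          mul_le_mul h0 (by linarith) (by linarith) hq.le
      _ ≤ (1 + η) * r * Real.exp (-(η / 2 * τ)) := by nlinarith [mul_nonneg hr hq.le]

theorem TF_texp {η : ℝ} (hη : 0 < η) : TF (η / 2) (fun τ => τ * Real.exp (-(η * τ))) := by
  have hkey : ∀ τ : ℝ, 0 ≤ τ → τ * Real.exp (-(η * τ)) ≤ 2 / η * Real.exp (-(η / 2 * τ)) := by
    intro τ hτ
    have h1 : Real.exp (-(η * τ)) = Real.exp (-(η / 2 * τ)) * Real.exp (-(η / 2 * τ)) := by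
      rw [← Real.exp_add]; congr 1; ring
    have h2 : η / 2 * τ * Real.exp (-(η / 2 * τ)) ≤ 1 := by
      have h3 : η / 2 * τ ≤ Real.exp (η / 2 * τ) := by
        have := Real.add_one_le_exp (η / 2 * τ); linarith
      calc η / 2 * τ * Real.exp (-(η / 2 * τ)) ≤ Real.exp (η / 2 * τ) * Real.exp (-(η / 2 * τ)) :=
            mul_le_mul_of_nonneg_right h3 (Real.exp_pos _).le
        _ = 1 := by rw [← Real.exp_add]; simp
    have h4 : τ * Real.exp (-(η / 2 * τ)) ≤ 2 / η := by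
      rw [le_div_iff₀ hη]; linarith
    rw [h1, ← mul_assoc]
    exact mul_le_mul_of_nonneg_right h4 (Real.exp_pos _).le
  refine ⟨by fun_prop, 2 / η + 3, by positivity, ?_, ?_⟩
  · intro τ hτ
    rw [abs_of_nonneg (mul_nonneg hτ (Real.exp_pos _).le)]
    have := Real.exp_pos (-(η / 2 * τ))
    have := hkey τ hτ
    nlinarith
  · intro τ r hτ hr
    have h0 : Real.exp (-(η * τ)) ≤ Real.exp (-(η / 2 * τ)) :=
      Real.exp_le_exp.2 (by have := mul_nonneg hη.le hτ; linarith)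
    have h1 : Real.exp (-(η * (τ + r))) = Real.exp (-(η * τ)) * Real.exp (-(η * r)) := by
      rw [← Real.exp_add]; congr 1; ring
    have h2 : 1 - η * r ≤ Real.exp (-(η * r)) := by
      have := Real.add_one_le_exp (-(η * r)); linarith
    have h3 : Real.exp (-(η * r)) ≤ 1 := Real.exp_le_one_iff.2 (by have := mul_nonneg hη.le hr; linarith)
    have hp := Real.exp_pos (-(η * τ))
    have hq := Real.exp_pos (-(η / 2 * τ))
    have hk := hkey τ hτ
    show |(τ + r) * Real.exp (-(η * (τ + r))) - τ * Real.exp (-(η * τ))| ≤ _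
    rw [h1]
    have e1 : (τ + r) * (Real.exp (-(η * τ)) * Real.exp (-(η * r))) - τ * Real.exp (-(η * τ))
        = -(τ * Real.exp (-(η * τ)) * (1 - Real.exp (-(η * r))))
          + r * (Real.exp (-(η * τ)) * Real.exp (-(η * r))) := by ring
    rw [e1]
    have b1 : |-(τ * Real.exp (-(η * τ)) * (1 - Real.exp (-(η * r))))|
        ≤ (2 / η * Real.exp (-(η / 2 * τ))) * (η * r) := by
      rw [abs_neg, abs_of_nonneg (mul_nonneg (mul_nonneg hτ hp.le) (by linarith))]
      exact mul_le_mul hk (by linarith) (by linarith) (by positivity)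
    have b2 : |r * (Real.exp (-(η * τ)) * Real.exp (-(η * r)))| ≤ r * Real.exp (-(η / 2 * τ)) := by
      rw [abs_of_nonneg (by positivity)]
      refine mul_le_mul_of_nonneg_left ?_ hr
      calc Real.exp (-(η * τ)) * Real.exp (-(η * r)) ≤ Real.exp (-(η / 2 * τ)) * 1 :=
            mul_le_mul h0 h3 (Real.exp_pos _).le hq.le
        _ = _ := mul_one _
    have e2 : (2 / η * Real.exp (-(η / 2 * τ))) * (η * r) = 2 * r * Real.exp (-(η / 2 * τ)) := by
      field_simp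
    rw [e2] at b1
    refine (abs_add_le _ _).trans ((add_le_add b1 b2).trans ?_)
    have : 0 ≤ 2 / η * (r * Real.exp (-(η / 2 * τ))) := by positivity
    nlinarith

/-- Families `f i N t` of vectors, of size `N^k e^{-cN²t}`, with increments of size `N^{k+2} h e^{-cN²t}`. -/
def GF {ι X : Type*} [NormedAddCommGroup X] (c : ℝ) (k : ℕ) (f : ι → ℝ → ℝ → X) : Prop :=
  ∃ K : ℝ, 0 ≤ K ∧ ∀ i N, 1 ≤ N → (∀ t, 0 ≤ t → ‖f i N t‖ ≤ K * N ^ k * ex c N t) ∧
    ∀ t h, 0 ≤ t → 0 ≤ h → ‖f i N (t + h) - f i N t‖ ≤ K * N ^ (k + 2) * h * ex c N t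

theorem GF.add {ι X : Type*} [NormedAddCommGroup X] {c : ℝ} {k : ℕ} {f g : ι → ℝ → ℝ → X}
    (hf : GF c k f) (hg : GF c k g) : GF c k (fun i N t => f i N t + g i N t) := by
  obtain ⟨K, hK, h1⟩ := hf
  obtain ⟨L, hL, h2⟩ := hg
  refine ⟨K + L, by positivity, fun i N hN => ⟨?_, ?_⟩⟩
  · intro t ht
    have a1 := (h1 i N hN).1 t ht
    have a2 := (h2 i N hN).1 t ht
    calc ‖f i N t + g i N t‖ ≤ ‖f i N t‖ + ‖g i N t‖ := norm_add_le _ _
      _ ≤ (K + L) * N ^ k * ex c N t := by linarith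
  · intro t h ht hh
    have a1 := (h1 i N hN).2 t h ht hh
    have a2 := (h2 i N hN).2 t h ht hh
    have e : f i N (t + h) + g i N (t + h) - (f i N t + g i N t)
        = (f i N (t + h) - f i N t) + (g i N (t + h) - g i N t) := by abel
    rw [e]
    calc ‖(f i N (t + h) - f i N t) + (g i N (t + h) - g i N t)‖
        ≤ ‖f i N (t + h) - f i N t‖ + ‖g i N (t + h) - g i N t‖ := norm_add_le _ _
      _ ≤ (K + L) * N ^ (k + 2) * h * ex c N t := by linarith

theorem GF.of_TF {ι X : Type*} [NormedAddCommGroup X] [NormedSpace ℝ X] {c : ℝ} {k : ℕ} {β : ℝ → ℝ}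
    {x : ι → ℝ → X} (hβ : TF c β) (hx : ∃ C : ℝ, 0 ≤ C ∧ ∀ i N, 1 ≤ N → ‖x i N‖ ≤ C * N ^ k) :
    GF c k (fun i N t => β (N ^ 2 * t) • x i N) := by
  obtain ⟨-, K, hK, h1, h2⟩ := hβ
  obtain ⟨C, hC, hx⟩ := hx
  refine ⟨K * C, by positivity, fun i N hN => ⟨?_, ?_⟩⟩
  · intro t ht
    have a := h1 (N ^ 2 * t) (by positivity)
    rw [norm_smul, Real.norm_eq_abs]
    calc |β (N ^ 2 * t)| * ‖x i N‖ ≤ (K * Real.exp (-(c * (N ^ 2 * t)))) * (C * N ^ k) :=
          mul_le_mul a (hx i N hN) (norm_nonneg _) (by positivity)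
      _ = K * C * N ^ k * ex c N t := by unfold ex; rw [mul_assoc c]; ring
  · intro t h ht hh
    have a := h2 (N ^ 2 * t) (N ^ 2 * h) (by positivity) (by positivity)
    rw [← mul_add] at a
    rw [← sub_smul, norm_smul, Real.norm_eq_abs]
    calc |β (N ^ 2 * (t + h)) - β (N ^ 2 * t)| * ‖x i N‖
        ≤ (K * (N ^ 2 * h) * Real.exp (-(c * (N ^ 2 * t)))) * (C * N ^ k) :=
          mul_le_mul a (hx i N hN) (norm_nonneg _) (by positivity)
      _ = K * C * N ^ (k + 2) * h * ex c N t := by unfold ex; rw [mul_assoc c]; ring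

end Pool.Agent.NSK.Layer66
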