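import Pool.Agent.NSK.Conc
import Pool.Agent.NSD.Rep
import Pool.Agent.NSD.Trilin

/-!
# Module PairXi: pairing of derivatives of bumps with `V`
-/

set_option autoImplicit false

open MeasureTheory Set Filter Topology
open scoped RealInnerProductSpace ContDiff

noncomputable section

namespace Pool.Agent.NSK

open Pool.Agent.NSD

namespace TestLib

/-- Pairing of an `L²` function with `fld v`. -/
lemma int_inner_fld {Ω : Set E} {f : E → E} (hf : MemLp f 2 (volume.restrict Ω)) (v : V Ω) :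
    ∫ x in Ω, ⟪f x, (fld v : E → E) x⟫ = ⟪hf.toLp f, fld v⟫ := by
  rw [L2.inner_def]
  refine integral_congr_ae ?_
  filter_upwards [hf.coeFn_toLp] with x hx
  rw [hx]

/-- Pairing of an `L²` function with `grd v`. -/
lemma int_inner_grd {Ω : Set E} {f : E → G} (hf : MemLp f 2 (volume.restrict Ω)) (v : V Ω) :
    ∫ x in Ω, ⟪f x, (grd v : E → G) x⟫ = ⟪hf.toLp f, grd v⟫ := by
  rw [L2.inner_def]
  refine integral_congr_ae ?_
  filter_upwards [hf.coeFn_toLp] with x hx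
  rw [hx]

lemma continuous_fldV (Ω : Set E) : Continuous (fun v : V Ω => fld v) := (fldL Ω).continuous

lemma continuous_grdV (Ω : Set E) : Continuous (fun v : V Ω => grd v) := (grdL Ω).continuous

lemma continuous_int_fld {Ω : Set E} {f : E → E} (hf : MemLp f 2 (volume.restrict Ω)) :
    Continuous (fun v : V Ω => ∫ x in Ω, ⟪f x, (fld v : E → E) x⟫) := by
  simp only [int_inner_fld hf]
  exact continuous_const.inner (continuous_fldV Ω)

lemma continuous_int_grd {Ω : Set E} {f : E → G} (hf : MemLp f 2 (volume.restrict Ω)) :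
    Continuous (fun v : V Ω => ∫ x in Ω, ⟪f x, (grd v : E → G) x⟫) := by
  simp only [int_inner_grd hf]
  exact continuous_const.inner (continuous_grdV Ω)

/-- Two continuous functions on `V` which agree on test fields are equal. -/
lemma eq_of_test {Ω : Set E} {F F' : V Ω → ℝ} (hF : Continuous F) (hF' : Continuous F')
    (h : ∀ (φ : E → E) (p : V Ω), IsTest Ω φ → Represents Ω φ p → F p = F' p) (v : V Ω) :
    F v = F' v := by
  obtain ⟨φ, p, hp, hlim⟩ := Approx_proof Ω v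
  have h1 : Tendsto (fun n => F (p n)) atTop (𝓝 (F v)) := (hF.tendsto v).comp hlim
  have h2 : Tendsto (fun n => F' (p n)) atTop (𝓝 (F' v)) := (hF'.tendsto v).comp hlim
  refine tendsto_nhds_unique h1 ?_
  have h3 : (fun n => F (p n)) = fun n => F' (p n) := by
    funext n
    exact h _ _ (hp n).1 (hp n).2
  rw [h3]
  exact h2

lemma bump_differentiable {Ω : Set E} {h : E → ℝ} (hh : IsBump Ω h) : Differentiable ℝ h :=
  hh.1.differentiable (by simp)

lemma continuous_dd {Ω : Set E} {h : E → ℝ} (hh : IsBump Ω h) (ξ : E) : Continuous (dd ξ h) :=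
  (hh.1.continuous_fderiv (by simp)).clm_apply continuous_const

lemma compact_dd {Ω : Set E} {h : E → ℝ} (hh : IsBump Ω h) (ξ : E) : HasCompactSupport (dd ξ h) :=
  (hh.2.1.fderiv ℝ).comp_left (g := fun L : E →L[ℝ] ℝ => L ξ) rfl

lemma zero_off {Ω : Set E} {h : E → ℝ} (hh : IsBump Ω h) {x : E} (hx : x ∉ Ω) : h x = 0 :=
  image_eq_zero_of_notMem_tsupport fun h' => hx (hh.2.2 h')

lemma dd_zero_off {Ω : Set E} {h : E → ℝ} (hh : IsBump Ω h) (ξ : E) {x : E} (hx : x ∉ Ω) :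
    dd ξ h x = 0 := by
  have h1 : x ∉ tsupport (fderiv ℝ h) := fun h' => hx (hh.2.2 (tsupport_fderiv_subset ℝ h'))
  rw [dd, image_eq_zero_of_notMem_tsupport h1]
  rfl

/-- `G`-valued field `h(x) ξ ⊗ ζ`. -/
def hG (h : E → ℝ) (ξ ζ : E) (x : E) : G := WithLp.toLp 2 (fun i : Fin 3 => (h x * ξ i) • ζ)

lemma inner_hG (h : E → ℝ) (ξ ζ : E) (x : E) (g : G) :
    ⟪hG h ξ ζ x, g⟫ = h x * ∑ i : Fin 3, ξ i * ⟪ζ, g i⟫ := by
  rw [PiLp.inner_apply, Finset.mul_sum]
  refine Finset.sum_congr rfl fun i _ => ?_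
  change ⟪(h x * ξ i) • ζ, g i⟫ = _
  rw [inner_smul_left]
  simp
  ring

lemma memLp_hG {Ω : Set E} {h : E → ℝ} (hh : IsBump Ω h) (ξ ζ : E) :
    MemLp (hG h ξ ζ) 2 (volume.restrict Ω) := by
  have hc : Continuous (hG h ξ ζ) := by
    unfold hG
    exact (PiLp.continuous_toLp 2 _).comp (continuous_pi fun i =>
      (hh.1.continuous.mul continuous_const).smul continuous_const)
  refine hc.memLp_of_hasCompactSupport ?_
  exact hh.2.1.comp_left
    (g := fun r : ℝ => (WithLp.toLp 2 (fun i : Fin 3 => (r * ξ i) • ζ) : G)) (by ext; simp)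

lemma memLp_ddζ {Ω : Set E} {h : E → ℝ} (hh : IsBump Ω h) (ξ ζ : E) :
    MemLp (fun x => dd ξ h x • ζ) 2 (volume.restrict Ω) := by
  refine ((continuous_dd hh ξ).smul continuous_const).memLp_of_hasCompactSupport ?_
  exact (compact_dd hh ξ).comp_left (g := fun r : ℝ => r • ζ) (zero_smul ℝ ζ)

lemma fderiv_sum_coord (v : E → E) (x ξ : E) :
    fderiv ℝ v x ξ = ∑ i : Fin 3, ξ i • fderiv ℝ v x (e i) := by
  have h : ξ = ∑ i : Fin 3, ξ i • e i := by
    ext j
    fin_cases j <;> simp [e, Fin.sum_univ_three]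
  conv_lhs => rw [h]
  simp

/-- The formula for test fields. -/
lemma pairXi_test {Ω : Set E} {h : E → ℝ} (hh : IsBump Ω h) (ξ ζ : E) {φ : E → E}
    (hφ : IsTest Ω φ) {p : V Ω} (hp : Represents Ω φ p) :
    ∫ x in Ω, ⟪dd ξ h x • ζ, (fld p : E → E) x⟫ = - ∫ x in Ω, ⟪hG h ξ ζ x, (grd p : E → G) x⟫ := by
  have e1 : ∫ x in Ω, ⟪dd ξ h x • ζ, (fld p : E → E) x⟫ = ∫ x, dd ξ h x * ⟪ζ, φ x⟫ := by
    have e2 : ∫ x in Ω, ⟪dd ξ h x • ζ, (fld p : E → E) x⟫ = ∫ x in Ω, dd ξ h x * ⟪ζ, φ x⟫ := by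
      refine integral_congr_ae ?_
      filter_upwards [hp.1] with x hx
      change ⟪dd ξ h x • ζ, ((p : H1 Ω).fst : E → E) x⟫ = _
      rw [hx, inner_smul_left]
      simp
    rw [e2]
    refine setIntegral_eq_integral_of_forall_compl_eq_zero fun x hx => ?_
    rw [dd_zero_off hh ξ hx, zero_mul]
  have e3 : ∫ x in Ω, ⟪hG h ξ ζ x, (grd p : E → G) x⟫ = ∫ x, h x * ⟪ζ, fderiv ℝ φ x ξ⟫ := by
    have e4 : ∫ x in Ω, ⟪hG h ξ ζ x, (grd p : E → G) x⟫ =
        ∫ x in Ω, h x * ⟪ζ, fderiv ℝ φ x ξ⟫ := by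
      refine integral_congr_ae ?_
      filter_upwards [hp.2] with x hx
      change ⟪hG h ξ ζ x, ((p : H1 Ω).snd : E → G) x⟫ = _
      rw [hx, inner_hG, fderiv_sum_coord φ x ξ, inner_sum]
      congr 1
      refine Finset.sum_congr rfl fun i _ => ?_
      rw [inner_smul_right]
      rfl
    rw [e4]
    refine setIntegral_eq_integral_of_forall_compl_eq_zero fun x hx => ?_
    rw [zero_off hh hx, zero_mul]
  rw [e1, e3]
  -- integration by parts
  have hg : ContDiff ℝ ∞ (fun x => ⟪ζ, φ x⟫) := contDiff_const.inner ℝ hφ.smooth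
  have hgd : ∀ x, fderiv ℝ (fun x => ⟪ζ, φ x⟫) x ξ = ⟪ζ, fderiv ℝ φ x ξ⟫ := by
    intro x
    have h1 : HasFDerivAt (fun x => ⟪ζ, φ x⟫) ((innerSL ℝ ζ).comp (fderiv ℝ φ x)) x :=
      (innerSL ℝ ζ).hasFDerivAt.comp x (hφ.differentiable x).hasFDerivAt
    rw [h1.fderiv]
    rfl
  have hc2 : Continuous (fun x => fderiv ℝ (fun x => ⟪ζ, φ x⟫) x ξ) :=
    (hg.continuous_fderiv (by simp)).clm_apply continuous_const
  have i1 : Integrable (fun x => fderiv ℝ h x ξ * ⟪ζ, φ x⟫) :=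
    ((continuous_dd hh ξ).mul hg.continuous).integrable_of_hasCompactSupport
      (compact_dd hh ξ).mul_right
  have i2 : Integrable (fun x => h x * fderiv ℝ (fun x => ⟪ζ, φ x⟫) x ξ) :=
    (hh.1.continuous.mul hc2).integrable_of_hasCompactSupport hh.2.1.mul_right
  have i3 : Integrable (fun x => h x * ⟪ζ, φ x⟫) :=
    (hh.1.continuous.mul hg.continuous).integrable_of_hasCompactSupport hh.2.1.mul_right
  have key := integral_mul_fderiv_eq_neg_fderiv_mul_of_integrable i1 i2 i3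
    (fun x _ => (bump_differentiable hh) x) (fun x _ => (hg.differentiable (by simp)) x)
  simp only [hgd] at key
  rw [key, neg_neg]
  rfl

end TestLib

open TestLib in
theorem pairXi_proof : Stmt_PairXi := by
  intro Ω _ _ h ξ ζ hh v
  have key := eq_of_test (Ω := Ω)
    (F := fun v : V Ω => ∫ x in Ω, ⟪dd ξ h x • ζ, (fld v : E → E) x⟫)
    (F' := fun v : V Ω => - ∫ x in Ω, ⟪hG h ξ ζ x, (grd v : E → G) x⟫)
    (continuous_int_fld (memLp_ddζ hh ξ ζ)) (continuous_int_grd (memLp_hG hh ξ ζ)).neg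
    (fun φ p hφ hp => pairXi_test hh ξ ζ hφ hp) v
  simp only [inner_hG, inner_smul_left] at key
  simpa using key

end Pool.Agent.NSK
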