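import Pool.Agent.NSK.Conc

/-!
# Module Profile: radial profiles with prescribed moments
-/

set_option autoImplicit false

open MeasureTheory Set Filter Topology
open scoped RealInnerProductSpace ContDiff

noncomputable section

namespace Pool.Agent.NSK.Profile

/-- The bump around `c` of radius `1/64`. -/
def bp (c : ℝ) : ContDiffBump c where
  rIn := 1 / 128
  rOut := 1 / 64
  rIn_pos := by norm_num
  rIn_lt_rOut := by norm_num

theorem tsupport_bp (c : ℝ) : tsupport (bp c) = Icc (c - 1 / 64) (c + 1 / 64) := by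
  rw [(bp c).tsupport_eq, Real.closedBall_eq_Icc]
  rfl

theorem contDiff_bp (c : ℝ) : ContDiff ℝ ∞ (bp c) := (bp c).contDiff

theorem continuous_bp (c : ℝ) : Continuous (bp c) := (bp c).continuous

theorem bp_self (c : ℝ) : bp c c = 1 :=
  (bp c).one_of_mem_closedBall (by simp [(bp c).rIn_pos.le])

theorem bp_zero {c s : ℝ} (h : s ∉ Icc (c - 1 / 64) (c + 1 / 64)) : bp c s = 0 := by
  rw [← tsupport_bp] at h
  exact image_eq_zero_of_notMem_tsupport h

/-- The two moments. -/
def mA (c : ℝ) : ℝ := ∫ s in (0 : ℝ)..1, s ^ (1 / 2 : ℝ) * bp c s ^ 2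

def mB (c : ℝ) : ℝ := ∫ s in (0 : ℝ)..1, s ^ (3 / 2 : ℝ) * bp c s ^ 2

theorem rpow_three_half {s : ℝ} (hs : 0 ≤ s) : s ^ (3 / 2 : ℝ) = s * s ^ (1 / 2 : ℝ) := by
  rcases hs.eq_or_lt with rfl | h
  · rw [Real.zero_rpow (by norm_num)]; simp
  · rw [show (3 / 2 : ℝ) = 1 + 1 / 2 by norm_num, Real.rpow_add h, Real.rpow_one]

theorem cont_rpow {p : ℝ} (hp : 0 ≤ p) : Continuous fun s : ℝ => s ^ p :=
  continuous_id.rpow_const fun _ => Or.inr hp

theorem contA (c : ℝ) : Continuous fun s : ℝ => s ^ (1 / 2 : ℝ) * bp c s ^ 2 :=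
  (cont_rpow (by norm_num)).mul ((continuous_bp c).pow 2)

theorem contB (c : ℝ) : Continuous fun s : ℝ => s ^ (3 / 2 : ℝ) * bp c s ^ 2 :=
  (cont_rpow (by norm_num)).mul ((continuous_bp c).pow 2)

theorem iA (c r : ℝ) : IntervalIntegrable (fun s : ℝ => r * (s ^ (1 / 2 : ℝ) * bp c s ^ 2)) volume 0 1 :=
  (continuous_const.mul (contA c)).intervalIntegrable _ _

theorem iB (c r : ℝ) : IntervalIntegrable (fun s : ℝ => r * (s ^ (3 / 2 : ℝ) * bp c s ^ 2)) volume 0 1 :=
  (continuous_const.mul (contB c)).intervalIntegrable _ _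

theorem iB' (c : ℝ) : IntervalIntegrable (fun s : ℝ => s ^ (3 / 2 : ℝ) * bp c s ^ 2) volume 0 1 :=
  (contB c).intervalIntegrable _ _

theorem mA_pos {c : ℝ} (h0 : 0 < c) (h1 : c ≤ 1) : 0 < mA c := by
  refine intervalIntegral.integral_pos zero_lt_one (contA c).continuousOn ?_ ⟨c, ⟨h0.le, h1⟩, ?_⟩
  · intro s hs
    have := Real.rpow_nonneg hs.1.le (1 / 2)
    positivity
  · rw [bp_self]
    have := Real.rpow_pos_of_pos h0 (1 / 2)
    positivity

theorem mB_lt {c : ℝ} (h0 : 0 < c) (h1 : c + 1 / 64 < 1 / 2) : mB c < mA c / 2 := by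
  have h : 0 < ∫ s in (0 : ℝ)..1, (1 / 2 - s) * (s ^ (1 / 2 : ℝ) * bp c s ^ 2) := by
    refine intervalIntegral.integral_pos zero_lt_one
      (((continuous_const.sub continuous_id).mul (contA c)).continuousOn) ?_
      ⟨c, ⟨h0.le, by linarith⟩, ?_⟩
    · intro s hs
      by_cases hm : s ∈ Icc (c - 1 / 64) (c + 1 / 64)
      · have h2 := hm.2
        have := Real.rpow_nonneg hs.1.le (1 / 2)
        have : 0 ≤ 1 / 2 - s := by linarith
        positivity
      · rw [bp_zero hm]; simp
    · rw [bp_self]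
      have := Real.rpow_pos_of_pos h0 (1 / 2)
      have : 0 < 1 / 2 - c := by linarith
      positivity
  have he : (∫ s in (0 : ℝ)..1, (1 / 2 - s) * (s ^ (1 / 2 : ℝ) * bp c s ^ 2)) =
      1 / 2 * mA c - mB c := by
    rw [mA, mB, ← intervalIntegral.integral_const_mul,
      ← intervalIntegral.integral_sub (iA c _) (iB' c)]
    refine intervalIntegral.integral_congr fun s hs => ?_
    rw [uIcc_of_le zero_le_one] at hs
    rw [rpow_three_half hs.1]
    ring
  rw [he] at h
  linarith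

theorem lt_mB {c : ℝ} (h0 : 1 / 2 < c - 1 / 64) (h1 : c ≤ 1) : mA c / 2 < mB c := by
  have h : 0 < ∫ s in (0 : ℝ)..1, (s - 1 / 2) * (s ^ (1 / 2 : ℝ) * bp c s ^ 2) := by
    refine intervalIntegral.integral_pos zero_lt_one
      (((continuous_id.sub continuous_const).mul (contA c)).continuousOn) ?_
      ⟨c, ⟨by linarith, h1⟩, ?_⟩
    · intro s hs
      by_cases hm : s ∈ Icc (c - 1 / 64) (c + 1 / 64)
      · have h2 := hm.1
        have := Real.rpow_nonneg hs.1.le (1 / 2)
        have : 0 ≤ s - 1 / 2 := by linarith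
        positivity
      · rw [bp_zero hm]; simp
    · rw [bp_self]
      have := Real.rpow_pos_of_pos (show 0 < c by linarith) (1 / 2)
      have : 0 < c - 1 / 2 := by linarith
      positivity
  have he : (∫ s in (0 : ℝ)..1, (s - 1 / 2) * (s ^ (1 / 2 : ℝ) * bp c s ^ 2)) =
      mB c - 1 / 2 * mA c := by
    rw [mA, mB, ← intervalIntegral.integral_const_mul,
      ← intervalIntegral.integral_sub (iB' c) (iA c _)]
    refine intervalIntegral.integral_congr fun s hs => ?_
    rw [uIcc_of_le zero_le_one] at hs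
    rw [rpow_three_half hs.1]
    ring
  rw [he] at h
  linarith

/-- The centres. -/
def lo (m : Fin 6) : ℝ := ((m : ℕ) + 1 : ℝ) / 16
def hi (m : Fin 6) : ℝ := 1 / 2 + ((m : ℕ) + 1 : ℝ) / 16

theorem m_le (m : Fin 6) : ((m : ℕ) : ℝ) ≤ 5 := by
  have : (m : ℕ) ≤ 5 := by omega
  exact_mod_cast this

theorem exists_weights (m : Fin 6) : ∃ x y : ℝ, 0 < x ∧ 0 < y ∧
    x ^ 2 * mA (lo m) + y ^ 2 * mA (hi m) = 1 ∧ x ^ 2 * mB (lo m) + y ^ 2 * mB (hi m) = 1 / 2 := by
  have hm := m_le m
  have hm0 : (0 : ℝ) ≤ (m : ℕ) := Nat.cast_nonneg _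
  have a1 : 0 < mA (lo m) := mA_pos (by unfold lo; positivity) (by unfold lo; linarith)
  have a2 : 0 < mA (hi m) := mA_pos (by unfold hi; positivity) (by unfold hi; linarith)
  have b1 : mB (lo m) < mA (lo m) / 2 := mB_lt (by unfold lo; positivity) (by unfold lo; linarith)
  have b2 : mA (hi m) / 2 < mB (hi m) := lt_mB (by unfold hi; linarith) (by unfold hi; linarith)
  set A1 := mA (lo m)
  set A2 := mA (hi m)
  set B1 := mB (lo m)
  set B2 := mB (hi m)
  have hD : 0 < A1 * B2 - A2 * B1 := by nlinarith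
  have hx : 0 < (B2 - A2 / 2) / (A1 * B2 - A2 * B1) := div_pos (by linarith) hD
  have hy : 0 < (A1 / 2 - B1) / (A1 * B2 - A2 * B1) := div_pos (by linarith) hD
  refine ⟨√((B2 - A2 / 2) / (A1 * B2 - A2 * B1)), √((A1 / 2 - B1) / (A1 * B2 - A2 * B1)),
    Real.sqrt_pos.2 hx, Real.sqrt_pos.2 hy, ?_, ?_⟩
  · rw [Real.sq_sqrt hx.le, Real.sq_sqrt hy.le, div_mul_eq_mul_div, div_mul_eq_mul_div, ← add_div,
      div_eq_iff hD.ne']
    ring
  · rw [Real.sq_sqrt hx.le, Real.sq_sqrt hy.le, div_mul_eq_mul_div, div_mul_eq_mul_div, ← add_div,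
      div_eq_iff hD.ne']
    ring

end Profile

open Profile

theorem profile_proof : Stmt_Profile := by
  choose x y hx hy h1 h2 using exists_weights
  have hdj : ∀ m s, bp (lo m) s * bp (hi m) s = 0 := by
    intro m s
    have hm := m_le m
    have hm0 : (0 : ℝ) ≤ (m : ℕ) := Nat.cast_nonneg _
    by_cases h : s ∈ Icc (lo m - 1 / 64) (lo m + 1 / 64)
    · have : s ∉ Icc (hi m - 1 / 64) (hi m + 1 / 64) := by
        intro h'
        have e1 := h.2
        have e2 := h'.1
        unfold lo at e1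
        unfold hi at e2
        linarith
      rw [bp_zero this, mul_zero]
    · rw [bp_zero h, zero_mul]
  have hsq : ∀ m s, (x m * bp (lo m) s + y m * bp (hi m) s) ^ 2 =
      x m ^ 2 * bp (lo m) s ^ 2 + y m ^ 2 * bp (hi m) s ^ 2 := by
    intro m s
    have := hdj m s
    calc _ = x m ^ 2 * bp (lo m) s ^ 2 + y m ^ 2 * bp (hi m) s ^ 2 +
          2 * x m * y m * (bp (lo m) s * bp (hi m) s) := by ring
      _ = _ := by rw [this]; ring
  have hsup : ∀ m, tsupport (fun s => x m * bp (lo m) s + y m * bp (hi m) s) ⊆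
      Icc (lo m - 1 / 64) (lo m + 1 / 64) ∪ Icc (hi m - 1 / 64) (hi m + 1 / 64) := by
    intro m
    refine closure_minimal ?_ (isClosed_Icc.union isClosed_Icc)
    intro s hs
    by_contra hcon
    rw [mem_union, not_or] at hcon
    apply hs
    simp only
    rw [bp_zero hcon.1, bp_zero hcon.2]
    ring
  refine ⟨fun m s => x m * bp (lo m) s + y m * bp (hi m) s, 1, 1 / 2, one_pos, by norm_num,
    ?_, ?_, ?_, ?_⟩
  · intro m
    have hm := m_le m
    have hm0 : (0 : ℝ) ≤ (m : ℕ) := Nat.cast_nonneg _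
    refine ⟨(contDiff_const.mul (contDiff_bp _)).add (contDiff_const.mul (contDiff_bp _)), ?_, ?_⟩
    · exact HasCompactSupport.of_support_subset_isCompact (isCompact_Icc.union isCompact_Icc)
        (subset_tsupport _ |>.trans (hsup m))
    · refine (hsup m).trans ?_
      rintro s (hs | hs)
      · have e1 := hs.1
        have e2 := hs.2
        unfold lo at e1 e2
        exact ⟨by linarith, by linarith⟩
      · have e1 := hs.1
        have e2 := hs.2
        unfold hi at e1 e2
        exact ⟨by linarith, by linarith⟩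
  · intro m m' hmm'
    refine Disjoint.mono (hsup m) (hsup m') ?_
    rw [disjoint_left]
    have hm := m_le m
    have hm0 : (0 : ℝ) ≤ (m : ℕ) := Nat.cast_nonneg _
    have hm' := m_le m'
    have hm0' : (0 : ℝ) ≤ (m' : ℕ) := Nat.cast_nonneg _
    have hne : (m : ℕ) < (m' : ℕ) ∨ (m' : ℕ) < (m : ℕ) := by
      rcases lt_trichotomy (m : ℕ) (m' : ℕ) with h | h | h
      · exact Or.inl h
      · exact absurd (Fin.ext h) hmm'
      · exact Or.inr h
    have hne' : ((m : ℕ) : ℝ) + 1 ≤ (m' : ℕ) ∨ ((m' : ℕ) : ℝ) + 1 ≤ (m : ℕ) := by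
      rcases hne with h | h
      · left; exact_mod_cast h
      · right; exact_mod_cast h
    rintro s (hs | hs) (hs' | hs') <;>
    · have e1 := hs.1
      have e2 := hs.2
      have e1' := hs'.1
      have e2' := hs'.2
      simp only [lo, hi] at e1 e2 e1' e2'
      rcases hne' with h | h <;> linarith
  · intro m
    have : (∫ s in (0 : ℝ)..1, s ^ (1 / 2 : ℝ) * (x m * bp (lo m) s + y m * bp (hi m) s) ^ 2) =
        x m ^ 2 * mA (lo m) + y m ^ 2 * mA (hi m) := by
      rw [mA, mA, ← intervalIntegral.integral_const_mul, ← intervalIntegral.integral_const_mul,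
        ← intervalIntegral.integral_add (iA _ _) (iA _ _)]
      refine intervalIntegral.integral_congr fun s _ => ?_
      rw [hsq]
      ring
    rw [this, h1]
  · intro m
    have : (∫ s in (0 : ℝ)..1, s ^ (3 / 2 : ℝ) * (x m * bp (lo m) s + y m * bp (hi m) s) ^ 2) =
        x m ^ 2 * mB (lo m) + y m ^ 2 * mB (hi m) := by
      rw [mB, mB, ← intervalIntegral.integral_const_mul, ← intervalIntegral.integral_const_mul,
        ← intervalIntegral.integral_add (iB _ _) (iB _ _)]
      refine intervalIntegral.integral_congr fun s _ => ?_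
      rw [hsq]
      ring
    rw [this, h2]

end Pool.Agent.NSK
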