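import Pool.Agent.NSK.R2

open MeasureTheory Set Filter Topology
open scoped RealInnerProductSpace ContDiff

noncomputable section

namespace Pool.Agent.NSK

open Pool.Agent.NSD

namespace R1

theorem isBV_apply {F : Type*} [NormedAddCommGroup F] [NormedSpace ℝ F] {L : E → E →L[ℝ] F} (hL : IsBV L)
    {s : E → E} (hs : ContDiff ℝ ∞ s) : IsBV (fun x => L x (s x)) :=
  ⟨hL.1.clm_apply hs, hL.2.mono fun x hx => by
    rw [Function.mem_support] at hx ⊢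
    intro h; exact hx (by rw [h]; rfl)⟩

theorem isBV_apply' {F : Type*} [NormedAddCommGroup F] [NormedSpace ℝ F] {L : E → E →L[ℝ] F} (hL : ContDiff ℝ ∞ L)
    {s : E → E} (hs : IsBV s) : IsBV (fun x => L x (s x)) :=
  ⟨hL.clm_apply hs.1, hs.2.mono fun x hx => by
    rw [Function.mem_support] at hx ⊢
    intro h; exact hx (by rw [h]; simp)⟩

theorem isBV_smul_left {F : Type*} [NormedAddCommGroup F] [NormedSpace ℝ F] {p : E → F} (hp : IsBV p)
    {g : E → ℝ} (hg : ContDiff ℝ ∞ g) : IsBV (fun x => g x • p x) :=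
  ⟨hg.smul hp.1, hp.2.mono fun x hx => by
    rw [Function.mem_support] at hx ⊢
    intro h; exact hx (by rw [h]; simp)⟩

variable {k ξ : E} {a : E → ℝ}

theorem gS_eq (N : ℝ) (hk : ‖k‖ = 1) (hkξ : ⟪k, ξ⟫ = 0) (ha : IsBV a) :
    stream k ξ (gS N k a) = Wv N k (stream k ξ a) (fun y => N • (a y • ξ)) := by
  rw [stream_gS N hk hkξ ha]
  congr 1
  funext y; rw [mul_smul]

/-- heat part of the wave. -/
theorem heatA (η : ℝ) (hk : ‖k‖ = 1) (hkξ : ⟪k, ξ⟫ = 0) (ha : IsBV a) : ∃ C : ℝ, 0 ≤ C ∧ ∀ N : ℝ, 1 ≤ N → ∀ x,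
    ‖(-(η * N ^ 2)) • stream k ξ (gS N k a) x - η • lap (stream k ξ (gS N k a)) x
      - (Real.sin (N * ⟪k, x⟫) * (2 * η * N ^ 2 * dd k a x)) • ξ‖ ≤ C * N := by
  have hsa : IsBV (stream k ξ a) := ha.stream k ξ
  have haξ : IsBV (fun y => a y • ξ) := ha.smul_const ξ
  obtain ⟨C1, hC1, b1⟩ := (hsa.lap.const_smul η).bound
  obtain ⟨C2, hC2, b2⟩ := ((hsa.dd k).const_smul (2 * η)).bound
  obtain ⟨C3, hC3, b3⟩ := (haξ.lap.const_smul η).bound
  refine ⟨C1 + C2 + C3, by positivity, fun N hN x => ?_⟩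
  have hNpos : 0 < N := by linarith
  rw [gS_eq N hk hkξ ha, R2.heat_Wv η N x hk hsa (haξ.const_smul N), dd_const_smul _ _ _ (haξ.diffAt x),
    dd_smul_const _ _ _ (ha.diffAt x), R2.lap_const_smul haξ]
  have e : Real.sin (N * ⟪k, x⟫) • ((2 * η * N) • N • dd k a x • ξ - η • lap (stream k ξ a) x) +
        Real.cos (N * ⟪k, x⟫) • (-((2 * η * N) • dd k (stream k ξ a) x) - η • N • lap (fun y => a y • ξ) x) -
      (Real.sin (N * ⟪k, x⟫) * (2 * η * N ^ 2 * dd k a x)) • ξ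
      = Real.sin (N * ⟪k, x⟫) • (-(η • lap (stream k ξ a) x)) +
        Real.cos (N * ⟪k, x⟫) • (-(N • ((2 * η) • dd k (stream k ξ a) x)) - N • (η • lap (fun y => a y • ξ) x)) := by
    module
  rw [e]
  refine (norm_sc_le _ _ _).trans ?_
  rw [norm_neg]
  have f2 := norm_sub_le (-(N • ((2 * η) • dd k (stream k ξ a) x))) (N • (η • lap (fun y => a y • ξ) x))
  rw [norm_neg, norm_smul N, norm_smul N, Real.norm_eq_abs, abs_of_pos hNpos] at f2
  have g1 := b1 x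
  have g2 := mul_le_mul_of_nonneg_left (b2 x) hNpos.le
  have g3 := mul_le_mul_of_nonneg_left (b3 x) hNpos.le
  have m : C1 ≤ C1 * N := by nlinarith
  linarith

/-- the corrector. -/
theorem corrB {c : E → ℝ} (hk : ‖k‖ = 1) (hkξ : ⟪k, ξ⟫ = 0) (hc : IsBV c) : ∃ C : ℝ, 0 ≤ C ∧ ∀ N : ℝ, 1 ≤ N → ∀ x,
    ‖N ^ 2 • stream k ξ (gC N k c) x - (Real.sin (N * ⟪k, x⟫) * (N ^ 2 * c x)) • ξ‖ ≤ C * N := by
  obtain ⟨C1, hC1, b1⟩ := (hc.stream k ξ).bound
  refine ⟨C1, hC1, fun N hN x => ?_⟩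
  have hNpos : 0 < N := by linarith
  rw [stream_gC N hNpos.ne' hk hkξ hc]
  unfold Wv
  have e : N ^ 2 • (Real.sin (N * ⟪k, x⟫) • c x • ξ + Real.cos (N * ⟪k, x⟫) • (-(1 / N)) • stream k ξ c x)
      - (Real.sin (N * ⟪k, x⟫) * (N ^ 2 * c x)) • ξ
      = (Real.cos (N * ⟪k, x⟫) * (N ^ 2 * (-(1 / N)))) • stream k ξ c x := by
    module
  rw [e, show N ^ 2 * (-(1 / N)) = -N by field_simp, norm_smul, Real.norm_eq_abs, abs_mul, abs_neg, abs_of_pos hNpos]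
  calc |Real.cos (N * ⟪k, x⟫)| * N * ‖stream k ξ c x‖ ≤ 1 * N * C1 :=
        mul_le_mul (mul_le_mul_of_nonneg_right (Real.abs_cos_le_one _) hNpos.le) (b1 x) (norm_nonneg _) (by positivity)
    _ = C1 * N := by ring

/-- transport by, and of, a smooth field. -/
theorem transport (hk : ‖k‖ = 1) (hkξ : ⟪k, ξ⟫ = 0) (ha : IsBV a) {s : E → E} (hs : ContDiff ℝ ∞ s) :
    ∃ C : ℝ, 0 ≤ C ∧ ∀ N : ℝ, 1 ≤ N → ∀ x,
    ‖adv s (stream k ξ (gS N k a)) x + adv (stream k ξ (gS N k a)) s x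
      + (Real.sin (N * ⟪k, x⟫) * (N ^ 2 * (⟪k, s x⟫ * a x))) • ξ‖ ≤ C * N := by
  have hsa : IsBV (stream k ξ a) := ha.stream k ξ
  have haξ : IsBV (fun y => a y • ξ) := ha.smul_const ξ
  have hds : ContDiff ℝ ∞ (fderiv ℝ s) := hs.fderiv_right (by simp)
  have hks : ContDiff ℝ ∞ (fun x => ⟪k, s x⟫) := contDiff_const.inner ℝ hs
  obtain ⟨C1, hC1, b1⟩ := (isBV_apply hsa.fderiv hs).bound
  obtain ⟨C2, hC2, b2⟩ := (isBV_apply haξ.fderiv hs).bound
  obtain ⟨C3, hC3, b3⟩ := (isBV_smul_left hsa hks).bound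
  obtain ⟨C4, hC4, b4⟩ := (isBV_apply' hds hsa).bound
  obtain ⟨C5, hC5, b5⟩ := (isBV_apply' hds haξ).bound
  refine ⟨C1 + C2 + C3 + C4 + C5, by positivity, fun N hN x => ?_⟩
  have hNpos : 0 < N := by linarith
  set S := Real.sin (N * ⟪k, x⟫) with hS
  set Co := Real.cos (N * ⟪k, x⟫) with hCo
  have hSa : |S| ≤ 1 := Real.abs_sin_le_one _
  have hCa : |Co| ≤ 1 := Real.abs_cos_le_one _
  have hA := gS_eq N hk hkξ ha (ξ := ξ)
  have hqd : fderiv ℝ (fun y => N • (a y • ξ)) x (s x) = N • fderiv ℝ (fun y => a y • ξ) x (s x) := by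
    rw [fderiv_fun_const_smul (haξ.diffAt x)]; rfl
  have e : adv s (stream k ξ (gS N k a)) x + adv (stream k ξ (gS N k a)) s x
      + (S * (N ^ 2 * (⟪k, s x⟫ * a x))) • ξ
      = S • (fderiv ℝ (stream k ξ a) x (s x) + fderiv ℝ s x (stream k ξ a x))
        + Co • (N • fderiv ℝ (fun y => a y • ξ) x (s x) + N • (⟪k, s x⟫ • stream k ξ a x)
          + N • fderiv ℝ s x (a x • ξ)) := by
    unfold adv
    rw [hA, fderiv_Wv N k x (s x) (hsa.diffAt x) ((haξ.const_smul N).diffAt x), hqd]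
    unfold Wv
    rw [← hS, ← hCo, map_add, map_smul, map_smul, map_smul]
    module
  rw [e]
  refine (norm_sc_le _ _ _).trans ?_
  have f1 := norm_add_le (fderiv ℝ (stream k ξ a) x (s x)) (fderiv ℝ s x (stream k ξ a x))
  have f2 := norm_add₃_le (a := N • fderiv ℝ (fun y => a y • ξ) x (s x)) (b := N • (⟪k, s x⟫ • stream k ξ a x))
    (c := N • fderiv ℝ s x (a x • ξ))
  rw [norm_smul N, norm_smul N, norm_smul N, Real.norm_eq_abs, abs_of_pos hNpos] at f2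
  have g1 := b1 x
  have g2 := mul_le_mul_of_nonneg_left (b2 x) hNpos.le
  have g3 := mul_le_mul_of_nonneg_left (b3 x) hNpos.le
  have g4 := b4 x
  have g5 := mul_le_mul_of_nonneg_left (b5 x) hNpos.le
  have m : ∀ {C : ℝ}, 0 ≤ C → C ≤ C * N := fun {C} hC => by nlinarith
  have m1 := m hC1
  have m4 := m hC4
  linarith

end R1

open R1 in
theorem r1_proof : Stmt_R1 := by
  intro η k ξ a s hη hk hξ hkξ ha hs
  have ha' := ha.isBV
  have hks : ContDiff ℝ ∞ (fun x => ⟪s x, k⟫) := hs.inner ℝ contDiff_const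
  have hc : IsBV (c1 η k a s) := by
    have h1 := (ha'.mul hks).sub ((ha'.dd k).const_smul (2 * η))
    exact h1
  obtain ⟨C1, hC1, b1⟩ := heatA (ξ := ξ) η hk hkξ ha'
  obtain ⟨C2, hC2, b2⟩ := corrB (ξ := ξ) hk hkξ hc
  obtain ⟨C3, hC3, b3⟩ := transport (ξ := ξ) hk hkξ ha' hs
  refine ⟨C1 + C2 + C3, by positivity, fun N hN x => ?_⟩
  have g1 := b1 N hN x
  have g2 := b2 N hN x
  have g3 := b3 N hN x
  have key : (-(η * N ^ 2)) • stream k ξ (gS N k a) x - η • lap (stream k ξ (gS N k a)) x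
        + N ^ 2 • stream k ξ (gC N k (c1 η k a s)) x
        + adv s (stream k ξ (gS N k a)) x + adv (stream k ξ (gS N k a)) s x
      = ((-(η * N ^ 2)) • stream k ξ (gS N k a) x - η • lap (stream k ξ (gS N k a)) x
          - (Real.sin (N * ⟪k, x⟫) * (2 * η * N ^ 2 * dd k a x)) • ξ)
        + (N ^ 2 • stream k ξ (gC N k (c1 η k a s)) x
          - (Real.sin (N * ⟪k, x⟫) * (N ^ 2 * c1 η k a s x)) • ξ)
        + (adv s (stream k ξ (gS N k a)) x + adv (stream k ξ (gS N k a)) s x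
          + (Real.sin (N * ⟪k, x⟫) * (N ^ 2 * (⟪k, s x⟫ * a x))) • ξ) := by
    have e : (Real.sin (N * ⟪k, x⟫) * (N ^ 2 * c1 η k a s x)) • ξ
        = (Real.sin (N * ⟪k, x⟫) * (N ^ 2 * (⟪k, s x⟫ * a x))) • ξ
          - (Real.sin (N * ⟪k, x⟫) * (2 * η * N ^ 2 * dd k a x)) • ξ := by
      rw [← sub_smul]
      congr 1
      unfold c1
      rw [real_inner_comm k (s x)]
      ring
    rw [e]
    module
  rw [key]
  refine (norm_add₃_le).trans ?_
  linarith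

end Pool.Agent.NSK
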