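import Pool.Agent.NSK.R1

open MeasureTheory Set Filter Topology
open scoped RealInnerProductSpace ContDiff

noncomputable section

namespace Pool.Agent.NSK

open Pool.Agent.NSD

open R1 in
theorem r14_proof : Stmt_R14 := by
  intro η k ξ a G hη hk hξ hkξ ha hG
  have ha' := ha.isBV
  have hks : ContDiff ℝ ∞ (fun x => ⟪G x, k⟫) := hG.inner ℝ contDiff_const
  have hc : IsBV (c2 η k a G) := by
    have h1 := (ha'.mul hks).const_smul (2 * η)⁻¹
    have h2 : c2 η k a G = fun x => (2 * η)⁻¹ • (a x * ⟪G x, k⟫) := by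
      funext x; simp only [c2, smul_eq_mul]; ring
    rw [h2]; exact h1
  obtain ⟨C2, hC2, b2⟩ := corrB (ξ := ξ) hk hkξ hc
  obtain ⟨C3, hC3, b3⟩ := transport (ξ := ξ) hk hkξ ha' hG
  refine ⟨2 * η * C2 + C3, by positivity, fun N hN x => ?_⟩
  have g2 := b2 N hN x
  have g3 := b3 N hN x
  have key : (2 * η * N ^ 2) • stream k ξ (gC N k (c2 η k a G)) x
        + adv G (stream k ξ (gS N k a)) x + adv (stream k ξ (gS N k a)) G x
      = (2 * η) • (N ^ 2 • stream k ξ (gC N k (c2 η k a G)) x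
          - (Real.sin (N * ⟪k, x⟫) * (N ^ 2 * c2 η k a G x)) • ξ)
        + (adv G (stream k ξ (gS N k a)) x + adv (stream k ξ (gS N k a)) G x
          + (Real.sin (N * ⟪k, x⟫) * (N ^ 2 * (⟪k, G x⟫ * a x))) • ξ) := by
    have e : (Real.sin (N * ⟪k, x⟫) * (N ^ 2 * (⟪k, G x⟫ * a x))) • ξ
        = (2 * η * (Real.sin (N * ⟪k, x⟫) * (N ^ 2 * c2 η k a G x))) • ξ := by
      congr 1
      unfold c2
      rw [real_inner_comm k (G x)]
      field_simp
    rw [e]
    module
  rw [key]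
  refine (norm_add_le _ _).trans ?_
  rw [norm_smul, Real.norm_eq_abs, abs_of_pos (by positivity : (0 : ℝ) < 2 * η)]
  have := mul_le_mul_of_nonneg_left g2 (by positivity : (0 : ℝ) ≤ 2 * η)
  linarith

end Pool.Agent.NSK
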