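import Pool.Agent.NSK.Wave

open MeasureTheory Set Filter Topology
open scoped RealInnerProductSpace ContDiff

noncomputable section

namespace Pool.Agent.NSK

open Pool.Agent.NSD

theorem r4_proof : Stmt_R4 := by
  intro k ξ a hk hξ hkξ ha
  have ha' : IsBV a := ha.isBV
  have hsa : IsBV (stream k ξ a) := ha'.stream k ξ
  have haξ : IsBV (fun y => a y • ξ) := ha'.smul_const ξ
  obtain ⟨C0, hC0, b0⟩ := hsa.bound
  obtain ⟨C1, hC1, b1⟩ := hsa.fderiv_bound
  obtain ⟨C2, hC2, b2⟩ := ha'.bound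
  obtain ⟨C3, hC3, b3⟩ := ha'.fderiv_bound
  refine ⟨C1 * (C0 + C2) + (C3 * C0) + C3 * C0, by positivity, fun N hN x => ?_⟩
  have hNpos : 0 < N := by linarith
  have hq : (fun y => (N * a y) • ξ) = fun y => N • (a y • ξ) := by
    funext y; rw [mul_smul]
  have hA : stream k ξ (gS N k a) = Wv N k (stream k ξ a) (fun y => N • (a y • ξ)) := by
    rw [stream_gS N hk hkξ ha', hq]
  set S := Real.sin (N * ⟪k, x⟫) with hS
  set Co := Real.cos (N * ⟪k, x⟫) with hCo
  have hsc : S ^ 2 + Co ^ 2 = 1 := Real.sin_sq_add_cos_sq _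
  have hSa : |S| ≤ 1 := Real.abs_sin_le_one _
  have hCa : |Co| ≤ 1 := Real.abs_cos_le_one _
  -- value of the field at `x`
  set A := stream k ξ (gS N k a) x with hAx
  have hAv : A = S • stream k ξ a x + (Co * (N * a x)) • ξ := by
    rw [hAx, hA]
    unfold Wv
    rw [← hS, ← hCo, smul_smul, smul_smul, mul_assoc]
  have hAn : ‖A‖ ≤ C0 + N * C2 := by
    rw [hAv]
    refine (norm_add_le _ _).trans ?_
    rw [norm_smul, norm_smul, hξ, mul_one, Real.norm_eq_abs, Real.norm_eq_abs, abs_mul, abs_mul, abs_of_pos hNpos]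
    have e1 : |S| * ‖stream k ξ a x‖ ≤ 1 * C0 := mul_le_mul hSa (b0 x) (norm_nonneg _) (by norm_num)
    have e2 : |Co| * (N * |a x|) ≤ 1 * (N * C2) :=
      mul_le_mul hCa (mul_le_mul_of_nonneg_left (b2 x) hNpos.le) (by positivity) (by norm_num)
    linarith
  have hkA : ⟪k, A⟫ = -(S * dd ξ a x) := by
    rw [hAv, inner_add_right, inner_smul_right, inner_smul_right, inner_stream a hk hkξ, hkξ]
    ring
  have hdA : fderiv ℝ a x A = S * fderiv ℝ a x (stream k ξ a x) + Co * (N * a x) * dd ξ a x := by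
    rw [hAv, map_add, map_smul, map_smul]
    simp [dd]
  have hqd : fderiv ℝ (fun y => N • (a y • ξ)) x A = (N * fderiv ℝ a x A) • ξ := by
    have : fderiv ℝ (fun y => N • (a y • ξ)) x A = N • (fderiv ℝ (fun y => a y • ξ) x A) := by
      rw [fderiv_fun_const_smul (haξ.diffAt x)]; rfl
    rw [this, show fderiv ℝ (fun y => a y • ξ) x A = (fderiv ℝ a x A) • ξ from dd_smul_const A x ξ (ha'.diffAt x),
      smul_smul]
  have hsq : dd ξ (fun y => a y ^ 2) x = 2 * a x * dd ξ a x := by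
    unfold dd
    have h := (ha'.diffAt x).hasFDerivAt.pow 2
    rw [h.fderiv]
    simp
  have key : adv (stream k ξ (gS N k a)) (stream k ξ (gS N k a)) x - (N ^ 2 / 2 * dd ξ (fun y => a y ^ 2) x) • ξ
      = S • fderiv ℝ (stream k ξ a) x A + (Co * (N * (S * fderiv ℝ a x (stream k ξ a x)))) • ξ
        - (Co * (N * (S * dd ξ a x))) • stream k ξ a x := by
    unfold adv
    rw [← hAx]
    conv_lhs => rw [hA]
    rw [fderiv_Wv N k x A (hsa.diffAt x) ((haξ.const_smul N).diffAt x), ← hS, ← hCo, hkA, hqd, hdA, hsq]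
    have e : (N ^ 2 / 2 * (2 * a x * dd ξ a x)) • ξ = ((S ^ 2 + Co ^ 2) * (N ^ 2 * (a x * dd ξ a x))) • ξ := by
      rw [hsc]; congr 1; ring
    rw [e]
    module
  rw [key]
  have n1 : ‖S • fderiv ℝ (stream k ξ a) x A‖ ≤ C1 * (C0 + N * C2) := by
    rw [norm_smul, Real.norm_eq_abs]
    have a1 := (fderiv ℝ (stream k ξ a) x).le_of_opNorm_le (b1 x) A
    have a2 : C1 * ‖A‖ ≤ C1 * (C0 + N * C2) := mul_le_mul_of_nonneg_left hAn hC1
    calc |S| * ‖fderiv ℝ (stream k ξ a) x A‖ ≤ 1 * ‖fderiv ℝ (stream k ξ a) x A‖ :=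
          mul_le_mul_of_nonneg_right hSa (norm_nonneg _)
      _ ≤ _ := by linarith
  have hfa : |fderiv ℝ a x (stream k ξ a x)| ≤ C3 * C0 := by
    have := (fderiv ℝ a x).le_of_opNorm_le (b3 x) (stream k ξ a x)
    rw [Real.norm_eq_abs] at this
    exact this.trans (mul_le_mul_of_nonneg_left (b0 x) hC3)
  have hdξ : |dd ξ a x| ≤ C3 := by
    have := (fderiv ℝ a x).le_of_opNorm_le (b3 x) ξ
    rwa [hξ, mul_one, Real.norm_eq_abs] at this
  have hSC : |Co| * |S| ≤ 1 := by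
    calc |Co| * |S| ≤ 1 * 1 := mul_le_mul hCa hSa (abs_nonneg _) (by norm_num)
      _ = 1 := one_mul _
  have n2 : ‖(Co * (N * (S * fderiv ℝ a x (stream k ξ a x)))) • ξ‖ ≤ N * (C3 * C0) := by
    rw [norm_smul, hξ, mul_one, Real.norm_eq_abs, abs_mul, abs_mul, abs_mul, abs_of_pos hNpos]
    calc |Co| * (N * (|S| * |fderiv ℝ a x (stream k ξ a x)|))
        = (|Co| * |S|) * (N * |fderiv ℝ a x (stream k ξ a x)|) := by ring
      _ ≤ 1 * (N * (C3 * C0)) := mul_le_mul hSC (mul_le_mul_of_nonneg_left hfa hNpos.le) (by positivity) (by norm_num)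
      _ = _ := one_mul _
  have n3 : ‖(Co * (N * (S * dd ξ a x))) • stream k ξ a x‖ ≤ N * (C3 * C0) := by
    rw [norm_smul, Real.norm_eq_abs, abs_mul, abs_mul, abs_mul, abs_of_pos hNpos]
    calc |Co| * (N * (|S| * |dd ξ a x|)) * ‖stream k ξ a x‖
        = (|Co| * |S|) * (N * (|dd ξ a x| * ‖stream k ξ a x‖)) := by ring
      _ ≤ 1 * (N * (C3 * C0)) := mul_le_mul hSC (mul_le_mul_of_nonneg_left
          (mul_le_mul hdξ (b0 x) (norm_nonneg _) hC3) hNpos.le) (by positivity) (by norm_num)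
      _ = _ := one_mul _
  have t1 := norm_sub_le (S • fderiv ℝ (stream k ξ a) x A + (Co * (N * (S * fderiv ℝ a x (stream k ξ a x)))) • ξ)
    ((Co * (N * (S * dd ξ a x))) • stream k ξ a x)
  have t2 := norm_add_le (S • fderiv ℝ (stream k ξ a) x A) ((Co * (N * (S * fderiv ℝ a x (stream k ξ a x)))) • ξ)
  have m : C1 * C0 ≤ C1 * C0 * N := by nlinarith [mul_nonneg hC1 hC0]
  have e1 : C1 * (C0 + N * C2) = C1 * C0 + C1 * C2 * N := by ring
  have e2 : (C1 * (C0 + C2) + C3 * C0 + C3 * C0) * N = C1 * C0 * N + C1 * C2 * N + N * (C3 * C0) + N * (C3 * C0) := by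
    ring
  rw [e2]
  linarith

end Pool.Agent.NSK
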