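import Pool.Agent.NSK.Wave

/-!
# MP_fd8964_an, module `RAB`: `(A·∇)B + (B·∇)A = O(N)`
-/

open MeasureTheory Set Filter Topology
open scoped RealInnerProductSpace ContDiff

noncomputable section

namespace Pool.Agent.NSK

open Pool.Agent.NSD

namespace RAB

/-- crude bound for the derivative of a wave, in a direction with controlled phase derivative -/
lemma fderiv_Wv_le {N : ℝ} {k x v : E} {p q : E → E} (hp : DifferentiableAt ℝ p x)
    (hq : DifferentiableAt ℝ q x) {Cp Cq P Q R V : ℝ} (hCp : ‖fderiv ℝ p x‖ ≤ Cp)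
    (hCq : ‖fderiv ℝ q x‖ ≤ Cq) (hP : ‖p x‖ ≤ P) (hQ : ‖q x‖ ≤ Q) (hR : |N * ⟪k, v⟫| ≤ R)
    (hV : ‖v‖ ≤ V) :
    ‖fderiv ℝ (Wv N k p q) x v‖ ≤ Cp * V + R * Q + (Cq * V + R * P) := by
  rw [fderiv_Wv N k x v hp hq]
  refine (norm_sc_le _ _ _).trans ?_
  have hR0 : 0 ≤ R := (abs_nonneg _).trans hR
  have hCp0 : 0 ≤ Cp := (norm_nonneg _).trans hCp
  have hCq0 : 0 ≤ Cq := (norm_nonneg _).trans hCq
  have e1 : ‖fderiv ℝ p x v‖ ≤ Cp * V :=
    ((fderiv ℝ p x).le_of_opNorm_le hCp v).trans (by gcongr)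
  have e2 : ‖fderiv ℝ q x v‖ ≤ Cq * V :=
    ((fderiv ℝ q x).le_of_opNorm_le hCq v).trans (by gcongr)
  have e3 : ‖(N * ⟪k, v⟫) • q x‖ ≤ R * Q := by
    rw [norm_smul, Real.norm_eq_abs]; gcongr
  have e4 : ‖(N * ⟪k, v⟫) • p x‖ ≤ R * P := by
    rw [norm_smul, Real.norm_eq_abs]; gcongr
  exact add_le_add ((norm_sub_le _ _).trans (add_le_add e1 e3))
    ((norm_add_le _ _).trans (add_le_add e2 e4))

end RAB

theorem rAB_proof : Stmt_RAB := by
  intro k ξ a c hk hξ hkξ ha hc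
  have ha' : IsBV a := ha.isBV
  have hc' : IsBV c := hc.isBV
  have hsa : IsBV (stream k ξ a) := ha'.stream k ξ
  have hsc : IsBV (stream k ξ c) := hc'.stream k ξ
  have haξ : IsBV (fun y => a y • ξ) := ha'.smul_const ξ
  have hcξ : IsBV (fun y => c y • ξ) := hc'.smul_const ξ
  obtain ⟨A0, hA0, bA0⟩ := hsa.bound
  obtain ⟨A1, hA1, bA1⟩ := hsa.fderiv_bound
  obtain ⟨A2, hA2, bA2⟩ := haξ.bound
  obtain ⟨A3, hA3, bA3⟩ := haξ.fderiv_bound
  obtain ⟨A4, hA4, bA4⟩ := (ha'.dd ξ).bound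
  obtain ⟨B0, hB0, bB0⟩ := hsc.bound
  obtain ⟨B1, hB1, bB1⟩ := hsc.fderiv_bound
  obtain ⟨B2, hB2, bB2⟩ := hcξ.bound
  obtain ⟨B3, hB3, bB3⟩ := hcξ.fderiv_bound
  obtain ⟨B4, hB4, bB4⟩ := (hc'.dd ξ).bound
  refine ⟨(B3 * (A0 + A2) + A4 * B0 + (B1 * (A0 + A2) + A4 * B2))
    + (A1 * (B2 + B0) + B4 * A2 + (A3 * (B2 + B0) + B4 * A0)), by positivity, fun N hN x => ?_⟩
  have hNpos : 0 < N := by linarith
  have hinv : 1 / N ≤ 1 := by rw [div_le_one hNpos]; exact hN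
  have hinv0 : 0 ≤ 1 / N := by positivity
  have hA : stream k ξ (gS N k a) = Wv N k (stream k ξ a) (fun y => N • (a y • ξ)) := by
    rw [stream_gS N hk hkξ ha']
    congr 1
    funext y
    rw [mul_smul]
  have hB : stream k ξ (gC N k c) = Wv N k (fun y => c y • ξ) (fun y => (-(1 / N)) • stream k ξ c y) :=
    stream_gC N hNpos.ne' hk hkξ hc'
  have hAx : ‖stream k ξ (gS N k a) x‖ ≤ A0 * N + A2 * N := by
    rw [hA]
    refine (norm_Wv_le _ _ _ _ _).trans ?_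
    rw [norm_smul, Real.norm_eq_abs, abs_of_pos hNpos]
    have h1 := bA0 x
    have h2 := bA2 x
    nlinarith
  have hBx : ‖stream k ξ (gC N k c) x‖ ≤ B2 + B0 := by
    rw [hB]
    refine (norm_Wv_le _ _ _ _ _).trans ?_
    have h1 := bB0 x
    have h2 := bB2 x
    have h3 : 1 / N * ‖stream k ξ c x‖ ≤ 1 * B0 := by gcongr
    have h4 : ‖(-(1 / N)) • stream k ξ c x‖ = 1 / N * ‖stream k ξ c x‖ := by
      rw [norm_smul, Real.norm_eq_abs, abs_neg, abs_of_nonneg hinv0]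
    linarith
  have hkA : |N * ⟪k, stream k ξ (gS N k a) x⟫| ≤ N * A4 := by
    have e1 : ⟪k, stream k ξ (gS N k a) x⟫ = -(Real.sin (N * ⟪k, x⟫) * dd ξ a x) := by
      rw [hA]
      unfold Wv
      rw [inner_add_right, inner_smul_right, inner_smul_right, inner_stream a hk hkξ,
        inner_smul_right, inner_smul_right, hkξ]
      ring
    rw [e1, abs_mul, abs_neg, abs_mul, abs_of_pos hNpos]
    have h1 := bA4 x
    rw [Real.norm_eq_abs] at h1
    have h2 := Real.abs_sin_le_one (N * ⟪k, x⟫)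
    have h3 : |Real.sin (N * ⟪k, x⟫)| * |dd ξ a x| ≤ 1 * A4 := by gcongr
    rw [one_mul] at h3
    gcongr
  have hkB : |N * ⟪k, stream k ξ (gC N k c) x⟫| ≤ B4 := by
    have e1 : N * ⟪k, stream k ξ (gC N k c) x⟫ = Real.cos (N * ⟪k, x⟫) * dd ξ c x := by
      rw [hB]
      unfold Wv
      rw [inner_add_right, inner_smul_right, inner_smul_right, inner_smul_right, inner_smul_right,
        inner_stream c hk hkξ, hkξ]
      field_simp
      ring
    rw [e1, abs_mul]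
    have h1 := bB4 x
    rw [Real.norm_eq_abs] at h1
    have h2 := Real.abs_cos_le_one (N * ⟪k, x⟫)
    have h3 : |Real.cos (N * ⟪k, x⟫)| * |dd ξ c x| ≤ 1 * B4 := by gcongr
    linarith
  have n1 : ‖adv (stream k ξ (gS N k a)) (stream k ξ (gC N k c)) x‖ ≤
      B3 * (A0 * N + A2 * N) + (N * A4) * (1 / N * B0) + ((1 / N * B1) * (A0 * N + A2 * N) + (N * A4) * B2) := by
    unfold adv
    conv_lhs => rw [hB]
    refine RAB.fderiv_Wv_le (hcξ.diffAt x) ((hsc.const_smul _).diffAt x) (bB3 x) ?_ (bB2 x) ?_ hkA hAx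
    · rw [fderiv_fun_const_smul (hsc.diffAt x), norm_smul, Real.norm_eq_abs, abs_neg, abs_of_nonneg hinv0]
      have := bB1 x
      gcongr
    · rw [norm_smul, Real.norm_eq_abs, abs_neg, abs_of_nonneg hinv0]
      have := bB0 x
      gcongr
  have n2 : ‖adv (stream k ξ (gC N k c)) (stream k ξ (gS N k a)) x‖ ≤
      A1 * (B2 + B0) + B4 * (N * A2) + ((N * A3) * (B2 + B0) + B4 * A0) := by
    unfold adv
    conv_lhs => rw [hA]
    refine RAB.fderiv_Wv_le (hsa.diffAt x) ((haξ.const_smul _).diffAt x) (bA1 x) ?_ (bA0 x) ?_ hkB hBx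
    · rw [fderiv_fun_const_smul (haξ.diffAt x), norm_smul, Real.norm_eq_abs, abs_of_pos hNpos]
      have := bA3 x
      gcongr
    · rw [norm_smul, Real.norm_eq_abs, abs_of_pos hNpos]
      have := bA2 x
      gcongr
  refine (norm_add_le _ _).trans ((add_le_add n1 n2).trans ?_)
  have e1 : (N * A4) * (1 / N * B0) = A4 * B0 := by field_simp
  have e2 : (1 / N * B1) * (A0 * N + A2 * N) = B1 * (A0 + A2) := by field_simp
  rw [e1, e2]
  have m : ∀ {C : ℝ}, 0 ≤ C → C ≤ C * N := fun {C} hC => by nlinarith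
  have m1 := m (C := A4 * B0) (by positivity)
  have m2 := m (C := B1 * (A0 + A2)) (by positivity)
  have m3 := m (C := A1 * (B2 + B0)) (by positivity)
  have m4 := m (C := B4 * A0) (by positivity)
  linarith

end Pool.Agent.NSK
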