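import Pool.Agent.NSK.Conc

/-!
# Module Scale: scaling and translation of kicks
-/

set_option autoImplicit false

open MeasureTheory Set Filter Topology
open scoped RealInnerProductSpace ContDiff

noncomputable section

namespace Pool.Agent.NSK

open Pool.Agent.NSD

namespace ScaleLib

/-- The affine map. -/
def aff (x₀ : E) (ε : ℝ) (x : E) : E := ε⁻¹ • (x - x₀)

lemma aff_smooth (x₀ : E) (ε : ℝ) : ContDiff ℝ ∞ (aff x₀ ε) :=
  (contDiff_id.sub contDiff_const).const_smul _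

lemma aff_hasFDerivAt (x₀ : E) (ε : ℝ) (x : E) :
    HasFDerivAt (aff x₀ ε) (ε⁻¹ • ContinuousLinearMap.id ℝ E) x :=
  ((hasFDerivAt_id x).sub_const x₀).const_smul ε⁻¹

/-- The affine map as a homeomorphism. -/
def affH (x₀ : E) (ε : ℝ) (hε : 0 < ε) : E ≃ₜ E where
  toFun := aff x₀ ε
  invFun := fun y => ε • y + x₀
  left_inv := by
    intro x
    simp only [aff]
    rw [smul_smul, mul_inv_cancel₀ hε.ne', one_smul, sub_add_cancel]
  right_inv := by
    intro y
    simp only [aff]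
    rw [add_sub_cancel_right, smul_smul, inv_mul_cancel₀ hε.ne', one_smul]
  continuous_toFun := (aff_smooth x₀ ε).continuous
  continuous_invFun := by fun_prop

lemma compact_comp {F : Type*} [NormedAddCommGroup F] [NormedSpace ℝ F] {f : E → F} {x₀ : E} {ε : ℝ} (hε : 0 < ε) (hf : HasCompactSupport f) :
    HasCompactSupport (fun x => f (aff x₀ ε x)) :=
  hf.comp_homeomorph (affH x₀ ε hε)

lemma tsupport_comp {F : Type*} [NormedAddCommGroup F] [NormedSpace ℝ F] (f : E → F) {x₀ : E} {ε : ℝ} (hε : 0 < ε) :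
    tsupport (fun x => f (aff x₀ ε x)) ⊆ aff x₀ ε ⁻¹' tsupport f := by
  refine closure_minimal ?_ (IsClosed.preimage (aff_smooth x₀ ε).continuous (isClosed_tsupport f))
  intro x hx
  exact subset_tsupport f hx

lemma tsupport_sub {F : Type*} [NormedAddCommGroup F] [NormedSpace ℝ F] {f : E → F} {Ω : Set E} {x₀ : E} {ε : ℝ} (hε : 0 < ε)
    (hf : tsupport f ⊆ Metric.ball 0 1) (hb : Metric.ball x₀ ε ⊆ Ω) :
    tsupport (fun x => f (aff x₀ ε x)) ⊆ Ω := by
  intro x hx
  apply hb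
  have h := hf (tsupport_comp f hε hx)
  rw [mem_ball_zero_iff] at h
  rw [Metric.mem_ball, dist_eq_norm]
  have h2 : ‖aff x₀ ε x‖ = ε⁻¹ * ‖x - x₀‖ := by
    rw [aff, norm_smul, Real.norm_eq_abs, abs_of_pos (inv_pos.2 hε)]
  rw [h2] at h
  have h3 : ε * (ε⁻¹ * ‖x - x₀‖) < ε * 1 := mul_lt_mul_of_pos_left h hε
  rw [← mul_assoc, mul_inv_cancel₀ hε.ne', one_mul, mul_one] at h3
  exact h3

lemma fderiv_comp_aff {F : Type*} [NormedAddCommGroup F] [NormedSpace ℝ F] {f : E → F}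
    (hf : Differentiable ℝ f) (x₀ : E) (ε : ℝ) (x v : E) :
    fderiv ℝ (fun x => f (aff x₀ ε x)) x v = ε⁻¹ • fderiv ℝ f (aff x₀ ε x) v := by
  have h1 : HasFDerivAt (fun x => f (aff x₀ ε x))
      ((fderiv ℝ f (aff x₀ ε x)).comp (ε⁻¹ • ContinuousLinearMap.id ℝ E)) x :=
    (hf _).hasFDerivAt.comp x (aff_hasFDerivAt x₀ ε x)
  rw [h1.fderiv]
  simp

end ScaleLib

open ScaleLib in
theorem scale_proof : Stmt_Scale := by
  intro Ω η n a k ξ q G x₀ ε hε hK hb
  have hbump : ∀ f : E → ℝ, IsBump (Metric.ball 0 1) f → IsBump Ω (fun x => f (aff x₀ ε x)) :=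
    fun f hf => ⟨hf.1.comp (aff_smooth x₀ ε), compact_comp hε hf.2.1, tsupport_sub hε hf.2.2 hb⟩
  have hGd : Differentiable ℝ G := hK.test.smooth.differentiable (by simp)
  refine
    { bump := fun m => hbump _ (hK.bump m)
      disj := fun m m' h => ?_
      k_unit := hK.k_unit
      ξ_unit := hK.ξ_unit
      orth := hK.orth
      pres := hbump _ hK.pres
      test := IsTest.mk (smooth := ?_) (compact := ?_) (supp := ?_) (div := ?_)
      eq := ?_ }
  · exact ((hK.disj m m' h).preimage (aff x₀ ε)).mono (tsupport_comp _ hε) (tsupport_comp _ hε)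
  · exact (hK.test.smooth.comp (aff_smooth x₀ ε)).const_smul _
  · exact (compact_comp hε hK.test.compact).smul_left (f := fun _ => ε⁻¹)
  · exact (tsupport_smul_subset_right (fun _ => ε⁻¹) _).trans (tsupport_sub hε hK.test.supp hb)
  · intro x
    have h0 := hK.test.div (aff x₀ ε x)
    unfold divField at h0 ⊢
    have h1 : ∀ i : Fin 3, fderiv ℝ (fun x => ε⁻¹ • G (ε⁻¹ • (x - x₀))) x (e i) i =
        ε⁻¹ * (ε⁻¹ * fderiv ℝ G (aff x₀ ε x) (e i) i) := by
      intro i
      have h2 : HasFDerivAt (fun x => ε⁻¹ • G (aff x₀ ε x))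
          (ε⁻¹ • fderiv ℝ (fun x => G (aff x₀ ε x)) x) x :=
        ((hGd.comp ((aff_smooth x₀ ε).differentiable (by simp))) x).hasFDerivAt.const_smul ε⁻¹
      have h3 : fderiv ℝ (fun x => ε⁻¹ • G (ε⁻¹ • (x - x₀))) x =
          ε⁻¹ • fderiv ℝ (fun x => G (aff x₀ ε x)) x := h2.fderiv
      rw [h3, smul_apply, fderiv_comp_aff hGd]
      simp
    rw [Finset.sum_congr rfl fun i _ => h1 i, ← Finset.mul_sum, ← Finset.mul_sum, h0]
    simp
  · intro x
    have hd : ∀ m, dd (ξ m) (fun y => a m (aff x₀ ε y) ^ 2) x =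
        ε⁻¹ * dd (ξ m) (fun y => a m y ^ 2) (aff x₀ ε x) := by
      intro m
      have hda : Differentiable ℝ (fun y => a m y ^ 2) :=
        ((hK.bump m).1.differentiable (by simp)).pow 2
      exact fderiv_comp_aff hda x₀ ε x (ξ m)
    have hdq : ∀ i : Fin 3, dd (e i) (fun x => q (aff x₀ ε x)) x =
        ε⁻¹ * dd (e i) q (aff x₀ ε x) := fun i =>
      fderiv_comp_aff (hK.pres.1.differentiable (by simp)) x₀ ε x (e i)
    have h0 := hK.eq (aff x₀ ε x)
    change ∑ m, (dd (ξ m) (fun y => a m (aff x₀ ε y) ^ 2) x) • ξ m =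
      (4 * η) • (ε⁻¹ • G (aff x₀ ε x)) + ∑ i : Fin 3, dd (e i) (fun x => q (aff x₀ ε x)) x • e i
    simp only [hd, hdq, mul_smul, ← Finset.smul_sum]
    rw [h0, smul_add, smul_comm ε⁻¹, mul_smul]
    rfl

end Pool.Agent.NSK
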