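import Pool.Agent.NSK.Conc
import Pool.Agent.NSD.Rep
import Pool.Agent.NSD.Trilin

/-!
# Module Star: sup norm bounds give `StarBd`
-/

set_option autoImplicit false

open MeasureTheory Set Filter Topology
open scoped RealInnerProductSpace ContDiff

noncomputable section

namespace Pool.Agent.NSK

open Pool.Agent.NSD

namespace StarLib

lemma abs_inner_prodG_le (g : G) (a c : E) : |∑ i : Fin 3, a i * ⟪g i, c⟫| ≤ ‖a‖ * ‖g‖ * ‖c‖ := by
  rw [← inner_prodG]
  have h := abs_real_inner_le_norm g (prodG a c)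
  rw [norm_prodG] at h
  linarith

/-- Cauchy-Schwarz. -/
lemma int_norm_mul_le {Ω : Set E} (x y : V Ω) :
    Integrable (fun t => ‖(fld x : E → E) t‖ * ‖(grd y : E → G) t‖) (volume.restrict Ω) ∧
    ∫ t in Ω, ‖(fld x : E → E) t‖ * ‖(grd y : E → G) t‖ ≤ ‖fld x‖ * ‖grd y‖ := by
  have h1 : MemLp (fun t => ‖(fld x : E → E) t‖) 2 (volume.restrict Ω) := (Lp.memLp (fld x)).norm
  have h2 : MemLp (fun t => ‖(grd y : E → G) t‖) 2 (volume.restrict Ω) := (Lp.memLp (grd y)).norm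
  have hn1 : ‖h1.toLp _‖ = ‖fld x‖ := by
    rw [Lp.norm_toLp, Lp.norm_def, eLpNorm_norm]
  have hn2 : ‖h2.toLp _‖ = ‖grd y‖ := by
    rw [Lp.norm_toLp, Lp.norm_def, eLpNorm_norm]
  have hi := L2.integrable_inner (𝕜 := ℝ) (h2.toLp _) (h1.toLp _)
  have hae : (fun t => ⟪(h2.toLp _ : E → ℝ) t, (h1.toLp _ : E → ℝ) t⟫) =ᵐ[volume.restrict Ω]
      fun t => ‖(fld x : E → E) t‖ * ‖(grd y : E → G) t‖ := by
    filter_upwards [h1.coeFn_toLp, h2.coeFn_toLp] with t ht1 ht2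
    rw [ht1, ht2]
    rfl
  refine ⟨hi.congr hae, ?_⟩
  have hval : ⟪h2.toLp _, h1.toLp _⟫ =
      ∫ t in Ω, ‖(fld x : E → E) t‖ * ‖(grd y : E → G) t‖ := by
    rw [L2.inner_def]
    exact integral_congr_ae hae
  rw [← hval]
  refine (real_inner_le_norm _ _).trans ?_
  rw [hn1, hn2, mul_comm]

lemma bound_aux {Ω : Set E} (x y : V Ω) {m : ℝ} {F : E → ℝ}
    (h : ∀ᵐ t ∂(volume.restrict Ω),
      |F t| ≤ m * (‖(fld x : E → E) t‖ * ‖(grd y : E → G) t‖)) (hm : 0 ≤ m) :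
    |∫ t in Ω, F t| ≤ m * ‖fld x‖ * ‖grd y‖ := by
  obtain ⟨hi, hle⟩ := int_norm_mul_le x y
  have h1 : ‖∫ t in Ω, F t‖ ≤ ∫ t in Ω, m * (‖(fld x : E → E) t‖ * ‖(grd y : E → G) t‖) :=
    norm_integral_le_of_norm_le (hi.const_mul m) h
  rw [Real.norm_eq_abs, integral_const_mul] at h1
  refine h1.trans ?_
  rw [mul_assoc]
  exact mul_le_mul_of_nonneg_left hle hm

end StarLib

open StarLib in
theorem star_proof : Stmt_Star := by
  intro Ω hΩ hb D hD p pV m hp hpV hm x y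
  obtain ⟨hD1, hD2, hD3⟩ := hD
  have hm0 : 0 ≤ m := (norm_nonneg _).trans (hm 0)
  have hsig : D.sig y = ‖grd y‖ := by
    rw [Data.sig, hD2, real_inner_self_eq_norm_sq]
    exact Real.sqrt_sq (norm_nonneg _)
  have hp1 : (fld pV : E → E) =ᵐ[volume.restrict Ω] p := hpV.1
  rw [hD3, hD3, hD1, hsig]
  constructor
  · refine bound_aux x y ?_ hm0
    filter_upwards [hp1] with t ht
    refine (abs_inner_prodG_le _ _ _).trans ?_
    rw [ht, mul_comm m]
    exact mul_le_mul_of_nonneg_left (hm t) (by positivity)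
  · refine bound_aux x y ?_ hm0
    filter_upwards [hp1] with t ht
    refine (abs_inner_prodG_le _ _ _).trans ?_
    rw [ht, mul_assoc, mul_comm ‖(grd y : E → G) t‖]
    exact mul_le_mul_of_nonneg_right (hm t) (by positivity)

end Pool.Agent.NSK
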