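import Pool.Agent.NSK.Wave

open MeasureTheory Set Filter Topology
open scoped RealInnerProductSpace ContDiff

noncomputable section

namespace Pool.Agent.NSK

open Pool.Agent.NSD

namespace WBd

/-- Bounds for a wave and its derivative from bounds on the amplitudes. -/
theorem wave_deriv_le {F : Type*} [NormedAddCommGroup F] [NormedSpace ℝ F] {N : ℝ} {k : E} {p q : E → F}
    (hN : 1 ≤ N) (hk : ‖k‖ = 1) (hp : Differentiable ℝ p) (hq : Differentiable ℝ q) {P P₁ Q Q₁ : ℝ} (x : E)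
    (h1 : ‖p x‖ ≤ P) (h2 : ‖fderiv ℝ p x‖ ≤ P₁) (h3 : ‖q x‖ ≤ Q) (h4 : ‖fderiv ℝ q x‖ ≤ Q₁) :
    ‖fderiv ℝ (Wv N k p q) x‖ ≤ (P₁ + N * Q) + (Q₁ + N * P) := by
  have hP : 0 ≤ P := (norm_nonneg _).trans h1
  have hQ : 0 ≤ Q := (norm_nonneg _).trans h3
  have hP1 : 0 ≤ P₁ := (norm_nonneg _).trans h2
  have hQ1 : 0 ≤ Q₁ := (norm_nonneg _).trans h4
  have hN0 : 0 ≤ N := by linarith
  refine ContinuousLinearMap.opNorm_le_bound _ (by positivity) fun v => ?_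
  rw [fderiv_Wv N k x v (hp x) (hq x)]
  refine (norm_sc_le _ _ _).trans ?_
  have hkv : |N * ⟪k, v⟫| ≤ N * ‖v‖ := by
    rw [abs_mul, abs_of_nonneg hN0]
    refine mul_le_mul_of_nonneg_left ?_ hN0
    have := abs_real_inner_le_norm k v
    rwa [hk, one_mul] at this
  have e1 : ‖fderiv ℝ p x v - (N * ⟪k, v⟫) • q x‖ ≤ (P₁ + N * Q) * ‖v‖ := by
    refine (norm_sub_le _ _).trans ?_
    rw [norm_smul, Real.norm_eq_abs]
    have a1 := (fderiv ℝ p x).le_of_opNorm_le h2 v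
    have a2 : |N * ⟪k, v⟫| * ‖q x‖ ≤ (N * ‖v‖) * Q := mul_le_mul hkv h3 (norm_nonneg _) (by positivity)
    linarith
  have e2 : ‖fderiv ℝ q x v + (N * ⟪k, v⟫) • p x‖ ≤ (Q₁ + N * P) * ‖v‖ := by
    refine (norm_add_le _ _).trans ?_
    rw [norm_smul, Real.norm_eq_abs]
    have a1 := (fderiv ℝ q x).le_of_opNorm_le h4 v
    have a2 : |N * ⟪k, v⟫| * ‖p x‖ ≤ (N * ‖v‖) * P := mul_le_mul hkv h1 (norm_nonneg _) (by positivity)
    linarith
  linarith

end WBd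

open WBd in
theorem wBd_proof : Stmt_WBd := by
  intro k ξ a c hk hξ hkξ ha hc
  have ha' : IsBV a := ha.isBV
  have hc' : IsBV c := hc.isBV
  have hsa : IsBV (stream k ξ a) := ha'.stream k ξ
  have hsc : IsBV (stream k ξ c) := hc'.stream k ξ
  have haξ : IsBV (fun y => a y • ξ) := ha'.smul_const ξ
  have hcξ : IsBV (fun y => c y • ξ) := hc'.smul_const ξ
  obtain ⟨C1, hC1, b1⟩ := hsa.bound
  obtain ⟨C2, hC2, b2⟩ := hsa.fderiv_bound
  obtain ⟨C3, hC3, b3⟩ := haξ.bound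
  obtain ⟨C4, hC4, b4⟩ := haξ.fderiv_bound
  obtain ⟨C5, hC5, b5⟩ := hsc.bound
  obtain ⟨C6, hC6, b6⟩ := hsc.fderiv_bound
  obtain ⟨C7, hC7, b7⟩ := hcξ.bound
  obtain ⟨C8, hC8, b8⟩ := hcξ.fderiv_bound
  refine ⟨C1 + C2 + C3 + C4 + C5 + C6 + C7 + C8, by positivity, fun N hN x => ?_⟩
  have hN0 : 0 ≤ N := by linarith
  have hNN : N ≤ N ^ 2 := by nlinarith
  have h1N : 1 ≤ N ^ 2 := by nlinarith
  have hNpos : 0 < N := by linarith
  have hinv : 1 / N ≤ 1 := by rw [div_le_one hNpos]; exact hN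
  have hinv0 : 0 ≤ 1 / N := by positivity
  have hq : (fun y => (N * a y) • ξ) = fun y => N • (a y • ξ) := by
    funext y; rw [mul_smul]
  have hA : stream k ξ (gS N k a) = Wv N k (stream k ξ a) (fun y => N • (a y • ξ)) := by
    rw [stream_gS N hk hkξ ha', hq]
  have hB := stream_gC N (ne_of_gt hNpos) hk hkξ hc'
  have hqd : ‖fderiv ℝ (fun y => N • (a y • ξ)) x‖ ≤ N * C4 := by
    rw [fderiv_fun_const_smul (haξ.diffAt x), norm_smul, Real.norm_eq_abs, abs_of_nonneg hN0]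
    exact mul_le_mul_of_nonneg_left (b4 x) hN0
  have hqb : ‖N • (a x • ξ)‖ ≤ N * C3 := by
    rw [norm_smul, Real.norm_eq_abs, abs_of_nonneg hN0]
    exact mul_le_mul_of_nonneg_left (b3 x) hN0
  have hrd : ‖fderiv ℝ (fun y => (-(1 / N)) • stream k ξ c y) x‖ ≤ 1 * C6 := by
    rw [fderiv_fun_const_smul (hsc.diffAt x), norm_smul, Real.norm_eq_abs, abs_neg, abs_of_nonneg hinv0]
    exact mul_le_mul hinv (b6 x) (norm_nonneg _) (by norm_num)
  have hrb : ‖(-(1 / N)) • stream k ξ c x‖ ≤ 1 / N * C5 := by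
    rw [norm_smul, Real.norm_eq_abs, abs_neg, abs_of_nonneg hinv0]
    exact mul_le_mul_of_nonneg_left (b5 x) hinv0
  have hrb' : ‖(-(1 / N)) • stream k ξ c x‖ ≤ 1 * C5 := hrb.trans (mul_le_mul_of_nonneg_right hinv hC5)
  have m : ∀ {C : ℝ}, 0 ≤ C → C ≤ C * N := fun {C} hC => by nlinarith
  have m2 : ∀ {C : ℝ}, 0 ≤ C → C ≤ C * N ^ 2 := fun {C} hC => by nlinarith
  have m3 : ∀ {C : ℝ}, 0 ≤ C → N * C ≤ C * N ^ 2 := fun {C} hC => by nlinarith
  refine ⟨?_, ?_, ?_, ?_⟩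
  · rw [hA]
    refine (norm_Wv_le _ _ _ _ _).trans ?_
    have := b1 x
    have e1 := m hC1
    nlinarith
  · rw [hA]
    refine (wave_deriv_le hN hk hsa.differentiable (haξ.const_smul N).differentiable x (b1 x) (b2 x) hqb hqd).trans ?_
    have e2 := m2 hC2
    have e4 := m3 hC4
    have e1 := m3 hC1
    have e5 := m2 hC5
    have e6 := m2 hC6
    have e7 := m2 hC7
    have e8 := m2 hC8
    nlinarith
  · rw [hB]
    refine (norm_Wv_le _ _ _ _ _).trans ?_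
    have := b7 x
    linarith
  · rw [hB]
    refine (wave_deriv_le hN hk hcξ.differentiable (hsc.const_smul (-(1 / N))).differentiable x (b7 x) (b8 x) hrb
      hrd).trans ?_
    have e0 : N * (1 / N * C5) = C5 := by field_simp
    rw [e0]
    have e5 := m hC5
    have e6 := m hC6
    have e8 := m hC8
    nlinarith

end Pool.Agent.NSK
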