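import Pool.Agent.NSK.Conc
import Pool.Agent.NSD.Rep

/-!
# MP_fd8964_an, weak density of good initial data: the waves tend to zero (module WT)
-/

open MeasureTheory Set Filter Topology
open scoped RealInnerProductSpace ContDiff

noncomputable section

namespace Pool.Agent.NSK

open Pool.Agent.NSD

namespace Weak

/-! ### Stream fields are test fields -/

theorem contDiff_dd {g : E → ℝ} (v : E) (hg : ContDiff ℝ ∞ g) : ContDiff ℝ ∞ (dd v g) := by
  unfold dd
  exact (hg.fderiv_right (by simp)).clm_apply contDiff_const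

theorem tsupport_dd_subset {g : E → ℝ} (v : E) : tsupport (dd v g) ⊆ tsupport g :=
  tsupport_fderiv_apply_subset ℝ v

theorem sum_e (ξ : E) : ∑ i : Fin 3, ξ i • e i = ξ := by
  ext j
  simp [e, Fin.sum_univ_three]
  fin_cases j <;> simp

theorem contDiff_stream {k ξ : E} {g : E → ℝ} (hg : ContDiff ℝ ∞ g) : ContDiff ℝ ∞ (stream k ξ g) := by
  unfold stream
  exact ((contDiff_dd k hg).smul contDiff_const).sub ((contDiff_dd ξ hg).smul contDiff_const)

theorem div_stream {k ξ : E} {g : E → ℝ} (hg : ContDiff ℝ ∞ g) (x : E) :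
    divField (stream k ξ g) x = 0 := by
  have h1 : Differentiable ℝ (dd k g) := (contDiff_dd k hg).differentiable (by simp)
  have h2 : Differentiable ℝ (dd ξ g) := (contDiff_dd ξ hg).differentiable (by simp)
  have h3 : ∀ h : E, fderiv ℝ (stream k ξ g) x h
      = (fderiv ℝ (dd k g) x h) • ξ - (fderiv ℝ (dd ξ g) x h) • k := by
    intro h
    have : HasFDerivAt (stream k ξ g)
        ((fderiv ℝ (dd k g) x).smulRight ξ - (fderiv ℝ (dd ξ g) x).smulRight k) x := by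
      unfold stream
      exact ((h1 x).hasFDerivAt.smul_const ξ).sub ((h2 x).hasFDerivAt.smul_const k)
    rw [this.fderiv]
    simp
  have h4 : ∀ (f : E → ℝ) (ζ : E), ∑ i : Fin 3, fderiv ℝ f x (e i) * ζ i = fderiv ℝ f x ζ := by
    intro f ζ
    conv_rhs => rw [← sum_e ζ]
    rw [map_sum]
    refine Finset.sum_congr rfl fun i _ => ?_
    rw [map_smul, smul_eq_mul, mul_comm]
  have h5 : divField (stream k ξ g) x = fderiv ℝ (dd k g) x ξ - fderiv ℝ (dd ξ g) x k := by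
    unfold divField
    simp only [h3]
    rw [← h4, ← h4, ← Finset.sum_sub_distrib]
    refine Finset.sum_congr rfl fun i _ => ?_
    simp
  have hd : DifferentiableAt ℝ (fderiv ℝ g) x :=
    ((hg.fderiv_right (m := ∞) (by simp)).differentiable (by simp)) x
  have h6 : ∀ u v : E, fderiv ℝ (dd u g) x v = fderiv ℝ (fderiv ℝ g) x v u := by
    intro u v
    have : HasFDerivAt (dd u g) ((fderiv ℝ (fderiv ℝ g) x).flip u) x := by
      unfold dd
      have h7 := hd.hasFDerivAt.clm_apply (hasFDerivAt_const u x)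
      simpa using h7
    rw [this.fderiv]
    simp
  rw [h5, h6, h6]
  have hsym : IsSymmSndFDerivAt ℝ g x :=
    (hg.contDiffAt).isSymmSndFDerivAt (by simp only [minSmoothness_of_isRCLikeNormedField]; exact WithTop.coe_le_coe.2 le_top)
  rw [hsym.eq, sub_self]

theorem contDiff_gS {N : ℝ} {k : E} {a : E → ℝ} (ha : ContDiff ℝ ∞ a) : ContDiff ℝ ∞ (gS N k a) := by
  unfold gS
  exact (Real.contDiff_sin.comp (contDiff_const.mul (contDiff_const.inner ℝ contDiff_id))).mul ha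

theorem tsupport_gS {N : ℝ} {k : E} {a : E → ℝ} : tsupport (gS N k a) ⊆ tsupport a :=
  tsupport_mul_subset_right

theorem tsupport_stream {k ξ : E} {g : E → ℝ} : tsupport (stream k ξ g) ⊆ tsupport g := by
  have h : stream k ξ g = (fun x => (dd k g x) • ξ) - (fun x => (dd ξ g x) • k) := rfl
  rw [h]
  refine (tsupport_sub _ _).trans (union_subset ?_ ?_)
  · exact (tsupport_smul_subset_left (dd k g) (fun _ => ξ)).trans (tsupport_dd_subset k)
  · exact (tsupport_smul_subset_left (dd ξ g) (fun _ => k)).trans (tsupport_dd_subset ξ)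

theorem isTest_stream {Ω : Set E} {k ξ : E} {g : E → ℝ} (hg : IsBump Ω g) : IsTest Ω (stream k ξ g) :=
  IsTest.mk (smooth := contDiff_stream hg.1)
    (compact := hg.2.1.mono' (subset_trans (subset_tsupport _) tsupport_stream))
    (supp := tsupport_stream.trans hg.2.2)
    (div := div_stream hg.1)

theorem isBump_gS {Ω : Set E} {N : ℝ} {k : E} {a : E → ℝ} (ha : IsBump Ω a) : IsBump Ω (gS N k a) :=
  ⟨contDiff_gS ha.1, ha.2.1.mono' (subset_trans (subset_tsupport _) tsupport_gS), tsupport_gS.trans ha.2.2⟩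

theorem isTest_sum {Ω : Set E} {n : ℕ} (s : Finset (Fin n)) (F : Fin n → E → E)
    (h : ∀ m, IsTest Ω (F m)) : IsTest Ω (fun x => ∑ m ∈ s, F m x) := by
  induction s using Finset.induction_on with
  | empty => exact (isTest_zero Ω : IsTest Ω (fun _ => (0 : E)))
  | insert i s hi ih =>
    have : (fun x => ∑ m ∈ insert i s, F m x) = F i + fun x => ∑ m ∈ s, F m x := by
      funext x
      simp [Finset.sum_insert hi]
    rw [this]
    exact (h i).add ih

theorem isTest_waveA {Ω : Set E} {n : ℕ} {a : Fin n → E → ℝ} {k ξ : Fin n → E}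
    (ha : ∀ m, IsBump Ω (a m)) (N : ℝ) : IsTest Ω (waveA N a k ξ) :=
  isTest_sum Finset.univ (fun m => stream (k m) (ξ m) (gS N (k m) (a m)))
    fun m => isTest_stream (isBump_gS (ha m))

/-! ### Riemann-Lebesgue -/

theorem riemannLebesgue {S : Set E} (hS : MeasurableSet S) {k : E} (hk : ‖k‖ = 1) (f : E → ℝ)
    (hf : Integrable f (volume.restrict S)) :
    Tendsto (fun N : ℝ => ∫ x in S, Real.sin (N * ⟪k, x⟫) * f x) atTop (𝓝 0) := by
  classical
  set F : E → ℂ := fun x => ((S.indicator f x : ℝ) : ℂ) with hF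
  have h1 := tendsto_integral_exp_inner_smul_cocompact F
  have h2 : Tendsto (fun N : ℝ => (N / (2 * Real.pi)) • k) atTop (cocompact E) := by
    rw [← Metric.cobounded_eq_cocompact, ← tendsto_norm_atTop_iff_cobounded]
    have : (fun N : ℝ => ‖(N / (2 * Real.pi)) • k‖) = fun N : ℝ => |N| / (2 * Real.pi) := by
      funext N
      rw [norm_smul, hk, mul_one, Real.norm_eq_abs, abs_div, abs_of_pos (by positivity : (0 : ℝ) < 2 * Real.pi)]
    rw [this]
    exact (tendsto_abs_atTop_atTop).atTop_div_const (by positivity)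
  have h3 := h1.comp h2
  have h4 := (Complex.continuous_im.tendsto _).comp h3
  have hFi : Integrable F volume := by
    have : Integrable (S.indicator f) volume := (integrable_indicator_iff hS).2 hf
    exact this.ofReal
  have h5 : ∀ N : ℝ, (∫ v : E, (Real.fourierChar (-⟪v, (N / (2 * Real.pi)) • k⟫)) • F v).im
      = - ∫ x in S, Real.sin (N * ⟪k, x⟫) * f x := by
    intro N
    have hi : Integrable (fun v : E => (Real.fourierChar (-⟪v, (N / (2 * Real.pi)) • k⟫)) • F v) volume := by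
      have := (Real.fourierIntegral_convergent_iff (μ := volume) (f := F) ((N / (2 * Real.pi)) • k)).2 hFi
      exact this
    have h6 : (∫ v : E, (Real.fourierChar (-⟪v, (N / (2 * Real.pi)) • k⟫)) • F v).im
        = ∫ v : E, ((Real.fourierChar (-⟪v, (N / (2 * Real.pi)) • k⟫)) • F v).im := by
      have := (Complex.imCLM).integral_comp_comm hi
      simpa using this.symm
    rw [h6, ← integral_neg, ← integral_indicator hS]
    refine integral_congr_ae (Filter.Eventually.of_forall fun v => ?_)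
    have h7 : (Real.fourierChar (-⟪v, (N / (2 * Real.pi)) • k⟫)) • F v
        = Complex.exp (((-(N * ⟪k, v⟫) : ℝ) : ℂ) * Complex.I) * ((S.indicator f v : ℝ) : ℂ) := by
      rw [Circle.smul_def, Real.fourierChar_apply, smul_eq_mul]
      congr 2
      rw [inner_smul_right, real_inner_comm]
      push_cast
      have : (Real.pi : ℂ) ≠ 0 := by exact_mod_cast Real.pi_ne_zero
      field_simp
    simp only [h7]
    rw [Complex.im_mul_ofReal, Complex.exp_ofReal_mul_I_im, Real.sin_neg, indicator_apply, indicator_apply]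
    split_ifs <;> simp
  have h8 : Tendsto (fun N : ℝ => - ∫ x in S, Real.sin (N * ⟪k, x⟫) * f x) atTop (𝓝 0) := by
    refine Tendsto.congr (fun N => ?_) h4
    exact h5 N
  simpa using h8.neg

/-! ### The pairing with elements of `V` -/

theorem finiteMeasure {Ω : Set E} (hb : Bornology.IsBounded Ω) :
    IsFiniteMeasure (volume.restrict Ω) :=
  ⟨by rw [Measure.restrict_apply_univ]; exact hb.measure_lt_top⟩

theorem fld_sub {Ω : Set E} (u v : V Ω) : fld (u - v) = fld u - fld v := rfl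

/-- The function which is paired with `sin (N k·x)`. -/
def Fm {Ω : Set E} (k ξ : E) (φ : V Ω) (x : E) : ℝ :=
  (∑ i : Fin 3, k i * ⟪ξ, (grd φ : E → G) x i⟫) - ∑ i : Fin 3, ξ i * ⟪k, (grd φ : E → G) x i⟫

theorem aux_bound (k ξ : E) (hk : ‖k‖ = 1) (hξ : ‖ξ‖ = 1) (g : G) :
    |∑ i : Fin 3, k i * ⟪ξ, g i⟫| ≤ 3 * ‖g‖ := by
  have h1 : ∀ i : Fin 3, |k i * ⟪ξ, g i⟫| ≤ ‖g‖ := by
    intro i
    rw [abs_mul]
    have h2 : |k i| ≤ 1 := by
      have := PiLp.norm_apply_le k i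
      rw [Real.norm_eq_abs] at this
      linarith
    have h3 : |⟪ξ, g i⟫| ≤ ‖g‖ := by
      have h4 := abs_real_inner_le_norm ξ (g i)
      have h5 := PiLp.norm_apply_le g i
      rw [hξ, one_mul] at h4
      exact h4.trans h5
    calc |k i| * |⟪ξ, g i⟫| ≤ 1 * ‖g‖ := mul_le_mul h2 h3 (abs_nonneg _) zero_le_one
      _ = ‖g‖ := one_mul _
  calc |∑ i : Fin 3, k i * ⟪ξ, g i⟫| ≤ ∑ i : Fin 3, |k i * ⟪ξ, g i⟫| := Finset.abs_sum_le_sum_abs _ _
    _ ≤ ∑ _i : Fin 3, ‖g‖ := Finset.sum_le_sum fun i _ => h1 i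
    _ = 3 * ‖g‖ := by simp

theorem abs_Fm_le {Ω : Set E} {k ξ : E} (hk : ‖k‖ = 1) (hξ : ‖ξ‖ = 1) (φ : V Ω) (x : E) :
    |Fm k ξ φ x| ≤ 6 * ‖(grd φ : E → G) x‖ := by
  unfold Fm
  have h1 := aux_bound k ξ hk hξ ((grd φ : E → G) x)
  have h2 := aux_bound ξ k hξ hk ((grd φ : E → G) x)
  have h3 := abs_sub (∑ i : Fin 3, k i * ⟪ξ, (grd φ : E → G) x i⟫) (∑ i : Fin 3, ξ i * ⟪k, (grd φ : E → G) x i⟫)
  linarith

theorem aux_meas {Ω : Set E} (k ξ : E) (φ : V Ω) :
    AEStronglyMeasurable (fun x => ∑ i : Fin 3, k i * ⟪ξ, (grd φ : E → G) x i⟫) (volume.restrict Ω) := by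
  have hc : Continuous (fun g : G => ∑ i : Fin 3, k i * ⟪ξ, g i⟫) := by fun_prop
  exact hc.comp_aestronglyMeasurable (Lp.aestronglyMeasurable (grd φ))

theorem grd_integrable {Ω : Set E} [IsFiniteMeasure (volume.restrict Ω)] (φ : V Ω) :
    Integrable (grd φ : E → G) (volume.restrict Ω) :=
  (Lp.memLp (grd φ)).integrable (by norm_num)

theorem fld_integrable {Ω : Set E} [IsFiniteMeasure (volume.restrict Ω)] (φ : V Ω) :
    Integrable (fld φ : E → E) (volume.restrict Ω) :=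
  (Lp.memLp (fld φ)).integrable (by norm_num)

theorem aux_integrable {Ω : Set E} [IsFiniteMeasure (volume.restrict Ω)] {k ξ : E} (hk : ‖k‖ = 1)
    (hξ : ‖ξ‖ = 1) (φ : V Ω) :
    Integrable (fun x => ∑ i : Fin 3, k i * ⟪ξ, (grd φ : E → G) x i⟫) (volume.restrict Ω) := by
  refine Integrable.mono' ((grd_integrable φ).norm.const_mul 3) (aux_meas k ξ φ) ?_
  exact Filter.Eventually.of_forall fun x => aux_bound k ξ hk hξ _

theorem Fm_integrable {Ω : Set E} [IsFiniteMeasure (volume.restrict Ω)] {k ξ : E} (hk : ‖k‖ = 1)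
    (hξ : ‖ξ‖ = 1) (φ : V Ω) : Integrable (Fm k ξ φ) (volume.restrict Ω) :=
  (aux_integrable hk hξ φ).sub (aux_integrable hξ hk φ)

theorem bump_bound {Ω : Set E} {g : E → ℝ} (hg : IsBump Ω g) : ∃ A : ℝ, 0 ≤ A ∧ ∀ x, |g x| ≤ A := by
  obtain ⟨A, hA⟩ := hg.1.continuous.bounded_above_of_compact_support hg.2.1
  exact ⟨A, (norm_nonneg _).trans (hA 0), fun x => hA x⟩

theorem mul_integrable {Ω : Set E} {h f : E → ℝ} (hc : Continuous h) (hs : HasCompactSupport h)
    (hf : Integrable f (volume.restrict Ω)) : Integrable (fun x => h x * f x) (volume.restrict Ω) := by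
  obtain ⟨A, hA⟩ := hc.bounded_above_of_compact_support hs
  exact hf.bdd_mul (c := A) hc.aestronglyMeasurable (Filter.Eventually.of_forall hA)

theorem isBump_dd {Ω : Set E} {g : E → ℝ} (hg : IsBump Ω g) (v : E) : IsBump Ω (dd v g) :=
  ⟨contDiff_dd v hg.1, hg.2.1.mono' (subset_trans (subset_tsupport _) (tsupport_dd_subset v)),
    (tsupport_dd_subset v).trans hg.2.2⟩

theorem pair_stream (hP : Stmt_PairXi) {Ω : Set E} (hΩ : IsOpen Ω) (hb : Bornology.IsBounded Ω)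
    {k ξ : E} (hk : ‖k‖ = 1) (hξ : ‖ξ‖ = 1) {g : E → ℝ} (hg : IsBump Ω g) (φ : V Ω) :
    ∫ x in Ω, ⟪stream k ξ g x, (fld φ : E → E) x⟫ = - ∫ x in Ω, g x * Fm k ξ φ x := by
  have := finiteMeasure hb
  have h1 := hP Ω hΩ hb g k ξ hg φ
  have h2 := hP Ω hΩ hb g ξ k hg φ
  have hi : ∀ (v ζ : E), Integrable (fun x => dd v g x * ⟪ζ, (fld φ : E → E) x⟫) (volume.restrict Ω) := by
    intro v ζ
    have hb' := isBump_dd hg v
    exact mul_integrable hb'.1.continuous hb'.2.1 ((fld_integrable φ).const_inner ζ)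
  have hj : ∀ {v ζ : E}, ‖v‖ = 1 → ‖ζ‖ = 1 →
      Integrable (fun x => g x * ∑ i : Fin 3, v i * ⟪ζ, (grd φ : E → G) x i⟫) (volume.restrict Ω) := by
    intro v ζ hv hζ
    exact mul_integrable hg.1.continuous hg.2.1 (aux_integrable hv hζ φ)
  have h3 : ∫ x in Ω, ⟪stream k ξ g x, (fld φ : E → E) x⟫
      = (∫ x in Ω, dd k g x * ⟪ξ, (fld φ : E → E) x⟫) - ∫ x in Ω, dd ξ g x * ⟪k, (fld φ : E → E) x⟫ := by
    rw [← integral_sub (hi k ξ) (hi ξ k)]
    refine integral_congr_ae (Filter.Eventually.of_forall fun x => ?_)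
    simp only [stream]
    rw [inner_sub_left, real_inner_smul_left, real_inner_smul_left]
  have h4 : ∫ x in Ω, g x * Fm k ξ φ x
      = (∫ x in Ω, g x * ∑ i : Fin 3, k i * ⟪ξ, (grd φ : E → G) x i⟫)
        - ∫ x in Ω, g x * ∑ i : Fin 3, ξ i * ⟪k, (grd φ : E → G) x i⟫ := by
    rw [← integral_sub (hj hk hξ) (hj hξ hk)]
    refine integral_congr_ae (Filter.Eventually.of_forall fun x => ?_)
    simp only [Fm]
    ring
  rw [h3, h4, h1, h2]
  ring

/-- The pairing of the wave field with `φ`. -/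
theorem pair_wave (hP : Stmt_PairXi) {Ω : Set E} (hΩ : IsOpen Ω) (hb : Bornology.IsBounded Ω)
    {n : ℕ} {a : Fin n → E → ℝ} {k ξ : Fin n → E} (ha : ∀ m, IsBump Ω (a m))
    (hk : ∀ m, ‖k m‖ = 1) (hξ : ∀ m, ‖ξ m‖ = 1) (N : ℝ) (p φ : V Ω)
    (hp : Represents Ω (waveA N a k ξ) p) :
    ⟪fld p, fld φ⟫ = - ∑ m, ∫ x in Ω, Real.sin (N * ⟪k m, x⟫) * (a m x * Fm (k m) (ξ m) φ x) := by
  have := finiteMeasure hb
  have h1 : ⟪fld p, fld φ⟫ = ∫ x in Ω, ⟪waveA N a k ξ x, (fld φ : E → E) x⟫ := by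
    rw [L2.inner_def]
    refine integral_congr_ae ?_
    filter_upwards [hp.1] with x hx
    have : (fld p : E → E) x = waveA N a k ξ x := hx
    rw [this]
  rw [h1]
  have h2 : ∀ m, Integrable (fun x => ⟪stream (k m) (ξ m) (gS N (k m) (a m)) x, (fld φ : E → E) x⟫)
      (volume.restrict Ω) := by
    intro m
    have ht := isTest_stream (k := k m) (ξ := ξ m) (isBump_gS (N := N) (k := k m) (ha m))
    obtain ⟨A, hA⟩ := ht.continuous.bounded_above_of_compact_support ht.compact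
    refine Integrable.mono' ((fld_integrable φ).norm.const_mul A)
      (ht.continuous.aestronglyMeasurable.inner (fld_integrable φ).1) ?_
    refine Filter.Eventually.of_forall fun x => ?_
    exact (norm_inner_le_norm _ _).trans (mul_le_mul_of_nonneg_right (hA x) (norm_nonneg _))
  have h3 : ∫ x in Ω, ⟪waveA N a k ξ x, (fld φ : E → E) x⟫
      = ∑ m, ∫ x in Ω, ⟪stream (k m) (ξ m) (gS N (k m) (a m)) x, (fld φ : E → E) x⟫ := by
    rw [← integral_finsetSum _ fun m _ => h2 m]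
    refine integral_congr_ae (Filter.Eventually.of_forall fun x => ?_)
    simp only [waveA]
    rw [sum_inner]
  rw [h3, ← Finset.sum_neg_distrib]
  refine Finset.sum_congr rfl fun m _ => ?_
  rw [pair_stream hP hΩ hb (hk m) (hξ m) (isBump_gS (ha m))]
  congr 1
  refine integral_congr_ae (Filter.Eventually.of_forall fun x => ?_)
  simp only [gS]
  ring

theorem int_norm_le {Ω : Set E} [IsFiniteMeasure (volume.restrict Ω)] : ∃ c : ℝ, 0 ≤ c ∧
    ∀ φ : V Ω, ∫ x in Ω, ‖(grd φ : E → G) x‖ ≤ c * ‖φ‖ := by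
  refine ⟨(volume.restrict Ω univ ^ (1 / 2 : ℝ)).toReal, ENNReal.toReal_nonneg, fun φ => ?_⟩
  have h1 := eLpNorm_le_eLpNorm_mul_rpow_measure_univ (μ := volume.restrict Ω) (p := 1) (q := 2)
    (f := (grd φ : E → G)) (by norm_num) (Lp.aestronglyMeasurable (grd φ))
  have h2 : (volume.restrict Ω) univ ≠ ⊤ := measure_ne_top _ _
  have h3 : ∫ x in Ω, ‖(grd φ : E → G) x‖ = (eLpNorm (grd φ : E → G) 1 (volume.restrict Ω)).toReal := by
    rw [eLpNorm_one_eq_lintegral_enorm, integral_norm_eq_lintegral_enorm (Lp.aestronglyMeasurable (grd φ))]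
  have h4 : ‖grd φ‖ ≤ ‖φ‖ := by
    have := WithLp.prod_norm_eq_of_L2 (φ : H1 Ω)
    have h5 : ‖φ‖ = ‖(φ : H1 Ω)‖ := rfl
    rw [h5, this]
    exact Real.le_sqrt_of_sq_le (by have := sq_nonneg ‖(φ : H1 Ω).fst‖; unfold grd; linarith)
  rw [h3]
  have h6 : eLpNorm (grd φ : E → G) 2 (volume.restrict Ω) ≠ ⊤ := (Lp.memLp (grd φ)).2.ne
  calc (eLpNorm (grd φ : E → G) 1 (volume.restrict Ω)).toReal
      ≤ (eLpNorm (grd φ : E → G) 2 (volume.restrict Ω)
        * (volume.restrict Ω) univ ^ (1 / 2 : ℝ)).toReal := by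
        refine ENNReal.toReal_mono (ENNReal.mul_ne_top h6 (ENNReal.rpow_ne_top_of_nonneg (by norm_num) h2)) ?_
        refine h1.trans (le_of_eq ?_)
        norm_num
    _ = ‖grd φ‖ * ((volume.restrict Ω) univ ^ (1 / 2 : ℝ)).toReal := by
        rw [ENNReal.toReal_mul]; rfl
    _ ≤ ((volume.restrict Ω) univ ^ (1 / 2 : ℝ)).toReal * ‖φ‖ := by
        rw [mul_comm]
        exact mul_le_mul_of_nonneg_left h4 ENNReal.toReal_nonneg

/-- Uniform bound for the pairing. -/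
theorem pair_bound (hP : Stmt_PairXi) {Ω : Set E} (hΩ : IsOpen Ω) (hb : Bornology.IsBounded Ω)
    {n : ℕ} {a : Fin n → E → ℝ} {k ξ : Fin n → E} (ha : ∀ m, IsBump Ω (a m))
    (hk : ∀ m, ‖k m‖ = 1) (hξ : ∀ m, ‖ξ m‖ = 1) : ∃ C : ℝ, 0 ≤ C ∧ ∀ (N : ℝ) (p φ : V Ω),
      Represents Ω (waveA N a k ξ) p → |⟪fld p, fld φ⟫| ≤ C * ‖φ‖ := by
  have := finiteMeasure hb
  obtain ⟨c, hc, hc'⟩ := int_norm_le (Ω := Ω)
  choose A hA hA' using fun m => bump_bound (ha m)
  refine ⟨∑ m, A m * (6 * c), Finset.sum_nonneg fun m _ => mul_nonneg (hA m) (by positivity), ?_⟩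
  intro N p φ hp
  rw [pair_wave hP hΩ hb ha hk hξ N p φ hp, abs_neg, Finset.sum_mul]
  refine (Finset.abs_sum_le_sum_abs _ _).trans (Finset.sum_le_sum fun m _ => ?_)
  rw [← Real.norm_eq_abs]
  have h1 : ∀ x, ‖Real.sin (N * ⟪k m, x⟫) * (a m x * Fm (k m) (ξ m) φ x)‖
      ≤ A m * 6 * ‖(grd φ : E → G) x‖ := by
    intro x
    rw [norm_mul, norm_mul, Real.norm_eq_abs, Real.norm_eq_abs, Real.norm_eq_abs]
    have h2 := Real.abs_sin_le_one (N * ⟪k m, x⟫)
    have h3 := abs_Fm_le (hk m) (hξ m) φ x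
    calc |Real.sin (N * ⟪k m, x⟫)| * (|a m x| * |Fm (k m) (ξ m) φ x|)
        ≤ 1 * (A m * (6 * ‖(grd φ : E → G) x‖)) :=
          mul_le_mul h2 (mul_le_mul (hA' m x) h3 (abs_nonneg _) (hA m))
            (mul_nonneg (abs_nonneg _) (abs_nonneg _)) zero_le_one
      _ = A m * 6 * ‖(grd φ : E → G) x‖ := by ring
  refine (norm_integral_le_of_norm_le ((grd_integrable φ).norm.const_mul (A m * 6))
    (Filter.Eventually.of_forall h1)).trans ?_
  rw [integral_const_mul]
  have h4 := hc' φ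
  calc A m * 6 * ∫ x in Ω, ‖(grd φ : E → G) x‖ ≤ A m * 6 * (c * ‖φ‖) :=
        mul_le_mul_of_nonneg_left h4 (mul_nonneg (hA m) (by norm_num))
    _ = A m * (6 * c) * ‖φ‖ := by ring

/-- Pointwise convergence of the pairing. -/
theorem pair_tendsto {Ω : Set E} (hΩ : IsOpen Ω) (hb : Bornology.IsBounded Ω)
    {n : ℕ} {a : Fin n → E → ℝ} {k ξ : Fin n → E} (ha : ∀ m, IsBump Ω (a m))
    (hk : ∀ m, ‖k m‖ = 1) (hξ : ∀ m, ‖ξ m‖ = 1) (φ : V Ω) :
    Tendsto (fun N : ℝ => - ∑ m, ∫ x in Ω, Real.sin (N * ⟪k m, x⟫) * (a m x * Fm (k m) (ξ m) φ x))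
      atTop (𝓝 0) := by
  have := finiteMeasure hb
  have h1 : Tendsto (fun N : ℝ => ∑ m, ∫ x in Ω, Real.sin (N * ⟪k m, x⟫) * (a m x * Fm (k m) (ξ m) φ x))
      atTop (𝓝 (∑ _m : Fin n, (0 : ℝ))) := by
    refine tendsto_finsetSum _ fun m _ => ?_
    exact riemannLebesgue hΩ.measurableSet (hk m) _
      (mul_integrable (ha m).1.continuous (ha m).2.1 (Fm_integrable (hk m) (hξ m) φ))
  simpa using h1.neg

end Weak

/-- WT. -/
theorem weak_proof (hP : Stmt_PairXi) : Stmt_Weak := by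
  intro Ω hΩ hb η n a k ξ q G hK
  refine ⟨fun N => Weak.isTest_waveA hK.bump N, ?_⟩
  intro K ε hKc hε
  obtain ⟨C, hC, hC'⟩ := Weak.pair_bound hP hΩ hb hK.bump hK.k_unit hK.ξ_unit
  have hr : 0 < ε / (2 * (C + 1)) := by positivity
  obtain ⟨t, -, htf, hcov⟩ := hKc.finite_cover_balls hr
  have hev : ∀ᶠ N : ℝ in atTop, ∀ y ∈ t, |(- ∑ m, ∫ x in Ω, Real.sin (N * ⟪k m, x⟫)
      * (a m x * Weak.Fm (k m) (ξ m) y x))| ≤ ε / 2 := by
    refine (Filter.eventually_all_finite htf).2 fun y _ => ?_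
    have h1 := Weak.pair_tendsto hΩ hb hK.bump hK.k_unit hK.ξ_unit y
    have h2 := (tendsto_order.1 h1.abs).2 (ε / 2) (by simpa using half_pos hε)
    exact h2.mono fun N hN => hN.le
  obtain ⟨N₀, hN₀⟩ := Filter.eventually_atTop.1 hev
  refine ⟨N₀, fun N hN p hp φ hφ => ?_⟩
  obtain ⟨y, hy, hy'⟩ := mem_iUnion₂.1 (hcov hφ)
  have h1 := hN₀ N hN y hy
  rw [← Weak.pair_wave hP hΩ hb hK.bump hK.k_unit hK.ξ_unit N p y hp] at h1
  have h2 := hC' N p (φ - y) hp
  have h3 : ⟪fld p, fld φ⟫ = ⟪fld p, fld (φ - y)⟫ + ⟪fld p, fld y⟫ := by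
    rw [Weak.fld_sub, inner_sub_right]; ring
  have h4 : ‖φ - y‖ ≤ ε / (2 * (C + 1)) := by
    rw [← dist_eq_norm]; exact (Metric.mem_ball.1 hy').le
  have h5 : C * ‖φ - y‖ ≤ ε / 2 := by
    calc C * ‖φ - y‖ ≤ (C + 1) * (ε / (2 * (C + 1))) :=
          mul_le_mul (by linarith) h4 (norm_nonneg _) (by linarith)
      _ = ε / 2 := by field_simp
  rw [h3]
  calc |⟪fld p, fld (φ - y)⟫ + ⟪fld p, fld y⟫| ≤ |⟪fld p, fld (φ - y)⟫| + |⟪fld p, fld y⟫| := abs_add_le _ _
    _ ≤ ε / 2 + ε / 2 := by linarith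
    _ = ε := by ring

end Pool.Agent.NSK
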