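import Pool.Agent.NSK.FinalJ
import Pool.Agent.NSK.Layer
import Pool.Agent.NSK.Base
import Pool.Agent.NSK.KLimit
import Pool.Agent.NSK.KDense
import Pool.Agent.NSK.Weak
import Pool.Agent.NSK.CompatTest
import Pool.Agent.NSK.Data
import Pool.Agent.NSK.E1
import Pool.Agent.NSK.E2
import Pool.Agent.NSK.E3
import Pool.Agent.NSK.EnergyId
import Pool.Agent.NSK.GronwallInt
import Pool.Agent.NSK.Lap
import Pool.Agent.NSK.Adv
import Pool.Agent.NSK.Grad
import Pool.Agent.NSK.Star
import Pool.Agent.NSK.WBd
import Pool.Agent.NSK.R1
import Pool.Agent.NSK.R2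
import Pool.Agent.NSK.R14
import Pool.Agent.NSK.R4
import Pool.Agent.NSK.RAB
import Pool.Agent.NSK.Scale
import Pool.Agent.NSK.Cone
import Pool.Agent.NSK.PairXi
import Pool.Agent.NSK.Profile
import Pool.Agent.NSD.MainProof

/-!
# MP_fd8964_an, weak density: the theorem over the definitions of `Pool.Agent.NSD.Defs`
-/

namespace Pool.Agent.NSK

open Pool.Agent.NSD

theorem abstract_all : Stmt_Abstract :=
  abstract_proof voigtExists_proof energy_proof deriv_proof
    (limit_proof deriv_proof diff_proof energy_proof lam_proof) weakLimit_proof glue_proof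

theorem e1_all : Stmt_E1 := e1_proof energyId_proof gronwallInt_proof

theorem e3_all : Stmt_E3 := e3_proof e1_all (e2_proof energyId_proof gronwallInt_proof e1_all)

theorem full_all : Stmt_Full := full_proof abstract_all e1_all e3_all (unif_proof energyId_proof gronwallInt_proof)

theorem layer_all : Stmt_Layer :=
  layer_proof star_proof lap_proof adv_proof grad_proof wBd_proof r1_proof r2_proof r14_proof r4_proof rAB_proof

theorem kDense_all : Stmt_KDense :=
  kDense_proof (kLimit_proof pairXi_proof grad_proof scale_proof (base_proof profile_proof)) cone_proof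

theorem finalJ_of' (hS : Stmt_SmoothE) : Stmt_FinalJ :=
  finalJ_of data_proof full_all (e4_proof hS) layer_all (compatTest_proof lap_proof adv_proof)
    (weak_proof pairXi_proof) kDense_all

end Pool.Agent.NSK
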