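import Pool.Agent.NSK.Wave

open MeasureTheory Set Filter Topology
open scoped RealInnerProductSpace ContDiff

noncomputable section

namespace Pool.Agent.NSK

open Pool.Agent.NSD

namespace R2

/-- `-η N² A - η Δ A` for a wave. -/
theorem heat_Wv {F : Type*} [NormedAddCommGroup F] [NormedSpace ℝ F] (η N : ℝ) {k : E} (x : E) (hk : ‖k‖ = 1)
    {p q : E → F} (hp : IsBV p) (hq : IsBV q) :
    (-(η * N ^ 2)) • Wv N k p q x - η • lap (Wv N k p q) x
      = Real.sin (N * ⟪k, x⟫) • ((2 * η * N) • dd k q x - η • lap p x)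
        + Real.cos (N * ⟪k, x⟫) • (-((2 * η * N) • dd k p x) - η • lap q x) := by
  rw [lap_Wv N k x hk hp hq]
  unfold Wv
  module

theorem lap_const_smul {F : Type*} [NormedAddCommGroup F] [NormedSpace ℝ F] {p : E → F} (hp : IsBV p) (c : ℝ) (x : E) :
    lap (fun y => c • p y) x = c • lap p x := by
  unfold lap
  rw [Finset.smul_sum]
  refine Finset.sum_congr rfl fun i _ => ?_
  have : dd (e i) (fun y => c • p y) = fun y => c • dd (e i) p y := by
    funext y
    exact dd_const_smul _ _ _ (hp.diffAt y)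
  rw [this, dd_const_smul _ _ _ ((hp.dd (e i)).diffAt x)]

end R2

open R2 in
theorem r2_proof : Stmt_R2 := by
  intro η k ξ c hη hk hξ hkξ hc
  have hc' : IsBV c := hc.isBV
  have hsc : IsBV (stream k ξ c) := hc'.stream k ξ
  have hcξ : IsBV (fun y => c y • ξ) := hc'.smul_const ξ
  obtain ⟨C1, hC1, b1⟩ := (hsc.dd k).bound
  obtain ⟨C2, hC2, b2⟩ := hcξ.lap.bound
  obtain ⟨C3, hC3, b3⟩ := (hcξ.dd k).bound
  obtain ⟨C4, hC4, b4⟩ := hsc.lap.bound
  refine ⟨2 * η * C1 + η * C2 + 2 * η * C3 + η * C4, by positivity, fun N hN x => ?_⟩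
  have hNpos : 0 < N := by linarith
  have hinv : 1 / N ≤ 1 := by rw [div_le_one hNpos]; exact hN
  have hinv0 : 0 ≤ 1 / N := by positivity
  rw [stream_gC N (ne_of_gt hNpos) hk hkξ hc', heat_Wv η N x hk hcξ (hsc.const_smul (-(1 / N))),
    lap_const_smul hsc, dd_const_smul _ _ _ (hsc.diffAt x)]
  refine (norm_sc_le _ _ _).trans ?_
  have e1 : ‖(2 * η * N) • (-(1 / N)) • dd k (stream k ξ c) x‖ ≤ 2 * η * C1 := by
    rw [smul_smul, show (2 * η * N) * (-(1 / N)) = -(2 * η) by field_simp, norm_smul, Real.norm_eq_abs, abs_neg,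
      abs_of_pos (by positivity)]
    exact mul_le_mul_of_nonneg_left (b1 x) (by positivity)
  have e2 : ‖η • lap (fun y => c y • ξ) x‖ ≤ η * C2 := by
    rw [norm_smul, Real.norm_eq_abs, abs_of_pos hη]
    exact mul_le_mul_of_nonneg_left (b2 x) hη.le
  have e3 : ‖(2 * η * N) • dd k (fun y => c y • ξ) x‖ ≤ 2 * η * N * C3 := by
    rw [norm_smul, Real.norm_eq_abs, abs_of_pos (by positivity)]
    exact mul_le_mul_of_nonneg_left (b3 x) (by positivity)
  have e4 : ‖η • (-(1 / N)) • lap (stream k ξ c) x‖ ≤ η * C4 := by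
    rw [norm_smul, norm_smul, Real.norm_eq_abs, Real.norm_eq_abs, abs_of_pos hη, abs_neg, abs_of_nonneg hinv0]
    refine mul_le_mul_of_nonneg_left ?_ hη.le
    calc 1 / N * ‖lap (stream k ξ c) x‖ ≤ 1 * C4 := mul_le_mul hinv (b4 x) (norm_nonneg _) (by norm_num)
      _ = C4 := one_mul _
  have f1 := norm_sub_le ((2 * η * N) • (-(1 / N)) • dd k (stream k ξ c) x) (η • lap (fun y => c y • ξ) x)
  have f2 := norm_sub_le (-((2 * η * N) • dd k (fun y => c y • ξ) x)) (η • (-(1 / N)) • lap (stream k ξ c) x)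
  rw [norm_neg] at f2
  have m : ∀ {C : ℝ}, 0 ≤ C → C ≤ C * N := fun {C} hC => by nlinarith
  have m1 := m (C := 2 * η * C1) (by positivity)
  have m2 := m (C := η * C2) (by positivity)
  have m4 := m (C := η * C4) (by positivity)
  linarith

end Pool.Agent.NSK
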