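import Pool.Agent.NSD.Sealed

/-!
# MP_fd8964_an: further definitions used in the statement on initial data, over `Pool.Agent.NSD.Sealed`
-/

open MeasureTheory Set Filter Topology
open scoped RealInnerProductSpace ContDiff

noncomputable section

namespace Pool.Agent.NSKS

open Pool.Agent.NSDS

/-- `u₀ ∈ 𝒱`: the element `u₀` of `V` is a smooth divergence free field with compact support in `Ω`. -/
def IsSmooth {Ω : Set R3} (u₀ : V Ω) : Prop :=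
  ∃ v : R3 → R3, IsTest Ω v ∧ (fn (fld u₀) =ᵐ[volume.restrict Ω] v ∧
    gfn (grd u₀) =ᵐ[volume.restrict Ω] gradField v)

/-- `u` is, on the time interval `J` (starting at `0`), a solution of the Navier-Stokes system in `Ω` with viscosity
`η`, force `f` and initial value `u(0)`, and `w = ∂ₜu ∈ L²(J;V) ∩ L^∞(J;H)`, `∇u ∈ L^∞(J;L²) ∩ L⁴(J;L²)`. -/
def IsRegularOn (Ω : Set R3) (η : ℝ) (J : Set ℝ) (f : ℝ → (V Ω →L[ℝ] ℝ)) (u : ℝ → V Ω) : Prop :=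
  ∃ w : ℝ → V Ω,
    MemLp w 2 (volume.restrict J) ∧
    (∃ C : ℝ, ∀ᵐ t ∂(volume.restrict J), ‖fld (w t)‖ ≤ C) ∧
    (∀ t ∈ J, u t = u 0 + ∫ s in (0 : ℝ)..t, w s) ∧
    (∃ C : ℝ, ∀ t ∈ J, ‖grd (u t)‖ ≤ C) ∧
    IntegrableOn (fun t => ‖grd (u t)‖ ^ 4) J ∧
    ∀ᵐ t ∂(volume.restrict J), ∀ v : V Ω,
      ⟪fld (w t), fld v⟫ + trilin (u t) (u t) v + η * ⟪grd (u t), grd v⟫ = f t v

end Pool.Agent.NSKS
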