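import Pool.Agent.NSK.EnergyId

/-!
# MP_fd8964_an, module `Small`
-/

open MeasureTheory Set Filter Topology
open scoped RealInnerProductSpace

noncomputable section

set_option maxSynthPendingDepth 3

namespace Pool.Agent.NSK

open Pool.Agent.NSD

namespace Small

/-- continuous extension -/
lemma exists_ext {s T : ℝ} (hT : s ≤ T) {f : ℝ → ℝ} (hf : ContinuousOn f (Icc s T)) :
    ∃ g : ℝ → ℝ, Continuous g ∧ ∀ t ∈ Icc s T, g t = f t := by
  refine ⟨IccExtend hT ((Icc s T).domRestrict f), ?_, ?_⟩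
  · exact (continuousOn_iff_continuous_domRestrict.1 hf).Icc_extend'
  · intro t ht
    rw [IccExtend_of_mem hT _ ht]
    rfl

/-- exponential decay from the integral inequality between all pairs of times -/
lemma decay {y : ℝ → ℝ} {s T k : ℝ} (hk : 0 ≤ k) (hyc : ContinuousOn y (Icc s T))
    (h : ∀ a b, s ≤ a → a ≤ b → b ≤ T → y b ≤ y a - k * ∫ r in a..b, y r) :
    ∀ t ∈ Icc s T, y t ≤ y s * Real.exp (-(k * (t - s))) := by
  intro t ht
  have hsT : s ≤ T := ht.1.trans ht.2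
  obtain ⟨ye, hyec, hye⟩ := exists_ext hsT hyc
  set I : ℝ → ℝ := fun r => ∫ q in s..r, ye q with hI
  have dI : ∀ r, HasDerivAt I (ye r) r := fun r =>
    intervalIntegral.integral_hasDerivAt_right (hyec.intervalIntegrable _ _)
      (hyec.stronglyMeasurableAtFilter _ _) hyec.continuousAt
  have hI0 : I s = 0 := intervalIntegral.integral_same
  -- the nonincreasing function
  have hy2 : ∀ a b, s ≤ a → a ≤ b → b ≤ T → y b + k * I b ≤ y a + k * I a := by
    intro a b ha hab hb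
    have h1 := h a b ha hab hb
    have h2 : (∫ r in a..b, y r) = I b - I a := by
      simp only [hI]
      rw [intervalIntegral.integral_interval_sub_left (hyec.intervalIntegrable _ _)
        (hyec.intervalIntegrable _ _)]
      refine intervalIntegral.integral_congr (fun r hr => ?_)
      rw [uIcc_of_le hab] at hr
      exact (hye r ⟨ha.trans hr.1, hr.2.trans hb⟩).symm
    rw [h2] at h1
    linarith
  set c : ℝ := y t + k * I t with hc
  set φ : ℝ → ℝ := fun r => k * (Real.exp (k * r) * I r) - c * Real.exp (k * r) with hφ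
  have dE : ∀ r, HasDerivAt (fun r => Real.exp (k * r)) (Real.exp (k * r) * k) r := fun r => by
    have := ((hasDerivAt_id r).const_mul k).exp
    simpa using this
  have dφ : ∀ r, HasDerivAt φ (k * (Real.exp (k * r) * k * I r + Real.exp (k * r) * ye r) -
      c * (Real.exp (k * r) * k)) r := fun r =>
    (((dE r).mul (dI r)).const_mul k).sub ((dE r).const_mul c)
  have hmono : MonotoneOn φ (Icc s t) := by
    refine monotoneOn_of_deriv_nonneg (convex_Icc s t) ?_ ?_ ?_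
    · exact fun r _ => (dφ r).continuousAt.continuousWithinAt
    · exact fun r _ => (dφ r).differentiableAt.differentiableWithinAt
    · intro r hr
      rw [interior_Icc] at hr
      rw [(dφ r).deriv]
      have h1 := hy2 r t hr.1.le hr.2.le ht.2
      have h2 : ye r = y r := hye r ⟨hr.1.le, hr.2.le.trans ht.2⟩
      have h3 : 0 ≤ k * Real.exp (k * r) := by positivity
      have h4 : 0 ≤ k * Real.exp (k * r) * ((y r + k * I r) - c) := mul_nonneg h3 (by
        rw [hc]; linarith)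
      rw [h2]
      nlinarith
  have h5 := hmono (left_mem_Icc.mpr ht.1) (right_mem_Icc.mpr ht.1) ht.1
  simp only [hφ] at h5
  rw [hI0] at h5
  have h6 := hy2 s t le_rfl ht.1 ht.2
  rw [hI0] at h6
  have h7 : Real.exp (k * t) * y t ≤ c * Real.exp (k * s) := by
    rw [hc] at h5 ⊢
    nlinarith
  have h8 : c * Real.exp (k * s) ≤ y s * Real.exp (k * s) := by
    have : c ≤ y s := by rw [hc]; linarith
    have := Real.exp_pos (k * s)
    nlinarith
  have h9 : Real.exp (-(k * (t - s))) = Real.exp (k * s) / Real.exp (k * t) := by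
    rw [← Real.exp_sub]; congr 1; ring
  rw [h9, ← mul_div_assoc, le_div_iff₀ (Real.exp_pos _)]
  linarith

section
variable {X : Type*} [NormedAddCommGroup X] [NormedSpace ℝ X] {x x₁ y y₁ : ℝ → X}

lemma h1_sub (hx : IsH1loc x x₁) (hy : IsH1loc y y₁) :
    IsH1loc (fun t => x t - y t) (fun t => x₁ t - y₁ t) := by
  refine ⟨fun T => (hx.memLp T).sub (hy.memLp T), fun t ht => ?_⟩
  rw [intervalIntegral.integral_sub (hx.intervalIntegrable le_rfl ht)
    (hy.intervalIntegrable le_rfl ht), hx.eq t ht, hy.eq t ht]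
  abel

lemma h1_shift (hx : IsH1loc x x₁) {h : ℝ} (hh : 0 ≤ h) :
    IsH1loc (fun t => x (t + h)) (fun t => x₁ (t + h)) := by
  refine ⟨fun T => ?_, fun t ht => ?_⟩
  · have h1 := (measurePreserving_add_right (volume : Measure ℝ) h).restrict_preimage
      (measurableSet_Ioc (a := h) (b := T + h))
    have h2 : (fun t => t + h) ⁻¹' Ioc h (T + h) = Ioc 0 T := by
      ext t
      simp
    rw [h2] at h1
    have h3 : MemLp x₁ 2 (volume.restrict (Ioc h (T + h))) :=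
      (hx.memLp (T + h)).mono_measure (Measure.restrict_mono (Ioc_subset_Ioc hh le_rfl) le_rfl)
    exact h3.comp_measurePreserving h1
  · have h1 := hx.sub_eq hh (by linarith : 0 ≤ t + h)
    have h2 : (∫ s in (0 : ℝ)..t, x₁ (s + h)) = ∫ r in h..(t + h), x₁ r := by
      rw [intervalIntegral.integral_comp_add_right]
      simp
    simp only [zero_add]
    rw [h2, ← h1]
    abel

end

section
variable {V K : Type} [NormedAddCommGroup V] [InnerProductSpace ℝ V] [CompleteSpace V]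
    [NormedAddCommGroup K] [InnerProductSpace ℝ K] (D : Data V K)

/-- trilinear bound in terms of `sig` -/
lemma b_le (x y z : V) :
    |D.b x y z| ≤ ‖D.b‖ / (√D.c₀) ^ 3 * D.sig x * D.sig y * D.sig z := by
  have hc : 0 < √D.c₀ := Real.sqrt_pos.mpr D.c₀_pos
  have h1 : |D.b x y z| ≤ ‖D.b‖ * ‖x‖ * ‖y‖ * ‖z‖ := by
    rw [← Real.norm_eq_abs]
    refine ((D.b x y).le_opNorm z).trans ?_
    gcongr
    refine ((D.b x).le_opNorm y).trans ?_
    gcongr
    exact D.b.le_opNorm x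
  have hx : ‖x‖ ≤ D.sig x / √D.c₀ := by
    rw [le_div_iff₀ hc, mul_comm]; exact D.norm_le_sig x
  have hy : ‖y‖ ≤ D.sig y / √D.c₀ := by
    rw [le_div_iff₀ hc, mul_comm]; exact D.norm_le_sig y
  have hz : ‖z‖ ≤ D.sig z / √D.c₀ := by
    rw [le_div_iff₀ hc, mul_comm]; exact D.norm_le_sig z
  calc |D.b x y z| ≤ ‖D.b‖ * ‖x‖ * ‖y‖ * ‖z‖ := h1
    _ ≤ ‖D.b‖ * (D.sig x / √D.c₀) * (D.sig y / √D.c₀) * (D.sig z / √D.c₀) := by
      have := D.sig_nonneg x
      have := D.sig_nonneg y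
      have := D.sig_nonneg z
      gcongr
    _ = _ := by field_simp

/-- the constants -/
def bet : ℝ := ‖D.b‖ / (√D.c₀) ^ 3

lemma bet_nonneg : 0 ≤ bet D := by unfold bet; positivity

/-- Poincare -/
lemma poincare {η : ℝ} (hη : 0 < η) (x : V) :
    2 * (η * D.c₀ / (2 * (‖D.ι‖ ^ 2 + 1))) * ‖D.ι x‖ ^ 2 ≤ η * D.sig x ^ 2 := by
  have h1 : ‖D.ι x‖ ^ 2 ≤ ‖D.ι‖ ^ 2 * ‖x‖ ^ 2 := by
    rw [← mul_pow]
    exact pow_le_pow_left₀ (norm_nonneg _) (D.ι.le_opNorm x) 2
  have h2 : D.c₀ * ‖x‖ ^ 2 ≤ D.sig x ^ 2 := by rw [D.sig_sq]; exact D.a_coer x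
  have h3 : 0 < ‖D.ι‖ ^ 2 + 1 := by positivity
  have hc := D.c₀_pos
  have h4 : 2 * (η * D.c₀ / (2 * (‖D.ι‖ ^ 2 + 1))) * ‖D.ι x‖ ^ 2 =
      η * (D.c₀ * ‖D.ι x‖ ^ 2) / (‖D.ι‖ ^ 2 + 1) := by
    field_simp
  rw [h4, div_le_iff₀ h3]
  have h5 : D.c₀ * ‖D.ι x‖ ^ 2 ≤ ‖D.ι‖ ^ 2 * D.sig x ^ 2 := by
    calc D.c₀ * ‖D.ι x‖ ^ 2 ≤ D.c₀ * (‖D.ι‖ ^ 2 * ‖x‖ ^ 2) := by gcongr
      _ = ‖D.ι‖ ^ 2 * (D.c₀ * ‖x‖ ^ 2) := by ring
      _ ≤ _ := by gcongr
  have h6 : 0 ≤ D.sig x ^ 2 := by positivity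
  nlinarith

variable {D} {η κ : ℝ} {u w : ℝ → V}

/-- energy inequality -/
lemma energy (hu : ModSol D η κ 0 u w) {s t : ℝ} (hs : 0 ≤ s) (hst : s ≤ t) :
    ‖D.ι (u t)‖ ^ 2 ≤ ‖D.ι (u s)‖ ^ 2 - 2 * ∫ r in s..t, η * D.sig (u r) ^ 2 := by
  obtain ⟨hI, hE⟩ := energyId_proof V K D.ι u w hu.h1 s t hs hst
  rw [hE]
  have hsc : ContinuousOn (fun r => η * D.sig (u r) ^ 2) (Icc s t) := by
    refine continuousOn_const.mul ((D.continuous_sig.comp_continuousOn
      (hu.h1.continuousOn.mono (fun r hr => hs.trans hr.1))).pow 2)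
  have hsi : IntervalIntegrable (fun r => η * D.sig (u r) ^ 2) volume s t :=
    hsc.intervalIntegrable_of_Icc hst
  have h1 : (∫ r in s..t, ⟪D.ι (w r), D.ι (u r)⟫) ≤ ∫ r in s..t, -(η * D.sig (u r) ^ 2) := by
    refine intervalIntegral.integral_mono_ae_restrict hst hI hsi.neg ?_
    have h2 : ∀ᵐ r ∂(volume.restrict (Icc s t)), 0 < r → ∀ v, ⟪D.ι (w r), D.ι v⟫
        + (η + phi 1 κ (D.sig (u r))) * D.a (u r) v + D.b (u r) (u r) v
        = (0 : ℝ → (V →L[ℝ] ℝ)) r v := by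
      have := hu.eq
      rw [ae_restrict_iff' measurableSet_Ioi] at this
      exact ae_restrict_of_ae this
    have h3 : ∀ᵐ r ∂(volume.restrict (Icc s t)), r ≠ s := by
      refine ae_restrict_of_ae ?_
      rw [ae_iff]; simp
    filter_upwards [h2, h3, ae_restrict_mem measurableSet_Icc] with r hr hrs hrI
    have hr0 : 0 < r := lt_of_le_of_ne (hs.trans hrI.1)
      (fun h => hrs (le_antisymm (by linarith [hrI.1]) hrI.1))
    have h4 := hr hr0 (u r)
    rw [D.b_skew] at h4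
    have h5 : D.a (u r) (u r) = D.sig (u r) ^ 2 := (D.sig_sq _).symm
    rw [h5] at h4
    have h6 := phi_nonneg (κ := κ) (zero_le_one' ℝ) (D.sig (u r))
    have h7 : (0 : ℝ → (V →L[ℝ] ℝ)) r (u r) = 0 := rfl
    rw [h7] at h4
    have h8 : 0 ≤ phi 1 κ (D.sig (u r)) * D.sig (u r) ^ 2 := by positivity
    linarith
  rw [intervalIntegral.integral_neg] at h1
  linarith

/-- difference inequality -/
lemma diffIneq (hη : 0 < η) (hu : ModSol D η κ 0 u w) {κ₀ t₁ τ : ℝ} (ht1 : 0 ≤ t₁)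
    (hκ : κ₀ ≤ κ) (hκ0 : bet D * κ₀ ≤ η / 2)
    (hsig : ∀ t ∈ Icc t₁ τ, D.sig (u t) ≤ κ₀) {h : ℝ} (hh : 0 ≤ h) {a b : ℝ} (ha : t₁ ≤ a)
    (hab : a ≤ b) (hb : b + h ≤ τ) :
    ‖D.ι (u (b + h) - u b)‖ ^ 2 ≤ ‖D.ι (u (a + h) - u a)‖ ^ 2
      - ∫ r in a..b, η * D.sig (u (r + h) - u r) ^ 2 := by
  have hZ := h1_sub (h1_shift hu.h1 hh) hu.h1
  have ha0 : 0 ≤ a := ht1.trans ha
  obtain ⟨hI, hE⟩ := energyId_proof V K D.ι _ _ hZ a b ha0 hab
  rw [hE]
  have hsc : ContinuousOn (fun r => η * D.sig (u (r + h) - u r) ^ 2) (Icc a b) := by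
    refine continuousOn_const.mul ((D.continuous_sig.comp_continuousOn
      (hZ.continuousOn.mono (fun r hr => ha0.trans hr.1))).pow 2)
  have hsi : IntervalIntegrable (fun r => η * D.sig (u (r + h) - u r) ^ 2) volume a b :=
    hsc.intervalIntegrable_of_Icc hab
  have h1 : (∫ r in a..b, ⟪D.ι (w (r + h) - w r), D.ι (u (r + h) - u r)⟫) ≤
      ∫ r in a..b, -(1 / 2 * (η * D.sig (u (r + h) - u r) ^ 2)) := by
    refine intervalIntegral.integral_mono_ae_restrict hab hI (hsi.const_mul (1 / 2)).neg ?_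
    have h0 : ∀ᵐ r, 0 < r → ∀ v, ⟪D.ι (w r), D.ι v⟫
        + (η + phi 1 κ (D.sig (u r))) * D.a (u r) v + D.b (u r) (u r) v
        = (0 : ℝ → (V →L[ℝ] ℝ)) r v := by
      have := hu.eq
      rw [ae_restrict_iff' measurableSet_Ioi] at this
      exact this
    have h0' : ∀ᵐ r, 0 < r + h → ∀ v, ⟪D.ι (w (r + h)), D.ι v⟫
        + (η + phi 1 κ (D.sig (u (r + h)))) * D.a (u (r + h)) v + D.b (u (r + h)) (u (r + h)) v
        = (0 : ℝ → (V →L[ℝ] ℝ)) (r + h) v :=
      (measurePreserving_add_right (volume : Measure ℝ) h).quasiMeasurePreserving.ae h0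
    have h3 : ∀ᵐ r ∂(volume.restrict (Icc a b)), r ≠ a := by
      refine ae_restrict_of_ae ?_
      rw [ae_iff]; simp
    filter_upwards [ae_restrict_of_ae h0, ae_restrict_of_ae h0', h3,
      ae_restrict_mem measurableSet_Icc] with r hr hrh hra hrI
    have hr0 : 0 < r := lt_of_le_of_ne (ha0.trans hrI.1)
      (fun h => hra (le_antisymm (by linarith [hrI.1]) hrI.1))
    set Z : V := u (r + h) - u r with hZdef
    have e1 := hr hr0 Z
    have e2 := hrh (by linarith) Z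
    have s1 : D.sig (u r) ≤ κ₀ := hsig r ⟨ha.trans hrI.1, by linarith [hrI.2]⟩
    have s2 : D.sig (u (r + h)) ≤ κ₀ := hsig (r + h) ⟨by linarith [hrI.1], by linarith [hrI.2]⟩
    rw [phi_eq_zero (s1.trans hκ), add_zero] at e1
    rw [phi_eq_zero (s2.trans hκ), add_zero] at e2
    have z1 : (0 : ℝ → (V →L[ℝ] ℝ)) r Z = 0 := rfl
    have z2 : (0 : ℝ → (V →L[ℝ] ℝ)) (r + h) Z = 0 := rfl
    rw [z1] at e1
    rw [z2] at e2
    have e3 : ⟪D.ι (w (r + h) - w r), D.ι Z⟫ = ⟪D.ι (w (r + h)), D.ι Z⟫ - ⟪D.ι (w r), D.ι Z⟫ := by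
      rw [map_sub, inner_sub_left]
    have hla : ∀ x y v : V, D.a (x - y) v = D.a x v - D.a y v := fun x y v => by
      rw [map_sub]; rfl
    have hlb1 : ∀ x y z v : V, D.b (x - y) z v = D.b x z v - D.b y z v := fun x y z v => by
      rw [map_sub]; rfl
    have hlb2 : ∀ x y z v : V, D.b x (y - z) v = D.b x y v - D.b x z v := fun x y z v => by
      rw [map_sub]; rfl
    have e4 : D.a (u (r + h)) Z - D.a (u r) Z = D.sig Z ^ 2 := by
      rw [D.sig_sq, ← hla]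
    have e5 : D.b (u (r + h)) (u (r + h)) Z - D.b (u r) (u r) Z = D.b Z (u r) Z := by
      have f1 : D.b (u (r + h)) Z Z = 0 := D.b_skew _ _
      have f2 := hlb2 (u (r + h)) (u (r + h)) (u r) Z
      have f3 := hlb1 (u (r + h)) (u r) (u r) Z
      rw [← hZdef] at f2 f3
      linarith
    have e6 : |D.b Z (u r) Z| ≤ η / 2 * D.sig Z ^ 2 := by
      refine (b_le D Z (u r) Z).trans ?_
      have g1 : ‖D.b‖ / (√D.c₀) ^ 3 * D.sig Z * D.sig (u r) * D.sig Z =
          bet D * D.sig (u r) * D.sig Z ^ 2 := by unfold bet; ring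
      rw [g1]
      have g2 : bet D * D.sig (u r) ≤ η / 2 :=
        (mul_le_mul_of_nonneg_left s1 (bet_nonneg D)).trans hκ0
      gcongr
    have e7 := neg_le_of_abs_le e6
    rw [e3]
    have e8 : ⟪D.ι (w (r + h)), D.ι Z⟫ - ⟪D.ι (w r), D.ι Z⟫ =
        -(η * D.sig Z ^ 2) - D.b Z (u r) Z := by
      rw [← e5, ← e4]; linarith
    rw [e8]
    linarith
  have h9 : (∫ r in a..b, -(1 / 2 * (η * D.sig (u (r + h) - u r) ^ 2))) =
      -(1 / 2 * ∫ r in a..b, η * D.sig (u (r + h) - u r) ^ 2) := by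
    rw [intervalIntegral.integral_neg, intervalIntegral.integral_const_mul]
  rw [h9] at h1
  linarith

/-- Step 2: rate of change bounds `sig` -/
lemma rate (hη : 0 < η) (hu : ModSol D η κ 0 u w) {t B ε : ℝ} (ht : 0 ≤ t) (hε : 0 < ε)
    (hB : ∀ h, 0 ≤ h → h ≤ ε → ‖D.ι (u (t + h) - u t)‖ ≤ B * h) :
    η * D.sig (u t) ^ 2 ≤ B * ‖D.ι (u t)‖ := by
  have huc := hu.h1.continuousOn
  set g : ℝ → ℝ := fun r => η * D.sig (u (max r 0)) ^ 2 with hg
  have huc' : Continuous (fun r => u (max r 0)) :=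
    huc.comp_continuous (continuous_id.max continuous_const) (fun r => le_max_right r 0)
  have hgc : Continuous g := continuous_const.mul ((D.continuous_sig.comp huc').pow 2)
  have hd : HasDerivAt (fun x => ∫ r in t..x, g r) (g t) t :=
    intervalIntegral.integral_hasDerivAt_right (hgc.intervalIntegrable _ _)
      (hgc.stronglyMeasurableAtFilter _ _) hgc.continuousAt
  have h1 := hd.tendsto_slope_zero_right
  have h2 : Tendsto (fun h => B * (‖D.ι (u t)‖ + ‖D.ι (u (max (t + h) 0))‖) / 2) (𝓝[>] 0)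
      (𝓝 (B * (‖D.ι (u t)‖ + ‖D.ι (u (max (t + 0) 0))‖) / 2)) := by
    refine (Continuous.tendsto ?_ 0).mono_left nhdsWithin_le_nhds
    have h3 : Continuous (fun h : ℝ => u (max (t + h) 0)) :=
      huc'.comp (continuous_const.add continuous_id)
    have h4 := (D.ι.continuous.comp h3).norm
    exact (continuous_const.mul (continuous_const.add h4)).div_const 2
  have h3 := le_of_tendsto_of_tendsto h1 h2 (by
    have hm : Ioo 0 ε ∈ 𝓝[>] (0 : ℝ) := Ioo_mem_nhdsGT hε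
    filter_upwards [hm] with h hh
    have e1 := energy hu ht (by linarith [hh.1] : t ≤ t + h)
    have e2 : (∫ r in t..(t + h), η * D.sig (u r) ^ 2) = ∫ r in t..(t + h), g r := by
      refine intervalIntegral.integral_congr (fun r hr => ?_)
      rw [uIcc_of_le (by linarith [hh.1])] at hr
      simp only [hg]
      rw [max_eq_left (ht.trans hr.1)]
    rw [e2] at e1
    have e3 := hB h hh.1.le hh.2.le
    rw [map_sub] at e3
    have e4 : ‖D.ι (u t)‖ - ‖D.ι (u (t + h))‖ ≤ B * h := by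
      refine (norm_sub_norm_le _ _).trans ?_
      rwa [norm_sub_rev]
    rw [intervalIntegral.integral_same, sub_zero, smul_eq_mul, max_eq_left (by linarith [hh.1])]
    rw [inv_mul_le_iff₀ hh.1]
    have n1 := norm_nonneg (D.ι (u t))
    have n2 := norm_nonneg (D.ι (u (t + h)))
    have e5 : (‖D.ι (u t)‖ - ‖D.ι (u (t + h))‖) * (‖D.ι (u t)‖ + ‖D.ι (u (t + h))‖) ≤
        B * h * (‖D.ι (u t)‖ + ‖D.ι (u (t + h))‖) := by gcongr
    nlinarith)
  simp only [add_zero, hg] at h3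
  rw [max_eq_left ht] at h3
  linarith

/-- Step 3 -/
lemma diffDecay (hη : 0 < η) (hu : ModSol D η κ 0 u w) {κ₀ t₁ τ B : ℝ} (ht1 : 0 ≤ t₁)
    (hκ : κ₀ ≤ κ) (hκ0 : bet D * κ₀ ≤ η / 2) (hB0 : 0 ≤ B)
    (hB : ∀ h : ℝ, 0 ≤ h → h ≤ 1 → ‖D.ι (u (t₁ + h) - u t₁)‖ ≤ B * h)
    (hsig : ∀ t ∈ Icc t₁ τ, D.sig (u t) ≤ κ₀) {h : ℝ} (hh : 0 ≤ h) (hh1 : h ≤ 1) {t : ℝ}
    (ht : t₁ ≤ t) (htτ : t + h ≤ τ) :
    ‖D.ι (u (t + h) - u t)‖ ≤
      B * h * Real.exp (-(η * D.c₀ / (2 * (‖D.ι‖ ^ 2 + 1)) * (t - t₁))) := by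
  set lam := η * D.c₀ / (2 * (‖D.ι‖ ^ 2 + 1)) with hlam
  have hlam0 : 0 ≤ lam := by
    have := D.c₀_pos
    positivity
  have hZ := h1_sub (h1_shift hu.h1 hh) hu.h1
  have hZc : ContinuousOn (fun r => ‖D.ι (u (r + h) - u r)‖ ^ 2) (Icc t₁ (τ - h)) :=
    ((D.ι.continuous.comp_continuousOn
      (hZ.continuousOn.mono (fun r hr => ht1.trans hr.1))).norm).pow 2
  have h1 := decay (k := 2 * lam) (by positivity) hZc (fun a b ha hab hb => by
    have e1 := diffIneq hη hu ht1 hκ hκ0 hsig hh ha hab (by linarith)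
    have e2 : (2 * lam) * ∫ r in a..b, ‖D.ι (u (r + h) - u r)‖ ^ 2 ≤
        ∫ r in a..b, η * D.sig (u (r + h) - u r) ^ 2 := by
      rw [← intervalIntegral.integral_const_mul]
      refine intervalIntegral.integral_mono_on hab ?_ ?_ (fun r _ => poincare D hη _)
      · refine ContinuousOn.intervalIntegrable_of_Icc hab (continuousOn_const.mul
          (hZc.mono (Icc_subset_Icc ha hb)))
      · refine ContinuousOn.intervalIntegrable_of_Icc hab (continuousOn_const.mul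
          ((D.continuous_sig.comp_continuousOn
            (hZ.continuousOn.mono (fun r hr => ?_))).pow 2))
        exact (ht1.trans ha).trans hr.1
    linarith) t ⟨ht, by linarith⟩
  have h2 : ‖D.ι (u (t₁ + h) - u t₁)‖ ^ 2 ≤ (B * h) ^ 2 :=
    pow_le_pow_left₀ (norm_nonneg _) (hB h hh hh1) 2
  have h3 : Real.exp (-(2 * lam * (t - t₁))) = Real.exp (-(lam * (t - t₁))) ^ 2 := by
    rw [← Real.exp_nat_mul]; congr 1; push_cast; ring
  rw [h3] at h1
  have h4 : ‖D.ι (u (t + h) - u t)‖ ^ 2 ≤ (B * h * Real.exp (-(lam * (t - t₁)))) ^ 2 := by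
    rw [mul_pow]
    refine h1.trans ?_
    gcongr
  exact (sq_le_sq₀ (norm_nonneg _) (by positivity)).mp h4

/-- Step 1 -/
lemma normDecay (hη : 0 < η) (hu : ModSol D η κ 0 u w) {t₁ t : ℝ} (ht1 : 0 ≤ t₁) (ht : t₁ ≤ t) :
    ‖D.ι (u t)‖ ≤ ‖D.ι (u t₁)‖ *
      Real.exp (-(η * D.c₀ / (2 * (‖D.ι‖ ^ 2 + 1)) * (t - t₁))) := by
  set lam := η * D.c₀ / (2 * (‖D.ι‖ ^ 2 + 1)) with hlam
  have hlam0 : 0 ≤ lam := by
    have := D.c₀_pos
    positivity
  have hc : ContinuousOn (fun r => ‖D.ι (u r)‖ ^ 2) (Icc t₁ t) :=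
    ((D.ι.continuous.comp_continuousOn
      (hu.h1.continuousOn.mono (fun r hr => ht1.trans hr.1))).norm).pow 2
  have h1 := decay (k := 2 * lam) (by positivity) hc (fun a b ha hab hb => by
    have e1 := energy hu (ht1.trans ha) hab
    have e2 : (2 * lam) * ∫ r in a..b, ‖D.ι (u r)‖ ^ 2 ≤
        ∫ r in a..b, η * D.sig (u r) ^ 2 := by
      rw [← intervalIntegral.integral_const_mul]
      refine intervalIntegral.integral_mono_on hab ?_ ?_ (fun r _ => poincare D hη _)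
      · refine ContinuousOn.intervalIntegrable_of_Icc hab (continuousOn_const.mul
          (hc.mono (Icc_subset_Icc ha hb)))
      · refine ContinuousOn.intervalIntegrable_of_Icc hab (continuousOn_const.mul
          ((D.continuous_sig.comp_continuousOn
            (hu.h1.continuousOn.mono (fun r hr => ?_))).pow 2))
        exact (ht1.trans ha).trans hr.1
    have e3 : 0 ≤ ∫ r in a..b, η * D.sig (u r) ^ 2 :=
      intervalIntegral.integral_nonneg hab (fun r _ => by positivity)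
    linarith) t ⟨ht, le_rfl⟩
  have h3 : Real.exp (-(2 * lam * (t - t₁))) = Real.exp (-(lam * (t - t₁))) ^ 2 := by
    rw [← Real.exp_nat_mul]; congr 1; push_cast; ring
  rw [h3, ← mul_pow] at h1
  exact (sq_le_sq₀ (norm_nonneg _) (by positivity)).mp h1

/-- Step 4: the bound of `sig` persists -/
lemma sigBound (hη : 0 < η) (hu : ModSol D η κ 0 u w) {κ₀ t₁ B : ℝ} (ht1 : 0 ≤ t₁)
    (hκpos : 0 < κ₀) (hκ : κ₀ ≤ κ) (hκ0 : bet D * κ₀ ≤ η / 2) (hB0 : 0 ≤ B)
    (hB : ∀ h : ℝ, 0 ≤ h → h ≤ 1 → ‖D.ι (u (t₁ + h) - u t₁)‖ ≤ B * h)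
    (hc : ‖D.ι (u t₁)‖ * B ≤ η * κ₀ ^ 2 / 2) :
    ∀ t, t₁ ≤ t → D.sig (u t) ≤ κ₀ := by
  by_contra hcon
  push Not at hcon
  obtain ⟨ts, hts, hsig⟩ := hcon
  have hucI : ContinuousOn (fun r => D.sig (u r)) (Icc t₁ ts) :=
    D.continuous_sig.comp_continuousOn (hu.h1.continuousOn.mono (fun r hr => ht1.trans hr.1))
  set A : Set ℝ := Icc t₁ ts ∩ (fun r => D.sig (u r)) ⁻¹' (Ici κ₀) with hA
  have hAcl : IsClosed A := hucI.preimage_isClosed_of_isClosed isClosed_Icc isClosed_Ici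
  have hAc : IsCompact A := isCompact_Icc.of_isClosed_subset hAcl inter_subset_left
  have hAne : A.Nonempty := ⟨ts, ⟨hts, le_rfl⟩, hsig.le⟩
  obtain ⟨τ, hτA, hτmin⟩ := hAc.exists_isLeast hAne
  have hτ1 : t₁ ≤ τ := hτA.1.1
  have hbelow : ∀ r, t₁ ≤ r → r < τ → D.sig (u r) ≤ κ₀ := by
    intro r hr1 hr2
    by_contra h
    push Not at h
    exact absurd (hτmin ⟨⟨hr1, (hr2.le.trans hτA.1.2)⟩, h.le⟩) (not_le.mpr hr2)
  have small_of : ∀ t, t₁ ≤ t → (∃ ε > 0, ∀ h, 0 ≤ h → h ≤ ε → ‖D.ι (u (t + h) - u t)‖ ≤ B * h) →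
      D.sig (u t) ^ 2 ≤ κ₀ ^ 2 / 2 := by
    rintro t ht ⟨ε, hε, hh⟩
    have e1 := rate hη hu (ht1.trans ht) hε hh
    have e2 := normDecay hη hu ht1 ht
    have e3 : Real.exp (-(η * D.c₀ / (2 * (‖D.ι‖ ^ 2 + 1)) * (t - t₁))) ≤ 1 := by
      rw [Real.exp_le_one_iff]
      have := D.c₀_pos
      have : 0 ≤ t - t₁ := sub_nonneg.mpr ht
      have : 0 ≤ η * D.c₀ / (2 * (‖D.ι‖ ^ 2 + 1)) * (t - t₁) := by positivity
      linarith
    have e4 : ‖D.ι (u t)‖ ≤ ‖D.ι (u t₁)‖ :=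
      e2.trans (mul_le_of_le_one_right (norm_nonneg _) e3)
    have e5 : B * ‖D.ι (u t)‖ ≤ B * ‖D.ι (u t₁)‖ := by gcongr
    have e6 : η * D.sig (u t) ^ 2 ≤ η * (κ₀ ^ 2 / 2) := by linarith
    exact le_of_mul_le_mul_left e6 hη
  have hbefore : ∀ r, t₁ ≤ r → r < τ → D.sig (u r) ^ 2 ≤ κ₀ ^ 2 / 2 := by
    intro r hr1 hr2
    refine small_of r hr1 ⟨min 1 ((τ - r) / 2), lt_min one_pos (by linarith), fun h hh hh2 => ?_⟩
    have hh3 : h ≤ 1 := hh2.trans (min_le_left _ _)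
    have hh4 : h ≤ (τ - r) / 2 := hh2.trans (min_le_right _ _)
    have := diffDecay (τ := (r + τ) / 2) hη hu ht1 hκ hκ0 hB0 hB
      (fun q hq => hbelow q hq.1 (by linarith [hq.2])) hh hh3 hr1 (by linarith)
    refine this.trans (mul_le_of_le_one_right (by positivity) ?_)
    rw [Real.exp_le_one_iff]
    have := D.c₀_pos
    have : 0 ≤ r - t₁ := sub_nonneg.mpr hr1
    have : 0 ≤ η * D.c₀ / (2 * (‖D.ι‖ ^ 2 + 1)) * (r - t₁) := by positivity
    linarith
  have hat : D.sig (u τ) ^ 2 ≤ κ₀ ^ 2 / 2 := by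
    rcases eq_or_lt_of_le hτ1 with h | h
    · rw [← h]
      exact small_of t₁ le_rfl ⟨1, one_pos, hB⟩
    · have hcτ : ContinuousWithinAt (fun r => D.sig (u r) ^ 2) (Ico t₁ τ) τ :=
        ((hucI.mono (Icc_subset_Icc_right hτA.1.2)).pow 2 τ ⟨hτ1, le_rfl⟩).mono
          Ico_subset_Icc_self
      have : (𝓝[Ico t₁ τ] τ).NeBot := by
        rw [← mem_closure_iff_nhdsWithin_neBot, closure_Ico h.ne]
        exact ⟨hτ1, le_rfl⟩
      refine le_of_tendsto hcτ ?_
      filter_upwards [self_mem_nhdsWithin] with r hr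
      exact hbefore r hr.1 hr.2
  have h1 : κ₀ ≤ D.sig (u τ) := hτA.2
  have h2 : κ₀ ^ 2 ≤ D.sig (u τ) ^ 2 := pow_le_pow_left₀ hκpos.le h1 2
  nlinarith [pow_pos hκpos 2]

/-- Step 5: Fatou -/
lemma intBound (hη : 0 < η) (hu : ModSol D η κ 0 u w) {κ₀ t₁ B : ℝ} (ht1 : 0 ≤ t₁)
    (hκ : κ₀ ≤ κ) (hκ0 : bet D * κ₀ ≤ η / 2)
    (hB : ∀ h : ℝ, 0 ≤ h → h ≤ 1 → ‖D.ι (u (t₁ + h) - u t₁)‖ ≤ B * h)
    (hsig : ∀ t, t₁ ≤ t → D.sig (u t) ≤ κ₀) {T : ℝ} (hT : t₁ ≤ T) :
    ∫ s in t₁..T, D.sig (w s) ^ 2 ≤ 1 / η * B ^ 2 := by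
  have hT0 : 0 ≤ T := ht1.trans hT
  -- difference quotients
  set hn : ℕ → ℝ := fun n => 1 / ((n : ℝ) + 1) with hhn
  have hn0 : ∀ n, 0 < hn n := fun n => by simp only [hhn]; positivity
  have hn1 : ∀ n, hn n ≤ 1 := fun n => by
    simp only [hhn]
    rw [div_le_one (by positivity)]
    linarith [(Nat.cast_nonneg n : (0 : ℝ) ≤ n)]
  set q : ℕ → ℝ → ℝ := fun n r => D.sig ((hn n)⁻¹ • (u (r + hn n) - u r)) ^ 2 with hq
  -- bound
  have hZ : ∀ n, IsH1loc (fun t => u (t + hn n) - u t) (fun t => w (t + hn n) - w t) := fun n =>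
    h1_sub (h1_shift hu.h1 (hn0 n).le) hu.h1
  have hqc : ∀ n, ContinuousOn (q n) (Icc t₁ T) := fun n =>
    (D.continuous_sig.comp_continuousOn (((hZ n).continuousOn.mono
      (fun r hr => ht1.trans hr.1)).const_smul _)).pow 2
  have hqi : ∀ n, ∫ r in t₁..T, q n r ≤ B ^ 2 / η := by
    intro n
    have e1 := diffIneq (τ := T + hn n) hη hu ht1 hκ hκ0 (fun q hq => hsig q hq.1) (hn0 n).le
      le_rfl hT le_rfl
    have e2 : (∫ r in t₁..T, q n r) = (hn n)⁻¹ ^ 2 / η *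
        ∫ r in t₁..T, η * D.sig (u (r + hn n) - u r) ^ 2 := by
      rw [← intervalIntegral.integral_const_mul]
      refine intervalIntegral.integral_congr (fun r _ => ?_)
      simp only [hq]
      rw [D.sig_smul, mul_pow, sq_abs]
      field_simp
    have e3 : (∫ r in t₁..T, η * D.sig (u (r + hn n) - u r) ^ 2) ≤ (B * hn n) ^ 2 := by
      have e4 : ‖D.ι (u (t₁ + hn n) - u t₁)‖ ^ 2 ≤ (B * hn n) ^ 2 :=
        pow_le_pow_left₀ (norm_nonneg _) (hB _ (hn0 n).le (hn1 n)) 2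
      have e5 : 0 ≤ ‖D.ι (u (T + hn n) - u T)‖ ^ 2 := by positivity
      linarith
    rw [e2]
    calc (hn n)⁻¹ ^ 2 / η * ∫ r in t₁..T, η * D.sig (u (r + hn n) - u r) ^ 2
        ≤ (hn n)⁻¹ ^ 2 / η * (B * hn n) ^ 2 := by
          have := hn0 n
          gcongr
      _ = B ^ 2 / η := by
          have := (hn0 n).ne'
          field_simp
  -- convergence
  have hlim : ∀ᵐ r ∂(volume.restrict (Ioc t₁ T)),
      Tendsto (fun n => q n r) atTop (𝓝 (D.sig (w r) ^ 2)) := by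
    have h1 := IntervalIntegrable.ae_hasDerivAt_integral
      (hu.h1.intervalIntegrable (le_refl 0) (by linarith : (0 : ℝ) ≤ T + 1))
    rw [ae_restrict_iff' measurableSet_Ioc]
    filter_upwards [h1] with r hr hrI
    rw [uIcc_of_le (by linarith)] at hr
    have hr0 : 0 ≤ r := ht1.trans hrI.1.le
    have h2 := (hr ⟨hr0, by linarith [hrI.2]⟩ 0 ⟨le_rfl, by linarith⟩).tendsto_slope_zero_right
    have h3 : Tendsto hn atTop (𝓝[>] 0) := by
      refine tendsto_nhdsWithin_iff.mpr ⟨?_, Eventually.of_forall (fun n => hn0 n)⟩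
      exact tendsto_one_div_add_atTop_nhds_zero_nat
    have h4 := h2.comp h3
    have h5 : Tendsto (fun n => (hn n)⁻¹ • (u (r + hn n) - u r)) atTop (𝓝 (w r)) := by
      refine h4.congr (fun n => ?_)
      simp only [Function.comp]
      rw [hu.h1.eq (r + hn n) (by linarith [hn0 n]), hu.h1.eq r hr0]
      congr 1
      abel
    exact ((D.continuous_sig.tendsto _).comp h5).pow 2
  -- Fatou
  have hfat : ∫⁻ r in Ioc t₁ T, ENNReal.ofReal (D.sig (w r) ^ 2) ≤ ENNReal.ofReal (B ^ 2 / η) := by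
    calc ∫⁻ r in Ioc t₁ T, ENNReal.ofReal (D.sig (w r) ^ 2)
        = ∫⁻ r in Ioc t₁ T, liminf (fun n => ENNReal.ofReal (q n r)) atTop := by
          refine lintegral_congr_ae ?_
          filter_upwards [hlim] with r hr
          exact ((ENNReal.tendsto_ofReal hr).liminf_eq).symm
      _ ≤ liminf (fun n => ∫⁻ r in Ioc t₁ T, ENNReal.ofReal (q n r)) atTop := by
          refine lintegral_liminf_le' (fun n => ?_)
          exact (((hqc n).mono Ioc_subset_Icc_self).aemeasurable measurableSet_Ioc).ennreal_ofReal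
      _ ≤ ENNReal.ofReal (B ^ 2 / η) := by
          have : ∀ n, ∫⁻ r in Ioc t₁ T, ENNReal.ofReal (q n r) ≤ ENNReal.ofReal (B ^ 2 / η) := by
            intro n
            rw [← ofReal_integral_eq_lintegral_ofReal]
            · rw [← intervalIntegral.integral_of_le hT]
              exact ENNReal.ofReal_le_ofReal (hqi n)
            · exact ((hqc n).integrableOn_Icc).mono_set Ioc_subset_Icc_self
            · exact Eventually.of_forall (fun r => by simp only [hq]; positivity)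
          refine liminf_le_of_le (by isBoundedDefault) (fun b hb => ?_)
          obtain ⟨n, hn⟩ := hb.exists
          exact hn.trans (this n)
  rw [intervalIntegral.integral_of_le hT, integral_eq_lintegral_of_nonneg_ae
    (Eventually.of_forall (fun r => by positivity))]
  · have h1 := ENNReal.toReal_mono ENNReal.ofReal_ne_top hfat
    rw [ENNReal.toReal_ofReal (by positivity)] at h1
    refine h1.trans (le_of_eq (by ring))
  · have h1 : AEStronglyMeasurable w (volume.restrict (Ioc t₁ T)) :=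
      ((hu.h1.memLp T).aestronglyMeasurable).mono_measure
        (Measure.restrict_mono (Ioc_subset_Ioc ht1 le_rfl) le_rfl)
    exact (D.continuous_sig.comp_aestronglyMeasurable h1).pow 2

end

end Small

theorem small_proof : Stmt_Small := by
  intro V K _ _ _ _ _ D η hη
  have hb := Small.bet_nonneg D
  have hc := D.c₀_pos
  set κ₀ : ℝ := η / (2 * (Small.bet D + 1)) with hκ₀
  have hκpos : 0 < κ₀ := by positivity
  have hκ0 : Small.bet D * κ₀ ≤ η / 2 := by
    rw [hκ₀, mul_div_assoc', div_le_div_iff₀ (by positivity) (by positivity)]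
    nlinarith
  refine ⟨η * κ₀ ^ 2 / 2, κ₀, η * D.c₀ / (2 * (‖D.ι‖ ^ 2 + 1)), 1 / η, by positivity, hκpos,
    by positivity, by positivity, ?_⟩
  intro κ t₁ B u w hκ ht1 hB0 hu hB hcB
  have hsig := Small.sigBound hη hu ht1 hκpos hκ hκ0 hB0 hB hcB
  refine ⟨fun t ht => ⟨hsig t ht, Small.normDecay hη hu ht1 ht⟩, fun t h ht hh hh1 => ?_,
    fun T hT => Small.intBound hη hu ht1 hκ hκ0 hB hsig hT⟩
  exact Small.diffDecay (τ := t + h) hη hu ht1 hκ hκ0 hB0 hB (fun q hq => hsig q hq.1) hh hh1 ht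
    le_rfl

end Pool.Agent.NSK
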