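import Pool.Agent.NSK.Lib
import Pool.Agent.NSK.DiffIneq
import Pool.Agent.NSD.Gronwall

/-!
# MP_fd8964_an: module Smooth (smoothing of the time differences of `z`)
-/

open MeasureTheory Set Filter Topology
open scoped RealInnerProductSpace

noncomputable section

namespace Pool.Agent.NSK

open Pool.Agent.NSD

namespace Smooth

/-- weighted integral inequality -/
lemma weighted {Y k : ℝ → ℝ} (hY : ContinuousOn Y (Icc 0 1)) (hk : ContinuousOn k (Icc 0 1))
    (h : ∀ s t, 0 ≤ s → s ≤ t → t ≤ 1 → Y t - Y s ≤ ∫ r in s..t, k r) :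
    ∀ t ∈ Icc (0 : ℝ) 1, t ^ 2 * Y t ≤ ∫ s in (0 : ℝ)..t, (2 * s * Y s + s ^ 2 * k s) := by
  intro t ht
  obtain ⟨Ye, hYc, hYe⟩ := H4.exists_cont_ext zero_le_one hY
  obtain ⟨ke, hkc, hke⟩ := H4.exists_cont_ext zero_le_one hk
  set Kk : ℝ → ℝ := fun s => ∫ r in (0 : ℝ)..s, ke r with hKk
  have hKd : ∀ s, HasDerivAt Kk (ke s) s := fun s =>
    intervalIntegral.integral_hasDerivAt_right (hkc.intervalIntegrable _ _)
      (hkc.stronglyMeasurableAtFilter _ _) hkc.continuousAt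
  have hKc : Continuous Kk := continuous_iff_continuousAt.2 fun s => (hKd s).continuousAt
  have h1 : ∫ s in (0 : ℝ)..t, (2 * s * Kk s + s ^ 2 * ke s) = t ^ 2 * Kk t := by
    have hd : ∀ s ∈ uIcc 0 t, HasDerivAt (fun s => s ^ 2 * Kk s) (2 * s * Kk s + s ^ 2 * ke s) s := by
      intro s _
      have a1 : HasDerivAt (fun s : ℝ => s ^ 2) (2 * s) s := by
        simpa using hasDerivAt_pow 2 s
      exact a1.mul (hKd s)
    rw [intervalIntegral.integral_eq_sub_of_hasDerivAt hd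
      ((by fun_prop : Continuous fun s => 2 * s * Kk s + s ^ 2 * ke s).intervalIntegrable _ _)]
    simp
  have h2 : ∫ s in (0 : ℝ)..t, 2 * s = t ^ 2 := by
    rw [intervalIntegral.integral_const_mul, integral_id]
    ring
  have h3 : 0 ≤ ∫ s in (0 : ℝ)..t, 2 * s * ((Ye s - Kk s) - (Y t - Kk t)) := by
    refine intervalIntegral.integral_nonneg ht.1 (fun s hs => ?_)
    have hs1 : s ∈ Icc (0 : ℝ) 1 := ⟨hs.1, hs.2.trans ht.2⟩
    have h4 := h s t hs.1 hs.2 ht.2
    have h5 : ∫ r in s..t, k r = Kk t - Kk s := by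
      have e1 : ∫ r in s..t, k r = ∫ r in s..t, ke r := by
        refine intervalIntegral.integral_congr (fun x hx => ?_)
        rw [uIcc_of_le hs.2] at hx
        exact (hke x ⟨hs.1.trans hx.1, hx.2.trans ht.2⟩).symm
      rw [e1]
      exact (intervalIntegral.integral_interval_sub_left (hkc.intervalIntegrable _ _)
        (hkc.intervalIntegrable _ _)).symm
    rw [hYe s hs1]
    have : 0 ≤ 2 * s := by linarith [hs.1]
    exact mul_nonneg this (by linarith)
  have h6 : ∫ s in (0 : ℝ)..t, 2 * s * ((Ye s - Kk s) - (Y t - Kk t)) =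
      (∫ s in (0 : ℝ)..t, 2 * s * Ye s) - (∫ s in (0 : ℝ)..t, 2 * s * Kk s)
        - t ^ 2 * (Y t - Kk t) := by
    have e : ∀ s, 2 * s * ((Ye s - Kk s) - (Y t - Kk t)) =
        2 * s * Ye s - 2 * s * Kk s - 2 * s * (Y t - Kk t) := fun s => by ring
    simp_rw [e]
    rw [intervalIntegral.integral_sub, intervalIntegral.integral_sub,
      intervalIntegral.integral_mul_const, h2]
    · exact (by fun_prop : Continuous fun s => 2 * s * Ye s).intervalIntegrable _ _
    · exact (by fun_prop : Continuous fun s => 2 * s * Kk s).intervalIntegrable _ _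
    · exact (by fun_prop : Continuous fun s => 2 * s * Ye s - 2 * s * Kk s).intervalIntegrable _ _
    · exact (by fun_prop : Continuous fun s => 2 * s * (Y t - Kk t)).intervalIntegrable _ _
  have h7 : ∫ s in (0 : ℝ)..t, (2 * s * Y s + s ^ 2 * k s) =
      (∫ s in (0 : ℝ)..t, 2 * s * Ye s) + ∫ s in (0 : ℝ)..t, s ^ 2 * ke s := by
    rw [← intervalIntegral.integral_add]
    · refine intervalIntegral.integral_congr (fun x hx => ?_)
      rw [uIcc_of_le ht.1] at hx
      have hx1 : x ∈ Icc (0 : ℝ) 1 := ⟨hx.1, hx.2.trans ht.2⟩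
      show 2 * x * Y x + x ^ 2 * k x = 2 * x * Ye x + x ^ 2 * ke x
      rw [hYe x hx1, hke x hx1]
    · exact (by fun_prop : Continuous fun s => 2 * s * Ye s).intervalIntegrable _ _
    · exact (by fun_prop : Continuous fun s => s ^ 2 * ke s).intervalIntegrable _ _
  have h8 : ∫ s in (0 : ℝ)..t, (2 * s * Kk s + s ^ 2 * ke s) =
      (∫ s in (0 : ℝ)..t, 2 * s * Kk s) + ∫ s in (0 : ℝ)..t, s ^ 2 * ke s := by
    rw [← intervalIntegral.integral_add]
    · exact (by fun_prop : Continuous fun s => 2 * s * Kk s).intervalIntegrable _ _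
    · exact (by fun_prop : Continuous fun s => s ^ 2 * ke s).intervalIntegrable _ _
  linarith

section
variable {V K : Type} [NormedAddCommGroup V] [InnerProductSpace ℝ V] [CompleteSpace V]
    [NormedAddCommGroup K] [InnerProductSpace ℝ K]

/-- The core estimate on `[0,1]`. -/
lemma core (hE : Stmt_EnergyId) (hG : Stmt_GronwallInt) (D : Data V K)
    {η Λ c1 κ' A B h : ℝ} (hη : 0 < η) (hΛ : 0 ≤ Λ) (hc1 : 0 ≤ c1) (hκ : 0 ≤ κ')
    (hh : 0 < h) (hh1 : h ≤ 1) {z z1 S W : ℝ → V} (hz : IsH1loc z z1)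
    (hS : IsH1loc S W)
    (H1 : ∀ᵐ s ∂(volume.restrict (Ioc (0 : ℝ) 1)),
      2 * ⟪D.ι (z1 (s + h) - z1 s), D.ι (z (s + h) - z s)⟫ + η * D.sig (z (s + h) - z s) ^ 2 ≤
        Λ * ‖D.ι (z (s + h) - z s)‖ ^ 2 + c1 * D.sig (S (s + h) - S s) ^ 2 + κ')
    (H2 : ∀ᵐ s ∂(volume.restrict (Ioc (0 : ℝ) 2)), ∀ v,
      |⟪D.ι (z1 s), D.ι v⟫| ≤ (A * D.sig (z s) + B) * D.sig v) :
    ‖D.ι (z (1 + h) - z 1)‖ ^ 2 ≤ Real.exp Λ * (c1 * h ^ 2 * (∫ s in (0 : ℝ)..2, D.sig (W s) ^ 2)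
      + κ' + h ^ 2 / η * (2 * A ^ 2 * (∫ s in (0 : ℝ)..2, D.sig (z s) ^ 2) + 4 * B ^ 2)) := by
  set Z : ℝ → V := fun s => z (s + h) - z s with hZd
  set Z1 : ℝ → V := fun s => z1 (s + h) - z1 s with hZ1d
  have hZ : IsH1loc Z Z1 := isH1loc_sub (isH1loc_shift hz hh.le) hz
  have hzc : ContinuousOn z (Ici 0) := hz.continuousOn
  have hZc : ContinuousOn Z (Ici 0) := hZ.continuousOn
  have hDSc : ContinuousOn (fun s => S (s + h) - S s) (Ici 0) :=
    (isH1loc_sub (isH1loc_shift hS hh.le) hS).continuousOn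
  have hsub : Icc (0 : ℝ) 1 ⊆ Ici 0 := Icc_subset_Ici_self
  set Y : ℝ → ℝ := fun s => ‖D.ι (Z s)‖ ^ 2 with hYd
  have hYc : ContinuousOn Y (Icc 0 1) :=
    ((D.ι.continuous.comp_continuousOn (hZc.mono hsub)).norm).pow 2
  have hsZc : ContinuousOn (fun s => D.sig (Z s) ^ 2) (Icc 0 1) :=
    (D.continuous_sig.comp_continuousOn (hZc.mono hsub)).pow 2
  have hsDc : ContinuousOn (fun s => D.sig (S (s + h) - S s) ^ 2) (Icc 0 1) :=
    (D.continuous_sig.comp_continuousOn (hDSc.mono hsub)).pow 2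
  set k : ℝ → ℝ := fun s => Λ * Y s + c1 * D.sig (S (s + h) - S s) ^ 2 + κ'
    - η * D.sig (Z s) ^ 2 with hkd
  have hkc : ContinuousOn k (Icc 0 1) :=
    (((continuousOn_const.mul hYc).add (continuousOn_const.mul hsDc)).add
      continuousOn_const).sub (continuousOn_const.mul hsZc)
  -- the integrated difference inequality
  have hYk : ∀ s t, 0 ≤ s → s ≤ t → t ≤ 1 → Y t - Y s ≤ ∫ r in s..t, k r := by
    intro s t hs hst ht
    obtain ⟨hi, he⟩ := hE V K D.ι Z Z1 hZ s t hs hst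
    have hki : IntervalIntegrable k volume s t :=
      ContinuousOn.intervalIntegrable_of_Icc hst (hkc.mono (Icc_subset_Icc hs ht))
    have h1 : ∫ r in s..t, 2 * ⟪D.ι (Z1 r), D.ι (Z r)⟫ ≤ ∫ r in s..t, k r := by
      rw [intervalIntegral.integral_of_le hst, intervalIntegral.integral_of_le hst]
      refine integral_mono_ae (hi.const_mul 2).1 hki.1 ?_
      refine (ae_restrict_iff' measurableSet_Ioc).2 ?_
      filter_upwards [(ae_restrict_iff' measurableSet_Ioc).1 H1] with r hr hr'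
      have := hr ⟨lt_of_le_of_lt hs hr'.1, hr'.2.trans ht⟩
      simp only [hkd, hYd, hZd, hZ1d]
      linarith
    rw [intervalIntegral.integral_const_mul] at h1
    have he' : Y t = Y s + 2 * ∫ r in s..t, ⟪D.ι (Z1 r), D.ι (Z r)⟫ := he
    linarith
  have hW := weighted hYc hkc hYk
  -- interpolation
  set g : ℝ → ℝ := fun r => 2 * A ^ 2 * D.sig (z r) ^ 2 + 2 * B ^ 2 with hgd
  have hgc : ContinuousOn g (Ici 0) :=
    (continuousOn_const.mul ((D.continuous_sig.comp_continuousOn hzc).pow 2)).add continuousOn_const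
  have hg0 : ∀ r, 0 ≤ g r := fun r => by positivity
  have hgi : ∀ a b, 0 ≤ a → 0 ≤ b → IntervalIntegrable g volume a b := by
    intro a b ha hb
    refine ContinuousOn.intervalIntegrable (hgc.mono ?_)
    intro x hx
    exact (le_min ha hb).trans hx.1
  set J : ℝ → ℝ := fun s => ∫ r in s..(s + h), g r with hJd
  have hJc : ContinuousOn J (Icc 0 1) := by
    have hprim : ContinuousOn (fun t => ∫ r in (0 : ℝ)..t, g r) (Icc 0 2) := by
      have := intervalIntegral.continuousOn_primitive_interval' (a := (0 : ℝ)) (b₁ := 0)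
        (b₂ := 2) (hgi 0 2 le_rfl (by norm_num)) (by simp)
      rwa [uIcc_of_le (by norm_num)] at this
    have h2 : ContinuousOn (fun t => (∫ r in (0 : ℝ)..(t + h), g r)
        - ∫ r in (0 : ℝ)..t, g r) (Icc 0 1) := by
      refine ContinuousOn.sub ?_ (hprim.mono (Icc_subset_Icc_right (by norm_num)))
      refine hprim.comp (f := fun t : ℝ => t + h) (by fun_prop) (fun t ht => ?_)
      exact ⟨by linarith [ht.1], by linarith [ht.2]⟩
    refine h2.congr (fun t ht => ?_)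
    exact (intervalIntegral.integral_interval_sub_left
      (hgi 0 (t + h) le_rfl (by linarith [ht.1])) (hgi 0 t le_rfl ht.1)).symm
  have hJ0 : ∀ s, 0 ≤ J s := fun s =>
    intervalIntegral.integral_nonneg (by linarith) fun r _ => hg0 r
  have hint : ∀ s ∈ Icc (0 : ℝ) 1, 2 * s * Y s ≤ η * (s ^ 2 * D.sig (Z s) ^ 2) + h / η * J s := by
    intro s hs
    have hs0 : 0 ≤ s := hs.1
    set v := Z s with hv
    set I : ℝ := ∫ r in s..(s + h), (A * D.sig (z r) + B) with hI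
    have hic : ContinuousOn (fun r => A * D.sig (z r) + B) (Ici 0) :=
      (continuousOn_const.mul (D.continuous_sig.comp_continuousOn hzc)).add continuousOn_const
    have hii : IntervalIntegrable (fun r => A * D.sig (z r) + B) volume s (s + h) := by
      refine ContinuousOn.intervalIntegrable_of_Icc (by linarith) (hic.mono ?_)
      intro x hx
      exact hs0.trans hx.1
    have hY1 : Y s ≤ D.sig v * I := by
      let L : V →L[ℝ] ℝ := (innerSL ℝ (D.ι v)).comp D.ι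
      have hL : ∀ y, L y = ⟪D.ι v, D.ι y⟫ := fun y => rfl
      have hz1i := hz.intervalIntegrable hs0 (by linarith : 0 ≤ s + h)
      have h1 : L v = ∫ r in s..(s + h), L (z1 r) := by
        rw [ContinuousLinearMap.intervalIntegral_comp_comm L hz1i,
          ← hz.sub_eq hs0 (by linarith)]
      have h2 : Y s = L v := by
        rw [hL, real_inner_self_eq_norm_sq]
      rw [h2, h1, hI, ← intervalIntegral.integral_const_mul,
        intervalIntegral.integral_of_le (by linarith), intervalIntegral.integral_of_le (by linarith)]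
      have hLi : IntervalIntegrable (fun r => L (z1 r)) volume s (s + h) := by
        rw [intervalIntegrable_iff] at hz1i ⊢
        exact L.integrable_comp hz1i
      refine integral_mono_ae hLi.1 (hii.const_mul _).1 ?_
      refine (ae_restrict_iff' measurableSet_Ioc).2 ?_
      filter_upwards [(ae_restrict_iff' measurableSet_Ioc).1 H2] with r hr hr'
      have h3 := hr ⟨lt_of_le_of_lt hs0 hr'.1, by linarith [hr'.2, hs.2]⟩ v
      rw [hL, real_inner_comm]
      have h4 := (abs_le.1 h3).2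
      linarith
    have hI2 : I ^ 2 ≤ h * J s := by
      have hii2 : IntervalIntegrable (fun r => (A * D.sig (z r) + B) ^ 2) volume s (s + h) := by
        refine ContinuousOn.intervalIntegrable_of_Icc (by linarith) ((hic.pow 2).mono ?_)
        intro x hx
        exact hs0.trans hx.1
      have h1 := sq_intervalIntegral_le (by linarith : s < s + h) hii hii2
      rw [add_sub_cancel_left] at h1
      refine h1.trans (mul_le_mul_of_nonneg_left ?_ hh.le)
      refine intervalIntegral.integral_mono_on (by linarith) hii2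
        (hgi s (s + h) hs0 (by linarith)) (fun r _ => ?_)
      simp only [hgd]
      nlinarith [sq_nonneg (A * D.sig (z r) - B)]
    have h5 : 2 * (s * D.sig v) * I ≤ η * (s * D.sig v) ^ 2 + I ^ 2 / η := by
      have h6 : 0 ≤ (η * (s * D.sig v) - I) ^ 2 / η := by positivity
      have e : (η * (s * D.sig v) - I) ^ 2 / η =
          η * (s * D.sig v) ^ 2 + I ^ 2 / η - 2 * (s * D.sig v) * I := by
        field_simp; ring
      linarith
    have h7 : I ^ 2 / η ≤ h / η * J s := by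
      have : h / η * J s = h * J s / η := by ring
      rw [this]
      gcongr
    have h8 : 2 * s * Y s ≤ 2 * s * (D.sig v * I) := by gcongr
    calc 2 * s * Y s ≤ 2 * s * (D.sig v * I) := h8
      _ = 2 * (s * D.sig v) * I := by ring
      _ ≤ η * (s * D.sig v) ^ 2 + I ^ 2 / η := h5
      _ ≤ η * (s ^ 2 * D.sig v ^ 2) + h / η * J s := by rw [mul_pow]; gcongr
  -- Gronwall
  set y : ℝ → ℝ := fun t => t ^ 2 * Y t with hyd
  set r : ℝ → ℝ := fun s => s ^ 2 * (c1 * D.sig (S (s + h) - S s) ^ 2 + κ') + h / η * J s with hrd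
  have hyc : ContinuousOn y (Icc 0 1) := (continuousOn_id.pow 2).mul hYc
  have hrc : ContinuousOn r (Icc 0 1) :=
    ((continuousOn_id.pow 2).mul ((continuousOn_const.mul hsDc).add continuousOn_const)).add
      (continuousOn_const.mul hJc)
  have hr0 : ∀ s ∈ Icc (0 : ℝ) 1, 0 ≤ r s := fun s _ => by
    have := hJ0 s
    simp only [hrd]
    positivity
  have hmain : ∀ t ∈ Icc (0 : ℝ) 1, y t ≤ y 0 + ∫ s in (0 : ℝ)..t, (Λ * y s + r s - 0) := by
    intro t ht
    have h1 := hW t ht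
    have hy0 : y 0 = 0 := by simp [hyd]
    rw [hy0, zero_add]
    refine h1.trans ?_
    refine intervalIntegral.integral_mono_on ht.1 ?_ ?_ (fun s hs => ?_)
    · refine ContinuousOn.intervalIntegrable_of_Icc ht.1 (ContinuousOn.mono ?_ (Icc_subset_Icc_right ht.2))
      exact ((continuousOn_const.mul continuousOn_id).mul hYc).add
        ((continuousOn_id.pow 2).mul hkc)
    · refine ContinuousOn.intervalIntegrable_of_Icc ht.1 (ContinuousOn.mono ?_ (Icc_subset_Icc_right ht.2))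
      exact ((continuousOn_const.mul hyc).add hrc).sub continuousOn_const
    · have h2 := hint s ⟨hs.1, hs.2.trans ht.2⟩
      simp only [hkd, hyd, hrd]
      linarith
  have fin := hG 1 y (fun _ => Λ) r (fun _ => 0) hyc continuousOn_const hrc continuousOn_const
    (fun _ _ => hΛ) hr0 (fun _ _ => le_rfl) (by simp [hyd]) hmain 1 ⟨zero_le_one, le_rfl⟩
  have hy0 : y 0 = 0 := by simp [hyd]
  have hy1 : y 1 = ‖D.ι (z (1 + h) - z 1)‖ ^ 2 := by simp [hyd, hYd, hZd]
  simp only [intervalIntegral.integral_zero, add_zero, hy0, zero_add, hy1,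
    intervalIntegral.integral_const, sub_zero, smul_eq_mul, one_mul] at fin
  refine fin.trans ?_
  rw [mul_comm (Real.exp Λ)]
  refine mul_le_mul_of_nonneg_right ?_ (Real.exp_pos _).le
  -- the integral of r
  have i1 : ∫ s in (0 : ℝ)..1, r s ≤ ∫ s in (0 : ℝ)..1, (c1 * D.sig (S (s + h) - S s) ^ 2 + κ' + h / η * J s) := by
    refine intervalIntegral.integral_mono_on zero_le_one (hrc.intervalIntegrable_of_Icc zero_le_one)
      ?_ (fun s hs => ?_)
    · exact (((continuousOn_const.mul hsDc).add continuousOn_const).add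
        (continuousOn_const.mul hJc)).intervalIntegrable_of_Icc zero_le_one
    · simp only [hrd]
      have h1 : s ^ 2 ≤ 1 := by nlinarith [hs.1, hs.2]
      have h2 : 0 ≤ c1 * D.sig (S (s + h) - S s) ^ 2 + κ' := by positivity
      nlinarith
  have i2 : ∫ s in (0 : ℝ)..1, (c1 * D.sig (S (s + h) - S s) ^ 2 + κ' + h / η * J s) =
      c1 * (∫ s in (0 : ℝ)..1, D.sig (S (s + h) - S s) ^ 2) + κ'
        + h / η * ∫ s in (0 : ℝ)..1, J s := by
    rw [intervalIntegral.integral_add, intervalIntegral.integral_add,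
      intervalIntegral.integral_const_mul, intervalIntegral.integral_const_mul,
      intervalIntegral.integral_const]
    · simp
    · exact (continuousOn_const.mul hsDc).intervalIntegrable_of_Icc zero_le_one
    · exact intervalIntegrable_const
    · exact ((continuousOn_const.mul hsDc).add continuousOn_const).intervalIntegrable_of_Icc
        zero_le_one
    · exact (continuousOn_const.mul hJc).intervalIntegrable_of_Icc zero_le_one
  have i3 := int_sig_incr_le D hS (T := 1) zero_le_one hh.le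
  have i4 : ∫ s in (0 : ℝ)..(1 + h), D.sig (W s) ^ 2 ≤ ∫ s in (0 : ℝ)..2, D.sig (W s) ^ 2 := by
    refine intervalIntegral.integral_mono_interval le_rfl (by linarith) (by linarith)
      (Eventually.of_forall fun s => by positivity) ?_
    exact intervalIntegrable_sig_sq hS D le_rfl (by norm_num)
  have i5 : ∫ s in (0 : ℝ)..1, J s ≤ h * ∫ s in (0 : ℝ)..(1 + h), g s :=
    int_incr_le zero_le_one hh.le (hgi 0 (1 + h) le_rfl (by linarith)) hg0
  have i6 : ∫ s in (0 : ℝ)..(1 + h), g s ≤ ∫ s in (0 : ℝ)..2, g s := by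
    refine intervalIntegral.integral_mono_interval le_rfl (by linarith) (by linarith)
      (Eventually.of_forall fun s => hg0 s) ?_
    exact hgi 0 2 le_rfl (by norm_num)
  have i7 : ∫ s in (0 : ℝ)..2, g s = 2 * A ^ 2 * (∫ s in (0 : ℝ)..2, D.sig (z s) ^ 2) + 4 * B ^ 2 := by
    have hzi : IntervalIntegrable (fun s => D.sig (z s) ^ 2) volume 0 2 := by
      refine ContinuousOn.intervalIntegrable_of_Icc (by norm_num) ?_
      exact ((D.continuous_sig.comp_continuousOn hzc).pow 2).mono Icc_subset_Ici_self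
    simp only [hgd]
    rw [intervalIntegral.integral_add (hzi.const_mul _) intervalIntegrable_const,
      intervalIntegral.integral_const_mul, intervalIntegral.integral_const]
    simp only [sub_zero, smul_eq_mul]
    ring
  rw [i2] at i1
  rw [← i7]
  have hηh : 0 ≤ h / η := by positivity
  have j1 : c1 * (∫ s in (0 : ℝ)..1, D.sig (S (s + h) - S s) ^ 2) ≤
      c1 * (h ^ 2 * ∫ s in (0 : ℝ)..2, D.sig (W s) ^ 2) := by
    gcongr
    exact i3.trans (by gcongr)
  have j2 : h / η * (∫ s in (0 : ℝ)..1, J s) ≤ h / η * (h * ∫ s in (0 : ℝ)..2, g s) := by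
    gcongr
    exact i5.trans (by gcongr)
  calc ∫ s in (0 : ℝ)..1, r s ≤ _ := i1
    _ ≤ c1 * (h ^ 2 * ∫ s in (0 : ℝ)..2, D.sig (W s) ^ 2) + κ'
        + h / η * (h * ∫ s in (0 : ℝ)..2, g s) := by linarith
    _ = _ := by ring

/-- `N⁸ s⁴ exp(-cN²s) ≤ 24/c⁴`. -/
lemma exb {c N s : ℝ} (hc : 0 < c) (hN : 0 < N) (hs : 0 < s) :
    N ^ 8 * s ^ 4 * ex c N s ≤ 24 / c ^ 4 := by
  have hx : 0 ≤ c * N ^ 2 * s := by positivity
  have h1 := Real.pow_div_factorial_le_exp (c * N ^ 2 * s) hx 4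
  have h2 : (4 : ℕ).factorial = 24 := rfl
  rw [h2] at h1
  unfold ex
  rw [Real.exp_neg, le_div_iff₀ (by positivity), ← div_eq_mul_inv, div_mul_eq_mul_div,
    div_le_iff₀ (Real.exp_pos _)]
  rw [div_le_iff₀ (by norm_num)] at h1
  calc N ^ 8 * s ^ 4 * c ^ 4 = (c * N ^ 2 * s) ^ 4 := by ring
    _ ≤ _ := h1
    _ = _ := by push_cast; ring

end

end Smooth

open Smooth in
theorem smooth_proof (hE : Stmt_EnergyId) (hG : Stmt_GronwallInt) : Stmt_Smooth := by
  intro V K _ _ _ _ _ D η M c CS hη hM hc hCS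
  obtain ⟨Cb, hCb0, hCb⟩ := DI.b_sig D
  obtain ⟨Cp, hCp0, hCp⟩ := DI.pt D hη
  have hsc : 0 < √D.c₀ := Real.sqrt_pos.2 D.c₀_pos
  obtain ⟨K1, hK10, hK1⟩ : ∃ K1 : ℝ, 0 ≤ K1 ∧ ∀ v, ‖D.ι v‖ ≤ K1 * D.sig v := by
    refine ⟨‖D.ι‖ / √D.c₀, by positivity, fun v => ?_⟩
    have h1 := D.ι.le_opNorm v
    have h2 : ‖v‖ ≤ D.sig v / √D.c₀ := by
      rw [le_div_iff₀ hsc, mul_comm]; exact D.norm_le_sig v
    calc ‖D.ι v‖ ≤ ‖D.ι‖ * ‖v‖ := h1
      _ ≤ ‖D.ι‖ * (D.sig v / √D.c₀) := by gcongr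
      _ = _ := by ring
  set κ : ℝ := 24 / c ^ 4 with hκ
  have hκ0 : 0 ≤ κ := by positivity
  set A : ℝ := η + 2 * Cb * (CS + M * κ) + Cb * (CS + 1) with hA
  set B0 : ℝ := 2 * M * CS * κ + M * κ * K1 with hB0
  set Λ : ℝ := Cp * (CS ^ 4 + CS ^ 2 + M ^ 2 * κ) + 1 with hΛ
  set c1 : ℝ := Cp * (2 * CS) with hc1
  set κ0 : ℝ := Cp * (4 * M ^ 2 * CS ^ 2 * κ) + M ^ 2 * κ with hκ0'
  have hA0 : 0 ≤ A := by positivity
  have hB00 : 0 ≤ B0 := by positivity
  have hΛ0 : 0 ≤ Λ := by positivity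
  have hc10 : 0 ≤ c1 := by positivity
  have hκ00 : 0 ≤ κ0 := by positivity
  refine ⟨Real.exp Λ * (c1 + κ0 + (2 * A ^ 2 * CS + 4 * B0 ^ 2) / η), by positivity, ?_⟩
  intro N T₀ f S W u w P P' ρ hN hT₀ hS hBd hu hL h0 hzb hzint h hh0 hh1
  have hN0 : 0 < N := by linarith
  rcases eq_or_lt_of_le hh0 with hh | hh
  · subst hh
    simp
  set z : ℝ → V := fun t => u t - S t - P t with hz
  set z1 : ℝ → V := fun t => w t - W t - P' t with hz1
  have hzH : IsH1loc z z1 := z_isH1loc hS hu hL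
  have hT00 : 0 ≤ T₀ := by linarith
  -- the equation
  have hae : ∀ᵐ s, s ∈ Ioc 0 (T₀ + 2) → DI.E0 D η (S 0) (S s) (P s) (z s) (z1 s) (ρ s) := by
    filter_upwards [(ae_restrict_iff' measurableSet_Ioc).1 (eqE0 hS hu hL)] with s hs hs' v
    have h1 := hs hs' v
    have h2 : S s + P s + z s = u s := by simp only [hz]; abel
    rw [h2]
    exact h1
  have hae1 : ∀ᵐ s, s + T₀ ∈ Ioc 0 (T₀ + 2) →
      DI.E0 D η (S 0) (S (s + T₀)) (P (s + T₀)) (z (s + T₀)) (z1 (s + T₀)) (ρ (s + T₀)) :=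
    (measurePreserving_add_right (volume : Measure ℝ) T₀).quasiMeasurePreserving.ae hae
  have hae2 : ∀ᵐ s, s + (h + T₀) ∈ Ioc 0 (T₀ + 2) →
      DI.E0 D η (S 0) (S (s + (h + T₀))) (P (s + (h + T₀))) (z (s + (h + T₀)))
        (z1 (s + (h + T₀))) (ρ (s + (h + T₀))) :=
    (measurePreserving_add_right (volume : Measure ℝ) (h + T₀)).quasiMeasurePreserving.ae hae
  -- bounds on exponentials
  have hex0 : ∀ s, 0 ≤ ex c N s := fun s => ex_nonneg c N s
  have hex1 : ∀ s, 1 ≤ s → ex c N s ≤ 1 := fun s hs => by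
    have := ex_mono (N := N) hc.le (by linarith : (0 : ℝ) ≤ s)
    rwa [ex_zero] at this
  have hexk : ∀ s, 1 ≤ s → N ^ 8 * s ^ 4 * ex c N s ≤ κ := fun s hs => exb hc hN0 (by linarith)
  have hN2 : 1 ≤ N ^ 2 := one_le_pow₀ hN
  -- N s ex ≤ κ / N
  have e1 : ∀ s, 1 ≤ s → N * s * ex c N s ≤ κ / N := fun s hs => by
    rw [le_div_iff₀ hN0]
    refine le_trans ?_ (hexk s hs)
    have h1 : N * s * N ≤ N ^ 8 * s ^ 4 := by
      have a1 : N ^ 2 ≤ N ^ 8 := pow_le_pow_right₀ hN (by norm_num)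
      have a2 : s ^ 1 ≤ s ^ 4 := pow_le_pow_right₀ hs (by norm_num)
      calc N * s * N = N ^ 2 * s ^ 1 := by ring
        _ ≤ N ^ 8 * s ^ 4 := by gcongr
    have := mul_le_mul_of_nonneg_right h1 (hex0 s)
    linarith
  have e1' : ∀ s, 1 ≤ s → N * ex c N s ≤ κ / N := fun s hs => by
    refine le_trans ?_ (e1 s hs)
    have : N * ex c N s * 1 ≤ N * ex c N s * s := by
      have := hex0 s
      gcongr
    linarith
  -- N^2 ex ≤ κ
  have e2 : ∀ s, 1 ≤ s → N ^ 2 * ex c N s ≤ κ := fun s hs => by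
    refine le_trans ?_ (hexk s hs)
    have h1 : N ^ 2 ≤ N ^ 8 * s ^ 4 := by
      have a1 : N ^ 2 ≤ N ^ 8 := pow_le_pow_right₀ hN (by norm_num)
      have a2 : 1 ≤ s ^ 4 := one_le_pow₀ hs
      calc N ^ 2 = N ^ 2 * 1 := by ring
        _ ≤ N ^ 8 * s ^ 4 := by gcongr
    exact mul_le_mul_of_nonneg_right h1 (hex0 s)
  -- N^6 s^2 ex^2 ≤ κ / N^2
  have e3 : ∀ s, 1 ≤ s → N ^ 6 * s ^ 2 * ex c N s ^ 2 ≤ κ / N ^ 2 := fun s hs => by
    rw [le_div_iff₀ (by positivity)]
    refine le_trans ?_ (hexk s hs)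
    have h1 : s ^ 2 ≤ s ^ 4 := pow_le_pow_right₀ hs (by norm_num)
    have h2 : ex c N s ^ 2 ≤ ex c N s := by nlinarith [hex0 s, hex1 s hs]
    calc N ^ 6 * s ^ 2 * ex c N s ^ 2 * N ^ 2 = N ^ 8 * s ^ 2 * ex c N s ^ 2 := by ring
      _ ≤ N ^ 8 * s ^ 4 * ex c N s := by
        have := hex0 s
        gcongr
  have e4 : ∀ s, 1 ≤ s → N ^ 6 * ex c N s ^ 2 ≤ κ / N ^ 2 := fun s hs => by
    refine le_trans ?_ (e3 s hs)
    have a2 : 1 ≤ s ^ 2 := one_le_pow₀ hs
    have a3 : 0 ≤ N ^ 6 * ex c N s ^ 2 := by positivity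
    nlinarith
  have e5 : ∀ s, 1 ≤ s → N ^ 2 * ex c N s ^ 2 ≤ κ / N ^ 2 := fun s hs => by
    refine le_trans ?_ (e4 s hs)
    have a1 : N ^ 2 ≤ N ^ 6 := pow_le_pow_right₀ hN (by norm_num)
    gcongr
  -- bounds on the functions
  have hσz : ∀ s, 0 ≤ s → s ≤ T₀ + 2 → D.sig (z s) ^ 2 ≤ CS := fun s h1 h2 => (hzb s ⟨h1, h2⟩).2
  have hιz : ∀ s, 0 ≤ s → s ≤ T₀ + 2 → ‖D.ι (z s)‖ ≤ CS := fun s h1 h2 => by
    refine (hzb s ⟨h1, h2⟩).1.trans ?_
    rw [div_le_iff₀ hN0]
    exact le_mul_of_one_le_right hCS hN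
  have hσS : ∀ s, 0 ≤ s → s ≤ T₀ + 2 → D.sig (S s) ≤ CS := fun s h1 h2 => hBd.sig s ⟨h1, h2⟩
  have hdS : ∀ s, 0 ≤ s → s ≤ T₀ + 2 → ‖D.ι (S s - S 0)‖ ≤ CS * s := fun s h1 h2 =>
    BdOn.dS_le hS.h1 hBd hCS h1 h2
  -- H2
  have H2 : ∀ᵐ s ∂(volume.restrict (Ioc (0 : ℝ) 2)), ∀ v,
      |⟪D.ι (z1 (s + T₀)), D.ι v⟫| ≤ (A * D.sig (z (s + T₀)) + B0 / N) * D.sig v := by
    rw [ae_restrict_iff' measurableSet_Ioc]
    filter_upwards [hae1] with t ht ht' v
    have hs0 : 0 < t + T₀ := by linarith [ht'.1]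
    have hs1 : 1 ≤ t + T₀ := by linarith [ht'.1]
    have hs2 : t + T₀ ≤ T₀ + 2 := by linarith [ht'.2]
    have heq := ht ⟨hs0, hs2⟩ v
    set s := t + T₀ with hs
    have hzs := hσz s hs0.le hs2
    have hzs0 := D.sig_nonneg (z s)
    have hv0 := D.sig_nonneg v
    have hz' : D.sig (z s) ≤ CS + 1 := by linarith [two_mul_le_add_sq (D.sig (z s)) 1]
    have hP : D.sig (P s) ≤ M * κ := by
      refine (hL.sigP s hs0.le).trans ?_
      calc M * N ^ 2 * ex c N s = M * (N ^ 2 * ex c N s) := by ring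
        _ ≤ M * κ := by gcongr; exact e2 s hs1
    have hSs := hσS s hs0.le hs2
    have hSP : D.sig (S s + P s) ≤ CS + M * κ := (D.sig_add_le _ _).trans (by linarith)
    have hSPz : D.sig (S s + P s + z s) ≤ CS + M * κ + (CS + 1) :=
      (D.sig_add_le _ _).trans (by linarith)
    have t1 : |η * D.a (z s) v| ≤ η * (D.sig (z s) * D.sig v) := by
      rw [abs_mul, abs_of_pos hη]
      gcongr
      exact D.a_cs _ _
    have t2 : |D.b (z s) (S s + P s + z s) v| ≤
        Cb * (CS + M * κ + (CS + 1)) * (D.sig (z s) * D.sig v) := by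
      refine (hCb _ _ _).trans ?_
      calc Cb * D.sig (z s) * D.sig (S s + P s + z s) * D.sig v
          ≤ Cb * D.sig (z s) * (CS + M * κ + (CS + 1)) * D.sig v := by gcongr
        _ = _ := by ring
    have t3 : |D.b (S s + P s) (z s) v| ≤ Cb * (CS + M * κ) * (D.sig (z s) * D.sig v) := by
      refine (hCb _ _ _).trans ?_
      calc Cb * D.sig (S s + P s) * D.sig (z s) * D.sig v
          ≤ Cb * (CS + M * κ) * D.sig (z s) * D.sig v := by gcongr
        _ = _ := by ring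
    have hdSs := hdS s hs0.le hs2
    have q1 : M * N * ex c N s * ‖D.ι (S s - S 0)‖ ≤ M * CS * κ / N := by
      calc M * N * ex c N s * ‖D.ι (S s - S 0)‖ ≤ M * N * ex c N s * (CS * s) := by
            have := hex0 s
            gcongr
        _ = M * CS * (N * s * ex c N s) := by ring
        _ ≤ M * CS * (κ / N) := by gcongr; exact e1 s hs1
        _ = _ := by ring
    have t4 : |D.b (S s - S 0) (P s) v| ≤ M * CS * κ / N * D.sig v :=
      ((hL.star s hs0.le).b3 _ _).trans (mul_le_mul_of_nonneg_right q1 hv0)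
    have t5 : |D.b (P s) (S s - S 0) v| ≤ M * CS * κ / N * D.sig v :=
      ((hL.star s hs0.le).b4 _ _).trans (mul_le_mul_of_nonneg_right q1 hv0)
    have t6 : |⟪ρ s, D.ι v⟫| ≤ M * κ * K1 / N * D.sig v := by
      refine (abs_real_inner_le_norm _ _).trans ?_
      calc ‖ρ s‖ * ‖D.ι v‖ ≤ (M * N * ex c N s) * (K1 * D.sig v) := by
            have := hL.rho s hs0.le
            have := hK1 v
            have := hex0 s
            gcongr
        _ = M * K1 * (N * ex c N s) * D.sig v := by ring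
        _ ≤ M * K1 * (κ / N) * D.sig v := by gcongr; exact e1' s hs1
        _ = _ := by ring
    have hfin : |⟪D.ι (z1 s), D.ι v⟫| ≤ η * (D.sig (z s) * D.sig v)
        + Cb * (CS + M * κ + (CS + 1)) * (D.sig (z s) * D.sig v)
        + Cb * (CS + M * κ) * (D.sig (z s) * D.sig v) + M * CS * κ / N * D.sig v
        + M * CS * κ / N * D.sig v + M * κ * K1 / N * D.sig v := by
      have a1 := abs_le.1 t1
      have a2 := abs_le.1 t2
      have a3 := abs_le.1 t3
      have a4 := abs_le.1 t4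
      have a5 := abs_le.1 t5
      have a6 := abs_le.1 t6
      rw [abs_le]
      constructor <;> linarith [a1.1, a1.2, a2.1, a2.2, a3.1, a3.2, a4.1, a4.2, a5.1, a5.2,
        a6.1, a6.2]
    refine hfin.trans (le_of_eq ?_)
    rw [hA, hB0]
    ring
  -- H1
  have H1 : ∀ᵐ s ∂(volume.restrict (Ioc (0 : ℝ) 1)),
      2 * ⟪D.ι (z1 (s + h + T₀) - z1 (s + T₀)), D.ι (z (s + h + T₀) - z (s + T₀))⟫
        + η * D.sig (z (s + h + T₀) - z (s + T₀)) ^ 2 ≤
        Λ * ‖D.ι (z (s + h + T₀) - z (s + T₀))‖ ^ 2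
        + c1 * D.sig (S (s + h + T₀) - S (s + T₀)) ^ 2 + κ0 * h ^ 2 / N ^ 2 := by
    rw [ae_restrict_iff' measurableSet_Ioc]
    filter_upwards [hae1, hae2] with t ht1 ht2 ht'
    have hs0 : 0 < t + T₀ := by linarith [ht'.1]
    have hs1 : 1 ≤ t + T₀ := by linarith [ht'.1]
    have hs2 : t + T₀ ≤ T₀ + 2 := by linarith [ht'.2]
    have hs3 : t + T₀ + h ≤ T₀ + 2 := by linarith [ht'.2]
    have eq1 := ht1 ⟨hs0, hs2⟩
    have eq2 := ht2 ⟨by linarith, by linarith⟩
    have hre : t + (h + T₀) = t + T₀ + h := by ring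
    have hre' : t + h + T₀ = t + T₀ + h := by ring
    rw [hre] at eq2
    rw [hre']
    set s := t + T₀ with hs
    have st1 : StarBd D (P (s + h)) (M * N * ex c N s) := by
      intro x y
      have h1 := hL.star (s + h) (by linarith) x y
      have h2 : M * N * ex c N (s + h) * ‖D.ι x‖ * D.sig y ≤ M * N * ex c N s * ‖D.ι x‖ * D.sig y := by
        have := ex_mono (N := N) hc.le (by linarith : s ≤ s + h)
        have := D.sig_nonneg y
        gcongr
      exact ⟨h1.1.trans h2, h1.2.trans h2⟩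
    have st2 := hL.starD s h hs0.le hh.le hh1
    have key := hCp (S 0) (S s) (S (s + h)) (P s) (P (s + h)) (z s) (z (s + h)) (z1 s) (z1 (s + h))
      (ρ s) (ρ (s + h)) _ _ st1 st2 eq1 eq2
    refine key.trans ?_
    set Y := ‖D.ι (z (s + h) - z s)‖ with hY
    have hY0 : 0 ≤ Y := norm_nonneg _
    have hexs := hex0 s
    have b1 : (D.sig (S (s + h)) ^ 4 + D.sig (z (s + h)) ^ 4 + (M * N * ex c N s) ^ 2) * Y ^ 2 ≤
        (CS ^ 4 + CS ^ 2 + M ^ 2 * κ) * Y ^ 2 := by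
      refine mul_le_mul_of_nonneg_right ?_ (sq_nonneg _)
      have a1 : D.sig (S (s + h)) ^ 4 ≤ CS ^ 4 :=
        pow_le_pow_left₀ (D.sig_nonneg _) (hσS _ (by linarith) hs3) 4
      have a2 : D.sig (z (s + h)) ^ 4 ≤ CS ^ 2 := by
        have := pow_le_pow_left₀ (sq_nonneg _) (hσz _ (by linarith) hs3) 2
        calc D.sig (z (s + h)) ^ 4 = (D.sig (z (s + h)) ^ 2) ^ 2 := by ring
          _ ≤ _ := this
      have a3 : (M * N * ex c N s) ^ 2 ≤ M ^ 2 * κ := by
        calc (M * N * ex c N s) ^ 2 = M ^ 2 * (N ^ 2 * ex c N s) * ex c N s := by ring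
          _ ≤ M ^ 2 * κ * 1 := by
            have := e2 s hs1
            have := hex1 s hs1
            gcongr
          _ = _ := by ring
      linarith
    have b2 : (D.sig (z s) ^ 2 + D.sig (z (s + h)) ^ 2) * D.sig (S (s + h) - S s) ^ 2 ≤
        (2 * CS) * D.sig (S (s + h) - S s) ^ 2 := by
      refine mul_le_mul_of_nonneg_right ?_ (sq_nonneg _)
      have a1 := hσz s hs0.le hs2
      have a2 := hσz (s + h) (by linarith) hs3
      linarith
    have b3 : (M * N ^ 3 * h * ex c N s) ^ 2 * (‖D.ι (z s)‖ ^ 2 + ‖D.ι (z (s + h))‖ ^ 2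
        + ‖D.ι (S s - S 0)‖ ^ 2) ≤ 3 * M ^ 2 * CS ^ 2 * κ * (h ^ 2 / N ^ 2) := by
      have a1 : ‖D.ι (z s)‖ ^ 2 ≤ CS ^ 2 * s ^ 2 := by
        have h1 := pow_le_pow_left₀ (norm_nonneg _) (hιz s hs0.le hs2) 2
        have h2 : 1 ≤ s ^ 2 := one_le_pow₀ hs1
        nlinarith [sq_nonneg CS]
      have a2 : ‖D.ι (z (s + h))‖ ^ 2 ≤ CS ^ 2 * s ^ 2 := by
        have h1 := pow_le_pow_left₀ (norm_nonneg _) (hιz (s + h) (by linarith) hs3) 2
        have h2 : 1 ≤ s ^ 2 := one_le_pow₀ hs1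
        nlinarith [sq_nonneg CS]
      have a3 : ‖D.ι (S s - S 0)‖ ^ 2 ≤ CS ^ 2 * s ^ 2 := by
        have h1 := pow_le_pow_left₀ (norm_nonneg _) (hdS s hs0.le hs2) 2
        calc _ ≤ _ := h1
          _ = _ := by ring
      calc _ ≤ (M * N ^ 3 * h * ex c N s) ^ 2 * (CS ^ 2 * s ^ 2 + CS ^ 2 * s ^ 2 + CS ^ 2 * s ^ 2) := by
            gcongr
        _ = 3 * M ^ 2 * CS ^ 2 * h ^ 2 * (N ^ 6 * s ^ 2 * ex c N s ^ 2) := by ring
        _ ≤ 3 * M ^ 2 * CS ^ 2 * h ^ 2 * (κ / N ^ 2) := by gcongr; exact e3 s hs1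
        _ = _ := by ring
    have b4 : (M * N * ex c N s) ^ 2 * ‖D.ι (S (s + h) - S s)‖ ^ 2 ≤
        M ^ 2 * CS ^ 2 * κ * (h ^ 2 / N ^ 2) := by
      have a1 : ‖D.ι (S (s + h) - S s)‖ ≤ CS * h := by
        have := norm_sub_le_on hS.h1 hCS hBd.iW hs0.le (by linarith : s ≤ s + h) hs3
        rwa [add_sub_cancel_left] at this
      calc _ ≤ (M * N * ex c N s) ^ 2 * (CS * h) ^ 2 := by gcongr
        _ = M ^ 2 * CS ^ 2 * h ^ 2 * (N ^ 2 * ex c N s ^ 2) := by ring
        _ ≤ M ^ 2 * CS ^ 2 * h ^ 2 * (κ / N ^ 2) := by gcongr; exact e5 s hs1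
        _ = _ := by ring
    have b5 : 2 * ‖ρ (s + h) - ρ s‖ * Y ≤ M ^ 2 * κ * (h ^ 2 / N ^ 2) + Y ^ 2 := by
      have a1 := hL.rhoD s h hs0.le hh.le hh1
      have a2 : ‖ρ (s + h) - ρ s‖ ^ 2 ≤ M ^ 2 * κ * (h ^ 2 / N ^ 2) := by
        calc ‖ρ (s + h) - ρ s‖ ^ 2 ≤ (M * N ^ 3 * h * ex c N s) ^ 2 := by gcongr
          _ = M ^ 2 * h ^ 2 * (N ^ 6 * ex c N s ^ 2) := by ring
          _ ≤ M ^ 2 * h ^ 2 * (κ / N ^ 2) := by gcongr; exact e4 s hs1
          _ = _ := by ring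
      linarith [two_mul_le_add_sq (‖ρ (s + h) - ρ s‖) Y]
    have hfin := mul_le_mul_of_nonneg_left (add_le_add (add_le_add (add_le_add b1 b2) b3) b4) hCp0
    refine (add_le_add hfin b5).trans (le_of_eq ?_)
    rw [hΛ, hc1, hκ0']
    ring
  have key := core hE hG D (κ' := κ0 * h ^ 2 / N ^ 2) hη hΛ0 hc10 (by positivity) hh hh1
    (isH1loc_shift hzH hT00) (isH1loc_shift hS.h1 hT00) H1 H2
  have r1 : T₀ + 1 + h = 1 + h + T₀ := by ring
  have r2 : T₀ + 1 = 1 + T₀ := by ring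
  rw [r1, r2]
  refine key.trans ?_
  have i1 : ∫ s in (0 : ℝ)..2, D.sig (W (s + T₀)) ^ 2 = ∫ s in T₀..(T₀ + 2), D.sig (W s) ^ 2 := by
    rw [intervalIntegral.integral_comp_add_right (fun s => D.sig (W s) ^ 2) T₀, zero_add,
      add_comm 2 T₀]
  have hzc := hzH.continuousOn
  have i2 : ∫ s in (0 : ℝ)..2, D.sig (z (s + T₀)) ^ 2 ≤ CS / N ^ 2 := by
    rw [intervalIntegral.integral_comp_add_right (fun s => D.sig (z s) ^ 2) T₀, zero_add,
      add_comm 2 T₀]
    refine le_trans ?_ hzint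
    refine intervalIntegral.integral_mono_interval hT00 (by linarith) le_rfl
      (Eventually.of_forall fun s => by positivity) ?_
    refine ContinuousOn.intervalIntegrable_of_Icc (by linarith) ?_
    exact ((D.continuous_sig.comp_continuousOn hzc).pow 2).mono Icc_subset_Ici_self
  rw [i1]
  set IW := ∫ s in T₀..(T₀ + 2), D.sig (W s) ^ 2 with hIW
  have hIW0 : 0 ≤ IW := intervalIntegral.integral_nonneg (by linarith) fun s _ => by positivity
  have j1 : h ^ 2 / η * (2 * A ^ 2 * (∫ s in (0 : ℝ)..2, D.sig (z (s + T₀)) ^ 2) + 4 * (B0 / N) ^ 2)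
      ≤ h ^ 2 / η * (2 * A ^ 2 * (CS / N ^ 2) + 4 * (B0 / N) ^ 2) := by gcongr
  have j2 : h ^ 2 / η * (2 * A ^ 2 * (CS / N ^ 2) + 4 * (B0 / N) ^ 2) =
      (2 * A ^ 2 * CS + 4 * B0 ^ 2) / η * h ^ 2 * (1 / N ^ 2) := by ring
  have j3 : c1 * h ^ 2 * IW + κ0 * h ^ 2 / N ^ 2
      + (2 * A ^ 2 * CS + 4 * B0 ^ 2) / η * h ^ 2 * (1 / N ^ 2) ≤
      (c1 + κ0 + (2 * A ^ 2 * CS + 4 * B0 ^ 2) / η) * h ^ 2 * (1 / N ^ 2 + IW) := by
    have p1 : 0 ≤ c1 * h ^ 2 * (1 / N ^ 2) := by positivity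
    have p2 : 0 ≤ κ0 * h ^ 2 * IW := by positivity
    have p3 : 0 ≤ (2 * A ^ 2 * CS + 4 * B0 ^ 2) / η * h ^ 2 * IW := by positivity
    have e : (c1 + κ0 + (2 * A ^ 2 * CS + 4 * B0 ^ 2) / η) * h ^ 2 * (1 / N ^ 2 + IW) =
        c1 * h ^ 2 * IW + κ0 * h ^ 2 / N ^ 2
        + (2 * A ^ 2 * CS + 4 * B0 ^ 2) / η * h ^ 2 * (1 / N ^ 2)
        + (c1 * h ^ 2 * (1 / N ^ 2) + κ0 * h ^ 2 * IW
          + (2 * A ^ 2 * CS + 4 * B0 ^ 2) / η * h ^ 2 * IW) := by ring
    rw [e]
    linarith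
  calc _ ≤ Real.exp Λ * ((c1 + κ0 + (2 * A ^ 2 * CS + 4 * B0 ^ 2) / η) * h ^ 2 * (1 / N ^ 2 + IW)) := by
        refine mul_le_mul_of_nonneg_left ?_ (Real.exp_pos _).le
        linarith
    _ = _ := by ring

end Pool.Agent.NSK
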