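import Pool.Agent.NSK.FinalJ
import Pool.Agent.NSK.SealedK

/-!
# MP_fd8964_an: transfer of the theorem on initial data from `Pool.Agent.NSD.Defs` to `Pool.Agent.NSD.Sealed`
-/

open MeasureTheory Set Filter Topology
open scoped RealInnerProductSpace ContDiff

noncomputable section

namespace Pool.Agent.NSKT

section
variable (VV LE LG : Type) [NormedAddCommGroup VV] [InnerProductSpace ℝ VV] [NormedAddCommGroup LE]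
  [InnerProductSpace ℝ LE] [NormedAddCommGroup LG] [InnerProductSpace ℝ LG]

def Adm (fl : VV → LE) (Hs : Submodule ℝ LE) (f : ℝ → (VV →L[ℝ] ℝ)) : Prop :=
  (∃ f₁ : ℝ → (VV →L[ℝ] ℝ), (∀ T : ℝ, MemLp f₁ 2 (volume.restrict (Ioc 0 T))) ∧
    ∀ t : ℝ, 0 ≤ t → f t = f 0 + ∫ s in (0 : ℝ)..t, f₁ s) ∧
  ∃ h ∈ Hs, ∀ v : VV, f 0 v = ⟪h, fl v⟫

def RegJ (fl : VV → LE) (gr : VV → LG) (tri : VV → VV → VV → ℝ) (η : ℝ) (J : Set ℝ) (f : ℝ → (VV →L[ℝ] ℝ))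
    (u : ℝ → VV) : Prop :=
  ∃ w : ℝ → VV,
    MemLp w 2 (volume.restrict J) ∧
    (∃ C : ℝ, ∀ᵐ t ∂(volume.restrict J), ‖fl (w t)‖ ≤ C) ∧
    (∀ t ∈ J, u t = u 0 + ∫ s in (0 : ℝ)..t, w s) ∧
    (∃ C : ℝ, ∀ t ∈ J, ‖gr (u t)‖ ≤ C) ∧
    IntegrableOn (fun t => ‖gr (u t)‖ ^ 4) J ∧
    ∀ᵐ t ∂(volume.restrict J), ∀ v : VV,
      ⟪fl (w t), fl v⟫ + tri (u t) (u t) v + η * ⟪gr (u t), gr v⟫ = f t v

def AbsK (fl : VV → LE) (gr : VV → LG) (tri : VV → VV → VV → ℝ) (Hs : Submodule ℝ LE) (Test : VV → Prop) :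
    Prop :=
  ∀ (η : ℝ), 0 < η → ∀ (f : ℝ → (VV →L[ℝ] ℝ)), Adm VV LE fl Hs f →
    ∀ (J : Set ℝ), (J = Ici 0 ∨ ∃ T : ℝ, 0 < T ∧ J = Icc 0 T) →
    ∀ (v : ℝ → VV), ((f = 0 ∧ v = 0) ∨ (Test (v 0) ∧ RegJ VV LE LG fl gr tri η J f v)) →
    ∀ (l : VV →L[ℝ] ℝ) (K : Set VV) (ε : ℝ), IsCompact K → 0 < ε →
      ∃ u : ℝ → VV, Test (u 0) ∧ RegJ VV LE LG fl gr tri η J f u ∧
        (∀ φ ∈ K, |⟪fl (u 0), fl φ⟫ - l φ| < ε) ∧ ∀ t ∈ J, ε ≤ t → ‖u t - v t‖ ≤ ε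

end

open Pool.Agent

theorem absK_unsealed (h : NSK.Stmt_FinalJ) (Ω : Set NSD.E) (hΩ : IsOpen Ω) (hb : Bornology.IsBounded Ω) :
    AbsK (NSD.V Ω) (NSD.L2 Ω) (NSD.L2G Ω) NSD.fld NSD.grd NSD.trilin (NSD.Hspace Ω) NSK.InTest :=
  fun η hη f hf J hJ v hv l K ε hK hε => h Ω hΩ hb η hη f hf J hJ v hv l K ε hK hε

theorem key (Ω : Set NSD.E) :
    AbsK (NSD.V Ω) (NSD.L2 Ω) (NSD.L2G Ω) NSD.fld NSD.grd NSD.trilin (NSD.Hspace Ω) NSK.InTest →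
    AbsK (NSDS.V Ω) (NSDS.L2E Ω) (NSDS.L2G Ω) NSDS.fld NSDS.grd NSDS.trilin (NSDS.H Ω) NSKS.IsSmooth := by
  delta NSKS.IsSmooth NSDS.trilin NSDS.fld NSDS.grd NSDS.H NSDS.vI NSDS.vN NSDS.V NSDS.Vsub NSDS.pgrd
    NSDS.pfld NSDS.pairI NSDS.pairN NSDS.Pair NSDS.gfn NSDS.l2gI NSDS.l2gN NSDS.L2G NSDS.fn NSDS.l2I
    NSDS.l2N NSDS.L2E NSDS.IsTest NSDS.divField NSDS.gradField NSDS.row NSDS.g3I NSDS.g3N NSDS.G3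
    NSDS.bas NSDS.coord NSDS.r3M NSDS.r3I NSDS.r3N NSDS.R3 NSK.InTest NSD.trilin NSD.fld NSD.grd
    NSD.Hspace NSD.V NSD.Represents NSD.IsTest NSD.divField NSD.gradField NSD.e NSD.L2 NSD.L2G NSD.H1
    NSD.G NSD.E
  exact fun h => h

theorem absK_sealed (h : NSK.Stmt_FinalJ) (Ω : Set NSDS.R3) (hΩ : IsOpen Ω) (hb : Bornology.IsBounded Ω) :
    AbsK (NSDS.V Ω) (NSDS.L2E Ω) (NSDS.L2G Ω) NSDS.fld NSDS.grd NSDS.trilin (NSDS.H Ω) NSKS.IsSmooth :=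
  key Ω (absK_unsealed h Ω hΩ hb)

end Pool.Agent.NSKT
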