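import Pool.Agent.NSK.MainK
import Pool.Agent.NSK.TransferK
import Pool.Agent.NSK.SmoothE

/-!
# MP_fd8964_an, weak density: the complete theorem over `Pool.Agent.NSD.Sealed`
-/

open MeasureTheory Set Filter Topology
open scoped RealInnerProductSpace ContDiff

noncomputable section

namespace Pool.Agent.NSK

theorem finalJ_all : Stmt_FinalJ := finalJ_of' (smoothE_proof energyId_proof gronwallInt_proof)

end Pool.Agent.NSK

namespace Pool.Agent.NSKT

open Pool.Agent

theorem absK_all (Ω : Set NSDS.R3) (hΩ : IsOpen Ω) (hb : Bornology.IsBounded Ω) :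
    AbsK (NSDS.V Ω) (NSDS.L2E Ω) (NSDS.L2G Ω) NSDS.fld NSDS.grd NSDS.trilin (NSDS.H Ω) NSKS.IsSmooth :=
  absK_sealed NSK.finalJ_all Ω hΩ hb

end Pool.Agent.NSKT
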