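import Pool.Agent.NSK.Fatou
import Pool.Agent.NSK.Abs2

/-!
# MP_fd8964_an, weak density: bounds for regular solutions, uniform with respect to the time horizon
-/

open MeasureTheory Set Filter Topology
open scoped RealInnerProductSpace

noncomputable section

namespace Pool.Agent.NSK

open Pool.Agent.NSD

/-- UNIF. If `S` is bounded on `[0,T]`, `u` solves with the same force, and `σ(u)`, `∫ σ(u)⁴` are bounded, then `u` is
bounded in the sense of `BdOn`, uniformly in `T`. -/
def Stmt_Unif : Prop := ∀ (V K : Type) [NormedAddCommGroup V] [InnerProductSpace ℝ V] [CompleteSpace V]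
    [NormedAddCommGroup K] [InnerProductSpace ℝ K] (D : Data V K) (η A : ℝ), 0 < η → 0 ≤ A →
    ∃ C : ℝ, 0 ≤ C ∧ ∀ (T : ℝ) (f : ℝ → (V →L[ℝ] ℝ)) (S W u w : ℝ → V), 0 ≤ T →
      SolOn D η f T S W → BdOn D A T S W → SolOn D η f T u w → (∀ t ∈ Icc 0 T, D.sig (u t) ≤ A) →
      ∫ t in (0 : ℝ)..T, D.sig (u t) ^ 4 ≤ A →
      (∀ h ∈ Icc 0 T, h ≤ 1 → ‖D.ι ((u h - S h) - (u 0 - S 0))‖ ≤ A * h) → BdOn D C T u w

theorem unif_proof (hE : Stmt_EnergyId) (hGr : Stmt_GronwallInt) : Stmt_Unif := by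
  intro V K _ _ _ _ _ D η A hη hA
  obtain ⟨Cb, hCb, hb⟩ := b_bound D
  set L₀ : ℝ := 16 * D.CY / (η / 4) ^ 3 with hL₀
  have hL₀0 : 0 ≤ L₀ := by have := D.CY_nonneg; positivity
  set R₀ : ℝ := 32 / η * Cb ^ 2 * A ^ 2 with hR₀
  have hR₀0 : 0 ≤ R₀ := by positivity
  set Q : ℝ := (A ^ 2 + R₀ * A) * Real.exp (L₀ * A) with hQ
  have hQ0 : 0 ≤ Q := by positivity
  refine ⟨A + (√Q + A) + (2 * A + 2 * (Q / η)), by positivity, ?_⟩
  intro T f S W u w hT hS hbd hu hσ h4 hinc
  have hy : IsH1loc (fun t => u t - S t) (fun t => w t - W t) := isH1loc_sub hu.h1 hS.h1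
  -- the equation of `y = u - S`
  have heq : ∀ᵐ t : ℝ, t ∈ Ioc 0 T → ∀ v, ⟪D.ι (w t - W t), D.ι v⟫ + η * D.a (u t - S t) v
      + D.b (u t - S t) (u t) v + D.b (S t) (u t - S t) v = 0 := by
    have h1 := (ae_restrict_iff' measurableSet_Ioc).1 hS.eq
    have h2 := (ae_restrict_iff' measurableSet_Ioc).1 hu.eq
    filter_upwards [h1, h2] with t h1 h2 ht v
    have e1 := h1 ht v
    have e2 := h2 ht v
    simp only [map_sub, sub_apply, inner_sub_left] at e1 e2 ⊢
    linarith
  have hydiff : ∀ t ∈ Icc 0 T, D.sig (u t - S t) ≤ 2 * A := by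
    intro t ht
    have e := D.sig_add_le (u t) (-(S t))
    rw [← sub_eq_add_neg, D.sig_neg] at e
    have := hσ t ht
    have := hbd.sig t ht
    linarith
  -- the estimate of the difference quotients
  have main : ∀ h, 0 < h → h ≤ 1 → h ≤ T → ∀ t ∈ Icc 0 (T - h),
      ‖D.ι ((u (t + h) - S (t + h)) - (u t - S t))‖ ^ 2
        + ∫ s in (0 : ℝ)..t, η * D.sig ((u (s + h) - S (s + h)) - (u s - S s)) ^ 2 ≤ Q * h ^ 2 := by
    intro h h0 h1 hhT
    have hTh : 0 ≤ T - h := by linarith
    set Y : ℝ → V := fun t => (u (t + h) - S (t + h)) - (u t - S t) with hYdef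
    set Y₁ : ℝ → V := fun t => (w (t + h) - W (t + h)) - (w t - W t) with hY₁def
    have hY : IsH1loc Y Y₁ := isH1loc_sub (isH1loc_shift hy h0.le) hy
    have hYc := hY.continuousOn
    have hSc := hS.h1.continuousOn
    have huc := hu.h1.continuousOn
    have hSsc : ContinuousOn (fun t => S (t + h) - S t) (Ici 0) :=
      ((isH1loc_shift hS.h1 h0.le).continuousOn).sub hSc
    have hush : ContinuousOn (fun t => u (t + h)) (Ici 0) := (isH1loc_shift hu.h1 h0.le).continuousOn
    have heqh : ∀ᵐ t : ℝ, t + h ∈ Ioc 0 T → ∀ v, ⟪D.ι (w (t + h) - W (t + h)), D.ι v⟫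
        + η * D.a (u (t + h) - S (t + h)) v
        + D.b (u (t + h) - S (t + h)) (u (t + h)) v + D.b (S (t + h)) (u (t + h) - S (t + h)) v = 0 :=
      (measurePreserving_add_right (volume : Measure ℝ) h).quasiMeasurePreserving.ae heq
    have hkey : ∀ᵐ t : ℝ, t ∈ Ioc 0 (T - h) → 2 * ⟪D.ι (Y₁ t), D.ι (Y t)⟫ ≤
        L₀ * D.sig (u (t + h)) ^ 4 * ‖D.ι (Y t)‖ ^ 2 + R₀ * D.sig (S (t + h) - S t) ^ 2 - η * D.sig (Y t) ^ 2 := by
      filter_upwards [heq, heqh] with t e1 e2 ht
      have ht1 : t ∈ Ioc 0 T := ⟨ht.1, by linarith [ht.2]⟩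
      have ht2 : t + h ∈ Ioc 0 T := ⟨by linarith [ht.1], by linarith [ht.2]⟩
      have e1' := e1 ht1 (Y t)
      have e2' := e2 ht2 (Y t)
      have e3 : ⟪D.ι (Y₁ t), D.ι (Y t)⟫ = -(η * D.a (Y t) (Y t)) - D.b (Y t) (u (t + h)) (Y t)
          - D.b (u t - S t) (S (t + h) - S t) (Y t)
          - D.b (S (t + h) - S t) (u (t + h) - S (t + h)) (Y t) := by
        have s1 := D.b_skew (u t - S t) (Y t)
        have s2 := D.b_skew (S t) (Y t)
        have i1 : ⟪D.ι (Y₁ t), D.ι (Y t)⟫ = ⟪D.ι (w (t + h) - W (t + h)), D.ι (Y t)⟫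
            - ⟪D.ι (w t - W t), D.ι (Y t)⟫ := by
          rw [← inner_sub_left, ← map_sub]
        have i2 : D.a (Y t) (Y t) = D.a (u (t + h) - S (t + h)) (Y t) - D.a (u t - S t) (Y t) := by
          have e : D.a (Y t) = D.a (u (t + h) - S (t + h)) - D.a (u t - S t) := D.a.map_sub _ _
          have e' := congrArg (fun L => L (Y t)) e
          exact e'
        have i3 : D.b (Y t) (u (t + h)) (Y t) = D.b (u (t + h) - S (t + h)) (u (t + h)) (Y t)
            - D.b (u t - S t) (u (t + h)) (Y t) := by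
          have e : D.b (Y t) = D.b (u (t + h) - S (t + h)) - D.b (u t - S t) := by
            show D.b ((u (t + h) - S (t + h)) - (u t - S t)) = _
            rw [map_sub]
          rw [e]; rfl
        have i4 : D.b (u t - S t) (u (t + h)) (Y t) = D.b (u t - S t) (u t) (Y t)
            + D.b (u t - S t) (S (t + h) - S t) (Y t) + D.b (u t - S t) (Y t) (Y t) := by
          have e : D.b (u t - S t) (u (t + h)) = D.b (u t - S t) (u t) + D.b (u t - S t) (S (t + h) - S t)
              + D.b (u t - S t) (Y t) := by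
            rw [← map_add, ← map_add]
            congr 1
            simp only [hYdef]; abel
          rw [e]; rfl
        have i5 : D.b (S (t + h)) (u (t + h) - S (t + h)) (Y t) = D.b (S (t + h) - S t) (u (t + h) - S (t + h)) (Y t)
            + D.b (S t) (u (t + h) - S (t + h)) (Y t) := by
          have e : D.b (S (t + h)) = D.b (S (t + h) - S t) + D.b (S t) := by rw [← map_add]; congr 1; abel
          rw [e]; rfl
        have i6 : D.b (S t) (u (t + h) - S (t + h)) (Y t) = D.b (S t) (u t - S t) (Y t) + D.b (S t) (Y t) (Y t) := by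
          have e : D.b (S t) (u (t + h) - S (t + h)) = D.b (S t) (u t - S t) + D.b (S t) (Y t) := by
            rw [← map_add]
            congr 1
            simp only [hYdef]; abel
          rw [e]; rfl
        rw [i1, i2, i3]
        linarith
      have hη4 : 0 < η / 4 := by positivity
      have y1 := young_b D hη4 (Y t) (u (t + h))
      have a1 := hydiff t ⟨ht1.1.le, ht1.2⟩
      have a2 := hydiff (t + h) ⟨ht2.1.le, ht2.2⟩
      have n1 := D.sig_nonneg (u t - S t)
      have n2 := D.sig_nonneg (u (t + h) - S (t + h))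
      have n3 := D.sig_nonneg (S (t + h) - S t)
      have n4 := D.sig_nonneg (Y t)
      have t1 : 2 * |D.b (u t - S t) (S (t + h) - S t) (Y t)| ≤ η / 4 * D.sig (Y t) ^ 2
          + R₀ / 2 * D.sig (S (t + h) - S t) ^ 2 := by
        have := two_mul_le hη4 (Cb * (2 * A)) (D.sig (S (t + h) - S t)) (D.sig (Y t))
        have h5 := hb (u t - S t) (S (t + h) - S t) (Y t)
        have h6 : Cb * D.sig (u t - S t) * D.sig (S (t + h) - S t) * D.sig (Y t)
            ≤ Cb * (2 * A) * D.sig (S (t + h) - S t) * D.sig (Y t) := by gcongr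
        have h7 : 1 / (η / 4) * (Cb * (2 * A)) ^ 2 = R₀ / 2 := by
          rw [hR₀]; field_simp; ring
        rw [h7] at this
        linarith
      have t2 : 2 * |D.b (S (t + h) - S t) (u (t + h) - S (t + h)) (Y t)| ≤ η / 4 * D.sig (Y t) ^ 2
          + R₀ / 2 * D.sig (S (t + h) - S t) ^ 2 := by
        have := two_mul_le hη4 (Cb * (2 * A)) (D.sig (S (t + h) - S t)) (D.sig (Y t))
        have h5 := hb (S (t + h) - S t) (u (t + h) - S (t + h)) (Y t)
        have h6 : Cb * D.sig (S (t + h) - S t) * D.sig (u (t + h) - S (t + h)) * D.sig (Y t)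
            ≤ Cb * (2 * A) * D.sig (S (t + h) - S t) * D.sig (Y t) := by
          have : Cb * D.sig (S (t + h) - S t) * D.sig (u (t + h) - S (t + h)) * D.sig (Y t)
            ≤ Cb * D.sig (S (t + h) - S t) * (2 * A) * D.sig (Y t) := by gcongr
          linarith
        have h7 : 1 / (η / 4) * (Cb * (2 * A)) ^ 2 = R₀ / 2 := by
          rw [hR₀]; field_simp; ring
        rw [h7] at this
        linarith
      have b1 := neg_abs_le (D.b (Y t) (u (t + h)) (Y t))
      have b2 := neg_abs_le (D.b (u t - S t) (S (t + h) - S t) (Y t))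
      have b3 := neg_abs_le (D.b (S (t + h) - S t) (u (t + h) - S (t + h)) (Y t))
      rw [e3, ← D.sig_sq]
      have hsq : 0 ≤ η * D.sig (Y t) ^ 2 := by positivity
      nlinarith
    -- Gronwall
    have hΛc : ContinuousOn (fun t => L₀ * D.sig (u (t + h)) ^ 4) (Ici 0) :=
      continuousOn_const.mul ((D.continuous_sig.comp_continuousOn hush).pow 4)
    have hrc : ContinuousOn (fun t => R₀ * D.sig (S (t + h) - S t) ^ 2) (Ici 0) :=
      continuousOn_const.mul ((D.continuous_sig.comp_continuousOn hSsc).pow 2)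
    have hgc : ContinuousOn (fun t => η * D.sig (Y t) ^ 2) (Ici 0) :=
      continuousOn_const.mul ((D.continuous_sig.comp_continuousOn hYc).pow 2)
    have hyc : ContinuousOn (fun t => ‖D.ι (Y t)‖ ^ 2) (Ici 0) :=
      ((D.ι.continuous.comp_continuousOn hYc).norm).pow 2
    have hic : Icc 0 (T - h) ⊆ Ici (0 : ℝ) := fun x hx => hx.1
    have G := hGr (T - h) (fun t => ‖D.ι (Y t)‖ ^ 2) (fun t => L₀ * D.sig (u (t + h)) ^ 4)
      (fun t => R₀ * D.sig (S (t + h) - S t) ^ 2) (fun t => η * D.sig (Y t) ^ 2)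
      (hyc.mono hic) (hΛc.mono hic) (hrc.mono hic) (hgc.mono hic)
      (fun t _ => by positivity) (fun t _ => by positivity) (fun t _ => by positivity) (by positivity) (by
        intro t ht
        obtain ⟨hi, hid⟩ := hE V K D.ι Y Y₁ hY 0 t le_rfl ht.1
        show ‖D.ι (Y t)‖ ^ 2 ≤ ‖D.ι (Y 0)‖ ^ 2 + ∫ s in (0 : ℝ)..t, _
        rw [hid, ← intervalIntegral.integral_const_mul]
        have hmono : ∫ r in (0 : ℝ)..t, 2 * ⟪D.ι (Y₁ r), D.ι (Y r)⟫ ≤ ∫ r in (0 : ℝ)..t,
            (L₀ * D.sig (u (r + h)) ^ 4 * ‖D.ι (Y r)‖ ^ 2 + R₀ * D.sig (S (r + h) - S r) ^ 2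
              - η * D.sig (Y r) ^ 2) := by
          refine intervalIntegral.integral_mono_ae_restrict ht.1 (hi.const_mul 2) ?_ ?_
          · refine ContinuousOn.intervalIntegrable_of_Icc ht.1 ?_
            exact (((hΛc.mul hyc).add hrc).sub hgc).mono (fun x hx => hx.1)
          · rw [← Measure.restrict_congr_set Ioc_ae_eq_Icc]
            refine (ae_restrict_iff' measurableSet_Ioc).2 ?_
            filter_upwards [hkey] with r hr hr'
            exact hr ⟨hr'.1, hr'.2.trans ht.2⟩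
        linarith)
    intro t ht
    have G' := G t ht
    refine G'.trans ?_
    have hY0 : ‖D.ι (Y 0)‖ ^ 2 ≤ A ^ 2 * h ^ 2 := by
      have := hinc h ⟨h0.le, hhT⟩ h1
      have e : Y 0 = (u h - S h) - (u 0 - S 0) := by simp only [hYdef, zero_add]
      rw [e, ← mul_pow]
      exact pow_le_pow_left₀ (norm_nonneg _) this 2
    have hr : ∫ s in (0 : ℝ)..t, R₀ * D.sig (S (s + h) - S s) ^ 2 ≤ R₀ * A * h ^ 2 := by
      rw [intervalIntegral.integral_const_mul]
      have h5 := int_sig_incr_le D hS.h1 ht.1 h0.le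
      have h6 := (hbd.mono hS.h1 (by linarith [ht.1] : 0 ≤ t + h) (by linarith [ht.2] : t + h ≤ T)).intW
      have h7 := mul_le_mul_of_nonneg_left h6 (sq_nonneg h)
      have h8 := mul_le_mul_of_nonneg_left (h5.trans h7) hR₀0
      linarith
    have hΛ : ∫ s in (0 : ℝ)..t, L₀ * D.sig (u (s + h)) ^ 4 ≤ L₀ * A := by
      rw [intervalIntegral.integral_const_mul]
      refine mul_le_mul_of_nonneg_left (le_trans ?_ h4) hL₀0
      rw [intervalIntegral.integral_comp_add_right (fun s => D.sig (u s) ^ 4) h, zero_add]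
      refine intervalIntegral.integral_mono_interval h0.le (by linarith [ht.1]) (by linarith [ht.2])
        (Eventually.of_forall fun t => by positivity) ?_
      exact ContinuousOn.intervalIntegrable_of_Icc hT
        (((D.continuous_sig.comp_continuousOn huc).pow 4).mono (fun x hx => hx.1))
    have hr0 : 0 ≤ ∫ s in (0 : ℝ)..t, R₀ * D.sig (S (s + h) - S s) ^ 2 :=
      intervalIntegral.integral_nonneg ht.1 (fun s _ => by positivity)
    calc (‖D.ι (Y 0)‖ ^ 2 + ∫ s in (0 : ℝ)..t, R₀ * D.sig (S (s + h) - S s) ^ 2)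
          * Real.exp (∫ s in (0 : ℝ)..t, L₀ * D.sig (u (s + h)) ^ 4)
        ≤ (A ^ 2 * h ^ 2 + R₀ * A * h ^ 2) * Real.exp (L₀ * A) := by
          refine mul_le_mul (add_le_add hY0 hr) (Real.exp_le_exp.2 hΛ) (Real.exp_pos _).le (by positivity)
      _ = Q * h ^ 2 := by rw [hQ]; ring
  -- consequences
  have hnorm : ∀ h, 0 < h → h ≤ 1 → h ≤ T → ∀ t ∈ Icc 0 (T - h),
      ‖D.ι ((u (t + h) - S (t + h)) - (u t - S t))‖ ≤ √Q * h := by
    intro h h0 h1 hhT t ht
    have h5 := main h h0 h1 hhT t ht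
    have h6 : 0 ≤ ∫ s in (0 : ℝ)..t, η * D.sig ((u (s + h) - S (s + h)) - (u s - S s)) ^ 2 :=
      intervalIntegral.integral_nonneg ht.1 (fun s _ => by positivity)
    have h7 : ‖D.ι ((u (t + h) - S (t + h)) - (u t - S t))‖ ^ 2 ≤ (√Q * h) ^ 2 := by
      rw [mul_pow, Real.sq_sqrt hQ0]; linarith
    exact le_of_sq_le_sq h7 (by positivity)
  have hsqQ := Real.sqrt_nonneg Q
  have hQη : 0 ≤ Q / η := by positivity
  refine ⟨?_, ?_, ?_, ?_⟩
  · have h1 : ∀ᵐ t ∂(volume.restrict (Ioc 0 T)), HasDerivAt (fun t => u t - S t) (w t - W t) t :=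
      ae_mono (Measure.restrict_mono (s' := Ioi 0) (fun t ht => ht.1) le_rfl) (ae_hasDerivAt hy)
    have h2 : ∀ᵐ t ∂(volume.restrict (Ioc 0 T)), t ∈ Ioc 0 T := ae_restrict_mem measurableSet_Ioc
    have h3 : ∀ᵐ t ∂(volume.restrict (Ioc 0 T)), t ≠ T := by
      refine ae_restrict_of_ae ?_
      simp [ae_iff, measure_singleton]
    filter_upwards [h1, h2, h3, hbd.iW] with t ht1 ht2 ht3 ht4
    have htT : t < T := lt_of_le_of_ne ht2.2 ht3
    have h5 : ‖D.ι (w t - W t)‖ ≤ √Q := by
      refine norm_le_of_hasDerivAt' (δ := min 1 (T - t)) (lt_min one_pos (by linarith)) ht1 ?_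
      intro h h0 hh
      have hh1 : h ≤ 1 := hh.trans (min_le_left _ _)
      have hh2 : h ≤ T - t := hh.trans (min_le_right _ _)
      exact hnorm h h0 hh1 (by linarith [ht2.1]) t ⟨ht2.1.le, by linarith⟩
    have h6 : ‖D.ι (w t)‖ ≤ ‖D.ι (w t - W t)‖ + ‖D.ι (W t)‖ := by
      have : D.ι (w t) = D.ι (w t - W t) + D.ι (W t) := by rw [← map_add]; congr 1; abel
      rw [this]; exact norm_add_le _ _
    linarith
  · intro t ht
    have := hσ t ht
    linarith
  · linarith
  · rcases eq_or_lt_of_le hT with hT0 | hT0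
    · rw [← hT0, intervalIntegral.integral_same]; positivity
    have hF := fatou_sig D hy hT0 (Q := Q / η) hQη (by
      intro h h0 h1 hhT
      have hTh : 0 ≤ T - h := by linarith
      have h5 := main h h0 h1 hhT (T - h) ⟨hTh, le_rfl⟩
      rw [intervalIntegral.integral_const_mul] at h5
      have h6 := sq_nonneg ‖D.ι ((u (T - h + h) - S (T - h + h)) - (u (T - h) - S (T - h)))‖
      have h7 : Q / η * h ^ 2 = (Q * h ^ 2) / η := by ring
      rw [h7, le_div_iff₀ hη]
      linarith)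
    have i1 := intervalIntegrable_sig_sq hu.h1 D le_rfl hT
    have i2 := intervalIntegrable_sig_sq hS.h1 D le_rfl hT
    have i3 := intervalIntegrable_sig_sq hy D le_rfl hT
    have hmono : ∫ t in (0 : ℝ)..T, D.sig (w t) ^ 2 ≤
        ∫ t in (0 : ℝ)..T, (2 * D.sig (W t) ^ 2 + 2 * D.sig (w t - W t) ^ 2) := by
      refine intervalIntegral.integral_mono_on hT i1 ((i2.const_mul 2).add (i3.const_mul 2)) (fun t _ => ?_)
      have h5 := D.sig_add_le (W t) (w t - W t)
      rw [add_sub_cancel] at h5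
      have n1 := D.sig_nonneg (w t)
      have n2 := D.sig_nonneg (W t)
      have n3 := D.sig_nonneg (w t - W t)
      nlinarith [sq_nonneg (D.sig (W t) - D.sig (w t - W t))]
    rw [intervalIntegral.integral_add (i2.const_mul 2) (i3.const_mul 2), intervalIntegral.integral_const_mul,
      intervalIntegral.integral_const_mul] at hmono
    have := hbd.intW
    linarith

end Pool.Agent.NSK
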