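import Pool.Agent.NSK.Conc

/-!
# MP_fd8964_an, weak density of good initial data: calculus of the waves

`Wv N k p q y = sin (N⟪k,y⟫) • p y + cos (N⟪k,y⟫) • q y`.  The stream fields of `gS` and `gC` are of this form
(`stream_gS`, `stream_gC`), and `fderiv_Wv`, `lap_Wv` compute their derivatives.  `IsBV` = smooth with compact support
(values in any normed space), with closure properties and bounds.
-/

open MeasureTheory Set Filter Topology
open scoped RealInnerProductSpace ContDiff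

noncomputable section

namespace Pool.Agent.NSK

open Pool.Agent.NSD

variable {F : Type*} [NormedAddCommGroup F] [NormedSpace ℝ F]

/-- Smooth with compact support. -/
def IsBV (p : E → F) : Prop := ContDiff ℝ ∞ p ∧ HasCompactSupport p

theorem IsBump.isBV {Ω : Set E} {a : E → ℝ} (h : IsBump Ω a) : IsBV a := ⟨h.1, h.2.1⟩

theorem IsTest.isBV {Ω : Set E} {v : E → E} (h : IsTest Ω v) : IsBV v := ⟨h.smooth, h.compact⟩

theorem IsBV.differentiable {p : E → F} (h : IsBV p) : Differentiable ℝ p :=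
  h.1.differentiable (by simp)

theorem IsBV.diffAt {p : E → F} (h : IsBV p) (x : E) : DifferentiableAt ℝ p x := h.differentiable x

theorem IsBV.bound {p : E → F} (h : IsBV p) : ∃ C : ℝ, 0 ≤ C ∧ ∀ x, ‖p x‖ ≤ C := by
  obtain ⟨C, hC⟩ := h.2.exists_bound_of_continuous h.1.continuous
  exact ⟨max C 0, le_max_right _ _, fun x => (hC x).trans (le_max_left _ _)⟩

theorem IsBV.fderiv {p : E → F} (h : IsBV p) : IsBV (fderiv ℝ p) :=
  ⟨h.1.fderiv_right (by simp), h.2.fderiv ℝ⟩

theorem IsBV.fderiv_bound {p : E → F} (h : IsBV p) : ∃ C : ℝ, 0 ≤ C ∧ ∀ x, ‖_root_.fderiv ℝ p x‖ ≤ C :=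
  h.fderiv.bound

theorem IsBV.dd {p : E → F} (h : IsBV p) (v : E) : IsBV (dd v p) := by
  refine ⟨h.fderiv.1.clm_apply contDiff_const, ?_⟩
  have := h.fderiv.2
  exact this.comp_left (g := fun L : E →L[ℝ] F => L v) (by simp)

theorem IsBV.add {p q : E → F} (hp : IsBV p) (hq : IsBV q) : IsBV (fun x => p x + q x) :=
  ⟨hp.1.add hq.1, hp.2.add hq.2⟩

theorem IsBV.neg {p : E → F} (hp : IsBV p) : IsBV (fun x => - p x) :=
  ⟨hp.1.neg, hp.2.comp_left (g := fun y : F => - y) (by simp)⟩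

theorem IsBV.sub {p q : E → F} (hp : IsBV p) (hq : IsBV q) : IsBV (fun x => p x - q x) := by
  simpa [sub_eq_add_neg] using hp.add hq.neg

theorem IsBV.smul_const {a : E → ℝ} (h : IsBV a) (v : F) : IsBV (fun x => a x • v) :=
  ⟨h.1.smul contDiff_const, h.2.comp_left (g := fun t : ℝ => t • v) (by simp)⟩

theorem IsBV.const_smul {p : E → F} (h : IsBV p) (c : ℝ) : IsBV (fun x => c • p x) :=
  ⟨contDiff_const.smul h.1, h.2.comp_left (g := fun y : F => c • y) (by simp)⟩

theorem IsBV.smul {a : E → ℝ} {p : E → F} (ha : IsBV a) (hp : ContDiff ℝ ∞ p) : IsBV (fun x => a x • p x) :=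
  ⟨ha.1.smul hp, ha.2.smul_right⟩

theorem IsBV.mul {a b : E → ℝ} (ha : IsBV a) (hb : ContDiff ℝ ∞ b) : IsBV (fun x => a x * b x) :=
  ha.smul hb

theorem IsBV.sum {ι : Type*} (s : Finset ι) {p : ι → E → F} (hp : ∀ i ∈ s, IsBV (p i)) :
    IsBV (fun x => ∑ i ∈ s, p i x) := by
  classical
  induction s using Finset.induction_on with
  | empty =>
    refine ⟨by simpa using contDiff_const, ?_⟩
    simp only [Finset.sum_empty]
    exact (HasCompactSupport.zero : HasCompactSupport (0 : E → F))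
  | insert i s hi ih =>
    have h1 := hp i (Finset.mem_insert_self i s)
    have h2 := ih (fun j hj => hp j (Finset.mem_insert_of_mem hj))
    have := h1.add h2
    simpa [Finset.sum_insert hi] using this

theorem IsBV.lap {p : E → F} (h : IsBV p) : IsBV (lap p) :=
  IsBV.sum _ fun i _ => (h.dd (e i)).dd (e i)

theorem IsBV.stream {a : E → ℝ} (h : IsBV a) (k ξ : E) : IsBV (stream k ξ a) :=
  ((h.dd k).smul_const ξ).sub ((h.dd ξ).smul_const k)

theorem e_inner (i : Fin 3) (k : E) : ⟪k, e i⟫ = k i := by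
  simp [e, EuclideanSpace.inner_single_right]

theorem sum_smul_e (k : E) : ∑ i : Fin 3, (k i) • e i = k := by
  ext j
  simp [e]
  fin_cases j <;> simp [Fin.sum_univ_three]

/-- `∑ kᵢ ∂ᵢ = ∂ₖ`. -/
theorem sum_dd_e (p : E → F) (k x : E) : ∑ i : Fin 3, (k i) • dd (e i) p x = dd k p x := by
  unfold dd
  conv_rhs => rw [← sum_smul_e k]
  simp

theorem sum_sq (k : E) : ∑ i : Fin 3, (k i) ^ 2 = ‖k‖ ^ 2 := by
  rw [EuclideanSpace.norm_sq_eq]
  simp

/-- The waves. -/
def Wv (N : ℝ) (k : E) (p q : E → F) (y : E) : F :=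
  Real.sin (N * ⟪k, y⟫) • p y + Real.cos (N * ⟪k, y⟫) • q y

theorem hasFDerivAt_phase (N : ℝ) (k x : E) :
    HasFDerivAt (fun y : E => N * ⟪k, y⟫) (N • (innerSL ℝ k)) x := by
  have h := ((innerSL ℝ k).hasFDerivAt (x := x)).const_smul N
  exact h

theorem hasFDerivAt_sin (N : ℝ) (k x : E) :
    HasFDerivAt (fun y : E => Real.sin (N * ⟪k, y⟫)) (Real.cos (N * ⟪k, x⟫) • (N • (innerSL ℝ k))) x :=
  (hasFDerivAt_phase N k x).sin

theorem hasFDerivAt_cos (N : ℝ) (k x : E) :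
    HasFDerivAt (fun y : E => Real.cos (N * ⟪k, y⟫)) (-(Real.sin (N * ⟪k, x⟫)) • (N • (innerSL ℝ k))) x :=
  (hasFDerivAt_phase N k x).cos

theorem differentiableAt_Wv (N : ℝ) (k x : E) {p q : E → F} (hp : DifferentiableAt ℝ p x)
    (hq : DifferentiableAt ℝ q x) : DifferentiableAt ℝ (Wv N k p q) x :=
  ((hasFDerivAt_sin N k x).differentiableAt.smul hp).add ((hasFDerivAt_cos N k x).differentiableAt.smul hq)

/-- Derivative of a wave. -/
theorem fderiv_Wv (N : ℝ) (k x v : E) {p q : E → F} (hp : DifferentiableAt ℝ p x)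
    (hq : DifferentiableAt ℝ q x) :
    fderiv ℝ (Wv N k p q) x v = Real.sin (N * ⟪k, x⟫) • (fderiv ℝ p x v - (N * ⟪k, v⟫) • q x)
      + Real.cos (N * ⟪k, x⟫) • (fderiv ℝ q x v + (N * ⟪k, v⟫) • p x) := by
  have h := ((hasFDerivAt_sin N k x).smul hp.hasFDerivAt).add ((hasFDerivAt_cos N k x).smul hq.hasFDerivAt)
  have h' : HasFDerivAt (Wv N k p q) _ x := h
  rw [h'.fderiv]
  simp only [add_apply, smul_apply, ContinuousLinearMap.smulRight_apply,
    innerSL_apply_apply, smul_eq_mul]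
  module

theorem dd_Wv (N : ℝ) (k v : E) {p q : E → F} (hp : Differentiable ℝ p) (hq : Differentiable ℝ q) :
    dd v (Wv N k p q) = Wv N k (fun x => dd v p x - (N * ⟪k, v⟫) • q x) (fun x => dd v q x + (N * ⟪k, v⟫) • p x) := by
  funext x
  exact fderiv_Wv N k x v (hp x) (hq x)

theorem dd_add (v x : E) {p q : E → F} (hp : DifferentiableAt ℝ p x) (hq : DifferentiableAt ℝ q x) :
    dd v (fun y => p y + q y) x = dd v p x + dd v q x := by
  unfold dd
  rw [fderiv_fun_add hp hq]; rfl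

theorem dd_sub (v x : E) {p q : E → F} (hp : DifferentiableAt ℝ p x) (hq : DifferentiableAt ℝ q x) :
    dd v (fun y => p y - q y) x = dd v p x - dd v q x := by
  unfold dd
  rw [fderiv_fun_sub hp hq]; rfl

theorem dd_const_smul (v x : E) {p : E → F} (c : ℝ) (hp : DifferentiableAt ℝ p x) :
    dd v (fun y => c • p y) x = c • dd v p x := by
  unfold dd
  rw [fderiv_fun_const_smul hp]; rfl

theorem dd_smul_const (v x : E) {a : E → ℝ} (w : F) (ha : DifferentiableAt ℝ a x) :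
    dd v (fun y => a y • w) x = dd v a x • w := by
  unfold dd
  rw [(ha.hasFDerivAt.smul_const w).fderiv]; rfl

/-- Laplacian of a wave with `‖k‖ = 1`. -/
theorem lap_Wv (N : ℝ) (k x : E) (hk : ‖k‖ = 1) {p q : E → F} (hp : IsBV p) (hq : IsBV q) :
    lap (Wv N k p q) x = Wv N k (fun x => lap p x - (2 * N) • dd k q x - N ^ 2 • p x)
      (fun x => lap q x + (2 * N) • dd k p x - N ^ 2 • q x) x := by
  have h1 : ∀ i : Fin 3, dd (e i) (dd (e i) (Wv N k p q)) x =
      Real.sin (N * ⟪k, x⟫) • (dd (e i) (dd (e i) p) x - (2 * N) • ((k i) • dd (e i) q x) - (N ^ 2 * (k i) ^ 2) • p x)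
      + Real.cos (N * ⟪k, x⟫) • (dd (e i) (dd (e i) q) x + (2 * N) • ((k i) • dd (e i) p x)
        - (N ^ 2 * (k i) ^ 2) • q x) := by
    intro i
    rw [dd_Wv N k (e i) hp.differentiable hq.differentiable,
      dd_Wv N k (e i) ((hp.dd (e i)).sub (hq.const_smul (N * ⟪k, e i⟫))).differentiable
        ((hq.dd (e i)).add (hp.const_smul (N * ⟪k, e i⟫))).differentiable]
    unfold Wv
    simp only []
    rw [dd_sub _ _ ((hp.dd (e i)).diffAt x) ((hq.const_smul (N * ⟪k, e i⟫)).diffAt x),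
      dd_add _ _ ((hq.dd (e i)).diffAt x) ((hp.const_smul (N * ⟪k, e i⟫)).diffAt x),
      dd_const_smul _ _ _ (hq.diffAt x), dd_const_smul _ _ _ (hp.diffAt x), e_inner]
    module
  have h2 : ∀ r : E → F, ∑ i : Fin 3, (N ^ 2 * (k i) ^ 2) • r x = N ^ 2 • r x := by
    intro r
    rw [← Finset.sum_smul, ← Finset.mul_sum, sum_sq, hk]
    simp
  have h3 : ∀ r : E → F, ∑ i : Fin 3, (2 * N) • ((k i) • dd (e i) r x) = (2 * N) • dd k r x := by
    intro r
    rw [← Finset.smul_sum, sum_dd_e]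
  unfold lap
  rw [Finset.sum_congr rfl fun i _ => h1 i, Finset.sum_add_distrib, ← Finset.smul_sum, ← Finset.smul_sum]
  simp only [Finset.sum_sub_distrib, Finset.sum_add_distrib, h2, h3]
  rfl

/-- The field of the wave `gS`. -/
theorem stream_gS (N : ℝ) {k ξ : E} {a : E → ℝ} (hk : ‖k‖ = 1) (hkξ : ⟪k, ξ⟫ = 0) (ha : IsBV a) :
    stream k ξ (gS N k a) = Wv N k (stream k ξ a) (fun y => (N * a y) • ξ) := by
  have h0 : gS N k a = Wv N k a (fun _ => (0 : ℝ)) := by
    funext y; simp [gS, Wv]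
  have hkk : ⟪k, k⟫ = (1 : ℝ) := by rw [real_inner_self_eq_norm_sq, hk]; norm_num
  funext x
  unfold stream
  rw [h0, dd_Wv N k k ha.differentiable (differentiable_const _), dd_Wv N k ξ ha.differentiable (differentiable_const _)]
  unfold Wv
  simp only [hkk, hkξ, smul_eq_mul, mul_zero, sub_zero, zero_mul, add_zero, mul_one]
  have : ∀ v : E, dd v (fun _ : E => (0 : ℝ)) x = 0 := fun v => by simp [dd]
  simp only [this]
  module

/-- The field of the corrector `gC`. -/
theorem stream_gC (N : ℝ) (hN : N ≠ 0) {k ξ : E} {c : E → ℝ} (hk : ‖k‖ = 1) (hkξ : ⟪k, ξ⟫ = 0) (hc : IsBV c) :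
    stream k ξ (gC N k c) = Wv N k (fun y => c y • ξ) (fun y => (-(1 / N)) • stream k ξ c y) := by
  have h0 : gC N k c = Wv N k (fun _ => (0 : ℝ)) (fun y => (-(1 / N)) • c y) := by
    funext y; simp [gC, Wv]; ring
  have hkk : ⟪k, k⟫ = (1 : ℝ) := by rw [real_inner_self_eq_norm_sq, hk]; norm_num
  have hc' : IsBV (fun y => (-(1 / N)) • c y) := hc.const_smul _
  funext x
  unfold stream
  rw [h0, dd_Wv N k k (differentiable_const _) hc'.differentiable, dd_Wv N k ξ (differentiable_const _) hc'.differentiable]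
  unfold Wv
  simp only [dd_const_smul _ _ _ (hc.diffAt x)]
  have : ∀ v : E, dd v (fun _ : E => (0 : ℝ)) x = 0 := fun v => by simp [dd]
  simp only [this, hkk, hkξ, smul_eq_mul, mul_zero, sub_zero, zero_mul, add_zero, mul_one]
  have hN' : N * (-(1 / N) * c x) = - c x := by field_simp
  rw [hN']
  module

theorem norm_Wv_le (N : ℝ) (k x : E) (p q : E → F) : ‖Wv N k p q x‖ ≤ ‖p x‖ + ‖q x‖ := by
  unfold Wv
  refine (norm_add_le _ _).trans (add_le_add ?_ ?_)
  · rw [norm_smul]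
    exact mul_le_of_le_one_left (norm_nonneg _) (Real.abs_sin_le_one _)
  · rw [norm_smul]
    exact mul_le_of_le_one_left (norm_nonneg _) (Real.abs_cos_le_one _)

/-- Bound for `sin • u + cos • v`. -/
theorem norm_sc_le (t : ℝ) (u v : F) : ‖Real.sin t • u + Real.cos t • v‖ ≤ ‖u‖ + ‖v‖ := by
  refine (norm_add_le _ _).trans (add_le_add ?_ ?_)
  · rw [norm_smul]
    exact mul_le_of_le_one_left (norm_nonneg _) (Real.abs_sin_le_one _)
  · rw [norm_smul]
    exact mul_le_of_le_one_left (norm_nonneg _) (Real.abs_cos_le_one _)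

theorem norm_dd_le {p : E → F} {C : ℝ} (hC : ∀ x, ‖fderiv ℝ p x‖ ≤ C) (v x : E) : ‖fderiv ℝ p x v‖ ≤ C * ‖v‖ :=
  (fderiv ℝ p x).le_of_opNorm_le (hC x) v

/-- `⟪k, stream k ξ a⟫ = - ∂_ξ a`. -/
theorem inner_stream {k ξ : E} (a : E → ℝ) (hk : ‖k‖ = 1) (hkξ : ⟪k, ξ⟫ = 0) (x : E) :
    ⟪k, stream k ξ a x⟫ = - dd ξ a x := by
  have hkk : ⟪k, k⟫ = (1 : ℝ) := by rw [real_inner_self_eq_norm_sq, hk]; norm_num
  unfold stream
  rw [inner_sub_right, inner_smul_right, inner_smul_right, hkk, hkξ]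
  ring

end Pool.Agent.NSK
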